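import Pool.Agent.Helper86.PS.H9

set_option autoImplicit false

/-!
# Positivity of the singular series
-/

open Finset Filter Topology

namespace Pool.Agent.Helper86.PS

open Pool.Agent.H807R2.Dav

lemma S_lower {s : ℕ} {a h : Fin s → ℤ} {S : ℝ} (hadm : ∀ p : ℕ, p.Prime → nuP a h p < p)
    (hS : HasProd (fun p : Nat.Primes => facP a h (p : ℕ)) S) : cS s / 2 ≤ S := by
  obtain ⟨R, hR⟩ : ∃ R : ℕ, R = 2 * s ^ 2 + 2 * s + 2 := ⟨_, rfl⟩
  have hF0 : ∃ F0 : Finset Nat.Primes, ∀ p ∈ PR R, ∃ q ∈ F0, (q : ℕ) = p := by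
    refine ⟨(PR R).attach.image (fun p => ⟨p.1, (mem_PR.1 p.2).2⟩), ?_⟩
    intro p hp
    exact ⟨⟨p, (mem_PR.1 hp).2⟩, mem_image.2 ⟨⟨p, hp⟩, mem_attach _ _, rfl⟩, rfl⟩
  obtain ⟨F0, hF0⟩ := hF0
  have h0 := SPR_lower hadm R
  have hc := cS_pos s
  unfold HasProd at hS
  rw [SummationFilter.unconditional_filter] at hS
  have hev : ∀ᶠ F : Finset Nat.Primes in atTop, cS s / 2 ≤ ∏ p ∈ F, facP a h (p : ℕ) := by
    filter_upwards [eventually_ge_atTop F0] with F hF
    rw [SPR_mul a h F fun p hp => by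
      obtain ⟨q, hq, hqp⟩ := hF0 p hp
      exact ⟨q, hF hq, hqp⟩]
    have h1 : (1 / 2 : ℝ) ≤ ∏ p ∈ (F.image (fun p : Nat.Primes => (p : ℕ))).filter (fun p => R < p), facP a h p := by
      refine le_trans ?_ (tail_lower (R := R) (s := s) (by omega) (by nlinarith [Nat.zero_le s]) _ (by
        intro p hp
        rw [mem_filter, mem_image] at hp
        obtain ⟨⟨q, _, rfl⟩, hq⟩ := hp
        exact ⟨q.2, hq, hadm _ q.2⟩))
      have hR0 : (0 : ℝ) < R := by
        have : 0 < R := by omega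
        exact_mod_cast this
      have h5 : (s : ℝ) ^ 2 / R ≤ 1 / 2 := by
        rw [div_le_div_iff₀ hR0 (by norm_num)]
        have : (R : ℝ) = 2 * s ^ 2 + 2 * s + 2 := by rw [hR]; push_cast; ring
        rw [this]
        have : (0 : ℝ) ≤ s := Nat.cast_nonneg _
        nlinarith
      linarith
    calc cS s / 2 = cS s * (1 / 2) := by ring
      _ ≤ _ := mul_le_mul h0 h1 (by norm_num) (hc.le.trans h0)
  exact ge_of_tendsto hS hev

lemma S_pos {s : ℕ} {a h : Fin s → ℤ} {S : ℝ} (hadm : ∀ p : ℕ, p.Prime → nuP a h p < p)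
    (hS : HasProd (fun p : Nat.Primes => facP a h (p : ℕ)) S) : 0 < S :=
  lt_of_lt_of_le (by have := cS_pos s; positivity) (S_lower hadm hS)

end Pool.Agent.Helper86.PS
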