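import Pool.Agent.Helper86.PS.H7

set_option autoImplicit false

/-!
# Lines of shifts, the property at a fixed scale
-/

open Finset Filter Topology

namespace Pool.Agent.Helper86.PS

open Pool.Agent.H807R2.Dav

/-- the lines on which all the translates are exceptional -/
lemma lines {s : ℕ} (hs : 1 ≤ s) {a : Fin s → ℤ} (ha : ∀ i, a i ≠ 0) (A N : ℕ) (E' : Finset (Fin s → ℤ)) :
    ∃ E : Finset (Fin s → ℤ), E.card * N ≤ E'.card ∧ ∀ h : Fin s → ℤ, (∀ i, |h i| ≤ A * N) →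
      (∀ e ∈ E, ∀ t : ℤ, h ≠ e + t • a) → ∃ t : ℤ, 0 ≤ t ∧ t < N ∧ h + t • a ∉ E' := by
  classical
  obtain ⟨Bad, hBad⟩ : ∃ Bad : Finset (Fin s → ℤ), Bad = (Bx s (Icc (-(A * N : ℤ)) (A * N))).filter
      (fun h => ∀ t ∈ Ico (0 : ℤ) N, h + t • a ∈ E') := ⟨_, rfl⟩
  have hbox : ∀ h : Fin s → ℤ, h ∈ Bad ↔ (∀ i, |h i| ≤ A * N) ∧ ∀ t ∈ Ico (0 : ℤ) N, h + t • a ∈ E' := by
    intro h
    rw [hBad, mem_filter]
    unfold Bx
    rw [Fintype.mem_piFinset]
    constructor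
    · rintro ⟨h1, h2⟩
      refine ⟨fun i => ?_, h2⟩
      have := h1 i
      rw [mem_Icc] at this
      exact abs_le.2 this
    · rintro ⟨h1, h2⟩
      refine ⟨fun i => ?_, h2⟩
      rw [mem_Icc]
      exact abs_le.1 (h1 i)
  refine ⟨Bad.filter (fun e => ∀ t : ℤ, 1 ≤ t → e - t • a ∉ Bad), ?_, ?_⟩
  · have h1 : ((Bad.filter (fun e => ∀ t : ℤ, 1 ≤ t → e - t • a ∉ Bad)) ×ˢ Ico (0 : ℤ) N).card ≤ E'.card := by
      apply card_le_card_of_injOn (fun p : (Fin s → ℤ) × ℤ => p.1 + p.2 • a)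
      · intro p hp
        rw [mem_coe, mem_product, mem_filter] at hp
        exact ((hbox p.1).1 hp.1.1).2 p.2 hp.2
      · intro p hp r hr hpr
        rw [mem_coe, mem_product, mem_filter] at hp hr
        simp only at hpr
        rcases lt_trichotomy p.2 r.2 with hlt | heq | hgt
        · exfalso
          apply hp.1.2 (r.2 - p.2) (by omega)
          have : p.1 - (r.2 - p.2) • a = r.1 := by
            rw [sub_smul, eq_comm, ← sub_eq_zero]
            have h2 : r.1 - (p.1 - (r.2 • a - p.2 • a)) = (r.1 + r.2 • a) - (p.1 + p.2 • a) := by abel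
            rw [h2, hpr, sub_self]
          rw [this]
          exact hr.1.1
        · apply Prod.ext _ heq
          rw [heq] at hpr
          exact add_right_cancel hpr
        · exfalso
          apply hr.1.2 (p.2 - r.2) (by omega)
          have : r.1 - (p.2 - r.2) • a = p.1 := by
            rw [sub_smul, eq_comm, ← sub_eq_zero]
            have h2 : p.1 - (r.1 - (p.2 • a - r.2 • a)) = (p.1 + p.2 • a) - (r.1 + r.2 • a) := by abel
            rw [h2, hpr, sub_self]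
          rw [this]
          exact hp.1.1
    rwa [card_product, Int.card_Ico, sub_zero, Int.toNat_natCast] at h1
  · intro h hh hne
    by_contra hc
    push Not at hc
    have hhBad : h ∈ Bad := by
      rw [hbox]
      refine ⟨hh, fun t ht => ?_⟩
      rw [mem_Ico] at ht
      exact hc t ht.1 ht.2
    obtain ⟨S, hS⟩ : ∃ S : Finset ℕ, S = (range (2 * A * N + 1)).filter (fun t : ℕ => h - (t : ℤ) • a ∈ Bad) := ⟨_, rfl⟩
    have h0S : 0 ∈ S := by
      rw [hS, mem_filter, mem_range]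
      refine ⟨by omega, ?_⟩
      simpa using hhBad
    obtain ⟨t0, ht0⟩ : ∃ t0 : ℕ, t0 = S.max' ⟨0, h0S⟩ := ⟨_, rfl⟩
    have ht0S : t0 ∈ S := by rw [ht0]; exact max'_mem _ _
    have hmem : h - (t0 : ℤ) • a ∈ Bad := by
      rw [hS, mem_filter] at ht0S
      exact ht0S.2
    apply hne (h - (t0 : ℤ) • a) _ (t0 : ℤ)
    · abel
    · rw [mem_filter]
      refine ⟨hmem, fun t ht hcon => ?_⟩
      have h1 : h - (((t0 + t.toNat : ℕ) : ℤ)) • a ∈ Bad := by
        have e1 : ((t0 + t.toNat : ℕ) : ℤ) = t0 + t := by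
          push_cast
          rw [Int.toNat_of_nonneg (by omega)]
        rw [e1, add_smul, ← sub_sub]
        exact hcon
      have h2 : t0 + t.toNat ∈ S := by
        rw [hS, mem_filter, mem_range]
        refine ⟨?_, h1⟩
        obtain ⟨T, hT⟩ : ∃ T : ℤ, T = ((t0 + t.toNat : ℕ) : ℤ) := ⟨_, rfl⟩
        rw [← hT] at h1
        have h3 := ((hbox _).1 h1).1 ⟨0, hs⟩
        have h4 := hh ⟨0, hs⟩
        simp only [Pi.sub_apply, Pi.smul_apply, smul_eq_mul] at h3
        have h5 : |T * a ⟨0, hs⟩| ≤ 2 * A * N := by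
          have e2 : T * a ⟨0, hs⟩ = h ⟨0, hs⟩ - (h ⟨0, hs⟩ - T * a ⟨0, hs⟩) := by ring
          rw [e2]
          refine (abs_sub _ _).trans ?_
          linarith
        have hT0 : 0 ≤ T := by rw [hT]; exact Int.natCast_nonneg _
        rw [abs_mul, abs_of_nonneg hT0] at h5
        have h6 : 1 ≤ |a ⟨0, hs⟩| := Int.one_le_abs (ha ⟨0, hs⟩)
        have h7 : T ≤ 2 * A * N := by
          calc T = T * 1 := (mul_one T).symm
            _ ≤ T * |a ⟨0, hs⟩| := mul_le_mul_of_nonneg_left h6 hT0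
            _ ≤ _ := h5
        rw [hT] at h7
        have h8 : t0 + t.toNat ≤ 2 * A * N := by exact_mod_cast h7
        omega
      have h3 := le_max' S _ h2
      rw [← ht0] at h3
      omega

lemma pc_translate {s : ℕ} (a h : Fin s → ℤ) (t u v : ℤ) : pc a h u v = pc a (h + t • a) (u - t) (v - t) := by
  unfold pc
  symm
  apply card_bij (fun n _ => n + t)
  · intro n hn
    rw [mem_filter, mem_Ico] at hn ⊢
    refine ⟨by omega, fun i => ?_⟩
    have := hn.2 i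
    have e : a i * (n + t) + h i = a i * n + (h + t • a) i := by
      simp only [Pi.add_apply, Pi.smul_apply, smul_eq_mul]; ring
    rw [e]; exact this
  · intro x _ y _ hxy
    omega
  · intro n hn
    rw [mem_filter, mem_Ico] at hn
    refine ⟨n - t, ?_, by ring⟩
    rw [mem_filter, mem_Ico]
    refine ⟨by omega, fun i => ?_⟩
    have := hn.2 i
    have e : a i * (n - t) + (h + t • a) i = a i * n + h i := by
      simp only [Pi.add_apply, Pi.smul_apply, smul_eq_mul]; ring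
    rw [e]; exact this

lemma nuP_translate {s : ℕ} (a h : Fin s → ℤ) (t : ℤ) {p : ℕ} (hp : 0 < p) : nuP a (h + t • a) p = nuP a h p := by
  have hp0 : (p : ℂ) ≠ 0 := by exact_mod_cast hp.ne'
  classical
  have hper : Per p (fun x : ℤ => if ∃ i, (p : ℤ) ∣ a i * x + h i then (1 : ℂ) else 0) := by
    intro x y hxy
    have : (∃ i, (p : ℤ) ∣ a i * x + h i) ↔ (∃ i, (p : ℤ) ∣ a i * y + h i) := by
      constructor
      · rintro ⟨i, hi⟩
        refine ⟨i, ?_⟩
        have e : a i * y + h i = (a i * x + h i) - a i * (x - y) := by ring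
        rw [e]
        exact dvd_sub hi (Dvd.dvd.mul_left hxy _)
      · rintro ⟨i, hi⟩
        refine ⟨i, ?_⟩
        have e : a i * x + h i = (a i * y + h i) + a i * (x - y) := by ring
        rw [e]
        exact dvd_add hi (Dvd.dvd.mul_left hxy _)
    simp only [this]
  have h1 := mn_affine hper (isCoprime_one_left (x := (p : ℤ))) t
  unfold mn at h1
  have h2 := mul_left_cancel₀ (one_div_ne_zero hp0) h1
  rw [← sum_filter, ← sum_filter, sum_const, sum_const, nsmul_eq_mul, nsmul_eq_mul, mul_one, mul_one] at h2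
  have h3 := Nat.cast_injective h2
  unfold nuP
  have h4 : ((range p).filter (fun x : ℕ => ∃ i, (p : ℤ) ∣ a i * (x : ℤ) + (h + t • a) i)) =
      ((range p).filter (fun x : ℕ => ∃ i, (p : ℤ) ∣ a i * (1 * (x : ℤ) + t) + h i)) := by
    apply filter_congr
    intro x _
    have : ∀ i, a i * (x : ℤ) + (h + t • a) i = a i * (1 * (x : ℤ) + t) + h i := by
      intro i
      simp only [Pi.add_apply, Pi.smul_apply, smul_eq_mul]; ring
    simp only [this]
  rw [h4]
  exact h3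

/-- the asymptotic formula holds with a power saving at the scale `N` -/
def PSP (s A : ℕ) (ε δ : ℝ) (N : ℕ) : Prop :=
  ∀ a : Fin s → ℤ, (∀ i, a i ≠ 0 ∧ |a i| ≤ A) → ∃ E : Finset (Fin s → ℤ), (E.card : ℝ) ≤ (N : ℝ) ^ ((s : ℝ) - 1 - δ) ∧
    ∀ h : Fin s → ℤ, (∀ i, |h i| ≤ A * N) → (∀ e ∈ E, ∀ t : ℤ, h ≠ e + t • a) → (∀ p : ℕ, p.Prime → nuP a h p < p) →
    ∃ S : ℝ, HasProd (fun p : Nat.Primes => facP a h (p : ℕ)) S ∧ ∀ u v : ℤ, -(N : ℤ) ≤ u → v ≤ N →
      (N : ℝ) ^ (1 - δ) ≤ ((v - u : ℤ) : ℝ) → (∀ n ∈ Ico u v, ∀ i, 1 ≤ a i * n + h i) →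
      |(pc a h u v : ℝ) - S * (((v - u : ℤ) : ℝ) / Real.log N ^ s)| ≤ ε * (S * (((v - u : ℤ) : ℝ) / Real.log N ^ s))

theorem fixed_scale (s : ℕ) (hs : 1 ≤ s) (A : ℕ) (hA : 1 ≤ A) {ε : ℝ} (hε0 : 0 < ε) (hε1 : ε ≤ 1) (L1 L2 : ℕ)
    (hL1 : lE s ≤ L1) (hL1κ : 160 * (s : ℝ) ≤ ε * L1) (hL2 : 1 ≤ L2) : ∃ Q0 : ℕ, ∀ Q : ℕ, Q0 ≤ Q → ∀ N : ℕ, Q ^ L1 ≤ N →
    N ≤ Q ^ L2 → ∀ B : PC → ℝ, HW Q ((4 * A + 1) * N) B → ∀ ε' : ℝ, ∑ j ∈ fam Q, B j ≤ ε' → (1 + ε') ^ s - 1 ≤ ε / 40 →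
    ε' ≤ 1 → PSP s A ε (1 / (64 * L2)) N := by
  have hAr : (1 : ℝ) ≤ A := by exact_mod_cast hA
  have hL2r : (1 : ℝ) ≤ L2 := by exact_mod_cast hL2
  obtain ⟨C2, hC2⟩ : ∃ C2 : ℝ, C2 = (5 * (A : ℝ)) ^ s * (5000 * (A : ℝ) ^ 2 + (s : ℝ) ^ 2) := ⟨_, rfl⟩
  have hC20 : 0 ≤ C2 := by rw [hC2]; positivity
  obtain ⟨Q1, hQ1⟩ := card_EX s hs A hA L1 L2 hL1
  obtain ⟨Q2, hQ2⟩ := per_h s hs A (κ := ε / 10) (by positivity) (by linarith) L1 L2 hL1 (by linarith)
  obtain ⟨Q3, hQ3⟩ := ev_log C2 0 (a := 1 / 64) (by norm_num)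
  refine ⟨Q1 + Q2 + Q3 + 3, fun Q hQ N hN1 hN2 B hw ε' hBs hε' hε'1 => ?_⟩
  intro a haa
  have ha : ∀ i, a i ≠ 0 := fun i => (haa i).1
  have haA : ∀ i, |a i| ≤ A := fun i => (haa i).2
  have hQ1' : 1 ≤ Q := by omega
  have hQr : (1 : ℝ) ≤ Q := by exact_mod_cast hQ1'
  obtain ⟨q, hq⟩ : ∃ q : ℝ, q = qq Q := ⟨_, rfl⟩
  have hq1 : 1 ≤ q := by rw [hq]; exact qq_ge hQ1'
  have hq0 : 0 < q := by linarith
  have hC2q : C2 ≤ q := by
    have := hQ3 Q (by omega)
    rw [pow_zero, mul_one] at this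
    rw [hq]
    exact this
  have hNpos : 0 < N := lt_of_lt_of_le (by positivity) hN1
  have hN0 : (0 : ℝ) < N := by exact_mod_cast hNpos
  have hN1r : (1 : ℝ) ≤ N := by exact_mod_cast hNpos
  obtain ⟨δ, hδ⟩ : ∃ δ : ℝ, δ = 1 / (64 * L2) := ⟨_, rfl⟩
  rw [← hδ]
  have hδ0 : 0 < δ := by rw [hδ]; positivity
  have hNδ : (N : ℝ) ^ δ ≤ q := by
    have h1 : (N : ℝ) ^ δ ≤ ((Q : ℝ) ^ L2) ^ δ := by
      apply Real.rpow_le_rpow hN0.le _ hδ0.le
      exact_mod_cast hN2
    refine h1.trans (le_of_eq ?_)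
    rw [hq, ← Real.rpow_natCast, ← Real.rpow_mul (by linarith)]
    unfold qq
    congr 1
    rw [hδ]
    field_simp
  have hNδ0 : 0 < (N : ℝ) ^ δ := Real.rpow_pos_of_pos hN0 _
  obtain ⟨E, hE1, hE2⟩ := lines hs ha A N (EX Q N A a)
  refine ⟨E, ?_, ?_⟩
  · have h1 := hQ1 Q (by omega) N hN1 hN2 B hw (hBs.trans hε'1) a ha
    rw [← hC2, ← hq] at h1
    have h2 : (E.card : ℝ) * N ≤ C2 * ((N : ℝ) ^ s / q ^ 8) := by
      refine le_trans ?_ h1
      exact_mod_cast hE1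
    have h3 : C2 * ((N : ℝ) ^ s / q ^ 8) ≤ (N : ℝ) ^ s / (N : ℝ) ^ δ := by
      have e1 : C2 * ((N : ℝ) ^ s / q ^ 8) ≤ q * ((N : ℝ) ^ s / q ^ 8) := mul_le_mul_of_nonneg_right hC2q (by positivity)
      refine e1.trans ?_
      have e2 : q * ((N : ℝ) ^ s / q ^ 8) = (N : ℝ) ^ s / q ^ 7 := by field_simp
      rw [e2]
      apply div_le_div_of_nonneg_left (by positivity) hNδ0
      exact hNδ.trans (le_self_pow₀ hq1 (by norm_num))
    have h4 : (N : ℝ) ^ ((s : ℝ) - 1 - δ) = (N : ℝ) ^ s / (N : ℝ) ^ δ / N := by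
      rw [Real.rpow_sub hN0, Real.rpow_sub hN0, Real.rpow_one, Real.rpow_natCast]
      field_simp
    rw [h4, le_div_iff₀ hN0]
    linarith
  · intro h hh hne hadm
    obtain ⟨t, ht0, htN, htE⟩ := hE2 h hh hne
    obtain ⟨h', hh'⟩ : ∃ h' : Fin s → ℤ, h' = h + t • a := ⟨_, rfl⟩
    rw [← hh'] at htE
    have hnu : ∀ p : ℕ, p.Prime → nuP a h' p = nuP a h p := fun p hp => by rw [hh']; exact nuP_translate a h t hp.pos
    have hadm' : ∀ p : ℕ, p.Prime → nuP a h' p < p := fun p hp => by rw [hnu p hp]; exact hadm p hp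
    have hh'b : ∀ i, |h' i| ≤ 2 * A * N := by
      intro i
      have e1 : h' i = h i + t * a i := by rw [hh']; simp
      rw [e1]
      refine (abs_add_le _ _).trans ?_
      rw [abs_mul, abs_of_nonneg ht0]
      have e2 : t * |a i| ≤ N * A := mul_le_mul htN.le (haA i) (abs_nonneg _) (Int.natCast_nonneg _)
      have e3 := hh i
      linarith
    have hbox : h' ∈ Bx s (bJ A N) := by
      unfold Bx bJ
      rw [Fintype.mem_piFinset]
      intro i
      rw [mem_Icc]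
      exact abs_le.1 (hh'b i)
    have hΔ' : Del a h' ≠ 0 := by
      intro hc
      apply htE
      unfold EX
      rw [mem_filter]
      exact ⟨hbox, Or.inl hc⟩
    have hDI : ∀ k1 k2 : ℤ, |k1| ≤ 2 * KK Q → |k2| ≤ 2 * KK Q →
        ‖DI Q ((4 * A + 1) * N) a h' (k1 * cellG Q N) (k2 * cellG Q N)‖ ≤ N / qq Q ^ 4 := by
      intro k1 k2 hk1 hk2
      by_contra hc
      push Not at hc
      apply htE
      unfold EX
      rw [mem_filter]
      refine ⟨hbox, Or.inr ⟨(k1, k2), ?_, hc⟩⟩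
      rw [mem_product]
      unfold kJ
      rw [mem_Icc, mem_Icc]
      exact ⟨abs_le.1 hk1, abs_le.1 hk2⟩
    obtain ⟨S, hS⟩ := exists_facP ha hΔ' hadm'
    refine ⟨S, ?_, ?_⟩
    · have : (fun p : Nat.Primes => facP a h (p : ℕ)) = (fun p : Nat.Primes => facP a h' (p : ℕ)) := by
        funext p
        unfold facP
        rw [hnu p p.2]
      rw [this]
      exact hS
    · intro u v hu hv hW hpos
      have h1 := hQ2 Q (by omega) N hN1 hN2 B hw ε' hBs (by linarith) a h' ha haA hh'b hΔ' hadm' hDI S hS (u - t) (v - t)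
        (by linarith) (by linarith) (by
          have e1 : v - t - (u - t) = v - u := by ring
          rw [e1]
          refine le_trans ?_ hW
          have e2 : (N : ℝ) ^ (1 - δ) = N / (N : ℝ) ^ δ := by rw [Real.rpow_sub hN0, Real.rpow_one]
          rw [e2, ← hq]
          exact div_le_div_of_nonneg_left hN0.le hNδ0 hNδ) (by
          intro n hn i
          rw [mem_Ico] at hn
          have e1 : a i * n + h' i = a i * (n + t) + h i := by
            rw [hh']; simp only [Pi.add_apply, Pi.smul_apply, smul_eq_mul]; ring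
          rw [e1]
          exact hpos (n + t) (mem_Ico.2 ⟨by omega, by omega⟩) i)
      have e1 : v - t - (u - t) = v - u := by ring
      rw [e1] at h1
      rw [pc_translate a h t u v, ← hh']
      have e2 : 10 * (ε / 10) = ε := by ring
      rw [e2] at h1
      exact h1

end Pool.Agent.Helper86.PS
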