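import Pool.Agent.Helper86.PS.H8

set_option autoImplicit false

/-!
# Most scales
-/

open Finset Filter Topology

namespace Pool.Agent.Helper86.PS

open Pool.Agent.H807R2.Dav

open _root_.Classical in
/-- the property holds at most scales -/
def MostSc (ε : ℝ) (P : ℕ → Prop) : Prop :=
  ∀ R₀ : ℕ, ∃ R : ℕ, R₀ ≤ R ∧ ∑ N ∈ (Icc 1 R).filter (fun N => ¬ P N), (1 : ℝ) / N ≤ ε * Real.log R

lemma harm_le_log (n : ℕ) : ∑ N ∈ Icc 1 n, (1 : ℝ) / N ≤ 1 + Real.log n := by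
  have h := harmonic_le_one_add_log n
  rw [harmonic_eq_sum_Icc] at h
  push_cast at h
  simpa [one_div] using h

lemma most_range {ε : ℝ} {E : ℕ} (hE : ∀ Q0 : ℕ, ∃ Q : ℕ, Q0 ≤ Q ∧ Pool.Agent.TH823.PS.NE 44 E Q) {P : ℕ → Prop}
    {L1 L2 Q0 : ℕ} (hL2 : (L1 + 1 : ℝ) ≤ ε * L2)
    (h : ∀ Q : ℕ, Q0 ≤ Q → Pool.Agent.TH823.PS.NE 44 E Q → ∀ N : ℕ, Q ^ L1 ≤ N → N ≤ Q ^ L2 → P N) : MostSc ε P := by
  classical
  intro R₀
  obtain ⟨Q, hQ, hNE⟩ := hE (Q0 + R₀ + 3)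
  have hQ3n : 3 ≤ Q := by omega
  have hQ3 : (3 : ℝ) ≤ Q := by exact_mod_cast hQ3n
  have hQ0 : (0 : ℝ) < Q := by linarith
  have hL20 : L2 ≠ 0 := by
    intro hc
    rw [hc] at hL2
    have : (0 : ℝ) ≤ L1 := Nat.cast_nonneg _
    push_cast at hL2
    linarith
  refine ⟨Q ^ L2, ?_, ?_⟩
  · calc R₀ ≤ Q := by omega
      _ ≤ Q ^ L2 := Nat.le_self_pow hL20 Q
  · obtain ⟨ℓ, hℓ⟩ : ∃ ℓ : ℝ, ℓ = Real.log Q := ⟨_, rfl⟩
    have hℓ1 : 1 ≤ ℓ := by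
      rw [hℓ, Real.le_log_iff_exp_le hQ0]
      linarith [Real.exp_one_lt_d9]
    have h1 : (Icc 1 (Q ^ L2)).filter (fun N => ¬ P N) ⊆ Icc 1 (Q ^ L1) := by
      intro N hN
      rw [mem_filter, mem_Icc] at hN
      rw [mem_Icc]
      refine ⟨hN.1.1, ?_⟩
      by_contra hc
      push Not at hc
      exact hN.2 (h Q (by omega) hNE N hc.le hN.1.2)
    calc ∑ N ∈ (Icc 1 (Q ^ L2)).filter (fun N => ¬ P N), (1 : ℝ) / N ≤ ∑ N ∈ Icc 1 (Q ^ L1), (1 : ℝ) / N :=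
          sum_le_sum_of_subset_of_nonneg h1 fun _ _ _ => by positivity
      _ ≤ 1 + Real.log ((Q ^ L1 : ℕ) : ℝ) := harm_le_log _
      _ = 1 + L1 * ℓ := by
        push_cast
        rw [Real.log_pow, ← hℓ]
      _ ≤ (L1 + 1) * ℓ := by linarith
      _ ≤ ε * L2 * ℓ := mul_le_mul_of_nonneg_right hL2 (by linarith)
      _ = ε * Real.log ((Q ^ L2 : ℕ) : ℝ) := by
        push_cast
        rw [Real.log_pow, ← hℓ]
        ring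

/-- the window property from the short sums -/
lemma hw_of_short {L0 L2 : ℕ} : ∃ Q0 : ℕ, ∀ Q : ℕ, Q0 ≤ Q → ∀ b : PC → ℝ, (∀ j ∈ fam Q, 0 ≤ b j) →
    (∀ j ∈ fam Q, ∀ y H : ℕ, Q ^ L0 ≤ y → Real.log (y + H : ℕ) ≤ Q → y + H ≤ H * Q ^ 6 →
      ‖∑ n ∈ Finset.Ioc y (y + H), fn j n * (ArithmeticFunction.vonMangoldt n : ℂ) - dl j * H‖ ≤ b j * H) →
    ∀ M : ℕ, Q ^ (L0 + 6) ≤ M → M ≤ Q ^ L2 → HW Q M b := by
  obtain ⟨Q1, hQ1⟩ := ev_log (L2 : ℝ) 1 (a := 1) one_pos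
  refine ⟨Q1 + 3, fun Q hQ b hb0 hb M hM1 hM2 => ⟨hb0, fun j hj n hn1 hn2 => ?_⟩⟩
  have hQ3n : 3 ≤ Q := by omega
  have hQ3 : (3 : ℝ) ≤ Q := by exact_mod_cast hQ3n
  have hQ0 : (0 : ℝ) < Q := by linarith
  have hQM : ∀ k : ℕ, k ≤ L0 + 6 → Q ^ k ≤ M := fun k hk => (Nat.pow_le_pow_right (by omega) hk).trans hM1
  have hM0 : (0 : ℝ) < M := by
    have : 0 < M := lt_of_lt_of_le (by positivity) hM1
    exact_mod_cast this
  obtain ⟨H, hH⟩ : ∃ H : ℕ, H = M / Q ^ 4 := ⟨_, rfl⟩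
  rw [← hH] at hn2 ⊢
  have hHpos : 0 < H := by rw [hH]; exact Nat.div_pos (hQM 4 (by omega)) (by positivity)
  refine wj_near hHpos (hb0 j hj) (fun y => hb j hj y H) ?_ ?_ ?_ hn2
  · have h1 := hQ1 Q (by omega)
    rw [pow_one, Real.rpow_one] at h1
    refine le_trans ?_ h1
    have : Real.log M ≤ Real.log ((Q : ℝ) ^ L2) := Real.log_le_log hM0 (by exact_mod_cast hM2)
    rwa [Real.log_pow] at this
  · have h1 : M < (H + 1) * Q ^ 4 := by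
      rw [hH]
      have := Nat.lt_mul_div_succ M (b := Q ^ 4) (by positivity)
      calc M < Q ^ 4 * (M / Q ^ 4 + 1) := this
        _ = (M / Q ^ 4 + 1) * Q ^ 4 := by ring
    have h2 : (H + 1) * Q ^ 4 ≤ (H * 2) * Q ^ 4 := Nat.mul_le_mul_right _ (by omega)
    have h3 : (H * 2) * Q ^ 4 ≤ H * Q ^ 6 := by
      have : 2 ≤ Q ^ 2 := by nlinarith
      calc (H * 2) * Q ^ 4 = H * (2 * Q ^ 4) := by ring
        _ ≤ H * (Q ^ 2 * Q ^ 4) := Nat.mul_le_mul_left _ (Nat.mul_le_mul_right _ this)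
        _ = H * Q ^ 6 := by ring
    omega
  · refine le_trans ?_ hn1
    have h1 : Q ^ L0 + H ≤ M / Q ^ 3 := by
      rw [Nat.le_div_iff_mul_le (by positivity), add_mul]
      have e1 : Q ^ L0 * Q ^ 3 * 2 ≤ M := by
        calc Q ^ L0 * Q ^ 3 * 2 ≤ Q ^ L0 * Q ^ 3 * Q := Nat.mul_le_mul_left _ (by omega)
          _ = Q ^ (L0 + 4) := by ring
          _ ≤ M := hQM _ (by omega)
      have e2 : H * Q ^ 3 * 2 ≤ M := by
        calc H * Q ^ 3 * 2 ≤ H * Q ^ 3 * Q := Nat.mul_le_mul_left _ (by omega)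
          _ = Q ^ 4 * (M / Q ^ 4) := by rw [hH]; ring
          _ ≤ M := Nat.mul_div_le M _
      omega
    exact_mod_cast h1

theorem most (s : ℕ) (hs : 1 ≤ s) (A : ℕ) (hA : 1 ≤ A) {ε : ℝ} (hε : 0 < ε) :
    ∃ δ : ℝ, 0 < δ ∧ MostSc ε (PSP s A ε δ) := by
  have hsr : (1 : ℝ) ≤ s := by exact_mod_cast hs
  obtain ⟨ε0, hε0d⟩ : ∃ ε0 : ℝ, ε0 = min ε 1 := ⟨_, rfl⟩
  have hε00 : 0 < ε0 := by rw [hε0d]; exact lt_min hε one_pos
  have hε01 : ε0 ≤ 1 := by rw [hε0d]; exact min_le_right _ _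
  have hε0ε : ε0 ≤ ε := by rw [hε0d]; exact min_le_left _ _
  obtain ⟨E1, hE1⟩ := short_main
  obtain ⟨E2, hE2⟩ := Pool.Agent.TH823.PS.good_scales
  obtain ⟨E, hE⟩ : ∃ E : ℕ, E = E1 + E2 := ⟨_, rfl⟩
  obtain ⟨ε', hε'⟩ : ∃ ε' : ℝ, ε' = ε0 / (80 * s) := ⟨_, rfl⟩
  have hε'0 : 0 < ε' := by rw [hε']; positivity
  have hsε' : s * ε' = ε0 / 80 := by rw [hε']; field_simp
  have hε'1 : ε' ≤ 1 := by
    have : 1 * ε' ≤ s * ε' := mul_le_mul_of_nonneg_right hsr hε'0.le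
    linarith
  have hpow : (1 + ε') ^ s - 1 ≤ ε0 / 40 := by
    have h1 : (1 + ε') ^ s ≤ Real.exp (s * ε') := by
      rw [Real.exp_nat_mul]
      apply pow_le_pow_left₀ (by linarith)
      linarith [Real.add_one_le_exp ε']
    have h2 : Real.exp (s * ε') ≤ (1 - s * ε')⁻¹ := by
      have h3 := Real.add_one_le_exp (-(s * ε'))
      rw [Real.exp_neg] at h3
      have h4 : 0 < 1 - s * ε' := by rw [hsε']; linarith
      rw [le_inv_comm₀ (Real.exp_pos _) h4]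
      linarith
    have h3 : (1 - s * ε')⁻¹ ≤ 1 + ε0 / 40 := by
      rw [hsε', inv_le_iff_one_le_mul₀ (by linarith)]
      nlinarith
    linarith
  obtain ⟨L0, Q1, hQ1⟩ := hE1 E (by omega) ε' hε'0
  obtain ⟨k1, hk1⟩ := exists_nat_ge (160 * (s : ℝ) / ε0)
  obtain ⟨L1, hL1⟩ : ∃ L1 : ℕ, L1 = lE s + k1 + L0 + 6 := ⟨_, rfl⟩
  obtain ⟨k2, hk2⟩ := exists_nat_ge (((L1 : ℝ) + 1) / ε0)
  obtain ⟨L2, hL2⟩ : ∃ L2 : ℕ, L2 = k2 + 1 := ⟨_, rfl⟩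
  have hL1κ : 160 * (s : ℝ) ≤ ε0 * L1 := by
    have h1 : (k1 : ℝ) ≤ L1 := by exact_mod_cast (by omega : k1 ≤ L1)
    have h2 := hk1.trans h1
    rw [div_le_iff₀ hε00] at h2
    linarith
  have hL2κ : (L1 + 1 : ℝ) ≤ ε0 * L2 := by
    have h1 : (k2 : ℝ) ≤ L2 := by exact_mod_cast (by omega : k2 ≤ L2)
    have h2 := hk2.trans h1
    rw [div_le_iff₀ hε00] at h2
    linarith
  obtain ⟨Q2, hQ2⟩ := fixed_scale s hs A hA hε00 hε01 L1 L2 (by omega) hL1κ (by omega)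
  obtain ⟨Q3, hQ3⟩ := hw_of_short (L0 := L0) (L2 := L2 + 1)
  refine ⟨1 / (64 * L2), by rw [hL2]; positivity, ?_⟩
  refine most_range (E := E) (L1 := L1) (L2 := L2) (Q0 := Q1 + Q2 + Q3 + 4 * A + 3) (fun Q0 => hE2 E (by omega) 44 (by norm_num) Q0)
    (hL2κ.trans (mul_le_mul_of_nonneg_right hε0ε (Nat.cast_nonneg _))) ?_
  intro Q hQ hNE N hN1 hN2
  obtain ⟨b, hb0, hbs, hb⟩ := hQ1 Q (by omega) hNE
  have hNM : N ≤ (4 * A + 1) * N := by nlinarith [Nat.zero_le A]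
  have hw := hQ3 Q (by omega) b hb0 hb ((4 * A + 1) * N)
    (((Nat.pow_le_pow_right (by omega) (by omega : L0 + 6 ≤ L1)).trans hN1).trans hNM) (by
      calc (4 * A + 1) * N ≤ Q * Q ^ L2 := Nat.mul_le_mul (by omega) hN2
        _ = Q ^ (L2 + 1) := by ring)
  have hp := hQ2 Q (by omega) N hN1 hN2 b hw ε' hbs hpow hε'1
  intro a ha
  obtain ⟨Ex, hEx1, hEx2⟩ := hp a ha
  refine ⟨Ex, hEx1, fun h hh hne hadm => ?_⟩
  obtain ⟨S, hS, hS2⟩ := hEx2 h hh hne hadm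
  refine ⟨S, hS, fun u v hu hv hW hpos => ?_⟩
  have h1 := hS2 u v hu hv hW hpos
  refine h1.trans ?_
  have h2 : 0 ≤ ε0 * (S * (((v - u : ℤ) : ℝ) / Real.log N ^ s)) := (abs_nonneg _).trans h1
  have h3 : 0 ≤ S * (((v - u : ℤ) : ℝ) / Real.log N ^ s) := nonneg_of_mul_nonneg_right h2 hε00
  exact mul_le_mul_of_nonneg_right hε0ε h3

end Pool.Agent.Helper86.PS
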