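import Pool.Agent.Helper86.PS.E1

set_option autoImplicit false

/-!
# Zero free region at scales without exceptional character
-/

open Complex Filter Topology Set MeasureTheory Metric Finset
open scoped ArithmeticFunction.vonMangoldt

namespace Pool.Agent.Helper86.PS

open H370 H370.Loc Pool.Agent.W66 Pool.Agent.W66L Pool.Agent.TH823.PS

/-- zero free region at a scale without exceptional character -/
theorem zfree : ∃ E0 : ℕ, 1 ≤ E0 ∧ ∀ E : ℕ, E0 ≤ E → ∀ A Q : ℕ, 2 ≤ A → 3 ≤ Q → NE A E Q →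
    ∀ (q : ℕ) [NeZero q], q ≤ Q → ∀ χ : DirichletCharacter ℂ q, χ ≠ 1 → ∀ ρ : ℂ,
    χ.LFunction ρ = 0 → lq q (2 * ρ.im) ≤ A * Real.log Q →
    ρ.re ≤ 1 - 1 / (A * E ^ 2 * Real.log Q) := by
  obtain ⟨K, hK, hD⟩ := DL_re
  obtain ⟨C1, hC1, hps⟩ := prime_sum
  obtain ⟨C2, hC2, hlow⟩ := lower_all
  obtain ⟨C3, hC3, hV⟩ := lam_series
  obtain ⟨CW, hCW, hW⟩ := WW_est
  set B0 : ℝ := 1 + C3 + K with hB0
  obtain ⟨E1, hE1⟩ := exists_nat_ge (Real.exp (20 * (B0 + C1 + C2) + CW + 1))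
  refine ⟨E1 + 2, by omega, fun E hE A Q hA hQ hne q _ hqQ χ hχ ρ hρ hlq => ?_⟩
  by_contra hcon
  push Not at hcon
  have hE2 : 2 ≤ E := by omega
  have hEr : (2 : ℝ) ≤ E := by exact_mod_cast hE2
  have hAr : (2 : ℝ) ≤ A := by exact_mod_cast hA
  have hL := log_ge_one hQ
  set ℓ := Real.log Q with hℓ
  have hQ0 : 0 < Q := by omega
  set y := Q ^ A with hy
  set z := Q ^ (A * E) with hz
  have hyz : y ≤ z := Nat.pow_le_pow_right hQ0 (Nat.le_mul_of_pos_right A (by omega))
  have hy3 : 3 ≤ y := hQ.trans (Nat.le_self_pow (by omega) Q)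
  have hQy : Q ≤ y := Nat.le_self_pow (by omega) Q
  have hlogy : Real.log (y : ℕ) = A * ℓ := by
    rw [hy]; push_cast; rw [Real.log_pow]
  have hlogz : Real.log (z : ℕ) = A * E * ℓ := by
    rw [hz]; push_cast; rw [Real.log_pow]; push_cast; ring
  set t := ρ.im with ht
  set η := 1 - ρ.re with hη
  have hAℓ : 2 ≤ A * ℓ := by nlinarith
  have hAE : 0 < A * (E : ℝ) ^ 2 * ℓ := by positivity
  have hη1 : η < 1 / (A * E ^ 2 * ℓ) := by rw [hη]; linarith
  have hη0 : 0 < η := by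
    rw [hη]
    by_contra hc
    exact LF_ne_zero hχ (by linarith) hρ
  have hη8 : η ≤ 1 / 8 := by
    refine hη1.le.trans ?_
    rw [div_le_div_iff₀ hAE (by norm_num)]
    nlinarith [mul_le_mul hAℓ (pow_le_pow_left₀ (by norm_num) hEr 2) (by norm_num) (by positivity)]
  have hqr : lq q t ≤ A * ℓ := by
    refine le_trans ?_ hlq
    unfold lq
    have := ell_mono (s := t) (t := 2 * t) (by rw [abs_mul, abs_two]; have := abs_nonneg t; linarith)
    linarith
  have hqr0 : lq q t ≥ 1 := one_le_lq q t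
  have hball : ρ ∈ closedBall (⟨2, t⟩ : ℂ) (3 / 2) := by
    rw [mem_closedBall, dist_eq_norm]
    have e : ρ - ⟨2, t⟩ = ((ρ.re - 2 : ℝ) : ℂ) := by
      apply Complex.ext <;> simp [ht]
    rw [e, Complex.norm_real, Real.norm_eq_abs, abs_le]
    constructor <;> linarith
  -- the weights
  set r : ℕ → ℝ := fun n => (1 + rt χ t n) / 2 with hr
  have hr1 : ∀ n, |r n| ≤ 1 := by
    intro n
    have := abs_le.1 (abs_rt_le χ t n)
    rw [hr, abs_le]
    constructor
    · simp only; linarith [this.1]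
    · simp only; linarith [this.2]
  have hlz1 : 1 < Real.log (z : ℕ) := log_ge_one (hy3.trans hyz)
  have hly1 : 1 < Real.log (y : ℕ) := log_ge_one hy3
  have hup := hps r hr1 y z hy3 hyz (B0 * Real.log (y : ℕ)) (by positivity) (by
    intro σ hσ1 hσ2
    have hσ : 1 < σ := by
      have : 0 < 1 / Real.log (z : ℕ) := one_div_pos.2 (by linarith)
      linarith
    have hσ' : σ ≤ 2 := by
      have : 1 / Real.log (y : ℕ) ≤ 1 := by rw [div_le_one (by linarith)]; exact hly1.le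
      linarith
    obtain ⟨V, hV1, hV2⟩ := hV σ hσ hσ'
    have hs := Complex.hasSum_re (ct_summable χ hσ t).hasSum
    have hs' : HasSum (fun n : ℕ => rt χ t n * (Λ n) * (n : ℝ) ^ (-σ))
        (LSeries ((fun n : ℕ => (χ n : ℂ)) * (fun n : ℕ => (Λ n : ℂ))) (⟨σ, t⟩ : ℂ)).re := by
      convert hs using 1
      · ext n
        exact (term_ct χ σ t n).symm
      · rfl
    have hsum := ((hV1.add hs').mul_left (1 / 2))
    have e1 : (fun n : ℕ => r n * (Λ n) * (n : ℝ) ^ (-σ)) = fun n : ℕ => 1 / 2 *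
        ((Λ n) * (n : ℝ) ^ (-σ) + rt χ t n * (Λ n) * (n : ℝ) ^ (-σ)) := by
      ext n
      simp only [hr]
      ring
    rw [e1, hsum.tsum_eq, LSeries_eq_DL χ hχ (by exact hσ), Complex.neg_re]
    have d1 := (hD q χ hχ t σ hσ hσ').2 ρ hball hρ
    have e2 : (1 / ((⟨σ, t⟩ : ℂ) - ρ)).re = 1 / (σ - ρ.re) := by
      have e : (⟨σ, t⟩ : ℂ) - ρ = ((σ - ρ.re : ℝ) : ℂ) := by
        apply Complex.ext <;> simp [ht]
      rw [e, ← Complex.ofReal_one, ← Complex.ofReal_div, Complex.ofReal_re]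
    rw [e2] at d1
    have hs1 : 0 < σ - 1 := by linarith
    have hs2 : 0 < σ - ρ.re := by linarith
    have e3 : 1 / (σ - 1) - 1 / (σ - ρ.re) ≤ Real.log (y : ℕ) := by
      have e4 : 1 / (σ - 1) - 1 / (σ - ρ.re) = η / ((σ - 1) * (σ - ρ.re)) := by
        rw [hη]; field_simp; ring
      rw [e4]
      have h1 : 1 / Real.log (z : ℕ) ≤ σ - 1 := by linarith
      have h2 : 1 / Real.log (z : ℕ) ≤ σ - ρ.re := by linarith
      have h3 : 0 < 1 / Real.log (z : ℕ) := one_div_pos.2 (by linarith)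
      have h4 : (1 / Real.log (z : ℕ)) * (1 / Real.log (z : ℕ)) ≤ (σ - 1) * (σ - ρ.re) :=
        mul_le_mul h1 h2 h3.le hs1.le
      calc η / ((σ - 1) * (σ - ρ.re)) ≤ η / ((1 / Real.log (z : ℕ)) * (1 / Real.log (z : ℕ))) :=
            div_le_div_of_nonneg_left hη0.le (by positivity) h4
        _ = η * (Real.log (z : ℕ)) ^ 2 := by
            have : Real.log (z : ℕ) ≠ 0 := by linarith
            field_simp
        _ ≤ 1 / (A * E ^ 2 * ℓ) * (A * E * ℓ) ^ 2 := by
            rw [hlogz]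
            apply mul_le_mul_of_nonneg_right hη1.le (by positivity)
        _ = A * ℓ := by
            have h5 : (A : ℝ) ≠ 0 := by linarith
            have h6 : (E : ℝ) ≠ 0 := by linarith
            have h7 : ℓ ≠ 0 := by linarith
            field_simp
        _ = _ := hlogy.symm
    have e5 : K * lq q t ≤ K * Real.log (y : ℕ) := by
      rw [hlogy]
      exact mul_le_mul_of_nonneg_left hqr hK.le
    have e6 : C3 ≤ C3 * Real.log (y : ℕ) := by nlinarith
    rw [hB0]
    nlinarith)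
  have hlo := hlow q y z hy3 hyz (hqQ.trans hQy) (fun χ' h1 h2 => hne q hqQ χ' h1 h2) t
    (by rw [hlogy]; exact hlq) χ
  have hsplit : ∑ p ∈ (Finset.Ioc y z).filter Nat.Prime, r p / p =
      1 / 2 * (WW y z + ∑ p ∈ PP y z, rt χ t p / p) := by
    unfold WW PP
    rw [← Finset.sum_add_distrib, Finset.mul_sum]
    apply Finset.sum_congr rfl
    intro p _
    simp only [hr]
    ring
  rw [hsplit] at hup
  have e7 : B0 * Real.log (y : ℕ) / Real.log (y : ℕ) = B0 := by
    have : Real.log (y : ℕ) ≠ 0 := by linarith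
    field_simp
  rw [e7] at hup
  have hw := (abs_le.1 (hW Q A (A * E) hQ (by omega) (Nat.le_mul_of_pos_right A (by omega)))).1
  have e8 : ((A * E : ℕ) : ℝ) / A = E := by push_cast; field_simp
  rw [e8] at hw
  have hlE : 20 * (B0 + C1 + C2) + CW + 1 ≤ Real.log E := by
    rw [Real.le_log_iff_exp_le (by positivity)]
    refine hE1.trans ?_
    exact_mod_cast (by omega : E1 ≤ E)
  linarith

end Pool.Agent.Helper86.PS
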