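import Pool.Agent.Helper86.PS.MV3
import Pool.Agent.Helper86.PS.E2

set_option autoImplicit false

/-!
# The contour shift
-/

open MeasureTheory Set Filter
open scoped Real Interval

namespace Pool.Agent.Helper86.PS

open Pool.Agent.W66 Pool.Agent.W66L

/-- one rectangle -/
lemma rect_le {f : ℂ → ℂ} {a b T M : ℝ} (hab : a ≤ b) (hT : 0 ≤ T)
    (hf : ∀ s : ℂ, a ≤ s.re → s.re ≤ b → |s.im| ≤ T → DifferentiableAt ℂ f s)
    (hM : ∀ s : ℂ, a ≤ s.re → s.re ≤ b → |s.im| = T → ‖f s‖ ≤ M) :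
    ‖∫ y in (-T)..T, f (b + y * Complex.I)‖ ≤ ‖∫ y in (-T)..T, f (a + y * Complex.I)‖ + 2 * (M * (b - a)) := by
  have hcauchy := Complex.integral_boundary_rect_eq_zero_of_differentiableOn f
    (⟨a, -T⟩ : ℂ) (⟨b, T⟩ : ℂ) (by
      intro s hs
      rw [Complex.mem_reProdIm] at hs
      simp only at hs
      rw [uIcc_of_le hab, uIcc_of_le (by linarith)] at hs
      exact (hf s hs.1.1 hs.1.2 (abs_le.2 hs.2)).differentiableWithinAt)
  simp only at hcauchy
  have hside : ∀ τ : ℝ, |τ| = T → ‖∫ x : ℝ in a..b, f (x + (τ : ℂ) * Complex.I)‖ ≤ M * (b - a) := by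
    intro τ hτ
    have h1 : ∀ x ∈ Set.uIoc a b, ‖f (x + (τ : ℂ) * Complex.I)‖ ≤ M := by
      intro x hx
      rw [uIoc_of_le hab] at hx
      apply hM
      · simp; exact hx.1.le
      · simp; exact hx.2
      · simpa using hτ
    have := intervalIntegral.norm_integral_le_of_norm_le_const h1
    rwa [abs_of_nonneg (by linarith)] at this
  have h1 : Complex.I • ∫ y : ℝ in (-T)..T, f ((b : ℂ) + y * Complex.I) =
      Complex.I • (∫ y : ℝ in (-T)..T, f ((a : ℂ) + y * Complex.I)) -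
      (∫ x : ℝ in a..b, f (x + ((-T : ℝ) : ℂ) * Complex.I)) +
      ∫ x : ℝ in a..b, f (x + ((T : ℝ) : ℂ) * Complex.I) := by
    linear_combination hcauchy
  have h2 : ‖∫ y : ℝ in (-T)..T, f ((b : ℂ) + y * Complex.I)‖ =
      ‖Complex.I • ∫ y : ℝ in (-T)..T, f ((b : ℂ) + y * Complex.I)‖ := by
    rw [norm_smul, Complex.norm_I, one_mul]
  rw [h2, h1]
  have h3 := hside (-T) (by rw [abs_neg, abs_of_nonneg hT])
  have h4 := hside T (abs_of_nonneg hT)
  refine (norm_add_le _ _).trans ?_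
  have h5 := norm_sub_le (Complex.I • (∫ y : ℝ in (-T)..T, f ((a : ℂ) + y * Complex.I)))
    (∫ x : ℝ in a..b, f (x + ((-T : ℝ) : ℂ) * Complex.I))
  rw [norm_smul, Complex.norm_I, one_mul] at h5
  linarith

/-- the kernel -/
noncomputable def ker (h u : ℝ) (s : ℂ) : ℂ := kap (h * s) * Complex.exp (s * u)

lemma ker_diff (h u : ℝ) : Differentiable ℂ (ker h u) := by
  unfold ker
  intro s
  have h1 : DifferentiableAt ℂ (fun s : ℂ => kap (h * s)) s :=
    (kap_diff _).comp s (by fun_prop)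
  exact h1.mul (by fun_prop)

lemma ker_bound {Ck : ℝ} (hkap : ∀ s : ℂ, |s.re| ≤ 1 → ‖kap s‖ ≤ Ck / (1 + s.im ^ 2)) {h u : ℝ}
    (h0 : 0 < h) (h1 : h ≤ 1) {s : ℂ} (hs : |s.re| ≤ 1) :
    ‖ker h u s‖ ≤ Ck / (1 + (h * s.im) ^ 2) * Real.exp (s.re * u) := by
  unfold ker
  rw [norm_mul, Complex.norm_exp, Complex.re_mul_ofReal]
  apply mul_le_mul_of_nonneg_right _ (Real.exp_pos _).le
  have e1 : ((h : ℂ) * s).re = h * s.re := by simp
  have e2 : ((h : ℂ) * s).im = h * s.im := by simp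
  have := hkap ((h : ℂ) * s) (by
    rw [e1, abs_mul, abs_of_pos h0]
    exact mul_le_one₀ h1 (abs_nonneg _) hs)
  rwa [e2] at this

/-- the two contour shifts -/
theorem contour {Ck : ℝ} (hCk : 0 < Ck) (hkap : ∀ s : ℂ, |s.re| ≤ 1 → ‖kap s‖ ≤ Ck / (1 + s.im ^ 2))
    {F H Z : ℂ → ℂ} {η c1 T h u KF KH : ℝ} (hη : 0 < η) (hη1 : η ≤ 1 / 16) (hc1 : 0 < c1) (hc11 : c1 ≤ 1)
    (hT : 1 ≤ T) (h0 : 0 < h) (h1 : h ≤ 1) (hu : 0 < u) (hc1u : c1 * u ≤ 1) (hKF : 0 ≤ KF) (hKH : 0 ≤ KH)
    (hF : ∀ s : ℂ, 1 - η ≤ s.re → s.re ≤ 1 + c1 → |s.im| ≤ T → DifferentiableAt ℂ F s ∧ ‖F s‖ ≤ KF)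
    (hH : ∀ s : ℂ, 7 / 8 ≤ s.re → s.re ≤ 1 - η → |s.im| ≤ T → DifferentiableAt ℂ H s)
    (hHb : ∀ s : ℂ, 7 / 8 ≤ s.re → s.re ≤ 1 - η → |s.im| ≤ T → (s.re = 7 / 8 ∨ |s.im| = T) → ‖H s‖ ≤ KH)
    (hFH : ∀ s : ℂ, s.re = 1 - η → |s.im| ≤ T → F s * (1 - (1 - Z s) ^ 2) = H s)
    (hZ : ∀ t : ℝ, |t| ≤ T → ContinuousAt (fun t : ℝ => Z (1 + (((-η : ℝ) : ℂ) + t * Complex.I))) t) :
    ‖∫ t in (-T)..T, F (1 + ((c1 : ℂ) + t * Complex.I)) * ker h u ((c1 : ℂ) + t * Complex.I)‖ ≤
      Ck * KF * Real.exp (-(η * u)) * (∫ t in (-T)..T, ‖1 - Z (1 + (((-η : ℝ) : ℂ) + t * Complex.I))‖ ^ 2) +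
      12 * (Ck * KF / (h * T) ^ 2) + Ck * KH / (h * T) ^ 2 + 2 * T * (Ck * KH * Real.exp (-(u / 8))) := by
  have hT0 : 0 < T := by linarith
  have he1 : Real.exp 1 ≤ 3 := by linarith [Real.exp_one_lt_d9]
  have hhT : 0 < (h * T) ^ 2 := by positivity
  -- first rectangle
  have r1 := rect_le (f := fun s => F (1 + s) * ker h u s) (a := -η) (b := c1) (T := T)
    (M := 3 * (Ck * KF / (h * T) ^ 2)) (by linarith) hT0.le
    (by
      intro s hs1 hs2 hs3
      have hs := (hF (1 + s) (by simp; linarith) (by simp; linarith) (by simpa using hs3)).1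
      have h2 : DifferentiableAt ℂ (fun s : ℂ => F (1 + s)) s :=
        DifferentiableAt.comp (g := F) (f := fun z : ℂ => 1 + z) s hs (by fun_prop)
      exact h2.mul (ker_diff h u s))
    (by
      intro s hs1 hs2 hs3
      have hs := (hF (1 + s) (by simp; linarith) (by simp; linarith) (by simpa using hs3.le)).2
      have h2 := ker_bound hkap h0 h1 (u := u) (s := s) (abs_le.2 ⟨by linarith, by linarith⟩)
      have h3 : Ck / (1 + (h * s.im) ^ 2) ≤ Ck / (h * T) ^ 2 := by
        apply div_le_div_of_nonneg_left hCk.le hhT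
        rw [← hs3, mul_pow, mul_pow, sq_abs]
        linarith
      have h4 : Real.exp (s.re * u) ≤ 3 := by
        refine le_trans (Real.exp_le_exp.2 ?_) he1
        calc s.re * u ≤ c1 * u := mul_le_mul_of_nonneg_right hs2 hu.le
          _ ≤ 1 := hc1u
      rw [norm_mul]
      calc ‖F (1 + s)‖ * ‖ker h u s‖ ≤ KF * (Ck / (h * T) ^ 2 * 3) := by
            apply mul_le_mul hs _ (norm_nonneg _) hKF
            exact h2.trans (mul_le_mul h3 h4 (Real.exp_pos _).le (by positivity))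
        _ = _ := by ring)
  -- second rectangle
  have r2 := rect_le (f := fun s => H (1 + s) * ker h u s) (a := -(1 / 8)) (b := -η) (T := T)
    (M := Ck * KH / (h * T) ^ 2) (by linarith) hT0.le
    (by
      intro s hs1 hs2 hs3
      have hs := hH (1 + s) (by simp; linarith) (by simp; linarith) (by simpa using hs3)
      have h2 : DifferentiableAt ℂ (fun s : ℂ => H (1 + s)) s :=
        DifferentiableAt.comp (g := H) (f := fun z : ℂ => 1 + z) s hs (by fun_prop)
      exact h2.mul (ker_diff h u s))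
    (by
      intro s hs1 hs2 hs3
      have hs := hHb (1 + s) (by simp; linarith) (by simp; linarith) (by simpa using hs3.le)
        (Or.inr (by simpa using hs3))
      have h2 := ker_bound hkap h0 h1 (u := u) (s := s) (abs_le.2 ⟨by linarith, by linarith⟩)
      have h3 : Ck / (1 + (h * s.im) ^ 2) ≤ Ck / (h * T) ^ 2 := by
        apply div_le_div_of_nonneg_left hCk.le hhT
        rw [← hs3, mul_pow, mul_pow, sq_abs]
        linarith
      have h4 : Real.exp (s.re * u) ≤ 1 := by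
        rw [Real.exp_le_one_iff]
        exact mul_nonpos_of_nonpos_of_nonneg (by linarith) hu.le
      rw [norm_mul]
      calc ‖H (1 + s)‖ * ‖ker h u s‖ ≤ KH * (Ck / (h * T) ^ 2 * 1) := by
            apply mul_le_mul hs _ (norm_nonneg _) hKH
            exact h2.trans (mul_le_mul h3 h4 (Real.exp_pos _).le (by positivity))
        _ = _ := by ring)
  -- the leftmost line
  have r3 : ‖∫ t in (-T)..T, H (1 + (((-(1 / 8) : ℝ) : ℂ) + t * Complex.I)) *
      ker h u (((-(1 / 8) : ℝ) : ℂ) + t * Complex.I)‖ ≤ 2 * T * (Ck * KH * Real.exp (-(u / 8))) := by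
    have h2 : ∀ t ∈ Set.uIoc (-T) T, ‖H (1 + (((-(1 / 8) : ℝ) : ℂ) + t * Complex.I)) *
        ker h u (((-(1 / 8) : ℝ) : ℂ) + t * Complex.I)‖ ≤ Ck * KH * Real.exp (-(u / 8)) := by
      intro t ht
      rw [uIoc_of_le (by linarith)] at ht
      have hre : (((-(1 / 8) : ℝ) : ℂ) + t * Complex.I).re = -(1 / 8) := by simp
      have him : (((-(1 / 8) : ℝ) : ℂ) + t * Complex.I).im = t := by simp
      have hs := hHb (1 + (((-(1 / 8) : ℝ) : ℂ) + t * Complex.I))
        (by rw [Complex.add_re, hre, Complex.one_re]; norm_num)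
        (by rw [Complex.add_re, hre, Complex.one_re]; linarith)
        (by rw [Complex.add_im, him, Complex.one_im, zero_add]; exact abs_le.2 ⟨ht.1.le, ht.2⟩)
        (Or.inl (by rw [Complex.add_re, hre, Complex.one_re]; norm_num))
      have h2 := ker_bound hkap h0 h1 (u := u) (s := ((-(1 / 8) : ℝ) : ℂ) + t * Complex.I)
        (by rw [hre]; norm_num [abs_le])
      rw [hre, him] at h2
      have h3 : Ck / (1 + (h * t) ^ 2) ≤ Ck := div_le_self hCk.le (by nlinarith [sq_nonneg (h * t)])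
      rw [norm_mul]
      calc _ ≤ KH * (Ck * Real.exp (-(1 / 8) * u)) := by
            apply mul_le_mul hs _ (norm_nonneg _) hKH
            exact h2.trans (mul_le_mul_of_nonneg_right h3 (Real.exp_pos _).le)
        _ = _ := by
            rw [show -(1 / 8) * u = -(u / 8) by ring]
            ring
    have := intervalIntegral.norm_integral_le_of_norm_le_const h2
    rw [abs_of_nonneg (by linarith)] at this
    linarith
  -- the splitting on the line
  have hFc : ContinuousOn (fun t : ℝ => F (1 + (((-η : ℝ) : ℂ) + t * Complex.I))) (Icc (-T) T) := by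
    intro t ht
    apply ContinuousAt.continuousWithinAt
    have hre : (1 + (((-η : ℝ) : ℂ) + t * Complex.I)).re = 1 - η := by simp; ring
    have him : (1 + (((-η : ℝ) : ℂ) + t * Complex.I)).im = t := by simp
    have h2 := (hF (1 + (((-η : ℝ) : ℂ) + t * Complex.I)) (by rw [hre]) (by rw [hre]; linarith)
      (by rw [him]; exact abs_le.2 ht)).1.continuousAt
    exact ContinuousAt.comp (g := F) (f := fun t : ℝ => 1 + (((-η : ℝ) : ℂ) + t * Complex.I)) h2 (by fun_prop)
  have hZc : ContinuousOn (fun t : ℝ => Z (1 + (((-η : ℝ) : ℂ) + t * Complex.I))) (Icc (-T) T) :=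
    fun t ht => (hZ t (abs_le.2 ht)).continuousWithinAt
  have hkc : Continuous (fun t : ℝ => ker h u (((-η : ℝ) : ℂ) + t * Complex.I)) :=
    (ker_diff h u).continuous.comp (by fun_prop)
  set A : ℝ → ℂ := fun t => F (1 + (((-η : ℝ) : ℂ) + t * Complex.I)) *
    (1 - Z (1 + (((-η : ℝ) : ℂ) + t * Complex.I))) ^ 2 * ker h u (((-η : ℝ) : ℂ) + t * Complex.I) with hA
  set B : ℝ → ℂ := fun t => H (1 + (((-η : ℝ) : ℂ) + t * Complex.I)) *
    ker h u (((-η : ℝ) : ℂ) + t * Complex.I) with hB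
  have hsplit : ∀ t ∈ Set.uIcc (-T) T, F (1 + (((-η : ℝ) : ℂ) + t * Complex.I)) *
      ker h u (((-η : ℝ) : ℂ) + t * Complex.I) = A t + B t := by
    intro t ht
    rw [uIcc_of_le (by linarith)] at ht
    have := hFH (1 + (((-η : ℝ) : ℂ) + t * Complex.I)) (by simp; ring) (by simpa using abs_le.2 ht)
    simp only [hA, hB]
    rw [← this]
    ring
  have hAc : ContinuousOn A (Icc (-T) T) := by
    apply ContinuousOn.mul _ hkc.continuousOn
    exact hFc.mul ((continuousOn_const.sub hZc).pow 2)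
  have hBc : ContinuousOn B (Icc (-T) T) := by
    have : ContinuousOn (fun t : ℝ => F (1 + (((-η : ℝ) : ℂ) + t * Complex.I)) *
      ker h u (((-η : ℝ) : ℂ) + t * Complex.I) - A t) (Icc (-T) T) :=
      (hFc.mul hkc.continuousOn).sub hAc
    refine this.congr ?_
    intro t ht
    have h2 := hsplit t (by rw [uIcc_of_le (by linarith)]; exact ht)
    simp only
    rw [h2]
    ring
  have hAi : IntervalIntegrable A volume (-T) T := hAc.intervalIntegrable_of_Icc (by linarith)
  have hBi : IntervalIntegrable B volume (-T) T := hBc.intervalIntegrable_of_Icc (by linarith)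
  have e1 : ∫ t in (-T)..T, F (1 + (((-η : ℝ) : ℂ) + t * Complex.I)) *
      ker h u (((-η : ℝ) : ℂ) + t * Complex.I) = (∫ t in (-T)..T, A t) + ∫ t in (-T)..T, B t := by
    rw [intervalIntegral.integral_congr hsplit, intervalIntegral.integral_add hAi hBi]
  have hAn : ‖∫ t in (-T)..T, A t‖ ≤ Ck * KF * Real.exp (-(η * u)) *
      (∫ t in (-T)..T, ‖1 - Z (1 + (((-η : ℝ) : ℂ) + t * Complex.I))‖ ^ 2) := by
    rw [← intervalIntegral.integral_const_mul]
    apply intervalIntegral.norm_integral_le_of_norm_le (by linarith)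
    · apply Filter.Eventually.of_forall
      intro t ht
      have hre : (1 + (((-η : ℝ) : ℂ) + t * Complex.I)).re = 1 - η := by simp; ring
      have him : (1 + (((-η : ℝ) : ℂ) + t * Complex.I)).im = t := by simp
      have hs := (hF (1 + (((-η : ℝ) : ℂ) + t * Complex.I)) (by rw [hre]) (by rw [hre]; linarith)
        (by rw [him]; exact abs_le.2 ⟨ht.1.le, ht.2⟩)).2
      have hre2 : (((-η : ℝ) : ℂ) + t * Complex.I).re = -η := by simp
      have him2 : (((-η : ℝ) : ℂ) + t * Complex.I).im = t := by simp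
      have h2 := ker_bound hkap h0 h1 (u := u) (s := ((-η : ℝ) : ℂ) + t * Complex.I)
        (by rw [hre2, abs_neg, abs_of_pos hη]; linarith)
      rw [hre2, him2] at h2
      have h3 : Ck / (1 + (h * t) ^ 2) ≤ Ck := div_le_self hCk.le (by nlinarith [sq_nonneg (h * t)])
      simp only [hA]
      rw [norm_mul, norm_mul, norm_pow]
      calc _ ≤ KF * ‖1 - Z (1 + (((-η : ℝ) : ℂ) + t * Complex.I))‖ ^ 2 * (Ck * Real.exp (-η * u)) := by
            apply mul_le_mul _ (h2.trans (mul_le_mul_of_nonneg_right h3 (Real.exp_pos _).le)) (norm_nonneg _)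
              (by positivity)
            exact mul_le_mul_of_nonneg_right hs (by positivity)
        _ = _ := by
            rw [show -η * u = -(η * u) by ring]
            ring
    · apply ContinuousOn.intervalIntegrable_of_Icc (by linarith)
      apply continuousOn_const.mul
      exact (continuousOn_const.sub hZc).norm.pow 2
  simp only [← add_assoc] at r1 r2 ⊢
  simp only [← add_assoc] at e1 r3
  have hBn : ‖∫ t in (-T)..T, B t‖ ≤ Ck * KH / (h * T) ^ 2 + 2 * T * (Ck * KH * Real.exp (-(u / 8))) := by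
    refine r2.trans ?_
    have h5 : 2 * (Ck * KH / (h * T) ^ 2 * (-η - -(1 / 8))) ≤ Ck * KH / (h * T) ^ 2 := by
      have : 0 ≤ Ck * KH / (h * T) ^ 2 := by positivity
      nlinarith
    linarith [r3]
  have h6 : 2 * (3 * (Ck * KF / (h * T) ^ 2) * (c1 - -η)) ≤ 12 * (Ck * KF / (h * T) ^ 2) := by
    have : 0 ≤ Ck * KF / (h * T) ^ 2 := by positivity
    nlinarith
  have h7 := norm_add_le (∫ t in (-T)..T, A t) (∫ t in (-T)..T, B t)
  rw [← e1] at h7
  simp only [← add_assoc] at hAn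
  linarith [r1, hAn, hBn]

end Pool.Agent.Helper86.PS
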