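import Pool.Agent.TH823.PS.Scale
import Pool.Agent.W66.LC

set_option autoImplicit false

/-!
# Zero free region at scales without exceptional character, and the logarithmic derivative there
-/

open Complex Filter Topology Set MeasureTheory Metric
open scoped ArithmeticFunction.vonMangoldt

namespace Pool.Agent.Helper86.PS

open H370 H370.Loc Pool.Agent.W66 Pool.Agent.W66L Pool.Agent.TH823.PS

/-- comparison of the sums over the zeros at two points -/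
lemma zero_sums {z z0 : ℂ} {η : ℝ} (hη : 0 < η) (h0 : z0.im = z.im) (hz0 : z0.re = 1 + η)
    (hz : 1 - η ≤ z.re) (hz1 : z.re ≤ 1 + η) (s : Multiset ℂ) :
    (∀ ρ ∈ s, ρ.re ≤ 1 - 2 * η) →
    ‖(s.map (fun ρ => 1 / (z - ρ))).sum - (s.map (fun ρ => 1 / (z0 - ρ))).sum‖ ≤
      2 * ((s.map (fun ρ => 1 / (z0 - ρ))).sum).re := by
  induction s using Multiset.induction_on with
  | empty => intro _; simp
  | cons a m ih =>
    intro h
    have ha := h a (Multiset.mem_cons_self a m)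
    have ih' := ih fun ρ hρ => h ρ (Multiset.mem_cons_of_mem hρ)
    rw [Multiset.map_cons, Multiset.sum_cons, Multiset.map_cons, Multiset.sum_cons, add_re]
    have hza : η ≤ (z - a).re := by rw [sub_re]; linarith
    have hz0a : 3 * η ≤ (z0 - a).re := by rw [sub_re]; linarith
    have hn1 : η ≤ ‖z - a‖ := hza.trans ((le_abs_self _).trans (Complex.abs_re_le_norm _))
    have hn0 : 3 * η ≤ ‖z0 - a‖ := hz0a.trans ((le_abs_self _).trans (Complex.abs_re_le_norm _))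
    have hdz : ‖z0 - z‖ ≤ 2 * η := by
      have e : z0 - z = ((z0.re - z.re : ℝ) : ℂ) := by
        apply Complex.ext
        · simp
        · simp [h0]
      rw [e, Complex.norm_real, Real.norm_eq_abs, abs_le]
      constructor <;> linarith
    have hn2 : ‖z0 - a‖ ≤ 3 * ‖z - a‖ := by
      calc ‖z0 - a‖ = ‖(z0 - z) + (z - a)‖ := by ring_nf
        _ ≤ ‖z0 - z‖ + ‖z - a‖ := norm_add_le _ _
        _ ≤ _ := by linarith
    have hne1 : z - a ≠ 0 := by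
      intro h; rw [h, norm_zero] at hn1; linarith
    have hne0 : z0 - a ≠ 0 := by
      intro h; rw [h, norm_zero] at hn0; linarith
    have key : ‖1 / (z - a) - 1 / (z0 - a)‖ ≤ 2 * (1 / (z0 - a)).re := by
      have e1 : 1 / (z - a) - 1 / (z0 - a) = (z0 - z) / ((z - a) * (z0 - a)) := by
        field_simp
        ring
      rw [e1, norm_div, norm_mul]
      have e2 : (1 / (z0 - a)).re = (z0 - a).re / ‖z0 - a‖ ^ 2 := by
        rw [one_div, Complex.inv_re, Complex.normSq_eq_norm_sq]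
      rw [e2]
      have hp0 : 0 < ‖z0 - a‖ := by linarith
      have hp1 : 0 < ‖z - a‖ := by linarith
      rw [← mul_div_assoc, div_le_div_iff₀ (by positivity) (by positivity)]
      calc ‖z0 - z‖ * ‖z0 - a‖ ^ 2 ≤ (2 * η) * (‖z0 - a‖ * (3 * ‖z - a‖)) := by
            apply mul_le_mul hdz _ (by positivity) (by positivity)
            rw [sq]
            exact mul_le_mul_of_nonneg_left hn2 hp0.le
        _ = 2 * (3 * η) * (‖z - a‖ * ‖z0 - a‖) := by ring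
        _ ≤ 2 * (z0 - a).re * (‖z - a‖ * ‖z0 - a‖) := by
            apply mul_le_mul_of_nonneg_right _ (by positivity)
            linarith
    have e3 : 1 / (z - a) + (m.map (fun ρ => 1 / (z - ρ))).sum -
        (1 / (z0 - a) + (m.map (fun ρ => 1 / (z0 - ρ))).sum) =
        (1 / (z - a) - 1 / (z0 - a)) +
        ((m.map (fun ρ => 1 / (z - ρ))).sum - (m.map (fun ρ => 1 / (z0 - ρ))).sum) := by ring
    rw [e3]
    refine (norm_add_le _ _).trans ?_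
    linarith

/-- the logarithmic derivative in a zero free region, nonprincipal characters -/
lemma DX_lin : ∃ K : ℝ, 0 < K ∧ ∀ (Q : ℕ) [NeZero Q] (χ : DirichletCharacter ℂ Q), χ ≠ 1 →
    ∀ η : ℝ, 0 < η → η ≤ 1 / 16 → ∀ z : ℂ,
    (∀ ρ : ℂ, χ.LFunction ρ = 0 → |ρ.im - z.im| ≤ 2 → ρ.re ≤ 1 - 2 * η) →
    1 - η ≤ z.re → z.re ≤ 1 + η →
    χ.LFunction z ≠ 0 ∧ ‖DX χ z‖ ≤ K * (lq Q z.im + 1 / η) := by
  obtain ⟨K1, hK1, hball⟩ := LF_const
  obtain ⟨A, hA, hfar⟩ := DX_far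
  refine ⟨4 * K1 + 3 * A, by positivity, fun Q _ χ hχ η hη hη8 z hzf hz hz1 => ?_⟩
  set t := z.im with ht
  obtain ⟨M, hM1, hMb, -, hbd⟩ := hball Q χ hχ t
  have hc : χ.LFunction ⟨2, t⟩ ≠ 0 := LF_ne_zero hχ (by norm_num)
  have hcb : ‖χ.LFunction ⟨2, t⟩‖ ≤ M := hMb _ (mem_closedBall_self (by norm_num))
  obtain ⟨s, hs1, hs2, hs3⟩ := landau_re (f := χ.LFunction) (c := ⟨2, t⟩) (r := 3 / 2)
    (r1 := 11 / 8) (r2 := 9 / 8) (R := 7 / 4) (M := M) (by norm_num) (by norm_num) (by norm_num)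
    (by norm_num) (by norm_num) hM1 hcb
    (fun z _ => (DirichletCharacter.differentiable_LFunction hχ).analyticAt z) hc hMb
  have hre : ∀ ρ ∈ s, ρ.re ≤ 1 - 2 * η := by
    intro ρ hρ
    obtain ⟨h1, h2⟩ := hs1 ρ hρ
    apply hzf ρ h2
    rw [mem_closedBall, dist_eq_norm] at h1
    have h3 := (Complex.abs_im_le_norm (ρ - ⟨2, t⟩)).trans h1
    simp only [sub_im] at h3
    linarith
  have hmem : ∀ w : ℂ, w.im = t → 1 - η ≤ w.re → w.re ≤ 1 + η → w ∈ closedBall (⟨2, t⟩ : ℂ) (9 / 8) := by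
    intro w hw1 hw2 hw3
    rw [mem_closedBall, dist_eq_norm]
    have e : w - ⟨2, t⟩ = ((w.re - 2 : ℝ) : ℂ) := by
      apply Complex.ext <;> simp [hw1]
    rw [e, Complex.norm_real, Real.norm_eq_abs, abs_le]
    constructor <;> linarith
  have hne : ∀ w : ℂ, 1 - η ≤ w.re → ∀ ρ ∈ s, w ≠ ρ := by
    intro w hw ρ hρ he
    have := hre ρ hρ
    rw [← he] at this
    linarith
  set z0 : ℂ := ⟨1 + η, t⟩ with hz0
  have b1 := (hs3 z (hmem z rfl hz hz1) (hne z hz)).trans hbd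
  have b0 := (hs3 z0 (hmem z0 rfl (by simp [hz0]; linarith) (by simp [hz0]))
    (hne z0 (by simp [hz0]; linarith))).trans hbd
  have bf := hfar Q χ hχ z0 (by simp [hz0]; linarith) (by simp [hz0]; linarith)
  have e0 : z0.re - 1 = η := by simp [hz0]
  rw [e0] at bf
  have hzs := zero_sums hη (z := z) (z0 := z0) rfl rfl hz hz1 s hre
  refine ⟨?_, ?_⟩
  · intro h0
    by_cases hz2 : 1 ≤ z.re
    · exact LF_ne_zero hχ hz2 h0
    · have := hzf z h0 (by rw [sub_self, abs_zero]; norm_num)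
      linarith
  set S := (s.map (fun ρ => 1 / (z - ρ))).sum with hS
  set S0 := (s.map (fun ρ => 1 / (z0 - ρ))).sum with hS0
  have c0 : ‖S0‖ ≤ A / η + K1 * lq Q t := by
    calc ‖S0‖ = ‖DX χ z0 - (DX χ z0 - S0)‖ := by ring_nf
      _ ≤ ‖DX χ z0‖ + ‖DX χ z0 - S0‖ := norm_sub_le _ _
      _ ≤ _ := add_le_add bf b0
  have c1 : ‖S‖ ≤ 3 * ‖S0‖ := by
    calc ‖S‖ = ‖(S - S0) + S0‖ := by ring_nf
      _ ≤ ‖S - S0‖ + ‖S0‖ := norm_add_le _ _
      _ ≤ 2 * S0.re + ‖S0‖ := add_le_add hzs le_rfl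
      _ ≤ 2 * ‖S0‖ + ‖S0‖ := by
          have := Complex.re_le_norm S0
          linarith
      _ = _ := by ring
  have hlq := one_le_lq Q t
  calc ‖DX χ z‖ = ‖(DX χ z - S) + S‖ := by ring_nf
    _ ≤ ‖DX χ z - S‖ + ‖S‖ := norm_add_le _ _
    _ ≤ K1 * lq Q t + 3 * (A / η + K1 * lq Q t) := by
        apply add_le_add b1
        linarith
    _ = 4 * K1 * lq Q t + 3 * A * (1 / η) := by ring
    _ ≤ (4 * K1 + 3 * A) * lq Q t + (4 * K1 + 3 * A) * (1 / η) := by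
        have : 0 < 1 / η := by positivity
        gcongr <;> linarith
    _ = _ := by ring

/-- the logarithmic derivative of `(s-1) ζ(s)` in a zero free region -/
lemma DD_lin : ∃ K : ℝ, 0 < K ∧ ∀ η : ℝ, 0 < η → η ≤ 1 / 16 → ∀ z : ℂ,
    (∀ ρ : ℂ, Z1 ρ = 0 → |ρ.im - z.im| ≤ 2 → ρ.re ≤ 1 - 2 * η) →
    1 - η ≤ z.re → z.re ≤ 1 + η →
    Z1 z ≠ 0 ∧ ‖DD z‖ ≤ K * (ell z.im + 1 / η) := by
  obtain ⟨K0, hK0, hball⟩ := Z1_ball
  obtain ⟨A, hA, hfar⟩ := DD_far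
  have hl1 : 0 < Real.log (7 / 4 / (3 / 2)) := Real.log_pos (by norm_num)
  have hl2 : 0 < Real.log (3 / 2 / (7 / 4 - 3 / 2)) := Real.log_pos (by norm_num)
  set K1 : ℝ := 2 * (K0 + K0 / Real.log (7 / 4 / (3 / 2)) * Real.log (3 / 2 / (7 / 4 - 3 / 2)) + 1) *
    (11 / 8) / (3 / 2 - 11 / 8) / (11 / 8 - 9 / 8) with hK1
  have hK1pos : 0 < K1 := by
    rw [hK1]
    have : 0 < K0 / Real.log (7 / 4 / (3 / 2)) * Real.log (3 / 2 / (7 / 4 - 3 / 2)) := by positivity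
    have h2 : (0 : ℝ) < 3 / 2 - 11 / 8 := by norm_num
    have h3 : (0 : ℝ) < 11 / 8 - 9 / 8 := by norm_num
    positivity
  refine ⟨4 * K1 + 3 * (A + 1), by positivity, fun η hη hη8 z hzf hz hz1 => ?_⟩
  set t := z.im with ht
  obtain ⟨M, hM1, hMb, hl0, hlK⟩ := hball t
  have hell := one_le_ell t
  have hbd : 2 * (Real.log (M / ‖Z1 ⟨2, t⟩‖) + Real.log (M / ‖Z1 ⟨2, t⟩‖) /
      Real.log (7 / 4 / (3 / 2)) * Real.log (3 / 2 / (7 / 4 - 3 / 2)) + 1) * (11 / 8) /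
      (3 / 2 - 11 / 8) / (11 / 8 - 9 / 8) ≤ K1 * ell t := by
    have e1 : Real.log (M / ‖Z1 ⟨2, t⟩‖) + Real.log (M / ‖Z1 ⟨2, t⟩‖) /
      Real.log (7 / 4 / (3 / 2)) * Real.log (3 / 2 / (7 / 4 - 3 / 2)) + 1 ≤
      (K0 + K0 / Real.log (7 / 4 / (3 / 2)) * Real.log (3 / 2 / (7 / 4 - 3 / 2)) + 1) * ell t := by
      have e2 : Real.log (M / ‖Z1 ⟨2, t⟩‖) /
        Real.log (7 / 4 / (3 / 2)) * Real.log (3 / 2 / (7 / 4 - 3 / 2)) ≤
        (K0 * ell t) / Real.log (7 / 4 / (3 / 2)) * Real.log (3 / 2 / (7 / 4 - 3 / 2)) := by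
        gcongr
      have e3 : (K0 * ell t) / Real.log (7 / 4 / (3 / 2)) * Real.log (3 / 2 / (7 / 4 - 3 / 2)) =
        K0 / Real.log (7 / 4 / (3 / 2)) * Real.log (3 / 2 / (7 / 4 - 3 / 2)) * ell t := by ring
      rw [e3] at e2
      nlinarith
    have h3 : (0 : ℝ) < 3 / 2 - 11 / 8 := by norm_num
    have h4 : (0 : ℝ) < 11 / 8 - 9 / 8 := by norm_num
    calc _ ≤ 2 * ((K0 + K0 / Real.log (7 / 4 / (3 / 2)) * Real.log (3 / 2 / (7 / 4 - 3 / 2)) + 1) *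
        ell t) * (11 / 8) / (3 / 2 - 11 / 8) / (11 / 8 - 9 / 8) := by gcongr
      _ = K1 * ell t := by rw [hK1]; ring
  have hc : Z1 ⟨2, t⟩ ≠ 0 := Z1_ne_zero (by norm_num)
  have hcb : ‖Z1 ⟨2, t⟩‖ ≤ M := hMb _ (mem_closedBall_self (by norm_num))
  obtain ⟨s, hs1, hs2, hs3⟩ := landau_re (f := Z1) (c := ⟨2, t⟩) (r := 3 / 2)
    (r1 := 11 / 8) (r2 := 9 / 8) (R := 7 / 4) (M := M) (by norm_num) (by norm_num) (by norm_num)
    (by norm_num) (by norm_num) hM1 hcb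
    (fun z _ => Z1_diff.analyticAt z) hc hMb
  have hre : ∀ ρ ∈ s, ρ.re ≤ 1 - 2 * η := by
    intro ρ hρ
    obtain ⟨h1, h2⟩ := hs1 ρ hρ
    apply hzf ρ h2
    rw [mem_closedBall, dist_eq_norm] at h1
    have h3 := (Complex.abs_im_le_norm (ρ - ⟨2, t⟩)).trans h1
    simp only [sub_im] at h3
    linarith
  have hmem : ∀ w : ℂ, w.im = t → 1 - η ≤ w.re → w.re ≤ 1 + η → w ∈ closedBall (⟨2, t⟩ : ℂ) (9 / 8) := by
    intro w hw1 hw2 hw3
    rw [mem_closedBall, dist_eq_norm]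
    have e : w - ⟨2, t⟩ = ((w.re - 2 : ℝ) : ℂ) := by
      apply Complex.ext <;> simp [hw1]
    rw [e, Complex.norm_real, Real.norm_eq_abs, abs_le]
    constructor <;> linarith
  have hne : ∀ w : ℂ, 1 - η ≤ w.re → ∀ ρ ∈ s, w ≠ ρ := by
    intro w hw ρ hρ he
    have := hre ρ hρ
    rw [← he] at this
    linarith
  set z0 : ℂ := ⟨1 + η, t⟩ with hz0
  have b1 := (hs3 z (hmem z rfl hz hz1) (hne z hz)).trans hbd
  have b0 := (hs3 z0 (hmem z0 rfl (by simp [hz0]; linarith) (by simp [hz0]))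
    (hne z0 (by simp [hz0]; linarith))).trans hbd
  have bf := hfar z0 (by simp [hz0]; linarith) (by simp [hz0]; linarith)
  have e0 : z0.re - 1 = η := by simp [hz0]
  rw [e0] at bf
  have hzs := zero_sums hη (z := z) (z0 := z0) rfl rfl hz hz1 s hre
  refine ⟨?_, ?_⟩
  · intro h0
    by_cases hz2 : 1 ≤ z.re
    · exact Z1_ne_zero hz2 h0
    · have := hzf z h0 (by rw [sub_self, abs_zero]; norm_num)
      linarith
  set S := (s.map (fun ρ => 1 / (z - ρ))).sum with hS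
  set S0 := (s.map (fun ρ => 1 / (z0 - ρ))).sum with hS0
  have c0 : ‖S0‖ ≤ A / η + K1 * ell t := by
    calc ‖S0‖ = ‖DD z0 - (DD z0 - S0)‖ := by ring_nf
      _ ≤ ‖DD z0‖ + ‖DD z0 - S0‖ := norm_sub_le _ _
      _ ≤ _ := add_le_add bf b0
  have c1 : ‖S‖ ≤ 3 * ‖S0‖ := by
    calc ‖S‖ = ‖(S - S0) + S0‖ := by ring_nf
      _ ≤ ‖S - S0‖ + ‖S0‖ := norm_add_le _ _
      _ ≤ 2 * S0.re + ‖S0‖ := add_le_add hzs le_rfl
      _ ≤ 2 * ‖S0‖ + ‖S0‖ := by
          have := Complex.re_le_norm S0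
          linarith
      _ = _ := by ring
  calc ‖DD z‖ = ‖(DD z - S) + S‖ := by ring_nf
    _ ≤ ‖DD z - S‖ + ‖S‖ := norm_add_le _ _
    _ ≤ K1 * ell t + 3 * (A / η + K1 * ell t) := by
        apply add_le_add b1
        linarith
    _ = 4 * K1 * ell t + 3 * A * (1 / η) := by ring
    _ ≤ (4 * K1 + 3 * (A + 1)) * ell t + (4 * K1 + 3 * (A + 1)) * (1 / η) := by
        have : 0 < 1 / η := by positivity
        gcongr <;> linarith
    _ = _ := by ring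

end Pool.Agent.Helper86.PS
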