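import Pool.Agent.Helper86.PS.W3

set_option autoImplicit false

/-!
# From logarithmic windows to short intervals
-/

open Complex Filter Topology Set MeasureTheory Metric
open scoped Real

namespace Pool.Agent.Helper86.PS

open Pool.Agent.W66 Pool.Agent.W66L

/-- the weight of the point `t` -/
noncomputable def Rw (a b h t : ℝ) : ℝ := ∫ u in a..b, Real.exp (u - t) * tri h (u - t)

lemma tri_shift_int {h : ℝ} (hh : 0 < h) (t : ℝ) : ∫ u, tri h (u - t) = 1 := by
  rw [integral_sub_right_eq_self (fun x => tri h x) t, integral_tri hh]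

lemma tri_int_le {a b h t : ℝ} (hab : a ≤ b) (hh : 0 < h) : ∫ u in a..b, tri h (u - t) ≤ 1 := by
  rw [intervalIntegral.integral_of_le hab, ← tri_shift_int hh t]
  apply setIntegral_le_integral
  · exact (tri_integrable hh).comp_sub_right t
  · exact Filter.Eventually.of_forall fun u => tri_nonneg hh _

lemma tri_int_eq {a b h t : ℝ} (hh : 0 < h) (h1 : a + h ≤ t) (h2 : t + h ≤ b) :
    ∫ u in a..b, tri h (u - t) = 1 := by
  rw [intervalIntegral.integral_of_le (by linarith), ← tri_shift_int hh t, ← integral_indicator measurableSet_Ioc]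
  congr 1
  ext u
  rw [Set.indicator_apply]
  split_ifs with h4
  · rfl
  symm
  apply tri_zero_of hh
  rw [mem_Ioc, not_and_or, not_lt, not_le] at h4
  rcases h4 with h4 | h4
  · rw [abs_of_nonpos (by linarith)]; linarith
  · rw [abs_of_nonneg (by linarith)]; linarith

lemma tri_sub_cont (h t : ℝ) : Continuous fun u : ℝ => tri h (u - t) :=
  (tri_continuous h).comp (by fun_prop)

lemma Rw_cont (h t : ℝ) : Continuous fun u : ℝ => Real.exp (u - t) * tri h (u - t) :=
  (by fun_prop : Continuous fun u : ℝ => Real.exp (u - t)).mul (tri_sub_cont h t)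

lemma Rw_zero {a b h t : ℝ} (hab : a ≤ b) (hh : 0 < h) (ht : t + h ≤ a ∨ b + h ≤ t) : Rw a b h t = 0 := by
  unfold Rw
  have h1 : ∫ u in a..b, Real.exp (u - t) * tri h (u - t) = ∫ _u in a..b, (0 : ℝ) := by
    apply intervalIntegral.integral_congr
    intro u hu
    rw [Set.uIcc_of_le hab, mem_Icc] at hu
    simp only
    rw [tri_zero_of hh, mul_zero]
    rcases ht with ht | ht
    · rw [abs_of_nonneg (by linarith)]; linarith
    · rw [abs_of_nonpos (by linarith)]; linarith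
  rw [h1]; simp

lemma Rw_nonneg {a b h : ℝ} (t : ℝ) (hab : a ≤ b) (hh : 0 < h) : 0 ≤ Rw a b h t := by
  unfold Rw
  apply intervalIntegral.integral_nonneg hab
  intro u _
  exact mul_nonneg (Real.exp_pos _).le (tri_nonneg hh _)

lemma Rw_le {a b h : ℝ} (t : ℝ) (hab : a ≤ b) (hh : 0 < h) (h1 : h ≤ 1) : Rw a b h t ≤ 3 := by
  unfold Rw
  have h2 : ∫ u in a..b, Real.exp (u - t) * tri h (u - t) ≤ ∫ u in a..b, 3 * tri h (u - t) := by
    apply intervalIntegral.integral_mono_on hab ((Rw_cont h t).intervalIntegrable _ _)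
      ((continuous_const.mul (tri_sub_cont h t)).intervalIntegrable _ _)
    intro u _
    rcases le_or_gt h |u - t| with h3 | h3
    · simp [tri_zero_of hh h3]
    · refine mul_le_mul_of_nonneg_right ?_ (tri_nonneg hh (u - t))
      have h4 : u - t ≤ 1 := by linarith [le_abs_self (u - t)]
      have h5 := Real.exp_le_exp.2 h4
      linarith [Real.exp_one_lt_d9]
  refine h2.trans ?_
  rw [intervalIntegral.integral_const_mul]
  linarith [tri_int_le (t := t) hab hh]

lemma Rw_bulk {a b h t : ℝ} (hh : 0 < h) (h1 : h ≤ 1) (ha : a + h ≤ t) (hb : t + h ≤ b) :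
    |Rw a b h t - 1| ≤ 2 * h := by
  have hab : a ≤ b := by linarith
  have h2 : Rw a b h t - 1 = ∫ u in a..b, (Real.exp (u - t) - 1) * tri h (u - t) := by
    have e0 : Rw a b h t - 1 = (∫ u in a..b, Real.exp (u - t) * tri h (u - t)) - ∫ u in a..b, tri h (u - t) := by
      rw [tri_int_eq hh ha hb]; rfl
    rw [e0, ← intervalIntegral.integral_sub ((Rw_cont h t).intervalIntegrable _ _)
      ((tri_sub_cont h t).intervalIntegrable _ _)]
    apply intervalIntegral.integral_congr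
    intro u _
    simp only
    ring
  rw [h2]
  have h3 : ‖∫ u in a..b, (Real.exp (u - t) - 1) * tri h (u - t)‖ ≤ ∫ u in a..b, 2 * h * tri h (u - t) := by
    apply intervalIntegral.norm_integral_le_of_norm_le hab
    · apply Filter.Eventually.of_forall
      intro u _
      rw [norm_mul, Real.norm_eq_abs, Real.norm_eq_abs, abs_of_nonneg (tri_nonneg hh _)]
      rcases le_or_gt h |u - t| with h3 | h3
      · rw [tri_zero_of hh h3]; simp
      · refine mul_le_mul_of_nonneg_right ?_ (tri_nonneg hh (u - t))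
        have h4 := Real.abs_exp_sub_one_le (by linarith : |u - t| ≤ 1)
        linarith
    · exact (continuous_const.mul (tri_sub_cont h t)).intervalIntegrable _ _
  rw [Real.norm_eq_abs] at h3
  refine h3.trans ?_
  rw [intervalIntegral.integral_const_mul]
  have := tri_int_le (t := t) hab hh
  nlinarith

lemma WX_sum {q : ℕ} (χ : DirichletCharacter ℂ q) {h b u : ℝ} (hh : 0 < h) (hu : u ≤ b) {X : ℕ}
    (hX : Real.exp (b + h) ≤ X) :
    WX χ h u = ∑ n ∈ Finset.Icc 1 X, Xa χ n * ((1 / n * tri h (u - Real.log n) : ℝ) : ℂ) := by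
  unfold WX
  rw [tsum_eq_sum (s := Finset.Icc 1 X)]
  · apply Finset.sum_congr rfl
    intro n hn
    have hn1 : n ≠ 0 := by
      have := (Finset.mem_Icc.1 hn).1
      omega
    rw [LSeries.term_of_ne_zero hn1, cpow_one]
    unfold tri
    have : (n : ℂ) ≠ 0 := by exact_mod_cast hn1
    push_cast
    field_simp
  · intro n hn
    rcases Nat.eq_zero_or_pos n with h0 | h0
    · rw [h0, LSeries.term_zero, zero_mul]
    · have h2 : X < n := by
        by_contra h3
        exact hn (Finset.mem_Icc.2 ⟨h0, by omega⟩)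
      have h3 : b + h ≤ Real.log n := by
        rw [Real.le_log_iff_exp_le (by exact_mod_cast h0)]
        refine hX.trans ?_
        exact_mod_cast h2.le
      have h4 : 1 / h * hat ((u - Real.log n) / h) = tri h (u - Real.log n) := rfl
      rw [h4, tri_zero_of hh]
      · simp
      · rw [abs_of_nonpos (by linarith)]; linarith

lemma WX_int {q : ℕ} (χ : DirichletCharacter ℂ q) {h a b : ℝ} (hh : 0 < h) (hab : a ≤ b) {X : ℕ}
    (hX : Real.exp (b + h) ≤ X) :
    ∫ u in a..b, (Real.exp u : ℂ) * WX χ h u = ∑ n ∈ Finset.Icc 1 X, Xa χ n * (Rw a b h (Real.log n) : ℂ) := by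
  have h1 : ∫ u in a..b, (Real.exp u : ℂ) * WX χ h u =
      ∫ u in a..b, ∑ n ∈ Finset.Icc 1 X, Xa χ n * ((Real.exp (u - Real.log n) * tri h (u - Real.log n) : ℝ) : ℂ) := by
    apply intervalIntegral.integral_congr
    intro u hu
    rw [Set.uIcc_of_le hab, mem_Icc] at hu
    simp only
    rw [WX_sum χ hh hu.2 hX, Finset.mul_sum]
    apply Finset.sum_congr rfl
    intro n hn
    have hn1 : 0 < n := by
      have := (Finset.mem_Icc.1 hn).1
      omega
    have hnr : (0 : ℝ) < n := by exact_mod_cast hn1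
    have e1 : Real.exp (u - Real.log n) = Real.exp u * (1 / n) := by
      rw [Real.exp_sub, Real.exp_log hnr]; ring
    rw [e1]
    push_cast
    ring
  rw [h1, intervalIntegral.integral_finsetSum]
  · apply Finset.sum_congr rfl
    intro n _
    rw [intervalIntegral.integral_const_mul]
    congr 1
    unfold Rw
    rw [intervalIntegral.integral_ofReal]
  · intro n _
    apply Continuous.intervalIntegrable
    exact continuous_const.mul (continuous_ofReal.comp (Rw_cont h _))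

lemma card_real_Icc (S : Finset ℕ) {α β : ℝ} (hα : 0 ≤ α) (hαβ : α ≤ β) :
    ((S.filter (fun n : ℕ => α ≤ n ∧ (n : ℝ) ≤ β)).card : ℝ) ≤ β - α + 1 := by
  have h1 : S.filter (fun n : ℕ => α ≤ n ∧ (n : ℝ) ≤ β) ⊆ Finset.Icc ⌈α⌉₊ ⌊β⌋₊ := by
    intro n hn
    rw [Finset.mem_filter] at hn
    rw [Finset.mem_Icc]
    exact ⟨Nat.ceil_le.2 hn.2.1, Nat.le_floor hn.2.2⟩
  have h2 : ((S.filter (fun n : ℕ => α ≤ n ∧ (n : ℝ) ≤ β)).card : ℝ) ≤ ((Finset.Icc ⌈α⌉₊ ⌊β⌋₊).card : ℝ) := by
    exact_mod_cast Finset.card_le_card h1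
  refine h2.trans ?_
  rw [Nat.card_Icc]
  have h3 := Nat.floor_le (hα.trans hαβ)
  have h4 := Nat.le_ceil α
  rcases le_total ⌈α⌉₊ (⌊β⌋₊ + 1) with h5 | h5
  · rw [Nat.cast_sub h5]; push_cast; linarith
  · rw [Nat.sub_eq_zero_of_le h5]
    push_cast; linarith

lemma edge_count (S : Finset ℕ) {y h : ℝ} (hy : 0 < y) (hh : 0 < h) (h1 : h ≤ 1 / 2) :
    ((S.filter (fun n : ℕ => 0 < n ∧ |Real.log n - Real.log y| ≤ h)).card : ℝ) ≤ 4 * h * y + 1 := by
  have h2 : S.filter (fun n : ℕ => 0 < n ∧ |Real.log n - Real.log y| ≤ h) ⊆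
      S.filter (fun n : ℕ => y * (1 - 2 * h) ≤ n ∧ (n : ℝ) ≤ y * (1 + 2 * h)) := by
    intro n hn
    rw [Finset.mem_filter] at hn ⊢
    obtain ⟨hnS, hn0, hn1⟩ := hn
    have hnr : (0 : ℝ) < n := by exact_mod_cast hn0
    refine ⟨hnS, ?_⟩
    rw [abs_le] at hn1
    have e1 : (n : ℝ) = y * Real.exp (Real.log n - Real.log y) := by
      rw [Real.exp_sub, Real.exp_log hnr, Real.exp_log hy]; field_simp
    have e2 := Real.abs_exp_sub_one_le (by rw [abs_le]; constructor <;> linarith : |Real.log n - Real.log y| ≤ 1)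
    have e3 : |Real.log n - Real.log y| ≤ h := abs_le.2 hn1
    rw [abs_le] at e2
    rw [e1]
    constructor
    · apply mul_le_mul_of_nonneg_left _ hy.le
      linarith [e2.1]
    · apply mul_le_mul_of_nonneg_left _ hy.le
      linarith [e2.2]
  have h3 : ((S.filter (fun n : ℕ => 0 < n ∧ |Real.log n - Real.log y| ≤ h)).card : ℝ) ≤
      ((S.filter (fun n : ℕ => y * (1 - 2 * h) ≤ n ∧ (n : ℝ) ≤ y * (1 + 2 * h))).card : ℝ) := by
    exact_mod_cast Finset.card_le_card h2
  refine h3.trans ((card_real_Icc S (mul_nonneg hy.le (by linarith)) (by nlinarith)).trans ?_)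
  nlinarith

lemma Xa_norm_le {q : ℕ} (χ : DirichletCharacter ℂ q) {n X : ℕ} (hn : n ∈ Finset.Icc 1 X) : ‖Xa χ n‖ ≤ Real.log X := by
  unfold Xa
  simp only [Pi.mul_apply]
  rw [norm_mul]
  have h1 := χ.norm_le_one (n : ZMod q)
  have h2 : ‖((ArithmeticFunction.vonMangoldt n : ℝ) : ℂ)‖ ≤ Real.log X := by
    rw [Complex.norm_real, Real.norm_eq_abs, abs_of_nonneg ArithmeticFunction.vonMangoldt_nonneg]
    refine ArithmeticFunction.vonMangoldt_le_log.trans ?_
    apply Real.log_le_log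
    · exact_mod_cast (Finset.mem_Icc.1 hn).1
    · exact_mod_cast (Finset.mem_Icc.1 hn).2
  calc _ ≤ 1 * Real.log X := mul_le_mul h1 h2 (norm_nonneg _) zero_le_one
    _ = _ := one_mul _

open _root_.Classical in
lemma rho_diff {q : ℕ} (χ : DirichletCharacter ℂ q) {h : ℝ} (hh : 0 < h) (h1 : h ≤ 1 / 2) {y H X : ℕ} (hy : 1 ≤ y)
    (hX : y + H ≤ X) :
    ‖∑ n ∈ Finset.Icc 1 X, Xa χ n * (Rw (Real.log y) (Real.log (y + H)) h (Real.log n) : ℂ) -
      ∑ n ∈ Finset.Ioc y (y + H), Xa χ n‖ ≤ Real.log X * (2 * h * H + 24 * h * (y + H) + 6) := by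
  have hyr : (1 : ℝ) ≤ y := by exact_mod_cast hy
  have hH0 : (0 : ℝ) ≤ H := Nat.cast_nonneg H
  obtain ⟨a, ha⟩ : ∃ a : ℝ, a = Real.log y := ⟨_, rfl⟩
  obtain ⟨b, hb⟩ : ∃ b : ℝ, b = Real.log (y + H) := ⟨_, rfl⟩
  have hab : a ≤ b := by rw [ha, hb]; exact Real.log_le_log (by linarith) (by linarith)
  rw [← ha, ← hb]
  have hlX : 0 ≤ Real.log X := Real.log_natCast_nonneg X
  have h2 : ∑ n ∈ Finset.Ioc y (y + H), Xa χ n = ∑ n ∈ Finset.Icc 1 X, Xa χ n *
      (if n ∈ Finset.Ioc y (y + H) then 1 else 0 : ℂ) := by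
    simp only [mul_ite, mul_one, mul_zero]
    rw [← Finset.sum_filter]
    apply Finset.sum_congr _ fun _ _ => rfl
    ext n
    simp only [Finset.mem_Ioc, Finset.mem_filter, Finset.mem_Icc]
    omega
  rw [h2, ← Finset.sum_sub_distrib]
  have h3 : ∀ n ∈ Finset.Icc 1 X, ‖Xa χ n * (Rw a b h (Real.log n) : ℂ) - Xa χ n *
      (if n ∈ Finset.Ioc y (y + H) then 1 else 0 : ℂ)‖ ≤ Real.log X *
      (2 * h * (if n ∈ Finset.Ioc y (y + H) then 1 else 0) +
      3 * (if 0 < n ∧ |Real.log n - Real.log y| ≤ h then 1 else 0) +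
      3 * (if 0 < n ∧ |Real.log n - Real.log ((y : ℝ) + H)| ≤ h then 1 else 0)) := by
    intro n hn
    rw [← mul_sub, norm_mul]
    apply mul_le_mul (Xa_norm_le χ hn) _ (norm_nonneg _) hlX
    have hn0 : 0 < n := by have := (Finset.mem_Icc.1 hn).1; omega
    have hnr : (0 : ℝ) < n := by exact_mod_cast hn0
    have e1 : ‖(Rw a b h (Real.log n) : ℂ) - (if n ∈ Finset.Ioc y (y + H) then 1 else 0 : ℂ)‖ =
        |Rw a b h (Real.log n) - (if n ∈ Finset.Ioc y (y + H) then 1 else 0 : ℝ)| := by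
      rw [← Real.norm_eq_abs, ← Complex.norm_real]
      congr 1
      split_ifs <;> push_cast <;> rfl
    rw [e1]
    have r0 := Rw_nonneg (Real.log n) hab hh
    have r3 := Rw_le (Real.log n) hab hh (by linarith)
    rw [← ha, ← hb]
    have hny : ∀ z : ℕ, 0 < z → (z < n ↔ Real.log z < Real.log n) := by
      intro z hz
      rw [Real.log_lt_log_iff (by exact_mod_cast hz) hnr]
      exact Nat.cast_lt.symm
    have hb' : b = Real.log ((y + H : ℕ) : ℝ) := by rw [hb]; push_cast; rfl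
    have m1 := hny y (by omega)
    have m2 := hny (y + H) (by omega)
    rw [← ha] at m1
    rw [← hb'] at m2
    have hi : (if n ∈ Finset.Ioc y (y + H) then (1 : ℝ) else 0) = 1 ∧ n ∈ Finset.Ioc y (y + H) ∨
        (if n ∈ Finset.Ioc y (y + H) then (1 : ℝ) else 0) = 0 ∧ ¬ n ∈ Finset.Ioc y (y + H) := by
      by_cases g : n ∈ Finset.Ioc y (y + H)
      · left; exact ⟨if_pos g, g⟩
      · right; exact ⟨if_neg g, g⟩
    obtain ⟨i1, hi1⟩ : ∃ i1 : ℝ, i1 = (if n ∈ Finset.Ioc y (y + H) then (1 : ℝ) else 0) := ⟨_, rfl⟩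
    rw [← hi1] at hi ⊢
    have j2 : (0 : ℝ) ≤ (if 0 < n ∧ |Real.log n - a| ≤ h then 1 else 0) := by split_ifs <;> norm_num
    have j3 : (0 : ℝ) ≤ (if 0 < n ∧ |Real.log n - b| ≤ h then 1 else 0) := by split_ifs <;> norm_num
    have j1 : 0 ≤ 2 * h * i1 := by
      rcases hi with ⟨hi, _⟩ | ⟨hi, _⟩ <;> rw [hi] <;> linarith
    have k3 : |Rw a b h (Real.log n) - i1| ≤ 3 := by
      rw [abs_le]
      rcases hi with ⟨hi, _⟩ | ⟨hi, _⟩ <;> rw [hi] <;> constructor <;> linarith
    by_cases c1 : |Real.log n - a| ≤ h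
    · have k2 : (if 0 < n ∧ |Real.log n - a| ≤ h then (1 : ℝ) else 0) = 1 := if_pos ⟨hn0, c1⟩
      rw [k2]
      linarith
    by_cases c2 : |Real.log n - b| ≤ h
    · have k2 : (if 0 < n ∧ |Real.log n - b| ≤ h then (1 : ℝ) else 0) = 1 := if_pos ⟨hn0, c2⟩
      rw [k2]
      linarith
    have k4 : |Rw a b h (Real.log n) - i1| ≤ 2 * h * i1 := by
      rw [abs_le, not_and_or, not_le, not_le] at c1 c2
      rcases c1 with c1 | c1
      · have g1 : ¬ n ∈ Finset.Ioc y (y + H) := by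
          intro hc
          have := m1.1 (Finset.mem_Ioc.1 hc).1
          linarith
        rcases hi with ⟨hi, hg⟩ | ⟨hi, _⟩
        · exact absurd hg g1
        rw [hi, Rw_zero hab hh (Or.inl (by linarith))]
        simp
      · rcases c2 with c2 | c2
        · have g1 : n ∈ Finset.Ioc y (y + H) := by
            rw [Finset.mem_Ioc]
            refine ⟨m1.2 (by linarith), ?_⟩
            by_contra h9
            have := m2.1 (by omega)
            linarith
          rcases hi with ⟨hi, _⟩ | ⟨hi, hg⟩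
          · rw [hi]
            have := Rw_bulk (b := b) hh (by linarith) (by linarith : a + h ≤ Real.log n) (by linarith)
            linarith
          · exact absurd g1 hg
        · have g1 : ¬ n ∈ Finset.Ioc y (y + H) := by
            intro hc
            have h8 := (Finset.mem_Ioc.1 hc).2
            have := m2.2 (by linarith)
            omega
          rcases hi with ⟨hi, hg⟩ | ⟨hi, _⟩
          · exact absurd hg g1
          rw [hi, Rw_zero hab hh (Or.inr (by linarith))]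
          simp
    linarith
  refine (norm_sum_le _ _).trans ((Finset.sum_le_sum h3).trans ?_)
  rw [← Finset.mul_sum]
  apply mul_le_mul_of_nonneg_left _ hlX
  rw [Finset.sum_add_distrib, Finset.sum_add_distrib, ← Finset.mul_sum, ← Finset.mul_sum, ← Finset.mul_sum,
    ← Finset.sum_filter, ← Finset.sum_filter, ← Finset.sum_filter]
  simp only [Finset.sum_const, nsmul_eq_mul, mul_one]
  have c1 : (((Finset.Icc 1 X).filter (fun n => n ∈ Finset.Ioc y (y + H))).card : ℝ) ≤ H := by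
    have : ((Finset.Icc 1 X).filter (fun n => n ∈ Finset.Ioc y (y + H))).card ≤ (Finset.Ioc y (y + H)).card := by
      apply Finset.card_le_card
      intro n hn
      exact (Finset.mem_filter.1 hn).2
    rw [Nat.card_Ioc] at this
    have h5 : ((Finset.Icc 1 X).filter (fun n => n ∈ Finset.Ioc y (y + H))).card ≤ H := by omega
    exact_mod_cast h5
  have c2 := edge_count (Finset.Icc 1 X) (y := y) (by linarith) hh h1
  have c3 := edge_count (Finset.Icc 1 X) (y := (y : ℝ) + H) (by linarith) hh h1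
  have d1 := mul_le_mul_of_nonneg_left c1 (by linarith : 0 ≤ 2 * h)
  have d4 : h * y ≤ h * (y + H) := mul_le_mul_of_nonneg_left (by linarith) hh.le
  linarith

/-- the interval sum from the window sums -/
lemma short_one {q : ℕ} (χ : DirichletCharacter ℂ q) {h : ℝ} (hh : 0 < h) (h1 : h ≤ 1 / 2) {y H : ℕ} (hy : 1 ≤ y)
    {δ : ℂ} {B : ℝ}
    (hW : ∀ u : ℝ, Real.log y ≤ u → u ≤ Real.log (y + H) → ‖WX χ h u - δ‖ ≤ B) :
    ‖∑ n ∈ Finset.Ioc y (y + H), Xa χ n - δ * H‖ ≤
      B * H + Real.log (3 * (y + H) : ℕ) * (2 * h * H + 24 * h * (y + H) + 6) := by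
  have hyr : (1 : ℝ) ≤ y := by exact_mod_cast hy
  have hH0 : (0 : ℝ) ≤ H := Nat.cast_nonneg H
  have hab : Real.log y ≤ Real.log ((y : ℝ) + H) := Real.log_le_log (by linarith) (by linarith)
  have hX : Real.exp (Real.log ((y : ℝ) + H) + h) ≤ (3 * (y + H) : ℕ) := by
    rw [Real.exp_add, Real.exp_log (by linarith)]
    push_cast
    have h2 : Real.exp h ≤ 3 := by
      have := Real.exp_le_exp.2 (by linarith : h ≤ 1)
      linarith [Real.exp_one_lt_d9]
    nlinarith
  have e1 := WX_int χ hh hab hX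
  have e2 := rho_diff χ hh h1 hy (H := H) (X := 3 * (y + H)) (by omega)
  rw [← e1] at e2
  have e3 : ∫ u in (Real.log y)..(Real.log ((y : ℝ) + H)), ((Real.exp u : ℝ) : ℂ) * δ = δ * H := by
    rw [intervalIntegral.integral_mul_const, intervalIntegral.integral_ofReal, integral_exp,
      Real.exp_log (by linarith), Real.exp_log (by linarith)]
    push_cast
    ring
  have hcW : IntervalIntegrable (fun u : ℝ => ((Real.exp u : ℝ) : ℂ) * WX χ h u) volume (Real.log y)
      (Real.log ((y : ℝ) + H)) := by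
    have h5 : ContinuousOn (fun u : ℝ => ((Real.exp u : ℝ) : ℂ) * ∑ n ∈ Finset.Icc 1 (3 * (y + H)), Xa χ n *
        ((1 / n * tri h (u - Real.log n) : ℝ) : ℂ)) (Set.uIcc (Real.log y) (Real.log ((y : ℝ) + H))) := by
      apply Continuous.continuousOn
      apply Continuous.mul (by fun_prop)
      apply continuous_finsetSum
      intro n _
      apply continuous_const.mul
      apply continuous_ofReal.comp
      exact continuous_const.mul (tri_sub_cont h _)
    apply ContinuousOn.intervalIntegrable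
    apply h5.congr
    intro u hu
    rw [Set.uIcc_of_le hab, mem_Icc] at hu
    simp only
    rw [WX_sum χ hh hu.2 hX]
  have hcδ : IntervalIntegrable (fun u : ℝ => ((Real.exp u : ℝ) : ℂ) * δ) volume (Real.log y)
      (Real.log ((y : ℝ) + H)) := by
    apply Continuous.intervalIntegrable
    fun_prop
  have e4 : ‖(∫ u in (Real.log y)..(Real.log ((y : ℝ) + H)), (Real.exp u : ℂ) * WX χ h u) - δ * H‖ ≤ B * H := by
    rw [← e3, ← intervalIntegral.integral_sub hcW hcδ]
    have h6 : ‖∫ u in (Real.log y)..(Real.log ((y : ℝ) + H)), (((Real.exp u : ℝ) : ℂ) * WX χ h u -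
        ((Real.exp u : ℝ) : ℂ) * δ)‖ ≤ ∫ u in (Real.log y)..(Real.log ((y : ℝ) + H)), Real.exp u * B := by
      apply intervalIntegral.norm_integral_le_of_norm_le hab
      · apply Filter.Eventually.of_forall
        intro u hu
        rw [mem_Ioc] at hu
        rw [← mul_sub, norm_mul, Complex.norm_real, Real.norm_eq_abs, abs_of_pos (Real.exp_pos u)]
        exact mul_le_mul_of_nonneg_left (hW u hu.1.le hu.2) (Real.exp_pos u).le
      · apply Continuous.intervalIntegrable
        fun_prop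
    refine h6.trans (le_of_eq ?_)
    rw [intervalIntegral.integral_mul_const, integral_exp, Real.exp_log (by linarith), Real.exp_log (by linarith)]
    ring
  have e5 : ∑ n ∈ Finset.Ioc y (y + H), Xa χ n - δ * H =
      ((∫ u in (Real.log y)..(Real.log ((y : ℝ) + H)), (Real.exp u : ℂ) * WX χ h u) - δ * H) -
      ((∫ u in (Real.log y)..(Real.log ((y : ℝ) + H)), (Real.exp u : ℂ) * WX χ h u) -
        ∑ n ∈ Finset.Ioc y (y + H), Xa χ n) := by ring
  rw [e5]
  refine (norm_sub_le _ _).trans ?_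
  linarith

/-- **short interval sums at a good scale** -/
theorem short_main : ∃ E0 : ℕ, ∀ E : ℕ, E0 ≤ E → ∀ ε : ℝ, 0 < ε → ∃ L0 Q0 : ℕ, ∀ Q : ℕ, Q0 ≤ Q →
    Pool.Agent.TH823.PS.NE 44 E Q → ∃ b : PC → ℝ, (∀ j ∈ fam Q, 0 ≤ b j) ∧ ∑ j ∈ fam Q, b j ≤ ε ∧
    ∀ j ∈ fam Q, ∀ y H : ℕ, Q ^ L0 ≤ y → Real.log (y + H : ℕ) ≤ Q → y + H ≤ H * Q ^ 6 →
    ‖∑ n ∈ Finset.Ioc y (y + H), fn j n * (ArithmeticFunction.vonMangoldt n : ℂ) - dl j * H‖ ≤ b j * H := by
  obtain ⟨E0, hE0⟩ := win_main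
  refine ⟨E0, fun E hE ε hε => ?_⟩
  obtain ⟨L0, Q0, hmain⟩ := hE0 E hE 10 (ε / 2) (by positivity)
  obtain ⟨Q1, hQ1⟩ := exists_nat_ge (128 / ε)
  refine ⟨L0 + 10, Q0 + Q1 + 3, fun Q hQ hNE => ?_⟩
  obtain ⟨b, hb0, hbs, hb⟩ := hmain Q (by omega) hNE
  have hQ3n : 3 ≤ Q := by omega
  have hQ3 : (3 : ℝ) ≤ Q := by exact_mod_cast hQ3n
  have hQ0 : (0 : ℝ) < Q := by linarith
  have hQ1' : (1 : ℝ) ≤ Q := by linarith
  refine ⟨fun j => b j + 64 / (Q : ℝ) ^ 3, ?_, ?_, ?_⟩
  · intro j hj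
    have := hb0 j hj
    positivity
  · rw [Finset.sum_add_distrib, Finset.sum_const, nsmul_eq_mul]
    have h1 : ((fam Q).card : ℝ) * (64 / (Q : ℝ) ^ 3) ≤ 64 / Q := by
      calc ((fam Q).card : ℝ) * (64 / (Q : ℝ) ^ 3) ≤ (Q : ℝ) ^ 2 * (64 / (Q : ℝ) ^ 3) :=
            mul_le_mul_of_nonneg_right (card_fam Q) (by positivity)
        _ = 64 / Q := by field_simp
    have h2 : 64 / (Q : ℝ) ≤ ε / 2 := by
      have h3 : 128 / ε ≤ Q := hQ1.trans (by exact_mod_cast (by omega : Q1 ≤ Q))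
      rw [div_le_iff₀ hε] at h3
      rw [div_le_iff₀ hQ0]
      linarith
    linarith
  · intro j hj y H hy hyH hH
    have hy1 : 1 ≤ y := le_trans (Nat.one_le_pow _ _ (by omega)) hy
    have hyr : (1 : ℝ) ≤ y := by exact_mod_cast hy1
    have hHr : (0 : ℝ) ≤ H := Nat.cast_nonneg H
    have hlQ : 0 ≤ Real.log Q := Real.log_natCast_nonneg Q
    have hQ10 : (2 : ℝ) ≤ (Q : ℝ) ^ 10 := by
      calc (2 : ℝ) ≤ Q := by linarith
        _ ≤ _ := le_self_pow₀ hQ1' (by norm_num)
    have hW : ∀ u : ℝ, Real.log y ≤ u → u ≤ Real.log (y + H) →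
        ‖WX j.2 (1 / (Q : ℝ) ^ 10) u - dl j‖ ≤ b j := by
      intro u hu1 hu2
      apply hb j hj u
      · refine le_trans ?_ hu1
        calc (L0 : ℝ) * Real.log Q ≤ ((L0 + 10 : ℕ) : ℝ) * Real.log Q := by
              apply mul_le_mul_of_nonneg_right _ hlQ
              push_cast; linarith
          _ = Real.log ((Q : ℝ) ^ (L0 + 10)) := by rw [Real.log_pow]
          _ ≤ Real.log y := Real.log_le_log (by positivity) (by exact_mod_cast hy)
      · push_cast at hyH
        linarith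
    have h1 := short_one j.2 (h := 1 / (Q : ℝ) ^ 10) (by positivity)
      (by rw [div_le_div_iff₀ (by positivity) (by norm_num)]; linarith) hy1 (H := H) (δ := dl j) hW
    have h2 : ∑ n ∈ Finset.Ioc y (y + H), Xa j.2 n =
        ∑ n ∈ Finset.Ioc y (y + H), fn j n * (ArithmeticFunction.vonMangoldt n : ℂ) := rfl
    rw [h2] at h1
    refine h1.trans ?_
    rw [add_mul]
    have hl3 : Real.log (3 * (y + H) : ℕ) ≤ 2 * Q := by
      push_cast at hyH ⊢
      rw [Real.log_mul (by norm_num) (by linarith)]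
      have : Real.log 3 ≤ 3 - 1 := Real.log_le_sub_one_of_pos (by norm_num)
      linarith
    have hl30 : 0 ≤ Real.log (3 * (y + H) : ℕ) := Real.log_natCast_nonneg _
    have hH' : (y : ℝ) + H ≤ H * (Q : ℝ) ^ 6 := by exact_mod_cast hH
    have hyQ : (Q : ℝ) ^ 10 ≤ y := by
      calc (Q : ℝ) ^ 10 ≤ (Q : ℝ) ^ (L0 + 10) := pow_le_pow_right₀ hQ1' (by omega)
        _ ≤ y := by exact_mod_cast hy
    have hHQ : (Q : ℝ) ^ 4 ≤ H := by
      have : (Q : ℝ) ^ 4 * (Q : ℝ) ^ 6 ≤ H * (Q : ℝ) ^ 6 := by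
        calc (Q : ℝ) ^ 4 * (Q : ℝ) ^ 6 = (Q : ℝ) ^ 10 := by ring
          _ ≤ (y : ℝ) := hyQ
          _ ≤ (y : ℝ) + H := by linarith
          _ ≤ _ := hH'
      exact le_of_mul_le_mul_right this (by positivity)
    have hmid : 2 * (1 / (Q : ℝ) ^ 10) * H + 24 * (1 / (Q : ℝ) ^ 10) * (y + H) + 6 ≤ 32 / (Q : ℝ) ^ 4 * H := by
      have e1 : 1 / (Q : ℝ) ^ 10 * (y + H) ≤ 1 / (Q : ℝ) ^ 4 * H := by
        calc 1 / (Q : ℝ) ^ 10 * (y + H) ≤ 1 / (Q : ℝ) ^ 10 * (H * (Q : ℝ) ^ 6) :=
              mul_le_mul_of_nonneg_left hH' (by positivity)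
          _ = _ := by field_simp
      have e2 : 1 / (Q : ℝ) ^ 10 * H ≤ 1 / (Q : ℝ) ^ 10 * (y + H) :=
        mul_le_mul_of_nonneg_left (by linarith) (by positivity)
      have e3 : (1 : ℝ) ≤ 1 / (Q : ℝ) ^ 4 * H := by
        rw [one_div, inv_mul_eq_div, le_div_iff₀ (by positivity)]
        linarith
      have e4 : 32 / (Q : ℝ) ^ 4 * H = 32 * (1 / (Q : ℝ) ^ 4 * H) := by ring
      rw [e4]
      linarith
    calc b j * H + Real.log (3 * (y + H) : ℕ) * (2 * (1 / (Q : ℝ) ^ 10) * H + 24 * (1 / (Q : ℝ) ^ 10) * (y + H) + 6)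
        ≤ b j * H + 2 * Q * (32 / (Q : ℝ) ^ 4 * H) := by
          have := mul_le_mul hl3 hmid (by positivity) (by positivity)
          linarith
      _ = _ := by field_simp; ring

end Pool.Agent.Helper86.PS
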