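import Pool.Agent.Helper86.PS.F1
import Pool.Agent.H807R2.Dav1

set_option autoImplicit false

/-!
# Fourier transforms of finitely supported functions on the integers, smoothing
-/

open Finset

namespace Pool.Agent.Helper86.PS

open Pool.Agent.H807R2.Dav

/-- the Fourier transform -/
noncomputable def FT (f : ℤ → ℂ) (θ : ℝ) : ℂ := ∑' n : ℤ, f n * ee (n * θ)

/-- finite support, through a finite set -/
def SF (f : ℤ → ℂ) (S : Finset ℤ) : Prop := ∀ n, n ∉ S → f n = 0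

lemma FT_eq {f : ℤ → ℂ} {S : Finset ℤ} (h : SF f S) (θ : ℝ) : FT f θ = ∑ n ∈ S, f n * ee (n * θ) := by
  unfold FT
  apply tsum_eq_sum
  intro n hn
  rw [h n hn, zero_mul]

lemma SF_mul {f : ℤ → ℂ} {S : Finset ℤ} (h : SF f S) (g : ℤ → ℂ) : SF (fun n => f n * g n) S := by
  intro n hn; simp only; rw [h n hn, zero_mul]

lemma SF_mul' {f : ℤ → ℂ} {S : Finset ℤ} (h : SF f S) (g : ℤ → ℂ) : SF (fun n => g n * f n) S := by
  intro n hn; simp only; rw [h n hn, mul_zero]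

lemma SF_mono {f : ℤ → ℂ} {S T : Finset ℤ} (h : SF f S) (hST : S ⊆ T) : SF f T :=
  fun n hn => h n fun hc => hn (hST hc)

lemma FT_summable {f : ℤ → ℂ} {S : Finset ℤ} (h : SF f S) (θ : ℝ) : Summable fun n : ℤ => f n * ee (n * θ) :=
  summable_of_ne_finset_zero (s := S) fun n hn => by rw [h n hn, zero_mul]

lemma FT_norm_le {f : ℤ → ℂ} {S : Finset ℤ} (h : SF f S) (θ : ℝ) : ‖FT f θ‖ ≤ ∑ n ∈ S, ‖f n‖ := by
  rw [FT_eq h]
  refine (norm_sum_le _ _).trans (le_of_eq ?_)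
  apply sum_congr rfl
  intro n _
  rw [norm_mul, norm_ee, mul_one]

lemma FT_shift (f : ℤ → ℂ) (c : ℤ) (θ : ℝ) : FT (fun n => f (n + c)) θ = ee (-(c * θ)) * FT f θ := by
  unfold FT
  rw [← tsum_mul_left, ← (Equiv.addRight c).tsum_eq (fun n : ℤ => ee (-(c * θ)) * (f n * ee (n * θ)))]
  apply tsum_congr
  intro n
  rw [Equiv.coe_addRight]
  have h1 : ee ((n : ℝ) * θ) = ee (-(c * θ)) * ee (((n + c : ℤ) : ℝ) * θ) := by
    rw [← ee_add]; congr 1; push_cast; ring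
  rw [h1]
  ring

lemma FT_const_mul (c : ℂ) (f : ℤ → ℂ) (θ : ℝ) : FT (fun n => c * f n) θ = c * FT f θ := by
  unfold FT
  rw [← tsum_mul_left]
  apply tsum_congr
  intro n
  ring

lemma FT_sum {ι : Type} (J : Finset ι) (f : ι → ℤ → ℂ) {S : Finset ℤ} (h : ∀ i ∈ J, SF (f i) S) (θ : ℝ) :
    FT (fun n => ∑ i ∈ J, f i n) θ = ∑ i ∈ J, FT (f i) θ := by
  have h1 : SF (fun n => ∑ i ∈ J, f i n) S := fun n hn => sum_eq_zero fun i hi => h i hi n hn
  rw [FT_eq h1]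
  simp only [sum_mul]
  rw [sum_comm]
  apply sum_congr rfl
  intro i hi
  rw [FT_eq (h i hi)]

lemma FT_sub {f g : ℤ → ℂ} {S : Finset ℤ} (h : SF f S) (h' : SF g S) (θ : ℝ) :
    FT (fun n => f n - g n) θ = FT f θ - FT g θ := by
  have h1 : SF (fun n => f n - g n) S := by
    intro n hn; simp only; rw [h n hn, h' n hn, sub_zero]
  rw [FT_eq h1, FT_eq h, FT_eq h', ← sum_sub_distrib]
  apply sum_congr rfl
  intro n _
  ring

lemma FT_ee (f : ℤ → ℂ) (θ φ : ℝ) : FT (fun n => ee (n * φ) * f n) θ = FT f (θ + φ) := by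
  unfold FT
  apply tsum_congr
  intro n
  rw [mul_add, ee_add]
  ring

/-- the smoothing over differences -/
noncomputable def sm (H : ℕ) (f : ℤ → ℂ) (n : ℤ) : ℂ :=
  1 / (H : ℂ) * ∑ a ∈ range H, (1 / (H : ℂ) * ∑ b ∈ range H, f (n - a + b))

/-- the transform of the smoothing -/
noncomputable def KH (H : ℕ) (θ : ℝ) : ℂ :=
  1 / (H : ℂ) * ∑ a ∈ range H, (1 / (H : ℂ) * ∑ b ∈ range H, ee (a * θ - b * θ))

/-- the enlargement of a set of integers -/
def enl (H : ℕ) (S : Finset ℤ) : Finset ℤ := (range H ×ˢ range H).biUnion fun p => S.image fun n => n + p.1 - p.2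

lemma SF_sm {H : ℕ} {f : ℤ → ℂ} {S : Finset ℤ} (h : SF f S) : SF (sm H f) (enl H S) := by
  intro n hn
  unfold sm
  rw [sum_eq_zero, mul_zero]
  intro a ha
  rw [sum_eq_zero, mul_zero]
  intro b hb
  apply h
  intro hc
  apply hn
  unfold enl
  rw [mem_biUnion]
  refine ⟨(a, b), mem_product.2 ⟨ha, hb⟩, mem_image.2 ⟨_, hc, ?_⟩⟩
  simp only
  ring

lemma FT_sm {H : ℕ} {f : ℤ → ℂ} {S : Finset ℤ} (h : SF f S) (θ : ℝ) : FT (sm H f) θ = KH H θ * FT f θ := by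
  have hs : ∀ a ∈ range H, ∀ b ∈ range H, SF (fun n : ℤ => f (n - a + b)) (enl H S) := by
    intro a ha b hb n hn
    apply h
    intro hc
    apply hn
    unfold enl
    rw [mem_biUnion]
    refine ⟨(a, b), mem_product.2 ⟨ha, hb⟩, mem_image.2 ⟨_, hc, ?_⟩⟩
    simp only
    ring
  have e0 : sm H f = fun n => 1 / (H : ℂ) * ∑ a ∈ range H, (1 / (H : ℂ) * ∑ b ∈ range H, f (n - a + b)) := rfl
  rw [e0, FT_const_mul, FT_sum (range H) _ (S := enl H S)]
  · unfold KH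
    rw [mul_assoc, sum_mul]
    congr 1
    apply sum_congr rfl
    intro a ha
    rw [FT_const_mul, FT_sum (range H) _ (S := enl H S) (fun b hb => hs a ha b hb), mul_assoc, sum_mul]
    congr 1
    apply sum_congr rfl
    intro b hb
    have e1 : (fun n : ℤ => f (n - a + b)) = fun n : ℤ => f (n + (b - a : ℤ)) := by
      ext n; congr 1; ring
    rw [e1, FT_shift]
    congr 2
    push_cast
    ring
  · intro a ha n hn
    simp only
    rw [sum_eq_zero, mul_zero]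
    intro b hb
    exact hs a ha b hb n hn

lemma KH_eq (H : ℕ) (θ : ℝ) : KH H θ = 1 / (H : ℂ) ^ 2 * ((∑ a ∈ range H, ee (a * θ)) * ∑ b ∈ range H, ee (-(b * θ))) := by
  unfold KH
  rw [sum_mul_sum, ← mul_sum, ← mul_assoc]
  congr 1
  · ring
  apply sum_congr rfl
  intro a _
  apply sum_congr rfl
  intro b _
  rw [← ee_add]
  congr 1

lemma geo_norm (H : ℕ) (θ : ℝ) : ‖∑ a ∈ range H, ee (a * θ)‖ * dd θ ≤ 2 := by
  unfold dd
  rw [← norm_mul]
  have h1 : (∑ a ∈ range H, ee (a * θ)) * (1 - ee θ) = 1 - ee (H * θ) := by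
    simp only [ee_pow]
    rw [geom_sum_mul_neg]
  rw [h1]
  refine (norm_sub_le _ _).trans ?_
  rw [norm_one, norm_ee]
  norm_num

lemma KH_far {H : ℕ} (hH : 0 < H) {θ d : ℝ} (hd : 0 < d) (h : d ≤ dd θ) : ‖KH H θ‖ ≤ 4 / (H * d) ^ 2 := by
  have hH0 : (0 : ℝ) < H := by exact_mod_cast hH
  rw [KH_eq, norm_mul, norm_mul, norm_div, norm_pow, Complex.norm_natCast, norm_one]
  have h1 := geo_norm H θ
  have h2 := geo_norm H (-θ)
  rw [dd_neg] at h2
  have h3 : ∑ b ∈ range H, ee (-(b * θ)) = ∑ b ∈ range H, ee (b * -θ) := by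
    apply sum_congr rfl; intro b _; congr 1; ring
  rw [h3]
  have h4 : ‖∑ a ∈ range H, ee (a * θ)‖ ≤ 2 / d := by
    rw [le_div_iff₀ hd]
    exact le_trans (mul_le_mul_of_nonneg_left h (norm_nonneg _)) h1
  have h5 : ‖∑ a ∈ range H, ee (a * -θ)‖ ≤ 2 / d := by
    rw [le_div_iff₀ hd]
    exact le_trans (mul_le_mul_of_nonneg_left h (norm_nonneg _)) h2
  calc 1 / (H : ℝ) ^ 2 * (‖∑ a ∈ range H, ee (a * θ)‖ * ‖∑ b ∈ range H, ee (b * -θ)‖) ≤
      1 / (H : ℝ) ^ 2 * ((2 / d) * (2 / d)) := by gcongr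
    _ = _ := by field_simp; ring

lemma norm_avg_le {H : ℕ} {g : ℕ → ℂ} {B : ℝ} (hB : 0 ≤ B) (h : ∀ a ∈ range H, ‖g a‖ ≤ B) :
    ‖1 / (H : ℂ) * ∑ a ∈ range H, g a‖ ≤ B := by
  rcases Nat.eq_zero_or_pos H with h0 | h0
  · rw [h0]; simpa using hB
  have hH0 : (0 : ℝ) < H := by exact_mod_cast h0
  rw [norm_mul, norm_div, norm_one, Complex.norm_natCast]
  have h1 : ‖∑ a ∈ range H, g a‖ ≤ H * B := by
    refine (norm_sum_le_of_le _ h).trans ?_
    rw [sum_const, card_range, nsmul_eq_mul]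
  calc 1 / (H : ℝ) * ‖∑ a ∈ range H, g a‖ ≤ 1 / (H : ℝ) * (H * B) := by gcongr
    _ = B := by field_simp

lemma KH_le (H : ℕ) (θ : ℝ) : ‖KH H θ‖ ≤ 1 := by
  unfold KH
  apply norm_avg_le zero_le_one
  intro a _
  apply norm_avg_le zero_le_one
  intro b _
  rw [norm_ee]

lemma KH_near {H : ℕ} (hH : 0 < H) (θ : ℝ) : ‖1 - KH H θ‖ ≤ 2 * Real.pi * H * |θ| := by
  have hH0 : (0 : ℝ) < H := by exact_mod_cast hH
  have hHc : (H : ℂ) ≠ 0 := by exact_mod_cast hH.ne'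
  have h1 : 1 - KH H θ = 1 / (H : ℂ) * ∑ a ∈ range H, (1 / (H : ℂ) * ∑ b ∈ range H, (1 - ee (a * θ - b * θ))) := by
    unfold KH
    simp only [sum_sub_distrib, sum_const, card_range, nsmul_eq_mul, mul_one, mul_sub]
    field_simp
  rw [h1]
  apply norm_avg_le (by positivity)
  intro a ha
  apply norm_avg_le (by positivity)
  intro b hb
  have h2 := dd_le (a * θ - b * θ)
  unfold dd at h2
  refine h2.trans ?_
  rw [← sub_mul, abs_mul]
  have h3 : |(a : ℝ) - b| ≤ H := by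
    rw [mem_range] at ha hb
    have ha' : (a : ℝ) ≤ H := by exact_mod_cast ha.le
    have hb' : (b : ℝ) ≤ H := by exact_mod_cast hb.le
    have ha0 : (0 : ℝ) ≤ a := Nat.cast_nonneg a
    have hb0 : (0 : ℝ) ≤ b := Nat.cast_nonneg b
    rw [abs_le]; constructor <;> linarith
  calc 2 * Real.pi * (|(a : ℝ) - b| * |θ|) ≤ 2 * Real.pi * (H * |θ|) := by gcongr
    _ = _ := by ring

lemma sm_norm_le {H : ℕ} {f : ℤ → ℂ} {B : ℝ} (hB : 0 ≤ B) (h : ∀ n, ‖f n‖ ≤ B) (n : ℤ) : ‖sm H f n‖ ≤ B := by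
  unfold sm
  apply norm_avg_le hB
  intro a _
  apply norm_avg_le hB
  intro b _
  exact h _

lemma sm_lip_one {H : ℕ} {f : ℤ → ℂ} {B : ℝ} (hB : 0 ≤ B) (h : ∀ n, ‖f n‖ ≤ B) (n : ℤ) :
    ‖sm H f (n + 1) - sm H f n‖ ≤ 2 * B / H := by
  rcases Nat.eq_zero_or_pos H with h0 | h0
  · rw [h0]; simp [sm]
  have hH0 : (0 : ℝ) < H := by exact_mod_cast h0
  unfold sm
  rw [← mul_sub]
  obtain ⟨g, hg⟩ : ∃ g : ℤ → ℂ, g = fun m => 1 / (H : ℂ) * ∑ b ∈ range H, f (m + b) := ⟨_, rfl⟩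
  have hgb : ∀ m, ‖g m‖ ≤ B := by
    intro m
    rw [hg]
    apply norm_avg_le hB
    intro b _
    exact h _
  have h1 : ∀ m : ℤ, ∑ a ∈ range H, (1 / (H : ℂ) * ∑ b ∈ range H, f (m - a + b)) = ∑ a ∈ range H, g (m - a) := by
    intro m; rw [hg]
  rw [h1, h1]
  have h2 : ∑ a ∈ range H, g (n + 1 - a) - ∑ a ∈ range H, g (n - a) = g (n + 1) - g (n + 1 - H) := by
    rw [← sum_sub_distrib]
    have h3 : ∀ a ∈ range H, g (n + 1 - a) - g (n - a) = (fun a : ℕ => g (n + 1 - a)) a - (fun a : ℕ => g (n + 1 - a)) (a + 1) := by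
      intro a _
      simp only
      congr 2
      push_cast
      ring
    rw [sum_congr rfl h3, sum_range_sub']
    simp
  rw [h2, norm_mul, norm_div, norm_one, Complex.norm_natCast]
  have h4 : ‖g (n + 1) - g (n + 1 - H)‖ ≤ 2 * B := by
    refine (norm_sub_le _ _).trans ?_
    linarith [hgb (n + 1), hgb (n + 1 - H)]
  calc 1 / (H : ℝ) * ‖g (n + 1) - g (n + 1 - H)‖ ≤ 1 / (H : ℝ) * (2 * B) := by gcongr
    _ = _ := by ring

lemma lip_nat {g : ℤ → ℂ} {L : ℝ} (h : ∀ n, ‖g (n + 1) - g n‖ ≤ L) (n : ℤ) (t : ℕ) :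
    ‖g (n + t) - g n‖ ≤ L * t := by
  induction t with
  | zero => simp
  | succ t ih =>
    have h1 := h (n + t)
    have h2 : g (n + (t + 1 : ℕ)) - g n = (g (n + t + 1) - g (n + t)) + (g (n + t) - g n) := by
      push_cast
      rw [← add_assoc]
      ring
    rw [h2]
    refine (norm_add_le _ _).trans ?_
    push_cast
    linarith

lemma lip_int {g : ℤ → ℂ} {L : ℝ} (h : ∀ n, ‖g (n + 1) - g n‖ ≤ L) (m n : ℤ) :
    ‖g m - g n‖ ≤ L * |((m : ℝ) - n)| := by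
  rcases le_total n m with h1 | h1
  · have h2 := lip_nat h n (m - n).toNat
    have h3 : ((m - n).toNat : ℤ) = m - n := Int.toNat_of_nonneg (by omega)
    have h4 : (((m - n).toNat : ℕ) : ℝ) = m - n := by
      have : (((m - n).toNat : ℤ) : ℝ) = ((m - n : ℤ) : ℝ) := by rw [h3]
      push_cast at this
      exact this
    rw [h3, h4] at h2
    rw [abs_of_nonneg (by rw [sub_nonneg]; exact_mod_cast h1)]
    have h5 : n + (m - n) = m := by ring
    rwa [h5] at h2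
  · have h2 := lip_nat h m (n - m).toNat
    have h3 : ((n - m).toNat : ℤ) = n - m := Int.toNat_of_nonneg (by omega)
    have h4 : (((n - m).toNat : ℕ) : ℝ) = n - m := by
      have : (((n - m).toNat : ℤ) : ℝ) = ((n - m : ℤ) : ℝ) := by rw [h3]
      push_cast at this
      exact this
    rw [h3, h4] at h2
    rw [abs_sub_comm, abs_of_nonneg (by rw [sub_nonneg]; exact_mod_cast h1), norm_sub_rev]
    have h5 : m + (n - m) = n := by ring
    rwa [h5] at h2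

end Pool.Agent.Helper86.PS
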