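import Pool.Agent.Helper86.PS.F2

set_option autoImplicit false

/-!
# Means of periodic functions
-/

open Finset

namespace Pool.Agent.Helper86.PS

open Pool.Agent.H807R2.Dav

/-- periodicity -/
def Per (m : ℕ) (g : ℤ → ℂ) : Prop := ∀ x y : ℤ, (m : ℤ) ∣ x - y → g x = g y

/-- the mean over the first `m` integers -/
noncomputable def mn (m : ℕ) (g : ℤ → ℂ) : ℂ := 1 / (m : ℂ) * ∑ x ∈ range m, g x

lemma Per.mono {m m' : ℕ} {g : ℤ → ℂ} (h : Per m g) (hm : m ∣ m') : Per m' g :=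
  fun x y hxy => h x y ((Int.natCast_dvd_natCast.2 hm).trans hxy)

lemma Per.mul {m : ℕ} {f g : ℤ → ℂ} (hf : Per m f) (hg : Per m g) : Per m (fun x => f x * g x) := by
  intro x y hxy
  simp only
  rw [hf x y hxy, hg x y hxy]

lemma Per.comp {m : ℕ} {g : ℤ → ℂ} (hg : Per m g) (a b : ℤ) : Per m (fun x => g (a * x + b)) := by
  intro x y hxy
  apply hg
  have : a * x + b - (a * y + b) = a * (x - y) := by ring
  rw [this]
  exact Dvd.dvd.mul_left hxy a

lemma Per.prod {ι : Type} {J : Finset ι} {m : ℕ} {g : ι → ℤ → ℂ} (hg : ∀ i ∈ J, Per m (g i)) :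
    Per m (fun x => ∏ i ∈ J, g i x) := by
  intro x y hxy
  exact prod_congr rfl fun i hi => hg i hi x y hxy

lemma Per.sum {ι : Type} {J : Finset ι} {m : ℕ} {g : ι → ℤ → ℂ} (hg : ∀ i ∈ J, Per m (g i)) :
    Per m (fun x => ∑ i ∈ J, g i x) := by
  intro x y hxy
  exact sum_congr rfl fun i hi => hg i hi x y hxy

lemma per_const (m : ℕ) (c : ℂ) : Per m (fun _ => c) := fun _ _ _ => rfl

lemma sum_zmod {m : ℕ} [NeZero m] (g : ℤ → ℂ) : ∑ x ∈ range m, g x = ∑ z : ZMod m, g (z.val : ℤ) := by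
  obtain ⟨k, hk⟩ : ∃ k, m = k + 1 := ⟨m - 1, by have := NeZero.ne m; omega⟩
  subst hk
  exact (Fin.sum_univ_eq_sum_range (fun i => g (i : ℤ)) (k + 1)).symm

lemma mn_affine {m : ℕ} {g : ℤ → ℂ} (hg : Per m g) {a : ℤ} (ha : IsCoprime a (m : ℤ)) (c : ℤ) :
    mn m (fun x => g (a * x + c)) = mn m g := by
  unfold mn
  rcases Nat.eq_zero_or_pos m with h0 | h0
  · rw [h0]; simp
  have : NeZero m := ⟨by omega⟩
  congr 1
  rw [sum_zmod (fun x => g (a * x + c)), sum_zmod g]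
  have hu : IsUnit (a : ZMod m) := by
    rw [ZMod.coe_int_isUnit_iff_isCoprime]
    exact ha.symm
  obtain ⟨u, hu⟩ := hu
  rw [← Equiv.sum_comp ((Units.mulLeft u).trans (Equiv.addRight (c : ZMod m))) (fun z : ZMod m => g (z.val : ℤ))]
  apply sum_congr rfl
  intro z _
  apply hg
  simp only [Equiv.trans_apply, Units.mulLeft_apply, Equiv.coe_addRight]
  rw [← ZMod.intCast_eq_intCast_iff_dvd_sub]
  push_cast
  rw [ZMod.natCast_zmod_val, ZMod.natCast_zmod_val, hu]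

lemma mn_shift {m : ℕ} {g : ℤ → ℂ} (hg : Per m g) (c : ℤ) : mn m (fun x => g (x + c)) = mn m g := by
  have := mn_affine hg (a := 1) isCoprime_one_left c
  simpa using this

lemma mn_mul {m t : ℕ} {g : ℤ → ℂ} (hg : Per m g) (ht : 0 < t) : mn (m * t) g = mn m g := by
  unfold mn
  rcases Nat.eq_zero_or_pos m with h0 | h0
  · rw [h0]; simp
  have h1 : ∀ t : ℕ, ∑ x ∈ range (m * t), g x = t * ∑ x ∈ range m, g x := by
    intro t
    induction t with
    | zero => simp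
    | succ t ih =>
      rw [mul_add, mul_one, sum_range_add, ih]
      have h2 : ∑ x ∈ range m, g ((m * t + x : ℕ) : ℤ) = ∑ x ∈ range m, g x := by
        apply sum_congr rfl
        intro x _
        apply hg
        push_cast
        exact ⟨t, by ring⟩
      rw [h2]
      push_cast
      ring
  rw [h1]
  have hm : (m : ℂ) ≠ 0 := by exact_mod_cast h0.ne'
  have ht' : (t : ℂ) ≠ 0 := by exact_mod_cast ht.ne'
  push_cast
  field_simp

lemma mn_dvd {m m' : ℕ} {g : ℤ → ℂ} (hg : Per m g) (h : m ∣ m') (h0 : 0 < m') : mn m' g = mn m g := by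
  obtain ⟨t, rfl⟩ := h
  exact mn_mul hg (Nat.pos_of_mul_pos_left h0)

lemma mn_two {m n : ℕ} {g : ℤ → ℂ} (hm : Per m g) (hn : Per n g) (h0 : 0 < m) (h1 : 0 < n) : mn m g = mn n g := by
  rw [← mn_mul hm h1, mul_comm, mn_mul hn h0]

lemma mn_crt {m n : ℕ} {f g : ℤ → ℂ} (hco : Nat.Coprime m n) (hf : Per m f) (hg : Per n g) :
    mn (m * n) (fun x => f x * g x) = mn m f * mn n g := by
  unfold mn
  rcases Nat.eq_zero_or_pos m with h0 | h0
  · rw [h0]; simp
  rcases Nat.eq_zero_or_pos n with h1 | h1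
  · rw [h1]; simp
  have : NeZero m := ⟨by omega⟩
  have : NeZero n := ⟨by omega⟩
  have : NeZero (m * n) := ⟨by positivity⟩
  rw [sum_zmod (fun x => f x * g x), sum_zmod f, sum_zmod g]
  have h2 : ∑ z : ZMod (m * n), f (z.val : ℤ) * g (z.val : ℤ) =
      ∑ p : ZMod m × ZMod n, f (p.1.val : ℤ) * g (p.2.val : ℤ) := by
    rw [← Equiv.sum_comp (ZMod.chineseRemainder hco).toEquiv (fun p : ZMod m × ZMod n => f (p.1.val : ℤ) * g (p.2.val : ℤ))]
    apply sum_congr rfl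
    intro z _
    have e1 : (ZMod.chineseRemainder hco) z = ((z.val : ZMod m), (z.val : ZMod n)) := by
      conv_lhs => rw [← ZMod.natCast_zmod_val z]
      rw [map_natCast]
      rfl
    have e2 : (ZMod.chineseRemainder hco).toEquiv z = ((z.val : ZMod m), (z.val : ZMod n)) := e1
    rw [e2]
    simp only
    congr 1
    · apply hf
      rw [← ZMod.intCast_eq_intCast_iff_dvd_sub]
      push_cast
      rw [ZMod.natCast_zmod_val]
    · apply hg
      rw [← ZMod.intCast_eq_intCast_iff_dvd_sub]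
      push_cast
      rw [ZMod.natCast_zmod_val]
  rw [h2, Fintype.sum_prod_type]
  simp only
  rw [← sum_mul_sum]
  push_cast
  ring

lemma mn_norm_le {m : ℕ} {g : ℤ → ℂ} {B : ℝ} (hB : 0 ≤ B) (h : ∀ x, ‖g x‖ ≤ B) : ‖mn m g‖ ≤ B :=
  norm_avg_le hB fun _ _ => h _

lemma mn_const_mul (m : ℕ) (c : ℂ) (g : ℤ → ℂ) : mn m (fun x => c * g x) = c * mn m g := by
  unfold mn
  rw [← mul_sum]; ring

lemma mn_sum {ι : Type} (J : Finset ι) (m : ℕ) (g : ι → ℤ → ℂ) :
    mn m (fun x => ∑ i ∈ J, g i x) = ∑ i ∈ J, mn m (g i) := by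
  unfold mn
  rw [sum_comm, mul_sum]

lemma mn_const {m : ℕ} (hm : 0 < m) (c : ℂ) : mn m (fun _ => c) = c := by
  unfold mn
  have : (m : ℂ) ≠ 0 := by exact_mod_cast hm.ne'
  rw [sum_const, card_range, nsmul_eq_mul]
  field_simp

/-- the additive characters -/
noncomputable def ea (k : ℕ) (c x : ℤ) : ℂ := ee (((x * c : ℤ) : ℝ) / k)

lemma ea_norm (k : ℕ) (c x : ℤ) : ‖ea k c x‖ = 1 := norm_ee _

lemma ea_per {k : ℕ} (hk : 0 < k) (c : ℤ) : Per k (ea k c) := by
  intro x y hxy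
  obtain ⟨t, ht⟩ := hxy
  unfold ea
  have hk' : (k : ℝ) ≠ 0 := by exact_mod_cast hk.ne'
  have e1 : (((x * c : ℤ) : ℝ) / k) = ((y * c : ℤ) : ℝ) / k + ((t * c : ℤ) : ℝ) := by
    have : x = y + k * t := by linarith
    rw [this]
    push_cast
    field_simp
  rw [e1, ee_add_int]

lemma dd_rat {k : ℕ} (hk : 0 < k) {t : ℤ} (ht : ¬ (k : ℤ) ∣ t) : 4 / (k : ℝ) ≤ dd (t / k) := by
  have hk0 : (0 : ℝ) < k := by exact_mod_cast hk
  have hkz : (k : ℤ) ≠ 0 := by exact_mod_cast hk.ne'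
  have e1 : (t : ℝ) / k = ((t % k : ℤ) : ℝ) / k + ((t / k : ℤ) : ℝ) := by
    have h1 : t = t % k + k * (t / k) := (Int.emod_add_mul_ediv t k).symm
    have h2 : (t : ℝ) = ((t % k : ℤ) : ℝ) + k * ((t / k : ℤ) : ℝ) := by exact_mod_cast h1
    rw [h2]
    field_simp
    try rw [← h2]
  rw [e1, dd_add_int]
  have h3 : 0 < t % k := lt_of_le_of_ne (Int.emod_nonneg t hkz) fun h => ht (Int.dvd_of_emod_eq_zero h.symm)
  have h4 : t % k < k := Int.emod_lt_of_pos t (by exact_mod_cast hk)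
  have h5 : (1 : ℝ) ≤ ((t % k : ℤ) : ℝ) := by exact_mod_cast h3
  have h6 : ((t % k : ℤ) : ℝ) ≤ k - 1 := by
    have : t % k ≤ k - 1 := by omega
    exact_mod_cast this
  have h7 := dd_ge (t := ((t % k : ℤ) : ℝ) / k) (by positivity) (by rw [div_le_one hk0]; linarith)
  refine le_trans ?_ h7
  have h8 : 1 / (k : ℝ) ≤ min (((t % k : ℤ) : ℝ) / k) (1 - ((t % k : ℤ) : ℝ) / k) := by
    apply le_min
    · exact div_le_div_of_nonneg_right h5 hk0.le
    · rw [le_sub_iff_add_le, ← add_div, div_le_one hk0]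
      linarith
  calc 4 / (k : ℝ) = 4 * (1 / k) := by ring
    _ ≤ _ := mul_le_mul_of_nonneg_left h8 (by norm_num)

lemma ortho {k : ℕ} (hk : 0 < k) (t : ℤ) :
    ∑ c ∈ range k, ee (((t * c : ℤ) : ℝ) / k) = if (k : ℤ) ∣ t then (k : ℂ) else 0 := by
  have hk0 : (k : ℝ) ≠ 0 := by exact_mod_cast hk.ne'
  have h1 : ∀ c ∈ range k, ee (((t * c : ℤ) : ℝ) / k) = ee ((t : ℝ) / k) ^ c := by
    intro c _
    rw [← ee_pow]
    congr 1
    push_cast
    ring
  rw [sum_congr rfl h1]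
  split_ifs with h2
  · obtain ⟨s, hs⟩ := h2
    have e1 : ee ((t : ℝ) / k) = 1 := by
      have : (t : ℝ) / k = ((s : ℤ) : ℝ) := by
        rw [hs]; push_cast; field_simp
      rw [this, ee_int]
    rw [e1]
    simp
  · have h3 := dd_rat hk h2
    have h4 : (∑ c ∈ range k, ee ((t : ℝ) / k) ^ c) * (1 - ee ((t : ℝ) / k)) = 0 := by
      rw [geom_sum_mul_neg, ← ee_pow]
      have : (k : ℝ) * ((t : ℝ) / k) = ((t : ℤ) : ℝ) := by field_simp
      rw [this, ee_int, sub_self]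
    rcases mul_eq_zero.1 h4 with h5 | h5
    · exact h5
    · exfalso
      unfold dd at h3
      rw [h5, norm_zero] at h3
      have : 0 < 4 / (k : ℝ) := by positivity
      linarith

lemma ortho' {k : ℕ} (hk : 0 < k) (t : ℤ) : mn k (ea k t) = if (k : ℤ) ∣ t then 1 else 0 := by
  unfold mn ea
  have h1 : ∑ x ∈ range k, ee (((((x : ℕ) : ℤ) * t : ℤ) : ℝ) / k) = ∑ c ∈ range k, ee (((t * c : ℤ) : ℝ) / k) := by
    apply sum_congr rfl
    intro x _
    rw [mul_comm]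
  rw [h1, ortho hk t]
  have hk0 : (k : ℂ) ≠ 0 := by exact_mod_cast hk.ne'
  split_ifs
  · field_simp
  · simp

/-- Fourier coefficients -/
noncomputable def FC (k : ℕ) (g : ℤ → ℂ) (c : ℤ) : ℂ := mn k (fun x => g x * ea k (-c) x)

lemma ea_mul (k : ℕ) (c c' x : ℤ) : ea k c x * ea k c' x = ea k (c + c') x := by
  unfold ea
  rw [← ee_add]
  congr 1
  push_cast
  ring

lemma FC_inv {k : ℕ} (hk : 0 < k) {g : ℤ → ℂ} (hg : Per k g) (n : ℤ) :
    g n = ∑ c ∈ range k, FC k g c * ea k c n := by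
  have hk0 : (k : ℂ) ≠ 0 := by exact_mod_cast hk.ne'
  unfold FC mn
  have h1 : ∀ c ∈ range k, 1 / (k : ℂ) * (∑ x ∈ range k, g x * ea k (-(c : ℤ)) x) * ea k c n =
      1 / (k : ℂ) * ∑ x ∈ range k, g x * ee ((((n - x) * c : ℤ) : ℝ) / k) := by
    intro c _
    rw [mul_assoc, sum_mul]
    congr 1
    apply sum_congr rfl
    intro x _
    rw [mul_assoc]
    congr 1
    unfold ea
    rw [← ee_add]
    congr 1
    push_cast
    ring
  rw [sum_congr rfl h1, ← mul_sum, sum_comm]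
  simp only [← mul_sum]
  have h2 : ∀ x ∈ range k, g x * ∑ c ∈ range k, ee ((((n - x) * c : ℤ) : ℝ) / k) =
      g x * (if (k : ℤ) ∣ n - x then (k : ℂ) else 0) := by
    intro x _
    rw [ortho hk]
  rw [sum_congr rfl h2, sum_eq_single (n % k).toNat]
  · have h3 : (((n % k).toNat : ℕ) : ℤ) = n % k := Int.toNat_of_nonneg (Int.emod_nonneg n (by exact_mod_cast hk.ne'))
    rw [h3, if_pos (Int.dvd_self_sub_emod), hg (n % k) n ?_]
    · field_simp
    · rw [← neg_sub, dvd_neg]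
      exact Int.dvd_self_sub_emod
  · intro x hx hne
    rw [if_neg, mul_zero]
    intro hc
    apply hne
    rw [mem_range] at hx
    have h4 : n % k = x := by
      have : n % k = (x : ℤ) % k := Int.emod_eq_emod_iff_emod_sub_eq_zero.2 (Int.emod_eq_zero_of_dvd hc)
      rw [this]
      exact Int.emod_eq_of_lt (by positivity) (by exact_mod_cast hx)
    rw [h4]
    rfl
  · intro hn
    exfalso
    apply hn
    rw [mem_range]
    have h5 := Int.emod_lt_of_pos n (by exact_mod_cast hk : (0 : ℤ) < k)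
    have h6 := Int.emod_nonneg n (by exact_mod_cast hk.ne' : (k : ℤ) ≠ 0)
    omega

end Pool.Agent.Helper86.PS
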