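import Pool.Agent.Helper86.PS.F3

set_option autoImplicit false

/-!
# Fourier coefficients of the twisted local products
-/

open Finset

namespace Pool.Agent.Helper86.PS

open Pool.Agent.H807R2.Dav

/-- the character on the integers -/
noncomputable def fz (j : PC) (x : ℤ) : ℂ := j.2 (x : ZMod (j.1 + 1))

/-- the conjugate -/
noncomputable def cz (j : PC) (x : ℤ) : ℂ := (starRingEnd ℂ) (fz j x)

lemma fz_nat (j : PC) (n : ℕ) : fz j (n : ℤ) = fn j n := by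
  unfold fz fn; rw [Int.cast_natCast]

lemma fz_norm_le (j : PC) (x : ℤ) : ‖fz j x‖ ≤ 1 := j.2.norm_le_one _

lemma cz_norm (j : PC) (x : ℤ) : ‖cz j x‖ = ‖fz j x‖ := by unfold cz; rw [RCLike.norm_conj]

lemma cz_norm_le (j : PC) (x : ℤ) : ‖cz j x‖ ≤ 1 := by rw [cz_norm]; exact fz_norm_le j x

lemma fz_per (j : PC) : Per (j.1 + 1) (fz j) := by
  intro x y hxy
  unfold fz
  congr 1
  have : ((j.1 + 1 : ℕ) : ℤ) ∣ y - x := by rw [← neg_sub, dvd_neg]; exact hxy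
  exact (ZMod.intCast_eq_intCast_iff_dvd_sub x y (j.1 + 1)).2 this

lemma cz_per (j : PC) : Per (j.1 + 1) (cz j) := by
  intro x y hxy
  unfold cz
  rw [fz_per j x y hxy]

lemma fz_ne_zero_iff (j : PC) (x : ℤ) : fz j x ≠ 0 ↔ IsCoprime x ((j.1 + 1 : ℕ) : ℤ) :=
  DirichletCharacter.apply_ne_zero_iff j.2 x

lemma fz_zero {j : PC} {x : ℤ} {p : ℕ} (hp : p.Prime) (hpj : p ∣ j.1 + 1) (hx : (p : ℤ) ∣ x) : fz j x = 0 := by
  by_contra h
  rw [← ne_eq, fz_ne_zero_iff] at h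
  have h1 : IsUnit (p : ℤ) := h.isUnit_of_dvd' hx (Int.natCast_dvd_natCast.2 hpj)
  rw [Int.isUnit_iff] at h1
  have := hp.two_le
  omega

lemma cz_zero {j : PC} {x : ℤ} {p : ℕ} (hp : p.Prime) (hpj : p ∣ j.1 + 1) (hx : (p : ℤ) ∣ x) : cz j x = 0 := by
  unfold cz; rw [fz_zero hp hpj hx, map_zero]

lemma ea_conj (k : ℕ) (c x : ℤ) : (starRingEnd ℂ) (ea k c x) = ea k (-c) x := by
  have h1 : ea k c x * ea k (-c) x = 1 := by
    rw [ea_mul]; unfold ea; simp [ee_zero]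
  have h2 : ea k c x * (starRingEnd ℂ) (ea k c x) = 1 := by
    rw [Complex.mul_conj', ea_norm]; norm_num
  have h3 : ea k c x ≠ 0 := by
    intro h; rw [h, zero_mul] at h1; exact zero_ne_one h1
  exact mul_left_cancel₀ h3 (h2.trans h1.symm)

/-- Parseval -/
lemma parseval {k : ℕ} (hk : 0 < k) (g : ℤ → ℂ) :
    ∑ c ∈ range k, ‖FC k g c‖ ^ 2 = 1 / k * ∑ x ∈ range k, ‖g x‖ ^ 2 := by
  have hk0 : (k : ℂ) ≠ 0 := by exact_mod_cast hk.ne'
  have h1 : (((∑ c ∈ range k, ‖FC k g c‖ ^ 2 : ℝ)) : ℂ) = ((1 / k * ∑ x ∈ range k, ‖g x‖ ^ 2 : ℝ) : ℂ) := by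
    push_cast
    have e1 : ∀ c ∈ range k, (‖FC k g c‖ : ℂ) ^ 2 = 1 / (k : ℂ) ^ 2 *
        ∑ x ∈ range k, ∑ y ∈ range k, g x * (starRingEnd ℂ) (g y) * ee (((((y : ℤ) - x) * c : ℤ) : ℝ) / k) := by
      intro c _
      rw [← Complex.mul_conj']
      unfold FC mn
      rw [map_mul, map_sum, mul_mul_mul_comm, sum_mul_sum]
      have e2 : (starRingEnd ℂ) (1 / (k : ℂ)) = 1 / (k : ℂ) := by simp
      rw [e2]
      congr 1
      · ring
      apply sum_congr rfl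
      intro x _
      apply sum_congr rfl
      intro y _
      rw [map_mul, ea_conj, neg_neg, mul_mul_mul_comm]
      congr 1
      unfold ea
      rw [← ee_add]
      congr 1
      push_cast
      ring
    rw [sum_congr rfl e1, ← mul_sum, sum_comm]
    have e3 : ∀ x ∈ range k, ∑ c ∈ range k, ∑ y ∈ range k, g x * (starRingEnd ℂ) (g y) *
        ee (((((y : ℤ) - x) * c : ℤ) : ℝ) / k) = k * (‖g x‖ : ℂ) ^ 2 := by
      intro x hx
      rw [sum_comm]
      simp only [← mul_sum]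
      rw [sum_eq_single x]
      · rw [ortho hk, sub_self, if_pos (dvd_zero _), Complex.mul_conj']
        ring
      · intro y hy hne
        rw [ortho hk, if_neg, mul_zero]
        intro hc
        rw [mem_range] at hx hy
        apply hne
        have h5 := Int.eq_zero_of_abs_lt_dvd hc (by rw [abs_lt]; constructor <;> omega)
        omega
      · intro h; exact absurd hx h
    rw [sum_congr rfl e3, ← mul_sum]
    field_simp
  exact_mod_cast h1

lemma gs_eq (j : PC) (c : ℤ) : ∑ x ∈ range (j.1 + 1), fz j x * ea (j.1 + 1) c x =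
    gaussSum j.2 ((ZMod.stdAddChar : AddChar (ZMod (j.1 + 1)) ℂ).mulShift (c : ZMod (j.1 + 1))) := by
  rw [sum_zmod (fun x => fz j x * ea (j.1 + 1) c x)]
  unfold gaussSum
  apply sum_congr rfl
  intro z _
  rw [AddChar.mulShift_apply]
  unfold fz ea
  rw [Int.cast_natCast, ZMod.natCast_zmod_val]
  congr 1
  have h1 : (c : ZMod (j.1 + 1)) * z = (((z.val : ℤ) * c : ℤ) : ZMod (j.1 + 1)) := by
    push_cast
    rw [ZMod.natCast_zmod_val]; ring
  rw [h1, ZMod.stdAddChar_coe]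
  unfold ee
  congr 1
  push_cast
  ring

/-- the properties of the Fourier coefficients -/
structure EP (k : ℕ) (B : ℝ) (G : ℤ → ℂ) : Prop where
  pos : 0 < k
  nn : 0 ≤ B
  per : Per k G
  zero : ∀ c : ℤ, ¬ IsCoprime c (k : ℤ) → FC k G c = 0
  bd : ∀ c : ℤ, ‖FC k G c‖ ≤ B

lemma conj_mn (k : ℕ) (g : ℤ → ℂ) : mn k (fun x => (starRingEnd ℂ) (g x)) = (starRingEnd ℂ) (mn k g) := by
  unfold mn
  rw [map_mul, map_sum]
  simp

lemma FC_cz (j : PC) (c : ℤ) : FC (j.1 + 1) (cz j) c = (starRingEnd ℂ) (1 / ((j.1 + 1 : ℕ) : ℂ) *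
    gaussSum j.2 ((ZMod.stdAddChar : AddChar (ZMod (j.1 + 1)) ℂ).mulShift (c : ZMod (j.1 + 1)))) := by
  rw [← gs_eq]
  have h1 : FC (j.1 + 1) (cz j) c = mn (j.1 + 1) (fun x => (starRingEnd ℂ) (fz j x * ea (j.1 + 1) c x)) := by
    unfold FC
    congr 1
    ext x
    rw [map_mul, ea_conj]
    rfl
  rw [h1, conj_mn]
  rfl

lemma EP_prim {j : PC} (hj : j.2.IsPrimitive) : EP (j.1 + 1) (1 / √((j.1 + 1 : ℕ) : ℝ)) (cz j) := by
  obtain ⟨r, hr⟩ : ∃ r : ℕ, r = j.1 + 1 := ⟨_, rfl⟩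
  have hr0 : (0 : ℝ) < ((j.1 + 1 : ℕ) : ℝ) := by positivity
  obtain ⟨τ, hτ⟩ : ∃ τ : ℂ, τ = gaussSum j.2 (ZMod.stdAddChar : AddChar (ZMod (j.1 + 1)) ℂ) := ⟨_, rfl⟩
  have h1 : ∀ c : ℤ, ‖FC (j.1 + 1) (cz j) c‖ = 1 / ((j.1 + 1 : ℕ) : ℝ) * (‖j.2⁻¹ (c : ZMod (j.1 + 1))‖ * ‖τ‖) := by
    intro c
    rw [FC_cz, RCLike.norm_conj, gaussSum_mulShift_of_isPrimitive _ hj, ← hτ, norm_mul, norm_mul, norm_div,
      norm_one, Complex.norm_natCast]
  have hz : ∀ c : ℤ, ¬ IsCoprime c ((j.1 + 1 : ℕ) : ℤ) → j.2⁻¹ (c : ZMod (j.1 + 1)) = 0 := by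
    intro c hc
    apply MulChar.map_nonunit
    rw [ZMod.coe_int_isUnit_iff_isCoprime]
    exact fun h => hc h.symm
  have hnz : ∀ c : ℤ, ‖j.2⁻¹ (c : ZMod (j.1 + 1))‖ = ‖fz j c‖ := by
    intro c
    rw [← MulChar.star_eq_inv]
    change ‖star (j.2 (c : ZMod (j.1 + 1)))‖ = _
    rw [norm_star]
    rfl
  have hpv := parseval (k := j.1 + 1) (Nat.succ_pos _) (cz j)
  simp only [h1, cz_norm, hnz] at hpv
  have h2 : ∑ c ∈ range (j.1 + 1), (1 / ((j.1 + 1 : ℕ) : ℝ) * (‖fz j c‖ * ‖τ‖)) ^ 2 =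
      (1 / ((j.1 + 1 : ℕ) : ℝ) * ∑ c ∈ range (j.1 + 1), ‖fz j c‖ ^ 2) * (1 / ((j.1 + 1 : ℕ) : ℝ) * ‖τ‖ ^ 2) := by
    rw [mul_sum, sum_mul]
    apply sum_congr rfl
    intro c _
    ring
  rw [h2] at hpv
  have h3 : 0 < 1 / ((j.1 + 1 : ℕ) : ℝ) * ∑ c ∈ range (j.1 + 1), ‖fz j c‖ ^ 2 := by
    apply mul_pos (by positivity)
    apply sum_pos'
    · intro c _; positivity
    · rcases Nat.eq_zero_or_pos j.1 with h0 | h0
      · refine ⟨0, mem_range.2 (Nat.succ_pos _), ?_⟩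
        have : fz j ((0 : ℕ) : ℤ) ≠ 0 := by
          rw [fz_ne_zero_iff, h0]
          simpa using (isCoprime_one_right : IsCoprime (0 : ℤ) 1)
        positivity
      · refine ⟨1, mem_range.2 (by omega), ?_⟩
        have : fz j ((1 : ℕ) : ℤ) ≠ 0 := by
          rw [fz_ne_zero_iff]
          exact_mod_cast (isCoprime_one_left : IsCoprime (1 : ℤ) ((j.1 + 1 : ℕ) : ℤ))
        positivity
  have h4 : 1 / ((j.1 + 1 : ℕ) : ℝ) * ‖τ‖ ^ 2 = 1 := by
    have := mul_left_cancel₀ h3.ne' (hpv.trans (mul_one _).symm)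
    exact this
  have h5 : ‖τ‖ = √((j.1 + 1 : ℕ) : ℝ) := by
    symm
    rw [Real.sqrt_eq_iff_mul_self_eq hr0.le (norm_nonneg _)]
    rw [one_div, inv_mul_eq_div, div_eq_one_iff_eq hr0.ne'] at h4
    rw [← h4]; ring
  refine ⟨Nat.succ_pos _, by positivity, cz_per j, ?_, ?_⟩
  · intro c hc
    rw [← norm_eq_zero, h1, hz c hc]
    simp
  · intro c
    rw [h1, hnz, h5]
    have h6 := fz_norm_le j c
    calc 1 / ((j.1 + 1 : ℕ) : ℝ) * (‖fz j c‖ * √((j.1 + 1 : ℕ) : ℝ)) ≤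
        1 / ((j.1 + 1 : ℕ) : ℝ) * (1 * √((j.1 + 1 : ℕ) : ℝ)) := by gcongr
      _ = 1 / √((j.1 + 1 : ℕ) : ℝ) := by
          rw [one_mul, one_div, inv_mul_eq_div]
          exact Real.sqrt_div_self'

lemma ea_split {k l : ℕ} (hk : 0 < k) (hl : 0 < l) {s t : ℤ} (h : s * k + t * l = 1) (c x : ℤ) :
    ea (k * l) c x = ea k (c * t) x * ea l (c * s) x := by
  unfold ea
  rw [← ee_add]
  congr 1
  have hk0 : (k : ℝ) ≠ 0 := by exact_mod_cast hk.ne'
  have hl0 : (l : ℝ) ≠ 0 := by exact_mod_cast hl.ne'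
  have h' : (s : ℝ) * k + t * l = 1 := by exact_mod_cast h
  push_cast
  field_simp
  have : (x : ℝ) * c = x * c * (s * k + t * l) := by rw [h', mul_one]
  linear_combination this

lemma EP_mul {k l : ℕ} {B B' : ℝ} {G G' : ℤ → ℂ} (hco : Nat.Coprime k l) (h : EP k B G) (h' : EP l B' G') :
    EP (k * l) (B * B') (fun x => G x * G' x) := by
  have hc : IsCoprime (k : ℤ) (l : ℤ) := Nat.isCoprime_iff_coprime.2 hco
  obtain ⟨s, t, hst⟩ := hc
  have hFC : ∀ c : ℤ, FC (k * l) (fun x => G x * G' x) c = FC k G (c * t) * FC l G' (c * s) := by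
    intro c
    unfold FC
    rw [← mn_crt hco (h.per.mul (ea_per h.pos _)) (h'.per.mul (ea_per h'.pos _))]
    congr 1
    ext x
    rw [ea_split h.pos h'.pos hst]
    rw [neg_mul, neg_mul]
    ring
  refine ⟨Nat.mul_pos h.pos h'.pos, mul_nonneg h.nn h'.nn,
    (h.per.mono (dvd_mul_right _ _)).mul (h'.per.mono (dvd_mul_left _ _)), ?_, ?_⟩
  · intro c hcc
    rw [hFC]
    push_cast at hcc
    rw [IsCoprime.mul_right_iff, not_and_or] at hcc
    rcases hcc with h1 | h1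
    · rw [h.zero _ (fun hx => h1 hx.of_mul_left_left), zero_mul]
    · rw [h'.zero _ (fun hx => h1 hx.of_mul_left_left), mul_zero]
  · intro c
    rw [hFC, norm_mul]
    exact mul_le_mul (h.bd _) (h'.bd _) (norm_nonneg _) h.nn

lemma EP_smul {k : ℕ} {B : ℝ} {G : ℤ → ℂ} (h : EP k B G) (a : ℂ) : EP k (‖a‖ * B) (fun x => a * G x) := by
  have hFC : ∀ c : ℤ, FC k (fun x => a * G x) c = a * FC k G c := by
    intro c
    unfold FC
    rw [← mn_const_mul]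
    congr 1
    ext x
    ring
  refine ⟨h.pos, mul_nonneg (norm_nonneg _) h.nn, fun x y hxy => by rw [h.per x y hxy], ?_, ?_⟩
  · intro c hc
    rw [hFC, h.zero c hc, mul_zero]
  · intro c
    rw [hFC, norm_mul]
    exact mul_le_mul_of_nonneg_left (h.bd c) (norm_nonneg _)

lemma FC_low {k k' : ℕ} {B : ℝ} {G : ℤ → ℂ} (h : EP k' B G) (hk : 0 < k) (hne : k' ≠ k) (hkk : k' ∣ k) {b : ℤ}
    (hb : IsCoprime b (k : ℤ)) : FC k G b = 0 := by
  unfold FC
  have hper : Per k (fun x => G x * ea k (-b) x) := (h.per.mono hkk).mul (ea_per hk _)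
  have h1 := mn_shift hper (k' : ℤ)
  have h2 : mn k (fun x => (fun x => G x * ea k (-b) x) (x + k')) =
      ee (((k' : ℤ) * -b : ℤ) / (k : ℝ)) * mn k (fun x => G x * ea k (-b) x) := by
    rw [← mn_const_mul]
    congr 1
    ext x
    simp only
    rw [h.per (x + k') x ⟨1, by ring⟩]
    have e1 : ea k (-b) (x + k') = ee (((k' : ℤ) * -b : ℤ) / (k : ℝ)) * ea k (-b) x := by
      unfold ea
      rw [← ee_add]
      congr 1
      push_cast
      ring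
    rw [e1]
    ring
  rw [h1] at h2
  have h3 : ¬ (k : ℤ) ∣ (k' : ℤ) * -b := by
    intro hc
    rw [mul_neg, dvd_neg] at hc
    have h4 : (k : ℤ) ∣ k' := hb.symm.dvd_of_dvd_mul_right hc
    exact hne (Nat.dvd_antisymm hkk (Int.natCast_dvd_natCast.1 h4))
  have h4 := dd_rat hk h3
  have h5 : (1 - ee (((k' : ℤ) * -b : ℤ) / (k : ℝ))) * mn k (fun x => G x * ea k (-b) x) = 0 := by
    rw [sub_mul, one_mul, sub_eq_zero]
    exact h2
  rcases mul_eq_zero.1 h5 with h6 | h6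
  · exfalso
    unfold dd at h4
    rw [h6, norm_zero] at h4
    have : (0 : ℝ) < 4 / (k : ℝ) := by
      have : (0 : ℝ) < k := by exact_mod_cast hk
      positivity
    linarith
  · exact h6

end Pool.Agent.Helper86.PS
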