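import Pool.Agent.Helper86.PS.F4

set_option autoImplicit false

/-!
# The local factors and the near terms
-/

open Finset

namespace Pool.Agent.Helper86.PS

open Pool.Agent.H807R2.Dav

/-- the local factor at `p` -/
noncomputable def up (p : ℕ) (x : ℤ) : ℝ := if (p : ℤ) ∣ x then -1 else 1 / ((p : ℝ) - 1)

lemma up_per' {p : ℕ} {x y : ℤ} (h : (p : ℤ) ∣ x - y) : up p x = up p y := by
  unfold up
  have h1 : (p : ℤ) ∣ x ↔ (p : ℤ) ∣ y := by
    constructor
    · intro hx
      have := dvd_sub hx h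
      simpa using this
    · intro hy
      have := dvd_add h hy
      simpa using this
  simp only [h1]

lemma up_per (p : ℕ) : Per p (fun x => (up p x : ℂ)) := fun x y h => by
  simp only
  rw [up_per' h]

lemma prime_sub {p : ℕ} (hp : p.Prime) : (1 : ℝ) ≤ (p : ℝ) - 1 := by
  have : (2 : ℝ) ≤ p := by exact_mod_cast hp.two_le
  linarith

lemma up_abs {p : ℕ} (hp : p.Prime) (x : ℤ) : |up p x| ≤ 1 := by
  unfold up
  have h := prime_sub hp
  split_ifs
  · simp
  · rw [abs_of_nonneg (by positivity), div_le_one (by linarith)]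
    exact h

lemma one_add_up {p : ℕ} (hp : p.Prime) (x : ℤ) : 1 + up p x = if (p : ℤ) ∣ x then 0 else (p : ℝ) / (p - 1) := by
  unfold up
  have h := prime_sub hp
  split_ifs
  · ring
  · field_simp; ring

lemma one_add_up_nonneg {p : ℕ} (hp : p.Prime) (x : ℤ) : 0 ≤ 1 + up p x := by
  rw [one_add_up hp]
  have h := prime_sub hp
  split_ifs
  · exact le_rfl
  · positivity

lemma mn_ind {p : ℕ} (hp : 0 < p) (h : ℤ → ℂ) : mn p (fun x => (if (p : ℤ) ∣ x then 1 else 0) * h x) = 1 / p * h 0 := by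
  unfold mn
  congr 1
  rw [sum_eq_single 0]
  · simp
  · intro x hx hne
    simp only
    rw [if_neg, zero_mul]
    intro hc
    rw [mem_range] at hx
    have := Nat.le_of_dvd (Nat.pos_of_ne_zero hne) (Int.natCast_dvd_natCast.1 hc)
    omega
  · intro h0
    exact absurd (mem_range.2 hp) h0

lemma FC_up {p : ℕ} (hp : p.Prime) (c : ℤ) : FC p (fun x => (up p x : ℂ)) c =
    if (p : ℤ) ∣ c then 0 else -(1 / ((p : ℂ) - 1)) := by
  have hp0 : (p : ℂ) ≠ 0 := by exact_mod_cast hp.pos.ne'
  have hp1 : (p : ℂ) - 1 ≠ 0 := by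
    rw [sub_ne_zero]; exact_mod_cast hp.one_lt.ne'
  have h1 : FC p (fun x => (up p x : ℂ)) c = mn p (fun x => 1 / ((p : ℂ) - 1) * ea p (-c) x) -
      mn p (fun x => (if (p : ℤ) ∣ x then 1 else 0) * ((p : ℂ) / (p - 1) * ea p (-c) x)) := by
    unfold FC mn
    rw [← mul_sub, ← sum_sub_distrib]
    congr 1
    apply sum_congr rfl
    intro x _
    simp only
    unfold up
    split_ifs
    · push_cast; field_simp; ring
    · push_cast; ring
  rw [h1, mn_ind hp.pos, mn_const_mul, ortho' hp.pos]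
  have h2 : ea p (-c) 0 = 1 := by unfold ea; simp [ee_zero]
  rw [h2]
  by_cases hc : (p : ℤ) ∣ c
  · rw [if_pos hc, if_pos ((dvd_neg).2 hc)]
    field_simp
    try ring
  · rw [if_neg hc, if_neg (fun h => hc ((dvd_neg).1 h))]
    field_simp
    try ring

lemma EP_up {p : ℕ} (hp : p.Prime) : EP p (1 / ((p : ℝ) - 1)) (fun x => (up p x : ℂ)) := by
  have h := prime_sub hp
  refine ⟨hp.pos, by positivity, up_per p, ?_, ?_⟩
  · intro c hc
    rw [FC_up hp, if_pos]
    by_contra h1
    apply hc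
    rcases (Nat.prime_iff_prime_int.1 hp).coprime_iff_not_dvd with h2
    exact (h2.2 h1).symm
  · intro c
    rw [FC_up hp]
    split_ifs
    · rw [norm_zero]; positivity
    · rw [norm_neg, norm_div, norm_one]
      have : (p : ℂ) - 1 = (((p : ℝ) - 1 : ℝ) : ℂ) := by push_cast; ring
      rw [this, Complex.norm_real, Real.norm_eq_abs, abs_of_nonneg (by linarith)]

/-- the modulus attached to the character and a set of primes -/
def kk (j : PC) (S : Finset ℕ) : ℕ := (j.1 + 1) * ∏ p ∈ S.filter (fun p => ¬ p ∣ j.1 + 1), p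

/-- the twisted product -/
noncomputable def GG (j : PC) (S : Finset ℕ) (x : ℤ) : ℂ := (∏ p ∈ S, (up p x : ℂ)) * cz j x

/-- the bound of the coefficients -/
noncomputable def Bk (j : PC) (S : Finset ℕ) : ℝ := 1 / √((j.1 + 1 : ℕ) : ℝ) * ∏ p ∈ S, 1 / ((p : ℝ) - 1)

lemma GG_EP {j : PC} (hj : j.2.IsPrimitive) {S : Finset ℕ} (hS : ∀ p ∈ S, p.Prime) : EP (kk j S) (Bk j S) (GG j S) := by
  induction S using Finset.induction_on with
  | empty =>
    have h1 : GG j ∅ = cz j := by ext x; unfold GG; simp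
    have h2 : kk j ∅ = j.1 + 1 := by unfold kk; simp
    have h3 : Bk j ∅ = 1 / √((j.1 + 1 : ℕ) : ℝ) := by unfold Bk; simp
    rw [h1, h2, h3]
    exact EP_prim hj
  | insert p S hpS ih =>
    have hp : p.Prime := hS p (mem_insert_self p S)
    have ih' := ih fun q hq => hS q (mem_insert_of_mem hq)
    have hsub := prime_sub hp
    have hB : Bk j (insert p S) = 1 / ((p : ℝ) - 1) * Bk j S := by
      unfold Bk; rw [prod_insert hpS]; ring
    by_cases hpj : p ∣ j.1 + 1
    · have h1 : kk j (insert p S) = kk j S := by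
        unfold kk
        rw [filter_insert, if_neg (by simpa using hpj)]
      have h2 : GG j (insert p S) = fun x => ((1 / ((p : ℝ) - 1) : ℝ) : ℂ) * GG j S x := by
        ext x
        unfold GG
        rw [prod_insert hpS]
        by_cases hx : (p : ℤ) ∣ x
        · rw [cz_zero hp hpj hx]; simp
        · have : up p x = 1 / ((p : ℝ) - 1) := by unfold up; rw [if_neg hx]
          rw [this]; ring
      have h3 := EP_smul ih' ((1 / ((p : ℝ) - 1) : ℝ) : ℂ)
      rw [h1, h2, hB]
      have h4 : ‖((1 / ((p : ℝ) - 1) : ℝ) : ℂ)‖ = 1 / ((p : ℝ) - 1) := by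
        rw [Complex.norm_real, Real.norm_eq_abs, abs_of_nonneg (by positivity)]
      rwa [h4] at h3
    · have h1 : kk j (insert p S) = p * kk j S := by
        unfold kk
        rw [filter_insert, if_pos hpj, prod_insert]
        · ring
        · intro hc; exact hpS (mem_filter.1 hc).1
      have h2 : GG j (insert p S) = fun x => (up p x : ℂ) * GG j S x := by
        ext x
        unfold GG
        rw [prod_insert hpS]
        ring
      have hco : Nat.Coprime p (kk j S) := by
        unfold kk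
        apply Nat.Coprime.mul_right
        · exact (Nat.Prime.coprime_iff_not_dvd hp).2 hpj
        · apply Nat.Coprime.prod_right
          intro q hq
          rw [mem_filter] at hq
          apply (Nat.coprime_primes hp (hS q (mem_insert_of_mem hq.1))).2
          rintro rfl
          exact hpS hq.1
      have h3 := EP_mul hco (EP_up hp) ih'
      rw [h1, h2, hB]
      exact h3

lemma kk_pos (j : PC) {S : Finset ℕ} (hS : ∀ p ∈ S, p.Prime) : 0 < kk j S := by
  unfold kk
  apply Nat.mul_pos (Nat.succ_pos _)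
  apply Finset.prod_pos
  intro p hp
  exact (hS p (mem_filter.1 hp).1).pos

/-- the product over the primes of `k` -/
lemma full_prod {j : PC} {k : ℕ} (x : ℤ) :
    ∑ S ∈ k.primeFactors.powerset, GG j S x = (∏ p ∈ k.primeFactors, (1 + (up p x : ℂ))) * cz j x := by
  unfold GG
  rw [← sum_mul, prod_one_add]

lemma full_val {k : ℕ} (hk : 0 < k) (x : ℤ) : ∏ p ∈ k.primeFactors, (1 + (up p x : ℂ)) =
    if IsCoprime x (k : ℤ) then (k : ℂ) / k.totient else 0 := by
  have h1 : ∀ p ∈ k.primeFactors, (1 + (up p x : ℂ)) = ((if (p : ℤ) ∣ x then 0 else (p : ℝ) / (p - 1) : ℝ) : ℂ) := by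
    intro p hp
    rw [← one_add_up (Nat.prime_of_mem_primeFactors hp)]
    push_cast; rfl
  rw [prod_congr rfl h1]
  split_ifs with hc
  · have h2 : ∀ p ∈ k.primeFactors, ((if (p : ℤ) ∣ x then 0 else (p : ℝ) / (p - 1) : ℝ) : ℂ) =
        ((((1 : ℝ) - (p : ℝ)⁻¹)⁻¹ : ℝ) : ℂ) := by
      intro p hp
      have hpp := Nat.prime_of_mem_primeFactors hp
      have hpk := Nat.dvd_of_mem_primeFactors hp
      have h0 := prime_sub hpp
      rw [if_neg]
      · congr 1
        have hp0 : (p : ℝ) ≠ 0 := by exact_mod_cast hpp.pos.ne'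
        have hp1 : (p : ℝ) - 1 ≠ 0 := by linarith
        field_simp
      · intro hx
        have h3 : IsUnit (p : ℤ) := hc.isUnit_of_dvd' hx (Int.natCast_dvd_natCast.2 hpk)
        rw [Int.isUnit_iff] at h3
        have := hpp.two_le
        omega
    rw [prod_congr rfl h2, ← Complex.ofReal_prod]
    have h3 := Nat.totient_eq_mul_prod_factors k
    have h4 : (k.totient : ℝ) = k * ∏ p ∈ k.primeFactors, ((1 : ℝ) - (p : ℝ)⁻¹) := by
      have : ((k.totient : ℚ) : ℝ) = ((k * ∏ p ∈ k.primeFactors, (1 - (p : ℚ)⁻¹) : ℚ) : ℝ) := by rw [h3]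
      push_cast at this
      exact this
    have h5 : (0 : ℝ) < k.totient := by exact_mod_cast Nat.totient_pos.2 hk
    have h6 : ∏ p ∈ k.primeFactors, ((1 : ℝ) - (p : ℝ)⁻¹)⁻¹ = (k : ℝ) / k.totient := by
      rw [prod_inv_distrib, h4]
      have hk0 : (k : ℝ) ≠ 0 := by exact_mod_cast hk.ne'
      have h7 : ∏ p ∈ k.primeFactors, ((1 : ℝ) - (p : ℝ)⁻¹) ≠ 0 := by
        intro h0; rw [h4, h0, mul_zero] at h5; exact lt_irrefl _ h5
      field_simp
    rw [h6]
    push_cast; rfl
  · have h8 : ∃ p ∈ k.primeFactors, (p : ℤ) ∣ x := by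
      by_contra hcon
      push Not at hcon
      apply hc
      rw [Int.isCoprime_iff_gcd_eq_one]
      by_contra h9
      obtain ⟨p, hp, hpd⟩ := Nat.exists_prime_and_dvd h9
      have h10 : (p : ℤ) ∣ x := (Int.natCast_dvd_natCast.2 hpd).trans (Int.gcd_dvd_left _ _)
      have h11 : (p : ℤ) ∣ k := (Int.natCast_dvd_natCast.2 hpd).trans (Int.gcd_dvd_right _ _)
      exact hcon p (Nat.mem_primeFactors.2 ⟨hp, Int.natCast_dvd_natCast.1 h11, hk.ne'⟩) h10
    obtain ⟨p, hp, hpx⟩ := h8
    apply prod_eq_zero hp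
    rw [if_pos hpx]
    simp

/-- orthogonality over the primitive characters of conductor dividing `k` -/
lemma char_orth {Q k : ℕ} (hk : 0 < k) (hkQ : k ≤ Q) {x y : ℤ} (hx : IsCoprime x (k : ℤ)) (hy : IsCoprime y (k : ℤ)) :
    ∑ j ∈ (fam Q).filter (fun j => j.1 + 1 ∣ k), cz j y * fz j x = if (k : ℤ) ∣ x - y then (k.totient : ℂ) else 0 := by
  have : NeZero k := ⟨hk.ne'⟩
  have h1 : ∑ j ∈ (fam Q).filter (fun j => j.1 + 1 ∣ k), cz j y * fz j x =
      ∑ χ : DirichletCharacter ℂ k, (starRingEnd ℂ) (χ (y : ZMod k)) * χ (x : ZMod k) := by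
    apply sum_bij (fun j (hj : j ∈ (fam Q).filter (fun j => j.1 + 1 ∣ k)) =>
      DirichletCharacter.changeLevel (mem_filter.1 hj).2 j.2)
    · intro j _; exact mem_univ _
    · intro j hj l hl hjl
      have hj' := mem_fam.1 (mem_filter.1 hj).1
      have hl' := mem_fam.1 (mem_filter.1 hl).1
      have h2 : (DirichletCharacter.changeLevel (mem_filter.1 hj).2 j.2).conductor = j.1 + 1 := by
        rw [DirichletCharacter.conductor_changeLevel]; exact hj'.2
      have h3 : (DirichletCharacter.changeLevel (mem_filter.1 hl).2 l.2).conductor = l.1 + 1 := by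
        rw [DirichletCharacter.conductor_changeLevel]; exact hl'.2
      have h4 : j.1 = l.1 := by
        have : j.1 + 1 = l.1 + 1 := by rw [← h2, ← h3, hjl]
        omega
      obtain ⟨j1, j2⟩ := j
      obtain ⟨l1, l2⟩ := l
      simp only at h4
      subst h4
      have h5 : j2 = l2 := DirichletCharacter.changeLevel_injective (R := ℂ) (mem_filter.1 hj).2 hjl
      rw [h5]
    · intro χ _
      have hc0 : χ.conductor ≠ 0 := DirichletCharacter.conductor_ne_zero χ
      obtain ⟨r, hr⟩ : ∃ r, χ.conductor = r + 1 := ⟨χ.conductor - 1, by omega⟩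
      have key : ∀ (c : ℕ) (hc : c = r + 1) (ψ : DirichletCharacter ℂ c) (hψ : ψ.IsPrimitive) (hck : c ∣ k),
          ∃ a, ∃ (ha : a ∈ (fam Q).filter (fun j => j.1 + 1 ∣ k)),
            DirichletCharacter.changeLevel (mem_filter.1 ha).2 a.2 = DirichletCharacter.changeLevel hck ψ := by
        intro c hc ψ hψ hck
        subst hc
        refine ⟨⟨r, ψ⟩, ?_, rfl⟩
        rw [mem_filter, mem_fam]
        refine ⟨⟨?_, hψ⟩, hck⟩
        exact (Nat.le_of_dvd hk hck).trans hkQ
      obtain ⟨a, ha, hh⟩ := key χ.conductor hr χ.primitiveCharacter χ.primitiveCharacter_isPrimitive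
        χ.conductor_dvd_level
      exact ⟨a, ha, hh.trans χ.changeLevel_primitiveCharacter⟩
    · intro j hj
      rw [DirichletCharacter.changeLevel_eq_cast_of_dvd' j.2 (mem_filter.1 hj).2 hx,
        DirichletCharacter.changeLevel_eq_cast_of_dvd' j.2 (mem_filter.1 hj).2 hy]
      rfl
  rw [h1]
  have hyu : IsUnit (y : ZMod k) := (ZMod.coe_int_isUnit_iff_isCoprime y k).2 hy.symm
  have h2 := DirichletCharacter.sum_char_inv_mul_char_eq ℂ hyu (x : ZMod k)
  have h3 : ∀ χ : DirichletCharacter ℂ k, (starRingEnd ℂ) (χ (y : ZMod k)) = χ (y : ZMod k)⁻¹ := by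
    intro χ
    have e1 : (starRingEnd ℂ) (χ (y : ZMod k)) = (star χ) (y : ZMod k) := rfl
    rw [e1, MulChar.star_eq_inv, MulChar.inv_apply]
    congr 1
    obtain ⟨u, hu⟩ := hyu
    rw [← hu, Ring.inverse_unit, ZMod.inv_coe_unit]
  simp only [h3]
  rw [h2]
  have h4 : ((y : ZMod k) = (x : ZMod k)) ↔ (k : ℤ) ∣ x - y := ZMod.intCast_eq_intCast_iff_dvd_sub y x k
  simp only [h4]

end Pool.Agent.Helper86.PS
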