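import Pool.Agent.Helper86.PS.F5

set_option autoImplicit false

/-!
# The truncated products, near identity and coefficient bounds
-/

open Finset

namespace Pool.Agent.Helper86.PS

open Pool.Agent.H807R2.Dav

/-- the primes up to `R` -/
def PR (R : ℕ) : Finset ℕ := (range (R + 1)).filter Nat.Prime

/-- the sets of primes with product at most `R` -/
def SS (R : ℕ) : Finset (Finset ℕ) := (PR R).powerset.filter (fun S => ∏ p ∈ S, p ≤ R)

lemma mem_PR {R p : ℕ} : p ∈ PR R ↔ p ≤ R ∧ p.Prime := by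
  unfold PR; rw [mem_filter, mem_range, Nat.lt_succ_iff]

lemma SS_prime {R : ℕ} {S : Finset ℕ} (hS : S ∈ SS R) : ∀ p ∈ S, p.Prime := by
  intro p hp
  unfold SS at hS
  rw [mem_filter, mem_powerset] at hS
  exact (mem_PR.1 (hS.1 hp)).2

lemma SS_prod {R : ℕ} {S : Finset ℕ} (hS : S ∈ SS R) : ∏ p ∈ S, p ≤ R := by
  unfold SS at hS
  exact (mem_filter.1 hS).2

lemma mem_SS {R : ℕ} {S : Finset ℕ} (h1 : ∀ p ∈ S, p.Prime) (h2 : ∏ p ∈ S, p ≤ R) : S ∈ SS R := by
  unfold SS
  rw [mem_filter, mem_powerset]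
  refine ⟨fun p hp => mem_PR.2 ⟨?_, h1 p hp⟩, h2⟩
  refine le_trans (Nat.le_of_dvd (Finset.prod_pos fun q hq => (h1 q hq).pos) (dvd_prod_of_mem _ hp)) h2

lemma prod_inj {S T : Finset ℕ} (hS : ∀ p ∈ S, p.Prime) (hT : ∀ p ∈ T, p.Prime) (h : ∏ p ∈ S, p = ∏ p ∈ T, p) :
    S = T := by
  rw [← Nat.primeFactors_prod hS, ← Nat.primeFactors_prod hT, h]

lemma card_SS (R : ℕ) : (SS R).card ≤ R := by
  have h1 : (SS R).card ≤ (Icc 1 R).card := by
    apply card_le_card_of_injOn (fun S => ∏ p ∈ S, p)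
    · intro S hS
      rw [mem_coe] at hS
      rw [coe_Icc, Set.mem_Icc]
      exact ⟨Nat.one_le_iff_ne_zero.2 (Finset.prod_pos fun q hq => (SS_prime hS q hq).pos).ne', SS_prod hS⟩
    · intro S hS T hT h
      rw [mem_coe] at hS hT
      exact prod_inj (SS_prime hS) (SS_prime hT) h
  simpa using h1

lemma kk_dvd_j (j : PC) (S : Finset ℕ) : j.1 + 1 ∣ kk j S := dvd_mul_right _ _

lemma kk_le {Q R : ℕ} {j : PC} (hj : j ∈ fam Q) {S : Finset ℕ} (hS : S ∈ SS R) : kk j S ≤ Q * R := by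
  unfold kk
  apply Nat.mul_le_mul (mem_fam.1 hj).1
  refine le_trans ?_ (SS_prod hS)
  apply Finset.prod_le_prod_of_subset_of_one_le' (filter_subset _ _)
  intro p hp _
  exact (SS_prime hS p hp).pos

/-- the coefficient at a fraction with denominator `k` -/
lemma near_coeff {Q R k : ℕ} (hkQ : k ≤ Q) (hk : 0 < k) (hQR : Q ≤ R) {j : PC} (hj : j ∈ fam Q) (hjk : j.1 + 1 ∣ k)
    {b : ℤ} (hb : IsCoprime b (k : ℤ)) :
    ∑ S ∈ (SS R).filter (fun S => kk j S = k), FC k (GG j S) b =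
      mn k (fun y => (if IsCoprime y (k : ℤ) then (k : ℂ) / k.totient else 0) * cz j y * ea k (-b) y) := by
  have hprim := (mem_fam.1 hj).2
  have h1 : (SS R).filter (fun S => kk j S = k) = k.primeFactors.powerset.filter (fun S => kk j S = k) := by
    ext S
    rw [mem_filter, mem_filter, mem_powerset]
    constructor
    · rintro ⟨hS, hkS⟩
      refine ⟨?_, hkS⟩
      intro p hp
      rw [Nat.mem_primeFactors]
      refine ⟨SS_prime hS p hp, ?_, hk.ne'⟩
      by_cases hpj : p ∣ j.1 + 1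
      · exact hpj.trans hjk
      · rw [← hkS]
        unfold kk
        exact Dvd.dvd.mul_left (dvd_prod_of_mem _ (mem_filter.2 ⟨hp, hpj⟩)) _
    · rintro ⟨hS, hkS⟩
      have hSp : ∀ p ∈ S, p.Prime := fun p hp => Nat.prime_of_mem_primeFactors (hS hp)
      refine ⟨mem_SS hSp ?_, hkS⟩
      have h2 : ∏ p ∈ S, p ∣ k := by
        refine dvd_trans (Finset.prod_dvd_prod_of_subset _ _ _ hS) (Nat.prod_primeFactors_dvd k)
      exact (Nat.le_of_dvd hk h2).trans (hkQ.trans hQR)
  have h2 : ∑ S ∈ k.primeFactors.powerset.filter (fun S => kk j S = k), FC k (GG j S) b =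
      ∑ S ∈ k.primeFactors.powerset, FC k (GG j S) b := by
    rw [sum_filter]
    apply sum_congr rfl
    intro S hS
    split_ifs with h3
    · rfl
    · rw [mem_powerset] at hS
      have hSp : ∀ p ∈ S, p.Prime := fun p hp => Nat.prime_of_mem_primeFactors (hS hp)
      symm
      apply FC_low (GG_EP hprim hSp) hk h3 _ hb
      unfold kk
      apply Nat.Coprime.mul_dvd_of_dvd_of_dvd _ hjk
      · refine dvd_trans (Finset.prod_dvd_prod_of_subset _ _ _ ((filter_subset _ _).trans hS)) (Nat.prod_primeFactors_dvd k)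
      · apply Nat.Coprime.prod_right
        intro p hp
        rw [mem_filter] at hp
        exact ((Nat.Prime.coprime_iff_not_dvd (hSp p hp.1)).2 hp.2).symm
  rw [h1, h2]
  unfold FC
  rw [← mn_sum]
  congr 1
  ext y
  rw [← sum_mul, full_prod, full_val hk]

lemma mn_single {k : ℕ} (hk : 0 < k) {h : ℤ → ℂ} (hh : Per k h) (x : ℤ) :
    mn k (fun y => (if (k : ℤ) ∣ x - y then 1 else 0) * h y) = 1 / k * h x := by
  have hper : Per k (fun y => (if (k : ℤ) ∣ x - y then (1 : ℂ) else 0) * h y) := by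
    intro y z hyz
    simp only
    rw [hh y z hyz]
    congr 1
    have : (k : ℤ) ∣ x - y ↔ (k : ℤ) ∣ x - z := by
      have e1 : x - z = (x - y) + (y - z) := by ring
      rw [e1]
      exact (dvd_add_left hyz).symm
    simp only [this]
  rw [← mn_affine hper (a := -1) isCoprime_one_left.neg_left x]
  have h1 : (fun z : ℤ => (if (k : ℤ) ∣ x - (-1 * z + x) then (1 : ℂ) else 0) * h (-1 * z + x)) =
      fun z : ℤ => (if (k : ℤ) ∣ z then 1 else 0) * h (-1 * z + x) := by
    ext z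
    have : x - (-1 * z + x) = z := by ring
    rw [this]
  rw [h1, mn_ind hk]
  simp

/-- **the near identity** -/
lemma near_ident {Q R k : ℕ} (hkQ : k ≤ Q) (hk : 0 < k) (hQR : Q ≤ R) {b x : ℤ} (hb : IsCoprime b (k : ℤ))
    (hx : IsCoprime x (k : ℤ)) :
    ∑ j ∈ fam Q, (∑ S ∈ (SS R).filter (fun S => kk j S = k), FC k (GG j S) b) * fz j x = ea k (-b) x := by
  have h0 : ∀ j ∈ fam Q, (∑ S ∈ (SS R).filter (fun S => kk j S = k), FC k (GG j S) b) * fz j x =
      if j.1 + 1 ∣ k then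
        mn k (fun y => (if IsCoprime y (k : ℤ) then (k : ℂ) / k.totient else 0) * cz j y * ea k (-b) y) * fz j x
      else 0 := by
    intro j hj
    split_ifs with hjk
    · rw [near_coeff hkQ hk hQR hj hjk hb]
    · have : (SS R).filter (fun S => kk j S = k) = ∅ := by
        apply filter_eq_empty_iff.2
        intro S _ hS
        apply hjk
        rw [← hS]
        exact kk_dvd_j j S
      rw [this, sum_empty, zero_mul]
  rw [sum_congr rfl h0, ← sum_filter]
  have h1 : ∀ j ∈ (fam Q).filter (fun j => j.1 + 1 ∣ k),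
      mn k (fun y => (if IsCoprime y (k : ℤ) then (k : ℂ) / k.totient else 0) * cz j y * ea k (-b) y) * fz j x =
      mn k (fun y => ((if IsCoprime y (k : ℤ) then (k : ℂ) / k.totient else 0) * ea k (-b) y) * (cz j y * fz j x)) := by
    intro j _
    rw [mul_comm, ← mn_const_mul]
    congr 1
    ext y
    ring
  rw [sum_congr rfl h1, ← mn_sum]
  have h2 : (fun y : ℤ => ∑ j ∈ (fam Q).filter (fun j => j.1 + 1 ∣ k),
      ((if IsCoprime y (k : ℤ) then (k : ℂ) / k.totient else 0) * ea k (-b) y) * (cz j y * fz j x)) =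
      fun y : ℤ => (if (k : ℤ) ∣ x - y then 1 else 0) * (k * ea k (-b) y) := by
    ext y
    rw [← mul_sum]
    by_cases hy : IsCoprime y (k : ℤ)
    · rw [if_pos hy, char_orth hk hkQ hx hy]
      have hφ : (k.totient : ℂ) ≠ 0 := by exact_mod_cast (Nat.totient_pos.2 hk).ne'
      split_ifs
      · field_simp
      · simp
    · rw [if_neg hy, zero_mul, zero_mul, if_neg, zero_mul]
      intro hc
      apply hy
      obtain ⟨t, ht⟩ := hc
      have : y = x + k * (-t) := by linarith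
      rw [this]
      exact hx.add_mul_left_left (-t)
  rw [h2, mn_single hk]
  · have hk0 : (k : ℂ) ≠ 0 := by exact_mod_cast hk.ne'
    field_simp
  · intro y z hyz
    simp only
    rw [ea_per hk (-b) y z hyz]

lemma prod_ratio_le (T : Finset ℕ) (hT : ∀ p ∈ T, 2 ≤ p) : ∏ p ∈ T, ((p : ℝ) / (p - 1)) ≤ T.card + 1 := by
  induction T using Finset.induction_on_max with
  | empty => simp
  | insert m T hm ih =>
    have hmT : m ∉ T := fun h => lt_irrefl _ (hm m h)
    have ih' := ih fun p hp => hT p (mem_insert_of_mem hp)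
    have hm2 : 2 ≤ m := hT m (mem_insert_self m T)
    rw [prod_insert hmT, card_insert_of_notMem hmT]
    have hcard : T.card + 2 ≤ m := by
      have h1 : T ⊆ Ico 2 m := fun p hp => mem_Ico.2 ⟨hT p (mem_insert_of_mem hp), hm p hp⟩
      have h2 := card_le_card h1
      rw [Nat.card_Ico] at h2
      omega
    have hmr : (2 : ℝ) ≤ m := by exact_mod_cast hm2
    have hc : (T.card : ℝ) + 2 ≤ m := by exact_mod_cast hcard
    have h0 : (0 : ℝ) < (m : ℝ) - 1 := by linarith
    calc (m : ℝ) / (m - 1) * ∏ p ∈ T, ((p : ℝ) / (p - 1)) ≤ (m : ℝ) / (m - 1) * (T.card + 1) :=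
          mul_le_mul_of_nonneg_left ih' (by positivity)
      _ ≤ _ := by
        rw [div_mul_eq_mul_div, div_le_iff₀ h0]
        push_cast
        nlinarith

lemma card_le_log {T : Finset ℕ} (hT : ∀ p ∈ T, 2 ≤ p) {N : ℕ} (h : ∏ p ∈ T, p ≤ N) : T.card ≤ Nat.log 2 N := by
  apply Nat.le_log_of_pow_le (by norm_num)
  refine le_trans ?_ h
  rw [← prod_const]
  exact prod_le_prod' hT

lemma Bk_le_one {j : PC} {S : Finset ℕ} (hS : ∀ p ∈ S, p.Prime) : Bk j S ≤ 1 := by
  unfold Bk
  have h1 : 1 / √((j.1 + 1 : ℕ) : ℝ) ≤ 1 := by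
    rw [div_le_one (by positivity), Real.one_le_sqrt]
    exact_mod_cast Nat.succ_pos _
  have h2 : ∏ p ∈ S, 1 / ((p : ℝ) - 1) ≤ 1 := by
    apply prod_le_one
    · intro p hp
      have := prime_sub (hS p hp)
      positivity
    · intro p hp
      have := prime_sub (hS p hp)
      rw [div_le_one (by linarith)]
      exact this
  have h3 : 0 ≤ ∏ p ∈ S, 1 / ((p : ℝ) - 1) := by
    apply prod_nonneg
    intro p hp
    have := prime_sub (hS p hp)
    positivity
  exact mul_le_one₀ h1 h3 h2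

/-- the bound for the coefficients at fractions with large denominator -/
lemma Csum_bound {Q R k : ℕ} (hQ : 1 ≤ Q) (hQR : Q ≤ R) (hkQ : Q < k) {j : PC} (hj : j ∈ fam Q) :
    ∑ S ∈ (SS R).filter (fun S => kk j S = k), Bk j S ≤ (Nat.log 2 R + 1) ^ 2 / √(Q : ℝ) := by
  obtain ⟨r, hr⟩ : ∃ r : ℕ, r = j.1 + 1 := ⟨_, rfl⟩
  have hr0 : 0 < r := by omega
  have hrQ : r ≤ Q := by rw [hr]; exact (mem_fam.1 hj).1
  have hrr : (0 : ℝ) < r := by exact_mod_cast hr0
  have hkr : (0 : ℝ) < k := by exact_mod_cast (by omega : 0 < k)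
  have hQr : (0 : ℝ) < Q := by exact_mod_cast hQ
  obtain ⟨lg, hlg⟩ : ∃ lg : ℝ, lg = (Nat.log 2 R : ℝ) + 1 := ⟨_, rfl⟩
  have hlg1 : 1 ≤ lg := by rw [hlg]; have : (0 : ℝ) ≤ Nat.log 2 R := Nat.cast_nonneg _; linarith
  have hone : ∀ S ∈ (SS R).filter (fun S => kk j S = k), Bk j S ≤
      √(r : ℝ) / k * lg * ∏ p ∈ S.filter (fun p => p ∣ r), 1 / ((p : ℝ) - 1) := by
    intro S hS
    rw [mem_filter] at hS
    have hSp := SS_prime hS.1
    have h1 : ∏ p ∈ S, 1 / ((p : ℝ) - 1) = (∏ p ∈ S.filter (fun p => p ∣ r), 1 / ((p : ℝ) - 1)) *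
        ∏ p ∈ S.filter (fun p => ¬ p ∣ r), 1 / ((p : ℝ) - 1) := (prod_filter_mul_prod_filter_not S _ _).symm
    have h2 : ∏ p ∈ S.filter (fun p => ¬ p ∣ r), 1 / ((p : ℝ) - 1) ≤ r / k * lg := by
      have h3 : ∏ p ∈ S.filter (fun p => ¬ p ∣ r), ((p : ℝ) / (p - 1)) ≤ lg := by
        refine (prod_ratio_le _ fun p hp => (hSp p (mem_filter.1 hp).1).two_le).trans ?_
        rw [hlg]
        have h4 : (S.filter (fun p => ¬ p ∣ r)).card ≤ Nat.log 2 R := by
          refine (card_le_card (filter_subset _ S)).trans ?_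
          exact card_le_log (fun p hp => (hSp p hp).two_le) (SS_prod hS.1)
        have : ((S.filter (fun p => ¬ p ∣ r)).card : ℝ) ≤ Nat.log 2 R := by exact_mod_cast h4
        linarith
      have h5 : ∏ p ∈ S.filter (fun p => ¬ p ∣ r), ((p : ℝ) / (p - 1)) =
          (∏ p ∈ S.filter (fun p => ¬ p ∣ r), (p : ℝ)) * ∏ p ∈ S.filter (fun p => ¬ p ∣ r), 1 / ((p : ℝ) - 1) := by
        rw [← prod_mul_distrib]
        apply prod_congr rfl
        intro p _
        ring
      have h6 : (r : ℝ) * (∏ p ∈ S.filter (fun p => ¬ p ∣ r), (p : ℝ)) = k := by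
        have h7 := hS.2
        unfold kk at h7
        rw [← hr] at h7
        have : ((r * ∏ p ∈ S.filter (fun p => ¬ p ∣ r), p : ℕ) : ℝ) = k := by exact_mod_cast h7
        push_cast at this
        exact this
      have h8 : ∏ p ∈ S.filter (fun p => ¬ p ∣ r), (p : ℝ) = k / r := by
        rw [eq_div_iff hrr.ne']; linarith
      rw [h5, h8] at h3
      rw [div_mul_eq_mul_div, div_le_iff₀ hrr] at h3
      rw [div_mul_eq_mul_div, le_div_iff₀ hkr]
      linarith
    have h9 : 0 ≤ ∏ p ∈ S.filter (fun p => p ∣ r), 1 / ((p : ℝ) - 1) := by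
      apply prod_nonneg
      intro p hp
      have := prime_sub (hSp p (mem_filter.1 hp).1)
      positivity
    unfold Bk
    rw [← hr, h1]
    calc 1 / √(r : ℝ) * ((∏ p ∈ S.filter (fun p => p ∣ r), 1 / ((p : ℝ) - 1)) *
          ∏ p ∈ S.filter (fun p => ¬ p ∣ r), 1 / ((p : ℝ) - 1)) ≤
        1 / √(r : ℝ) * ((∏ p ∈ S.filter (fun p => p ∣ r), 1 / ((p : ℝ) - 1)) * (r / k * lg)) := by gcongr
      _ = (r / √(r : ℝ)) / k * lg * ∏ p ∈ S.filter (fun p => p ∣ r), 1 / ((p : ℝ) - 1) := by ring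
      _ = _ := by rw [Real.div_sqrt]
  refine (sum_le_sum hone).trans ?_
  rw [← mul_sum]
  have hinj : ∑ S ∈ (SS R).filter (fun S => kk j S = k), ∏ p ∈ S.filter (fun p => p ∣ r), 1 / ((p : ℝ) - 1) ≤
      ∑ D ∈ r.primeFactors.powerset, ∏ p ∈ D, 1 / ((p : ℝ) - 1) := by
    have h1 : ∑ S ∈ (SS R).filter (fun S => kk j S = k), ∏ p ∈ S.filter (fun p => p ∣ r), 1 / ((p : ℝ) - 1) =
        ∑ D ∈ ((SS R).filter (fun S => kk j S = k)).image (fun S : Finset ℕ => S.filter (fun p : ℕ => p ∣ r)),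
          (fun D : Finset ℕ => ∏ p ∈ D, 1 / ((p : ℝ) - 1)) D := by
      rw [sum_image]
      intro S hS T hT hST
      rw [mem_coe, mem_filter] at hS hT
      simp only at hST
      have h2 : ∏ p ∈ S.filter (fun p => ¬ p ∣ r), p = ∏ p ∈ T.filter (fun p => ¬ p ∣ r), p := by
        have h3 := hS.2.trans hT.2.symm
        unfold kk at h3
        rw [← hr] at h3
        exact Nat.eq_of_mul_eq_mul_left hr0 h3
      have h4 := prod_inj (fun p hp => SS_prime hS.1 p (mem_filter.1 hp).1)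
        (fun p hp => SS_prime hT.1 p (mem_filter.1 hp).1) h2
      rw [← filter_union_filter_not_eq (fun p => p ∣ r) S, ← filter_union_filter_not_eq (fun p => p ∣ r) T, hST, h4]
    rw [h1]
    apply sum_le_sum_of_subset_of_nonneg
    · intro D hD
      rw [mem_image] at hD
      obtain ⟨S, hS, rfl⟩ := hD
      rw [mem_powerset]
      intro p hp
      rw [mem_filter] at hp
      rw [Nat.mem_primeFactors]
      exact ⟨SS_prime (mem_filter.1 hS).1 p hp.1, hp.2, hr0.ne'⟩
    · intro D hD _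
      apply prod_nonneg
      intro p hp
      have := prime_sub (Nat.prime_of_mem_primeFactors (mem_powerset.1 hD hp))
      positivity
  have hprod : ∑ D ∈ r.primeFactors.powerset, ∏ p ∈ D, 1 / ((p : ℝ) - 1) ≤ lg := by
    rw [← prod_one_add]
    have h1 : ∏ p ∈ r.primeFactors, (1 + 1 / ((p : ℝ) - 1)) = ∏ p ∈ r.primeFactors, ((p : ℝ) / (p - 1)) := by
      apply prod_congr rfl
      intro p hp
      have := prime_sub (Nat.prime_of_mem_primeFactors hp)
      have h0 : (p : ℝ) - 1 ≠ 0 := by linarith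
      field_simp
      ring
    rw [h1]
    refine (prod_ratio_le _ fun p hp => (Nat.prime_of_mem_primeFactors hp).two_le).trans ?_
    rw [hlg]
    have h4 : r.primeFactors.card ≤ Nat.log 2 R := by
      apply card_le_log (fun p hp => (Nat.prime_of_mem_primeFactors hp).two_le)
      exact (Nat.le_of_dvd hr0 (Nat.prod_primeFactors_dvd r)).trans (hrQ.trans hQR)
    have : (r.primeFactors.card : ℝ) ≤ Nat.log 2 R := by exact_mod_cast h4
    linarith
  have hs : √(r : ℝ) / k ≤ 1 / √(Q : ℝ) := by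
    rw [div_le_div_iff₀ hkr (by positivity)]
    calc √(r : ℝ) * √(Q : ℝ) ≤ √(Q : ℝ) * √(Q : ℝ) := by
          apply mul_le_mul_of_nonneg_right _ (Real.sqrt_nonneg _)
          exact Real.sqrt_le_sqrt (by exact_mod_cast hrQ)
      _ = Q := Real.mul_self_sqrt hQr.le
      _ ≤ 1 * k := by rw [one_mul]; exact_mod_cast hkQ.le
  rw [← hlg]
  calc √(r : ℝ) / k * lg * ∑ S ∈ (SS R).filter (fun S => kk j S = k), ∏ p ∈ S.filter (fun p => p ∣ r), 1 / ((p : ℝ) - 1) ≤
      (1 / √(Q : ℝ)) * lg * lg := by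
        have h0 : 0 ≤ √(r : ℝ) / k := by positivity
        have h10 := hinj.trans hprod
        calc _ ≤ √(r : ℝ) / k * lg * lg := mul_le_mul_of_nonneg_left h10 (by positivity)
          _ ≤ _ := by gcongr
    _ = _ := by ring

end Pool.Agent.Helper86.PS
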