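import Pool.Agent.Helper86.PS.F6

set_option autoImplicit false

/-!
# The model of the von Mangoldt function and its Fourier transform
-/

open Finset

namespace Pool.Agent.Helper86.PS

open Pool.Agent.H807R2.Dav

/-- the von Mangoldt function on `[1, M]` -/
noncomputable def Lam (M : ℕ) (x : ℤ) : ℂ :=
  if x ∈ Icc (1 : ℤ) M then (ArithmeticFunction.vonMangoldt x.toNat : ℂ) else 0

/-- twisted by a character -/
noncomputable def Lj (M : ℕ) (j : PC) (x : ℤ) : ℂ := fz j x * Lam M x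

/-- the smoothed twisted function -/
noncomputable def wj (M H : ℕ) (j : PC) : ℤ → ℂ := sm H (Lj M j)

/-- the truncated singular product -/
noncomputable def VR (R : ℕ) (x : ℤ) : ℝ := ∑ S ∈ SS R, ∏ p ∈ S, up p x

/-- the model -/
noncomputable def LB (Q R M H : ℕ) (n : ℤ) : ℂ := ∑ j ∈ fam Q, (VR R n : ℂ) * cz j n * wj M H j n

lemma sum_Icc_int (M : ℕ) {A : Type} [AddCommMonoid A] (f : ℤ → A) :
    ∑ x ∈ Icc (1 : ℤ) M, f x = ∑ n ∈ Icc 1 M, f (n : ℤ) := by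
  symm
  apply sum_bij (fun (n : ℕ) _ => (n : ℤ))
  · intro n hn
    rw [mem_Icc] at hn ⊢
    exact_mod_cast hn
  · intro a _ b _ h
    exact_mod_cast h
  · intro x hx
    rw [mem_Icc] at hx
    refine ⟨x.toNat, ?_, Int.toNat_of_nonneg (by omega)⟩
    rw [mem_Icc]
    omega
  · intro n _; rfl

lemma Lam_nat {M n : ℕ} (hn : n ∈ Icc 1 M) : Lam M (n : ℤ) = (ArithmeticFunction.vonMangoldt n : ℂ) := by
  unfold Lam
  rw [if_pos]
  · rw [Int.toNat_natCast]
  · rw [mem_Icc] at hn ⊢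
    exact_mod_cast hn

lemma SF_Lam (M : ℕ) : SF (Lam M) (Icc (1 : ℤ) M) := fun n hn => by unfold Lam; rw [if_neg hn]

lemma SF_Lj (M : ℕ) (j : PC) : SF (Lj M j) (Icc (1 : ℤ) M) := SF_mul' (SF_Lam M) _

lemma Lam_norm (M : ℕ) (x : ℤ) : ‖Lam M x‖ ≤ Real.log M := by
  unfold Lam
  split_ifs with h
  · rw [Complex.norm_real, Real.norm_eq_abs, abs_of_nonneg ArithmeticFunction.vonMangoldt_nonneg]
    refine ArithmeticFunction.vonMangoldt_le_log.trans ?_
    rw [mem_Icc] at h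
    apply Real.log_le_log
    · have : 0 < x.toNat := by omega
      exact_mod_cast this
    · have : x.toNat ≤ M := by omega
      exact_mod_cast this
  · rw [norm_zero]; exact Real.log_natCast_nonneg M

lemma Lj_norm (M : ℕ) (j : PC) (x : ℤ) : ‖Lj M j x‖ ≤ Real.log M := by
  unfold Lj
  rw [norm_mul]
  calc ‖fz j x‖ * ‖Lam M x‖ ≤ 1 * Real.log M := mul_le_mul (fz_norm_le j x) (Lam_norm M x) (norm_nonneg _) zero_le_one
    _ = _ := one_mul _

lemma FT_Lj_norm (M : ℕ) (j : PC) (θ : ℝ) : ‖FT (Lj M j) θ‖ ≤ M * Real.log M := by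
  refine (FT_norm_le (SF_Lj M j) θ).trans ?_
  calc ∑ n ∈ Icc (1 : ℤ) M, ‖Lj M j n‖ ≤ ∑ n ∈ Icc (1 : ℤ) M, Real.log M := sum_le_sum fun n _ => Lj_norm M j n
    _ = M * Real.log M := by
      rw [sum_const, nsmul_eq_mul, Int.card_Icc]
      simp

lemma FT_Lam_norm (M : ℕ) (θ : ℝ) : ‖FT (Lam M) θ‖ ≤ M * Real.log M := by
  refine (FT_norm_le (SF_Lam M) θ).trans ?_
  calc ∑ n ∈ Icc (1 : ℤ) M, ‖Lam M n‖ ≤ ∑ n ∈ Icc (1 : ℤ) M, Real.log M := sum_le_sum fun n _ => Lam_norm M n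
    _ = M * Real.log M := by
      rw [sum_const, nsmul_eq_mul, Int.card_Icc]
      simp

lemma wj_norm (M H : ℕ) (j : PC) (n : ℤ) : ‖wj M H j n‖ ≤ Real.log M :=
  sm_norm_le (Real.log_natCast_nonneg M) (Lj_norm M j) n

lemma wj_lip (M H : ℕ) (j : PC) (m n : ℤ) : ‖wj M H j m - wj M H j n‖ ≤ 2 * Real.log M / H * |((m : ℝ) - n)| :=
  lip_int (fun n => sm_lip_one (Real.log_natCast_nonneg M) (Lj_norm M j) n) m n

lemma SF_wj (M H : ℕ) (j : PC) : SF (wj M H j) (Icc (-(H : ℤ)) (M + H)) := by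
  intro n hn
  unfold wj sm
  rw [sum_eq_zero, mul_zero]
  intro a ha
  rw [sum_eq_zero, mul_zero]
  intro b hb
  apply SF_Lj M j
  intro hc
  apply hn
  rw [mem_range] at ha hb
  rw [mem_Icc] at hc ⊢
  omega

lemma FT_wj (M H : ℕ) (j : PC) (θ : ℝ) : FT (wj M H j) θ = KH H θ * FT (Lj M j) θ := FT_sm (SF_Lj M j) θ

/-- closeness of the smoothed function to its expected value -/
lemma wj_near {Q M H L0 : ℕ} {j : PC} {B : ℝ} (hH : 0 < H) (hB : 0 ≤ B)
    (hb : ∀ y : ℕ, Q ^ L0 ≤ y → Real.log (y + H : ℕ) ≤ Q → y + H ≤ H * Q ^ 6 →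
      ‖∑ n ∈ Ioc y (y + H), fn j n * (ArithmeticFunction.vonMangoldt n : ℂ) - dl j * H‖ ≤ B * H)
    (hM1 : Real.log M ≤ Q) (hM2 : M ≤ H * Q ^ 6) {n : ℤ} (hn1 : ((Q ^ L0 + H : ℕ) : ℤ) ≤ n) (hn2 : n + H ≤ M) :
    ‖wj M H j n - dl j‖ ≤ B := by
  have hH0 : (0 : ℝ) < H := by exact_mod_cast hH
  have hHc : (H : ℂ) ≠ 0 := by exact_mod_cast hH.ne'
  have h1 : wj M H j n - dl j = 1 / (H : ℂ) * ∑ a ∈ range H, (1 / (H : ℂ) * ∑ b ∈ range H, Lj M j (n - a + b) - dl j) := by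
    unfold wj sm
    rw [sum_sub_distrib, sum_const, card_range, nsmul_eq_mul, mul_sub]
    congr 1
    field_simp
  rw [h1]
  apply norm_avg_le hB
  intro a ha
  rw [mem_range] at ha
  have hnn : (0 : ℤ) ≤ n - a - 1 := by
    push_cast at hn1
    have hq0 : (0 : ℤ) ≤ (Q : ℤ) ^ L0 := by positivity
    omega
  obtain ⟨y, hy⟩ : ∃ y : ℕ, (y : ℤ) = n - a - 1 := ⟨(n - a - 1).toNat, Int.toNat_of_nonneg hnn⟩
  have hy1 : Q ^ L0 ≤ y := by
    have : ((Q ^ L0 : ℕ) : ℤ) ≤ y := by rw [hy]; push_cast at hn1 ⊢; omega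
    exact_mod_cast this
  have hy2 : y + H ≤ M := by
    have : ((y + H : ℕ) : ℤ) ≤ M := by push_cast; omega
    exact_mod_cast this
  have h2 := hb y hy1 (by
    refine le_trans ?_ hM1
    apply Real.log_le_log
    · have : 0 < y + H := by omega
      exact_mod_cast this
    · exact_mod_cast hy2) (hy2.trans hM2)
  have h3 : ∑ b ∈ range H, Lj M j (n - a + b) = ∑ n ∈ Ioc y (y + H), fn j n * (ArithmeticFunction.vonMangoldt n : ℂ) := by
    have e1 : Ioc y (y + H) = Ico (y + 1) (y + H + 1) := by ext; simp only [mem_Ioc, mem_Ico]; omega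
    rw [e1, sum_Ico_eq_sum_range]
    have e2 : y + H + 1 - (y + 1) = H := by omega
    rw [e2]
    apply sum_congr rfl
    intro b hb'
    rw [mem_range] at hb'
    have e3 : n - a + b = ((y + 1 + b : ℕ) : ℤ) := by push_cast; omega
    rw [e3]
    unfold Lj
    rw [fz_nat, Lam_nat]
    rw [mem_Icc]; omega
  rw [h3]
  have h4 : 1 / (H : ℂ) * ∑ n ∈ Ioc y (y + H), fn j n * (ArithmeticFunction.vonMangoldt n : ℂ) - dl j =
      1 / (H : ℂ) * (∑ n ∈ Ioc y (y + H), fn j n * (ArithmeticFunction.vonMangoldt n : ℂ) - dl j * H) := by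
    field_simp
  rw [h4, norm_mul, norm_div, norm_one, Complex.norm_natCast]
  calc 1 / (H : ℝ) * ‖∑ n ∈ Ioc y (y + H), fn j n * (ArithmeticFunction.vonMangoldt n : ℂ) - dl j * H‖ ≤
      1 / (H : ℝ) * (B * H) := by gcongr
    _ = B := by field_simp

lemma card_int_Icc (a b : ℤ) (h : a ≤ b + 1) : ((Icc a b).card : ℝ) = b - a + 1 := by
  rw [Int.card_Icc]
  have h1 : (((b + 1 - a).toNat : ℕ) : ℤ) = b + 1 - a := Int.toNat_of_nonneg (by omega)
  have h2 : (((b + 1 - a).toNat : ℕ) : ℝ) = ((b + 1 - a : ℤ) : ℝ) := by exact_mod_cast h1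
  rw [h2]; push_cast; ring

/-- the first moment of the smoothed function -/
lemma wj_sum {M H Y : ℕ} {j : PC} {B : ℝ} (hB : 0 ≤ B) (hHM : H ≤ M)
    (hw : ∀ n : ℤ, (Y : ℤ) ≤ n → n + H ≤ M → ‖wj M H j n - dl j‖ ≤ B) :
    ∑ n ∈ Icc (-(H : ℤ)) (M + H), ‖wj M H j n‖ ≤ M * (‖dl j‖ + B) + (Y + 3 * H + 2) * Real.log M + (‖dl j‖ + B) := by
  have hl := Real.log_natCast_nonneg M
  have h1 : ∀ n ∈ Icc (-(H : ℤ)) (M + H), ‖wj M H j n‖ ≤ (if n ∈ Icc (-(H : ℤ)) Y then Real.log M else 0) +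
      (if n ∈ Icc (0 : ℤ) M then ‖dl j‖ + B else 0) + (if n ∈ Icc ((M : ℤ) - H) (M + H) then Real.log M else 0) := by
    intro n hn
    rw [mem_Icc] at hn
    have p1 : (0 : ℝ) ≤ (if n ∈ Icc (-(H : ℤ)) Y then Real.log M else 0) := by split_ifs <;> positivity
    have p2 : (0 : ℝ) ≤ (if n ∈ Icc (0 : ℤ) M then ‖dl j‖ + B else 0) := by split_ifs <;> positivity
    have p3 : (0 : ℝ) ≤ (if n ∈ Icc ((M : ℤ) - H) (M + H) then Real.log M else 0) := by split_ifs <;> positivity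
    by_cases c1 : n ≤ Y
    · rw [if_pos (mem_Icc.2 ⟨hn.1, c1⟩)]
      linarith [wj_norm M H j n]
    by_cases c2 : (M : ℤ) - H ≤ n
    · have q : (if n ∈ Icc ((M : ℤ) - H) (M + H) then Real.log M else 0) = Real.log M := if_pos (mem_Icc.2 ⟨c2, hn.2⟩)
      rw [q]
      linarith [wj_norm M H j n]
    · have q : (if n ∈ Icc (0 : ℤ) M then ‖dl j‖ + B else 0) = ‖dl j‖ + B := if_pos (mem_Icc.2 ⟨by omega, by omega⟩)
      rw [q]
      have h2 := hw n (by omega) (by omega)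
      have h3 : ‖wj M H j n‖ ≤ ‖dl j‖ + ‖wj M H j n - dl j‖ := by
        have := norm_add_le (dl j) (wj M H j n - dl j)
        simpa using this
      linarith
  refine (sum_le_sum h1).trans ?_
  rw [sum_add_distrib, sum_add_distrib, ← sum_filter, ← sum_filter, ← sum_filter]
  simp only [sum_const, nsmul_eq_mul]
  have c1 : (((Icc (-(H : ℤ)) (M + H)).filter (fun n => n ∈ Icc (-(H : ℤ)) Y)).card : ℝ) ≤ Y + H + 1 := by
    have h2 : ((Icc (-(H : ℤ)) (M + H)).filter (fun n => n ∈ Icc (-(H : ℤ)) Y)).card ≤ (Icc (-(H : ℤ)) Y).card :=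
      card_le_card fun n hn => (mem_filter.1 hn).2
    have h3 := card_int_Icc (-(H : ℤ)) Y (by omega)
    have h4 : (((Icc (-(H : ℤ)) (M + H)).filter (fun n => n ∈ Icc (-(H : ℤ)) Y)).card : ℝ) ≤
        ((Icc (-(H : ℤ)) (Y : ℤ)).card : ℝ) := by exact_mod_cast h2
    rw [h3] at h4
    push_cast at h4
    linarith
  have c2 : (((Icc (-(H : ℤ)) (M + H)).filter (fun n => n ∈ Icc (0 : ℤ) M)).card : ℝ) ≤ M + 1 := by
    have h2 : ((Icc (-(H : ℤ)) (M + H)).filter (fun n => n ∈ Icc (0 : ℤ) M)).card ≤ (Icc (0 : ℤ) M).card :=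
      card_le_card fun n hn => (mem_filter.1 hn).2
    have h3 := card_int_Icc 0 M (by omega)
    have h4 : (((Icc (-(H : ℤ)) (M + H)).filter (fun n => n ∈ Icc (0 : ℤ) M)).card : ℝ) ≤
        ((Icc (0 : ℤ) (M : ℤ)).card : ℝ) := by exact_mod_cast h2
    rw [h3] at h4
    push_cast at h4
    linarith
  have c3 : (((Icc (-(H : ℤ)) (M + H)).filter (fun n => n ∈ Icc ((M : ℤ) - H) (M + H))).card : ℝ) ≤ 2 * H + 1 := by
    have h2 : ((Icc (-(H : ℤ)) (M + H)).filter (fun n => n ∈ Icc ((M : ℤ) - H) (M + H))).card ≤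
        (Icc ((M : ℤ) - H) (M + H)).card := card_le_card fun n hn => (mem_filter.1 hn).2
    have h3 := card_int_Icc ((M : ℤ) - H) (M + H) (by omega)
    have h4 : (((Icc (-(H : ℤ)) (M + H)).filter (fun n => n ∈ Icc ((M : ℤ) - H) (M + H))).card : ℝ) ≤
        ((Icc ((M : ℤ) - H) ((M : ℤ) + H)).card : ℝ) := by exact_mod_cast h2
    rw [h3] at h4
    push_cast at h4
    linarith
  have d1 := mul_le_mul_of_nonneg_right c1 hl
  have d2 := mul_le_mul_of_nonneg_right c2 (by positivity : 0 ≤ ‖dl j‖ + B)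
  have d3 := mul_le_mul_of_nonneg_right c3 hl
  linarith

lemma sum_dl (Q : ℕ) : ∑ j ∈ fam Q, ‖dl j‖ ≤ 1 := by
  have h1 : ∀ j ∈ fam Q, ‖dl j‖ = if j = (⟨0, 1⟩ : PC) then (1 : ℝ) else 0 := by
    intro j hj
    unfold dl
    by_cases h : j.2 = 1
    · rw [if_pos h, if_pos (trivial_fam hj h), norm_one]
    · rw [if_neg h, if_neg, norm_zero]
      rintro rfl
      exact h rfl
  rw [sum_congr rfl h1, sum_ite_eq']
  split_ifs <;> norm_num

lemma LB_eq (Q R M H : ℕ) : LB Q R M H = fun n => ∑ j ∈ fam Q, ∑ S ∈ SS R, GG j S n * wj M H j n := by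
  ext n
  unfold LB GG VR
  apply sum_congr rfl
  intro j _
  push_cast
  rw [sum_mul, sum_mul]

lemma FT_GG {R M H : ℕ} {j : PC} (hj : j.2.IsPrimitive) {S : Finset ℕ} (hS : S ∈ SS R) (θ : ℝ) :
    FT (fun n => GG j S n * wj M H j n) θ =
      ∑ c ∈ range (kk j S), FC (kk j S) (GG j S) c * FT (wj M H j) (θ + c / kk j S) := by
  have hE := GG_EP hj (SS_prime hS)
  have h1 : (fun n => GG j S n * wj M H j n) = fun n : ℤ => ∑ c ∈ range (kk j S),
      FC (kk j S) (GG j S) c * (ee (n * ((c : ℝ) / kk j S)) * wj M H j n) := by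
    ext n
    rw [FC_inv hE.pos hE.per n, sum_mul]
    apply sum_congr rfl
    intro c _
    rw [mul_assoc]
    congr 2
    unfold ea
    congr 1
    push_cast
    ring
  rw [h1, FT_sum (range (kk j S)) _ (S := Icc (-(H : ℤ)) (M + H))]
  · apply sum_congr rfl
    intro c _
    rw [FT_const_mul, FT_ee]
  · intro c _
    exact SF_mul' (SF_mul' (SF_wj M H j) _) (fun _ => FC (kk j S) (GG j S) c)

/-- the far terms -/
lemma far_term {Q R M H X₀ k : ℕ} (hH : 0 < H) {j : PC} (hj : j ∈ fam Q) {S : Finset ℕ} (hS : S ∈ SS R)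
    (hX : 4 * (Q * R) ≤ X₀) (hk : 0 < k) {b : ℕ} (hbk : b < k) (hb : IsCoprime (b : ℤ) (k : ℤ)) {β : ℝ}
    (hβ : |β| ≤ 1 / (k * X₀)) {c : ℕ} (hc : c < kk j S) (hne : ¬ (kk j S = k ∧ c = b)) :
    ‖FC (kk j S) (GG j S) c * FT (wj M H j) (-(b : ℝ) / k + β + c / kk j S)‖ ≤
      (k * (Q * R) / H) ^ 2 * (M * Real.log M) := by
  have hprim := (mem_fam.1 hj).2
  have hE := GG_EP hprim (SS_prime hS)
  have hl : 0 ≤ M * Real.log M := mul_nonneg (Nat.cast_nonneg _) (Real.log_natCast_nonneg M)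
  by_cases hcop : IsCoprime (c : ℤ) (kk j S : ℤ)
  swap
  · rw [hE.zero _ hcop, zero_mul, norm_zero]
    positivity
  obtain ⟨k', hk'⟩ : ∃ k' : ℕ, k' = kk j S := ⟨_, rfl⟩
  rw [← hk'] at hE hc hne hcop ⊢
  have hk'0 : 0 < k' := hE.pos
  have hk'r : (0 : ℝ) < k' := by exact_mod_cast hk'0
  have hkr : (0 : ℝ) < k := by exact_mod_cast hk
  have hHr : (0 : ℝ) < H := by exact_mod_cast hH
  have hk'le : k' ≤ Q * R := by rw [hk']; exact kk_le hj hS
  have hk'ler : (k' : ℝ) ≤ Q * R := by exact_mod_cast hk'le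
  have hQR : 0 < Q * R := lt_of_lt_of_le hk'0 hk'le
  have hX0 : (0 : ℝ) < X₀ := by exact_mod_cast (by omega : 0 < X₀)
  have hXr : 4 * (Q * R : ℝ) ≤ X₀ := by exact_mod_cast hX
  -- the frequency
  have hnd : ¬ ((k * k' : ℕ) : ℤ) ∣ (c : ℤ) * k - b * k' := by
    intro hd
    have d1 : (k : ℤ) ∣ (c : ℤ) * k - b * k' := dvd_trans ⟨k', by push_cast; ring⟩ hd
    have d2 : (k' : ℤ) ∣ (c : ℤ) * k - b * k' := dvd_trans ⟨k, by push_cast; ring⟩ hd
    have d3 : (k : ℤ) ∣ b * k' := by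
      have := dvd_sub (Dvd.intro_left (c : ℤ) rfl : (k : ℤ) ∣ (c : ℤ) * k) d1
      simpa using this
    have d4 : (k' : ℤ) ∣ (c : ℤ) * k := by
      have := dvd_add (Dvd.intro_left (b : ℤ) rfl : (k' : ℤ) ∣ (b : ℤ) * k') d2
      simpa using this
    have e1 : (k : ℤ) ∣ k' := hb.symm.dvd_of_dvd_mul_left d3
    have e2 : (k' : ℤ) ∣ k := hcop.symm.dvd_of_dvd_mul_left d4
    have e3 : k' = k := Nat.dvd_antisymm (Int.natCast_dvd_natCast.1 e2) (Int.natCast_dvd_natCast.1 e1)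
    apply hne
    refine ⟨e3, ?_⟩
    rw [e3] at hd hc
    have e4 : ((k * k : ℕ) : ℤ) ∣ (k : ℤ) * ((c : ℤ) - b) := by
      have : (c : ℤ) * k - b * k = k * ((c : ℤ) - b) := by ring
      rwa [this] at hd
    have e5 : (k : ℤ) ∣ (c : ℤ) - b := by
      push_cast at e4
      exact (mul_dvd_mul_iff_left (by exact_mod_cast hk.ne')).1 e4
    have := Int.eq_zero_of_abs_lt_dvd e5 (by rw [abs_lt]; constructor <;> omega)
    omega
  have hfreq : -(b : ℝ) / k + β + c / k' = (((c : ℤ) * k - b * k' : ℤ) : ℝ) / ((k * k' : ℕ) : ℝ) + β := by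
    push_cast
    field_simp
    ring
  have hdd : 2 / ((k : ℝ) * k') ≤ dd (-(b : ℝ) / k + β + c / k') := by
    rw [hfreq]
    have h1 := dd_rat (Nat.mul_pos hk hk'0) hnd
    have h2 := dd_add_ge ((((c : ℤ) * k - b * k' : ℤ) : ℝ) / ((k * k' : ℕ) : ℝ)) β
    have h3 : 2 * Real.pi * |β| ≤ 2 / ((k : ℝ) * k') := by
      have h4 : 2 * Real.pi * |β| ≤ 2 * Real.pi * (1 / (k * X₀)) := mul_le_mul_of_nonneg_left hβ (by positivity)
      refine h4.trans ?_
      rw [mul_one_div, div_le_div_iff₀ (by positivity) (by positivity)]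
      have h5 : Real.pi * k' ≤ X₀ := by
        calc Real.pi * k' ≤ 4 * (Q * R) := mul_le_mul Real.pi_le_four hk'ler hk'r.le (by norm_num)
          _ ≤ X₀ := hXr
      nlinarith
    have h6 : 4 / ((k * k' : ℕ) : ℝ) = 2 / ((k : ℝ) * k') + 2 / ((k : ℝ) * k') := by push_cast; ring
    linarith
  have hK := KH_far hH (by positivity : 0 < 2 / ((k : ℝ) * k')) hdd
  rw [FT_wj, norm_mul, norm_mul]
  have hB : ‖FC k' (GG j S) c‖ ≤ 1 := (hE.bd c).trans (Bk_le_one (SS_prime hS))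
  have hK2 : ‖KH H (-(b : ℝ) / k + β + c / k')‖ ≤ (k * (Q * R) / H) ^ 2 := by
    refine hK.trans ?_
    have e1 : 4 / ((H : ℝ) * (2 / ((k : ℝ) * k'))) ^ 2 = (k * k' / H) ^ 2 := by field_simp; ring
    rw [e1]
    gcongr
  calc ‖FC k' (GG j S) c‖ * (‖KH H (-(b : ℝ) / k + β + c / k')‖ * ‖FT (Lj M j) (-(b : ℝ) / k + β + c / k')‖) ≤
      1 * ((k * (Q * R) / H) ^ 2 * (M * Real.log M)) := by
        apply mul_le_mul hB _ (by positivity) zero_le_one
        exact mul_le_mul hK2 (FT_Lj_norm M j _) (norm_nonneg _) (by positivity)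
    _ = _ := one_mul _

/-- the transform of the model near a fraction -/
lemma FT_split {Q R M H X₀ k : ℕ} (hH : 0 < H) (hX : 4 * (Q * R) ≤ X₀) (hk : 0 < k) {b : ℕ} (hbk : b < k)
    (hb : IsCoprime (b : ℤ) (k : ℤ)) {β : ℝ} (hβ : |β| ≤ 1 / (k * X₀)) :
    ‖FT (LB Q R M H) (-(b : ℝ) / k + β) - ∑ j ∈ fam Q, ∑ S ∈ (SS R).filter (fun S => kk j S = k),
      FC k (GG j S) b * FT (wj M H j) β‖ ≤
      (Q : ℝ) ^ 3 * R ^ 2 * ((k * (Q * R) / H) ^ 2 * (M * Real.log M)) := by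
  obtain ⟨D, hD⟩ : ∃ D : ℝ, D = (k * (Q * R) / H) ^ 2 * (M * Real.log M) := ⟨_, rfl⟩
  have hl : 0 ≤ M * Real.log M := mul_nonneg (Nat.cast_nonneg _) (Real.log_natCast_nonneg M)
  have hD0 : 0 ≤ D := by rw [hD]; positivity
  have hkr : (0 : ℝ) < k := by exact_mod_cast hk
  rw [← hD]
  have h1 : FT (LB Q R M H) (-(b : ℝ) / k + β) = ∑ j ∈ fam Q, ∑ S ∈ SS R, ∑ c ∈ range (kk j S),
      FC (kk j S) (GG j S) c * FT (wj M H j) (-(b : ℝ) / k + β + c / kk j S) := by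
    rw [LB_eq, FT_sum (fam Q) _ (S := Icc (-(H : ℤ)) (M + H))]
    · apply sum_congr rfl
      intro j hj
      rw [FT_sum (SS R) _ (S := Icc (-(H : ℤ)) (M + H))]
      · apply sum_congr rfl
        intro S hS
        exact FT_GG (mem_fam.1 hj).2 hS _
      · intro S _
        exact SF_mul' (SF_wj M H j) _
    · intro j _ n hn
      simp only
      apply sum_eq_zero
      intro S _
      rw [SF_wj M H j n hn, mul_zero]
  have h2 : ∑ j ∈ fam Q, ∑ S ∈ (SS R).filter (fun S => kk j S = k), FC k (GG j S) b * FT (wj M H j) β =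
      ∑ j ∈ fam Q, ∑ S ∈ SS R, if kk j S = k then FC k (GG j S) b * FT (wj M H j) β else 0 := by
    apply sum_congr rfl
    intro j _
    rw [sum_filter]
  rw [h1, h2, ← sum_sub_distrib]
  have h3 : ∀ j ∈ fam Q, ‖∑ S ∈ SS R, ∑ c ∈ range (kk j S),
      FC (kk j S) (GG j S) c * FT (wj M H j) (-(b : ℝ) / k + β + c / kk j S) -
      ∑ S ∈ SS R, (if kk j S = k then FC k (GG j S) b * FT (wj M H j) β else 0)‖ ≤ R * ((Q * R) * D) := by
    intro j hj
    rw [← sum_sub_distrib]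
    have h4 : ∀ S ∈ SS R, ‖∑ c ∈ range (kk j S),
        FC (kk j S) (GG j S) c * FT (wj M H j) (-(b : ℝ) / k + β + c / kk j S) -
        (if kk j S = k then FC k (GG j S) b * FT (wj M H j) β else 0)‖ ≤ (Q * R) * D := by
      intro S hS
      have hk'le : kk j S ≤ Q * R := kk_le hj hS
      have hk'ler : (kk j S : ℝ) ≤ Q * R := by exact_mod_cast hk'le
      have h5 : ∀ c ∈ range (kk j S), ¬ (kk j S = k ∧ c = b) →
          ‖FC (kk j S) (GG j S) c * FT (wj M H j) (-(b : ℝ) / k + β + c / kk j S)‖ ≤ D := by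
        intro c hc hne
        rw [hD]
        exact far_term hH hj hS hX hk hbk hb hβ (mem_range.1 hc) hne
      split_ifs with hkk
      · have hbr : b ∈ range (kk j S) := by rw [hkk]; exact mem_range.2 hbk
        rw [← add_sum_erase _ _ hbr]
        have e1 : FC (kk j S) (GG j S) b * FT (wj M H j) (-(b : ℝ) / k + β + b / kk j S) =
            FC k (GG j S) b * FT (wj M H j) β := by
          rw [hkk]
          congr 2
          field_simp
          ring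
        rw [e1, add_sub_cancel_left]
        refine (norm_sum_le_of_le _ (fun c hc => h5 c (mem_of_mem_erase hc) fun hh => (ne_of_mem_erase hc) hh.2)).trans ?_
        rw [sum_const, nsmul_eq_mul]
        apply mul_le_mul_of_nonneg_right _ hD0
        refine le_trans ?_ hk'ler
        have : ((range (kk j S)).erase b).card ≤ kk j S := by
          refine (card_le_card (erase_subset _ _)).trans ?_
          rw [card_range]
        exact_mod_cast this
      · rw [sub_zero]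
        refine (norm_sum_le_of_le _ (fun c hc => h5 c hc fun hh => hkk hh.1)).trans ?_
        rw [sum_const, nsmul_eq_mul, card_range]
        exact mul_le_mul_of_nonneg_right hk'ler hD0
    refine (norm_sum_le_of_le _ h4).trans ?_
    rw [sum_const, nsmul_eq_mul]
    apply mul_le_mul_of_nonneg_right _ (by positivity)
    exact_mod_cast card_SS R
  refine (norm_sum_le_of_le _ h3).trans ?_
  rw [sum_const, nsmul_eq_mul]
  calc ((fam Q).card : ℝ) * (R * ((Q * R) * D)) ≤ (Q : ℝ) ^ 2 * (R * ((Q * R) * D)) :=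
        mul_le_mul_of_nonneg_right (card_fam Q) (by positivity)
    _ = _ := by ring

end Pool.Agent.Helper86.PS
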