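import Pool.Agent.Helper86.PS.F7
import Pool.Agent.W93.MA

set_option autoImplicit false

/-!
# The Fourier bound for the model
-/

open Finset

namespace Pool.Agent.Helper86.PS

open Pool.Agent.H807R2.Dav

lemma FT_int (f : ℤ → ℂ) (θ : ℝ) (t : ℤ) : FT f (θ + t) = FT f θ := by
  unfold FT
  apply tsum_congr
  intro n
  have : (n : ℝ) * (θ + t) = n * θ + ((n * t : ℤ) : ℝ) := by push_cast; ring
  rw [this, ee_add_int]

open _root_.Classical in
/-- the part of the von Mangoldt function not coprime to `k` -/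
lemma noncoprime (M : ℕ) {k : ℕ} (hk : 0 < k) :
    ∑ x ∈ (Icc (1 : ℤ) M).filter (fun x => ¬ IsCoprime x (k : ℤ)), ‖Lam M x‖ ≤
      k * (Nat.log 2 M + 1) * Real.log M := by
  obtain ⟨A, hA⟩ : ∃ A : Finset ℤ, A = ((Icc (1 : ℤ) M).filter (fun x => ¬ IsCoprime x (k : ℤ))).filter
    (fun x => Lam M x ≠ 0) := ⟨_, rfl⟩
  have h1 : ∑ x ∈ (Icc (1 : ℤ) M).filter (fun x => ¬ IsCoprime x (k : ℤ)), ‖Lam M x‖ = ∑ x ∈ A, ‖Lam M x‖ := by
    rw [hA]
    symm
    apply sum_filter_of_ne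
    intro x _ hx h0
    apply hx
    rw [h0, norm_zero]
  have h2 : A.card ≤ k * (Nat.log 2 M + 1) := by
    have h3 : A ⊆ (k.primeFactors ×ˢ range (Nat.log 2 M + 1)).image (fun p : ℕ × ℕ => ((p.1 ^ p.2 : ℕ) : ℤ)) := by
      intro x hx
      rw [hA, mem_filter, mem_filter, mem_Icc] at hx
      obtain ⟨⟨⟨hx1, hxM⟩, hxc⟩, hx0⟩ := hx
      unfold Lam at hx0
      rw [if_pos (mem_Icc.2 ⟨hx1, hxM⟩)] at hx0
      have h4 : ArithmeticFunction.vonMangoldt x.toNat ≠ 0 := by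
        intro h; apply hx0; rw [h]; simp
      rw [ArithmeticFunction.vonMangoldt_ne_zero_iff, isPrimePow_nat_iff] at h4
      obtain ⟨p, a, hp, ha, hpa⟩ := h4
      have hxn : x = ((p ^ a : ℕ) : ℤ) := by rw [hpa, Int.toNat_of_nonneg (by omega)]
      have hpaM : p ^ a ≤ M := by
        have : ((p ^ a : ℕ) : ℤ) ≤ M := by rw [← hxn]; exact hxM
        exact_mod_cast this
      rw [mem_image]
      refine ⟨(p, a), mem_product.2 ⟨?_, ?_⟩, hxn.symm⟩
      · rw [Nat.mem_primeFactors]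
        refine ⟨hp, ?_, hk.ne'⟩
        by_contra hpk
        apply hxc
        rw [hxn]
        push_cast
        apply IsCoprime.pow_left
        exact Nat.isCoprime_iff_coprime.2 ((Nat.Prime.coprime_iff_not_dvd hp).2 hpk)
      · rw [mem_range, Nat.lt_succ_iff]
        apply Nat.le_log_of_pow_le (by norm_num)
        exact (Nat.pow_le_pow_left hp.two_le a).trans hpaM
    refine (card_le_card h3).trans (card_image_le.trans ?_)
    rw [card_product, card_range]
    apply Nat.mul_le_mul_right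
    have h5 : k.primeFactors ⊆ Icc 1 k := by
      intro p hp
      rw [mem_Icc]
      exact ⟨(Nat.prime_of_mem_primeFactors hp).pos, Nat.le_of_dvd hk (Nat.dvd_of_mem_primeFactors hp)⟩
    simpa using card_le_card h5
  rw [h1]
  calc ∑ x ∈ A, ‖Lam M x‖ ≤ ∑ x ∈ A, Real.log M := sum_le_sum fun x _ => Lam_norm M x
    _ = A.card * Real.log M := by rw [sum_const, nsmul_eq_mul]
    _ ≤ _ := by
      apply mul_le_mul_of_nonneg_right _ (Real.log_natCast_nonneg M)
      exact_mod_cast h2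

lemma Csum_one {Q R k : ℕ} {j : PC} (hj : j ∈ fam Q) (b : ℤ) :
    ‖∑ S ∈ (SS R).filter (fun S => kk j S = k), FC k (GG j S) b‖ ≤ R := by
  have h1 : ∀ S ∈ (SS R).filter (fun S => kk j S = k), ‖FC k (GG j S) b‖ ≤ 1 := by
    intro S hS
    rw [mem_filter] at hS
    have hE := GG_EP (mem_fam.1 hj).2 (SS_prime hS.1)
    rw [← hS.2]
    exact (hE.bd b).trans (Bk_le_one (SS_prime hS.1))
  refine (norm_sum_le_of_le _ h1).trans ?_
  rw [sum_const, nsmul_eq_mul, mul_one]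
  exact_mod_cast (card_le_card (filter_subset _ _)).trans (card_SS R)

/-- the near terms for small denominators -/
lemma near_a {Q R M H k : ℕ} (hk : 0 < k) (hkQ : k ≤ Q) (hQR : Q ≤ R) {b : ℕ} (hb : IsCoprime (b : ℤ) (k : ℤ)) (β : ℝ) :
    ‖∑ j ∈ fam Q, ∑ S ∈ (SS R).filter (fun S => kk j S = k), FC k (GG j S) b * FT (wj M H j) β -
      KH H β * FT (Lam M) (-(b : ℝ) / k + β)‖ ≤ ((Q : ℝ) ^ 2 * R + 1) * (k * (Nat.log 2 M + 1) * Real.log M) := by
  classical
  obtain ⟨C, hC⟩ : ∃ C : PC → ℂ, ∀ j, C j = ∑ S ∈ (SS R).filter (fun S => kk j S = k), FC k (GG j S) b :=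
    ⟨_, fun j => rfl⟩
  have h1 : ∑ j ∈ fam Q, ∑ S ∈ (SS R).filter (fun S => kk j S = k), FC k (GG j S) b * FT (wj M H j) β =
      KH H β * ∑ x ∈ Icc (1 : ℤ) M, Lam M x * ee (x * β) * ∑ j ∈ fam Q, C j * fz j x := by
    have e1 : ∀ j ∈ fam Q, ∑ S ∈ (SS R).filter (fun S => kk j S = k), FC k (GG j S) b * FT (wj M H j) β =
        KH H β * ∑ x ∈ Icc (1 : ℤ) M, Lam M x * ee (x * β) * (C j * fz j x) := by
      intro j _
      rw [← sum_mul, ← hC, FT_wj, FT_eq (SF_Lj M j), mul_sum, mul_sum, mul_sum]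
      apply sum_congr rfl
      intro x _
      unfold Lj
      ring
    rw [sum_congr rfl e1, ← mul_sum, sum_comm]
    simp only [mul_sum]
  have h2 : FT (Lam M) (-(b : ℝ) / k + β) = ∑ x ∈ Icc (1 : ℤ) M, Lam M x * ee (x * β) * ea k (-b) x := by
    rw [FT_eq (SF_Lam M)]
    apply sum_congr rfl
    intro x _
    rw [mul_assoc]
    congr 1
    unfold ea
    rw [← ee_add]
    congr 1
    push_cast
    ring
  rw [h1, h2, ← mul_sub, ← sum_sub_distrib, norm_mul]
  have h3 : ∀ x ∈ Icc (1 : ℤ) M, Lam M x * ee (x * β) * ∑ j ∈ fam Q, C j * fz j x - Lam M x * ee (x * β) * ea k (-b) x =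
      if ¬ IsCoprime x (k : ℤ) then Lam M x * ee (x * β) * (∑ j ∈ fam Q, C j * fz j x - ea k (-b) x) else 0 := by
    intro x _
    by_cases hx : IsCoprime x (k : ℤ)
    · rw [if_neg (not_not.2 hx)]
      have := near_ident hkQ hk hQR hb hx
      simp only [hC]
      rw [this, sub_self]
    · rw [if_pos hx]
      ring
  rw [sum_congr rfl h3, ← sum_filter]
  have h4 : ∀ x : ℤ, ‖∑ j ∈ fam Q, C j * fz j x - ea k (-b) x‖ ≤ (Q : ℝ) ^ 2 * R + 1 := by
    intro x
    refine (norm_sub_le _ _).trans ?_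
    rw [ea_norm]
    have e1 : ‖∑ j ∈ fam Q, C j * fz j x‖ ≤ (Q : ℝ) ^ 2 * R := by
      have e2 : ∀ j ∈ fam Q, ‖C j * fz j x‖ ≤ R := by
        intro j hj
        rw [norm_mul, hC]
        calc _ ≤ (R : ℝ) * 1 := mul_le_mul (Csum_one hj b) (fz_norm_le j x) (norm_nonneg _) (by positivity)
          _ = R := mul_one _
      refine (norm_sum_le_of_le _ e2).trans ?_
      rw [sum_const, nsmul_eq_mul]
      exact mul_le_mul_of_nonneg_right (card_fam Q) (by positivity)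
    linarith
  have h5 : ‖∑ x ∈ (Icc (1 : ℤ) M).filter (fun x => ¬ IsCoprime x (k : ℤ)),
      Lam M x * ee (x * β) * (∑ j ∈ fam Q, C j * fz j x - ea k (-b) x)‖ ≤
      ((Q : ℝ) ^ 2 * R + 1) * (k * (Nat.log 2 M + 1) * Real.log M) := by
    refine (norm_sum_le _ _).trans ?_
    have e1 : ∀ x ∈ (Icc (1 : ℤ) M).filter (fun x => ¬ IsCoprime x (k : ℤ)),
        ‖Lam M x * ee (x * β) * (∑ j ∈ fam Q, C j * fz j x - ea k (-b) x)‖ ≤ ((Q : ℝ) ^ 2 * R + 1) * ‖Lam M x‖ := by
      intro x _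
      rw [norm_mul, norm_mul, norm_ee, mul_one, mul_comm]
      exact mul_le_mul_of_nonneg_right (h4 x) (norm_nonneg _)
    refine (sum_le_sum e1).trans ?_
    rw [← mul_sum]
    exact mul_le_mul_of_nonneg_left (noncoprime M hk) (by positivity)
  calc ‖KH H β‖ * ‖∑ x ∈ (Icc (1 : ℤ) M).filter (fun x => ¬ IsCoprime x (k : ℤ)),
      Lam M x * ee (x * β) * (∑ j ∈ fam Q, C j * fz j x - ea k (-b) x)‖ ≤
      1 * (((Q : ℝ) ^ 2 * R + 1) * (k * (Nat.log 2 M + 1) * Real.log M)) :=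
        mul_le_mul (KH_le H β) h5 (norm_nonneg _) zero_le_one
    _ = _ := one_mul _

/-- the near terms for large denominators -/
lemma near_b {Q R M H Y k : ℕ} (hQ : 1 ≤ Q) (hkQ : Q < k) (hQR : Q ≤ R) (hHM : H ≤ M) (b : ℕ) (β : ℝ) {B : PC → ℝ}
    (hB : ∀ j ∈ fam Q, 0 ≤ B j) (hBs : ∑ j ∈ fam Q, B j ≤ 1)
    (hw : ∀ j ∈ fam Q, ∀ n : ℤ, (Y : ℤ) ≤ n → n + H ≤ M → ‖wj M H j n - dl j‖ ≤ B j) :
    ‖∑ j ∈ fam Q, ∑ S ∈ (SS R).filter (fun S => kk j S = k), FC k (GG j S) b * FT (wj M H j) β‖ ≤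
      (Nat.log 2 R + 1) ^ 2 / √(Q : ℝ) * (2 * M + (Q : ℝ) ^ 2 * ((Y + 3 * H + 2) * Real.log M) + 2) := by
  have hl := Real.log_natCast_nonneg M
  have h1 : ∀ j ∈ fam Q, ‖∑ S ∈ (SS R).filter (fun S => kk j S = k), FC k (GG j S) b * FT (wj M H j) β‖ ≤
      (Nat.log 2 R + 1) ^ 2 / √(Q : ℝ) * (M * (‖dl j‖ + B j) + (Y + 3 * H + 2) * Real.log M + (‖dl j‖ + B j)) := by
    intro j hj
    rw [← sum_mul, norm_mul]
    apply mul_le_mul _ _ (norm_nonneg _) (by positivity)
    · refine le_trans ?_ (Csum_bound hQ hQR hkQ hj)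
      apply norm_sum_le_of_le
      intro S hS
      rw [mem_filter] at hS
      have hE := GG_EP (mem_fam.1 hj).2 (SS_prime hS.1)
      have := hE.bd b
      rw [hS.2] at this
      exact this
    · exact (FT_norm_le (SF_wj M H j) β).trans (wj_sum (hB j hj) hHM (hw j hj))
  refine (norm_sum_le_of_le _ h1).trans ?_
  rw [← mul_sum]
  apply mul_le_mul_of_nonneg_left _ (by positivity)
  rw [sum_add_distrib, sum_add_distrib, ← mul_sum, sum_const, nsmul_eq_mul, sum_add_distrib]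
  have h2 : ∑ j ∈ fam Q, ‖dl j‖ + ∑ j ∈ fam Q, B j ≤ 2 := by linarith [sum_dl Q]
  have h3 : (M : ℝ) * (∑ j ∈ fam Q, ‖dl j‖ + ∑ j ∈ fam Q, B j) ≤ M * 2 :=
    mul_le_mul_of_nonneg_left h2 (Nat.cast_nonneg _)
  have h4 : ((fam Q).card : ℝ) * ((Y + 3 * H + 2) * Real.log M) ≤ (Q : ℝ) ^ 2 * ((Y + 3 * H + 2) * Real.log M) :=
    mul_le_mul_of_nonneg_right (card_fam Q) (by positivity)
  linarith

/-- the bound off the major arcs -/
lemma vaughan : ∃ N0 : ℕ, ∀ M : ℕ, N0 ≤ M → ∀ Q : ℕ, 1 ≤ Q → Q ^ 4 ≤ M → ∀ q : ℚ, Q < q.den → q.den * Q ≤ M →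
    ∀ θ : ℝ, |θ - q| ≤ 1 / (q.den : ℝ) ^ 2 →
    ‖FT (Lam M) θ‖ ≤ 200000 * Real.log M ^ 7 * (M / √(Q : ℝ)) := by
  obtain ⟨N0, hN0⟩ := Pool.Agent.W93.DG.minor_quant
  refine ⟨N0 + 1, fun M hM Q hQ hQM q hq hqM θ hθ => ?_⟩
  have hM0 : (0 : ℝ) < M := by exact_mod_cast (by omega : 0 < M)
  have hQ0 : (0 : ℝ) < Q := by exact_mod_cast hQ
  have hqd : (0 : ℝ) < q.den := by exact_mod_cast (by omega : 0 < q.den)
  have h1 := hN0 M (by omega) Q q.den hQ (by rw [show (Q * Q) * (Q * Q) = Q ^ 4 by ring]; exact hQM) (by omega)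
    (by nlinarith) q.num (by
      have := q.reduced
      rw [Int.isCoprime_iff_gcd_eq_one]
      exact this) θ (by
      have : (q : ℝ) = (q.num : ℝ) / q.den := by exact_mod_cast (Rat.num_div_den q).symm
      rw [← this]
      exact hθ)
  have h2 : FT (Lam M) θ = ∑ n ∈ Icc 1 M, ((ArithmeticFunction.vonMangoldt n : ℝ) : ℂ) * ee ((n : ℝ) * θ) := by
    rw [FT_eq (SF_Lam M), sum_Icc_int]
    apply sum_congr rfl
    intro n hn
    rw [Lam_nat hn, Int.cast_natCast]
  rw [h2]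
  refine h1.trans ?_
  have h3 : √(1 / (q.den : ℝ) + 1 / Q + q.den / M) ≤ 2 / √(Q : ℝ) := by
    have e1 : 1 / (q.den : ℝ) ≤ 1 / Q := one_div_le_one_div_of_le hQ0 (by exact_mod_cast hq.le)
    have e2 : (q.den : ℝ) / M ≤ 1 / Q := by
      rw [div_le_div_iff₀ hM0 hQ0, one_mul]
      exact_mod_cast hqM
    have e3 : 1 / (q.den : ℝ) + 1 / Q + q.den / M ≤ 4 / Q := by
      have : 4 / (Q : ℝ) = 1 / Q + 1 / Q + 1 / Q + 1 / Q := by ring
      have h0 : 0 ≤ 1 / (Q : ℝ) := by positivity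
      linarith
    calc √(1 / (q.den : ℝ) + 1 / Q + q.den / M) ≤ √(4 / Q) := Real.sqrt_le_sqrt e3
      _ = 2 / √(Q : ℝ) := by
        rw [Real.sqrt_div (by norm_num), show (4 : ℝ) = 2 ^ 2 by norm_num, Real.sqrt_sq (by norm_num)]
  have hl := Real.log_natCast_nonneg M
  calc 100000 * Real.log M ^ 7 * (M * √(1 / (q.den : ℝ) + 1 / Q + q.den / M)) ≤
      100000 * Real.log M ^ 7 * (M * (2 / √(Q : ℝ))) := by gcongr
    _ = _ := by ring

lemma aux_div (M : ℕ) {Q : ℕ} (hQ : 0 < Q) : (M : ℝ) ≤ (((M / Q : ℕ) : ℝ) + 1) * Q := by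
  have : M ≤ (M / Q + 1) * Q := by
    have h1 := Nat.div_add_mod M Q
    have h3 := Nat.mod_lt M hQ
    nlinarith
  exact_mod_cast this

lemma aux_e11 {d Q R : ℝ} (h : d ≤ Q) (hQ : 0 < Q) (hR : 1 ≤ R) : d * 4 ≤ 1 * (4 * Q * R) := by
  nlinarith

lemma aux_e12 {k Q M : ℝ} (h : k ≤ Q) (hQ : 2 ≤ Q) (hM : Q ^ 4 ≤ M) : k * Q * 4 ≤ 1 * M := by
  have h6 : k * Q ≤ Q * Q := mul_le_mul_of_nonneg_right h (by linarith)
  have h7 : 4 * (Q * Q) ≤ Q ^ 4 := by
    have e1 : Q ^ 4 = (Q * Q) * (Q * Q) := by ring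
    have e2 : 4 ≤ Q * Q := by nlinarith
    rw [e1]
    exact mul_le_mul_of_nonneg_right e2 (by positivity)
  linarith

/-- **the Fourier bound**, explicit form -/
lemma fourier_explicit : ∃ N0 : ℕ, ∀ M Q R H Y : ℕ, N0 ≤ M → 2 ≤ Q → Q ≤ R → Q ^ 4 ≤ M → 4 * Q * R * Q ≤ M → 0 < H → H ≤ M →
    ∀ B : PC → ℝ, (∀ j ∈ fam Q, 0 ≤ B j) → ∑ j ∈ fam Q, B j ≤ 1 →
    (∀ j ∈ fam Q, ∀ n : ℤ, (Y : ℤ) ≤ n → n + H ≤ M → ‖wj M H j n - dl j‖ ≤ B j) → ∀ θ : ℝ,
    ‖FT (Lam M) θ - FT (LB Q R M H) θ‖ ≤ 400000 * Real.log M ^ 7 * (M / √(Q : ℝ)) +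
      (Q : ℝ) ^ 3 * R ^ 2 * ((4 * Q * R * (Q * R) / H) ^ 2 * (M * Real.log M)) +
      ((Q : ℝ) ^ 2 * R + 1) * (Q * (Nat.log 2 M + 1) * Real.log M) +
      (Nat.log 2 R + 1) ^ 2 / √(Q : ℝ) * (2 * M + (Q : ℝ) ^ 2 * ((Y + 3 * H + 2) * Real.log M) + 2) +
      2 * Real.pi * H * Q * Real.log M := by
  obtain ⟨N0, hN0⟩ := vaughan
  refine ⟨N0 + 1, fun M Q R H Y hM hQ2 hQR hQM hXM hH hHM B hB hBs hw θ => ?_⟩
  have hM0 : (0 : ℝ) < M := by exact_mod_cast (by omega : 0 < M)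
  have hQ0 : (0 : ℝ) < Q := by exact_mod_cast (by omega : 0 < Q)
  have hR0 : (0 : ℝ) < R := by exact_mod_cast (by omega : 0 < R)
  have hH0 : (0 : ℝ) < H := by exact_mod_cast hH
  have hl := Real.log_natCast_nonneg M
  have hV0 : 0 ≤ 400000 * Real.log M ^ 7 * (M / √(Q : ℝ)) := by positivity
  have hNA : 0 ≤ ((Q : ℝ) ^ 2 * R + 1) * (Q * (Nat.log 2 M + 1) * Real.log M) := by positivity
  have hNB : 0 ≤ (Nat.log 2 R + 1) ^ 2 / √(Q : ℝ) * (2 * M + (Q : ℝ) ^ 2 * ((Y + 3 * H + 2) * Real.log M) + 2) := by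
    positivity
  have hK0 : 0 ≤ 2 * Real.pi * H * Q * Real.log M := by positivity
  have hX0 : 0 < 4 * Q * R := Nat.mul_pos (by omega) (by omega)
  obtain ⟨q, hq1, hq2⟩ := Real.exists_rat_abs_sub_le_and_den_le θ hX0
  obtain ⟨k, hk⟩ : ∃ k : ℕ, k = q.den := ⟨_, rfl⟩
  have hk0 : 0 < k := by rw [hk]; exact q.den_pos
  have hkr : (0 : ℝ) < k := by exact_mod_cast hk0
  rw [← hk] at hq1 hq2
  have hkX : (k : ℝ) ≤ 4 * Q * R := by exact_mod_cast hq2
  obtain ⟨b, hb⟩ : ∃ b : ℕ, (b : ℤ) = (-q.num) % k :=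
    ⟨((-q.num) % k).toNat, Int.toNat_of_nonneg (Int.emod_nonneg _ (by exact_mod_cast hk0.ne'))⟩
  have hbk : b < k := by
    have := Int.emod_lt_of_pos (-q.num) (by exact_mod_cast hk0 : (0 : ℤ) < k)
    rw [← hb] at this
    exact_mod_cast this
  obtain ⟨t, ht⟩ : ∃ t : ℤ, -(b : ℤ) = q.num + k * t := by
    refine ⟨(-q.num) / k, ?_⟩
    have := Int.emod_add_mul_ediv (-q.num) k
    rw [← hb] at this
    linarith
  have hqr : (q : ℝ) = (q.num : ℝ) / k := by rw [hk]; exact_mod_cast (Rat.num_div_den q).symm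
  have hcopq : IsCoprime q.num (k : ℤ) := by
    rw [hk, Int.isCoprime_iff_gcd_eq_one]
    exact q.reduced
  have hbcop : IsCoprime (b : ℤ) (k : ℤ) := by
    have e1 : (b : ℤ) = -q.num + k * (-t) := by linarith
    rw [e1]
    exact hcopq.neg_left.add_mul_left_left (-t)
  obtain ⟨β, hβ⟩ : ∃ β : ℝ, β = θ - q := ⟨_, rfl⟩
  have hβX : |β| ≤ 1 / (k * ((4 * Q * R : ℕ) : ℝ)) := by
    rw [hβ]
    refine hq1.trans ?_
    apply one_div_le_one_div_of_le
    · have : (0 : ℝ) < ((4 * Q * R : ℕ) : ℝ) := by exact_mod_cast hX0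
      positivity
    · rw [mul_comm]
      apply mul_le_mul_of_nonneg_right _ hkr.le
      linarith
  have hθt : θ + t = -(b : ℝ) / k + β := by
    have e1 : -(b : ℝ) = (q.num : ℝ) + k * t := by exact_mod_cast ht
    rw [hβ, hqr, e1]
    field_simp
    ring
  have hFT : ∀ f : ℤ → ℂ, FT f θ = FT f (-(b : ℝ) / k + β) := by
    intro f
    rw [← hθt, FT_int]
  have hsplit := FT_split (M := M) hH (by rw [mul_assoc] : 4 * (Q * R) ≤ 4 * Q * R) hk0 hbk hbcop hβX
  have hfar : (Q : ℝ) ^ 3 * R ^ 2 * ((k * (Q * R) / H) ^ 2 * (M * Real.log M)) ≤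
      (Q : ℝ) ^ 3 * R ^ 2 * ((4 * Q * R * (Q * R) / H) ^ 2 * (M * Real.log M)) := by gcongr
  rcases Nat.lt_or_ge Q k with hkQ | hkQ
  · -- large denominator
    have hV := hN0 M (by omega) Q (by omega) hQM q (by rw [← hk]; exact hkQ)
      (by rw [← hk]; exact (Nat.mul_le_mul_right Q hq2).trans hXM) θ (by
        rw [← hk]
        refine hq1.trans ?_
        apply one_div_le_one_div_of_le (by positivity)
        rw [sq]
        apply mul_le_mul_of_nonneg_right _ hkr.le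
        have : (k : ℝ) ≤ ((4 * Q * R : ℕ) : ℝ) := by exact_mod_cast hq2
        linarith)
    have hnb := near_b (R := R) (by omega : 1 ≤ Q) hkQ hQR hHM b β hB hBs hw
    have h1 : ‖FT (LB Q R M H) θ‖ ≤ (Q : ℝ) ^ 3 * R ^ 2 * ((k * (Q * R) / H) ^ 2 * (M * Real.log M)) +
        (Nat.log 2 R + 1) ^ 2 / √(Q : ℝ) * (2 * M + (Q : ℝ) ^ 2 * ((Y + 3 * H + 2) * Real.log M) + 2) := by
      rw [hFT]
      refine (norm_le_norm_sub_add _ _).trans (add_le_add hsplit hnb)
    have h2 := norm_sub_le (FT (Lam M) θ) (FT (LB Q R M H) θ)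
    have h3 : 200000 * Real.log M ^ 7 * (M / √(Q : ℝ)) ≤ 400000 * Real.log M ^ 7 * (M / √(Q : ℝ)) := by
      have : 0 ≤ Real.log M ^ 7 * (M / √(Q : ℝ)) := by positivity
      linarith
    linarith
  · -- small denominator
    have hna := near_a (M := M) (H := H) hk0 hkQ hQR hbcop β
    have hkQr : (k : ℝ) ≤ Q := by exact_mod_cast hkQ
    have hna' : ((Q : ℝ) ^ 2 * R + 1) * (k * (Nat.log 2 M + 1) * Real.log M) ≤
        ((Q : ℝ) ^ 2 * R + 1) * (Q * (Nat.log 2 M + 1) * Real.log M) := by gcongr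
    have h1 : ‖FT (LB Q R M H) θ - KH H β * FT (Lam M) θ‖ ≤
        (Q : ℝ) ^ 3 * R ^ 2 * ((k * (Q * R) / H) ^ 2 * (M * Real.log M)) +
        ((Q : ℝ) ^ 2 * R + 1) * (k * (Nat.log 2 M + 1) * Real.log M) := by
      rw [hFT, hFT (Lam M)]
      refine (norm_sub_le_norm_sub_add_norm_sub _ _ _).trans (add_le_add hsplit hna)
    have h2 : ‖(1 - KH H β) * FT (Lam M) θ‖ ≤ 400000 * Real.log M ^ 7 * (M / √(Q : ℝ)) +
        2 * Real.pi * H * Q * Real.log M := by
      rw [norm_mul]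
      rcases le_or_gt |β| (Q / M) with hs | hs
      · have e1 := KH_near hH β
        have e2 := FT_Lam_norm M θ
        calc ‖1 - KH H β‖ * ‖FT (Lam M) θ‖ ≤ (2 * Real.pi * H * (Q / M)) * (M * Real.log M) := by
              apply mul_le_mul _ e2 (norm_nonneg _) (by positivity)
              exact e1.trans (mul_le_mul_of_nonneg_left hs (by positivity))
          _ = 2 * Real.pi * H * Q * Real.log M := by field_simp
          _ ≤ _ := by linarith
      · have e1 : ‖1 - KH H β‖ ≤ 2 := by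
          refine (norm_sub_le _ _).trans ?_
          rw [norm_one]
          linarith [KH_le H β]
        have hMQ : 0 < M / Q := Nat.div_pos ((Nat.le_self_pow (n := 4) (by norm_num) Q).trans hQM) (by omega)
        obtain ⟨q₂, hp1, hp2⟩ := Real.exists_rat_abs_sub_le_and_den_le θ hMQ
        have hd2 : (0 : ℝ) < q₂.den := by exact_mod_cast q₂.den_pos
        have hMQr : (M : ℝ) ≤ (((M / Q : ℕ) : ℝ) + 1) * Q := aux_div M (by omega)
        have hp3 : |θ - q₂| ≤ Q / (M * q₂.den) := by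
          refine hp1.trans ?_
          rw [div_le_div_iff₀ (by positivity) (by positivity), one_mul]
          calc (M : ℝ) * q₂.den ≤ (((M / Q : ℕ) : ℝ) + 1) * Q * q₂.den := mul_le_mul_of_nonneg_right hMQr hd2.le
            _ = _ := by ring
        have hbig : Q < q₂.den := by
          by_contra hcon
          rw [not_lt] at hcon
          have hconr : (q₂.den : ℝ) ≤ Q := by exact_mod_cast hcon
          by_cases hqq : q = q₂
          · have : |β| ≤ Q / M := by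
              rw [hβ, hqq]
              refine hp3.trans ?_
              apply div_le_div_of_nonneg_left hQ0.le hM0
              have : (1 : ℝ) ≤ q₂.den := by exact_mod_cast q₂.den_pos
              exact le_mul_of_one_le_right hM0.le this
            linarith
          · have hsep : 1 / ((k : ℝ) * q₂.den) ≤ |(q : ℝ) - q₂| := by
              have e3 : (q₂ : ℝ) = (q₂.num : ℝ) / q₂.den := by exact_mod_cast (Rat.num_div_den q₂).symm
              have e4 : (q : ℝ) - q₂ = ((q.num * q₂.den - q₂.num * k : ℤ) : ℝ) / (k * q₂.den) := by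
                rw [hqr, e3]
                push_cast
                field_simp
              have e5 : q.num * q₂.den - q₂.num * k ≠ 0 := by
                intro h0
                rw [h0] at e4
                apply hqq
                have : (q : ℝ) = q₂ := by
                  rw [← sub_eq_zero, e4]; simp
                exact_mod_cast this
              rw [e4, abs_div, abs_of_pos (by positivity : (0 : ℝ) < k * q₂.den)]
              apply div_le_div_of_nonneg_right _ (by positivity)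
              rw [← Int.cast_abs]
              exact_mod_cast Int.one_le_abs e5
            have e6 : |(q : ℝ) - q₂| ≤ |β| + |θ - q₂| := by
              rw [hβ]
              have : (q : ℝ) - q₂ = (θ - q₂) - (θ - q) := by ring
              rw [this]
              refine (abs_sub _ _).trans (le_of_eq ?_)
              ring
            have e7 : 1 / ((k : ℝ) * q₂.den) ≤ 1 / (k * ((4 * Q * R : ℕ) : ℝ)) + Q / (M * q₂.den) := by linarith
            have e8 : (1 : ℝ) ≤ q₂.den / ((4 * Q * R : ℕ) : ℝ) + k * Q / M := by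
              have hX0r : (0 : ℝ) < ((4 * Q * R : ℕ) : ℝ) := by exact_mod_cast hX0
              have := mul_le_mul_of_nonneg_left e7 (by positivity : 0 ≤ (k : ℝ) * q₂.den)
              have e9 : (k : ℝ) * q₂.den * (1 / ((k : ℝ) * q₂.den)) = 1 := by field_simp
              have e10 : (k : ℝ) * q₂.den * (1 / (k * ((4 * Q * R : ℕ) : ℝ)) + Q / (M * q₂.den)) =
                  q₂.den / ((4 * Q * R : ℕ) : ℝ) + k * Q / M := by field_simp
              rw [e9, e10] at this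
              exact this
            have e11 : (q₂.den : ℝ) / ((4 * Q * R : ℕ) : ℝ) ≤ 1 / 4 := by
              push_cast
              rw [div_le_div_iff₀ (by positivity) (by norm_num)]
              exact aux_e11 hconr hQ0 (by exact_mod_cast (by omega : 1 ≤ R))
            have e12 : (k : ℝ) * Q / M ≤ 1 / 4 := by
              rw [div_le_div_iff₀ hM0 (by norm_num)]
              exact aux_e12 hkQr (by exact_mod_cast hQ2) (by exact_mod_cast hQM)
            linarith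
        have hV := hN0 M (by omega) Q (by omega) hQM q₂ hbig
          ((Nat.mul_le_mul_right Q hp2).trans (Nat.div_mul_le_self M Q)) θ (by
            refine hp1.trans ?_
            apply one_div_le_one_div_of_le (by positivity)
            rw [sq]
            apply mul_le_mul_of_nonneg_right _ hd2.le
            have : (q₂.den : ℝ) ≤ ((M / Q : ℕ) : ℝ) := by exact_mod_cast hp2
            linarith)
        calc ‖1 - KH H β‖ * ‖FT (Lam M) θ‖ ≤ 2 * (200000 * Real.log M ^ 7 * (M / √(Q : ℝ))) :=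
              mul_le_mul e1 hV (norm_nonneg _) (by norm_num)
          _ = 400000 * Real.log M ^ 7 * (M / √(Q : ℝ)) := by ring
          _ ≤ _ := by linarith
    have h3 : FT (Lam M) θ - FT (LB Q R M H) θ = (1 - KH H β) * FT (Lam M) θ -
        (FT (LB Q R M H) θ - KH H β * FT (Lam M) θ) := by ring
    rw [h3]
    refine (norm_sub_le _ _).trans ?_
    linarith

end Pool.Agent.Helper86.PS
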