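import Pool.Agent.Helper86.PS.F8

set_option autoImplicit false

/-!
# The Fourier bound with the parameters fixed
-/

open Finset

namespace Pool.Agent.Helper86.PS

open Pool.Agent.H807R2.Dav

lemma log2_le {R : ℕ} (hR : 1 ≤ R) : (Nat.log 2 R : ℝ) ≤ 2 * Real.log R := by
  have h1 : 2 ^ Nat.log 2 R ≤ R := Nat.pow_log_le_self 2 (by omega)
  have h2 : ((2 : ℝ) ^ Nat.log 2 R) ≤ R := by exact_mod_cast h1
  have h3 := Real.log_le_log (by positivity) h2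
  rw [Real.log_pow] at h3
  have h4 := Real.log_two_gt_d9
  have h5 : (0 : ℝ) ≤ Nat.log 2 R := Nat.cast_nonneg _
  nlinarith

lemma ev_log (K : ℝ) (n : ℕ) {a : ℝ} (ha : 0 < a) : ∃ Q0 : ℕ, ∀ Q : ℕ, Q0 ≤ Q → K * Real.log Q ^ n ≤ (Q : ℝ) ^ a := by
  have h1 := isLittleO_log_rpow_rpow_atTop (n : ℝ) ha
  have h2 := h1.def (c := 1 / (|K| + 1)) (by positivity)
  obtain ⟨x0, hx0⟩ := Filter.eventually_atTop.1 h2
  obtain ⟨Q0, hQ0⟩ := exists_nat_ge (max x0 1)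
  refine ⟨Q0, fun Q hQ => ?_⟩
  have hQr : max x0 1 ≤ (Q : ℝ) := hQ0.trans (by exact_mod_cast hQ)
  have h3 := hx0 Q ((le_max_left _ _).trans hQr)
  have hQ1 : (1 : ℝ) ≤ Q := (le_max_right _ _).trans hQr
  have hl : 0 ≤ Real.log Q := Real.log_nonneg hQ1
  rw [Real.rpow_natCast, Real.norm_eq_abs, Real.norm_eq_abs, abs_of_nonneg (pow_nonneg hl n),
    abs_of_nonneg (Real.rpow_nonneg (by linarith) a)] at h3
  have h4 : (|K| + 1) * Real.log Q ^ n ≤ (Q : ℝ) ^ a := by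
    have := mul_le_mul_of_nonneg_left h3 (by positivity : 0 ≤ |K| + 1)
    calc _ ≤ _ := this
      _ = _ := by field_simp
  have h5 : K ≤ |K| + 1 := by linarith [le_abs_self K]
  exact (mul_le_mul_of_nonneg_right h5 (by positivity)).trans h4

lemma T1_bound {L ℓ lM X : ℝ} (hX : 0 ≤ X) (h0 : 0 ≤ lM) (h : lM ≤ L * ℓ) :
    400000 * lM ^ 7 * X ≤ 400000 * L ^ 7 * (ℓ ^ 7 * X) := by
  have h1 : lM ^ 7 ≤ (L * ℓ) ^ 7 := pow_le_pow_left₀ h0 h 7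
  calc 400000 * lM ^ 7 * X ≤ 400000 * (L * ℓ) ^ 7 * X := by gcongr
    _ = _ := by ring

lemma pow_seven {ℓ : ℝ} (h : 1 ≤ ℓ) (n : ℕ) (hn : n ≤ 7) : ℓ ^ n ≤ ℓ ^ 7 := pow_le_pow_right₀ h hn

lemma div_lower {M D : ℕ} (hD : 0 < D) (h : 2 * D ≤ M) : (M : ℝ) / (2 * D) ≤ ((M / D : ℕ) : ℝ) := by
  have hD0 : (0 : ℝ) < D := by exact_mod_cast hD
  have h1 := aux_div M hD
  have h2 : (2 : ℝ) * D ≤ M := by exact_mod_cast h
  rw [div_le_iff₀ (by positivity)]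
  nlinarith

lemma div_upper (M D : ℕ) : ((M / D : ℕ) : ℝ) ≤ M / D := Nat.cast_div_le

/-- **the Fourier bound** -/
theorem fourier_main (CR L2 : ℕ) (hCR : 1 ≤ CR) : ∃ Q0 : ℕ, ∀ Q : ℕ, Q0 ≤ Q → ∀ M : ℕ, Q ^ (6 * CR + 20) ≤ M → M ≤ Q ^ L2 →
    ∀ B : PC → ℝ, (∀ j ∈ fam Q, 0 ≤ B j) → ∑ j ∈ fam Q, B j ≤ 1 →
    (∀ j ∈ fam Q, ∀ n : ℤ, ((M / Q ^ 3 : ℕ) : ℤ) ≤ n → n + (M / Q ^ 4 : ℕ) ≤ M → ‖wj M (M / Q ^ 4) j n - dl j‖ ≤ B j) →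
    ∀ θ : ℝ, ‖FT (Lam M) θ - FT (LB Q (Q ^ CR) M (M / Q ^ 4)) θ‖ ≤ M * (Q : ℝ) ^ (-(1 / 4) : ℝ) := by
  obtain ⟨N0, hN0⟩ := fourier_explicit
  obtain ⟨K, hK⟩ : ∃ K : ℝ, K = 400000 * (L2 : ℝ) ^ 7 + 64 * L2 + 6 * (L2 : ℝ) ^ 2 + 9 * (CR : ℝ) ^ 2 * (4 + 6 * L2) +
    7 * L2 := ⟨_, rfl⟩
  obtain ⟨Q1, hQ1⟩ := ev_log K 7 (a := 1 / 4) (by norm_num)
  refine ⟨N0 + Q1 + 3, fun Q hQ M hM1 hM2 B hB hBs hw θ => ?_⟩
  have hQ3n : 3 ≤ Q := by omega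
  have hQ3 : (3 : ℝ) ≤ Q := by exact_mod_cast hQ3n
  have hQ0 : (0 : ℝ) < Q := by linarith
  have hQ1' : (1 : ℝ) ≤ Q := by linarith
  obtain ⟨ℓ, hℓ⟩ : ∃ ℓ : ℝ, ℓ = Real.log Q := ⟨_, rfl⟩
  have hℓ1 : 1 ≤ ℓ := by
    rw [hℓ, Real.le_log_iff_exp_le hQ0]
    linarith [Real.exp_one_lt_d9]
  have hℓ0 : 0 < ℓ := by linarith
  have hℓQ : ℓ ≤ Q := by rw [hℓ]; exact (Real.log_le_sub_one_of_pos hQ0).trans (by linarith)
  have hle : ∀ n : ℕ, n ≤ 6 * CR + 20 → Q ^ n ≤ M := fun n hn =>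
    (Nat.pow_le_pow_right (by omega) hn).trans hM1
  have hler : ∀ n : ℕ, n ≤ 6 * CR + 20 → (Q : ℝ) ^ n ≤ M := fun n hn => by exact_mod_cast hle n hn
  have hQM : Q ≤ M := by simpa using hle 1 (by omega)
  have hM0 : (0 : ℝ) < M := by exact_mod_cast (by omega : 0 < M)
  have hQMr : (Q : ℝ) ≤ M := by exact_mod_cast hQM
  have hlM0 : 0 ≤ Real.log M := Real.log_natCast_nonneg M
  have hlM : Real.log M ≤ L2 * ℓ := by
    have : Real.log M ≤ Real.log ((Q : ℝ) ^ L2) := Real.log_le_log hM0 (by exact_mod_cast hM2)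
    rwa [Real.log_pow, ← hℓ] at this
  obtain ⟨H, hH⟩ : ∃ H : ℕ, H = M / Q ^ 4 := ⟨_, rfl⟩
  obtain ⟨Y, hY⟩ : ∃ Y : ℕ, Y = M / Q ^ 3 := ⟨_, rfl⟩
  rw [← hH, ← hY] at hw
  rw [← hH]
  have hHpos : 0 < H := by
    rw [hH]; exact Nat.div_pos (hle 4 (by omega)) (by positivity)
  have hHM : H ≤ M := by rw [hH]; exact Nat.div_le_self _ _
  have hHlow : (M : ℝ) / (2 * (Q : ℝ) ^ 4) ≤ H := by
    have := div_lower (M := M) (D := Q ^ 4) (by positivity) (by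
      calc 2 * Q ^ 4 ≤ Q * Q ^ 4 := Nat.mul_le_mul_right _ (by omega)
        _ = Q ^ 5 := by ring
        _ ≤ M := hle 5 (by omega))
    rw [hH]
    push_cast at this ⊢
    exact this
  have hHup : (H : ℝ) ≤ M / (Q : ℝ) ^ 4 := by
    rw [hH]
    have := div_upper M (Q ^ 4)
    push_cast at this ⊢
    exact this
  have hYup : (Y : ℝ) ≤ M / (Q : ℝ) ^ 3 := by
    rw [hY]
    have := div_upper M (Q ^ 3)
    push_cast at this ⊢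
    exact this
  have hH0 : (0 : ℝ) < H := by exact_mod_cast hHpos
  obtain ⟨R, hR⟩ : ∃ R : ℕ, R = Q ^ CR := ⟨_, rfl⟩
  have hQR : Q ≤ R := by
    rw [hR]
    calc Q = Q ^ 1 := (pow_one Q).symm
      _ ≤ _ := Nat.pow_le_pow_right (by omega) hCR
  have hRr : (R : ℝ) = (Q : ℝ) ^ CR := by rw [hR]; push_cast; rfl
  have hRle : (R : ℝ) * (Q : ℝ) ^ 4 ≤ M := by
    rw [hRr, ← pow_add]
    exact hler _ (by omega)
  rw [← hR]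
  have hexp := hN0 M Q R H Y ((by omega : N0 ≤ Q).trans hQM) (by omega) hQR (hle 4 (by omega)) (by
    calc 4 * Q * R * Q ≤ Q ^ 2 * Q * R * Q := by
          have : 4 ≤ Q ^ 2 := by nlinarith
          gcongr
      _ = Q ^ (CR + 4) := by rw [hR, pow_add]; ring
      _ ≤ M := hle _ (by omega)) hHpos hHM B hB hBs hw θ
  refine hexp.trans ?_
  have hs0 : 0 < √(Q : ℝ) := Real.sqrt_pos.2 hQ0
  have hs1 : √(Q : ℝ) ≤ Q := by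
    rw [Real.sqrt_le_left hQ0.le]
    nlinarith
  obtain ⟨X, hX⟩ : ∃ X : ℝ, X = M / √(Q : ℝ) := ⟨_, rfl⟩
  have hX0 : 0 < X := by rw [hX]; positivity
  have hXQ : (M : ℝ) / Q ≤ X := by
    rw [hX]; exact div_le_div_of_nonneg_left hM0.le hs0 hs1
  have hX1 : 1 ≤ X := by
    refine le_trans ?_ hXQ
    rw [le_div_iff₀ hQ0]; linarith
  have hL2 : (0 : ℝ) ≤ L2 := Nat.cast_nonneg _
  have hCR0 : (1 : ℝ) ≤ CR := by exact_mod_cast hCR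
  have hℓn : ∀ n : ℕ, n ≤ 7 → ℓ ^ n * X ≤ ℓ ^ 7 * X := fun n hn =>
    mul_le_mul_of_nonneg_right (pow_seven hℓ1 n hn) hX0.le
  -- the five terms
  have t1 : 400000 * Real.log M ^ 7 * (M / √(Q : ℝ)) ≤ 400000 * (L2 : ℝ) ^ 7 * (ℓ ^ 7 * X) := by
    rw [← hX]
    exact T1_bound hX0.le hlM0 hlM
  have t2 : (Q : ℝ) ^ 3 * R ^ 2 * ((4 * Q * R * (Q * R) / H) ^ 2 * (M * Real.log M)) ≤ 64 * L2 * (ℓ ^ 7 * X) := by
    have e1 : 4 * Q * R * (Q * R) / (H : ℝ) ≤ 8 * (Q : ℝ) ^ 6 * R ^ 2 / M := by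
      rw [div_le_div_iff₀ hH0 hM0]
      rw [div_le_iff₀ (by positivity)] at hHlow
      calc 4 * (Q : ℝ) * R * (Q * R) * M ≤ 4 * (Q : ℝ) * R * (Q * R) * (H * (2 * (Q : ℝ) ^ 4)) := by gcongr
        _ = _ := by ring
    have e2 : (Q : ℝ) ^ 3 * R ^ 2 * ((4 * Q * R * (Q * R) / H) ^ 2 * (M * Real.log M)) ≤
        (Q : ℝ) ^ 3 * R ^ 2 * ((8 * (Q : ℝ) ^ 6 * R ^ 2 / M) ^ 2 * (M * (L2 * ℓ))) := by gcongr
    refine e2.trans ?_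
    have e3 : (Q : ℝ) ^ 3 * R ^ 2 * ((8 * (Q : ℝ) ^ 6 * R ^ 2 / M) ^ 2 * (M * (L2 * ℓ))) =
        64 * L2 * ℓ * ((Q : ℝ) ^ (6 * CR + 15) / M) := by
      rw [hRr]
      field_simp
      ring
    rw [e3]
    have e4 : (Q : ℝ) ^ (6 * CR + 15) / M ≤ 1 := by
      rw [div_le_one hM0]; exact hler _ (by omega)
    have e5 : ℓ ≤ ℓ ^ 7 * X := by
      have := hℓn 1 (by norm_num)
      rw [pow_one] at this
      nlinarith
    calc 64 * L2 * ℓ * ((Q : ℝ) ^ (6 * CR + 15) / M) ≤ 64 * L2 * ℓ * 1 := by gcongr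
      _ = 64 * L2 * ℓ := by ring
      _ ≤ _ := by gcongr
  have t3 : ((Q : ℝ) ^ 2 * R + 1) * (Q * (Nat.log 2 M + 1) * Real.log M) ≤ 6 * (L2 : ℝ) ^ 2 * (ℓ ^ 7 * X) := by
    have hlog2 := log2_le (by omega : 1 ≤ M)
    have e1 : (Nat.log 2 M : ℝ) + 1 ≤ 3 * (L2 * ℓ) := by
      have : 1 ≤ L2 * ℓ := by
        refine le_trans ?_ hlM
        refine hℓ1.trans ?_
        rw [hℓ]
        exact Real.log_le_log hQ0 hQMr
      linarith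
    have e2 : (Q : ℝ) ^ 2 * R + 1 ≤ 2 * ((Q : ℝ) ^ 2 * R) := by
      have : (1 : ℝ) ≤ (Q : ℝ) ^ 2 * R := by
        have h1 : (1 : ℝ) ≤ (Q : ℝ) ^ 2 := one_le_pow₀ hQ1'
        have h2 : (1 : ℝ) ≤ R := by exact_mod_cast (by omega : 1 ≤ R)
        nlinarith
      linarith
    have e3 : (Q : ℝ) ^ 3 * R ≤ X := by
      refine le_trans ?_ hXQ
      rw [le_div_iff₀ hQ0]
      calc (Q : ℝ) ^ 3 * R * Q = R * (Q : ℝ) ^ 4 := by ring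
        _ ≤ (M : ℝ) := hRle
    calc ((Q : ℝ) ^ 2 * R + 1) * (Q * (Nat.log 2 M + 1) * Real.log M) ≤
        2 * ((Q : ℝ) ^ 2 * R) * (Q * (3 * (L2 * ℓ)) * (L2 * ℓ)) := by gcongr
      _ = 6 * (L2 : ℝ) ^ 2 * (ℓ ^ 2 * ((Q : ℝ) ^ 3 * R)) := by ring
      _ ≤ 6 * (L2 : ℝ) ^ 2 * (ℓ ^ 2 * X) := by gcongr
      _ ≤ _ := mul_le_mul_of_nonneg_left (hℓn 2 (by norm_num)) (by positivity)
  have t4 : (Nat.log 2 R + 1) ^ 2 / √(Q : ℝ) * (2 * M + (Q : ℝ) ^ 2 * ((Y + 3 * H + 2) * Real.log M) + 2) ≤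
      9 * (CR : ℝ) ^ 2 * (4 + 6 * L2) * (ℓ ^ 7 * X) := by
    have hlog2 := log2_le (by omega : 1 ≤ R)
    have e0 : Real.log R = CR * ℓ := by rw [hRr, Real.log_pow, hℓ]
    have e1 : (Nat.log 2 R : ℝ) + 1 ≤ 3 * (CR * ℓ) := by
      rw [e0] at hlog2
      have : 1 ≤ CR * ℓ := by nlinarith
      linarith
    have e2 : (Q : ℝ) ^ 2 * ((Y + 3 * H + 2) * Real.log M) ≤ 6 * L2 * M := by
      have f1 : (Q : ℝ) ^ 2 * (Y + 3 * H + 2) ≤ 6 * M / Q := by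
        have g1 : (Q : ℝ) ^ 2 * Y ≤ M / Q := by
          calc (Q : ℝ) ^ 2 * Y ≤ (Q : ℝ) ^ 2 * (M / (Q : ℝ) ^ 3) := by gcongr
            _ = (M : ℝ) / Q := by field_simp
        have g2 : (Q : ℝ) ^ 2 * H ≤ M / Q := by
          calc (Q : ℝ) ^ 2 * H ≤ (Q : ℝ) ^ 2 * (M / (Q : ℝ) ^ 4) := by gcongr
            _ = (M : ℝ) / (Q * Q) := by field_simp
            _ ≤ (M : ℝ) / Q := div_le_div_of_nonneg_left hM0.le hQ0 (by nlinarith)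
        have g3 : (Q : ℝ) ^ 2 ≤ M / Q := by
          rw [le_div_iff₀ hQ0]
          calc (Q : ℝ) ^ 2 * Q = (Q : ℝ) ^ 3 := by ring
            _ ≤ (M : ℝ) := hler 3 (by omega)
        have : 6 * (M : ℝ) / Q = M / Q + 3 * (M / Q) + 2 * (M / Q) := by ring
        rw [this]
        linarith
      calc (Q : ℝ) ^ 2 * ((Y + 3 * H + 2) * Real.log M) = (Q : ℝ) ^ 2 * (Y + 3 * H + 2) * Real.log M := by ring
        _ ≤ 6 * M / Q * (L2 * ℓ) := by gcongr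
        _ ≤ 6 * M / Q * (L2 * Q) := by gcongr
        _ = _ := by field_simp
    have e3 : 2 * (M : ℝ) + (Q : ℝ) ^ 2 * ((Y + 3 * H + 2) * Real.log M) + 2 ≤ (4 + 6 * L2) * M := by
      have : (1 : ℝ) ≤ M := by linarith
      linarith
    calc (Nat.log 2 R + 1) ^ 2 / √(Q : ℝ) * (2 * M + (Q : ℝ) ^ 2 * ((Y + 3 * H + 2) * Real.log M) + 2) ≤
        (3 * (CR * ℓ)) ^ 2 / √(Q : ℝ) * ((4 + 6 * L2) * M) := by gcongr
      _ = 9 * (CR : ℝ) ^ 2 * (4 + 6 * L2) * (ℓ ^ 2 * X) := by rw [hX]; ring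
      _ ≤ _ := mul_le_mul_of_nonneg_left (hℓn 2 (by norm_num)) (by positivity)
  have t5 : 2 * Real.pi * H * Q * Real.log M ≤ 7 * L2 * (ℓ ^ 7 * X) := by
    have e1 : (H : ℝ) * Q ≤ X := by
      refine le_trans ?_ hXQ
      calc (H : ℝ) * Q ≤ M / (Q : ℝ) ^ 4 * Q := by gcongr
        _ = M / (Q : ℝ) ^ 3 := by field_simp
        _ ≤ M / Q := div_le_div_of_nonneg_left hM0.le hQ0 (le_self_pow₀ hQ1' (by norm_num))
    have e2 : 2 * Real.pi ≤ 7 := by linarith [Real.pi_lt_d2]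
    calc 2 * Real.pi * H * Q * Real.log M = 2 * Real.pi * (H * Q) * Real.log M := by ring
      _ ≤ 7 * X * (L2 * ℓ) := by gcongr
      _ = 7 * L2 * (ℓ ^ 1 * X) := by ring
      _ ≤ _ := mul_le_mul_of_nonneg_left (hℓn 1 (by norm_num)) (by positivity)
  have hsum : 400000 * Real.log M ^ 7 * (M / √(Q : ℝ)) +
      (Q : ℝ) ^ 3 * R ^ 2 * ((4 * Q * R * (Q * R) / H) ^ 2 * (M * Real.log M)) +
      ((Q : ℝ) ^ 2 * R + 1) * (Q * (Nat.log 2 M + 1) * Real.log M) +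
      (Nat.log 2 R + 1) ^ 2 / √(Q : ℝ) * (2 * M + (Q : ℝ) ^ 2 * ((Y + 3 * H + 2) * Real.log M) + 2) +
      2 * Real.pi * H * Q * Real.log M ≤ K * ℓ ^ 7 * X := by
    rw [hK]
    linarith
  refine hsum.trans ?_
  have hKl := hQ1 Q (by omega)
  rw [← hℓ] at hKl
  calc K * ℓ ^ 7 * X ≤ (Q : ℝ) ^ (1 / 4 : ℝ) * X := mul_le_mul_of_nonneg_right hKl hX0.le
    _ = M * (Q : ℝ) ^ (-(1 / 4) : ℝ) := by
      rw [hX, Real.sqrt_eq_rpow]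
      have e1 : (Q : ℝ) ^ (-(1 / 4) : ℝ) = (Q : ℝ) ^ (1 / 4 : ℝ) / (Q : ℝ) ^ (1 / 2 : ℝ) := by
        rw [← Real.rpow_sub hQ0]; norm_num
      rw [e1]
      ring

end Pool.Agent.Helper86.PS
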