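import Pool.Agent.Helper86.PS.F3

set_option autoImplicit false

/-!
# Replacement in mean square over the shifts
-/

open Finset

namespace Pool.Agent.Helper86.PS

open Pool.Agent.H807R2.Dav

/-- Parseval with multiples of the frequencies -/
lemma disc_parseval {I : Finset ℤ} {a : ℤ} {m : ℕ} (hm : 0 < m)
    (hinj : ∀ n ∈ I, ∀ n' ∈ I, (m : ℤ) ∣ a * (n - n') → n = n') (B : ℤ → ℂ) :
    ∑ c ∈ range m, ‖∑ n ∈ I, B n * ee (((a * n * c : ℤ) : ℝ) / m)‖ ^ 2 = m * ∑ n ∈ I, ‖B n‖ ^ 2 := by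
  have h1 : (((∑ c ∈ range m, ‖∑ n ∈ I, B n * ee (((a * n * c : ℤ) : ℝ) / m)‖ ^ 2 : ℝ)) : ℂ) =
      ((m * ∑ n ∈ I, ‖B n‖ ^ 2 : ℝ) : ℂ) := by
    push_cast
    have hconj : ∀ x : ℝ, (starRingEnd ℂ) (ee x) = ee (-x) := by
      intro x
      have h1 : ee x * ee (-x) = 1 := by rw [← ee_add]; simp [ee_zero]
      have h2 : ee x * (starRingEnd ℂ) (ee x) = 1 := by
        rw [Complex.mul_conj', norm_ee]; norm_num
      have h3 : ee x ≠ 0 := by
        intro h; rw [h, zero_mul] at h1; exact zero_ne_one h1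
      exact mul_left_cancel₀ h3 (h2.trans h1.symm)
    have e1 : ∀ c ∈ range m, (‖∑ n ∈ I, B n * ee (((a * n * c : ℤ) : ℝ) / m)‖ : ℂ) ^ 2 =
        ∑ n ∈ I, ∑ n' ∈ I, B n * (starRingEnd ℂ) (B n') * ee ((((a * (n - n')) * c : ℤ) : ℝ) / m) := by
      intro c _
      rw [← Complex.mul_conj', map_sum, sum_mul_sum]
      apply sum_congr rfl
      intro n _
      apply sum_congr rfl
      intro n' _
      rw [map_mul, hconj, mul_mul_mul_comm, ← ee_add]
      congr 2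
      push_cast
      ring
    have e1' : ∀ c ∈ range m, (‖∑ n ∈ I, B n * ee ((a : ℝ) * n * c / m)‖ : ℂ) ^ 2 =
        ∑ n ∈ I, ∑ n' ∈ I, B n * (starRingEnd ℂ) (B n') * ee ((((a * (n - n')) * c : ℤ) : ℝ) / m) := by
      intro c hc
      rw [← e1 c hc]
      push_cast
      rfl
    rw [sum_congr rfl e1', sum_comm]
    have e2 : ∀ n ∈ I, ∑ c ∈ range m, ∑ n' ∈ I, B n * (starRingEnd ℂ) (B n') * ee ((((a * (n - n')) * c : ℤ) : ℝ) / m) =
        m * (‖B n‖ : ℂ) ^ 2 := by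
      intro n hn
      rw [sum_comm]
      simp only [← mul_sum]
      rw [sum_eq_single n]
      · rw [ortho hm, sub_self, mul_zero, if_pos (dvd_zero _), Complex.mul_conj']
        ring
      · intro n' hn' hne
        rw [ortho hm, if_neg, mul_zero]
        intro hc
        exact hne (hinj n hn n' hn' hc).symm
      · intro h; exact absurd hn h
    rw [sum_congr rfl e2, mul_sum]
  exact_mod_cast h1

lemma abs_le_sum {S : Finset ℤ} {x : ℤ} (hx : x ∈ S) : |x| ≤ ((∑ y ∈ S, y.natAbs : ℕ) : ℤ) := by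
  have h1 : x.natAbs ≤ ∑ y ∈ S, y.natAbs := single_le_sum (f := fun y : ℤ => y.natAbs) (fun _ _ => Nat.zero_le _) hx
  rw [Int.abs_eq_natAbs]
  exact_mod_cast h1

/-- **replacement for one shift** -/
lemma repl_one {F : ℤ → ℂ} {S : Finset ℤ} (hF : SF F S) {σ : ℝ} (hσ : ∀ θ, ‖FT F θ‖ ≤ σ) {a : ℤ} (ha : a ≠ 0)
    (I J : Finset ℤ) (B : ℤ → ℂ) :
    ∑ h ∈ J, ‖∑ n ∈ I, B n * F (a * n + h)‖ ^ 2 ≤ σ ^ 2 * ∑ n ∈ I, ‖B n‖ ^ 2 := by
  classical
  obtain ⟨T, hT⟩ : ∃ T : ℤ → ℂ, T = fun h => ∑ n ∈ I, B n * F (h + a * n) := ⟨_, rfl⟩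
  obtain ⟨S', hS'⟩ : ∃ S' : Finset ℤ, S' = J ∪ I.biUnion (fun n => S.image (fun x => x - a * n)) := ⟨_, rfl⟩
  have hF' : ∀ n ∈ I, SF (fun h => F (h + a * n)) S' := by
    intro n hn h hh
    apply hF
    intro hc
    apply hh
    rw [hS', mem_union, mem_biUnion]
    right
    exact ⟨n, hn, mem_image.2 ⟨_, hc, by ring⟩⟩
  have hTS : SF T S' := by
    intro h hh
    rw [hT]
    apply sum_eq_zero
    intro n hn
    rw [show F (h + a * n) = 0 from hF' n hn h hh, mul_zero]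
  have hFT : ∀ θ, FT T θ = FT F θ * ∑ n ∈ I, B n * ee (-(a * n * θ)) := by
    intro θ
    rw [hT, FT_sum I (fun n h => B n * F (h + a * n)) (S := S')
      (fun n hn h hh => by simp only; rw [show F (h + a * n) = 0 from hF' n hn h hh, mul_zero]), mul_sum]
    apply sum_congr rfl
    intro n _
    rw [FT_const_mul, FT_shift]
    push_cast
    ring
  obtain ⟨m, hm⟩ : ∃ m : ℕ, m = 1 + 2 * (∑ y ∈ S', y.natAbs) + 2 * (a.natAbs * ∑ y ∈ I, y.natAbs) := ⟨_, rfl⟩
  have hm0 : 0 < m := by omega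
  have hmr : (0 : ℝ) < m := by exact_mod_cast hm0
  have p1 := disc_parseval (I := S') (a := -1) hm0 (by
    intro n hn n' hn' hd
    have h1 := abs_le_sum hn
    have h2 := abs_le_sum hn'
    have h3 : |(-1 : ℤ) * (n - n')| < m := by
      rw [neg_one_mul, abs_neg]
      have := abs_sub n n'
      rw [hm]
      push_cast at h1 h2 ⊢
      have h4 : 0 ≤ 2 * (|a| * ∑ y ∈ I, |y|) := by positivity
      linarith
    have := Int.eq_zero_of_abs_lt_dvd hd h3
    omega) T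
  have p2 := disc_parseval (I := I) (a := a) hm0 (by
    intro n hn n' hn' hd
    have h1 := abs_le_sum hn
    have h2 := abs_le_sum hn'
    have h3 : |a * (n - n')| < m := by
      rw [abs_mul]
      have h5 := abs_sub n n'
      have h6 : |a| * |n - n'| ≤ |a| * (2 * ((∑ y ∈ I, y.natAbs : ℕ) : ℤ)) :=
        mul_le_mul_of_nonneg_left (by linarith) (abs_nonneg a)
      rw [hm]
      push_cast at h6 ⊢
      have h4 : 0 ≤ 2 * (∑ y ∈ S', |y|) := by positivity
      linarith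
    have := Int.eq_zero_of_abs_lt_dvd hd h3
    rcases mul_eq_zero.1 this with h7 | h7
    · exact absurd h7 ha
    · omega) B
  have h1 : ∑ h ∈ J, ‖∑ n ∈ I, B n * F (a * n + h)‖ ^ 2 ≤ ∑ h ∈ S', ‖T h‖ ^ 2 := by
    have e1 : ∀ h ∈ J, ‖∑ n ∈ I, B n * F (a * n + h)‖ ^ 2 = ‖T h‖ ^ 2 := by
      intro h _
      rw [hT]
      simp only [add_comm]
    rw [sum_congr rfl e1]
    apply sum_le_sum_of_subset_of_nonneg
    · rw [hS']; exact subset_union_left
    · intro _ _ _; positivity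
  have h2 : ∀ c ∈ range m, ‖∑ n ∈ S', T n * ee (((-1 * n * c : ℤ) : ℝ) / m)‖ ^ 2 ≤
      σ ^ 2 * ‖∑ n ∈ I, B n * ee (((a * n * c : ℤ) : ℝ) / m)‖ ^ 2 := by
    intro c _
    have e1 : ∑ n ∈ S', T n * ee (((-1 * n * c : ℤ) : ℝ) / m) = FT T (-(c / m)) := by
      rw [FT_eq hTS]
      apply sum_congr rfl
      intro n _
      congr 2
      push_cast
      ring
    have e2 : ∑ n ∈ I, B n * ee (-(a * n * (-(c / m) : ℝ))) = ∑ n ∈ I, B n * ee (((a * n * c : ℤ) : ℝ) / m) := by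
      apply sum_congr rfl
      intro n _
      congr 2
      push_cast
      ring
    rw [e1, hFT, e2, norm_mul, mul_pow]
    apply mul_le_mul_of_nonneg_right _ (by positivity)
    exact pow_le_pow_left₀ (norm_nonneg _) (hσ _) 2
  have h3 := sum_le_sum h2
  rw [← mul_sum, p1, p2] at h3
  have h4 : (m : ℝ) * ∑ h ∈ S', ‖T h‖ ^ 2 ≤ m * (σ ^ 2 * ∑ n ∈ I, ‖B n‖ ^ 2) := by
    calc _ ≤ _ := h3
      _ = _ := by ring
  exact h1.trans (le_of_mul_le_mul_left h4 hmr)

/-- a box of shifts -/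
noncomputable def Bx (s : ℕ) (J : Finset ℤ) : Finset (Fin s → ℤ) := Fintype.piFinset fun _ => J

/-- averaging over one coordinate -/
lemma box_avg {s : ℕ} (J : Finset ℤ) (k : Fin s) (G : (Fin s → ℤ) → ℝ) :
    (J.card : ℝ) * ∑ h ∈ Bx s J, G h = ∑ h ∈ Bx s J, ∑ t ∈ J, G (Function.update h k t) := by
  rw [← sum_product' (Bx s J) J (fun h t => G (Function.update h k t))]
  have h1 : (J.card : ℝ) * ∑ h ∈ Bx s J, G h = ∑ p ∈ Bx s J ×ˢ J, G p.1 := by
    rw [sum_product]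
    simp only [sum_const, nsmul_eq_mul]
    rw [mul_sum]
  rw [h1]
  apply sum_nbij' (fun p : (Fin s → ℤ) × ℤ => (Function.update p.1 k p.2, p.1 k))
    (fun p : (Fin s → ℤ) × ℤ => (Function.update p.1 k p.2, p.1 k))
  · intro p hp
    rw [mem_product] at hp ⊢
    unfold Bx at hp ⊢
    rw [Fintype.mem_piFinset] at hp
    refine ⟨?_, hp.1 k⟩
    rw [Fintype.mem_piFinset]
    intro i
    simp only
    by_cases h : i = k
    · subst h; rw [Function.update_self]; exact hp.2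
    · rw [Function.update_of_ne h]; exact hp.1 i
  · intro p hp
    rw [mem_product] at hp ⊢
    unfold Bx at hp ⊢
    rw [Fintype.mem_piFinset] at hp
    refine ⟨?_, hp.1 k⟩
    rw [Fintype.mem_piFinset]
    intro i
    simp only
    by_cases h : i = k
    · subst h; rw [Function.update_self]; exact hp.2
    · rw [Function.update_of_ne h]; exact hp.1 i
  · intro p _
    simp
  · intro p _
    simp
  · intro p _
    simp

/-- the hybrid products -/
noncomputable def hyb {s : ℕ} (F1 F2 : ℤ → ℂ) (a h : Fin s → ℤ) (k : ℕ) (n : ℤ) : ℂ :=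
  ∏ i : Fin s, if (i : ℕ) < k then F1 (a i * n + h i) else F2 (a i * n + h i)

/-- the product with one factor omitted -/
noncomputable def omit1 {s : ℕ} (F1 F2 : ℤ → ℂ) (a h : Fin s → ℤ) (k : Fin s) (n : ℤ) : ℂ :=
  ∏ i ∈ univ.erase k, if (i : ℕ) < k then F1 (a i * n + h i) else F2 (a i * n + h i)

lemma hyb_diff {s : ℕ} (F1 F2 : ℤ → ℂ) (a h : Fin s → ℤ) (k : Fin s) (n : ℤ) :
    hyb F1 F2 a h (k + 1) n - hyb F1 F2 a h k n =
      omit1 F1 F2 a h k n * (F1 (a k * n + h k) - F2 (a k * n + h k)) := by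
  unfold hyb omit1
  rw [← mul_prod_erase univ _ (mem_univ k), ← mul_prod_erase univ (fun i : Fin s => if (i : ℕ) < k then
    F1 (a i * n + h i) else F2 (a i * n + h i)) (mem_univ k)]
  rw [if_pos (Nat.lt_succ_self _), if_neg (lt_irrefl _)]
  have h1 : ∏ i ∈ univ.erase k, (if (i : ℕ) < (k : ℕ) + 1 then F1 (a i * n + h i) else F2 (a i * n + h i)) =
      ∏ i ∈ univ.erase k, (if (i : ℕ) < k then F1 (a i * n + h i) else F2 (a i * n + h i)) := by
    apply prod_congr rfl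
    intro i hi
    have hne : (i : ℕ) ≠ k := fun h => (ne_of_mem_erase hi) (Fin.ext h)
    by_cases h2 : (i : ℕ) < k
    · rw [if_pos h2, if_pos (by omega)]
    · rw [if_neg h2, if_neg (by omega)]
  rw [h1]
  ring

/-- **replacement in mean square over the box** -/
theorem repl_box {s : ℕ} {F1 F2 : ℤ → ℂ} {S : Finset ℤ} (h1 : SF F1 S) (h2 : SF F2 S) {σ D : ℝ}
    (hσ : ∀ θ, ‖FT F1 θ - FT F2 θ‖ ≤ σ) (hD : 1 ≤ D) (hD1 : ∀ x, ‖F1 x‖ ≤ D) (hD2 : ∀ x, ‖F2 x‖ ≤ D)
    {a : Fin s → ℤ} (ha : ∀ i, a i ≠ 0) (I J : Finset ℤ) :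
    (J.card : ℝ) * ∑ h ∈ Bx s J, ‖∑ n ∈ I, (∏ i, F1 (a i * n + h i) - ∏ i, F2 (a i * n + h i))‖ ^ 2 ≤
      (s : ℝ) ^ 2 * ((J.card : ℝ) ^ s * (σ ^ 2 * (I.card * (D ^ s) ^ 2))) := by
  have hσ0 : 0 ≤ σ := (norm_nonneg _).trans (hσ 0)
  obtain ⟨E, hE⟩ : ∃ E : Fin s → (Fin s → ℤ) → ℝ, ∀ k h, E k h =
      ‖∑ n ∈ I, omit1 F1 F2 a h k n * (F1 (a k * n + h k) - F2 (a k * n + h k))‖ := ⟨_, fun _ _ => rfl⟩
  have hone : ∀ h : Fin s → ℤ, ‖∑ n ∈ I, (∏ i, F1 (a i * n + h i) - ∏ i, F2 (a i * n + h i))‖ ^ 2 ≤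
      s * ∑ k, E k h ^ 2 := by
    intro h
    have e1 : ∑ n ∈ I, (∏ i, F1 (a i * n + h i) - ∏ i, F2 (a i * n + h i)) =
        ∑ k : Fin s, ∑ n ∈ I, omit1 F1 F2 a h k n * (F1 (a k * n + h k) - F2 (a k * n + h k)) := by
      rw [sum_comm]
      apply sum_congr rfl
      intro n _
      have e2 : ∑ k : Fin s, omit1 F1 F2 a h k n * (F1 (a k * n + h k) - F2 (a k * n + h k)) =
          ∑ k ∈ range s, (hyb F1 F2 a h (k + 1) n - hyb F1 F2 a h k n) := by
        rw [← Fin.sum_univ_eq_sum_range (fun k => hyb F1 F2 a h (k + 1) n - hyb F1 F2 a h k n) s]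
        apply sum_congr rfl
        intro k _
        rw [hyb_diff]
      rw [e2, sum_range_sub (fun k => hyb F1 F2 a h k n)]
      unfold hyb
      congr 1
      apply prod_congr rfl
      intro i _
      rw [if_pos i.2]
    rw [e1]
    have e3 : ‖∑ k : Fin s, ∑ n ∈ I, omit1 F1 F2 a h k n * (F1 (a k * n + h k) - F2 (a k * n + h k))‖ ≤ ∑ k, E k h := by
      refine (norm_sum_le _ _).trans (le_of_eq ?_)
      simp only [hE]
    calc _ ≤ (∑ k, E k h) ^ 2 := pow_le_pow_left₀ (norm_nonneg _) e3 2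
      _ ≤ s * ∑ k, E k h ^ 2 := by
        have := sq_sum_le_card_mul_sum_sq (s := (univ : Finset (Fin s))) (f := fun k => E k h)
        simpa using this
  have hB : ∀ (k : Fin s) (h : Fin s → ℤ) (n : ℤ), ‖omit1 F1 F2 a h k n‖ ≤ D ^ s := by
    intro k h n
    unfold omit1
    rw [norm_prod]
    calc ∏ i ∈ univ.erase k, ‖if (i : ℕ) < k then F1 (a i * n + h i) else F2 (a i * n + h i)‖ ≤
        ∏ i ∈ univ.erase k, D := by
          apply prod_le_prod
          · intro _ _; positivity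
          · intro i _
            split_ifs
            · exact hD1 _
            · exact hD2 _
      _ = D ^ (univ.erase k).card := by rw [prod_const]
      _ ≤ D ^ s := by
        apply pow_le_pow_right₀ hD
        rw [card_erase_of_mem (mem_univ k), card_univ, Fintype.card_fin]
        omega
  have hk : ∀ k : Fin s, (J.card : ℝ) * ∑ h ∈ Bx s J, E k h ^ 2 ≤
      (J.card : ℝ) ^ s * (σ ^ 2 * (I.card * (D ^ s) ^ 2)) := by
    intro k
    rw [box_avg J k]
    have e1 : ∀ h ∈ Bx s J, ∑ t ∈ J, E k (Function.update h k t) ^ 2 ≤ σ ^ 2 * (I.card * (D ^ s) ^ 2) := by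
      intro h _
      have e2 : ∀ t ∈ J, E k (Function.update h k t) ^ 2 =
          ‖∑ n ∈ I, omit1 F1 F2 a h k n * (fun x => F1 x - F2 x) (a k * n + t)‖ ^ 2 := by
        intro t _
        rw [hE]
        congr 3
        ext n
        rw [Function.update_self]
        congr 1
        unfold omit1
        apply prod_congr rfl
        intro i hi
        rw [Function.update_of_ne (ne_of_mem_erase hi)]
      rw [sum_congr rfl e2]
      have e3 := repl_one (F := fun x => F1 x - F2 x) (S := S) (by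
        intro n hn; simp only; rw [h1 n hn, h2 n hn, sub_zero]) (σ := σ) (by
        intro θ; rw [FT_sub h1 h2]; exact hσ θ) (ha k) I J (fun n => omit1 F1 F2 a h k n)
      refine e3.trans ?_
      apply mul_le_mul_of_nonneg_left _ (by positivity)
      calc ∑ n ∈ I, ‖omit1 F1 F2 a h k n‖ ^ 2 ≤ ∑ n ∈ I, (D ^ s) ^ 2 :=
            sum_le_sum fun n _ => pow_le_pow_left₀ (norm_nonneg _) (hB k h n) 2
        _ = _ := by rw [sum_const, nsmul_eq_mul]
    refine (sum_le_sum e1).trans ?_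
    rw [sum_const, nsmul_eq_mul]
    have e4 : (Bx s J).card = J.card ^ s := by
      unfold Bx
      rw [Fintype.card_piFinset, prod_const, card_univ, Fintype.card_fin]
    rw [e4]
    push_cast
    exact le_refl _
  calc (J.card : ℝ) * ∑ h ∈ Bx s J, ‖∑ n ∈ I, (∏ i, F1 (a i * n + h i) - ∏ i, F2 (a i * n + h i))‖ ^ 2 ≤
      (J.card : ℝ) * ∑ h ∈ Bx s J, (s * ∑ k, E k h ^ 2) :=
        mul_le_mul_of_nonneg_left (sum_le_sum fun h _ => hone h) (Nat.cast_nonneg _)
    _ = s * ∑ k, ((J.card : ℝ) * ∑ h ∈ Bx s J, E k h ^ 2) := by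
        rw [← mul_sum, sum_comm, ← mul_sum]
        ring
    _ ≤ s * ∑ k : Fin s, ((J.card : ℝ) ^ s * (σ ^ 2 * (I.card * (D ^ s) ^ 2))) :=
        mul_le_mul_of_nonneg_left (sum_le_sum fun k _ => hk k) (Nat.cast_nonneg _)
    _ = _ := by
        rw [sum_const, card_univ, Fintype.card_fin, nsmul_eq_mul]
        ring

end Pool.Agent.Helper86.PS
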