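import Pool.Agent.Helper86.PS.F9
import Pool.Agent.Helper86.PS.G1

set_option autoImplicit false

/-!
# Pointwise bounds and the truncated model
-/

open Finset

namespace Pool.Agent.Helper86.PS

open Pool.Agent.H807R2.Dav

lemma two_pow_omega {η : ℝ} (hη : 0 < η) : ∃ C : ℝ, 1 ≤ C ∧ ∀ n : ℕ, 1 ≤ n → (2 : ℝ) ^ n.primeFactors.card ≤ C * (n : ℝ) ^ η := by
  obtain ⟨P0, hP0⟩ := exists_nat_ge ((2 : ℝ) ^ (1 / η))
  refine ⟨2 ^ P0, one_le_pow₀ (by norm_num), fun n hn => ?_⟩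
  have hn0 : (0 : ℝ) < n := by exact_mod_cast hn
  have h1 : n.primeFactors.card = (n.primeFactors.filter (fun p => p ≤ P0)).card +
      (n.primeFactors.filter (fun p => ¬ p ≤ P0)).card := (card_filter_add_card_filter_not _).symm
  rw [h1, pow_add]
  have h2 : (n.primeFactors.filter (fun p => p ≤ P0)).card ≤ P0 := by
    have : n.primeFactors.filter (fun p => p ≤ P0) ⊆ Icc 1 P0 := by
      intro p hp
      rw [mem_filter] at hp
      rw [mem_Icc]
      exact ⟨(Nat.prime_of_mem_primeFactors hp.1).pos, hp.2⟩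
    simpa using card_le_card this
  have h3 : (2 : ℝ) ^ (n.primeFactors.filter (fun p => ¬ p ≤ P0)).card ≤ (n : ℝ) ^ η := by
    calc (2 : ℝ) ^ (n.primeFactors.filter (fun p => ¬ p ≤ P0)).card =
        ∏ p ∈ n.primeFactors.filter (fun p => ¬ p ≤ P0), (2 : ℝ) := by rw [prod_const]
      _ ≤ ∏ p ∈ n.primeFactors.filter (fun p => ¬ p ≤ P0), (p : ℝ) ^ η := by
          apply prod_le_prod
          · intro _ _; norm_num
          · intro p hp
            rw [mem_filter, not_le] at hp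
            have e1 : (2 : ℝ) ^ (1 / η) ≤ p := hP0.trans (by exact_mod_cast hp.2.le)
            calc (2 : ℝ) = ((2 : ℝ) ^ (1 / η)) ^ η := by
                  rw [← Real.rpow_mul (by norm_num), one_div_mul_cancel hη.ne', Real.rpow_one]
              _ ≤ _ := Real.rpow_le_rpow (by positivity) e1 hη.le
      _ = (∏ p ∈ n.primeFactors.filter (fun p => ¬ p ≤ P0), (p : ℝ)) ^ η := by
          rw [Real.finsetProd_rpow _ _ (fun p _ => Nat.cast_nonneg p)]
      _ ≤ _ := by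
          apply Real.rpow_le_rpow (by positivity) _ hη.le
          have e2 : ∏ p ∈ n.primeFactors.filter (fun p => ¬ p ≤ P0), p ≤ n := by
            apply Nat.le_of_dvd hn
            exact (Finset.prod_dvd_prod_of_subset _ _ _ (filter_subset _ _)).trans (Nat.prod_primeFactors_dvd n)
          have e3 : ((∏ p ∈ n.primeFactors.filter (fun p => ¬ p ≤ P0), p : ℕ) : ℝ) ≤ n := Nat.cast_le.2 e2
          rw [Nat.cast_prod] at e3
          exact e3
  have h4 : (2 : ℝ) ^ (n.primeFactors.filter (fun p => p ≤ P0)).card ≤ 2 ^ P0 :=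
    pow_le_pow_right₀ (by norm_num) h2
  exact mul_le_mul h4 h3 (by positivity) (by positivity)

lemma up_abs_eq {p : ℕ} (hp : p.Prime) (x : ℤ) : |up p x| = if (p : ℤ) ∣ x then 1 else 1 / ((p : ℝ) - 1) := by
  unfold up
  have h := prime_sub hp
  split_ifs
  · simp
  · rw [abs_of_nonneg (by positivity)]

lemma VR_triv (R : ℕ) (x : ℤ) : |VR R x| ≤ R := by
  unfold VR
  refine (abs_sum_le_sum_abs _ _).trans ?_
  have h1 : ∀ S ∈ SS R, |∏ p ∈ S, up p x| ≤ 1 := by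
    intro S hS
    rw [abs_prod]
    exact prod_le_one (fun _ _ => abs_nonneg _) fun p hp => up_abs (SS_prime hS p hp) x
  refine (sum_le_sum h1).trans ?_
  rw [sum_const, nsmul_eq_mul, mul_one]
  exact_mod_cast card_SS R

lemma sum_inv_phi (R : ℕ) : ∑ S ∈ SS R, ∏ p ∈ S, 1 / ((p : ℝ) - 1) ≤ (Nat.log 2 R + 1) * (1 + Real.log R) := by
  have h1 : ∀ S ∈ SS R, ∏ p ∈ S, 1 / ((p : ℝ) - 1) ≤ (Nat.log 2 R + 1) * (1 / ((∏ p ∈ S, p : ℕ) : ℝ)) := by
    intro S hS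
    have hpos : (0 : ℝ) < ((∏ p ∈ S, p : ℕ) : ℝ) := by
      exact_mod_cast Finset.prod_pos fun p hp => (SS_prime hS p hp).pos
    have e1 : ∏ p ∈ S, 1 / ((p : ℝ) - 1) = (∏ p ∈ S, ((p : ℝ) / (p - 1))) * (1 / ((∏ p ∈ S, p : ℕ) : ℝ)) := by
      have : ∏ p ∈ S, ((p : ℝ) / (p - 1)) = ((∏ p ∈ S, p : ℕ) : ℝ) * ∏ p ∈ S, 1 / ((p : ℝ) - 1) := by
        push_cast
        rw [← prod_mul_distrib]
        exact prod_congr rfl fun p _ => by ring
      rw [this]
      field_simp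
    rw [e1]
    apply mul_le_mul_of_nonneg_right _ (by positivity)
    refine (prod_ratio_le S fun p hp => (SS_prime hS p hp).two_le).trans ?_
    have h4 : S.card ≤ Nat.log 2 R := card_le_log (fun p hp => (SS_prime hS p hp).two_le) (SS_prod hS)
    have : (S.card : ℝ) ≤ Nat.log 2 R := by exact_mod_cast h4
    linarith
  refine (sum_le_sum h1).trans ?_
  rw [← mul_sum]
  apply mul_le_mul_of_nonneg_left _ (by positivity)
  refine le_trans ?_ (harm_le R)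
  have h2 : ∑ S ∈ SS R, 1 / ((∏ p ∈ S, p : ℕ) : ℝ) = ∑ n ∈ (SS R).image (fun S => ∏ p ∈ S, p), (1 : ℝ) / n := by
    rw [sum_image]
    intro S hS T hT h
    rw [mem_coe] at hS hT
    exact prod_inj (SS_prime hS) (SS_prime hT) h
  rw [h2]
  apply sum_le_sum_of_subset_of_nonneg
  · intro n hn
    rw [mem_image] at hn
    obtain ⟨S, hS, rfl⟩ := hn
    rw [mem_Icc]
    exact ⟨Nat.one_le_iff_ne_zero.2 (Finset.prod_pos fun p hp => (SS_prime hS p hp).pos).ne', SS_prod hS⟩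
  · intro _ _ _; positivity

lemma VR_bound (R : ℕ) {x : ℤ} (hx : x ≠ 0) :
    |VR R x| ≤ 2 ^ x.natAbs.primeFactors.card * ((Nat.log 2 R + 1) * (1 + Real.log R)) := by
  obtain ⟨P, hP⟩ : ∃ P : Finset ℕ, P = x.natAbs.primeFactors := ⟨_, rfl⟩
  rw [← hP]
  have hPx : ∀ p : ℕ, p.Prime → (p ∈ P ↔ (p : ℤ) ∣ x) := by
    intro p hp
    rw [hP, Nat.mem_primeFactors, Int.natCast_dvd]
    constructor
    · rintro ⟨_, h, _⟩; exact h
    · intro h; exact ⟨hp, h, by simpa using hx⟩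
  unfold VR
  refine (abs_sum_le_sum_abs _ _).trans ?_
  have h1 : ∀ S ∈ SS R, |∏ p ∈ S, up p x| = ∏ p ∈ S.filter (fun p => p ∉ P), 1 / ((p : ℝ) - 1) := by
    intro S hS
    rw [abs_prod, prod_filter]
    apply prod_congr rfl
    intro p hp
    have hpp := SS_prime hS p hp
    rw [up_abs_eq hpp]
    by_cases h : (p : ℤ) ∣ x
    · rw [if_pos h, if_neg (not_not.2 ((hPx p hpp).2 h))]
    · rw [if_neg h, if_pos (fun hc => h ((hPx p hpp).1 hc))]
  rw [sum_congr rfl h1]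
  have h2 : ∑ S ∈ SS R, ∏ p ∈ S.filter (fun p => p ∉ P), 1 / ((p : ℝ) - 1) ≤
      ∑ q ∈ P.powerset ×ˢ SS R, (fun q : Finset ℕ × Finset ℕ => ∏ p ∈ q.2, 1 / ((p : ℝ) - 1)) q := by
    have h3 : ∑ S ∈ SS R, ∏ p ∈ S.filter (fun p => p ∉ P), 1 / ((p : ℝ) - 1) =
        ∑ q ∈ (SS R).image (fun S : Finset ℕ => (S.filter (fun p => p ∈ P), S.filter (fun p => p ∉ P))),
          (fun q : Finset ℕ × Finset ℕ => ∏ p ∈ q.2, 1 / ((p : ℝ) - 1)) q := by
      rw [sum_image]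
      intro S _ T _ h
      simp only [Prod.mk.injEq] at h
      rw [← filter_union_filter_not_eq (fun p => p ∈ P) S, ← filter_union_filter_not_eq (fun p => p ∈ P) T, h.1, h.2]
    rw [h3]
    apply sum_le_sum_of_subset_of_nonneg
    · intro q hq
      rw [mem_image] at hq
      obtain ⟨S, hS, rfl⟩ := hq
      rw [mem_product, mem_powerset]
      refine ⟨fun p hp => (mem_filter.1 hp).2, mem_SS (fun p hp => SS_prime hS p (mem_filter.1 hp).1) ?_⟩
      refine le_trans ?_ (SS_prod hS)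
      apply Finset.prod_le_prod_of_subset_of_one_le' (filter_subset _ _)
      intro p hp _
      exact (SS_prime hS p hp).pos
    · intro q hq _
      rw [mem_product] at hq
      apply prod_nonneg
      intro p hp
      have := prime_sub (SS_prime hq.2 p hp)
      positivity
  refine h2.trans ?_
  rw [sum_product]
  simp only
  rw [sum_const, nsmul_eq_mul, card_powerset]
  push_cast
  exact mul_le_mul_of_nonneg_left (sum_inv_phi R) (by positivity)

/-- pointwise bound for the truncated product -/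
lemma VR_small (CR L2 : ℕ) {κ : ℝ} (hκ : 0 < κ) : ∃ Q0 : ℕ, ∀ Q : ℕ, Q0 ≤ Q → ∀ x : ℤ, x ≠ 0 → |x| ≤ 2 * (Q : ℤ) ^ L2 →
    |VR (Q ^ CR) x| ≤ (Q : ℝ) ^ κ := by
  obtain ⟨C, hC1, hC⟩ := two_pow_omega (η := κ / (2 * (L2 + 1))) (by positivity)
  obtain ⟨K, hK⟩ : ∃ K : ℝ, K = C * (2 : ℝ) ^ (κ / (2 * (L2 + 1))) * ((2 * CR + 1) * (1 + CR)) := ⟨_, rfl⟩
  obtain ⟨Q1, hQ1⟩ := ev_log K 2 (a := κ / 2) (by positivity)
  refine ⟨Q1 + 3, fun Q hQ x hx0 hx => ?_⟩
  have hQ3 : (3 : ℝ) ≤ Q := by exact_mod_cast (by omega : 3 ≤ Q)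
  have hQ0 : (0 : ℝ) < Q := by linarith
  have hQ1' : (1 : ℝ) ≤ Q := by linarith
  obtain ⟨ℓ, hℓ⟩ : ∃ ℓ : ℝ, ℓ = Real.log Q := ⟨_, rfl⟩
  have hℓ1 : 1 ≤ ℓ := by
    rw [hℓ, Real.le_log_iff_exp_le hQ0]
    linarith [Real.exp_one_lt_d9]
  have h1 := VR_bound (Q ^ CR) hx0
  have hnat : 1 ≤ x.natAbs := Nat.one_le_iff_ne_zero.2 (by simpa using hx0)
  have h2 := hC x.natAbs hnat
  have hxr : (x.natAbs : ℝ) ≤ 2 * (Q : ℝ) ^ L2 := by
    have e1 : ((x.natAbs : ℤ)) ≤ 2 * (Q : ℤ) ^ L2 := by rw [← Int.abs_eq_natAbs]; exact hx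
    exact_mod_cast e1
  have h3 : (x.natAbs : ℝ) ^ (κ / (2 * (L2 + 1))) ≤ (2 : ℝ) ^ (κ / (2 * (L2 + 1))) * (Q : ℝ) ^ (κ / 2) := by
    calc (x.natAbs : ℝ) ^ (κ / (2 * (L2 + 1))) ≤ (2 * (Q : ℝ) ^ L2) ^ (κ / (2 * (L2 + 1))) :=
          Real.rpow_le_rpow (Nat.cast_nonneg _) hxr (by positivity)
      _ = (2 : ℝ) ^ (κ / (2 * (L2 + 1))) * ((Q : ℝ) ^ L2) ^ (κ / (2 * (L2 + 1))) :=
          Real.mul_rpow (by norm_num) (by positivity)
      _ ≤ _ := by
        apply mul_le_mul_of_nonneg_left _ (by positivity)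
        rw [← Real.rpow_natCast, ← Real.rpow_mul hQ0.le]
        apply Real.rpow_le_rpow_of_exponent_le hQ1'
        rw [mul_div_assoc', div_le_div_iff₀ (by positivity) (by norm_num)]
        nlinarith
  have hlogR : Real.log (Q ^ CR : ℕ) = CR * ℓ := by push_cast; rw [Real.log_pow, hℓ]
  have hlog2 := log2_le (R := Q ^ CR) (Nat.one_le_pow _ _ (by omega))
  rw [hlogR] at hlog2 h1
  have hCR0 : (0 : ℝ) ≤ CR := Nat.cast_nonneg _
  have h4 : ((Nat.log 2 (Q ^ CR) : ℝ) + 1) * (1 + CR * ℓ) ≤ (2 * CR + 1) * (1 + CR) * ℓ ^ 2 := by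
    have e1 : (Nat.log 2 (Q ^ CR) : ℝ) + 1 ≤ (2 * CR + 1) * ℓ := by nlinarith
    have e2 : 1 + CR * ℓ ≤ (1 + CR) * ℓ := by nlinarith
    calc _ ≤ ((2 * CR + 1) * ℓ) * ((1 + CR) * ℓ) := mul_le_mul e1 e2 (by positivity) (by positivity)
      _ = _ := by ring
  have h5 := hQ1 Q (by omega)
  rw [← hℓ] at h5
  calc |VR (Q ^ CR) x| ≤ 2 ^ x.natAbs.primeFactors.card * (((Nat.log 2 (Q ^ CR) : ℝ) + 1) * (1 + CR * ℓ)) := h1
    _ ≤ (C * ((2 : ℝ) ^ (κ / (2 * (L2 + 1))) * (Q : ℝ) ^ (κ / 2))) * ((2 * CR + 1) * (1 + CR) * ℓ ^ 2) := by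
        apply mul_le_mul (h2.trans (mul_le_mul_of_nonneg_left h3 (by linarith))) h4 (by positivity) (by positivity)
    _ = (K * ℓ ^ 2) * (Q : ℝ) ^ (κ / 2) := by rw [hK]; ring
    _ ≤ (Q : ℝ) ^ (κ / 2) * (Q : ℝ) ^ (κ / 2) := mul_le_mul_of_nonneg_right h5 (by positivity)
    _ = (Q : ℝ) ^ κ := by rw [← Real.rpow_add hQ0]; congr 1; ring

/-- restriction to a range -/
noncomputable def cut (Y X : ℤ) (f : ℤ → ℂ) (x : ℤ) : ℂ := if Y ≤ x ∧ x ≤ X then f x else 0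

lemma SF_cut {f : ℤ → ℂ} {S : Finset ℤ} (h : SF f S) (Y X : ℤ) : SF (cut Y X f) S := by
  intro n hn
  unfold cut
  rw [h n hn]
  simp

lemma SF_LB (Q R M H : ℕ) : SF (LB Q R M H) (Icc (-(H : ℤ)) (M + H)) := by
  intro n hn
  unfold LB
  apply sum_eq_zero
  intro j _
  rw [SF_wj M H j n hn, mul_zero]

lemma LB_norm {Q R M H : ℕ} {x : ℤ} : ‖LB Q R M H x‖ ≤ |VR R x| * ∑ j ∈ fam Q, ‖wj M H j x‖ := by
  unfold LB
  rw [mul_sum]
  apply norm_sum_le_of_le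
  intro j _
  rw [norm_mul, norm_mul, Complex.norm_real, Real.norm_eq_abs]
  have := cz_norm_le j x
  calc |VR R x| * ‖cz j x‖ * ‖wj M H j x‖ ≤ |VR R x| * 1 * ‖wj M H j x‖ := by gcongr
    _ = _ := by ring

lemma LB_norm_triv {Q R M H : ℕ} {x : ℤ} : ‖LB Q R M H x‖ ≤ |VR R x| * ((Q : ℝ) ^ 2 * Real.log M) := by
  refine LB_norm.trans ?_
  apply mul_le_mul_of_nonneg_left _ (abs_nonneg _)
  have hl := Real.log_natCast_nonneg M
  calc ∑ j ∈ fam Q, ‖wj M H j x‖ ≤ ∑ j ∈ fam Q, Real.log M := sum_le_sum fun j _ => wj_norm M H j x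
    _ = (fam Q).card * Real.log M := by rw [sum_const, nsmul_eq_mul]
    _ ≤ _ := mul_le_mul_of_nonneg_right (card_fam Q) hl

/-- the Fourier transform of the truncated difference -/
lemma cut_FT {Q R M H Y : ℕ} (hHM : H ≤ M) {σ V : ℝ} (hV0 : 0 ≤ V)
    (hσ : ∀ θ, ‖FT (Lam M) θ - FT (LB Q R M H) θ‖ ≤ σ)
    (hV : ∀ x : ℤ, x ≠ 0 → |x| ≤ 2 * M → |VR R x| ≤ V) (θ : ℝ) :
    ‖FT (cut Y (M - H) (Lam M)) θ - FT (cut Y (M - H) (LB Q R M H)) θ‖ ≤
      σ + ((Y + 3 * H + 2) * (Real.log M + V * ((Q : ℝ) ^ 2 * Real.log M)) + (Real.log M + R * ((Q : ℝ) ^ 2 * Real.log M))) := by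
  have hl := Real.log_natCast_nonneg M
  have hS1 : SF (Lam M) (Icc (-(H : ℤ)) (M + H)) := SF_mono (SF_Lam M) (by
    apply Icc_subset_Icc <;> omega)
  have hS2 := SF_LB Q R M H
  obtain ⟨D, hD⟩ : ∃ D : ℤ → ℂ, D = fun x => (Lam M x - LB Q R M H x) -
    (cut Y (M - H) (Lam M) x - cut Y (M - H) (LB Q R M H) x) := ⟨_, rfl⟩
  have hDS : SF D (Icc (-(H : ℤ)) (M + H)) := by
    intro n hn
    rw [hD]
    simp only
    rw [hS1 n hn, hS2 n hn, SF_cut hS1 _ _ n hn, SF_cut hS2 _ _ n hn]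
    simp
  have h1 : FT (cut Y (M - H) (Lam M)) θ - FT (cut Y (M - H) (LB Q R M H)) θ =
      (FT (Lam M) θ - FT (LB Q R M H) θ) - FT D θ := by
    rw [← FT_sub (SF_cut hS1 _ _) (SF_cut hS2 _ _), ← FT_sub hS1 hS2]
    have hA : SF (fun n => Lam M n - LB Q R M H n) (Icc (-(H : ℤ)) (M + H)) := by
      intro n hn; simp only; rw [hS1 n hn, hS2 n hn, sub_zero]
    rw [← FT_sub hA hDS]
    congr 1
    ext n
    rw [hD]
    ring
  rw [h1]
  refine (norm_sub_le _ _).trans (add_le_add (hσ θ) ?_)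
  refine (FT_norm_le hDS θ).trans ?_
  have h2 : ∀ n ∈ Icc (-(H : ℤ)) (M + H), ‖D n‖ ≤
      (if n ∈ Icc (-(H : ℤ)) Y then Real.log M + V * ((Q : ℝ) ^ 2 * Real.log M) else 0) +
      (if n ∈ Icc ((M : ℤ) - H) (M + H) then Real.log M + V * ((Q : ℝ) ^ 2 * Real.log M) else 0) +
      (if n ∈ Icc (0 : ℤ) 0 then Real.log M + R * ((Q : ℝ) ^ 2 * Real.log M) else 0) := by
    intro n hn
    rw [mem_Icc] at hn
    have p1 : (0 : ℝ) ≤ (if n ∈ Icc (-(H : ℤ)) Y then Real.log M + V * ((Q : ℝ) ^ 2 * Real.log M) else 0) := by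
      split_ifs <;> positivity
    have p2 : (0 : ℝ) ≤ (if n ∈ Icc ((M : ℤ) - H) (M + H) then Real.log M + V * ((Q : ℝ) ^ 2 * Real.log M) else 0) := by
      split_ifs <;> positivity
    have p3 : (0 : ℝ) ≤ (if n ∈ Icc (0 : ℤ) 0 then Real.log M + R * ((Q : ℝ) ^ 2 * Real.log M) else 0) := by
      split_ifs <;> positivity
    have hDn : ‖D n‖ ≤ ‖Lam M n‖ + ‖LB Q R M H n‖ := by
      rw [hD]
      simp only
      unfold cut
      by_cases hc : (Y : ℤ) ≤ n ∧ n ≤ (M : ℤ) - H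
      · rw [if_pos hc, if_pos hc, sub_self, norm_zero]; positivity
      · rw [if_neg hc, if_neg hc, sub_self, sub_zero]
        exact norm_sub_le _ _
    by_cases hn0 : n = 0
    · subst hn0
      have q : (if (0 : ℤ) ∈ Icc (0 : ℤ) 0 then Real.log M + R * ((Q : ℝ) ^ 2 * Real.log M) else 0) =
          Real.log M + R * ((Q : ℝ) ^ 2 * Real.log M) := if_pos (by simp)
      rw [q]
      have e1 : ‖LB Q R M H 0‖ ≤ R * ((Q : ℝ) ^ 2 * Real.log M) := by
        refine LB_norm_triv.trans ?_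
        exact mul_le_mul_of_nonneg_right (VR_triv R 0) (by positivity)
      linarith [Lam_norm M 0]
    by_cases hc : (Y : ℤ) ≤ n ∧ n ≤ (M : ℤ) - H
    · have : D n = 0 := by
        rw [hD]
        simp only
        unfold cut
        rw [if_pos hc, if_pos hc, sub_self]
      rw [this, norm_zero]
      linarith
    · have e1 : ‖LB Q R M H n‖ ≤ V * ((Q : ℝ) ^ 2 * Real.log M) := by
        refine LB_norm_triv.trans ?_
        apply mul_le_mul_of_nonneg_right _ (by positivity)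
        apply hV n hn0
        rw [abs_le]; constructor <;> omega
      have e2 := Lam_norm M n
      rw [not_and_or, not_le, not_le] at hc
      rcases hc with hc | hc
      · have q : (if n ∈ Icc (-(H : ℤ)) Y then Real.log M + V * ((Q : ℝ) ^ 2 * Real.log M) else 0) =
            Real.log M + V * ((Q : ℝ) ^ 2 * Real.log M) := if_pos (mem_Icc.2 ⟨hn.1, hc.le⟩)
        rw [q]
        linarith
      · have q : (if n ∈ Icc ((M : ℤ) - H) (M + H) then Real.log M + V * ((Q : ℝ) ^ 2 * Real.log M) else 0) =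
            Real.log M + V * ((Q : ℝ) ^ 2 * Real.log M) := if_pos (mem_Icc.2 ⟨hc.le, hn.2⟩)
        rw [q]
        linarith
  refine (sum_le_sum h2).trans ?_
  rw [sum_add_distrib, sum_add_distrib, ← sum_filter, ← sum_filter, ← sum_filter]
  simp only [sum_const, nsmul_eq_mul]
  have c1 : (((Icc (-(H : ℤ)) (M + H)).filter (fun n => n ∈ Icc (-(H : ℤ)) Y)).card : ℝ) ≤ Y + H + 1 := by
    have h2 : ((Icc (-(H : ℤ)) (M + H)).filter (fun n => n ∈ Icc (-(H : ℤ)) Y)).card ≤ (Icc (-(H : ℤ)) Y).card :=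
      card_le_card fun n hn => (mem_filter.1 hn).2
    have h3 := card_int_Icc (-(H : ℤ)) Y (by omega)
    have h4 : (((Icc (-(H : ℤ)) (M + H)).filter (fun n => n ∈ Icc (-(H : ℤ)) Y)).card : ℝ) ≤
        ((Icc (-(H : ℤ)) (Y : ℤ)).card : ℝ) := by exact_mod_cast h2
    rw [h3] at h4
    push_cast at h4
    linarith
  have c2 : (((Icc (-(H : ℤ)) (M + H)).filter (fun n => n ∈ Icc (0 : ℤ) 0)).card : ℝ) ≤ 1 := by
    have h2 : ((Icc (-(H : ℤ)) (M + H)).filter (fun n => n ∈ Icc (0 : ℤ) 0)).card ≤ (Icc (0 : ℤ) 0).card :=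
      card_le_card fun n hn => (mem_filter.1 hn).2
    have h4 : (Icc (0 : ℤ) 0).card = 1 := by simp
    rw [h4] at h2
    exact_mod_cast h2
  have c3 : (((Icc (-(H : ℤ)) (M + H)).filter (fun n => n ∈ Icc ((M : ℤ) - H) (M + H))).card : ℝ) ≤ 2 * H + 1 := by
    have h2 : ((Icc (-(H : ℤ)) (M + H)).filter (fun n => n ∈ Icc ((M : ℤ) - H) (M + H))).card ≤
        (Icc ((M : ℤ) - H) (M + H)).card := card_le_card fun n hn => (mem_filter.1 hn).2
    have h3 := card_int_Icc ((M : ℤ) - H) (M + H) (by omega)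
    have h4 : (((Icc (-(H : ℤ)) (M + H)).filter (fun n => n ∈ Icc ((M : ℤ) - H) (M + H))).card : ℝ) ≤
        ((Icc ((M : ℤ) - H) ((M : ℤ) + H)).card : ℝ) := by exact_mod_cast h2
    rw [h3] at h4
    push_cast at h4
    linarith
  have q1 : 0 ≤ Real.log M + V * ((Q : ℝ) ^ 2 * Real.log M) := by positivity
  have q2 : 0 ≤ Real.log M + R * ((Q : ℝ) ^ 2 * Real.log M) := by positivity
  have d1 := mul_le_mul_of_nonneg_right c1 q1
  have d2 := mul_le_mul_of_nonneg_right c2 q2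
  have d3 := mul_le_mul_of_nonneg_right c3 q1
  linarith

end Pool.Agent.Helper86.PS
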