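import Pool.Agent.Helper86.PS.G2

set_option autoImplicit false

/-!
# The mean square bound with the parameters fixed
-/

open Finset

namespace Pool.Agent.Helper86.PS

open Pool.Agent.H807R2.Dav

/-- the truncated von Mangoldt function -/
noncomputable def cL (Q M : ℕ) : ℤ → ℂ := cut ((M / Q ^ 3 : ℕ) : ℤ) ((M : ℤ) - (M / Q ^ 4 : ℕ)) (Lam M)

/-- the truncated model -/
noncomputable def cB (Q CR M : ℕ) : ℤ → ℂ :=
  cut ((M / Q ^ 3 : ℕ) : ℤ) ((M : ℤ) - (M / Q ^ 4 : ℕ)) (LB Q (Q ^ CR) M (M / Q ^ 4))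

/-- the window property -/
def HW (Q M : ℕ) (B : PC → ℝ) : Prop := (∀ j ∈ fam Q, 0 ≤ B j) ∧
  ∀ j ∈ fam Q, ∀ n : ℤ, ((M / Q ^ 3 : ℕ) : ℤ) ≤ n → n + (M / Q ^ 4 : ℕ) ≤ M → ‖wj M (M / Q ^ 4) j n - dl j‖ ≤ B j

lemma cB_norm {Q CR M : ℕ} {B : PC → ℝ} {V : ℝ} (hV0 : 0 ≤ V) (hw : HW Q M B) (hBs : ∑ j ∈ fam Q, B j ≤ 1)
    (hY : 0 < M / Q ^ 3) (hV : ∀ x : ℤ, x ≠ 0 → |x| ≤ 2 * M → |VR (Q ^ CR) x| ≤ V) (x : ℤ) : ‖cB Q CR M x‖ ≤ 2 * V := by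
  unfold cB cut
  split_ifs with hx
  · refine LB_norm.trans ?_
    have h1 : |VR (Q ^ CR) x| ≤ V := by
      have q0 : (0 : ℤ) ≤ ((M / Q ^ 4 : ℕ) : ℤ) := Int.natCast_nonneg _
      have q1 : (0 : ℤ) < ((M / Q ^ 3 : ℕ) : ℤ) := by exact_mod_cast hY
      have q2 : (0 : ℤ) ≤ M := Int.natCast_nonneg _
      apply hV x (by intro hc; rw [hc] at hx; linarith [hx.1])
      rw [abs_le]; constructor <;> linarith [hx.1, hx.2]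
    have h2 : ∑ j ∈ fam Q, ‖wj M (M / Q ^ 4) j x‖ ≤ 2 := by
      have h3 : ∀ j ∈ fam Q, ‖wj M (M / Q ^ 4) j x‖ ≤ ‖dl j‖ + B j := by
        intro j hj
        have h4 := hw.2 j hj x hx.1 (by linarith [hx.2])
        have h5 := norm_add_le (dl j) (wj M (M / Q ^ 4) j x - dl j)
        rw [add_sub_cancel] at h5
        linarith
      refine (sum_le_sum h3).trans ?_
      rw [sum_add_distrib]
      linarith [sum_dl Q]
    calc |VR (Q ^ CR) x| * ∑ j ∈ fam Q, ‖wj M (M / Q ^ 4) j x‖ ≤ V * 2 :=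
          mul_le_mul h1 h2 (sum_nonneg fun _ _ => norm_nonneg _) hV0
      _ = _ := by ring
  · rw [norm_zero]; positivity

lemma cL_norm (Q M : ℕ) (x : ℤ) : ‖cL Q M x‖ ≤ Real.log M := by
  unfold cL cut
  split_ifs
  · exact Lam_norm M x
  · rw [norm_zero]; exact Real.log_natCast_nonneg M

lemma rpow_aux {Q : ℝ} (hQ : 1 ≤ Q) {a b : ℝ} (h : a ≤ b) : Q ^ a ≤ Q ^ b := Real.rpow_le_rpow_of_exponent_le hQ h

/-- **mean square bound** -/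
theorem l2_main (s : ℕ) (hs : 1 ≤ s) (CR L2 : ℕ) (hCR : 1 ≤ CR) : ∃ Q0 : ℕ, ∀ Q : ℕ, Q0 ≤ Q → ∀ M : ℕ,
    Q ^ (6 * CR + 20) ≤ M → M ≤ Q ^ L2 → ∀ B : PC → ℝ, HW Q M B → ∑ j ∈ fam Q, B j ≤ 1 →
    ∀ a : Fin s → ℤ, (∀ i, a i ≠ 0) → ∀ I J : Finset ℤ,
    (J.card : ℝ) * ∑ h ∈ Bx s J, ‖∑ n ∈ I, (∏ i, cL Q M (a i * n + h i) - ∏ i, cB Q CR M (a i * n + h i))‖ ^ 2 ≤
      (J.card : ℝ) ^ s * I.card * ((M : ℝ) ^ 2 * (Q : ℝ) ^ (-(3 / 8) : ℝ)) := by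
  have hsr : (1 : ℝ) ≤ s := by exact_mod_cast hs
  obtain ⟨κ, hκ⟩ : ∃ κ : ℝ, κ = 1 / (32 * s) := ⟨_, rfl⟩
  have hκ0 : 0 < κ := by rw [hκ]; positivity
  have hκ1 : κ ≤ 1 / 32 := by
    rw [hκ]; apply one_div_le_one_div_of_le (by norm_num); linarith
  obtain ⟨Q1, hQ1⟩ := fourier_main CR L2 hCR
  obtain ⟨Q2, hQ2⟩ := VR_small CR L2 hκ0
  obtain ⟨Q3, hQ3⟩ := ev_log (L2 : ℝ) 1 hκ0
  obtain ⟨Q4, hQ4⟩ := ev_log (14 * L2 : ℝ) 1 (a := 1 / 4) (by norm_num)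
  obtain ⟨Q5, hQ5⟩ := ev_log (4 * (s : ℝ) ^ 2 * 4 ^ s) 0 (a := 1 / 16) (by norm_num)
  refine ⟨Q1 + Q2 + Q3 + Q4 + Q5 + 3, fun Q hQ M hM1 hM2 B hw hBs a ha I J => ?_⟩
  have hQ3n : 3 ≤ Q := by omega
  have hQ3r : (3 : ℝ) ≤ Q := by exact_mod_cast hQ3n
  have hQ0 : (0 : ℝ) < Q := by linarith
  have hQ1' : (1 : ℝ) ≤ Q := by linarith
  obtain ⟨ℓ, hℓ⟩ : ∃ ℓ : ℝ, ℓ = Real.log Q := ⟨_, rfl⟩
  have hℓ1 : 1 ≤ ℓ := by
    rw [hℓ, Real.le_log_iff_exp_le hQ0]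
    linarith [Real.exp_one_lt_d9]
  have hle : ∀ n : ℕ, n ≤ 6 * CR + 20 → Q ^ n ≤ M := fun n hn =>
    (Nat.pow_le_pow_right (by omega) hn).trans hM1
  have hler : ∀ n : ℕ, n ≤ 6 * CR + 20 → (Q : ℝ) ^ n ≤ M := fun n hn => by exact_mod_cast hle n hn
  have hQM : Q ≤ M := by simpa using hle 1 (by omega)
  have hM0 : (0 : ℝ) < M := by exact_mod_cast (by omega : 0 < M)
  have hlM0 : 0 ≤ Real.log M := Real.log_natCast_nonneg M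
  have hlM : Real.log M ≤ L2 * ℓ := by
    have : Real.log M ≤ Real.log ((Q : ℝ) ^ L2) := Real.log_le_log hM0 (by exact_mod_cast hM2)
    rwa [Real.log_pow, ← hℓ] at this
  have hYpos : 0 < M / Q ^ 3 := Nat.div_pos (hle 3 (by omega)) (by positivity)
  have hHM : M / Q ^ 4 ≤ M := Nat.div_le_self _ _
  obtain ⟨V, hV⟩ : ∃ V : ℝ, V = (Q : ℝ) ^ κ := ⟨_, rfl⟩
  have hV1 : 1 ≤ V := by rw [hV]; exact Real.one_le_rpow hQ1' hκ0.le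
  have hV0 : 0 ≤ V := by linarith
  have hVR : ∀ x : ℤ, x ≠ 0 → |x| ≤ 2 * M → |VR (Q ^ CR) x| ≤ V := by
    intro x hx hxM
    rw [hV]
    apply hQ2 Q (by omega) x hx
    refine hxM.trans ?_
    have : (M : ℤ) ≤ (Q : ℤ) ^ L2 := by exact_mod_cast hM2
    linarith
  have hlV : Real.log M ≤ V := by
    refine hlM.trans ?_
    have := hQ3 Q (by omega)
    rw [pow_one, ← hℓ] at this
    rw [hV]; exact this
  have hfour := hQ1 Q (by omega) M hM1 hM2 B hw.1 hBs hw.2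
  -- the transform
  obtain ⟨σ, hσ⟩ : ∃ σ : ℝ, σ = 2 * (M * (Q : ℝ) ^ (-(1 / 4) : ℝ)) := ⟨_, rfl⟩
  have hq4 : 0 < (Q : ℝ) ^ (-(1 / 4) : ℝ) := by positivity
  have hσ0 : 0 ≤ σ := by rw [hσ]; positivity
  have hFT : ∀ θ, ‖FT (cL Q M) θ - FT (cB Q CR M) θ‖ ≤ σ := by
    intro θ
    refine (cut_FT (Y := M / Q ^ 3) hHM hV0 hfour hVR θ).trans ?_
    have f0 : ((M / Q ^ 3 : ℕ) : ℝ) + 3 * ((M / Q ^ 4 : ℕ) : ℝ) + 2 ≤ 6 * (M / (Q : ℝ) ^ 3) := by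
      have g1 : ((M / Q ^ 3 : ℕ) : ℝ) ≤ M / (Q : ℝ) ^ 3 := by
        have := div_upper M (Q ^ 3); push_cast at this ⊢; exact this
      have g2 : ((M / Q ^ 4 : ℕ) : ℝ) ≤ M / (Q : ℝ) ^ 3 := by
        have := div_upper M (Q ^ 4)
        push_cast at this ⊢
        refine this.trans ?_
        apply div_le_div_of_nonneg_left hM0.le (by positivity)
        exact pow_le_pow_right₀ hQ1' (by norm_num)
      have g3 : (1 : ℝ) ≤ M / (Q : ℝ) ^ 3 := by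
        rw [le_div_iff₀ (by positivity), one_mul]; exact hler 3 (by omega)
      linarith
    have f1 : Real.log M + V * ((Q : ℝ) ^ 2 * Real.log M) ≤ 2 * (V * (Q : ℝ) ^ 2 * Real.log M) := by
      have : 1 * Real.log M ≤ V * (Q : ℝ) ^ 2 * Real.log M := by
        apply mul_le_mul_of_nonneg_right _ hlM0
        exact one_le_mul_of_one_le_of_one_le hV1 (one_le_pow₀ hQ1')
      linarith
    have f2 : Real.log M + ((Q ^ CR : ℕ) : ℝ) * ((Q : ℝ) ^ 2 * Real.log M) ≤ 2 * (M / Q * Real.log M) := by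
      have e1 : (Q : ℝ) ^ CR * (Q : ℝ) ^ 2 ≤ M / Q := by
        rw [le_div_iff₀ hQ0]
        calc (Q : ℝ) ^ CR * (Q : ℝ) ^ 2 * Q = (Q : ℝ) ^ (CR + 3) := by ring
          _ ≤ (M : ℝ) := hler _ (by omega)
      have e2 : (1 : ℝ) ≤ M / Q := by
        rw [le_div_iff₀ hQ0, one_mul]
        exact_mod_cast hQM
      push_cast
      have e3 := mul_le_mul_of_nonneg_right e1 hlM0
      have e4 := mul_le_mul_of_nonneg_right e2 hlM0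
      linarith
    have f3 : (((M / Q ^ 3 : ℕ) : ℝ) + 3 * ((M / Q ^ 4 : ℕ) : ℝ) + 2) * (Real.log M + V * ((Q : ℝ) ^ 2 * Real.log M)) ≤
        12 * (V * (M / Q * Real.log M)) := by
      calc _ ≤ (6 * (M / (Q : ℝ) ^ 3)) * (2 * (V * (Q : ℝ) ^ 2 * Real.log M)) :=
            mul_le_mul f0 f1 (by positivity) (by positivity)
        _ = _ := by field_simp; ring
    have f4 : M / Q * Real.log M ≤ V * (M / Q * Real.log M) := le_mul_of_one_le_left (by positivity) hV1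
    have f5 : 14 * (V * (M / Q * Real.log M)) ≤ M * (Q : ℝ) ^ (-(1 / 4) : ℝ) := by
      have e1 := hQ4 Q (by omega)
      rw [pow_one, ← hℓ] at e1
      have e2 : V ≤ (Q : ℝ) ^ (1 / 4 : ℝ) := by rw [hV]; exact rpow_aux hQ1' (by linarith)
      have e3 : (Q : ℝ) ^ (1 / 4 : ℝ) * (Q : ℝ) ^ (1 / 4 : ℝ) / Q ≤ (Q : ℝ) ^ (-(1 / 4) : ℝ) := by
        rw [← Real.rpow_add hQ0]
        nth_rewrite 2 [← Real.rpow_one (Q : ℝ)]
        rw [← Real.rpow_sub hQ0]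
        exact rpow_aux hQ1' (by norm_num)
      calc 14 * (V * (M / Q * Real.log M)) ≤ 14 * (V * (M / Q * (L2 * ℓ))) := by gcongr
        _ = M * (V * (14 * L2 * ℓ) / Q) := by ring
        _ ≤ M * ((Q : ℝ) ^ (1 / 4 : ℝ) * (Q : ℝ) ^ (1 / 4 : ℝ) / Q) := by gcongr
        _ ≤ _ := mul_le_mul_of_nonneg_left e3 hM0.le
    rw [hσ]
    linarith
  have hS1 : SF (cL Q M) (Icc (-((M / Q ^ 4 : ℕ) : ℤ)) (M + (M / Q ^ 4 : ℕ))) :=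
    SF_cut (SF_mono (SF_Lam M) (by
      have : (0 : ℤ) ≤ ((M / Q ^ 4 : ℕ) : ℤ) := Int.natCast_nonneg _
      apply Icc_subset_Icc <;> linarith)) _ _
  have hS2 : SF (cB Q CR M) (Icc (-((M / Q ^ 4 : ℕ) : ℤ)) (M + (M / Q ^ 4 : ℕ))) := SF_cut (SF_LB _ _ _ _) _ _
  have hrep := repl_box hS1 hS2 (σ := σ) (D := 2 * V) hFT (by linarith) (fun x => (cL_norm Q M x).trans (by linarith))
    (cB_norm hV0 hw hBs hYpos hVR) ha I J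
  refine hrep.trans ?_
  have hfin : (s : ℝ) ^ 2 * (σ ^ 2 * ((2 * V) ^ s) ^ 2) ≤ (M : ℝ) ^ 2 * (Q : ℝ) ^ (-(3 / 8) : ℝ) := by
    have e1 := hQ5 Q (by omega)
    rw [pow_zero, mul_one] at e1
    have e2 : (V ^ s) ^ 2 = (Q : ℝ) ^ (1 / 16 : ℝ) := by
      rw [hV, ← pow_mul, ← Real.rpow_natCast, ← Real.rpow_mul hQ0.le, hκ]
      congr 1
      push_cast
      field_simp
      norm_num
    have e3 : ((Q : ℝ) ^ (-(1 / 4) : ℝ)) ^ 2 = (Q : ℝ) ^ (-(1 / 2) : ℝ) := by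
      rw [← Real.rpow_natCast, ← Real.rpow_mul hQ0.le]
      norm_num
    calc (s : ℝ) ^ 2 * (σ ^ 2 * ((2 * V) ^ s) ^ 2) =
        (M : ℝ) ^ 2 * ((4 * (s : ℝ) ^ 2 * 4 ^ s) * (((Q : ℝ) ^ (-(1 / 4) : ℝ)) ^ 2 * (V ^ s) ^ 2)) := by
          rw [hσ, mul_pow 2 V s]
          have : (4 : ℝ) ^ s = (2 ^ s) ^ 2 := by rw [← pow_mul, mul_comm s 2, pow_mul]; norm_num
          rw [this]
          ring
      _ ≤ (M : ℝ) ^ 2 * ((Q : ℝ) ^ (1 / 16 : ℝ) * ((Q : ℝ) ^ (-(1 / 2) : ℝ) * (Q : ℝ) ^ (1 / 16 : ℝ))) := by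
          rw [e2, e3]
          gcongr
      _ = (M : ℝ) ^ 2 * (Q : ℝ) ^ (-(3 / 8) : ℝ) := by
          rw [← Real.rpow_add hQ0, ← Real.rpow_add hQ0]
          norm_num
  calc (s : ℝ) ^ 2 * ((J.card : ℝ) ^ s * (σ ^ 2 * (I.card * ((2 * V) ^ s) ^ 2))) =
      (J.card : ℝ) ^ s * I.card * ((s : ℝ) ^ 2 * (σ ^ 2 * ((2 * V) ^ s) ^ 2)) := by ring
    _ ≤ _ := mul_le_mul_of_nonneg_left hfin (by positivity)

end Pool.Agent.Helper86.PS
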