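import Pool.Agent.Helper86.PS.F7

set_option autoImplicit false

/-!
# Expansion of the products of the model
-/

open Finset

namespace Pool.Agent.Helper86.PS

open Pool.Agent.H807R2.Dav

lemma sum_shift_diff {W : ℤ → ℂ} {W₀ : ℝ} (hW : ∀ x, ‖W x‖ ≤ W₀) (u v : ℤ) (t : ℕ) :
    ‖∑ n ∈ Ico u v, W (n + t) - ∑ n ∈ Ico u v, W n‖ ≤ 2 * t * W₀ := by
  have hW0 : 0 ≤ W₀ := (norm_nonneg _).trans (hW 0)
  rw [sum_Ico_add' W u v (t : ℤ), ← sum_sdiff_sub_sum_sdiff]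
  refine (norm_sub_le _ _).trans ?_
  have h1 : ‖∑ x ∈ Ico (u + t) (v + t) \ Ico u v, W x‖ ≤ t * W₀ := by
    refine (norm_sum_le_of_le _ fun x _ => hW x).trans ?_
    rw [sum_const, nsmul_eq_mul]
    apply mul_le_mul_of_nonneg_right _ hW0
    have h2 : Ico (u + t) (v + t) \ Ico u v ⊆ Ico v (v + t) := by
      intro x hx
      rw [mem_sdiff, mem_Ico, mem_Ico] at hx
      rw [mem_Ico]
      omega
    have h3 := card_le_card h2
    rw [Int.card_Ico] at h3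
    have h4 : (v + (t : ℤ) - v).toNat = t := by omega
    rw [h4] at h3
    exact_mod_cast h3
  have h2 : ‖∑ x ∈ Ico u v \ Ico (u + t) (v + t), W x‖ ≤ t * W₀ := by
    refine (norm_sum_le_of_le _ fun x _ => hW x).trans ?_
    rw [sum_const, nsmul_eq_mul]
    apply mul_le_mul_of_nonneg_right _ hW0
    have h2 : Ico u v \ Ico (u + t) (v + t) ⊆ Ico u (u + t) := by
      intro x hx
      rw [mem_sdiff, mem_Ico, mem_Ico] at hx
      rw [mem_Ico]
      omega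
    have h3 := card_le_card h2
    rw [Int.card_Ico] at h3
    have h4 : (u + (t : ℤ) - u).toNat = t := by omega
    rw [h4] at h3
    exact_mod_cast h3
  linarith

/-- sums of a periodic function against a slowly varying one -/
lemma per_lip {m : ℕ} (hm : 0 < m) {g W : ℤ → ℂ} (hg : Per m g) (hg1 : ∀ x, ‖g x‖ ≤ 1) {W₀ L : ℝ} (hL : 0 ≤ L)
    (hW : ∀ x, ‖W x‖ ≤ W₀) (hWL : ∀ x y : ℤ, ‖W x - W y‖ ≤ L * |((x : ℝ) - y)|) (u v : ℤ) :
    ‖∑ n ∈ Ico u v, g n * W n - mn m g * ∑ n ∈ Ico u v, W n‖ ≤ 2 * m * W₀ + (Ico u v).card * (m * L) := by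
  have hmr : (0 : ℝ) < m := by exact_mod_cast hm
  have hmc : (m : ℂ) ≠ 0 := by exact_mod_cast hm.ne'
  have hW0 : 0 ≤ W₀ := (norm_nonneg _).trans (hW 0)
  have h1 : mn m g * ∑ n ∈ Ico u v, W n = 1 / (m : ℂ) * ∑ t ∈ range m, ∑ n ∈ Ico u v, g (n + t) * W n := by
    rw [mul_sum, sum_comm, mul_sum]
    apply sum_congr rfl
    intro n _
    rw [← mn_shift hg n, ← sum_mul, ← mul_assoc]
    unfold mn
    congr 2
    apply sum_congr rfl
    intro t _
    rw [add_comm]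
  have h2 : ∑ n ∈ Ico u v, g n * W n = 1 / (m : ℂ) * ∑ t ∈ range m, ∑ n ∈ Ico u v, g n * W n := by
    rw [sum_const, card_range, nsmul_eq_mul, ← mul_assoc, one_div, inv_mul_cancel₀ hmc, one_mul]
  rw [h1]
  have h3 : ∑ n ∈ Ico u v, g n * W n - 1 / (m : ℂ) * ∑ t ∈ range m, ∑ n ∈ Ico u v, g (n + t) * W n =
      1 / (m : ℂ) * ∑ t ∈ range m, (∑ n ∈ Ico u v, g n * W n - ∑ n ∈ Ico u v, g (n + t) * W n) := by
    rw [sum_sub_distrib, mul_sub, ← h2]
  rw [h3]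
  have hB0 : 0 ≤ 2 * m * W₀ + (Ico u v).card * (m * L) := by
    have q1 : 0 ≤ 2 * m * W₀ := mul_nonneg (by linarith) hW0
    have q2 : 0 ≤ ((Ico u v).card : ℝ) * (m * L) := mul_nonneg (Nat.cast_nonneg _) (mul_nonneg hmr.le hL)
    linarith
  apply norm_avg_le hB0
  intro t ht
  have htm : (t : ℝ) ≤ m := by exact_mod_cast (mem_range.1 ht).le
  have h4 : ∑ n ∈ Ico u v, g n * W n - ∑ n ∈ Ico u v, g (n + t) * W n =
      -(∑ n ∈ Ico u v, (fun x => g x * W x) (n + t) - ∑ n ∈ Ico u v, (fun x => g x * W x) n) +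
      ∑ n ∈ Ico u v, g (n + t) * (W (n + t) - W n) := by
    simp only [mul_sub, sum_sub_distrib]
    ring
  rw [h4]
  refine (norm_add_le _ _).trans ?_
  rw [norm_neg]
  apply add_le_add
  · refine (sum_shift_diff (W := fun x => g x * W x) (W₀ := W₀) (fun x => ?_) u v t).trans ?_
    · rw [norm_mul]
      calc ‖g x‖ * ‖W x‖ ≤ 1 * W₀ := mul_le_mul (hg1 x) (hW x) (norm_nonneg _) zero_le_one
        _ = W₀ := one_mul _
    · gcongr
  · have h5 : ∀ n ∈ Ico u v, ‖g (n + t) * (W (n + t) - W n)‖ ≤ m * L := by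
      intro n _
      rw [norm_mul]
      have h6 := hWL (n + t) n
      have h7 : |(((n + t : ℤ) : ℝ) - n)| = t := by
        push_cast
        rw [add_sub_cancel_left, abs_of_nonneg (Nat.cast_nonneg _)]
      rw [h7] at h6
      calc ‖g (n + t)‖ * ‖W (n + t) - W n‖ ≤ 1 * (L * t) := mul_le_mul (hg1 _) h6 (norm_nonneg _) zero_le_one
        _ = t * L := by ring
        _ ≤ m * L := mul_le_mul_of_nonneg_right htm hL
    refine (norm_sum_le_of_le _ h5).trans ?_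
    rw [sum_const, nsmul_eq_mul]

lemma prod_diff {ι : Type} [DecidableEq ι] (T : Finset ι) {f g : ι → ℂ} {B δ : ℝ} (hB : 1 ≤ B) (hδ : 0 ≤ δ) (hf : ∀ i ∈ T, ‖f i‖ ≤ B)
    (hg : ∀ i ∈ T, ‖g i‖ ≤ B) (hfg : ∀ i ∈ T, ‖f i - g i‖ ≤ δ) :
    ‖∏ i ∈ T, f i - ∏ i ∈ T, g i‖ ≤ T.card * δ * B ^ T.card := by
  induction T using Finset.induction_on with
  | empty => simp
  | insert i T hi ih =>
    rw [prod_insert hi, prod_insert hi, card_insert_of_notMem hi]
    have ih' := ih (fun k hk => hf k (mem_insert_of_mem hk)) (fun k hk => hg k (mem_insert_of_mem hk))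
      (fun k hk => hfg k (mem_insert_of_mem hk))
    have h1 : f i * ∏ k ∈ T, f k - g i * ∏ k ∈ T, g k = f i * (∏ k ∈ T, f k - ∏ k ∈ T, g k) + (f i - g i) * ∏ k ∈ T, g k := by
      ring
    rw [h1]
    refine (norm_add_le _ _).trans ?_
    rw [norm_mul, norm_mul]
    have h2 : ‖∏ k ∈ T, g k‖ ≤ B ^ T.card := by
      rw [norm_prod]
      calc ∏ k ∈ T, ‖g k‖ ≤ ∏ k ∈ T, B := prod_le_prod (fun _ _ => norm_nonneg _) fun k hk => hg k (mem_insert_of_mem hk)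
        _ = _ := by rw [prod_const]
    have h3 := hf i (mem_insert_self i T)
    have h4 := hfg i (mem_insert_self i T)
    have h5 : B ^ T.card ≤ B ^ (T.card + 1) := pow_le_pow_right₀ hB (Nat.le_succ _)
    calc ‖f i‖ * ‖∏ k ∈ T, f k - ∏ k ∈ T, g k‖ + ‖f i - g i‖ * ‖∏ k ∈ T, g k‖ ≤
        B * (T.card * δ * B ^ T.card) + δ * B ^ T.card := by gcongr
      _ ≤ B * (T.card * δ * B ^ T.card) + δ * B ^ (T.card + 1) := by gcongr
      _ = _ := by push_cast; ring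

/-- the tuples of characters -/
noncomputable def FT_ (s Q : ℕ) : Finset (Fin s → PC) := Fintype.piFinset fun _ => fam Q

/-- the tuples of sets of primes -/
noncomputable def ST (s R : ℕ) : Finset (Fin s → Finset ℕ) := Fintype.piFinset fun _ => SS R

/-- the periodic part -/
noncomputable def gg {s : ℕ} (a h : Fin s → ℤ) (j : Fin s → PC) (S : Fin s → Finset ℕ) (n : ℤ) : ℂ :=
  ∏ i, GG (j i) (S i) (a i * n + h i)

/-- the slowly varying part -/
noncomputable def WW {s : ℕ} (M H : ℕ) (a h : Fin s → ℤ) (j : Fin s → PC) (n : ℤ) : ℂ :=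
  ∏ i, wj M H (j i) (a i * n + h i)

/-- a period -/
def pp {s : ℕ} (j : Fin s → PC) (S : Fin s → Finset ℕ) : ℕ := ∏ i, ((j i).1 + 1) * ∏ p ∈ S i, p

/-- the mean attached to a tuple of characters -/
noncomputable def mu {s : ℕ} (R : ℕ) (a h : Fin s → ℤ) (j : Fin s → PC) : ℂ :=
  ∑ S ∈ ST s R, mn (pp j S) (gg a h j S)

lemma LB_prod {s : ℕ} (Q R M H : ℕ) (a h : Fin s → ℤ) (n : ℤ) :
    ∏ i, LB Q R M H (a i * n + h i) = ∑ j ∈ FT_ s Q, ∑ S ∈ ST s R, gg a h j S n * WW M H a h j n := by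
  have h1 : ∀ i : Fin s, LB Q R M H (a i * n + h i) =
      ∑ j ∈ fam Q, ∑ S ∈ SS R, GG j S (a i * n + h i) * wj M H j (a i * n + h i) := by
    intro i
    rw [LB_eq]
  rw [prod_congr rfl fun i _ => h1 i, prod_univ_sum]
  unfold FT_ ST gg WW
  apply sum_congr rfl
  intro j _
  rw [prod_univ_sum]
  apply sum_congr rfl
  intro S _
  rw [prod_mul_distrib]

lemma GG_per {j : PC} {S : Finset ℕ} {m : ℕ} (h1 : j.1 + 1 ∣ m) (h2 : ∀ p ∈ S, p ∣ m) : Per m (GG j S) := by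
  unfold GG
  apply Per.mul
  · exact Per.prod fun p hp => (up_per p).mono (h2 p hp)
  · exact (cz_per j).mono h1

lemma GG_norm {j : PC} {S : Finset ℕ} (hS : ∀ p ∈ S, p.Prime) (x : ℤ) : ‖GG j S x‖ ≤ 1 := by
  unfold GG
  rw [norm_mul, norm_prod]
  have h1 : ∏ p ∈ S, ‖(up p x : ℂ)‖ ≤ 1 := by
    apply prod_le_one (fun _ _ => norm_nonneg _)
    intro p hp
    rw [Complex.norm_real, Real.norm_eq_abs]
    exact up_abs (hS p hp) x
  exact mul_le_one₀ h1 (norm_nonneg _) (cz_norm_le j x)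

lemma gg_per {s : ℕ} {a h : Fin s → ℤ} {j : Fin s → PC} {S : Fin s → Finset ℕ} {m : ℕ}
    (h1 : ∀ i, (j i).1 + 1 ∣ m) (h2 : ∀ i, ∀ p ∈ S i, p ∣ m) : Per m (gg a h j S) := by
  unfold gg
  apply Per.prod
  intro i _
  exact (GG_per (h1 i) (h2 i)).comp (a i) (h i)

lemma gg_per_pp {s : ℕ} (a h : Fin s → ℤ) (j : Fin s → PC) (S : Fin s → Finset ℕ) : Per (pp j S) (gg a h j S) := by
  apply gg_per
  · intro i
    unfold pp
    exact dvd_trans (dvd_mul_right _ _) (dvd_prod_of_mem (fun i => ((j i).1 + 1) * ∏ p ∈ S i, p) (mem_univ i))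
  · intro i p hp
    unfold pp
    exact dvd_trans (dvd_mul_of_dvd_right (dvd_prod_of_mem _ hp) _)
      (dvd_prod_of_mem (fun i => ((j i).1 + 1) * ∏ p ∈ S i, p) (mem_univ i))

lemma gg_norm {s : ℕ} {a h : Fin s → ℤ} {j : Fin s → PC} {S : Fin s → Finset ℕ} (hS : ∀ i, ∀ p ∈ S i, p.Prime) (n : ℤ) :
    ‖gg a h j S n‖ ≤ 1 := by
  unfold gg
  rw [norm_prod]
  exact prod_le_one (fun _ _ => norm_nonneg _) fun i _ => GG_norm (hS i) _

lemma pp_pos {s : ℕ} {j : Fin s → PC} {S : Fin s → Finset ℕ} (hS : ∀ i, ∀ p ∈ S i, p.Prime) : 0 < pp j S := by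
  unfold pp
  apply Finset.prod_pos
  intro i _
  exact Nat.mul_pos (Nat.succ_pos _) (Finset.prod_pos fun p hp => (hS i p hp).pos)

lemma pp_le {s Q R : ℕ} {j : Fin s → PC} (hj : j ∈ FT_ s Q) {S : Fin s → Finset ℕ} (hS : S ∈ ST s R) :
    pp j S ≤ (Q * R) ^ s := by
  unfold pp
  calc ∏ i, ((j i).1 + 1) * ∏ p ∈ S i, p ≤ ∏ _i : Fin s, Q * R := by
        apply Finset.prod_le_prod'
        intro i _
        apply Nat.mul_le_mul
        · exact (mem_fam.1 (Fintype.mem_piFinset.1 hj i)).1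
        · exact SS_prod (Fintype.mem_piFinset.1 hS i)
    _ = _ := by rw [prod_const, card_univ, Fintype.card_fin]

lemma WW_norm {s : ℕ} {M H : ℕ} {a h : Fin s → ℤ} {j : Fin s → PC} {Lg : ℝ} (h2 : Real.log M ≤ Lg) (n : ℤ) :
    ‖WW M H a h j n‖ ≤ Lg ^ s := by
  unfold WW
  rw [norm_prod]
  calc ∏ i, ‖wj M H (j i) (a i * n + h i)‖ ≤ ∏ _i : Fin s, Lg :=
        prod_le_prod (fun _ _ => norm_nonneg _) fun i _ => (wj_norm M H (j i) _).trans h2
    _ = _ := by rw [prod_const, card_univ, Fintype.card_fin]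

lemma WW_lip {s : ℕ} {M H : ℕ} {a h : Fin s → ℤ} {j : Fin s → PC} {Lg A : ℝ} (h1 : 1 ≤ Lg) (h2 : Real.log M ≤ Lg)
    (hA : 0 ≤ A) (ha : ∀ i, |((a i : ℤ) : ℝ)| ≤ A) (x y : ℤ) :
    ‖WW M H a h j x - WW M H a h j y‖ ≤ s * (2 * Lg / H * A) * Lg ^ s * |((x : ℝ) - y)| := by
  unfold WW
  have h3 := prod_diff (univ : Finset (Fin s)) (f := fun i => wj M H (j i) (a i * x + h i))
    (g := fun i => wj M H (j i) (a i * y + h i)) (B := Lg) (δ := 2 * Lg / H * A * |((x : ℝ) - y)|) h1 (by positivity)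
    (fun i _ => (wj_norm M H (j i) _).trans h2) (fun i _ => (wj_norm M H (j i) _).trans h2) (by
      intro i _
      refine (wj_lip M H (j i) _ _).trans ?_
      have e1 : |(((a i * x + h i : ℤ) : ℝ) - ((a i * y + h i : ℤ) : ℝ))| ≤ A * |((x : ℝ) - y)| := by
        push_cast
        have : (a i : ℝ) * x + h i - (a i * y + h i) = a i * (x - y) := by ring
        rw [this, abs_mul]
        exact mul_le_mul_of_nonneg_right (ha i) (abs_nonneg _)
      have e2 : 2 * Real.log M / H ≤ 2 * Lg / H := by gcongr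
      have e3 : 0 ≤ 2 * Real.log M / H := by
        have := Real.log_natCast_nonneg M
        positivity
      calc 2 * Real.log M / H * |(((a i * x + h i : ℤ) : ℝ) - ((a i * y + h i : ℤ) : ℝ))| ≤
          2 * Lg / H * (A * |((x : ℝ) - y)|) := mul_le_mul e2 e1 (abs_nonneg _) (by positivity)
        _ = _ := by ring)
  rw [card_univ, Fintype.card_fin] at h3
  refine h3.trans (le_of_eq ?_)
  ring

/-- **expansion of the product of the model** -/
lemma main_expand {s Q R M H : ℕ} {a h : Fin s → ℤ} {Lg A : ℝ} (h1 : 1 ≤ Lg) (h2 : Real.log M ≤ Lg)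
    (hA : 0 ≤ A) (ha : ∀ i, |((a i : ℤ) : ℝ)| ≤ A) (u v : ℤ) :
    ‖∑ n ∈ Ico u v, ∏ i, LB Q R M H (a i * n + h i) - ∑ j ∈ FT_ s Q, mu R a h j * ∑ n ∈ Ico u v, WW M H a h j n‖ ≤
      ((Q : ℝ) ^ 2) ^ s * ((R : ℝ) ^ s * (2 * (Q * R : ℝ) ^ s * Lg ^ s + (Ico u v).card * ((Q * R : ℝ) ^ s *
        (s * (2 * Lg / H * A) * Lg ^ s)))) := by
  have hLg0 : 0 ≤ Lg := by linarith
  have e1 : ∑ n ∈ Ico u v, ∏ i, LB Q R M H (a i * n + h i) =
      ∑ j ∈ FT_ s Q, ∑ S ∈ ST s R, ∑ n ∈ Ico u v, gg a h j S n * WW M H a h j n := by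
    simp only [LB_prod]
    rw [sum_comm]
    apply sum_congr rfl
    intro j _
    rw [sum_comm]
  have e2 : ∑ j ∈ FT_ s Q, mu R a h j * ∑ n ∈ Ico u v, WW M H a h j n =
      ∑ j ∈ FT_ s Q, ∑ S ∈ ST s R, mn (pp j S) (gg a h j S) * ∑ n ∈ Ico u v, WW M H a h j n := by
    apply sum_congr rfl
    intro j _
    unfold mu
    rw [sum_mul]
  rw [e1, e2, ← sum_sub_distrib]
  have e3 : ∀ j ∈ FT_ s Q, ‖∑ S ∈ ST s R, ∑ n ∈ Ico u v, gg a h j S n * WW M H a h j n -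
      ∑ S ∈ ST s R, mn (pp j S) (gg a h j S) * ∑ n ∈ Ico u v, WW M H a h j n‖ ≤
      (R : ℝ) ^ s * (2 * (Q * R : ℝ) ^ s * Lg ^ s + (Ico u v).card * ((Q * R : ℝ) ^ s *
        (s * (2 * Lg / H * A) * Lg ^ s))) := by
    intro j hj
    rw [← sum_sub_distrib]
    have e4 : ∀ S ∈ ST s R, ‖∑ n ∈ Ico u v, gg a h j S n * WW M H a h j n -
        mn (pp j S) (gg a h j S) * ∑ n ∈ Ico u v, WW M H a h j n‖ ≤
        2 * (Q * R : ℝ) ^ s * Lg ^ s + (Ico u v).card * ((Q * R : ℝ) ^ s * (s * (2 * Lg / H * A) * Lg ^ s)) := by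
      intro S hS
      have hSp : ∀ i, ∀ p ∈ S i, p.Prime := fun i p hp => SS_prime (Fintype.mem_piFinset.1 hS i) p hp
      have h5 := per_lip (pp_pos (j := j) hSp) (gg_per_pp a h j S) (gg_norm hSp) (L := s * (2 * Lg / H * A) * Lg ^ s)
        (by positivity) (WW_norm (M := M) (H := H) (a := a) (h := h) (j := j) h2) (WW_lip h1 h2 hA ha) u v
      refine h5.trans ?_
      have h6 : (pp j S : ℝ) ≤ (Q * R : ℝ) ^ s := by exact_mod_cast pp_le hj hS
      gcongr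
    refine (norm_sum_le_of_le _ e4).trans ?_
    rw [sum_const, nsmul_eq_mul]
    apply mul_le_mul_of_nonneg_right _ (by positivity)
    unfold ST
    rw [Fintype.card_piFinset, prod_const, card_univ, Fintype.card_fin]
    push_cast
    exact pow_le_pow_left₀ (Nat.cast_nonneg _) (by exact_mod_cast card_SS R) s
  refine (norm_sum_le_of_le _ e3).trans ?_
  rw [sum_const, nsmul_eq_mul]
  apply mul_le_mul_of_nonneg_right _ (by positivity)
  unfold FT_
  rw [Fintype.card_piFinset, prod_const, card_univ, Fintype.card_fin]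
  push_cast
  exact pow_le_pow_left₀ (Nat.cast_nonneg _) (card_fam Q) s

end Pool.Agent.Helper86.PS
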