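import Pool.Agent.Helper86.PS.G3
import Pool.Agent.Helper86.PS.G4

set_option autoImplicit false

/-!
# Products over primes of means, transposition and local bounds
-/

open Finset

namespace Pool.Agent.Helper86.PS

open Pool.Agent.H807R2.Dav

/-- the mean of a product over primes -/
lemma mn_primes {r : ℕ} {T : Finset ℕ} (hT : ∀ p ∈ T, p.Prime) (hr : ∀ p ∈ T, ¬ p ∣ r) {ψ : ℤ → ℂ} {φ : ℕ → ℤ → ℂ}
    (hψ : Per r ψ) (hφ : ∀ p ∈ T, Per p (φ p)) :
    mn (r * ∏ p ∈ T, p) (fun x => ψ x * ∏ p ∈ T, φ p x) = mn r ψ * ∏ p ∈ T, mn p (φ p) := by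
  induction T using Finset.induction_on with
  | empty => simp
  | insert q T hq ih =>
    have ih' := ih (fun p hp => hT p (mem_insert_of_mem hp)) (fun p hp => hr p (mem_insert_of_mem hp))
      (fun p hp => hφ p (mem_insert_of_mem hp))
    have hqp := hT q (mem_insert_self q T)
    have hco : Nat.Coprime (r * ∏ p ∈ T, p) q := by
      apply Nat.Coprime.mul_left
      · exact ((Nat.Prime.coprime_iff_not_dvd hqp).2 (hr q (mem_insert_self q T))).symm
      · apply Nat.Coprime.prod_left
        intro p hp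
        apply (Nat.coprime_primes (hT p (mem_insert_of_mem hp)) hqp).2
        rintro rfl
        exact hq hp
    rw [prod_insert hq, prod_insert hq]
    have e1 : r * (q * ∏ p ∈ T, p) = (r * ∏ p ∈ T, p) * q := by ring
    have e2 : (fun x => ψ x * ∏ p ∈ insert q T, φ p x) = fun x => (ψ x * ∏ p ∈ T, φ p x) * φ q x := by
      ext x
      rw [prod_insert hq]
      ring
    rw [e1, e2, mn_crt hco _ (hφ q (mem_insert_self q T)), ih']
    · ring
    · apply Per.mul
      · exact hψ.mono (dvd_mul_right _ _)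
      · apply Per.prod
        intro p hp
        exact (hφ p (mem_insert_of_mem hp)).mono (dvd_mul_of_dvd_right (dvd_prod_of_mem _ hp) _)

/-- transposition of a tuple of sets -/
lemma transpose {s : ℕ} (P : Finset ℕ) (w : ℕ → Finset (Fin s) → ℝ) :
    ∑ S ∈ Fintype.piFinset (fun _ : Fin s => P.powerset), ∏ p ∈ P, w p (univ.filter fun i => p ∈ S i) =
      ∏ p ∈ P, ∑ K : Finset (Fin s), w p K := by
  induction P using Finset.induction_on with
  | empty => simp
  | insert q P hq ih =>
    rw [prod_insert hq, ← ih, sum_mul_sum, ← sum_product']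
    symm
    apply sum_nbij' (fun x : Finset (Fin s) × (Fin s → Finset ℕ) => fun i => if i ∈ x.1 then insert q (x.2 i) else x.2 i)
      (fun S : Fin s → Finset ℕ => (univ.filter fun i => q ∈ S i, fun i => (S i).erase q))
    · intro x hx
      rw [mem_product, Fintype.mem_piFinset] at hx
      rw [Fintype.mem_piFinset]
      intro i
      have h1 := mem_powerset.1 (hx.2 i)
      rw [mem_powerset]
      split_ifs
      · exact insert_subset_insert q h1
      · exact h1.trans (subset_insert q P)
    · intro S hS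
      rw [Fintype.mem_piFinset] at hS
      rw [mem_product, Fintype.mem_piFinset]
      refine ⟨mem_univ _, fun i => ?_⟩
      simp only
      rw [mem_powerset]
      intro p hp
      rw [mem_erase] at hp
      have := mem_powerset.1 (hS i) hp.2
      rw [mem_insert] at this
      exact this.resolve_left hp.1
    · intro x hx
      rw [mem_product, Fintype.mem_piFinset] at hx
      have hqx : ∀ i, q ∉ x.2 i := fun i hc => hq (mem_powerset.1 (hx.2 i) hc)
      ext1
      · ext i
        simp only [mem_filter, mem_univ, true_and]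
        split_ifs with h
        · simp [h]
        · simp [h, hqx i]
      · simp only
        ext1 i
        split_ifs with h
        · rw [erase_insert (hqx i)]
        · rw [erase_eq_of_notMem (hqx i)]
    · intro S _
      simp only
      ext1 i
      simp only [mem_filter, mem_univ, true_and]
      split_ifs with h
      · rw [insert_erase h]
      · rw [erase_eq_of_notMem h]
    · intro x hx
      rw [mem_product, Fintype.mem_piFinset] at hx
      have hqx : ∀ i, q ∉ x.2 i := fun i hc => hq (mem_powerset.1 (hx.2 i) hc)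
      simp only
      rw [prod_insert hq]
      congr 1
      · congr 1
        ext i
        simp only [mem_filter, mem_univ, true_and]
        split_ifs with h
        · simp [h]
        · simp [h, hqx i]
      · apply prod_congr rfl
        intro p hp
        congr 1
        ext i
        have hpq : p ≠ q := fun h => hq (h ▸ hp)
        simp only [mem_filter, mem_univ, true_and]
        split_ifs with h
        · simp [hpq]
        · rfl

/-- the local mean -/
noncomputable def lm {s : ℕ} (a h : Fin s → ℤ) (p : ℕ) (K : Finset (Fin s)) : ℝ :=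
  ‖mn p (fun x => ∏ i ∈ K, (up p (a i * x + h i) : ℂ))‖

lemma lm_nonneg {s : ℕ} (a h : Fin s → ℤ) (p : ℕ) (K : Finset (Fin s)) : 0 ≤ lm a h p K := norm_nonneg _

lemma lm_le_one {s : ℕ} (a h : Fin s → ℤ) {p : ℕ} (hp : p.Prime) (K : Finset (Fin s)) : lm a h p K ≤ 1 := by
  unfold lm
  apply mn_norm_le zero_le_one
  intro x
  rw [norm_prod]
  apply prod_le_one (fun _ _ => norm_nonneg _)
  intro i _
  rw [Complex.norm_real, Real.norm_eq_abs]
  exact up_abs hp _

lemma mn_up {p : ℕ} (hp : p.Prime) : mn p (fun x => (up p x : ℂ)) = 0 := by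
  have h := FC_up hp 0
  rw [if_pos (dvd_zero _)] at h
  rw [← h]
  unfold FC
  congr 1
  ext x
  unfold ea
  simp [ee_zero]

lemma lm_one {s : ℕ} {a h : Fin s → ℤ} {p : ℕ} (hp : p.Prime) {i : Fin s} (hi : ¬ (p : ℤ) ∣ a i) : lm a h p {i} = 0 := by
  unfold lm
  rw [norm_eq_zero]
  simp only [prod_singleton]
  have hco : IsCoprime (a i) (p : ℤ) := ((Nat.prime_iff_prime_int.1 hp).coprime_iff_not_dvd.2 hi).symm
  rw [mn_affine (up_per p) hco, mn_up hp]

/-- the local bound for at least two indices -/
lemma lm_two {s : ℕ} {a h : Fin s → ℤ} {p : ℕ} (hp : p.Prime) (ha : ∀ i, ¬ (p : ℤ) ∣ a i) {K : Finset (Fin s)}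
    (hK : 2 ≤ K.card) {e : ℝ} (he0 : 0 ≤ e)
    (he : ∀ x : ℤ, (∃ i ∈ K, (p : ℤ) ∣ a i * x + h i) → ∏ i ∈ K, |up p (a i * x + h i)| ≤ e) :
    lm a h p K ≤ 1 / ((p : ℝ) - 1) ^ 2 + s * e / p := by
  have hsub := prime_sub hp
  have hp0 : (0 : ℝ) < p := by exact_mod_cast hp.pos
  have h1 : ∀ x : ℤ, ∏ i ∈ K, |up p (a i * x + h i)| ≤ 1 / ((p : ℝ) - 1) ^ 2 +
      ∑ i ∈ K, (if (p : ℤ) ∣ a i * x + h i then e else 0) := by
    intro x
    have hs0 : 0 ≤ ∑ i ∈ K, (if (p : ℤ) ∣ a i * x + h i then e else 0) :=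
      sum_nonneg fun i _ => by split_ifs <;> linarith
    by_cases hx : ∃ i ∈ K, (p : ℤ) ∣ a i * x + h i
    · have h2 := he x hx
      obtain ⟨i, hi, hid⟩ := hx
      have h3 : e ≤ ∑ i ∈ K, (if (p : ℤ) ∣ a i * x + h i then e else 0) := by
        have := single_le_sum (f := fun i => if (p : ℤ) ∣ a i * x + h i then e else 0)
          (fun k _ => by split_ifs <;> linarith) hi
        rwa [if_pos hid] at this
      have : 0 ≤ 1 / ((p : ℝ) - 1) ^ 2 := by positivity
      linarith
    · push Not at hx
      have h2 : ∏ i ∈ K, |up p (a i * x + h i)| = (1 / ((p : ℝ) - 1)) ^ K.card := by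
        rw [← prod_const]
        apply prod_congr rfl
        intro i hi
        rw [up_abs_eq hp, if_neg (hx i hi)]
      have h3 : (1 / ((p : ℝ) - 1)) ^ K.card ≤ (1 / ((p : ℝ) - 1)) ^ 2 := by
        apply pow_le_pow_of_le_one (by positivity) _ hK
        rw [div_le_one (by linarith)]
        exact hsub
      rw [h2]
      rw [div_pow, one_pow] at h3
      rw [div_pow, one_pow] at h3 ⊢
      linarith
  unfold lm mn
  rw [norm_mul, norm_div, norm_one, Complex.norm_natCast]
  have h2 : ‖∑ x ∈ range p, ∏ i ∈ K, (up p (a i * x + h i) : ℂ)‖ ≤ p * (1 / ((p : ℝ) - 1) ^ 2) + s * e := by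
    have h3 : ∀ x ∈ range p, ‖∏ i ∈ K, (up p (a i * (x : ℤ) + h i) : ℂ)‖ ≤ 1 / ((p : ℝ) - 1) ^ 2 +
        ∑ i ∈ K, (if (p : ℤ) ∣ a i * (x : ℤ) + h i then e else 0) := by
      intro x _
      refine le_trans (le_of_eq ?_) (h1 x)
      rw [norm_prod]
      apply prod_congr rfl
      intro i _
      rw [Complex.norm_real, Real.norm_eq_abs]
    refine (norm_sum_le_of_le _ h3).trans ?_
    rw [sum_add_distrib, sum_const, card_range, nsmul_eq_mul, sum_comm]
    have h4 : ∀ i ∈ K, ∑ x ∈ range p, (if (p : ℤ) ∣ a i * (x : ℤ) + h i then e else 0) ≤ e := by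
      intro i _
      rw [← sum_filter, sum_const, nsmul_eq_mul]
      have h5 : ((range p).filter (fun x : ℕ => (p : ℤ) ∣ a i * (x : ℤ) + h i)).card ≤ 1 := by
        rw [card_le_one]
        intro x hx y hy
        rw [mem_filter, mem_range] at hx hy
        have h6 : (p : ℤ) ∣ a i * ((x : ℤ) - y) := by
          have := dvd_sub hx.2 hy.2
          have e1 : a i * (x : ℤ) + h i - (a i * y + h i) = a i * ((x : ℤ) - y) := by ring
          rwa [e1] at this
        have h7 : (p : ℤ) ∣ (x : ℤ) - y := ((Nat.prime_iff_prime_int.1 hp).dvd_or_dvd h6).resolve_left (ha i)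
        have := Int.eq_zero_of_abs_lt_dvd h7 (by rw [abs_lt]; constructor <;> omega)
        omega
      have h8 : (((range p).filter (fun x : ℕ => (p : ℤ) ∣ a i * (x : ℤ) + h i)).card : ℝ) ≤ 1 := by exact_mod_cast h5
      nlinarith
    have h9 : ∑ i ∈ K, ∑ x ∈ range p, (if (p : ℤ) ∣ a i * (x : ℤ) + h i then e else 0) ≤ s * e := by
      refine (sum_le_sum h4).trans ?_
      rw [sum_const, nsmul_eq_mul]
      apply mul_le_mul_of_nonneg_right _ he0
      have := card_le_univ K
      rw [Fintype.card_fin] at this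
      exact_mod_cast this
    linarith
  have h3 : (fun x : ℕ => ∏ i ∈ K, (up p (a i * ((x : ℕ) : ℤ) + h i) : ℂ)) = fun x : ℕ => ∏ i ∈ K, (up p (a i * x + h i) : ℂ) := rfl
  calc 1 / (p : ℝ) * ‖∑ x ∈ range p, ∏ i ∈ K, (up p (a i * x + h i) : ℂ)‖ ≤
      1 / (p : ℝ) * (p * (1 / ((p : ℝ) - 1) ^ 2) + s * e) := by gcongr
    _ = _ := by field_simp

end Pool.Agent.Helper86.PS
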