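import Pool.Agent.Helper86.PS.G5

set_option autoImplicit false

/-!
# Truncation of the singular series on average, local sums
-/

open Finset

namespace Pool.Agent.Helper86.PS

open Pool.Agent.H807R2.Dav

/-- the discriminant of the system of forms -/
def Del {s : ℕ} (a h : Fin s → ℤ) : ℤ := ∏ i, ∏ k ∈ univ.erase i, (a k * h i - a i * h k)

/-- the weights in the sum over subsets -/
noncomputable def ww {s : ℕ} (a h : Fin s → ℤ) (r p : ℕ) (K : Finset (Fin s)) : ℝ :=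
  ((p : ℝ) ^ (1 / (2 * s) : ℝ)) ^ K.card * (if p ∣ r then 1 else lm a h p K)

lemma pow_theta {s p : ℕ} (hs : 1 ≤ s) (hp : 1 ≤ p) (K : Finset (Fin s)) :
    ((p : ℝ) ^ (1 / (2 * s) : ℝ)) ^ K.card ≤ √(p : ℝ) := by
  have hpr : (1 : ℝ) ≤ p := by exact_mod_cast hp
  have hsr : (0 : ℝ) < s := by exact_mod_cast hs
  have h1 : (1 : ℝ) ≤ (p : ℝ) ^ (1 / (2 * s) : ℝ) := Real.one_le_rpow hpr (by positivity)
  have h2 : K.card ≤ s := by
    have := card_le_univ K
    rwa [Fintype.card_fin] at this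
  calc ((p : ℝ) ^ (1 / (2 * s) : ℝ)) ^ K.card ≤ ((p : ℝ) ^ (1 / (2 * s) : ℝ)) ^ s := pow_le_pow_right₀ h1 h2
    _ = √(p : ℝ) := by
      rw [← Real.rpow_natCast, ← Real.rpow_mul (by linarith), Real.sqrt_eq_rpow]
      congr 1
      field_simp

lemma ww_nonneg {s : ℕ} (a h : Fin s → ℤ) (r p : ℕ) (K : Finset (Fin s)) : 0 ≤ ww a h r p K := by
  unfold ww
  have := lm_nonneg a h p K
  split_ifs <;> positivity

lemma loc_bad {s : ℕ} (hs : 1 ≤ s) (a h : Fin s → ℤ) (r : ℕ) {p : ℕ} (hp : p.Prime) :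
    ∑ K : Finset (Fin s), ww a h r p K ≤ (p : ℝ) ^ (s + 1) := by
  have hp2 : (2 : ℝ) ≤ p := by exact_mod_cast hp.two_le
  have h1 : ∀ K ∈ (univ : Finset (Finset (Fin s))), ww a h r p K ≤ p := by
    intro K _
    unfold ww
    have e1 := pow_theta hs hp.pos K
    have e2 : √(p : ℝ) ≤ p := by
      rw [Real.sqrt_le_left (by linarith)]; nlinarith
    have e3 : (if p ∣ r then (1 : ℝ) else lm a h p K) ≤ 1 := by
      split_ifs
      · exact le_rfl
      · exact lm_le_one a h hp K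
    have e4 : 0 ≤ (if p ∣ r then (1 : ℝ) else lm a h p K) := by
      split_ifs
      · exact zero_le_one
      · exact lm_nonneg a h p K
    calc _ ≤ (p : ℝ) * 1 := mul_le_mul (e1.trans e2) e3 e4 (by linarith)
      _ = p := mul_one _
  refine (sum_le_sum h1).trans ?_
  rw [sum_const, nsmul_eq_mul, card_univ, Fintype.card_finset, Fintype.card_fin]
  push_cast
  rw [pow_succ]
  exact mul_le_mul_of_nonneg_right (pow_le_pow_left₀ (by norm_num) hp2 s) (by linarith)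

lemma Del_dvd {s : ℕ} {a h : Fin s → ℤ} {p : ℤ} {i k : Fin s} (hik : i ≠ k) {x : ℤ} (hi : p ∣ a i * x + h i)
    (hk : p ∣ a k * x + h k) : p ∣ Del a h := by
  unfold Del
  have h1 : p ∣ a k * h i - a i * h k := by
    have := dvd_sub (Dvd.dvd.mul_left hi (a k)) (Dvd.dvd.mul_left hk (a i))
    have e1 : a k * (a i * x + h i) - a i * (a k * x + h k) = a k * h i - a i * h k := by ring
    rwa [e1] at this
  refine dvd_trans h1 (dvd_trans (dvd_prod_of_mem (fun k => a k * h i - a i * h k) (mem_erase.2 ⟨hik.symm, mem_univ k⟩))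
    (dvd_prod_of_mem (fun i => ∏ k ∈ univ.erase i, (a k * h i - a i * h k)) (mem_univ i)))

lemma loc_good {s : ℕ} (hs : 1 ≤ s) {a h : Fin s → ℤ} {r p : ℕ} (hp : p.Prime) (hpr : ¬ p ∣ r)
    (ha : ∀ i, ¬ (p : ℤ) ∣ a i) :
    ∑ K : Finset (Fin s), ww a h r p K ≤ 1 + 2 ^ s * (4 * (s + 1)) *
      ((p : ℝ) ^ (-(3 / 2) : ℝ) + if (p : ℤ) ∣ Del a h then (p : ℝ) ^ (-(1 / 2) : ℝ) else 0) := by
  have hp2 : (2 : ℝ) ≤ p := by exact_mod_cast hp.two_le
  have hp0 : (0 : ℝ) < p := by linarith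
  have hsub := prime_sub hp
  have hsr : (1 : ℝ) ≤ s := by exact_mod_cast hs
  obtain ⟨D, hD⟩ : ∃ D : ℝ, D = 4 * (s + 1) * ((p : ℝ) ^ (-(3 / 2) : ℝ) + if (p : ℤ) ∣ Del a h then (p : ℝ) ^ (-(1 / 2) : ℝ) else 0) :=
    ⟨_, rfl⟩
  have hD0 : 0 ≤ D := by
    rw [hD]
    split_ifs <;> positivity
  have h32 : √(p : ℝ) * (1 / (p : ℝ) ^ 2) = (p : ℝ) ^ (-(3 / 2) : ℝ) := by
    rw [Real.sqrt_eq_rpow, show (-(3 / 2) : ℝ) = 1 / 2 - 2 by norm_num, Real.rpow_sub hp0, Real.rpow_two]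
    ring
  have h12 : √(p : ℝ) * (1 / (p : ℝ)) = (p : ℝ) ^ (-(1 / 2) : ℝ) := by
    rw [Real.sqrt_eq_rpow, show (-(1 / 2) : ℝ) = 1 / 2 - 1 by norm_num, Real.rpow_sub hp0, Real.rpow_one]
    ring
  have hp1sq : 1 / ((p : ℝ) - 1) ^ 2 ≤ 4 / (p : ℝ) ^ 2 := by
    rw [div_le_div_iff₀ (by positivity) (by positivity)]
    nlinarith
  have h1 : ∀ K ∈ (univ : Finset (Finset (Fin s))), ww a h r p K ≤ (if K = ∅ then 1 else 0) + D := by
    intro K _
    unfold ww
    rw [if_neg hpr]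
    by_cases hK0 : K = ∅
    · subst hK0
      rw [if_pos rfl, card_empty, pow_zero, one_mul]
      linarith [lm_le_one a h hp ∅]
    rw [if_neg hK0, zero_add]
    have hcard : 1 ≤ K.card := card_pos.2 (nonempty_of_ne_empty hK0)
    rcases Nat.lt_or_ge K.card 2 with hK2 | hK2
    · have : K.card = 1 := by omega
      obtain ⟨i, hi⟩ := card_eq_one.1 this
      rw [hi, lm_one hp (ha i), mul_zero]
      exact hD0
    have e1 := pow_theta hs hp.pos K
    have hs0 : 0 ≤ √(p : ℝ) := Real.sqrt_nonneg _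
    by_cases hdel : (p : ℤ) ∣ Del a h
    · have h2 := lm_two hp ha hK2 (h := h) (e := 1) zero_le_one (by
        intro x _
        exact prod_le_one (fun _ _ => abs_nonneg _) fun i _ => up_abs hp _)
      have h3 : lm a h p K ≤ 4 * (s + 1) * (1 / (p : ℝ)) := by
        refine h2.trans ?_
        have e2 : 4 / (p : ℝ) ^ 2 ≤ 2 / p := by
          rw [div_le_div_iff₀ (by positivity) hp0]
          nlinarith
        have e3 : (s : ℝ) * 1 / p = s * (1 / p) := by ring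
        have e4 : 2 / (p : ℝ) = 2 * (1 / p) := by ring
        rw [e3]
        rw [e4] at e2
        have e5 : 0 ≤ 1 / (p : ℝ) := by positivity
        nlinarith
      rw [hD, if_pos hdel]
      calc ((p : ℝ) ^ (1 / (2 * s) : ℝ)) ^ K.card * lm a h p K ≤ √(p : ℝ) * (4 * (s + 1) * (1 / (p : ℝ))) :=
            mul_le_mul e1 h3 (lm_nonneg a h p K) hs0
        _ = 4 * (s + 1) * (√(p : ℝ) * (1 / (p : ℝ))) := by ring
        _ = 4 * (s + 1) * ((p : ℝ) ^ (-(1 / 2) : ℝ)) := by rw [h12]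
        _ ≤ _ := by
          apply mul_le_mul_of_nonneg_left _ (by positivity)
          have : 0 ≤ (p : ℝ) ^ (-(3 / 2) : ℝ) := by positivity
          linarith
    · have h2 := lm_two hp ha hK2 (h := h) (e := 1 / ((p : ℝ) - 1)) (by positivity) (by
        intro x hx
        obtain ⟨i, hi, hid⟩ := hx
        obtain ⟨k, hk, hki⟩ := exists_mem_ne (by omega : 1 < K.card) i
        have hkd : ¬ (p : ℤ) ∣ a k * x + h k := fun hc => hdel (Del_dvd hki.symm hid hc)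
        rw [← mul_prod_erase K _ hk]
        have e2 : |up p (a k * x + h k)| = 1 / ((p : ℝ) - 1) := by rw [up_abs_eq hp, if_neg hkd]
        rw [e2]
        have e3 : ∏ i ∈ K.erase k, |up p (a i * x + h i)| ≤ 1 :=
          prod_le_one (fun _ _ => abs_nonneg _) fun i _ => up_abs hp _
        calc 1 / ((p : ℝ) - 1) * ∏ i ∈ K.erase k, |up p (a i * x + h i)| ≤ 1 / ((p : ℝ) - 1) * 1 :=
              mul_le_mul_of_nonneg_left e3 (by positivity)
          _ = _ := mul_one _)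
      have h3 : lm a h p K ≤ 4 * (s + 1) * (1 / (p : ℝ) ^ 2) := by
        refine h2.trans ?_
        have e2 : (s : ℝ) * (1 / ((p : ℝ) - 1)) / p ≤ s * (1 / ((p : ℝ) - 1) ^ 2) := by
          rw [mul_div_assoc]
          apply mul_le_mul_of_nonneg_left _ (by positivity)
          rw [div_div]
          apply one_div_le_one_div_of_le (by positivity)
          nlinarith
        have e3 : 4 * ((s : ℝ) + 1) * (1 / (p : ℝ) ^ 2) = (s + 1) * (4 / (p : ℝ) ^ 2) := by ring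
        rw [e3]
        have e4 : ((s : ℝ) + 1) * (1 / ((p : ℝ) - 1) ^ 2) ≤ (s + 1) * (4 / (p : ℝ) ^ 2) :=
          mul_le_mul_of_nonneg_left hp1sq (by positivity)
        linarith
      rw [hD, if_neg hdel, add_zero]
      calc ((p : ℝ) ^ (1 / (2 * s) : ℝ)) ^ K.card * lm a h p K ≤ √(p : ℝ) * (4 * (s + 1) * (1 / (p : ℝ) ^ 2)) :=
            mul_le_mul e1 h3 (lm_nonneg a h p K) hs0
        _ = 4 * (s + 1) * (√(p : ℝ) * (1 / (p : ℝ) ^ 2)) := by ring
        _ = _ := by rw [h32]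
  refine (sum_le_sum h1).trans ?_
  rw [sum_add_distrib, sum_ite_eq', if_pos (mem_univ _), sum_const, nsmul_eq_mul, card_univ, Fintype.card_finset,
    Fintype.card_fin, hD]
  push_cast
  exact le_of_eq (by ring)

/-- the sum of `p^(-1/2)` over a finite set -/
lemma sum_inv_sqrt (T : Finset ℕ) (hT : ∀ p ∈ T, 1 ≤ p) : ∑ p ∈ T, (p : ℝ) ^ (-(1 / 2) : ℝ) ≤ 2 * √(T.card : ℝ) := by
  induction T using Finset.induction_on_max with
  | empty => simp
  | insert m T hm ih =>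
    have hmT : m ∉ T := fun h => lt_irrefl _ (hm m h)
    have ih' := ih fun p hp => hT p (mem_insert_of_mem hp)
    rw [sum_insert hmT, card_insert_of_notMem hmT]
    have hcard : T.card + 1 ≤ m := by
      have h1 : T ⊆ Ico 1 m := fun p hp => mem_Ico.2 ⟨hT p (mem_insert_of_mem hp), hm p hp⟩
      have h2 := card_le_card h1
      rw [Nat.card_Ico] at h2
      have := hT m (mem_insert_self m T)
      omega
    have ht0 : (0 : ℝ) ≤ T.card := Nat.cast_nonneg _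
    have h1 : (m : ℝ) ^ (-(1 / 2) : ℝ) ≤ 1 / √((T.card : ℝ) + 1) := by
      rw [Real.rpow_neg (Nat.cast_nonneg _), ← Real.sqrt_eq_rpow, ← one_div]
      apply one_div_le_one_div_of_le (by positivity)
      apply Real.sqrt_le_sqrt
      exact_mod_cast hcard
    have h2 : 1 / √((T.card : ℝ) + 1) ≤ 2 * (√((T.card : ℝ) + 1) - √(T.card : ℝ)) := by
      have e1 := Real.sq_sqrt ht0
      have e2 := Real.sq_sqrt (by linarith : 0 ≤ (T.card : ℝ) + 1)
      have e3 := Real.sqrt_nonneg (T.card : ℝ)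
      have e4 : 0 < √((T.card : ℝ) + 1) := by positivity
      have e5 : √(T.card : ℝ) ≤ √((T.card : ℝ) + 1) := Real.sqrt_le_sqrt (by linarith)
      rw [div_le_iff₀ e4]
      nlinarith
    push_cast
    linarith

lemma exists_Z : ∃ Z : ℝ, 0 ≤ Z ∧ ∀ T : Finset ℕ, ∑ p ∈ T, (p : ℝ) ^ (-(3 / 2) : ℝ) ≤ Z := by
  have h1 : Summable fun n : ℕ => (n : ℝ) ^ (-(3 / 2) : ℝ) := Real.summable_nat_rpow.2 (by norm_num)
  refine ⟨∑' n : ℕ, (n : ℝ) ^ (-(3 / 2) : ℝ), tsum_nonneg fun n => by positivity, fun T => ?_⟩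
  exact h1.sum_le_tsum T fun n _ => by positivity

/-- the product of the local sums -/
lemma loc_prod {s : ℕ} (hs : 1 ≤ s) {Z : ℝ} (hZ : ∀ T : Finset ℕ, ∑ p ∈ T, (p : ℝ) ^ (-(3 / 2) : ℝ) ≤ Z)
    {a h : Fin s → ℤ} (ha : ∀ i, a i ≠ 0) (hΔ : Del a h ≠ 0) {r : ℕ} (hr : 0 < r) (R : ℕ) :
    ∏ p ∈ PR R, ∑ K : Finset (Fin s), ww a h r p K ≤
      ((r * ∏ i, (a i).natAbs : ℕ) : ℝ) ^ (s + 1) *
        Real.exp (2 ^ s * (4 * (s + 1)) * (Z + 2 * √(Nat.log 2 (Del a h).natAbs : ℝ))) := by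
  obtain ⟨n, hn⟩ : ∃ n : ℕ, n = r * ∏ i, (a i).natAbs := ⟨_, rfl⟩
  have hn0 : 0 < n := by
    rw [hn]
    apply Nat.mul_pos hr
    apply Finset.prod_pos
    intro i _
    exact Int.natAbs_pos.2 (ha i)
  rw [← hn, ← prod_filter_mul_prod_filter_not (PR R) (fun p => p ∣ n)]
  have hpr : ∀ p ∈ PR R, p.Prime := fun p hp => (mem_PR.1 hp).2
  have hwn : ∀ p : ℕ, 0 ≤ ∑ K : Finset (Fin s), ww a h r p K := fun p => sum_nonneg fun K _ => ww_nonneg a h r p K
  have h1 : ∏ p ∈ (PR R).filter (fun p => p ∣ n), ∑ K : Finset (Fin s), ww a h r p K ≤ (n : ℝ) ^ (s + 1) := by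
    calc ∏ p ∈ (PR R).filter (fun p => p ∣ n), ∑ K : Finset (Fin s), ww a h r p K ≤
        ∏ p ∈ (PR R).filter (fun p => p ∣ n), (p : ℝ) ^ (s + 1) :=
          prod_le_prod (fun p _ => hwn p) fun p hp => loc_bad hs a h r (hpr p (mem_filter.1 hp).1)
      _ = (((∏ p ∈ (PR R).filter (fun p => p ∣ n), p : ℕ)) : ℝ) ^ (s + 1) := by rw [prod_pow]; push_cast; rfl
      _ ≤ _ := by
        apply pow_le_pow_left₀ (Nat.cast_nonneg _)
        have e1 : ∏ p ∈ (PR R).filter (fun p => p ∣ n), p ∣ n := by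
          refine dvd_trans (Finset.prod_dvd_prod_of_subset _ n.primeFactors _ ?_) (Nat.prod_primeFactors_dvd n)
          intro p hp
          rw [mem_filter] at hp
          rw [Nat.mem_primeFactors]
          exact ⟨hpr p hp.1, hp.2, hn0.ne'⟩
        exact_mod_cast Nat.le_of_dvd hn0 e1
  have h2 : ∏ p ∈ (PR R).filter (fun p => ¬ p ∣ n), ∑ K : Finset (Fin s), ww a h r p K ≤
      Real.exp (2 ^ s * (4 * (s + 1)) * (Z + 2 * √(Nat.log 2 (Del a h).natAbs : ℝ))) := by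
    obtain ⟨x, hx⟩ : ∃ x : ℕ → ℝ, x = fun p : ℕ => (2 : ℝ) ^ s * (4 * (s + 1)) *
      ((p : ℝ) ^ (-(3 / 2) : ℝ) + if (p : ℤ) ∣ Del a h then (p : ℝ) ^ (-(1 / 2) : ℝ) else 0) := ⟨_, rfl⟩
    have e1 : ∏ p ∈ (PR R).filter (fun p => ¬ p ∣ n), ∑ K : Finset (Fin s), ww a h r p K ≤
        ∏ p ∈ (PR R).filter (fun p => ¬ p ∣ n), Real.exp (x p) := by
      apply prod_le_prod (fun p _ => hwn p)
      intro p hp
      rw [mem_filter] at hp
      have q1 : ¬ p ∣ r := fun hc => hp.2 (by rw [hn]; exact Dvd.dvd.mul_right hc _)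
      have q2 : ∀ i, ¬ (p : ℤ) ∣ a i := by
        intro i hc
        apply hp.2
        rw [hn]
        apply Dvd.dvd.mul_left
        exact (Int.natCast_dvd.1 hc).trans (dvd_prod_of_mem (fun i => (a i).natAbs) (mem_univ i))
      refine (loc_good hs (hpr p hp.1) q1 q2).trans ?_
      rw [hx]
      have := Real.add_one_le_exp (2 ^ s * (4 * ((s : ℝ) + 1)) *
        ((p : ℝ) ^ (-(3 / 2) : ℝ) + if (p : ℤ) ∣ Del a h then (p : ℝ) ^ (-(1 / 2) : ℝ) else 0))
      linarith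
    refine e1.trans ?_
    rw [← Real.exp_sum]
    apply Real.exp_le_exp.2
    have e2 : ∑ p ∈ (PR R).filter (fun p => ¬ p ∣ n), x p = (2 : ℝ) ^ s * (4 * (s + 1)) *
        ∑ p ∈ (PR R).filter (fun p => ¬ p ∣ n), ((p : ℝ) ^ (-(3 / 2) : ℝ) +
          if ((p : ℕ) : ℤ) ∣ Del a h then (p : ℝ) ^ (-(1 / 2) : ℝ) else 0) := by
      rw [hx, mul_sum]
    rw [e2]
    apply mul_le_mul_of_nonneg_left _ (by positivity)
    rw [sum_add_distrib]
    apply add_le_add (hZ _)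
    rw [← sum_filter]
    obtain ⟨T, hT⟩ : ∃ T : Finset ℕ, T = ((PR R).filter (fun p => ¬ p ∣ n)).filter (fun p : ℕ => (p : ℤ) ∣ Del a h) := ⟨_, rfl⟩
    rw [← hT]
    have hTp : ∀ p ∈ T, p.Prime := by
      intro p hp
      rw [hT, mem_filter, mem_filter] at hp
      exact hpr p hp.1.1
    refine (sum_inv_sqrt T fun p hp => (hTp p hp).pos).trans ?_
    apply mul_le_mul_of_nonneg_left _ (by norm_num)
    apply Real.sqrt_le_sqrt
    have hcard : T.card ≤ Nat.log 2 (Del a h).natAbs := by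
      apply card_le_log (fun p hp => (hTp p hp).two_le)
      apply Nat.le_of_dvd (Int.natAbs_pos.2 hΔ)
      refine dvd_trans (Finset.prod_dvd_prod_of_subset _ (Del a h).natAbs.primeFactors _ ?_) (Nat.prod_primeFactors_dvd _)
      intro p hp
      rw [Nat.mem_primeFactors]
      refine ⟨hTp p hp, ?_, (Int.natAbs_pos.2 hΔ).ne'⟩
      rw [hT, mem_filter] at hp
      exact Int.natCast_dvd.1 hp.2
    exact_mod_cast hcard
  exact mul_le_mul h1 h2 (prod_nonneg fun p _ => hwn p) (by positivity)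

end Pool.Agent.Helper86.PS
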