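import Pool.Agent.Helper86.PS.G6

set_option autoImplicit false

/-!
# The means attached to tuples of characters
-/

open Finset

namespace Pool.Agent.Helper86.PS

open Pool.Agent.H807R2.Dav

/-- the local factor of the singular series, as a mean -/
noncomputable def spp {s : ℕ} (a h : Fin s → ℤ) (p : ℕ) : ℝ :=
  1 / (p : ℝ) * ∑ x ∈ range p, ∏ i, (1 + up p (a i * x + h i))

/-- the truncated singular series -/
noncomputable def SPR {s : ℕ} (R : ℕ) (a h : Fin s → ℤ) : ℝ := ∏ p ∈ PR R, spp a h p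

/-- all tuples of sets of primes -/
def PT (s R : ℕ) : Finset (Fin s → Finset ℕ) := Fintype.piFinset fun _ => (PR R).powerset

lemma ST_sub_PT (s R : ℕ) : ST s R ⊆ PT s R := by
  unfold ST PT
  apply Fintype.piFinset_subset
  intro _
  unfold SS
  exact filter_subset _ _

lemma PT_prime {s R : ℕ} {S : Fin s → Finset ℕ} (hS : S ∈ PT s R) (i : Fin s) : ∀ p ∈ S i, p.Prime := fun p hp =>
  (mem_PR.1 (mem_powerset.1 (Fintype.mem_piFinset.1 hS i) hp)).2

/-- the block of moduli -/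
def rr {s : ℕ} (j : Fin s → PC) : ℕ := ∏ i, ((j i).1 + 1)

lemma rr_pos {s : ℕ} (j : Fin s → PC) : 0 < rr j := Finset.prod_pos fun _ _ => Nat.succ_pos _

/-- the primes outside the block -/
def TT {s : ℕ} (R : ℕ) (j : Fin s → PC) : Finset ℕ := (PR R).filter fun p => ¬ p ∣ rr j

lemma TT_prime {s R : ℕ} {j : Fin s → PC} : ∀ p ∈ TT R j, p.Prime := fun p hp => (mem_PR.1 (mem_filter.1 hp).1).2

lemma swap_prod {s : ℕ} {P : Finset ℕ} {S : Fin s → Finset ℕ} (hS : ∀ i, S i ⊆ P) (f : ℕ → Fin s → ℂ) :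
    ∏ i, ∏ p ∈ S i, f p i = ∏ p ∈ P, ∏ i ∈ univ.filter (fun i => p ∈ S i), f p i := by
  have h1 : ∀ i : Fin s, ∏ p ∈ S i, f p i = ∏ p ∈ P, if p ∈ S i then f p i else 1 := by
    intro i
    rw [← prod_filter, filter_mem_eq_inter, inter_eq_right.2 (hS i)]
  rw [prod_congr rfl fun i _ => h1 i, prod_comm]
  apply prod_congr rfl
  intro p _
  rw [prod_filter]

lemma gg_mean_le {s R : ℕ} {a h : Fin s → ℤ} {j : Fin s → PC} {S : Fin s → Finset ℕ} (hS : S ∈ PT s R) :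
    ‖mn (rr j * ∏ p ∈ TT R j, p) (gg a h j S)‖ ≤ ∏ p ∈ TT R j, lm a h p (univ.filter fun i => p ∈ S i) := by
  have hSP : ∀ i, S i ⊆ PR R := fun i => mem_powerset.1 (Fintype.mem_piFinset.1 hS i)
  obtain ⟨ψ, hψ⟩ : ∃ ψ : ℤ → ℂ, ψ = fun x => (∏ i, cz (j i) (a i * x + h i)) *
    ∏ p ∈ (PR R).filter (fun p => p ∣ rr j), ∏ i ∈ univ.filter (fun i => p ∈ S i), (up p (a i * x + h i) : ℂ) := ⟨_, rfl⟩
  obtain ⟨φ, hφ⟩ : ∃ φ : ℕ → ℤ → ℂ, φ = fun p x => ∏ i ∈ univ.filter (fun i => p ∈ S i), (up p (a i * x + h i) : ℂ) :=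
    ⟨_, rfl⟩
  have h1 : gg a h j S = fun x => ψ x * ∏ p ∈ TT R j, φ p x := by
    ext x
    unfold gg GG
    rw [prod_mul_distrib, swap_prod hSP (fun p i => (up p (a i * x + h i) : ℂ)),
      ← prod_filter_mul_prod_filter_not (PR R) (fun p => p ∣ rr j), hψ, hφ]
    unfold TT
    ring
  have hψp : Per (rr j) ψ := by
    rw [hψ]
    apply Per.mul
    · apply Per.prod
      intro i _
      exact ((cz_per (j i)).mono (dvd_prod_of_mem (fun i => (j i).1 + 1) (mem_univ i))).comp _ _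
    · apply Per.prod
      intro p hp
      apply Per.prod
      intro i _
      exact ((up_per p).mono (mem_filter.1 hp).2).comp (a i) (h i)
  have hφp : ∀ p ∈ TT R j, Per p (φ p) := by
    intro p _
    rw [hφ]
    apply Per.prod
    intro i _
    exact (up_per p).comp (a i) (h i)
  rw [h1, mn_primes TT_prime (fun p hp => (mem_filter.1 hp).2) hψp hφp, norm_mul, norm_prod]
  have h2 : ‖mn (rr j) ψ‖ ≤ 1 := by
    apply mn_norm_le zero_le_one
    intro x
    rw [hψ]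
    simp only
    rw [norm_mul, norm_prod, norm_prod]
    have e1 : ∏ i, ‖cz (j i) (a i * x + h i)‖ ≤ 1 := prod_le_one (fun _ _ => norm_nonneg _) fun i _ => cz_norm_le _ _
    have e2 : ∏ p ∈ (PR R).filter (fun p => p ∣ rr j), ‖∏ i ∈ univ.filter (fun i => p ∈ S i), (up p (a i * x + h i) : ℂ)‖ ≤ 1 := by
      apply prod_le_one (fun _ _ => norm_nonneg _)
      intro p hp
      rw [norm_prod]
      apply prod_le_one (fun _ _ => norm_nonneg _)
      intro i _
      rw [Complex.norm_real, Real.norm_eq_abs]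
      exact up_abs (mem_PR.1 (mem_filter.1 hp).1).2 _
    exact mul_le_one₀ e1 (prod_nonneg fun _ _ => norm_nonneg _) e2
  have h3 : ∏ p ∈ TT R j, ‖mn p (φ p)‖ = ∏ p ∈ TT R j, lm a h p (univ.filter fun i => p ∈ S i) := by
    apply prod_congr rfl
    intro p _
    rw [hφ]
    rfl
  rw [h3]
  have h4 : 0 ≤ ∏ p ∈ TT R j, lm a h p (univ.filter fun i => p ∈ S i) := prod_nonneg fun p _ => lm_nonneg _ _ _ _
  calc _ ≤ 1 * ∏ p ∈ TT R j, lm a h p (univ.filter fun i => p ∈ S i) := mul_le_mul_of_nonneg_right h2 h4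
    _ = _ := one_mul _

/-- the truncation error -/
noncomputable def tau (s Q R A : ℕ) (Z : ℝ) (D : ℕ) : ℝ :=
  (((Q : ℝ) ^ s * A) ^ (s + 1) * Real.exp (2 ^ s * (4 * (s + 1)) * (Z + 2 * √(Nat.log 2 D : ℝ)))) /
    (R : ℝ) ^ (1 / (2 * s) : ℝ)

lemma rankin {s : ℕ} (hs : 1 ≤ s) {Z : ℝ} (hZ : ∀ T : Finset ℕ, ∑ p ∈ T, (p : ℝ) ^ (-(3 / 2) : ℝ) ≤ Z)
    {a h : Fin s → ℤ} (ha : ∀ i, a i ≠ 0) (hΔ : Del a h ≠ 0) {Q R : ℕ} (hR : 1 ≤ R) {j : Fin s → PC} (hj : j ∈ FT_ s Q) :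
    ∑ S ∈ PT s R \ ST s R, ‖mn (rr j * ∏ p ∈ TT R j, p) (gg a h j S)‖ ≤
      tau s Q R (∏ i, (a i).natAbs) Z (Del a h).natAbs := by
  have hRr : (1 : ℝ) ≤ R := by exact_mod_cast hR
  have hsr : (0 : ℝ) < s := by exact_mod_cast hs
  have hRθ : 0 < (R : ℝ) ^ (1 / (2 * s) : ℝ) := by positivity
  have h1 : ∀ S ∈ PT s R \ ST s R, ‖mn (rr j * ∏ p ∈ TT R j, p) (gg a h j S)‖ ≤
      (∏ p ∈ PR R, ww a h (rr j) p (univ.filter fun i => p ∈ S i)) / (R : ℝ) ^ (1 / (2 * s) : ℝ) := by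
    intro S hS
    rw [mem_sdiff] at hS
    obtain ⟨hS1, hS2⟩ := hS
    have hSP : ∀ i, S i ⊆ PR R := fun i => mem_powerset.1 (Fintype.mem_piFinset.1 hS1 i)
    have hex : ∃ i, R < ∏ p ∈ S i, p := by
      by_contra hcon
      push Not at hcon
      apply hS2
      unfold ST
      rw [Fintype.mem_piFinset]
      intro i
      exact mem_SS (PT_prime hS1 i) (hcon i)
    obtain ⟨i, hi⟩ := hex
    rw [le_div_iff₀ hRθ]
    have e1 : ∏ p ∈ PR R, ww a h (rr j) p (univ.filter fun i => p ∈ S i) =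
        (∏ i, ∏ p ∈ S i, (p : ℝ) ^ (1 / (2 * s) : ℝ)) * ∏ p ∈ TT R j, lm a h p (univ.filter fun i => p ∈ S i) := by
      unfold ww
      rw [prod_mul_distrib]
      congr 1
      · have h2 : ∀ i : Fin s, ∏ p ∈ S i, (p : ℝ) ^ (1 / (2 * s) : ℝ) =
            ∏ p ∈ PR R, if p ∈ S i then (p : ℝ) ^ (1 / (2 * s) : ℝ) else 1 := by
          intro i
          rw [← prod_filter, filter_mem_eq_inter, inter_eq_right.2 (hSP i)]
        rw [prod_congr rfl fun i _ => h2 i, prod_comm]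
        apply prod_congr rfl
        intro p _
        rw [← prod_filter, prod_const]
      · unfold TT
        rw [prod_filter]
        apply prod_congr rfl
        intro p _
        by_cases hp : p ∣ rr j
        · rw [if_pos hp, if_neg (not_not.2 hp)]
        · rw [if_neg hp, if_pos hp]
    rw [e1, mul_comm]
    apply mul_le_mul _ (gg_mean_le hS1) (norm_nonneg _) (by positivity)
    have e2 : (R : ℝ) ^ (1 / (2 * s) : ℝ) ≤ ∏ p ∈ S i, (p : ℝ) ^ (1 / (2 * s) : ℝ) := by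
      rw [Real.finsetProd_rpow _ _ (fun p _ => Nat.cast_nonneg p)]
      apply Real.rpow_le_rpow (by positivity) _ (by positivity)
      have : ((∏ p ∈ S i, p : ℕ) : ℝ) = ∏ p ∈ S i, (p : ℝ) := Nat.cast_prod _ _
      rw [← this]
      exact_mod_cast hi.le
    refine e2.trans ?_
    rw [← mul_prod_erase univ _ (mem_univ i)]
    apply le_mul_of_one_le_right (by positivity)
    have e3 : ∏ _k ∈ univ.erase i, (1 : ℝ) ≤ ∏ k ∈ univ.erase i, ∏ p ∈ S k, (p : ℝ) ^ (1 / (2 * s) : ℝ) := by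
      apply prod_le_prod (fun _ _ => zero_le_one)
      intro k _
      have e4 : ∏ _p ∈ S k, (1 : ℝ) ≤ ∏ p ∈ S k, (p : ℝ) ^ (1 / (2 * s) : ℝ) := by
        apply prod_le_prod (fun _ _ => zero_le_one)
        intro p hp
        apply Real.one_le_rpow _ (by positivity)
        exact_mod_cast (PT_prime hS1 k p hp).pos
      rwa [prod_const_one] at e4
    rwa [prod_const_one] at e3
  refine (sum_le_sum h1).trans ?_
  rw [← sum_div]
  unfold tau
  apply div_le_div_of_nonneg_right _ hRθ.le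
  have h2 : ∑ S ∈ PT s R \ ST s R, ∏ p ∈ PR R, ww a h (rr j) p (univ.filter fun i => p ∈ S i) ≤
      ∑ S ∈ PT s R, ∏ p ∈ PR R, ww a h (rr j) p (univ.filter fun i => p ∈ S i) := by
    apply sum_le_sum_of_subset_of_nonneg sdiff_subset
    intro S _ _
    exact prod_nonneg fun p _ => ww_nonneg _ _ _ _ _
  refine h2.trans ?_
  unfold PT
  rw [transpose (PR R) (fun p K => ww a h (rr j) p K)]
  refine (loc_prod hs hZ ha hΔ (rr_pos j) R).trans ?_
  apply mul_le_mul_of_nonneg_right _ (by positivity)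
  apply pow_le_pow_left₀ (Nat.cast_nonneg _)
  push_cast
  apply mul_le_mul_of_nonneg_right _ (by positivity)
  have h3 : rr j ≤ Q ^ s := by
    unfold rr
    calc ∏ i, ((j i).1 + 1) ≤ ∏ _i : Fin s, Q := Finset.prod_le_prod' fun i _ => (mem_fam.1 (Fintype.mem_piFinset.1 hj i)).1
      _ = Q ^ s := by rw [prod_const, card_univ, Fintype.card_fin]
  exact_mod_cast h3

lemma sum_PT {s : ℕ} (R : ℕ) (a h : Fin s → ℤ) (j : Fin s → PC) (x : ℤ) :
    ∑ S ∈ PT s R, gg a h j S x = ((∏ p ∈ PR R, ∏ i, (1 + up p (a i * x + h i)) : ℝ) : ℂ) * ∏ i, cz (j i) (a i * x + h i) := by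
  unfold PT gg
  rw [← prod_univ_sum (fun _ : Fin s => (PR R).powerset) (fun i S => GG (j i) S (a i * x + h i))]
  have h1 : ∀ i : Fin s, ∑ S ∈ (PR R).powerset, GG (j i) S (a i * x + h i) =
      (∏ p ∈ PR R, (1 + (up p (a i * x + h i) : ℂ))) * cz (j i) (a i * x + h i) := by
    intro i
    unfold GG
    rw [← sum_mul, prod_one_add]
  rw [prod_congr rfl fun i _ => h1 i, prod_mul_distrib, prod_comm]
  congr 1
  push_cast
  rfl

lemma mn_full {s : ℕ} (R : ℕ) (a h : Fin s → ℤ) {m : ℕ} (hm : 0 < m) (hP : ∀ p ∈ PR R, p ∣ m) :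
    mn m (fun x => ((∏ p ∈ PR R, ∏ i, (1 + up p (a i * x + h i)) : ℝ) : ℂ)) = (SPR R a h : ℂ) := by
  obtain ⟨φ, hφ⟩ : ∃ φ : ℕ → ℤ → ℂ, φ = fun p x => ∏ i, (1 + (up p (a i * x + h i) : ℂ)) := ⟨_, rfl⟩
  have h1 : (fun x : ℤ => ((∏ p ∈ PR R, ∏ i, (1 + up p (a i * x + h i)) : ℝ) : ℂ)) =
      fun x => (fun _ => (1 : ℂ)) x * ∏ p ∈ PR R, φ p x := by
    ext x
    rw [hφ]
    push_cast
    rw [one_mul]
  have hφp : ∀ p ∈ PR R, Per p (φ p) := by
    intro p _
    rw [hφ]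
    apply Per.prod
    intro i _
    intro x y hxy
    simp only
    rw [show (up p (a i * x + h i) : ℂ) = up p (a i * y + h i) from (up_per p).comp (a i) (h i) x y hxy]
  have hper1 : Per m (fun x => (fun _ => (1 : ℂ)) x * ∏ p ∈ PR R, φ p x) := by
    apply Per.mul (per_const m 1)
    apply Per.prod
    intro p hp
    exact (hφp p hp).mono (hP p hp)
  have hper2 : Per (1 * ∏ p ∈ PR R, p) (fun x => (fun _ => (1 : ℂ)) x * ∏ p ∈ PR R, φ p x) := by
    apply Per.mul (per_const _ 1)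
    apply Per.prod
    intro p hp
    exact (hφp p hp).mono (dvd_mul_of_dvd_right (dvd_prod_of_mem _ hp) _)
  have hpos : 0 < 1 * ∏ p ∈ PR R, p := by
    rw [one_mul]
    exact Finset.prod_pos fun p hp => (mem_PR.1 hp).2.pos
  rw [h1, mn_two hper1 hper2 hm hpos, mn_primes (fun p hp => (mem_PR.1 hp).2)
    (fun p hp => Nat.Prime.not_dvd_one (mem_PR.1 hp).2) (per_const 1 1) hφp, mn_const one_pos, one_mul]
  unfold SPR
  push_cast
  apply prod_congr rfl
  intro p _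
  rw [hφ]
  unfold mn spp
  push_cast
  rfl

/-- **the means attached to tuples of characters** -/
theorem mu_bound {s : ℕ} (hs : 1 ≤ s) {Z : ℝ} (hZ : ∀ T : Finset ℕ, ∑ p ∈ T, (p : ℝ) ^ (-(3 / 2) : ℝ) ≤ Z)
    {a h : Fin s → ℤ} (ha : ∀ i, a i ≠ 0) (hΔ : Del a h ≠ 0) {Q R : ℕ} (hR : 1 ≤ R) {j : Fin s → PC} (hj : j ∈ FT_ s Q) :
    ‖mu R a h j‖ ≤ SPR R a h + tau s Q R (∏ i, (a i).natAbs) Z (Del a h).natAbs ∧
    ((∀ i, dl (j i) ≠ 0) → ‖mu R a h j - SPR R a h‖ ≤ tau s Q R (∏ i, (a i).natAbs) Z (Del a h).natAbs) := by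
  obtain ⟨m, hm⟩ : ∃ m : ℕ, m = rr j * ∏ p ∈ TT R j, p := ⟨_, rfl⟩
  have hm0 : 0 < m := by
    rw [hm]; exact Nat.mul_pos (rr_pos j) (Finset.prod_pos fun p hp => (TT_prime p hp).pos)
  have hPm : ∀ p ∈ PR R, p ∣ m := by
    intro p hp
    rw [hm]
    by_cases hpr : p ∣ rr j
    · exact Dvd.dvd.mul_right hpr _
    · apply Dvd.dvd.mul_left
      exact dvd_prod_of_mem _ (mem_filter.2 ⟨hp, hpr⟩)
  have hjm : ∀ i, (j i).1 + 1 ∣ m := by
    intro i
    rw [hm]
    exact Dvd.dvd.mul_right (dvd_prod_of_mem (fun i => (j i).1 + 1) (mem_univ i)) _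
  have hgper : ∀ S ∈ PT s R, Per m (gg a h j S) := by
    intro S hS
    apply gg_per hjm
    intro i p hp
    exact hPm p (mem_powerset.1 (Fintype.mem_piFinset.1 hS i) hp)
  have h1 : mu R a h j = ∑ S ∈ PT s R, mn m (gg a h j S) - ∑ S ∈ PT s R \ ST s R, mn m (gg a h j S) := by
    rw [eq_sub_iff_add_eq, ← sum_sdiff (ST_sub_PT s R), add_comm]
    congr 1
    unfold mu
    apply sum_congr rfl
    intro S hS
    have hSP := ST_sub_PT s R hS
    exact mn_two (gg_per_pp a h j S) (hgper S hSP) (pp_pos (PT_prime hSP)) hm0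
  have h2 : ‖∑ S ∈ PT s R \ ST s R, mn m (gg a h j S)‖ ≤ tau s Q R (∏ i, (a i).natAbs) Z (Del a h).natAbs := by
    refine (norm_sum_le _ _).trans ?_
    rw [hm]
    exact rankin hs hZ ha hΔ hR hj
  have h3 : ∑ S ∈ PT s R, mn m (gg a h j S) = mn m (fun x =>
      ((∏ p ∈ PR R, ∏ i, (1 + up p (a i * x + h i)) : ℝ) : ℂ) * ∏ i, cz (j i) (a i * x + h i)) := by
    rw [← mn_sum]
    congr 1
    ext x
    exact sum_PT R a h j x
  have hFr : ∀ x : ℤ, 0 ≤ ∏ p ∈ PR R, ∏ i, (1 + up p (a i * x + h i)) := fun x =>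
    prod_nonneg fun p hp => prod_nonneg fun i _ => one_add_up_nonneg (mem_PR.1 hp).2 _
  constructor
  · rw [h1]
    refine (norm_sub_le _ _).trans (add_le_add ?_ h2)
    rw [h3]
    have h4 := mn_full R a h hm0 hPm
    have h5 : (SPR R a h : ℝ) = 1 / (m : ℝ) * ∑ x ∈ range m, ∏ p ∈ PR R, ∏ i, (1 + up p (a i * (x : ℤ) + h i)) := by
      have : ((SPR R a h : ℝ) : ℂ) = ((1 / (m : ℝ) * ∑ x ∈ range m, ∏ p ∈ PR R, ∏ i, (1 + up p (a i * (x : ℤ) + h i)) : ℝ) : ℂ) := by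
        rw [← h4]
        unfold mn
        push_cast
        rfl
      exact_mod_cast this
    rw [h5]
    unfold mn
    rw [norm_mul, norm_div, norm_one, Complex.norm_natCast]
    apply mul_le_mul_of_nonneg_left _ (by positivity)
    refine (norm_sum_le _ _).trans (sum_le_sum fun x _ => ?_)
    rw [norm_mul, Complex.norm_real, Real.norm_eq_abs, abs_of_nonneg (hFr x), norm_prod]
    have h6 : ∏ i, ‖cz (j i) (a i * (x : ℤ) + h i)‖ ≤ 1 := prod_le_one (fun _ _ => norm_nonneg _) fun i _ => cz_norm_le _ _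
    calc _ ≤ (∏ p ∈ PR R, ∏ i, (1 + up p (a i * (x : ℤ) + h i))) * 1 := mul_le_mul_of_nonneg_left h6 (hFr x)
      _ = _ := mul_one _
  · intro hdl
    have hcz : ∀ i x, cz (j i) x = 1 := by
      intro i x
      have h4 := hdl i
      unfold dl at h4
      have h5 : (j i).2 = 1 := by
        by_contra hc
        rw [if_neg hc] at h4
        exact h4 rfl
      have h6 := trivial_fam (Fintype.mem_piFinset.1 hj i) h5
      have h7 : fz (j i) x = 1 := by
        rw [h6]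
        unfold fz
        have : IsUnit ((x : ℤ) : ZMod (0 + 1)) := by
          have hsub : Subsingleton (ZMod (0 + 1)) := (inferInstance : Subsingleton (ZMod 1))
          have : ((x : ℤ) : ZMod (0 + 1)) = 1 := hsub.elim _ _
          rw [this]; exact isUnit_one
        exact MulChar.one_apply this
      unfold cz
      rw [h7, map_one]
    have h8 : ∑ S ∈ PT s R, mn m (gg a h j S) = (SPR R a h : ℂ) := by
      rw [h3, ← mn_full R a h hm0 hPm]
      congr 1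
      ext x
      simp only [hcz, prod_const_one, mul_one]
    rw [h1, h8]
    have : (SPR R a h : ℂ) - ∑ S ∈ PT s R \ ST s R, mn m (gg a h j S) - SPR R a h =
        -∑ S ∈ PT s R \ ST s R, mn m (gg a h j S) := by ring
    rw [this, norm_neg]
    exact h2

end Pool.Agent.Helper86.PS
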