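import Pool.Agent.Helper86.PS.G7

set_option autoImplicit false

/-!
# The main term
-/

open Finset

namespace Pool.Agent.Helper86.PS

open Pool.Agent.H807R2.Dav

lemma prod_close {ι : Type} [DecidableEq ι] (T : Finset ι) {w d : ι → ℂ} {b : ι → ℝ} (hb : ∀ i ∈ T, ‖w i - d i‖ ≤ b i) :
    ‖∏ i ∈ T, w i - ∏ i ∈ T, d i‖ ≤ ∏ i ∈ T, (‖d i‖ + b i) - ∏ i ∈ T, ‖d i‖ := by
  induction T using Finset.induction_on with
  | empty => simp
  | insert i T hi ih =>
    rw [prod_insert hi, prod_insert hi, prod_insert hi, prod_insert hi]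
    have ih' := ih fun k hk => hb k (mem_insert_of_mem hk)
    have hbi := hb i (mem_insert_self i T)
    have h1 : w i * ∏ k ∈ T, w k - d i * ∏ k ∈ T, d k = w i * (∏ k ∈ T, w k - ∏ k ∈ T, d k) + (w i - d i) * ∏ k ∈ T, d k := by
      ring
    rw [h1]
    refine (norm_add_le _ _).trans ?_
    rw [norm_mul, norm_mul]
    have h2 : ‖w i‖ ≤ ‖d i‖ + b i := by
      have := norm_add_le (d i) (w i - d i)
      rw [add_sub_cancel] at this
      linarith
    have h3 : ‖∏ k ∈ T, d k‖ = ∏ k ∈ T, ‖d k‖ := norm_prod _ _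
    have h4 : 0 ≤ ∏ k ∈ T, ‖d k‖ := prod_nonneg fun _ _ => norm_nonneg _
    have h5 : 0 ≤ ∏ k ∈ T, (‖d k‖ + b k) - ∏ k ∈ T, ‖d k‖ := (norm_nonneg _).trans ih'
    rw [h3]
    calc ‖w i‖ * ‖∏ k ∈ T, w k - ∏ k ∈ T, d k‖ + ‖w i - d i‖ * ∏ k ∈ T, ‖d k‖ ≤
        (‖d i‖ + b i) * (∏ k ∈ T, (‖d k‖ + b k) - ∏ k ∈ T, ‖d k‖) + b i * ∏ k ∈ T, ‖d k‖ := by
          gcongr
          exact (norm_nonneg _).trans h2
      _ = _ := by ring

lemma triv_mem {Q : ℕ} (hQ : 1 ≤ Q) : (⟨0, 1⟩ : PC) ∈ fam Q := by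
  rw [mem_fam]
  refine ⟨hQ, ?_⟩
  have h1 : DirichletCharacter.IsPrimitive (1 : DirichletCharacter ℂ 1) := DirichletCharacter.isPrimitive_one_level_one
  exact h1

lemma sum_dl_eq {Q : ℕ} (hQ : 1 ≤ Q) : ∑ j ∈ fam Q, dl j = 1 := by
  have h1 : ∀ j ∈ fam Q, dl j = if j = (⟨0, 1⟩ : PC) then (1 : ℂ) else 0 := by
    intro j hj
    unfold dl
    by_cases h : j.2 = 1
    · rw [if_pos h, if_pos (trivial_fam hj h)]
    · rw [if_neg h, if_neg]
      rintro rfl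
      exact h rfl
  rw [sum_congr rfl h1, sum_ite_eq', if_pos (triv_mem hQ)]

lemma dl_norm (j : PC) : ‖dl j‖ = 1 ∨ dl j = 0 := by
  unfold dl
  split_ifs
  · left; exact norm_one
  · right; rfl

lemma sum_dl_norm {Q : ℕ} (hQ : 1 ≤ Q) : ∑ j ∈ fam Q, ‖dl j‖ = 1 := by
  apply le_antisymm (sum_dl Q)
  have := norm_sum_le (fam Q) (fun j => dl j)
  rwa [sum_dl_eq hQ, norm_one] at this

lemma SPR_nonneg {s : ℕ} (R : ℕ) (a h : Fin s → ℤ) : 0 ≤ SPR R a h := by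
  unfold SPR spp
  apply prod_nonneg
  intro p hp
  apply mul_nonneg (by positivity)
  exact sum_nonneg fun x _ => prod_nonneg fun i _ => one_add_up_nonneg (mem_PR.1 hp).2 _

/-- **the main term**, explicit form -/
lemma main_term {s : ℕ} (hs : 1 ≤ s) {Z : ℝ} (hZ : ∀ T : Finset ℕ, ∑ p ∈ T, (p : ℝ) ^ (-(3 / 2) : ℝ) ≤ Z)
    {a h : Fin s → ℤ} (ha : ∀ i, a i ≠ 0) (hΔ : Del a h ≠ 0) {Q R M H : ℕ} (hQ : 1 ≤ Q) (hR : 1 ≤ R) {B : PC → ℝ}
    (hB : ∀ j ∈ fam Q, 0 ≤ B j) {ε : ℝ} (hBs : ∑ j ∈ fam Q, B j ≤ ε) {u v : ℤ}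
    (hw : ∀ n ∈ Ico u v, ∀ i, ∀ j ∈ fam Q, ‖wj M H j (a i * n + h i) - dl j‖ ≤ B j)
    {Lg A : ℝ} (h1 : 1 ≤ Lg) (h2 : Real.log M ≤ Lg) (hA : 0 ≤ A) (haA : ∀ i, |((a i : ℤ) : ℝ)| ≤ A) {τ : ℝ}
    (hτ : τ = tau s Q R (∏ i, (a i).natAbs) Z (Del a h).natAbs) :
    ‖∑ n ∈ Ico u v, ∏ i, LB Q R M H (a i * n + h i) - SPR R a h * (Ico u v).card‖ ≤
      (Ico u v).card * ((SPR R a h + τ) * ((1 + ε) ^ s - 1) + τ) +
      ((Q : ℝ) ^ 2) ^ s * ((R : ℝ) ^ s * (2 * (Q * R : ℝ) ^ s * Lg ^ s + (Ico u v).card * ((Q * R : ℝ) ^ s *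
        (s * (2 * Lg / H * A) * Lg ^ s)))) := by
  have hexp := main_expand (s := s) (Q := Q) (R := R) (M := M) (H := H) (a := a) (h := h) h1 h2 hA haA u v
  have hε : 0 ≤ ε := (sum_nonneg hB).trans hBs
  obtain ⟨δ, hδ⟩ : ∃ δ : (Fin s → PC) → ℂ, δ = fun j => ∏ i, dl (j i) := ⟨_, rfl⟩
  have hδs : ∑ j ∈ FT_ s Q, δ j = 1 := by
    rw [hδ]
    unfold FT_
    rw [← prod_univ_sum (fun _ : Fin s => fam Q) (fun _ j => dl j)]
    simp [sum_dl_eq hQ]
  have hδn : ∑ j ∈ FT_ s Q, ‖δ j‖ = 1 := by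
    have : ∀ j ∈ FT_ s Q, ‖δ j‖ = ∏ i, ‖dl (j i)‖ := by
      intro j _
      rw [hδ]; exact norm_prod _ _
    rw [sum_congr rfl this]
    unfold FT_
    rw [← prod_univ_sum (fun _ : Fin s => fam Q) (fun _ j => ‖dl j‖)]
    simp [sum_dl_norm hQ]
  have hτ0 : 0 ≤ τ := by rw [hτ]; unfold tau; positivity
  have hSP := SPR_nonneg R a h
  have hmu : ∀ j ∈ FT_ s Q, ‖mu R a h j‖ ≤ SPR R a h + τ := by
    intro j hj
    rw [hτ]; exact (mu_bound hs hZ ha hΔ hR hj).1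
  have hmain : ‖∑ j ∈ FT_ s Q, mu R a h j * ∑ n ∈ Ico u v, WW M H a h j n - SPR R a h * (Ico u v).card‖ ≤
      (Ico u v).card * ((SPR R a h + τ) * ((1 + ε) ^ s - 1) + τ) := by
    have e1 : ∑ j ∈ FT_ s Q, mu R a h j * ∑ n ∈ Ico u v, WW M H a h j n - SPR R a h * (Ico u v).card =
        ∑ n ∈ Ico u v, (∑ j ∈ FT_ s Q, mu R a h j * (WW M H a h j n - δ j) + ∑ j ∈ FT_ s Q, δ j * (mu R a h j - SPR R a h)) := by
      have e2 : ∀ n ∈ Ico u v, (∑ j ∈ FT_ s Q, mu R a h j * (WW M H a h j n - δ j) +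
          ∑ j ∈ FT_ s Q, δ j * (mu R a h j - SPR R a h)) = ∑ j ∈ FT_ s Q, mu R a h j * WW M H a h j n - SPR R a h := by
        intro n _
        have e3 : ∑ j ∈ FT_ s Q, mu R a h j * (WW M H a h j n - δ j) + ∑ j ∈ FT_ s Q, δ j * (mu R a h j - SPR R a h) =
            ∑ j ∈ FT_ s Q, mu R a h j * WW M H a h j n - (∑ j ∈ FT_ s Q, δ j) * SPR R a h := by
          rw [sum_mul, ← sum_add_distrib, ← sum_sub_distrib]
          apply sum_congr rfl
          intro j _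
          ring
        rw [e3, hδs, one_mul]
      rw [sum_congr rfl e2, sum_sub_distrib, sum_const, nsmul_eq_mul, sum_comm]
      congr 1
      · apply sum_congr rfl
        intro j _
        rw [mul_sum]
      · ring
    rw [e1]
    have e4 : ∀ n ∈ Ico u v, ‖∑ j ∈ FT_ s Q, mu R a h j * (WW M H a h j n - δ j) +
        ∑ j ∈ FT_ s Q, δ j * (mu R a h j - SPR R a h)‖ ≤ (SPR R a h + τ) * ((1 + ε) ^ s - 1) + τ := by
      intro n hn
      refine (norm_add_le _ _).trans (add_le_add ?_ ?_)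
      · have e5 : ∀ j ∈ FT_ s Q, ‖mu R a h j * (WW M H a h j n - δ j)‖ ≤
            (SPR R a h + τ) * (∏ i, (‖dl (j i)‖ + B (j i)) - ∏ i, ‖dl (j i)‖) := by
          intro j hj
          rw [norm_mul]
          apply mul_le_mul (hmu j hj) _ (norm_nonneg _) (by positivity)
          rw [hδ]
          unfold WW
          apply prod_close
          intro i _
          exact hw n hn i (j i) (Fintype.mem_piFinset.1 hj i)
        refine (norm_sum_le_of_le _ e5).trans ?_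
        rw [← mul_sum]
        apply mul_le_mul_of_nonneg_left _ (by positivity)
        rw [sum_sub_distrib]
        unfold FT_
        rw [← prod_univ_sum (fun _ : Fin s => fam Q) (fun _ j => ‖dl j‖ + B j),
          ← prod_univ_sum (fun _ : Fin s => fam Q) (fun _ j => ‖dl j‖), sum_add_distrib, sum_dl_norm hQ]
        simp only [prod_const, card_univ, Fintype.card_fin, one_pow]
        have : (1 + ∑ j ∈ fam Q, B j) ^ s ≤ (1 + ε) ^ s := by
          apply pow_le_pow_left₀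
          · have := sum_nonneg hB
            linarith
          · linarith
        linarith
      · have e5 : ∀ j ∈ FT_ s Q, ‖δ j * (mu R a h j - SPR R a h)‖ ≤ ‖δ j‖ * τ := by
          intro j hj
          rw [norm_mul]
          by_cases hd : ∀ i, dl (j i) ≠ 0
          · apply mul_le_mul_of_nonneg_left _ (norm_nonneg _)
            rw [hτ]; exact (mu_bound hs hZ ha hΔ hR hj).2 hd
          · push Not at hd
            obtain ⟨i, hi⟩ := hd
            have : δ j = 0 := by rw [hδ]; exact prod_eq_zero (mem_univ i) hi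
            rw [this, norm_zero, zero_mul, zero_mul]
        refine (norm_sum_le_of_le _ e5).trans ?_
        rw [← sum_mul, hδn, one_mul]
    refine (norm_sum_le_of_le _ e4).trans ?_
    rw [sum_const, nsmul_eq_mul]
  have e6 : ∑ n ∈ Ico u v, ∏ i, LB Q R M H (a i * n + h i) - SPR R a h * (Ico u v).card =
      (∑ j ∈ FT_ s Q, mu R a h j * ∑ n ∈ Ico u v, WW M H a h j n - SPR R a h * (Ico u v).card) +
      (∑ n ∈ Ico u v, ∏ i, LB Q R M H (a i * n + h i) - ∑ j ∈ FT_ s Q, mu R a h j * ∑ n ∈ Ico u v, WW M H a h j n) := by ring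
  rw [e6]
  exact (norm_add_le _ _).trans (add_le_add hmain hexp)

lemma sqrt_ev (C C' : ℝ) : ∃ x0 : ℝ, ∀ x : ℝ, x0 ≤ x → C' + C * √x ≤ x := by
  refine ⟨(2 * |C|) ^ 2 + 2 * |C'|, fun x hx => ?_⟩
  have h0 : 0 ≤ x := le_trans (by positivity) hx
  have h1 : 2 * |C| ≤ √x := by
    apply Real.le_sqrt_of_sq_le
    have : 0 ≤ 2 * |C'| := by positivity
    linarith
  have h2 := Real.mul_self_sqrt h0
  have h3 : C ≤ |C| := le_abs_self C
  have h4 : C' ≤ |C'| := le_abs_self C'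
  have h5 : 0 ≤ √x := Real.sqrt_nonneg x
  have h6 : 2 * |C'| ≤ x := by
    have : 0 ≤ (2 * |C|) ^ 2 := by positivity
    linarith
  nlinarith [mul_le_mul_of_nonneg_right h1 h5, mul_le_mul_of_nonneg_right h3 h5]

lemma natAbs_prod' {ι : Type} (T : Finset ι) (f : ι → ℤ) : (∏ i ∈ T, f i).natAbs = ∏ i ∈ T, (f i).natAbs :=
  map_prod Int.natAbsHom f T

lemma Del_le {s : ℕ} {a h : Fin s → ℤ} {X : ℕ} (hX : 1 ≤ X) (ha : ∀ i, |a i| ≤ X) (hh : ∀ i, |h i| ≤ X) :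
    (Del a h).natAbs ≤ (2 * X ^ 2) ^ (s * s) := by
  unfold Del
  rw [natAbs_prod']
  have h1 : ∀ i ∈ (univ : Finset (Fin s)), (∏ k ∈ univ.erase i, (a k * h i - a i * h k)).natAbs ≤ (2 * X ^ 2) ^ s := by
    intro i _
    rw [natAbs_prod']
    have h2 : ∀ k ∈ univ.erase i, (a k * h i - a i * h k).natAbs ≤ 2 * X ^ 2 := by
      intro k _
      have e1 : |a k * h i - a i * h k| ≤ 2 * X ^ 2 := by
        refine (abs_sub _ _).trans ?_
        rw [abs_mul, abs_mul]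
        have := mul_le_mul (ha k) (hh i) (abs_nonneg _) (by positivity)
        have := mul_le_mul (ha i) (hh k) (abs_nonneg _) (by positivity)
        nlinarith
      rw [Int.abs_eq_natAbs] at e1
      exact_mod_cast e1
    calc ∏ k ∈ univ.erase i, (a k * h i - a i * h k).natAbs ≤ ∏ _k ∈ univ.erase i, (2 * X ^ 2) := Finset.prod_le_prod' h2
      _ = (2 * X ^ 2) ^ (univ.erase i).card := by rw [prod_const]
      _ ≤ _ := by
        apply Nat.pow_le_pow_right (by positivity)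
        have := card_le_univ (univ.erase i)
        rwa [Fintype.card_fin] at this
  calc ∏ i, (∏ k ∈ univ.erase i, (a k * h i - a i * h k)).natAbs ≤ ∏ _i : Fin s, (2 * X ^ 2) ^ s := Finset.prod_le_prod' h1
    _ = _ := by rw [prod_const, card_univ, Fintype.card_fin, ← pow_mul]

end Pool.Agent.Helper86.PS
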