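import Pool.Agent.Helper86.PS.G8

set_option autoImplicit false

/-!
# The main term with the parameters fixed
-/

open Finset

namespace Pool.Agent.Helper86.PS

open Pool.Agent.H807R2.Dav

/-- the exponent of the level of truncation -/
def cR (s : ℕ) : ℕ := 2 * s * (s * (s + 1) + 2)

/-- the lower exponent -/
def lE (s : ℕ) : ℕ := 3 * s + 2 * s * cR s + 6 * cR s + 40

lemma tau_small (s : ℕ) (hs : 1 ≤ s) (A L2 : ℕ) {Z : ℝ} (hZ0 : 0 ≤ Z) : ∃ Q0 : ℕ, ∀ Q : ℕ, Q0 ≤ Q → ∀ M : ℕ, Q ≤ M → M ≤ Q ^ L2 →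
    ∀ a h : Fin s → ℤ, (∀ i, |a i| ≤ A) → (∀ i, |h i| ≤ M) → Del a h ≠ 0 →
    tau s Q (Q ^ cR s) (∏ i, (a i).natAbs) Z (Del a h).natAbs ≤ 1 / Q := by
  have hsr : (1 : ℝ) ≤ s := by exact_mod_cast hs
  obtain ⟨Cs, hCs⟩ : ∃ Cs : ℝ, Cs = 2 ^ s * (4 * (s + 1)) := ⟨_, rfl⟩
  have hCs0 : 0 < Cs := by rw [hCs]; positivity
  obtain ⟨x0, hx0⟩ := sqrt_ev (Cs * 2 * √(6 * (s : ℝ) ^ 2 * L2)) (s * (s + 1) * Real.log (A + 1) + Cs * Z)
  obtain ⟨Q1, hQ1⟩ := exists_nat_ge (Real.exp (max x0 1))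
  refine ⟨Q1 + A + 3, fun Q hQ M hQM hM a h ha hh hΔ => ?_⟩
  have hQ3 : (3 : ℝ) ≤ Q := by exact_mod_cast (by omega : 3 ≤ Q)
  have hQ0 : (0 : ℝ) < Q := by linarith
  have hQ1' : (1 : ℝ) ≤ Q := by linarith
  obtain ⟨ℓ, hℓ⟩ : ∃ ℓ : ℝ, ℓ = Real.log Q := ⟨_, rfl⟩
  have hℓx : max x0 1 ≤ ℓ := by
    rw [hℓ, Real.le_log_iff_exp_le hQ0]
    exact hQ1.trans (by exact_mod_cast (by omega : Q1 ≤ Q))
  have hℓ1 : 1 ≤ ℓ := (le_max_right _ _).trans hℓx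
  have hM0 : (0 : ℝ) < M := by exact_mod_cast (by omega : 0 < M)
  have hlM : Real.log M ≤ L2 * ℓ := by
    have : Real.log M ≤ Real.log ((Q : ℝ) ^ L2) := Real.log_le_log hM0 (by exact_mod_cast hM)
    rwa [Real.log_pow, ← hℓ] at this
  have hl1 : 1 ≤ L2 * ℓ := by
    refine le_trans (hℓ1.trans ?_) hlM
    rw [hℓ]
    exact Real.log_le_log hQ0 (by exact_mod_cast hQM)
  have hD1 : 1 ≤ (Del a h).natAbs := Int.natAbs_pos.2 hΔ
  have hlog2 : (Nat.log 2 (Del a h).natAbs : ℝ) ≤ 6 * (s : ℝ) ^ 2 * L2 * ℓ := by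
    have e1 := log2_le hD1
    have e2 : ((Del a h).natAbs : ℝ) ≤ (2 * (M : ℝ) ^ 2) ^ (s * s) := by
      have hAM : A ≤ M := by omega
      have := Del_le (X := M) (by omega) (fun i => (ha i).trans (by exact_mod_cast hAM)) hh
      exact_mod_cast this
    have e3 : Real.log ((Del a h).natAbs : ℝ) ≤ (s * s) * (Real.log 2 + 2 * Real.log M) := by
      refine (Real.log_le_log (by exact_mod_cast hD1) e2).trans (le_of_eq ?_)
      rw [Real.log_pow, Real.log_mul (by norm_num) (by positivity), Real.log_pow]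
      push_cast
      ring
    have e4 : Real.log 2 ≤ 1 := by linarith [Real.log_two_lt_d9]
    have e5 : Real.log 2 + 2 * Real.log M ≤ 3 * (L2 * ℓ) := by linarith
    calc (Nat.log 2 (Del a h).natAbs : ℝ) ≤ 2 * ((s * s) * (Real.log 2 + 2 * Real.log M)) := e1.trans (by linarith)
      _ ≤ 2 * ((s * s) * (3 * (L2 * ℓ))) := by gcongr
      _ = _ := by ring
  have hsq : √(Nat.log 2 (Del a h).natAbs : ℝ) ≤ √(6 * (s : ℝ) ^ 2 * L2) * √ℓ := by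
    rw [← Real.sqrt_mul (by positivity)]
    exact Real.sqrt_le_sqrt hlog2
  have hA' : ((∏ i, (a i).natAbs : ℕ) : ℝ) ≤ ((A : ℝ) + 1) ^ s := by
    have e1 : ∏ i, (a i).natAbs ≤ ∏ _i : Fin s, (A + 1) := by
      apply Finset.prod_le_prod'
      intro i _
      have e2 := ha i
      rw [Int.abs_eq_natAbs] at e2
      have e3 : (a i).natAbs ≤ A := by exact_mod_cast e2
      omega
    rw [prod_const, card_univ, Fintype.card_fin] at e1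
    exact_mod_cast e1
  unfold tau
  have hRθ : ((Q ^ cR s : ℕ) : ℝ) ^ (1 / (2 * s) : ℝ) = (Q : ℝ) ^ (s * (s + 1) + 2) := by
    push_cast
    rw [← Real.rpow_natCast, ← Real.rpow_mul hQ0.le, ← Real.rpow_natCast]
    congr 1
    unfold cR
    push_cast
    field_simp
  rw [hRθ, ← hCs]
  have hexp : Real.exp (Cs * (Z + 2 * √(Nat.log 2 (Del a h).natAbs : ℝ))) * ((A : ℝ) + 1) ^ (s * (s + 1)) ≤ Q := by
    have e1 : ((A : ℝ) + 1) ^ (s * (s + 1)) = Real.exp (s * (s + 1) * Real.log (A + 1)) := by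
      rw [← Real.exp_log (by positivity : (0 : ℝ) < (A : ℝ) + 1), ← Real.exp_nat_mul,
        Real.exp_log (by positivity : (0 : ℝ) < (A : ℝ) + 1)]
      push_cast
      rfl
    rw [e1, ← Real.exp_add]
    have e2 : (Q : ℝ) = Real.exp ℓ := by rw [hℓ, Real.exp_log hQ0]
    rw [e2]
    apply Real.exp_le_exp.2
    have e3 := hx0 ℓ ((le_max_left _ _).trans hℓx)
    have e4 : Cs * (2 * √(Nat.log 2 (Del a h).natAbs : ℝ)) ≤ Cs * (2 * (√(6 * (s : ℝ) ^ 2 * L2) * √ℓ)) := by gcongr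
    linarith
  rw [div_le_div_iff₀ (by positivity) hQ0, one_mul]
  calc ((Q : ℝ) ^ s * ((∏ i, (a i).natAbs : ℕ) : ℝ)) ^ (s + 1) *
        Real.exp (Cs * (Z + 2 * √(Nat.log 2 (Del a h).natAbs : ℝ))) * Q ≤
      ((Q : ℝ) ^ s * ((A : ℝ) + 1) ^ s) ^ (s + 1) * Real.exp (Cs * (Z + 2 * √(Nat.log 2 (Del a h).natAbs : ℝ))) * Q := by gcongr
    _ = (Q : ℝ) ^ (s * (s + 1)) * (Real.exp (Cs * (Z + 2 * √(Nat.log 2 (Del a h).natAbs : ℝ))) *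
        ((A : ℝ) + 1) ^ (s * (s + 1))) * Q := by
          rw [mul_pow, ← pow_mul, ← pow_mul]; ring
    _ ≤ (Q : ℝ) ^ (s * (s + 1)) * Q * Q := by gcongr
    _ = _ := by ring

/-- **the main term** -/
theorem main_fixed (s : ℕ) (hs : 1 ≤ s) (A L2 : ℕ) : ∃ Q0 : ℕ, ∀ Q : ℕ, Q0 ≤ Q → ∀ M : ℕ, Q ^ lE s ≤ M → M ≤ Q ^ L2 →
    ∀ B : PC → ℝ, HW Q M B → ∀ ε : ℝ, ∑ j ∈ fam Q, B j ≤ ε →
    ∀ a h : Fin s → ℤ, (∀ i, a i ≠ 0) → (∀ i, |a i| ≤ A) → (∀ i, |h i| ≤ M) → Del a h ≠ 0 → ∀ u v : ℤ,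
    (∀ n ∈ Ico u v, ∀ i, ((M / Q ^ 3 : ℕ) : ℤ) ≤ a i * n + h i ∧ a i * n + h i ≤ (M : ℤ) - (M / Q ^ 4 : ℕ)) →
    ‖∑ n ∈ Ico u v, ∏ i, cB Q (cR s) M (a i * n + h i) - SPR (Q ^ cR s) a h * (Ico u v).card‖ ≤
      (Ico u v).card * ((SPR (Q ^ cR s) a h + 1 / Q) * ((1 + ε) ^ s - 1) + 1 / Q) + M / (Q : ℝ) ^ 10 := by
  have hsr : (1 : ℝ) ≤ s := by exact_mod_cast hs
  obtain ⟨Z, hZ0, hZ⟩ := exists_Z
  obtain ⟨Q1, hQ1⟩ := tau_small s hs A L2 hZ0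
  obtain ⟨Q2, hQ2⟩ := ev_log ((2 + 4 * s * A) * (L2 : ℝ) ^ (s + 1)) (s + 1) (a := 1) one_pos
  refine ⟨Q1 + Q2 + 3, fun Q hQ M hM1 hM2 B hw ε hBs a h ha haA hh hΔ u v hrange => ?_⟩
  have hQ3n : 3 ≤ Q := by omega
  have hQ3 : (3 : ℝ) ≤ Q := by exact_mod_cast hQ3n
  have hQ0 : (0 : ℝ) < Q := by linarith
  have hQ1' : (1 : ℝ) ≤ Q := by linarith
  obtain ⟨ℓ, hℓ⟩ : ∃ ℓ : ℝ, ℓ = Real.log Q := ⟨_, rfl⟩
  have hℓ1 : 1 ≤ ℓ := by
    rw [hℓ, Real.le_log_iff_exp_le hQ0]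
    linarith [Real.exp_one_lt_d9]
  have hle : ∀ n : ℕ, n ≤ lE s → Q ^ n ≤ M := fun n hn => (Nat.pow_le_pow_right (by omega) hn).trans hM1
  have hler : ∀ n : ℕ, n ≤ lE s → (Q : ℝ) ^ n ≤ M := fun n hn => by exact_mod_cast hle n hn
  have h40 : 40 ≤ lE s := by unfold lE; omega
  have hQM : Q ≤ M := by simpa using hle 1 (by omega)
  have hM0 : (0 : ℝ) < M := by exact_mod_cast (by omega : 0 < M)
  have hlM0 : 0 ≤ Real.log M := Real.log_natCast_nonneg M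
  have hlM : Real.log M ≤ L2 * ℓ := by
    have : Real.log M ≤ Real.log ((Q : ℝ) ^ L2) := Real.log_le_log hM0 (by exact_mod_cast hM2)
    rwa [Real.log_pow, ← hℓ] at this
  have hLg1 : 1 ≤ L2 * ℓ := by
    refine le_trans (hℓ1.trans ?_) hlM
    rw [hℓ]
    exact Real.log_le_log hQ0 (by exact_mod_cast hQM)
  obtain ⟨H, hH⟩ : ∃ H : ℕ, H = M / Q ^ 4 := ⟨_, rfl⟩
  have hHlow : (M : ℝ) / (2 * (Q : ℝ) ^ 4) ≤ H := by
    have := div_lower (M := M) (D := Q ^ 4) (by positivity) (by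
      calc 2 * Q ^ 4 ≤ Q * Q ^ 4 := Nat.mul_le_mul_right _ (by omega)
        _ = Q ^ 5 := by ring
        _ ≤ M := hle 5 (by omega))
    rw [hH]
    push_cast at this ⊢
    exact this
  have hHpos : 0 < H := by
    rw [hH]; exact Nat.div_pos (hle 4 (by omega)) (by positivity)
  have hH0 : (0 : ℝ) < H := by exact_mod_cast hHpos
  have hYpos : 0 < M / Q ^ 3 := Nat.div_pos (hle 3 (by omega)) (by positivity)
  obtain ⟨R, hR⟩ : ∃ R : ℕ, R = Q ^ cR s := ⟨_, rfl⟩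
  have hR1 : 1 ≤ R := by rw [hR]; exact Nat.one_le_pow _ _ (by omega)
  have hRr : (R : ℝ) = (Q : ℝ) ^ cR s := by rw [hR]; push_cast; rfl
  have hcB : ∑ n ∈ Ico u v, ∏ i, cB Q (cR s) M (a i * n + h i) = ∑ n ∈ Ico u v, ∏ i, LB Q R M H (a i * n + h i) := by
    apply sum_congr rfl
    intro n hn
    apply prod_congr rfl
    intro i _
    unfold cB cut
    rw [if_pos (hrange n hn i), hR, hH]
  have hwn : ∀ n ∈ Ico u v, ∀ i, ∀ j ∈ fam Q, ‖wj M H j (a i * n + h i) - dl j‖ ≤ B j := by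
    intro n hn i j hj
    have h1 := hrange n hn i
    rw [hH]
    exact hw.2 j hj _ h1.1 (by linarith [h1.2])
  have hcard : ((Ico u v).card : ℝ) ≤ M := by
    have h0 : 0 < s := hs
    have h1 : (Ico u v).card ≤ (Icc (1 : ℤ) M).card := by
      apply card_le_card_of_injOn (fun n => a ⟨0, h0⟩ * n + h ⟨0, h0⟩)
      · intro n hn
        have h2 := hrange n hn ⟨0, h0⟩
        rw [coe_Icc, Set.mem_Icc]
        have q0 : (0 : ℤ) ≤ ((M / Q ^ 4 : ℕ) : ℤ) := Int.natCast_nonneg _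
        have q1 : (1 : ℤ) ≤ ((M / Q ^ 3 : ℕ) : ℤ) := by exact_mod_cast hYpos
        simp only
        constructor <;> linarith [h2.1, h2.2]
      · intro x _ y _ hxy
        simp only at hxy
        have : a ⟨0, h0⟩ * x = a ⟨0, h0⟩ * y := by linarith
        exact mul_left_cancel₀ (ha ⟨0, h0⟩) this
    rw [Int.card_Icc] at h1
    have h2 : ((M : ℤ) + 1 - 1).toNat = M := by simp
    rw [h2] at h1
    exact_mod_cast h1
  have hmain := main_term hs hZ ha hΔ (Q := Q) (R := R) (M := M) (H := H) (by omega) hR1 hw.1 hBs hwn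
    (Lg := L2 * ℓ) (A := A) hLg1 hlM (Nat.cast_nonneg _) (fun i => by
      have := haA i
      have h2 : ((|a i| : ℤ) : ℝ) ≤ A := by exact_mod_cast this
      rwa [Int.cast_abs] at h2) rfl
  rw [hcB, ← hR]
  refine hmain.trans (add_le_add ?_ ?_)
  · have hτ := hQ1 Q (by omega) M hQM hM2 a h haA hh hΔ
    rw [← hR] at hτ
    apply mul_le_mul_of_nonneg_left _ (Nat.cast_nonneg _)
    have hε : 0 ≤ ε := (sum_nonneg hw.1).trans hBs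
    have h1 : 0 ≤ (1 + ε) ^ s - 1 := by
      have : (1 : ℝ) ≤ (1 + ε) ^ s := one_le_pow₀ (by linarith)
      linarith
    exact add_le_add (mul_le_mul_of_nonneg_right (by linarith) h1) hτ
  · have e1 : ((Ico u v).card : ℝ) * ((Q * R : ℝ) ^ s * (s * (2 * (L2 * ℓ) / H * A) * (L2 * ℓ) ^ s)) ≤
        (Q * R : ℝ) ^ s * (4 * s * A * (Q : ℝ) ^ 4 * (L2 * ℓ) ^ (s + 1)) := by
      have e2 : ((Ico u v).card : ℝ) / H ≤ 2 * (Q : ℝ) ^ 4 := by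
        rw [div_le_iff₀ hH0]
        rw [div_le_iff₀ (by positivity)] at hHlow
        linarith
      calc ((Ico u v).card : ℝ) * ((Q * R : ℝ) ^ s * (s * (2 * (L2 * ℓ) / H * A) * (L2 * ℓ) ^ s)) =
          (Q * R : ℝ) ^ s * (2 * s * A * (((Ico u v).card : ℝ) / H) * (L2 * ℓ) ^ (s + 1)) := by ring
        _ ≤ (Q * R : ℝ) ^ s * (2 * s * A * (2 * (Q : ℝ) ^ 4) * (L2 * ℓ) ^ (s + 1)) := by gcongr
        _ = _ := by ring
    have e3 : 2 * (Q * R : ℝ) ^ s * (L2 * ℓ) ^ s ≤ (Q * R : ℝ) ^ s * (2 * (Q : ℝ) ^ 4 * (L2 * ℓ) ^ (s + 1)) := by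
      have f1 : (L2 * ℓ) ^ s ≤ (Q : ℝ) ^ 4 * (L2 * ℓ) ^ (s + 1) := by
        have g1 : (L2 * ℓ) ^ s ≤ (L2 * ℓ) ^ (s + 1) := pow_le_pow_right₀ hLg1 (Nat.le_succ s)
        have g2 : (1 : ℝ) ≤ (Q : ℝ) ^ 4 := one_le_pow₀ hQ1'
        have g3 : 0 ≤ (L2 * ℓ) ^ (s + 1) := by positivity
        nlinarith
      calc 2 * (Q * R : ℝ) ^ s * (L2 * ℓ) ^ s = (Q * R : ℝ) ^ s * (2 * (L2 * ℓ) ^ s) := by ring
        _ ≤ (Q * R : ℝ) ^ s * (2 * ((Q : ℝ) ^ 4 * (L2 * ℓ) ^ (s + 1))) := by gcongr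
        _ = _ := by ring
    have e4 := hQ2 Q (by omega)
    rw [← hℓ, Real.rpow_one] at e4
    have e5 : (2 + 4 * s * A) * (L2 * ℓ) ^ (s + 1) ≤ Q := by
      calc (2 + 4 * s * A) * (L2 * ℓ) ^ (s + 1) = (2 + 4 * s * A) * (L2 : ℝ) ^ (s + 1) * ℓ ^ (s + 1) := by
            rw [mul_pow]; ring
        _ ≤ Q := e4
    calc ((Q : ℝ) ^ 2) ^ s * ((R : ℝ) ^ s * (2 * (Q * R : ℝ) ^ s * (L2 * ℓ) ^ s + (Ico u v).card * ((Q * R : ℝ) ^ s *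
        (s * (2 * (L2 * ℓ) / H * A) * (L2 * ℓ) ^ s)))) ≤
        ((Q : ℝ) ^ 2) ^ s * ((R : ℝ) ^ s * ((Q * R : ℝ) ^ s * (2 * (Q : ℝ) ^ 4 * (L2 * ℓ) ^ (s + 1)) +
          (Q * R : ℝ) ^ s * (4 * s * A * (Q : ℝ) ^ 4 * (L2 * ℓ) ^ (s + 1)))) := by gcongr
      _ = ((Q : ℝ) ^ 2) ^ s * ((R : ℝ) ^ s * (Q * R : ℝ) ^ s) * ((Q : ℝ) ^ 4 * ((2 + 4 * s * A) * (L2 * ℓ) ^ (s + 1))) := by
          ring
      _ ≤ ((Q : ℝ) ^ 2) ^ s * ((R : ℝ) ^ s * (Q * R : ℝ) ^ s) * ((Q : ℝ) ^ 4 * Q) := by gcongr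
      _ = (Q : ℝ) ^ (3 * s + 2 * s * cR s + 5) := by
          rw [hRr, mul_pow]
          simp only [← pow_mul]
          ring
      _ ≤ M / (Q : ℝ) ^ 10 := by
          rw [le_div_iff₀ (by positivity), ← pow_add]
          apply hler
          unfold lE
          omega

end Pool.Agent.Helper86.PS
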