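import Pool.Agent.Helper86.PS.CT

set_option autoImplicit false

/-!
# Growth bounds
-/

open Finset MeasureTheory
open scoped Real

namespace Pool.Agent.Helper86.PS

open Pool.Agent.H307R2 (TM TM_norm_le Ech Ech_norm_le Ez Ez_norm_le LFunction_eq zeta_eq)

lemma harm_le (N : ℕ) : ∑ n ∈ Icc 1 N, (1 : ℝ) / n ≤ 1 + Real.log N := by
  rcases Nat.eq_zero_or_pos N with rfl | hN
  · simp
  have h := harmonic_le_one_add_log N
  unfold harmonic at h
  push_cast at h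
  have e : ∀ N : ℕ, ∑ n ∈ Icc 1 N, (1 : ℝ) / n = ∑ i ∈ range N, ((i : ℝ) + 1)⁻¹ := by
    intro N
    induction N with
    | zero => simp
    | succ N ih =>
      rw [Finset.sum_Icc_succ_top (by omega), ih, sum_range_succ]
      push_cast
      ring
  rw [e]
  exact h

lemma sum_npow {N : ℕ} {σ : ℝ} (hσ : 13 / 16 ≤ σ) :
    ∑ n ∈ Icc 1 N, (n : ℝ) ^ (-σ) ≤ (N : ℝ) ^ (3 / 16 : ℝ) * (1 + Real.log N) := by
  calc ∑ n ∈ Icc 1 N, (n : ℝ) ^ (-σ) ≤ ∑ n ∈ Icc 1 N, (N : ℝ) ^ (3 / 16 : ℝ) * (1 / n) := by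
        apply sum_le_sum
        intro n hn
        rw [mem_Icc] at hn
        have h1 : (1 : ℝ) ≤ n := by exact_mod_cast hn.1
        have h2 : (n : ℝ) ≤ N := by exact_mod_cast hn.2
        have h3 : (n : ℝ) ^ (-σ) ≤ (n : ℝ) ^ (3 / 16 - 1 : ℝ) :=
          Real.rpow_le_rpow_of_exponent_le h1 (by linarith)
        refine h3.trans ?_
        rw [Real.rpow_sub_one (by linarith)]
        have h4 : (n : ℝ) ^ (3 / 16 : ℝ) ≤ (N : ℝ) ^ (3 / 16 : ℝ) := Real.rpow_le_rpow (by linarith) h2 (by norm_num)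
        rw [mul_one_div]
        exact div_le_div_of_nonneg_right h4 (by linarith)
    _ = (N : ℝ) ^ (3 / 16 : ℝ) * ∑ n ∈ Icc 1 N, 1 / (n : ℝ) := by rw [mul_sum]
    _ ≤ _ := mul_le_mul_of_nonneg_left (harm_le N) (by positivity)

/-- the bound for the L-functions of the family -/
lemma LF_bound {Q : ℕ} {j : PC} (hj : j ∈ fam Q) {s : ℂ} (hs : 13 / 16 ≤ s.re) (hs1 : 1 / 16 ≤ ‖s - 1‖) {N : ℕ}
    (hN : (Q : ℝ) * ‖s‖ ≤ N) :
    ‖j.2.LFunction s‖ ≤ (N : ℝ) ^ (3 / 16 : ℝ) * (19 + Real.log N) := by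
  have hr : (0 : ℝ) < s.re := by linarith
  have hjQ := (mem_fam.1 hj).1
  have hQ1 : (1 : ℝ) ≤ Q := by exact_mod_cast (by omega : 1 ≤ Q)
  have hsn : 13 / 16 ≤ ‖s‖ := hs.trans ((le_abs_self _).trans (Complex.abs_re_le_norm s))
  have hN0 : (0 : ℝ) < N := by nlinarith
  have hN1 : 1 ≤ N := by
    have : (0 : ℕ) < N := by exact_mod_cast hN0
    omega
  have hN1' : (1 : ℝ) ≤ N := by exact_mod_cast hN1
  have hlN : 0 ≤ Real.log N := Real.log_nonneg hN1'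
  have hP : 0 < (N : ℝ) ^ (3 / 16 : ℝ) := by positivity
  have hpw : (N : ℝ) ^ (-s.re) ≤ (N : ℝ) ^ (3 / 16 : ℝ) / N := by
    rw [← Real.rpow_sub_one hN0.ne']
    exact Real.rpow_le_rpow_of_exponent_le hN1' (by linarith)
  have hdiv : (N : ℝ) ^ (-s.re) / s.re ≤ 2 * ((N : ℝ) ^ (3 / 16 : ℝ) / N) := by
    rw [div_le_iff₀ hr]
    have h0 : 0 ≤ (N : ℝ) ^ (3 / 16 : ℝ) / N := by positivity
    nlinarith
  have hsum : ∀ f : ℕ → ℂ, (∀ n, ‖f n‖ ≤ 1) → ‖∑ n ∈ Icc 1 N, f n * (n : ℂ) ^ (-s)‖ ≤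
      (N : ℝ) ^ (3 / 16 : ℝ) * (1 + Real.log N) := by
    intro f hf
    refine (norm_sum_le _ _).trans (le_trans ?_ (sum_npow hs))
    apply sum_le_sum
    intro n hn
    rw [mem_Icc] at hn
    rw [norm_mul, Complex.norm_natCast_cpow_of_pos hn.1, Complex.neg_re]
    calc _ ≤ 1 * (n : ℝ) ^ (-s.re) := mul_le_mul_of_nonneg_right (hf n) (by positivity)
      _ = _ := one_mul _
  by_cases h1 : j.2 = 1
  · have hj0 := trivial_fam hj h1
    have hne : s ≠ 1 := by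
      rintro rfl
      simp at hs1
      norm_num at hs1
    have hLz : j.2.LFunction s = riemannZeta s := by
      rw [hj0]
      have := DirichletCharacter.LFunction_modOne_eq (χ := (1 : DirichletCharacter ℂ 1))
      exact congrFun this s
    rw [hLz, zeta_eq hN1 hr hne]
    have e1 := hsum (fun _ => 1) (fun _ => by simp)
    simp only [one_mul] at e1
    have e2 : ‖(N : ℂ) ^ (1 - s) / (s - 1)‖ ≤ 16 * (N : ℝ) ^ (3 / 16 : ℝ) := by
      rw [norm_div, Complex.norm_natCast_cpow_of_pos hN1, Complex.sub_re, Complex.one_re,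
        div_le_iff₀ (by linarith)]
      have h3 : (N : ℝ) ^ (1 - s.re) ≤ (N : ℝ) ^ (3 / 16 : ℝ) :=
        Real.rpow_le_rpow_of_exponent_le hN1' (by linarith)
      nlinarith
    have e3 : ‖s * TM N Ez s‖ ≤ 2 * (N : ℝ) ^ (3 / 16 : ℝ) := by
      rw [norm_mul]
      have h3 := TM_norm_le hN1 Ez_norm_le hr
      rw [one_mul] at h3
      calc ‖s‖ * ‖TM N Ez s‖ ≤ N * (2 * ((N : ℝ) ^ (3 / 16 : ℝ) / N)) := by
            apply mul_le_mul _ (h3.trans hdiv) (norm_nonneg _) hN0.le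
            refine le_trans ?_ hN
            nlinarith [norm_nonneg s]
        _ = _ := by field_simp
    refine (norm_add_le _ _).trans ?_
    refine (add_le_add (norm_add_le _ _) e3).trans ?_
    nlinarith
  · rw [LFunction_eq h1 hN1 hr]
    have e1 := hsum (fun n => j.2 (n : ZMod (j.1 + 1))) (fun n => j.2.norm_le_one _)
    have e3 : ‖s * TM N (Ech j.2 N) s‖ ≤ 2 * (N : ℝ) ^ (3 / 16 : ℝ) := by
      rw [norm_mul]
      have h3 := TM_norm_le hN1 (Ech_norm_le h1 N) hr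
      have h4 : ((j.1 + 1 : ℕ) : ℝ) ≤ Q := by exact_mod_cast hjQ
      calc ‖s‖ * ‖TM N (Ech j.2 N) s‖ ≤ ‖s‖ * (Q * (2 * ((N : ℝ) ^ (3 / 16 : ℝ) / N))) := by
            apply mul_le_mul_of_nonneg_left _ (norm_nonneg _)
            refine h3.trans ?_
            apply mul_le_mul h4 hdiv (by positivity) (by positivity)
        _ = (Q * ‖s‖) * (2 * ((N : ℝ) ^ (3 / 16 : ℝ) / N)) := by ring
        _ ≤ N * (2 * ((N : ℝ) ^ (3 / 16 : ℝ) / N)) := mul_le_mul_of_nonneg_right hN (by positivity)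
        _ = _ := by field_simp
    refine (norm_add_le _ _).trans ?_
    nlinarith

/-- the derivative -/
lemma LF_deriv_bound {Q : ℕ} {j : PC} (hj : j ∈ fam Q) {s : ℂ} (hs : 7 / 8 ≤ s.re) (hs1 : 1 / 8 ≤ ‖s - 1‖) {N : ℕ}
    (hN : (Q : ℝ) * (‖s‖ + 1) ≤ N) :
    ‖deriv j.2.LFunction s‖ ≤ 16 * ((N : ℝ) ^ (3 / 16 : ℝ) * (19 + Real.log N)) := by
  set B := (N : ℝ) ^ (3 / 16 : ℝ) * (19 + Real.log N) with hB
  have hdist : ∀ z : ℂ, ‖z - s‖ ≤ 1 / 16 → 13 / 16 ≤ z.re ∧ 1 / 16 ≤ ‖z - 1‖ ∧ (Q : ℝ) * ‖z‖ ≤ N := by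
    intro z hz
    refine ⟨?_, ?_, ?_⟩
    · have h1 := (Complex.abs_re_le_norm (z - s)).trans hz
      rw [Complex.sub_re, abs_le] at h1
      linarith [h1.1]
    · have h1 : ‖s - 1‖ ≤ ‖z - 1‖ + ‖z - s‖ := by
        have : s - 1 = (z - 1) - (z - s) := by ring
        rw [this]
        exact norm_sub_le _ _
      linarith
    · refine le_trans ?_ hN
      apply mul_le_mul_of_nonneg_left _ (Nat.cast_nonneg Q)
      have : z = s + (z - s) := by ring
      rw [this]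
      exact (norm_add_le _ _).trans (by linarith)
  have hd : DiffContOnCl ℂ j.2.LFunction (Metric.ball s (1 / 16)) := by
    apply DifferentiableOn.diffContOnCl
    intro z hz
    have hz' : ‖z - s‖ ≤ 1 / 16 := by
      have := Metric.closure_ball_subset_closedBall hz
      rwa [Metric.mem_closedBall, dist_eq_norm] at this
    apply DifferentiableAt.differentiableWithinAt
    apply DirichletCharacter.differentiableAt_LFunction
    left
    intro h
    have := (hdist z hz').2.1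
    rw [h, sub_self, norm_zero] at this
    norm_num at this
  have h := Complex.norm_deriv_le_of_forall_mem_sphere_norm_le (c := s) (R := 1 / 16) (C := B) (by norm_num) hd
    (by
      intro z hz
      rw [mem_sphere_iff_norm] at hz
      obtain ⟨h1, h2, h3⟩ := hdist z hz.le
      exact LF_bound hj h1 h2 h3)
  calc _ ≤ _ := h
    _ = _ := by ring

lemma sum_inv_lcm {D R : ℕ} (hRD : R ≤ D) (hD : 1 ≤ D) :
    ∑ d ∈ Icc 1 D, ∑ e ∈ Icc 1 R, (1 : ℝ) / ((Nat.lcm d e : ℕ) : ℝ) ≤ (1 + Real.log D) ^ 3 := by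
  have hlD : 0 ≤ Real.log D := Real.log_natCast_nonneg D
  set Hm : ℝ := 1 + Real.log D with hHm
  have hH0 : 0 ≤ Hm := by positivity
  have h1 : ∀ d ∈ Icc 1 D, ∀ e ∈ Icc 1 R, (1 : ℝ) / ((Nat.lcm d e : ℕ) : ℝ) ≤
      ∑ k ∈ Icc 1 D, (k : ℝ) * ((if k ∣ d then (1 : ℝ) / d else 0) * (if k ∣ e then (1 : ℝ) / e else 0)) := by
    intro d hd e he
    rw [mem_Icc] at hd he
    have hd0 : (0 : ℝ) < d := by exact_mod_cast hd.1
    have he0 : (0 : ℝ) < e := by exact_mod_cast he.1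
    have hg0 : 0 < Nat.gcd d e := Nat.gcd_pos_of_pos_left _ hd.1
    have hl0 : (0 : ℝ) < ((Nat.lcm d e : ℕ) : ℝ) := by exact_mod_cast Nat.lcm_pos hd.1 he.1
    have h2 : ((Nat.gcd d e : ℕ) : ℝ) * ((Nat.lcm d e : ℕ) : ℝ) = d * e := by
      exact_mod_cast Nat.gcd_mul_lcm d e
    have h3 : (1 : ℝ) / ((Nat.lcm d e : ℕ) : ℝ) = ((Nat.gcd d e : ℕ) : ℝ) * ((1 / d) * (1 / e)) := by
      field_simp
      linarith
    rw [h3]
    have hmem : Nat.gcd d e ∈ Icc 1 D := by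
      rw [mem_Icc]
      exact ⟨hg0, (Nat.le_of_dvd hd.1 (Nat.gcd_dvd_left d e)).trans hd.2⟩
    have h4 := single_le_sum (f := fun k : ℕ => (k : ℝ) * ((if k ∣ d then (1 : ℝ) / d else 0) *
      (if k ∣ e then (1 : ℝ) / e else 0))) (s := Icc 1 D) (fun k _ => by
        split_ifs <;> positivity) hmem
    rw [if_pos (Nat.gcd_dvd_left d e), if_pos (Nat.gcd_dvd_right d e)] at h4
    exact h4
  have h2 : ∀ k ∈ Icc 1 D, ∀ M ≤ D, ∑ d ∈ Icc 1 M, (if k ∣ d then (1 : ℝ) / d else 0) ≤ Hm / k := by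
    intro k hk M hM
    rw [mem_Icc] at hk
    have hk0 : (0 : ℝ) < k := by exact_mod_cast hk.1
    rw [← sum_filter]
    have h3 : (Icc 1 M).filter (fun n => k ∣ n) = (Icc 1 (M / k)).image (fun m => k * m) := by
      ext n
      simp only [mem_filter, mem_Icc, mem_image]
      constructor
      · rintro ⟨⟨h3, h4⟩, m, rfl⟩
        refine ⟨m, ⟨Nat.pos_of_mul_pos_left h3, ?_⟩, rfl⟩
        rw [Nat.le_div_iff_mul_le hk.1]; linarith [Nat.mul_comm k m]
      · rintro ⟨m, ⟨h3, h4⟩, rfl⟩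
        rw [Nat.le_div_iff_mul_le hk.1] at h4
        exact ⟨⟨Nat.mul_pos hk.1 h3, by linarith [Nat.mul_comm k m]⟩, dvd_mul_right k m⟩
    rw [h3, sum_image (fun x _ y _ h => Nat.eq_of_mul_eq_mul_left hk.1 h)]
    have h4 : ∀ m : ℕ, (1 : ℝ) / ((k * m : ℕ) : ℝ) = 1 / k * (1 / m) := by
      intro m
      push_cast
      rw [one_div_mul_one_div]
    simp only [h4]
    rw [← mul_sum]
    have h5 := harm_le (M / k)
    have h6 : Real.log ((M / k : ℕ) : ℝ) ≤ Real.log D := by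
      rcases Nat.eq_zero_or_pos (M / k) with h0 | h0
      · rw [h0]; simpa using hlD
      · apply Real.log_le_log (by exact_mod_cast h0)
        exact_mod_cast (Nat.div_le_self M k).trans hM
    calc 1 / (k : ℝ) * ∑ m ∈ Icc 1 (M / k), 1 / (m : ℝ) ≤ 1 / k * Hm := by
          apply mul_le_mul_of_nonneg_left _ (by positivity)
          linarith
      _ = _ := by ring
  calc ∑ d ∈ Icc 1 D, ∑ e ∈ Icc 1 R, (1 : ℝ) / ((Nat.lcm d e : ℕ) : ℝ) ≤
      ∑ d ∈ Icc 1 D, ∑ e ∈ Icc 1 R, ∑ k ∈ Icc 1 D, (k : ℝ) * ((if k ∣ d then (1 : ℝ) / d else 0) *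
        (if k ∣ e then (1 : ℝ) / e else 0)) :=
        sum_le_sum fun d hd => sum_le_sum fun e he => h1 d hd e he
    _ = ∑ k ∈ Icc 1 D, (k : ℝ) * ((∑ d ∈ Icc 1 D, if k ∣ d then (1 : ℝ) / d else 0) *
        ∑ e ∈ Icc 1 R, if k ∣ e then (1 : ℝ) / e else 0) := by
        rw [sum_congr rfl fun d _ => sum_comm, sum_comm]
        apply sum_congr rfl
        intro k _
        rw [sum_mul_sum, mul_sum]
        apply sum_congr rfl
        intro d _
        rw [mul_sum]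
    _ ≤ ∑ k ∈ Icc 1 D, (k : ℝ) * ((Hm / k) * (Hm / k)) := by
        apply sum_le_sum
        intro k hk
        apply mul_le_mul_of_nonneg_left _ (Nat.cast_nonneg k)
        apply mul_le_mul (h2 k hk D le_rfl) (h2 k hk R hRD)
        · apply sum_nonneg; intro e _; split_ifs <;> positivity
        · positivity
    _ = Hm ^ 2 * ∑ k ∈ Icc 1 D, 1 / (k : ℝ) := by
        rw [mul_sum]
        apply sum_congr rfl
        intro k hk
        rw [mem_Icc] at hk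
        have hk0 : (0 : ℝ) < k := by exact_mod_cast hk.1
        field_simp
    _ ≤ Hm ^ 2 * Hm := mul_le_mul_of_nonneg_left (harm_le D) (by positivity)
    _ = _ := by ring

lemma moll_bound {D1 D2 R : ℕ} (hD1 : 1 ≤ D1) (hD : D1 < D2) (hR : 2 ≤ R) (hRD : R ≤ D2) (j : PC) {s : ℂ}
    (hs : 7 / 8 ≤ s.re) :
    ‖moll D1 D2 R j s‖ ≤ ((D2 * R : ℕ) : ℝ) ^ (1 / 8 : ℝ) * (1 + Real.log D2) ^ 3 := by
  have h := sum_inv_lcm hRD (by omega)
  unfold moll
  refine (norm_sum_le _ _).trans ?_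
  calc ∑ d ∈ Icc 1 D2, ‖∑ e ∈ Icc 1 R, ((lam1 D1 D2 d * lam2 R e : ℝ) : ℂ) *
      (fn j (Nat.lcm d e) * ((Nat.lcm d e : ℕ) : ℂ) ^ (-s))‖ ≤
      ∑ d ∈ Icc 1 D2, ∑ e ∈ Icc 1 R, ((D2 * R : ℕ) : ℝ) ^ (1 / 8 : ℝ) * (1 / ((Nat.lcm d e : ℕ) : ℝ)) := by
        apply sum_le_sum
        intro d hd
        refine (norm_sum_le _ _).trans ?_
        apply sum_le_sum
        intro e he
        rw [mem_Icc] at hd he
        have hl1 : 1 ≤ Nat.lcm d e := Nat.lcm_pos hd.1 he.1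
        have hl1' : (1 : ℝ) ≤ ((Nat.lcm d e : ℕ) : ℝ) := by exact_mod_cast hl1
        have hlX : ((Nat.lcm d e : ℕ) : ℝ) ≤ ((D2 * R : ℕ) : ℝ) := by
          exact_mod_cast (lcm_le_mul d e hd.1 he.1).trans (Nat.mul_le_mul hd.2 he.2)
        rw [norm_mul, norm_mul, Complex.norm_real, Real.norm_eq_abs, abs_mul,
          Complex.norm_natCast_cpow_of_pos hl1, Complex.neg_re]
        have h1 : |lam1 D1 D2 d| * |lam2 R e| ≤ 1 :=
          mul_le_one₀ (lam1_abs hD1 hD hd.1 hd.2) (abs_nonneg _) (lam2_abs hR he.1 he.2)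
        have h2 : ((Nat.lcm d e : ℕ) : ℝ) ^ (-s.re) ≤ ((D2 * R : ℕ) : ℝ) ^ (1 / 8 : ℝ) * (1 / ((Nat.lcm d e : ℕ) : ℝ)) := by
          calc ((Nat.lcm d e : ℕ) : ℝ) ^ (-s.re) ≤ ((Nat.lcm d e : ℕ) : ℝ) ^ (1 / 8 - 1 : ℝ) :=
                Real.rpow_le_rpow_of_exponent_le hl1' (by linarith)
            _ = ((Nat.lcm d e : ℕ) : ℝ) ^ (1 / 8 : ℝ) / ((Nat.lcm d e : ℕ) : ℝ) :=
                Real.rpow_sub_one (by linarith) _
            _ ≤ ((D2 * R : ℕ) : ℝ) ^ (1 / 8 : ℝ) / ((Nat.lcm d e : ℕ) : ℝ) := by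
                apply div_le_div_of_nonneg_right _ (by linarith)
                exact Real.rpow_le_rpow (by linarith) hlX (by norm_num)
            _ = _ := by ring
        calc |lam1 D1 D2 d| * |lam2 R e| * (‖fn j (Nat.lcm d e)‖ * ((Nat.lcm d e : ℕ) : ℝ) ^ (-s.re)) ≤
            1 * (1 * (((D2 * R : ℕ) : ℝ) ^ (1 / 8 : ℝ) * (1 / ((Nat.lcm d e : ℕ) : ℝ)))) := by
              gcongr
              exact fn_norm_le j _
          _ = _ := by ring
    _ = ((D2 * R : ℕ) : ℝ) ^ (1 / 8 : ℝ) * ∑ d ∈ Icc 1 D2, ∑ e ∈ Icc 1 R, 1 / ((Nat.lcm d e : ℕ) : ℝ) := by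
        rw [mul_sum]
        apply sum_congr rfl
        intro d _
        rw [mul_sum]
    _ ≤ _ := mul_le_mul_of_nonneg_left h (by positivity)

end Pool.Agent.Helper86.PS
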