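import Pool.Agent.Helper86.PS.G9

set_option autoImplicit false

/-!
# The singular series of a system of linear forms
-/

open Finset Filter Topology

namespace Pool.Agent.Helper86.PS

open Pool.Agent.H807R2.Dav

/-- the number of the residues `x` modulo `p` for which `p` divides one of the `a i * x + h i` -/
def nuP {s : ℕ} (a h : Fin s → ℤ) (p : ℕ) : ℕ :=
  ((range p).filter (fun x : ℕ => ∃ i, (p : ℤ) ∣ a i * x + h i)).card

/-- the factor of the singular series at `p` -/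
noncomputable def facP {s : ℕ} (a h : Fin s → ℤ) (p : ℕ) : ℝ :=
  (1 - (nuP a h p : ℝ) / p) * ((1 - 1 / (p : ℝ))⁻¹) ^ s

lemma nuP_le {s : ℕ} (a h : Fin s → ℤ) (p : ℕ) : nuP a h p ≤ p := by
  unfold nuP
  refine (card_filter_le _ _).trans ?_
  rw [card_range]

lemma inv_fac {p : ℕ} (hp : p.Prime) : (1 - 1 / (p : ℝ))⁻¹ = (p : ℝ) / (p - 1) := by
  have h0 : (p : ℝ) ≠ 0 := by exact_mod_cast hp.pos.ne'
  have h1 : (p : ℝ) - 1 ≠ 0 := by
    have := prime_sub hp; linarith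
  rw [one_sub_div h0, inv_div]

lemma spp_eq {s : ℕ} (a h : Fin s → ℤ) {p : ℕ} (hp : p.Prime) : spp a h p = facP a h p := by
  have hp0 : (0 : ℝ) < p := by exact_mod_cast hp.pos
  unfold spp facP
  rw [inv_fac hp]
  have h1 : ∀ x ∈ range p, ∏ i, (1 + up p (a i * (x : ℤ) + h i)) =
      if ¬ ∃ i, (p : ℤ) ∣ a i * (x : ℤ) + h i then ((p : ℝ) / (p - 1)) ^ s else 0 := by
    intro x _
    by_cases hx : ∃ i, (p : ℤ) ∣ a i * (x : ℤ) + h i
    · rw [if_neg (not_not.2 hx)]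
      obtain ⟨i, hi⟩ := hx
      apply Finset.prod_eq_zero (mem_univ i)
      rw [one_add_up hp, if_pos hi]
    · rw [if_pos hx]
      push Not at hx
      rw [prod_congr rfl fun i _ => by rw [one_add_up hp, if_neg (hx i)], prod_const, card_univ, Fintype.card_fin]
  rw [sum_congr rfl h1, ← sum_filter, sum_const, nsmul_eq_mul]
  have h2 : (((range p).filter (fun x : ℕ => ¬ ∃ i, (p : ℤ) ∣ a i * (x : ℤ) + h i)).card : ℝ) = p - nuP a h p := by
    have h3 := card_filter_add_card_filter_not (s := range p) (fun x : ℕ => ∃ i, (p : ℤ) ∣ a i * (x : ℤ) + h i)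
    rw [card_range] at h3
    unfold nuP
    have : ((((range p).filter (fun x : ℕ => ∃ i, (p : ℤ) ∣ a i * (x : ℤ) + h i)).card : ℝ)) +
      (((range p).filter (fun x : ℕ => ¬ ∃ i, (p : ℤ) ∣ a i * (x : ℤ) + h i)).card : ℝ) = p := by exact_mod_cast h3
    linarith
  rw [h2]
  field_simp

lemma SPR_eq {s : ℕ} (R : ℕ) (a h : Fin s → ℤ) : SPR R a h = ∏ p ∈ PR R, facP a h p :=
  prod_congr rfl fun _ hp => spp_eq a h (mem_PR.1 hp).2

/-- the roots of one form -/
lemma root_card {a h : ℤ} {p : ℕ} (hp : p.Prime) (ha : ¬ (p : ℤ) ∣ a) :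
    ((range p).filter (fun x : ℕ => (p : ℤ) ∣ a * x + h)).card = 1 := by
  have hp0 : (p : ℂ) ≠ 0 := by exact_mod_cast hp.pos.ne'
  have hco : IsCoprime a (p : ℤ) := ((Nat.prime_iff_prime_int.1 hp).coprime_iff_not_dvd.2 ha).symm
  have hper : Per p (fun x : ℤ => if (p : ℤ) ∣ x then (1 : ℂ) else 0) := by
    intro x y hxy
    have : (p : ℤ) ∣ x ↔ (p : ℤ) ∣ y := by
      have e1 : x = y + (x - y) := by ring
      constructor
      · intro h; have := dvd_sub h hxy; simpa using this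
      · intro h; rw [e1]; exact dvd_add h hxy
    simp only [this]
  have h1 := mn_affine hper hco h
  have h2 := mn_ind hp.pos (fun _ => (1 : ℂ))
  simp only [mul_one] at h2
  rw [h2] at h1
  unfold mn at h1
  rw [← sum_filter, sum_const, nsmul_eq_mul, mul_one] at h1
  have h3 : ((((range p).filter (fun x : ℕ => (p : ℤ) ∣ a * x + h)).card : ℂ)) = 1 := by
    field_simp at h1
    exact h1
  exact_mod_cast h3

lemma nuP_le_s {s : ℕ} {a h : Fin s → ℤ} {p : ℕ} (hp : p.Prime) (hnu : nuP a h p < p) : nuP a h p ≤ s := by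
  unfold nuP at hnu ⊢
  have h1 : (range p).filter (fun x : ℕ => ∃ i, (p : ℤ) ∣ a i * x + h i) =
      univ.biUnion fun i => (range p).filter (fun x : ℕ => (p : ℤ) ∣ a i * x + h i) := by
    ext x
    simp only [mem_filter, mem_biUnion, mem_univ, true_and]
    constructor
    · rintro ⟨hx, i, hi⟩; exact ⟨i, hx, hi⟩
    · rintro ⟨i, hx, hi⟩; exact ⟨hx, i, hi⟩
  have h2 : ∀ i ∈ (univ : Finset (Fin s)), ((range p).filter (fun x : ℕ => (p : ℤ) ∣ a i * x + h i)).card ≤ 1 := by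
    intro i _
    by_cases ha : (p : ℤ) ∣ a i
    · by_cases hh : (p : ℤ) ∣ h i
      · exfalso
        have h3 : (range p).filter (fun x : ℕ => ∃ i, (p : ℤ) ∣ a i * x + h i) = range p := by
          apply filter_true_of_mem
          intro x _
          exact ⟨i, dvd_add (Dvd.dvd.mul_right ha _) hh⟩
        rw [h3, card_range] at hnu
        exact lt_irrefl _ hnu
      · have : (range p).filter (fun x : ℕ => (p : ℤ) ∣ a i * x + h i) = ∅ := by
          apply filter_false_of_mem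
          intro x _ hx
          apply hh
          have := dvd_sub hx (Dvd.dvd.mul_right ha (x : ℤ))
          simpa using this
        rw [this]; simp
    · rw [root_card hp ha]
  rw [h1]
  refine card_biUnion_le.trans ((sum_le_sum h2).trans ?_)
  simp

lemma nuP_lt_of {s : ℕ} {a h : Fin s → ℤ} {p : ℕ} (hp : p.Prime) (hsp : s < p) (ha : ∀ i, ¬ (p : ℤ) ∣ a i) :
    nuP a h p < p := by
  unfold nuP
  have h1 : (range p).filter (fun x : ℕ => ∃ i, (p : ℤ) ∣ a i * x + h i) =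
      univ.biUnion fun i => (range p).filter (fun x : ℕ => (p : ℤ) ∣ a i * x + h i) := by
    ext x
    simp only [mem_filter, mem_biUnion, mem_univ, true_and]
    constructor
    · rintro ⟨hx, i, hi⟩; exact ⟨i, hx, hi⟩
    · rintro ⟨i, hx, hi⟩; exact ⟨hx, i, hi⟩
  rw [h1]
  refine lt_of_le_of_lt (card_biUnion_le.trans (sum_le_sum fun i _ => (root_card hp (ha i)).le)) ?_
  simpa using hsp

lemma nuP_eq {s : ℕ} {a h : Fin s → ℤ} {p : ℕ} (hp : p.Prime) (ha : ∀ i, ¬ (p : ℤ) ∣ a i) (hΔ : ¬ (p : ℤ) ∣ Del a h) :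
    nuP a h p = s := by
  unfold nuP
  have h1 : (range p).filter (fun x : ℕ => ∃ i, (p : ℤ) ∣ a i * x + h i) =
      univ.biUnion fun i => (range p).filter (fun x : ℕ => (p : ℤ) ∣ a i * x + h i) := by
    ext x
    simp only [mem_filter, mem_biUnion, mem_univ, true_and]
    constructor
    · rintro ⟨hx, i, hi⟩; exact ⟨i, hx, hi⟩
    · rintro ⟨i, hx, hi⟩; exact ⟨hx, i, hi⟩
  rw [h1, card_biUnion]
  · rw [sum_congr rfl fun i _ => root_card hp (ha i)]
    simp
  · intro i _ k _ hik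
    rw [Function.onFun, disjoint_left]
    intro x hx hx'
    rw [mem_filter] at hx hx'
    exact hΔ (Del_dvd hik hx.2 hx'.2)

lemma facP_nonneg {s : ℕ} (a h : Fin s → ℤ) {p : ℕ} (hp : p.Prime) : 0 ≤ facP a h p := by
  rw [← spp_eq a h hp]
  unfold spp
  apply mul_nonneg (by positivity)
  exact sum_nonneg fun x _ => prod_nonneg fun i _ => one_add_up_nonneg hp _

lemma facP_lower {s : ℕ} {a h : Fin s → ℤ} {p : ℕ} (hp : p.Prime) (hsp : s < p) (hnu : nuP a h p < p) :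
    1 - (s : ℝ) ^ 2 / (p : ℝ) ^ 2 ≤ facP a h p := by
  have hp0 : (0 : ℝ) < p := by exact_mod_cast hp.pos
  have hsub := prime_sub hp
  have hn : (nuP a h p : ℝ) ≤ s := by exact_mod_cast nuP_le_s hp hnu
  have hs : (s : ℝ) < p := by exact_mod_cast hsp
  unfold facP
  rw [inv_fac hp]
  have h1 : 1 + (s : ℝ) / p ≤ ((p : ℝ) / (p - 1)) ^ s := by
    have h2 := one_add_mul_le_pow (a := 1 / ((p : ℝ) - 1)) (le_trans (by norm_num) (by positivity : 0 ≤ 1 / ((p : ℝ) - 1))) s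
    have h3 : 1 + 1 / ((p : ℝ) - 1) = (p : ℝ) / (p - 1) := by
      have : (p : ℝ) - 1 ≠ 0 := by linarith
      field_simp; ring
    rw [h3] at h2
    refine le_trans ?_ h2
    have h4 : (s : ℝ) / p ≤ s * (1 / ((p : ℝ) - 1)) := by
      rw [mul_one_div]
      apply div_le_div_of_nonneg_left (Nat.cast_nonneg _) (by linarith) (by linarith)
    linarith
  have h2 : 0 ≤ 1 - (s : ℝ) / p := by
    rw [sub_nonneg, div_le_one hp0]; exact hs.le
  have h3 : 1 - (s : ℝ) / p ≤ 1 - (nuP a h p : ℝ) / p := by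
    have : (nuP a h p : ℝ) / p ≤ s / p := by gcongr
    linarith
  calc 1 - (s : ℝ) ^ 2 / (p : ℝ) ^ 2 = (1 - (s : ℝ) / p) * (1 + (s : ℝ) / p) := by field_simp; ring
    _ ≤ (1 - (nuP a h p : ℝ) / p) * ((p : ℝ) / (p - 1)) ^ s := mul_le_mul h3 h1 (by positivity) (h2.trans h3)

lemma bern {s p : ℕ} (hp : p.Prime) (hsp : 2 * s ≤ p) : 1 - (s : ℝ) / p ≤ (1 - 1 / (p : ℝ)) ^ s := by
  have hp0 : (0 : ℝ) < p := by exact_mod_cast hp.pos
  have h1 : (1 : ℝ) / p ≤ 1 := by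
    rw [div_le_one hp0]; exact_mod_cast hp.one_le
  have h2 := one_add_mul_le_pow (a := -(1 / (p : ℝ))) (by linarith) s
  have h3 : 1 + (s : ℝ) * -(1 / (p : ℝ)) = 1 - s / p := by ring
  have h4 : 1 + -(1 / (p : ℝ)) = 1 - 1 / p := by ring
  rwa [h3, h4] at h2

lemma facP_upper {s : ℕ} (a h : Fin s → ℤ) {p : ℕ} (hp : p.Prime) (hsp : 2 * s ≤ p) :
    facP a h p ≤ 1 + 2 * s / p := by
  have hp0 : (0 : ℝ) < p := by exact_mod_cast hp.pos
  have hs : 2 * (s : ℝ) ≤ p := by exact_mod_cast hsp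
  have h1 := bern hp hsp
  have h0 : (s : ℝ) / p ≤ 1 / 2 := by rw [div_le_div_iff₀ hp0 (by norm_num)]; linarith
  have h2 : ((1 - 1 / (p : ℝ))⁻¹) ^ s ≤ 1 + 2 * s / p := by
    rw [inv_pow]
    have h3 : 0 < 1 - (s : ℝ) / p := by linarith
    calc ((1 - 1 / (p : ℝ)) ^ s)⁻¹ ≤ (1 - (s : ℝ) / p)⁻¹ := inv_anti₀ h3 h1
      _ ≤ 1 + 2 * s / p := by
        rw [inv_le_iff_one_le_mul₀ h3]
        have e1 : (1 : ℝ) + 2 * s / p = 1 + 2 * (s / p) := by ring
        rw [e1]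
        have e2 : 0 ≤ (s : ℝ) / p := by positivity
        nlinarith
  unfold facP
  have h4 : 1 - (nuP a h p : ℝ) / p ≤ 1 := by
    have : 0 ≤ (nuP a h p : ℝ) / p := by positivity
    linarith
  have hsub := prime_sub hp
  have h5 : 0 ≤ ((1 - 1 / (p : ℝ))⁻¹) ^ s := by rw [inv_fac hp]; positivity
  calc _ ≤ 1 * ((1 - 1 / (p : ℝ))⁻¹) ^ s := mul_le_mul_of_nonneg_right h4 h5
    _ ≤ _ := by rw [one_mul]; exact h2

lemma facP_le_one {s : ℕ} {a h : Fin s → ℤ} {p : ℕ} (hp : p.Prime) (hsp : 2 * s ≤ p) (ha : ∀ i, ¬ (p : ℤ) ∣ a i)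
    (hΔ : ¬ (p : ℤ) ∣ Del a h) : facP a h p ≤ 1 := by
  have hp0 : (0 : ℝ) < p := by exact_mod_cast hp.pos
  have hsub := prime_sub hp
  unfold facP
  rw [nuP_eq hp ha hΔ, inv_pow]
  have h1 := bern hp hsp
  have h2 : 0 < (1 - 1 / (p : ℝ)) ^ s := by
    apply pow_pos
    rw [sub_pos, div_lt_one hp0]
    linarith
  rw [← div_eq_mul_inv, div_le_one h2]
  exact h1

lemma prod_one_sub_ge {ι : Type} [DecidableEq ι] (T : Finset ι) {x : ι → ℝ} (h0 : ∀ i ∈ T, 0 ≤ x i) (h1 : ∀ i ∈ T, x i ≤ 1) :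
    1 - ∑ i ∈ T, x i ≤ ∏ i ∈ T, (1 - x i) := by
  induction T using Finset.induction_on with
  | empty => simp
  | insert i T hi ih =>
    rw [sum_insert hi, prod_insert hi]
    have ih' := ih (fun k hk => h0 k (mem_insert_of_mem hk)) (fun k hk => h1 k (mem_insert_of_mem hk))
    have a0 := h0 i (mem_insert_self i T)
    have a1 := h1 i (mem_insert_self i T)
    have h2 : ∏ k ∈ T, (1 - x k) ≤ 1 := Finset.prod_le_one (fun k hk => by linarith [h1 k (mem_insert_of_mem hk)])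
      fun k hk => by linarith [h0 k (mem_insert_of_mem hk)]
    nlinarith

lemma sum_sq_tail (T : Finset ℕ) {R : ℕ} (hR : 1 ≤ R) (hT : ∀ p ∈ T, R < p) : ∑ p ∈ T, 1 / (p : ℝ) ^ 2 ≤ 1 / (R : ℝ) := by
  have hRr : (0 : ℝ) < R := by exact_mod_cast hR
  have h1 : ∀ N : ℕ, R ≤ N → ∑ p ∈ Ioc R N, 1 / (p : ℝ) ^ 2 ≤ 1 / (R : ℝ) - 1 / (N : ℝ) := by
    intro N hN
    induction N, hN using Nat.le_induction with
    | base => simp
    | succ N hN ih =>
      rw [← Finset.insert_Ioc_right_eq_Ioc_add_one hN, sum_insert (by simp)]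
      have hN0 : (0 : ℝ) < N := by exact_mod_cast (by omega : 0 < N)
      have h2 : 1 / ((N + 1 : ℕ) : ℝ) ^ 2 ≤ 1 / (N : ℝ) - 1 / ((N + 1 : ℕ) : ℝ) := by
        push_cast
        rw [div_sub_div _ _ hN0.ne' (by positivity), div_le_div_iff₀ (by positivity) (by positivity)]
        nlinarith
      linarith
  obtain ⟨N, hN⟩ : ∃ N, ∀ p ∈ T, p ≤ N := ⟨T.sup id, fun p hp => le_sup (f := id) hp⟩
  have h2 : T ⊆ Ioc R (max N R) := fun p hp => mem_Ioc.2 ⟨hT p hp, (hN p hp).trans (le_max_left _ _)⟩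
  calc ∑ p ∈ T, 1 / (p : ℝ) ^ 2 ≤ ∑ p ∈ Ioc R (max N R), 1 / (p : ℝ) ^ 2 :=
        sum_le_sum_of_subset_of_nonneg h2 fun _ _ _ => by positivity
    _ ≤ 1 / (R : ℝ) - 1 / ((max N R : ℕ) : ℝ) := h1 _ (le_max_right _ _)
    _ ≤ 1 / (R : ℝ) := by
      have : 0 ≤ 1 / ((max N R : ℕ) : ℝ) := by positivity
      linarith

/-- the product over primes beyond `R`, lower bound -/
lemma tail_lower {s : ℕ} {a h : Fin s → ℤ} {R : ℕ} (hR : 1 ≤ R) (hsR : s ≤ R) (T : Finset ℕ)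
    (hT : ∀ p ∈ T, p.Prime ∧ R < p ∧ nuP a h p < p) : 1 - (s : ℝ) ^ 2 / R ≤ ∏ p ∈ T, facP a h p := by
  have h1 : ∏ p ∈ T, (1 - (s : ℝ) ^ 2 / (p : ℝ) ^ 2) ≤ ∏ p ∈ T, facP a h p := by
    apply Finset.prod_le_prod
    · intro p hp
      obtain ⟨hpp, hRp, _⟩ := hT p hp
      have hp0 : (0 : ℝ) < p := by exact_mod_cast hpp.pos
      rw [sub_nonneg, div_le_one (by positivity)]
      apply pow_le_pow_left₀ (Nat.cast_nonneg _)
      exact_mod_cast (by omega : s ≤ p)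
    · intro p hp
      obtain ⟨hpp, hRp, hnu⟩ := hT p hp
      exact facP_lower hpp (by omega) hnu
  refine le_trans ?_ h1
  have h2 := prod_one_sub_ge T (x := fun p : ℕ => (s : ℝ) ^ 2 / (p : ℝ) ^ 2) (fun p _ => by positivity) (by
    intro p hp
    obtain ⟨hpp, hRp, _⟩ := hT p hp
    have hp0 : (0 : ℝ) < p := by exact_mod_cast hpp.pos
    rw [div_le_one (by positivity)]
    apply pow_le_pow_left₀ (Nat.cast_nonneg _)
    exact_mod_cast (by omega : s ≤ p))
  refine le_trans ?_ h2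
  have h3 := sum_sq_tail T hR (fun p hp => (hT p hp).2.1)
  have h4 : ∑ p ∈ T, (s : ℝ) ^ 2 / (p : ℝ) ^ 2 = (s : ℝ) ^ 2 * ∑ p ∈ T, 1 / (p : ℝ) ^ 2 := by
    rw [mul_sum]
    exact sum_congr rfl fun p _ => by ring
  rw [h4]
  have h5 : (s : ℝ) ^ 2 * ∑ p ∈ T, 1 / (p : ℝ) ^ 2 ≤ (s : ℝ) ^ 2 * (1 / R) := by gcongr
  have h6 : (s : ℝ) ^ 2 / R = (s : ℝ) ^ 2 * (1 / R) := by ring
  linarith

/-- the product over primes beyond `R`, upper bound -/
lemma tail_upper {s : ℕ} {a h : Fin s → ℤ} (ha : ∀ i, a i ≠ 0) (hΔ : Del a h ≠ 0) {R : ℕ} (hR : 1 ≤ R) (hsR : 2 * s ≤ R)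
    (T : Finset ℕ) (hT : ∀ p ∈ T, p.Prime ∧ R < p) :
    ∏ p ∈ T, facP a h p ≤ Real.exp (2 * s * Nat.log 2 ((∏ i, (a i).natAbs) * (Del a h).natAbs) / R) := by
  have hRr : (0 : ℝ) < R := by exact_mod_cast hR
  obtain ⟨n, hn⟩ : ∃ n : ℕ, n = (∏ i, (a i).natAbs) * (Del a h).natAbs := ⟨_, rfl⟩
  have hn0 : 0 < n := by
    rw [hn]
    apply Nat.mul_pos
    · apply Finset.prod_pos
      intro i _
      exact Int.natAbs_pos.2 (ha i)
    · exact Int.natAbs_pos.2 hΔ
  rw [← hn, ← prod_filter_mul_prod_filter_not T (fun p => p ∣ n)]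
  have h1 : ∏ p ∈ T.filter (fun p => ¬ p ∣ n), facP a h p ≤ 1 := by
    apply Finset.prod_le_one
    · intro p hp
      exact facP_nonneg a h (hT p (mem_filter.1 hp).1).1
    · intro p hp
      rw [mem_filter] at hp
      obtain ⟨hpp, hRp⟩ := hT p hp.1
      apply facP_le_one hpp (by omega)
      · intro i hc
        apply hp.2
        rw [hn]
        exact Dvd.dvd.mul_right ((Int.natCast_dvd.1 hc).trans (dvd_prod_of_mem (fun i => (a i).natAbs) (mem_univ i))) _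
      · intro hc
        apply hp.2
        rw [hn]
        exact Dvd.dvd.mul_left (Int.natCast_dvd.1 hc) _
  have h2 : ∏ p ∈ T.filter (fun p => p ∣ n), facP a h p ≤ Real.exp (2 * s * Nat.log 2 n / R) := by
    have h3 : ∏ p ∈ T.filter (fun p => p ∣ n), facP a h p ≤ ∏ p ∈ T.filter (fun p => p ∣ n), Real.exp (2 * s / R) := by
      apply Finset.prod_le_prod
      · intro p hp
        exact facP_nonneg a h (hT p (mem_filter.1 hp).1).1
      · intro p hp
        obtain ⟨hpp, hRp⟩ := hT p (mem_filter.1 hp).1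
        refine (facP_upper a h hpp (by omega)).trans ?_
        have e1 := Real.add_one_le_exp (2 * (s : ℝ) / R)
        have e2 : 2 * (s : ℝ) / p ≤ 2 * s / R := by
          apply div_le_div_of_nonneg_left (by positivity) hRr
          exact_mod_cast hRp.le
        linarith
    refine h3.trans ?_
    rw [prod_const, ← Real.exp_nat_mul]
    apply Real.exp_le_exp.2
    have hcard : (T.filter (fun p => p ∣ n)).card ≤ Nat.log 2 n := by
      apply card_le_log (fun p hp => (hT p (mem_filter.1 hp).1).1.two_le)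
      apply Nat.le_of_dvd hn0
      refine dvd_trans (Finset.prod_dvd_prod_of_subset _ n.primeFactors _ ?_) (Nat.prod_primeFactors_dvd _)
      intro p hp
      rw [Nat.mem_primeFactors]
      exact ⟨(hT p (mem_filter.1 hp).1).1, (mem_filter.1 hp).2, hn0.ne'⟩
    have hc : ((T.filter (fun p => p ∣ n)).card : ℝ) ≤ Nat.log 2 n := by exact_mod_cast hcard
    calc ((T.filter (fun p => p ∣ n)).card : ℝ) * (2 * s / R) ≤ Nat.log 2 n * (2 * s / R) := by gcongr
      _ = _ := by ring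
  have h4 : 0 ≤ ∏ p ∈ T.filter (fun p => ¬ p ∣ n), facP a h p :=
    Finset.prod_nonneg fun p hp => facP_nonneg a h (hT p (mem_filter.1 hp).1).1
  calc _ ≤ Real.exp (2 * s * Nat.log 2 n / R) * 1 := mul_le_mul h2 h1 h4 (by positivity)
    _ = _ := mul_one _

end Pool.Agent.Helper86.PS
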