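import Pool.Agent.Helper86.PS.H1

set_option autoImplicit false

/-!
# The singular series as a limit
-/

open Finset Filter Topology

namespace Pool.Agent.Helper86.PS

open Pool.Agent.H807R2.Dav

lemma exists_facP {s : ℕ} {a h : Fin s → ℤ} (ha : ∀ i, a i ≠ 0) (hΔ : Del a h ≠ 0)
    (hadm : ∀ p : ℕ, p.Prime → nuP a h p < p) :
    ∃ S : ℝ, HasProd (fun p : Nat.Primes => facP a h (p : ℕ)) S := by
  have hs : Summable (fun p : Nat.Primes => facP a h (p : ℕ) - 1) := by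
    have h1 : Summable (fun p : Nat.Primes => (s : ℝ) ^ 2 * (1 / ((p : ℕ) : ℝ) ^ 2)) :=
      ((Real.summable_one_div_nat_pow.2 one_lt_two).comp_injective Subtype.val_injective).mul_left _
    apply h1.of_norm_bounded_eventually
    obtain ⟨n, hn⟩ : ∃ n : ℕ, n = (∏ i, (a i).natAbs) * (Del a h).natAbs := ⟨_, rfl⟩
    have hn0 : 0 < n := by
      rw [hn]
      apply Nat.mul_pos
      · apply Finset.prod_pos
        intro i _
        exact Int.natAbs_pos.2 (ha i)
      · exact Int.natAbs_pos.2 hΔ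
    have hfin : {p : Nat.Primes | (p : ℕ) ≤ n + 2 * s + 1}.Finite :=
      Set.Finite.preimage (Subtype.val_injective.injOn) (Set.finite_Iic (n + 2 * s + 1))
    refine Filter.mem_cofinite.2 (hfin.subset ?_)
    intro p hp
    by_contra hc
    apply hp
    simp only [Set.mem_ofPred_eq, not_le] at hc ⊢
    have hpp : (p : ℕ).Prime := p.2
    have hnd : ¬ (p : ℕ) ∣ n := fun hd => by
      have := Nat.le_of_dvd hn0 hd; omega
    have hai : ∀ i, ¬ ((p : ℕ) : ℤ) ∣ a i := by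
      intro i hc
      apply hnd
      rw [hn]
      exact Dvd.dvd.mul_right ((Int.natCast_dvd.1 hc).trans (dvd_prod_of_mem (fun i => (a i).natAbs) (mem_univ i))) _
    have hΔp : ¬ ((p : ℕ) : ℤ) ∣ Del a h := by
      intro hc
      apply hnd
      rw [hn]
      exact Dvd.dvd.mul_left (Int.natCast_dvd.1 hc) _
    have h2 := facP_lower hpp (by omega : s < (p : ℕ)) (hadm _ hpp)
    have h3 := facP_le_one hpp (by omega : 2 * s ≤ (p : ℕ)) hai hΔp
    rw [Real.norm_eq_abs, abs_le]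
    have h4 : (s : ℝ) ^ 2 / ((p : ℕ) : ℝ) ^ 2 = (s : ℝ) ^ 2 * (1 / ((p : ℕ) : ℝ) ^ 2) := by ring
    rw [← h4]
    have h5 : 0 ≤ (s : ℝ) ^ 2 / ((p : ℕ) : ℝ) ^ 2 := by positivity
    constructor <;> linarith
  have h := Real.multipliable_one_add_of_summable hs
  obtain ⟨S, hS⟩ := h
  refine ⟨S, ?_⟩
  simpa using hS

lemma SPR_mul {s R : ℕ} (a h : Fin s → ℤ) (F : Finset Nat.Primes) (hF : ∀ p ∈ PR R, ∃ q ∈ F, (q : ℕ) = p) :
    ∏ p ∈ F, facP a h (p : ℕ) = SPR R a h * ∏ p ∈ (F.image (fun p : Nat.Primes => (p : ℕ))).filter (fun p => R < p), facP a h p := by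
  rw [SPR_eq]
  have h1 : ∏ p ∈ F, facP a h (p : ℕ) = ∏ p ∈ F.image (fun p : Nat.Primes => (p : ℕ)), facP a h p := by
    rw [prod_image]
    intro x _ y _ hxy
    exact Subtype.ext hxy
  rw [h1, ← prod_filter_mul_prod_filter_not _ (fun p => R < p), mul_comm]
  congr 1
  apply prod_congr ?_ fun _ _ => rfl
  ext p
  rw [mem_filter, mem_image, mem_PR]
  constructor
  · rintro ⟨⟨q, _, rfl⟩, hq⟩
    exact ⟨by omega, q.2⟩
  · rintro ⟨hp1, hp2⟩
    obtain ⟨q, hq, hqp⟩ := hF p (mem_PR.2 ⟨hp1, hp2⟩)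
    exact ⟨⟨q, hq, hqp⟩, by omega⟩

/-- the singular series lies near its truncations -/
lemma S_near {s R : ℕ} {a h : Fin s → ℤ} {S lo up : ℝ} (hS : HasProd (fun p : Nat.Primes => facP a h (p : ℕ)) S)
    (hT : ∀ T : Finset ℕ, (∀ p ∈ T, p.Prime ∧ R < p) → lo ≤ ∏ p ∈ T, facP a h p ∧ ∏ p ∈ T, facP a h p ≤ up) :
    lo * SPR R a h ≤ S ∧ S ≤ up * SPR R a h := by
  have hF0 : ∃ F0 : Finset Nat.Primes, ∀ p ∈ PR R, ∃ q ∈ F0, (q : ℕ) = p := by
    refine ⟨(PR R).attach.image (fun p => ⟨p.1, (mem_PR.1 p.2).2⟩), ?_⟩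
    intro p hp
    exact ⟨⟨p, (mem_PR.1 hp).2⟩, mem_image.2 ⟨⟨p, hp⟩, mem_attach _ _, rfl⟩, rfl⟩
  obtain ⟨F0, hF0⟩ := hF0
  have h0 := SPR_nonneg R a h
  unfold HasProd at hS
  rw [SummationFilter.unconditional_filter] at hS
  have hev : ∀ᶠ F : Finset Nat.Primes in atTop, lo * SPR R a h ≤ ∏ p ∈ F, facP a h (p : ℕ) ∧
      ∏ p ∈ F, facP a h (p : ℕ) ≤ up * SPR R a h := by
    filter_upwards [eventually_ge_atTop F0] with F hF
    rw [SPR_mul a h F fun p hp => by
      obtain ⟨q, hq, hqp⟩ := hF0 p hp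
      exact ⟨q, hF hq, hqp⟩]
    have h1 := hT ((F.image (fun p : Nat.Primes => (p : ℕ))).filter (fun p => R < p)) (by
      intro p hp
      rw [mem_filter, mem_image] at hp
      obtain ⟨⟨q, _, rfl⟩, hq⟩ := hp
      exact ⟨q.2, hq⟩)
    constructor
    · rw [mul_comm]; exact mul_le_mul_of_nonneg_left h1.1 h0
    · rw [mul_comm]; exact mul_le_mul_of_nonneg_right h1.2 h0
  exact ⟨ge_of_tendsto hS (hev.mono fun _ h => h.1), le_of_tendsto hS (hev.mono fun _ h => h.2)⟩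

lemma facP_ge_inv {s : ℕ} {a h : Fin s → ℤ} {p : ℕ} (hp : p.Prime) (hnu : nuP a h p < p) : 1 / (p : ℝ) ≤ facP a h p := by
  have hp0 : (0 : ℝ) < p := by exact_mod_cast hp.pos
  have hsub := prime_sub hp
  unfold facP
  rw [inv_fac hp]
  have h1 : 1 / (p : ℝ) ≤ 1 - (nuP a h p : ℝ) / p := by
    have : (nuP a h p : ℝ) + 1 ≤ p := by exact_mod_cast hnu
    rw [one_sub_div hp0.ne']
    apply div_le_div_of_nonneg_right _ hp0.le
    linarith
  have h2 : (1 : ℝ) ≤ ((p : ℝ) / (p - 1)) ^ s := by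
    apply one_le_pow₀
    rw [le_div_iff₀ (by linarith)]
    linarith
  calc 1 / (p : ℝ) = 1 / (p : ℝ) * 1 := (mul_one _).symm
    _ ≤ _ := mul_le_mul h1 h2 zero_le_one (le_trans (by positivity) h1)

/-- a positive constant below the singular series -/
noncomputable def cS (s : ℕ) : ℝ := (1 / ((2 * s ^ 2 + 2 * s + 2 : ℕ) : ℝ)) ^ (2 * s ^ 2 + 2 * s + 3) / 2

lemma cS_pos (s : ℕ) : 0 < cS s := by unfold cS; positivity

lemma SPR_lower {s : ℕ} {a h : Fin s → ℤ} (hadm : ∀ p : ℕ, p.Prime → nuP a h p < p) (R : ℕ) : cS s ≤ SPR R a h := by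
  obtain ⟨P, hP⟩ : ∃ P : ℕ, P = 2 * s ^ 2 + 2 * s + 2 := ⟨_, rfl⟩
  have hcS : cS s = (1 / (P : ℝ)) ^ (P + 1) / 2 := by
    unfold cS; rw [hP]
  rw [hcS, SPR_eq, ← prod_filter_mul_prod_filter_not (PR R) (fun p => p ≤ P)]
  have hP0 : (0 : ℝ) < P := by
    have : 0 < P := by omega
    exact_mod_cast this
  have hP1 : (1 : ℝ) ≤ P := by
    have : 1 ≤ P := by omega
    exact_mod_cast this
  have h1 : (1 / (P : ℝ)) ^ (P + 1) ≤ ∏ p ∈ (PR R).filter (fun p => p ≤ P), facP a h p := by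
    have h2 : ∏ p ∈ (PR R).filter (fun p => p ≤ P), (1 / (P : ℝ)) ≤ ∏ p ∈ (PR R).filter (fun p => p ≤ P), facP a h p := by
      apply Finset.prod_le_prod
      · intro p _; positivity
      · intro p hp
        rw [mem_filter, mem_PR] at hp
        refine le_trans ?_ (facP_ge_inv hp.1.2 (hadm p hp.1.2))
        have hp0 : (0 : ℝ) < p := by exact_mod_cast hp.1.2.pos
        apply one_div_le_one_div_of_le hp0
        exact_mod_cast hp.2
    refine le_trans ?_ h2
    rw [prod_const]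
    apply pow_le_pow_of_le_one (by positivity)
    · rw [div_le_one hP0]; exact hP1
    · calc ((PR R).filter (fun p => p ≤ P)).card ≤ (range (P + 1)).card := by
            apply card_le_card
            intro p hp
            rw [mem_filter] at hp
            rw [mem_range]
            omega
        _ = P + 1 := card_range _
  have h3 : (1 / 2 : ℝ) ≤ ∏ p ∈ (PR R).filter (fun p => ¬ p ≤ P), facP a h p := by
    have h4 := tail_lower (a := a) (h := h) (R := P) (s := s) (by omega) (by nlinarith [Nat.zero_le s]) ((PR R).filter (fun p => ¬ p ≤ P)) (by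
      intro p hp
      rw [mem_filter, mem_PR] at hp
      exact ⟨hp.1.2, by omega, hadm p hp.1.2⟩)
    refine le_trans ?_ h4
    have h5 : (s : ℝ) ^ 2 / P ≤ 1 / 2 := by
      rw [div_le_div_iff₀ hP0 (by norm_num)]
      have : (P : ℝ) = 2 * s ^ 2 + 2 * s + 2 := by rw [hP]; push_cast; ring
      rw [this]
      have : (0 : ℝ) ≤ s := Nat.cast_nonneg _
      nlinarith
    linarith
  calc (1 / (P : ℝ)) ^ (P + 1) / 2 = (1 / (P : ℝ)) ^ (P + 1) * (1 / 2) := by ring
    _ ≤ _ := mul_le_mul h1 h3 (by norm_num) (le_trans (by positivity) h1)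

end Pool.Agent.Helper86.PS
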