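import Pool.Agent.Helper86.PS.H2

set_option autoImplicit false

/-!
# Closeness of the truncated singular series, convex subsets, few proportional forms
-/

open Finset Filter Topology

namespace Pool.Agent.Helper86.PS

open Pool.Agent.H807R2.Dav

lemma n_le {s : ℕ} {a h : Fin s → ℤ} {X : ℕ} (hX : 1 ≤ X) (ha : ∀ i, |a i| ≤ X) (hh : ∀ i, |h i| ≤ X) :
    (∏ i, (a i).natAbs) * (Del a h).natAbs ≤ (2 * X ^ 2) ^ (s * s + s) := by
  have h1 := Del_le hX ha hh
  have h2 : ∏ i, (a i).natAbs ≤ (2 * X ^ 2) ^ s := by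
    calc ∏ i, (a i).natAbs ≤ ∏ _i : Fin s, (2 * X ^ 2) := by
          apply prod_le_prod'
          intro i _
          have e1 := ha i
          rw [Int.abs_eq_natAbs] at e1
          have e2 : (a i).natAbs ≤ X := by exact_mod_cast e1
          nlinarith
      _ = (2 * X ^ 2) ^ s := by simp
  rw [pow_add, mul_comm]
  exact Nat.mul_le_mul h1 h2

/-- the singular series is close to its truncation -/
lemma S_close (s : ℕ) (A L2 : ℕ) {η : ℝ} (hη : 0 < η) : ∃ Q0 : ℕ, ∀ Q : ℕ, Q0 ≤ Q → ∀ M : ℕ, 1 ≤ M → M ≤ Q ^ L2 →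
    ∀ R : ℕ, Q ≤ R →
    ∀ a h : Fin s → ℤ, (∀ i, a i ≠ 0) → (∀ i, |a i| ≤ A) → (∀ i, |h i| ≤ M) → Del a h ≠ 0 →
    (∀ p : ℕ, p.Prime → nuP a h p < p) → ∀ S : ℝ, HasProd (fun p : Nat.Primes => facP a h (p : ℕ)) S →
    |S - SPR R a h| ≤ η * SPR R a h := by
  obtain ⟨η', hη'⟩ : ∃ η' : ℝ, η' = min η 1 := ⟨_, rfl⟩
  have hη0 : 0 < η' := by rw [hη']; exact lt_min hη one_pos
  have hη1 : η' ≤ 1 := by rw [hη']; exact min_le_right _ _
  have hηη : η' ≤ η := by rw [hη']; exact min_le_left _ _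
  obtain ⟨C, hC⟩ : ∃ C : ℝ, C = 2 * s * (2 * ((s * s + s : ℕ) : ℝ) * (1 + 2 * (L2 + 1))) := ⟨_, rfl⟩
  have hC0 : 0 ≤ C := by rw [hC]; positivity
  obtain ⟨Q1, hQ1⟩ := ev_log (2 * C / η') 1 (a := 1) one_pos
  obtain ⟨Q2, hQ2⟩ := exists_nat_ge ((s : ℝ) ^ 2 / η')
  refine ⟨Q1 + Q2 + A + 2 * s + 3, fun Q hQ M hM1 hM2 R hQR a h ha haA hh hΔ hadm S hS => ?_⟩
  have hQ3n : 3 ≤ Q := by omega
  have hQ3 : (3 : ℝ) ≤ Q := by exact_mod_cast hQ3n
  have hQ0 : (0 : ℝ) < Q := by linarith
  have hR1 : 1 ≤ R := by omega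
  have hRr : (Q : ℝ) ≤ R := by exact_mod_cast hQR
  have hR0 : (0 : ℝ) < R := by linarith
  obtain ⟨ℓ, hℓ⟩ : ∃ ℓ : ℝ, ℓ = Real.log Q := ⟨_, rfl⟩
  have hℓ1 : 1 ≤ ℓ := by
    rw [hℓ, Real.le_log_iff_exp_le hQ0]
    linarith [Real.exp_one_lt_d9]
  obtain ⟨n, hn⟩ : ∃ n : ℕ, n = (∏ i, (a i).natAbs) * (Del a h).natAbs := ⟨_, rfl⟩
  obtain ⟨X, hX⟩ : ∃ X : ℕ, X = A + M := ⟨_, rfl⟩
  have hX1 : 1 ≤ X := by omega
  have hn1 : n ≤ (2 * X ^ 2) ^ (s * s + s) := by
    rw [hn]
    apply n_le hX1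
    · intro i
      refine (haA i).trans ?_
      exact_mod_cast (by omega : A ≤ X)
    · intro i
      refine (hh i).trans ?_
      exact_mod_cast (by omega : M ≤ X)
  have hn0 : 1 ≤ n := by
    rw [hn]
    apply Nat.mul_pos
    · apply Finset.prod_pos
      intro i _
      exact Int.natAbs_pos.2 (ha i)
    · exact Int.natAbs_pos.2 hΔ
  have hX0 : (0 : ℝ) < X := by exact_mod_cast hX1
  have hlogX : Real.log X ≤ (L2 + 1) * ℓ := by
    have h1 : X ≤ Q ^ (L2 + 1) := by
      have hq : 1 ≤ Q ^ L2 := Nat.one_le_pow _ _ (by omega)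
      calc X ≤ (A + 1) * Q ^ L2 := by nlinarith
        _ ≤ Q * Q ^ L2 := Nat.mul_le_mul_right _ (by omega)
        _ = Q ^ (L2 + 1) := by ring
    have h2 : Real.log X ≤ Real.log ((Q : ℝ) ^ (L2 + 1)) := Real.log_le_log hX0 (by exact_mod_cast h1)
    rw [Real.log_pow, ← hℓ] at h2
    push_cast at h2
    exact h2
  have hlogn : (Nat.log 2 n : ℝ) ≤ 2 * ((s * s + s : ℕ) : ℝ) * (1 + 2 * (L2 + 1)) * ℓ := by
    have h1 := log2_le hn0
    have h2 : Real.log n ≤ Real.log (((2 * X ^ 2) ^ (s * s + s) : ℕ) : ℝ) :=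
      Real.log_le_log (by exact_mod_cast hn0) (by exact_mod_cast hn1)
    have h3 : Real.log (((2 * X ^ 2) ^ (s * s + s) : ℕ) : ℝ) = ((s * s + s : ℕ) : ℝ) * (Real.log 2 + 2 * Real.log X) := by
      push_cast
      rw [Real.log_pow, Real.log_mul (by norm_num) (by positivity), Real.log_pow]
      push_cast
      ring
    have h4 : Real.log 2 + 2 * Real.log X ≤ (1 + 2 * (L2 + 1)) * ℓ := by
      have : Real.log 2 ≤ 1 := by
        have := Real.log_two_lt_d9; linarith
      nlinarith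
    have h5 : ((s * s + s : ℕ) : ℝ) * (Real.log 2 + 2 * Real.log X) ≤ ((s * s + s : ℕ) : ℝ) * ((1 + 2 * (L2 + 1)) * ℓ) :=
      mul_le_mul_of_nonneg_left h4 (Nat.cast_nonneg _)
    calc (Nat.log 2 n : ℝ) ≤ 2 * Real.log n := h1
      _ ≤ 2 * (((s * s + s : ℕ) : ℝ) * ((1 + 2 * (L2 + 1)) * ℓ)) := by linarith
      _ = _ := by ring
  have hx : 2 * s * (Nat.log 2 n : ℝ) / R ≤ η' / 2 := by
    have h1 := hQ1 Q (by omega)
    rw [pow_one, Real.rpow_one, ← hℓ] at h1
    have h2 : 2 * s * (Nat.log 2 n : ℝ) ≤ C * ℓ := by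
      rw [hC]
      calc 2 * s * (Nat.log 2 n : ℝ) ≤ 2 * s * (2 * ((s * s + s : ℕ) : ℝ) * (1 + 2 * (L2 + 1)) * ℓ) := by gcongr
        _ = _ := by ring
    rw [div_le_iff₀ hR0]
    have h3 : C * ℓ ≤ η' / 2 * Q := by
      have e1 : 2 * C / η' * ℓ = (C * ℓ) * (2 / η') := by ring
      rw [e1] at h1
      have e2 : (C * ℓ) * (2 / η') * (η' / 2) = C * ℓ := by field_simp
      have e3 := mul_le_mul_of_nonneg_right h1 (by positivity : 0 ≤ η' / 2)
      linarith
    have h4 : η' / 2 * Q ≤ η' / 2 * R := by gcongr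
    linarith
  have hx0 : 0 ≤ 2 * s * (Nat.log 2 n : ℝ) / R := by positivity
  have hup : Real.exp (2 * s * Nat.log 2 n / R) ≤ 1 + η' := by
    have h1 : Real.exp (2 * s * (Nat.log 2 n : ℝ) / R) ≤ Real.exp (η' / 2) := Real.exp_le_exp.2 hx
    refine h1.trans ?_
    have h2 : Real.exp (η' / 2) ≤ (1 - η' / 2)⁻¹ := by
      have h3 := Real.add_one_le_exp (-(η' / 2))
      rw [Real.exp_neg] at h3
      have h4 : 0 < 1 - η' / 2 := by linarith
      rw [le_inv_comm₀ (Real.exp_pos _) h4]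
      linarith
    refine h2.trans ?_
    rw [inv_le_iff_one_le_mul₀ (by linarith)]
    nlinarith
  have hlo : 1 - η' ≤ 1 - (s : ℝ) ^ 2 / R := by
    have h1 : (s : ℝ) ^ 2 / R ≤ η' := by
      rw [div_le_iff₀ hR0]
      have h2 : (s : ℝ) ^ 2 / η' ≤ R := by
        refine hQ2.trans ((?_ : (Q2 : ℝ) ≤ Q).trans hRr)
        exact_mod_cast (by omega : Q2 ≤ Q)
      rw [div_le_iff₀ hη0] at h2
      linarith
    linarith
  have h1 := S_near hS (R := R) (lo := 1 - η') (up := 1 + η') (by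
    intro T hT
    constructor
    · exact hlo.trans (tail_lower hR1 (by omega) T fun p hp => ⟨(hT p hp).1, (hT p hp).2, hadm p (hT p hp).1⟩)
    · have := tail_upper ha hΔ hR1 (by omega : 2 * s ≤ R) T hT
      rw [← hn] at this
      exact this.trans hup)
  have h0 := SPR_nonneg R a h
  rw [abs_le]
  constructor <;> nlinarith [h1.1, h1.2]

/-- a convex finite set of integers is an interval -/
lemma convex_Ico {S : Finset ℤ} (hS : ∀ x ∈ S, ∀ z ∈ S, ∀ y, x ≤ y → y ≤ z → y ∈ S) : ∃ u v : ℤ, S = Ico u v := by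
  rcases S.eq_empty_or_nonempty with h | h
  · exact ⟨0, 0, by rw [h]; simp⟩
  · refine ⟨S.min' h, S.max' h + 1, ?_⟩
    ext y
    rw [mem_Ico]
    constructor
    · intro hy
      exact ⟨min'_le _ _ hy, by have := le_max' _ _ hy; omega⟩
    · rintro ⟨h1, h2⟩
      exact hS _ (min'_mem _ _) _ (max'_mem _ _) y h1 (by omega)

lemma form_convex {a h Y Z x y z : ℤ} (hx : Y ≤ a * x + h ∧ a * x + h ≤ Z) (hz : Y ≤ a * z + h ∧ a * z + h ≤ Z)
    (hxy : x ≤ y) (hyz : y ≤ z) : Y ≤ a * y + h ∧ a * y + h ≤ Z := by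
  rcases le_total 0 a with h0 | h0
  · have h1 := mul_le_mul_of_nonneg_left hxy h0
    have h2 := mul_le_mul_of_nonneg_left hyz h0
    constructor <;> linarith [hx.1, hz.2]
  · have h1 := mul_le_mul_of_nonpos_left hxy h0
    have h2 := mul_le_mul_of_nonpos_left hyz h0
    constructor <;> linarith [hx.2, hz.1]

/-- few shifts have two proportional forms -/
lemma card_Del {s : ℕ} {a : Fin s → ℤ} (ha : ∀ i, a i ≠ 0) (J : Finset ℤ) :
    ((Bx s J).filter (fun h => Del a h = 0)).card * J.card ≤ s * s * J.card ^ s := by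
  classical
  have h1 : (Bx s J).filter (fun h => Del a h = 0) ⊆
      univ.biUnion fun i => (univ.erase i).biUnion fun k => (Bx s J).filter (fun h => a k * h i - a i * h k = 0) := by
    intro h hh
    rw [mem_filter] at hh
    have h2 := hh.2
    unfold Del at h2
    rw [prod_eq_zero_iff] at h2
    obtain ⟨i, _, hi⟩ := h2
    rw [prod_eq_zero_iff] at hi
    obtain ⟨k, hk, hik⟩ := hi
    rw [mem_biUnion]
    refine ⟨i, mem_univ i, mem_biUnion.2 ⟨k, hk, mem_filter.2 ⟨hh.1, hik⟩⟩⟩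
  have h2 : ∀ i k : Fin s, k ∈ univ.erase i → ((Bx s J).filter (fun h => a k * h i - a i * h k = 0)).card * J.card ≤ J.card ^ s := by
    intro i k hk
    have hki : k ≠ i := (mem_erase.1 hk).1
    rw [← card_product]
    have h3 : (Bx s J).card = J.card ^ s := by
      unfold Bx
      rw [Fintype.card_piFinset]
      simp
    rw [← h3]
    apply card_le_card_of_injOn (fun p => Function.update p.1 i p.2)
    · intro p hp
      rw [mem_coe, mem_product, mem_filter] at hp
      rw [mem_coe]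
      unfold Bx at hp ⊢
      rw [Fintype.mem_piFinset] at hp ⊢
      intro j
      by_cases hj : j = i
      · subst hj
        simp only [Function.update_self]
        exact hp.2
      · simp only [Function.update_of_ne hj]
        exact hp.1.1 j
    · intro p hp q hq hpq
      rw [mem_coe, mem_product, mem_filter] at hp hq
      simp only at hpq
      have e1 : p.2 = q.2 := by
        have := congrFun hpq i
        simpa using this
      have e2 : ∀ j, j ≠ i → p.1 j = q.1 j := by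
        intro j hj
        have := congrFun hpq j
        simpa [Function.update_of_ne hj] using this
      have e3 : p.1 i = q.1 i := by
        have e4 := hp.1.2
        have e5 := hq.1.2
        rw [e2 k hki] at e4
        have e6 : a k * p.1 i = a k * q.1 i := by linarith
        exact mul_left_cancel₀ (ha k) e6
      apply Prod.ext _ e1
      funext j
      by_cases hj : j = i
      · rw [hj]; exact e3
      · exact e2 j hj
  calc _ ≤ (univ.biUnion fun i => (univ.erase i).biUnion fun k => (Bx s J).filter (fun h => a k * h i - a i * h k = 0)).card * J.card :=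
        Nat.mul_le_mul_right _ (card_le_card h1)
    _ ≤ (∑ i : Fin s, ∑ k ∈ univ.erase i, ((Bx s J).filter (fun h => a k * h i - a i * h k = 0)).card) * J.card := by
        apply Nat.mul_le_mul_right
        exact card_biUnion_le.trans (sum_le_sum fun i _ => card_biUnion_le)
    _ = ∑ i : Fin s, ∑ k ∈ univ.erase i, ((Bx s J).filter (fun h => a k * h i - a i * h k = 0)).card * J.card := by
        rw [sum_mul]
        exact sum_congr rfl fun i _ => by rw [sum_mul]
    _ ≤ ∑ i : Fin s, ∑ _k ∈ univ.erase i, J.card ^ s := sum_le_sum fun i _ => sum_le_sum fun k hk => h2 i k hk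
    _ ≤ ∑ _i : Fin s, s * J.card ^ s := by
        apply sum_le_sum
        intro i _
        rw [sum_const, smul_eq_mul]
        apply Nat.mul_le_mul_right
        refine (card_le_univ _).trans ?_
        simp
    _ = s * s * J.card ^ s := by
        rw [sum_const, smul_eq_mul, card_univ, Fintype.card_fin]
        ring

end Pool.Agent.Helper86.PS
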