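import Pool.Agent.Helper86.PS.H3

set_option autoImplicit false

/-!
# From sums with weights to the number of prime values
-/

open Finset Filter Topology

namespace Pool.Agent.Helper86.PS

open Pool.Agent.H807R2.Dav

/-- the number of `n` in the interval for which all forms take prime values -/
noncomputable def pc {s : ℕ} (a h : Fin s → ℤ) (u v : ℤ) : ℕ :=
  ((Ico u v).filter (fun n : ℤ => ∀ i, (a i * n + h i).toNat.Prime)).card

/-- the weighted sum -/
noncomputable def XL {s : ℕ} (a h : Fin s → ℤ) (u v : ℤ) : ℝ :=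
  ∑ n ∈ Ico u v, ∏ i, ArithmeticFunction.vonMangoldt (a i * n + h i).toNat

lemma pp_card (M : ℕ) : ((Icc 1 M).filter (fun m => IsPrimePow m ∧ ¬ m.Prime)).card ≤ (Nat.sqrt M + 1) * (Nat.log 2 M + 1) := by
  have h1 : (Icc 1 M).filter (fun m => IsPrimePow m ∧ ¬ m.Prime) ⊆
      ((range (Nat.sqrt M + 1)) ×ˢ (range (Nat.log 2 M + 1))).image (fun x => x.1 ^ x.2) := by
    intro m hm
    rw [mem_filter, mem_Icc] at hm
    obtain ⟨⟨hm1, hm2⟩, hpp, hnp⟩ := hm
    rw [isPrimePow_nat_iff] at hpp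
    obtain ⟨p, k, hp, hk, rfl⟩ := hpp
    rw [mem_image]
    refine ⟨(p, k), ?_, rfl⟩
    rw [mem_product, mem_range, mem_range]
    have hk2 : 2 ≤ k := by
      by_contra hc
      have : k = 1 := by omega
      subst this
      rw [pow_one] at hnp
      exact hnp hp
    constructor
    · simp only
      rw [Nat.lt_add_one_iff, Nat.le_sqrt]
      calc p * p = p ^ 2 := (sq p).symm
        _ ≤ p ^ k := Nat.pow_le_pow_right hp.pos hk2
        _ ≤ M := hm2
    · simp only
      rw [Nat.lt_add_one_iff]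
      apply Nat.le_log_of_pow_le (by norm_num)
      exact (Nat.pow_le_pow_left hp.two_le k).trans hm2
  refine (card_le_card h1).trans (card_image_le.trans ?_)
  rw [card_product, card_range, card_range]

lemma XL_lower {s : ℕ} {a h : Fin s → ℤ} {u v : ℤ} {Y : ℕ} (hY : 1 ≤ Y)
    (hr : ∀ n ∈ Ico u v, ∀ i, (Y : ℤ) ≤ a i * n + h i) : (Real.log Y) ^ s * (pc a h u v : ℝ) ≤ XL a h u v := by
  unfold pc XL
  have h1 : ∑ n ∈ (Ico u v).filter (fun n : ℤ => ∀ i, (a i * n + h i).toNat.Prime), (Real.log Y) ^ s ≤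
      ∑ n ∈ Ico u v, ∏ i, (ArithmeticFunction.vonMangoldt (a i * n + h i).toNat : ℝ) := by
    refine le_trans (sum_le_sum (g := fun n => ∏ i, (ArithmeticFunction.vonMangoldt (a i * n + h i).toNat : ℝ)) ?_) ?_
    · intro n hn
      rw [mem_filter] at hn
      have h2 : (Real.log Y) ^ s = ∏ _i : Fin s, Real.log Y := by simp
      rw [h2]
      apply Finset.prod_le_prod
      · intro i _
        exact Real.log_natCast_nonneg _
      · intro i _
        rw [ArithmeticFunction.vonMangoldt_apply_prime (hn.2 i)]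
        apply Real.log_le_log (by exact_mod_cast hY)
        have h3 := hr n hn.1 i
        have h4 : Y ≤ (a i * n + h i).toNat := by omega
        exact_mod_cast h4
    · apply sum_le_sum_of_subset_of_nonneg (filter_subset _ _)
      intro n _ _
      exact Finset.prod_nonneg fun i _ => ArithmeticFunction.vonMangoldt_nonneg
  rw [sum_const, nsmul_eq_mul] at h1
  linarith

lemma XL_upper {s : ℕ} {a h : Fin s → ℤ} (ha : ∀ i, a i ≠ 0) {u v : ℤ} {M : ℕ}
    (hr : ∀ n ∈ Ico u v, ∀ i, 1 ≤ a i * n + h i ∧ a i * n + h i ≤ M) :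
    XL a h u v ≤ (Real.log M) ^ s * ((pc a h u v : ℝ) + s * ((Nat.sqrt M + 1) * (Nat.log 2 M + 1) : ℕ)) := by
  have hcard : ((Ico u v).filter (fun n : ℤ => ∀ i, IsPrimePow (a i * n + h i).toNat)).card ≤
      pc a h u v + s * ((Nat.sqrt M + 1) * (Nat.log 2 M + 1)) := by
    have h1 : (Ico u v).filter (fun n : ℤ => ∀ i, IsPrimePow (a i * n + h i).toNat) ⊆
        (Ico u v).filter (fun n : ℤ => ∀ i, (a i * n + h i).toNat.Prime) ∪
        univ.biUnion fun i => (Ico u v).filter (fun n : ℤ => IsPrimePow (a i * n + h i).toNat ∧ ¬ (a i * n + h i).toNat.Prime) := by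
      intro n hn
      rw [mem_filter] at hn
      by_cases hc : ∀ i, (a i * n + h i).toNat.Prime
      · exact mem_union_left _ (mem_filter.2 ⟨hn.1, hc⟩)
      · push Not at hc
        obtain ⟨i, hi⟩ := hc
        exact mem_union_right _ (mem_biUnion.2 ⟨i, mem_univ i, mem_filter.2 ⟨hn.1, hn.2 i, hi⟩⟩)
    have h2 : ∀ i : Fin s, ((Ico u v).filter (fun n : ℤ => IsPrimePow (a i * n + h i).toNat ∧ ¬ (a i * n + h i).toNat.Prime)).card ≤
        (Nat.sqrt M + 1) * (Nat.log 2 M + 1) := by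
      intro i
      refine le_trans ?_ (pp_card M)
      apply card_le_card_of_injOn (fun n : ℤ => (a i * n + h i).toNat)
      · intro n hn
        rw [mem_coe, mem_filter] at hn
        rw [mem_coe, mem_filter, mem_Icc]
        have h3 := hr n hn.1 i
        refine ⟨⟨?_, ?_⟩, hn.2⟩ <;> simp only <;> omega
      · intro x hx y hy hxy
        rw [mem_coe, mem_filter] at hx hy
        simp only at hxy
        have h3 := hr x hx.1 i
        have h4 := hr y hy.1 i
        have h5 : a i * x = a i * y := by omega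
        exact mul_left_cancel₀ (ha i) h5
    refine (card_le_card h1).trans ((card_union_le _ _).trans ?_)
    apply Nat.add_le_add_left
    refine card_biUnion_le.trans ((sum_le_sum fun i _ => h2 i).trans ?_)
    simp
  have hsum : XL a h u v ≤ ∑ n ∈ (Ico u v).filter (fun n : ℤ => ∀ i, IsPrimePow (a i * n + h i).toNat), (Real.log M) ^ s := by
    unfold XL
    rw [← sum_filter_add_sum_filter_not (Ico u v) (fun n : ℤ => ∀ i, IsPrimePow (a i * n + h i).toNat)]
    have h1 : ∑ n ∈ (Ico u v).filter (fun n : ℤ => ¬ ∀ i, IsPrimePow (a i * n + h i).toNat),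
        ∏ i, (ArithmeticFunction.vonMangoldt (a i * n + h i).toNat : ℝ) = 0 := by
      apply sum_eq_zero
      intro n hn
      rw [mem_filter] at hn
      have h2 := hn.2
      push Not at h2
      obtain ⟨i, hi⟩ := h2
      apply Finset.prod_eq_zero (mem_univ i)
      rw [ArithmeticFunction.vonMangoldt_eq_zero_iff]
      exact hi
    rw [h1, add_zero]
    apply sum_le_sum
    intro n hn
    rw [mem_filter] at hn
    have h2 : (Real.log M) ^ s = ∏ _i : Fin s, Real.log M := by simp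
    rw [h2]
    apply Finset.prod_le_prod
    · intro i _
      exact ArithmeticFunction.vonMangoldt_nonneg
    · intro i _
      refine ArithmeticFunction.vonMangoldt_le_log.trans ?_
      have h3 := hr n hn.1 i
      have h4 : 1 ≤ (a i * n + h i).toNat := by omega
      have h5 : (a i * n + h i).toNat ≤ M := by omega
      apply Real.log_le_log
      · exact_mod_cast h4
      · exact_mod_cast h5
  refine hsum.trans ?_
  rw [sum_const, nsmul_eq_mul, mul_comm]
  apply mul_le_mul_of_nonneg_left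
  · exact_mod_cast hcard
  · exact pow_nonneg (Real.log_natCast_nonneg _) _

/-- from the weighted sum to the number of primes -/
lemma final_ineq {P P' T W X Sg S κ lN lY lM pp : ℝ} {s : ℕ} (hκ0 : 0 ≤ κ) (hκ : κ ≤ 1 / 10)
    (hlN : 0 < lN) (hlY : 0 < lY) (hlM : 0 < lM) (hSg : 0 ≤ Sg) (hW : 0 ≤ W)
    (h1 : lY ^ s * P' ≤ X) (h1' : X ≤ lM ^ s * (P' + pp)) (h2 : |X - Sg * T| ≤ κ * (Sg * W))
    (h3 : W * (1 - κ) ≤ T) (h3' : T ≤ W) (h4 : P' ≤ P) (h4' : P ≤ P' + κ * (Sg * (W / lN ^ s)))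
    (h5 : pp ≤ κ * (Sg * (W / lN ^ s))) (h6 : lN ^ s ≤ (1 + κ) * lY ^ s) (h6' : lM ^ s ≤ (1 + κ) * lN ^ s)
    (h7 : |S - Sg| ≤ κ * Sg) (hX0 : 0 ≤ X) : |P - S * (W / lN ^ s)| ≤ 10 * κ * (S * (W / lN ^ s)) := by
  have hlNs : 0 < lN ^ s := by positivity
  have hlYs : 0 < lY ^ s := by positivity
  have hlMs : 0 < lM ^ s := by positivity
  obtain ⟨w, hw⟩ : ∃ w : ℝ, w = W / lN ^ s := ⟨_, rfl⟩
  have hw0 : 0 ≤ w := by rw [hw]; positivity
  have hWw : W = w * lN ^ s := by rw [hw]; field_simp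
  rw [← hw] at h4' h5 ⊢
  have hSW : 0 ≤ Sg * W := mul_nonneg hSg hW
  have hSw : 0 ≤ Sg * w := mul_nonneg hSg hw0
  rw [abs_le] at h2 h7
  have hSgT : Sg * T ≤ Sg * W := mul_le_mul_of_nonneg_left h3' hSg
  have hSgT' : Sg * (W * (1 - κ)) ≤ Sg * T := mul_le_mul_of_nonneg_left h3 hSg
  -- upper bound
  have hXup : X ≤ (1 + κ) * (Sg * W) := by linarith [h2.2]
  have hXlo : (1 - 2 * κ) * (Sg * W) ≤ X := by linarith [h2.1]
  have hP'up : P' ≤ (1 + κ) * ((1 + κ) * (Sg * w)) := by
    have e1 : P' ≤ X / lY ^ s := by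
      rw [le_div_iff₀ hlYs]; linarith
    have e2 : X / lY ^ s ≤ (1 + κ) * (X / lN ^ s) := by
      rw [div_le_iff₀ hlYs]
      have : (1 + κ) * (X / lN ^ s) * lY ^ s = (X / lN ^ s) * ((1 + κ) * lY ^ s) := by ring
      rw [this]
      calc X = (X / lN ^ s) * lN ^ s := by field_simp
        _ ≤ _ := mul_le_mul_of_nonneg_left h6 (by positivity)
    have e3 : X / lN ^ s ≤ (1 + κ) * (Sg * w) := by
      rw [div_le_iff₀ hlNs]
      calc X ≤ (1 + κ) * (Sg * W) := hXup
        _ = _ := by rw [hWw]; ring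
    calc P' ≤ (1 + κ) * (X / lN ^ s) := e1.trans e2
      _ ≤ _ := mul_le_mul_of_nonneg_left e3 (by linarith)
  have hPup : P ≤ (1 + 4 * κ) * (Sg * w) := by
    have : (1 + κ) * ((1 + κ) * (Sg * w)) + κ * (Sg * w) = (1 + 3 * κ + κ ^ 2) * (Sg * w) := by ring
    have h8 : (1 + 3 * κ + κ ^ 2) * (Sg * w) ≤ (1 + 4 * κ) * (Sg * w) := by
      apply mul_le_mul_of_nonneg_right _ hSw
      nlinarith
    linarith
  have hP'lo : (1 - 4 * κ) * (Sg * w) ≤ P' := by
    have e1 : X / lM ^ s - pp ≤ P' := by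
      have : X / lM ^ s ≤ P' + pp := by
        rw [div_le_iff₀ hlMs]; linarith
      linarith
    have e2 : (1 - κ) * (X / lN ^ s) ≤ X / lM ^ s := by
      rw [le_div_iff₀ hlMs]
      have e3 : 0 ≤ X / lN ^ s := by positivity
      calc (1 - κ) * (X / lN ^ s) * lM ^ s ≤ (1 - κ) * (X / lN ^ s) * ((1 + κ) * lN ^ s) :=
            mul_le_mul_of_nonneg_left h6' (mul_nonneg (by linarith) e3)
        _ = (1 - κ ^ 2) * X := by field_simp; ring
        _ ≤ 1 * X := mul_le_mul_of_nonneg_right (by nlinarith) hX0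
        _ = X := one_mul X
    have e3 : (1 - 2 * κ) * (Sg * w) ≤ X / lN ^ s := by
      rw [le_div_iff₀ hlNs]
      calc (1 - 2 * κ) * (Sg * w) * lN ^ s = (1 - 2 * κ) * (Sg * W) := by rw [hWw]; ring
        _ ≤ X := hXlo
    have e4 : (1 - κ) * ((1 - 2 * κ) * (Sg * w)) ≤ (1 - κ) * (X / lN ^ s) := mul_le_mul_of_nonneg_left e3 (by linarith)
    have e5 : (1 - 4 * κ) * (Sg * w) ≤ (1 - κ) * ((1 - 2 * κ) * (Sg * w)) - κ * (Sg * w) := by
      have : (1 - κ) * ((1 - 2 * κ) * (Sg * w)) - κ * (Sg * w) = (1 - 4 * κ + 2 * κ ^ 2) * (Sg * w) := by ring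
      rw [this]
      apply mul_le_mul_of_nonneg_right _ hSw
      nlinarith
    linarith
  have hSw' : Sg * w ≤ 2 * (S * w) := by
    have e1 : (1 - κ) * Sg ≤ S := by linarith [h7.1]
    have e2 : (1 - κ) * Sg * w ≤ S * w := mul_le_mul_of_nonneg_right e1 hw0
    nlinarith
  have hd : |S * w - Sg * w| ≤ κ * (Sg * w) := by
    rw [← sub_mul, abs_mul, abs_of_nonneg hw0]
    have e1 : |S - Sg| ≤ κ * Sg := abs_le.2 h7
    calc |S - Sg| * w ≤ κ * Sg * w := mul_le_mul_of_nonneg_right e1 hw0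
      _ = _ := by ring
  rw [abs_le] at hd
  have h9 : 5 * κ * (Sg * w) ≤ 10 * κ * (S * w) := by
    have := mul_le_mul_of_nonneg_left hSw' (by linarith : 0 ≤ 5 * κ)
    linarith
  rw [abs_le]
  constructor <;> linarith [hd.1, hd.2]

end Pool.Agent.Helper86.PS
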