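import Pool.Agent.Helper86.PS.H4

set_option autoImplicit false

/-!
# The number of prime values on one interval, for one good vector of shifts
-/

open Finset Filter Topology

namespace Pool.Agent.Helper86.PS

open Pool.Agent.H807R2.Dav

lemma pow_ratio {x y r κ : ℝ} {s : ℕ} (hy : 0 ≤ y) (hr : r ≤ 1) (hsr : s * r ≤ κ / 4) (hκ0 : 0 ≤ κ)
    (hκ : κ ≤ 1 / 10) (hx : (1 - r) * y ≤ x) : y ^ s ≤ (1 + κ) * x ^ s := by
  have h1 : ((1 - r) * y) ^ s ≤ x ^ s := pow_le_pow_left₀ (mul_nonneg (by linarith) hy) hx s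
  have h2 : 1 - s * r ≤ (1 - r) ^ s := by
    have := one_add_mul_le_pow (a := -r) (by linarith) s
    have e : 1 + (s : ℝ) * -r = 1 - s * r := by ring
    have e' : 1 + -r = 1 - r := by ring
    rwa [e, e'] at this
  rw [mul_pow] at h1
  have h3 : (1 - κ / 4) * y ^ s ≤ (1 - r) ^ s * y ^ s := mul_le_mul_of_nonneg_right (by linarith) (pow_nonneg hy s)
  have h4 : y ^ s ≤ (1 + κ) * ((1 - κ / 4) * y ^ s) := by
    have : (1 : ℝ) ≤ (1 + κ) * (1 - κ / 4) := by nlinarith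
    calc y ^ s = 1 * y ^ s := (one_mul _).symm
      _ ≤ (1 + κ) * (1 - κ / 4) * y ^ s := mul_le_mul_of_nonneg_right this (pow_nonneg hy s)
      _ = _ := by ring
  exact h4.trans (mul_le_mul_of_nonneg_left (h3.trans h1) (by linarith))

/-- the difference of the weighted sum and its model over an interval -/
noncomputable def DI {s : ℕ} (Q M : ℕ) (a h : Fin s → ℤ) (u v : ℤ) : ℂ :=
  ∑ n ∈ Ico u v, (∏ i, cL Q M (a i * n + h i) - ∏ i, cB Q (cR s) M (a i * n + h i))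

lemma exists_sub {s : ℕ} {Q M : ℕ} (hY : 0 < M / Q ^ 3) (a h : Fin s → ℤ) (x y : ℤ) : ∃ u' v' : ℤ,
    (∀ n, n ∈ Ico u' v' ↔ n ∈ Ico x y ∧
      ∀ i, ((M / Q ^ 3 : ℕ) : ℤ) ≤ a i * n + h i ∧ a i * n + h i ≤ (M : ℤ) - (M / Q ^ 4 : ℕ)) ∧
    DI Q M a h x y = (XL a h u' v' : ℂ) - ∑ n ∈ Ico u' v', ∏ i, cB Q (cR s) M (a i * n + h i) := by
  obtain ⟨u', v', h1⟩ := convex_Ico (S := (Ico x y).filter (fun n : ℤ =>
      ∀ i, ((M / Q ^ 3 : ℕ) : ℤ) ≤ a i * n + h i ∧ a i * n + h i ≤ (M : ℤ) - (M / Q ^ 4 : ℕ))) (by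
    intro n1 hn1 n2 hn2 m hm1 hm2
    rw [mem_filter, mem_Ico] at hn1 hn2 ⊢
    exact ⟨⟨hn1.1.1.trans hm1, lt_of_le_of_lt hm2 hn2.1.2⟩, fun i => form_convex (hn1.2 i) (hn2.2 i) hm1 hm2⟩)
  refine ⟨u', v', fun n => by rw [← h1, mem_filter], ?_⟩
  have h2 : DI Q M a h x y = ∑ n ∈ (Ico x y).filter (fun n : ℤ =>
      ∀ i, ((M / Q ^ 3 : ℕ) : ℤ) ≤ a i * n + h i ∧ a i * n + h i ≤ (M : ℤ) - (M / Q ^ 4 : ℕ)),
      (∏ i, cL Q M (a i * n + h i) - ∏ i, cB Q (cR s) M (a i * n + h i)) := by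
    unfold DI
    symm
    apply sum_subset (filter_subset _ _)
    intro n hn hn'
    rw [mem_filter] at hn'
    have h3 : ∃ i, ¬ (((M / Q ^ 3 : ℕ) : ℤ) ≤ a i * n + h i ∧ a i * n + h i ≤ (M : ℤ) - (M / Q ^ 4 : ℕ)) := by
      by_contra hc
      push Not at hc
      exact hn' ⟨hn, fun i => ⟨(hc i).1, (hc i).2⟩⟩
    obtain ⟨i, hi⟩ := h3
    rw [Finset.prod_eq_zero (mem_univ i) (by unfold cL cut; rw [if_neg hi]),
      Finset.prod_eq_zero (mem_univ i) (by unfold cB cut; rw [if_neg hi]), sub_zero]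
  rw [h2, h1, sum_sub_distrib]
  congr 1
  unfold XL
  rw [Complex.ofReal_sum]
  apply sum_congr rfl
  intro n hn
  rw [← h1, mem_filter] at hn
  rw [Complex.ofReal_prod]
  apply prod_congr rfl
  intro i _
  have h3 := hn.2 i
  have q1 : (1 : ℤ) ≤ ((M / Q ^ 3 : ℕ) : ℤ) := by exact_mod_cast hY
  have q0 : (0 : ℤ) ≤ ((M / Q ^ 4 : ℕ) : ℤ) := Int.natCast_nonneg _
  unfold cL cut Lam
  rw [if_pos h3, if_pos]
  rw [mem_Icc]
  constructor <;> linarith [h3.1, h3.2]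

lemma lost_card {s : ℕ} {a h : Fin s → ℤ} (ha : ∀ i, a i ≠ 0) {u v x y : ℤ} {G Y : ℕ} {Z : ℤ}
    (hx2 : x ≤ u + G) (hy2 : v ≤ y + G) {u' v' : ℤ}
    (hI : ∀ n, n ∈ Ico u' v' ↔ n ∈ Ico x y ∧ ∀ i, (Y : ℤ) ≤ a i * n + h i ∧ a i * n + h i ≤ Z)
    (hr : ∀ n ∈ Ico u v, ∀ i, 1 ≤ a i * n + h i ∧ a i * n + h i ≤ Z) : (Ico u v \ Ico u' v').card ≤ 2 * G + s * Y := by
  have h1 : Ico u v \ Ico u' v' ⊆ (Ico u (u + G) ∪ Ico (v - G) v) ∪
      univ.biUnion fun i => (Ico u v).filter (fun n : ℤ => a i * n + h i < Y) := by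
    intro n hn
    rw [Finset.mem_sdiff] at hn
    obtain ⟨hn1, hn2⟩ := hn
    rw [hI n] at hn2
    by_cases hc : n ∈ Ico x y
    · have h3 : ∃ i, ¬ ((Y : ℤ) ≤ a i * n + h i ∧ a i * n + h i ≤ Z) := by
        by_contra hc'
        push Not at hc'
        exact hn2 ⟨hc, fun i => ⟨(hc' i).1, (hc' i).2⟩⟩
      obtain ⟨i, hi⟩ := h3
      apply mem_union_right
      rw [mem_biUnion]
      refine ⟨i, mem_univ i, mem_filter.2 ⟨hn1, ?_⟩⟩
      by_contra hc'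
      exact hi ⟨by omega, (hr n hn1 i).2⟩
    · apply mem_union_left
      rw [mem_Ico] at hc hn1
      rw [mem_union, mem_Ico, mem_Ico]
      omega
  have h2 : ∀ i : Fin s, ((Ico u v).filter (fun n : ℤ => a i * n + h i < Y)).card ≤ Y := by
    intro i
    have h3 : ((Ico u v).filter (fun n : ℤ => a i * n + h i < Y)).card ≤ (Icc (1 : ℤ) Y).card := by
      apply card_le_card_of_injOn (fun n : ℤ => a i * n + h i)
      · intro n hn
        rw [mem_coe, mem_filter] at hn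
        rw [mem_coe, mem_Icc]
        exact ⟨(hr n hn.1 i).1, hn.2.le⟩
      · intro p _ r _ hpr
        simp only at hpr
        have : a i * p = a i * r := by linarith
        exact mul_left_cancel₀ (ha i) this
    rwa [Int.card_Icc, show ((Y : ℤ) + 1 - 1).toNat = Y by simp] at h3
  refine (card_le_card h1).trans ((card_union_le _ _).trans ?_)
  have h3 : (Ico u (u + G) ∪ Ico (v - G) v).card ≤ 2 * G := by
    refine (card_union_le _ _).trans ?_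
    rw [Int.card_Ico, Int.card_Ico]
    omega
  have h4 : (univ.biUnion fun i => (Ico u v).filter (fun n : ℤ => a i * n + h i < Y)).card ≤ s * Y := by
    refine card_biUnion_le.trans ((sum_le_sum fun i _ => h2 i).trans ?_)
    simp
  omega

lemma pc_mono {s : ℕ} (a h : Fin s → ℤ) {u v u' v' : ℤ} (hsub : Ico u' v' ⊆ Ico u v) : pc a h u' v' ≤ pc a h u v := by
  unfold pc
  exact card_le_card (filter_subset_filter _ hsub)

lemma pc_lost {s : ℕ} (a h : Fin s → ℤ) (u v u' v' : ℤ) :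
    pc a h u v ≤ pc a h u' v' + (Ico u v \ Ico u' v').card := by
  unfold pc
  rw [← card_union_of_disjoint]
  · apply card_le_card
    intro n hn
    rw [mem_filter] at hn
    by_cases hc : n ∈ Ico u' v'
    · exact mem_union_left _ (mem_filter.2 ⟨hc, hn.2⟩)
    · exact mem_union_right _ (Finset.mem_sdiff.2 ⟨hn.1, hc⟩)
  · rw [disjoint_left]
    intro n hn hn'
    rw [mem_filter] at hn
    exact (Finset.mem_sdiff.1 hn').2 hn.1

/-- the ends of the inner interval -/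
lemma inner_ends {G : ℕ} (hG : 0 < G) (u v : ℤ) : ∃ k1 k2 : ℤ, u ≤ k1 * G ∧ k1 * G ≤ u + G ∧ k2 * G ≤ v ∧ v ≤ k2 * G + G := by
  have hG0 : (0 : ℤ) < G := by exact_mod_cast hG
  refine ⟨-((-u) / G), v / G, ?_⟩
  have h1 := Int.emod_add_mul_ediv (-u) G
  have h2 := Int.emod_nonneg (-u) hG0.ne'
  have h3 := Int.emod_lt_of_pos (-u) hG0
  have h4 := Int.emod_add_mul_ediv v G
  have h5 := Int.emod_nonneg v hG0.ne'
  have h6 := Int.emod_lt_of_pos v hG0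
  have e1 : -((-u) / (G : ℤ)) * G = -((G : ℤ) * (-u / G)) := by ring
  have e2 : v / (G : ℤ) * G = (G : ℤ) * (v / G) := by ring
  rw [e1, e2]
  refine ⟨by linarith, by linarith, by linarith, by linarith⟩

/-- the smallness of all the error terms -/
lemma key_num {κ c0 cs ℓ q W lN c Cb : ℝ} {s : ℕ} {L : ℝ} (hκ : 0 < κ) (hcs : 0 < cs) (hℓ : 1 ≤ ℓ) (hq : 1 ≤ q)
    (hW : 0 ≤ W) (hlN : 0 < lN) (hlN2 : lN ≤ L * ℓ) (hc0 : 0 ≤ c0) (hCb : Cb = c0 * L ^ s / (κ * cs))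
    (hstar : Cb * ℓ ^ (s + 1) ≤ q) (hc : c ≤ c0) : c * ℓ * (W / q ^ 3) ≤ κ * (cs * (W / lN ^ s)) := by
  have hq3 : 0 < q ^ 3 := by positivity
  have hlNs : 0 < lN ^ s := by positivity
  have h1 : c0 * L ^ s * ℓ ^ (s + 1) ≤ κ * cs * q := by
    have h2 : Cb * ℓ ^ (s + 1) * (κ * cs) ≤ q * (κ * cs) := mul_le_mul_of_nonneg_right hstar (by positivity)
    have h3 : Cb * ℓ ^ (s + 1) * (κ * cs) = c0 * L ^ s * ℓ ^ (s + 1) := by
      rw [hCb]; field_simp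
    linarith
  have h2 : lN ^ s ≤ L ^ s * ℓ ^ s := by
    rw [← mul_pow]
    exact pow_le_pow_left₀ hlN.le hlN2 s
  have h3 : q ≤ q ^ 3 := le_self_pow₀ hq (by norm_num)
  have h4 : c * ℓ * lN ^ s ≤ κ * cs * q ^ 3 := by
    calc c * ℓ * lN ^ s ≤ c0 * ℓ * (L ^ s * ℓ ^ s) := by
          apply mul_le_mul _ h2 hlNs.le (by positivity)
          exact mul_le_mul_of_nonneg_right hc (by linarith)
      _ = c0 * L ^ s * ℓ ^ (s + 1) := by ring
      _ ≤ κ * cs * q := h1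
      _ ≤ κ * cs * q ^ 3 := mul_le_mul_of_nonneg_left h3 (by positivity)
  have e1 : c * ℓ * (W / q ^ 3) = (c * ℓ) * W / q ^ 3 := by ring
  have e2 : κ * (cs * (W / lN ^ s)) = κ * cs * W / lN ^ s := by ring
  rw [e1, e2, div_le_div_iff₀ hq3 hlNs]
  calc c * ℓ * W * lN ^ s = (c * ℓ * lN ^ s) * W := by ring
    _ ≤ (κ * cs * q ^ 3) * W := mul_le_mul_of_nonneg_right h4 hW
    _ = κ * cs * W * q ^ 3 := by ring

end Pool.Agent.Helper86.PS
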