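import Pool.Agent.Helper86.PS.H6

set_option autoImplicit false

/-!
# The exceptional shifts
-/

open Finset Filter Topology

namespace Pool.Agent.Helper86.PS

open Pool.Agent.H807R2.Dav

/-- the range of the shifts -/
noncomputable def bJ (A N : ℕ) : Finset ℤ := Icc (-(2 * A * N : ℤ)) (2 * A * N)

/-- the indices of the cells -/
noncomputable def kJ (Q : ℕ) : Finset ℤ := Icc (-(2 * KK Q : ℤ)) (2 * KK Q)

open _root_.Classical in
/-- the exceptional shifts -/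
noncomputable def EX {s : ℕ} (Q N A : ℕ) (a : Fin s → ℤ) : Finset (Fin s → ℤ) :=
  (Bx s (bJ A N)).filter (fun h => Del a h = 0 ∨ ∃ k ∈ kJ Q ×ˢ kJ Q,
    (N : ℝ) / qq Q ^ 4 < ‖DI Q ((4 * A + 1) * N) a h (k.1 * cellG Q N) (k.2 * cellG Q N)‖)

lemma card_bJ (A N : ℕ) : (bJ A N).card = 4 * A * N + 1 := by
  unfold bJ
  rw [Int.card_Icc]
  have : (2 * A * N : ℤ) + 1 - -(2 * A * N : ℤ) = ((4 * A * N + 1 : ℕ) : ℤ) := by push_cast; ring
  rw [this, Int.toNat_natCast]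

lemma card_kJ (Q : ℕ) : (kJ Q).card = 4 * KK Q + 1 := by
  unfold kJ
  rw [Int.card_Icc]
  have : (2 * KK Q : ℤ) + 1 - -(2 * KK Q : ℤ) = ((4 * KK Q + 1 : ℕ) : ℤ) := by push_cast; ring
  rw [this, Int.toNat_natCast]

open _root_.Classical in
lemma markov {α : Type} (S : Finset α) (f : α → ℝ) {l : ℝ} (hl : 0 ≤ l) :
    ((S.filter (fun x => l < f x)).card : ℝ) * l ^ 2 ≤ ∑ x ∈ S, f x ^ 2 := by
  have h1 : ∑ x ∈ S.filter (fun x => l < f x), l ^ 2 ≤ ∑ x ∈ S, f x ^ 2 := by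
    refine le_trans (sum_le_sum (g := fun x => f x ^ 2) ?_) ?_
    · intro x hx
      rw [mem_filter] at hx
      exact pow_le_pow_left₀ hl hx.2.le 2
    · apply sum_le_sum_of_subset_of_nonneg (filter_subset _ _)
      intro x _ _
      positivity
  rw [sum_const, nsmul_eq_mul] at h1
  exact h1

lemma count_step {j cnt lam N q A Ic Mr : ℝ} {s : ℕ} (hq : 1 ≤ q) (hN : 1 ≤ N) (hA : 1 ≤ A) (hjN : N ≤ j) (hj : j ≤ 5 * A * N)
    (hM : Mr ≤ 5 * A * N) (hM0 : 0 ≤ Mr) (hI : Ic ≤ 8 * N) (hI0 : 0 ≤ Ic) (hcnt : 0 ≤ cnt) (hlam : lam = N / q ^ 4)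
    (h : j * (cnt * lam ^ 2) ≤ j ^ s * Ic * (Mr ^ 2 * (1 / q ^ 24))) :
    cnt ≤ (5 * A) ^ s * 200 * A ^ 2 * (N ^ s / q ^ 16) := by
  have hq0 : 0 < q := by linarith
  have hN0 : 0 < N := by linarith
  have h1 : N * (cnt * lam ^ 2) ≤ j * (cnt * lam ^ 2) := mul_le_mul_of_nonneg_right hjN (by positivity)
  have h2 : j ^ s * Ic * (Mr ^ 2 * (1 / q ^ 24)) ≤ (5 * A * N) ^ s * (8 * N) * ((5 * A * N) ^ 2 * (1 / q ^ 24)) := by
    have e1 : j ^ s ≤ (5 * A * N) ^ s := pow_le_pow_left₀ (by linarith) hj s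
    have e2 : Mr ^ 2 ≤ (5 * A * N) ^ 2 := pow_le_pow_left₀ hM0 hM 2
    gcongr
  have h3 := h1.trans (h.trans h2)
  rw [hlam] at h3
  have h4 : N * (cnt * (N / q ^ 4) ^ 2) = cnt * (N ^ 3 / q ^ 8) := by field_simp
  have h5 : (5 * A * N) ^ s * (8 * N) * ((5 * A * N) ^ 2 * (1 / q ^ 24)) =
      ((5 * A) ^ s * 200 * A ^ 2 * (N ^ s / q ^ 16)) * (N ^ 3 / q ^ 8) := by
    rw [mul_pow (5 * A) N s]
    field_simp
    ring
  rw [h4, h5] at h3
  exact le_of_mul_le_mul_right h3 (by positivity)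

theorem card_EX (s : ℕ) (hs : 1 ≤ s) (A : ℕ) (hA : 1 ≤ A) (L1 L2 : ℕ) (hL1 : lE s ≤ L1) : ∃ Q0 : ℕ, ∀ Q : ℕ, Q0 ≤ Q →
    ∀ N : ℕ, Q ^ L1 ≤ N → N ≤ Q ^ L2 → ∀ B : PC → ℝ, HW Q ((4 * A + 1) * N) B → ∑ j ∈ fam Q, B j ≤ 1 →
    ∀ a : Fin s → ℤ, (∀ i, a i ≠ 0) →
    ((EX Q N A a).card : ℝ) ≤ (5 * (A : ℝ)) ^ s * (5000 * (A : ℝ) ^ 2 + (s : ℝ) ^ 2) * ((N : ℝ) ^ s / qq Q ^ 8) := by
  have hsr : (1 : ℝ) ≤ s := by exact_mod_cast hs
  have hAr : (1 : ℝ) ≤ A := by exact_mod_cast hA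
  obtain ⟨Q1, hQ1⟩ := l2_main s hs (cR s) (L2 + 1) (by
    unfold cR
    have : 0 < 2 * s * (s * (s + 1) + 2) := by positivity
    omega)
  refine ⟨Q1 + 4 * A + 2 ^ 64 + 3, fun Q hQ N hN1 hN2 B hw hBs a ha => ?_⟩
  have hQ1' : 1 ≤ Q := by omega
  have hQr : (1 : ℝ) ≤ Q := by exact_mod_cast hQ1'
  obtain ⟨q, hq⟩ : ∃ q : ℝ, q = qq Q := ⟨_, rfl⟩
  have hq1 : 1 ≤ q := by rw [hq]; exact qq_ge hQ1'
  have hq2 : 2 ≤ q := by
    rw [hq]
    unfold qq
    have h1 : ((2 : ℝ) ^ 64) ^ (1 / 64 : ℝ) = 2 := by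
      rw [← Real.rpow_natCast, ← Real.rpow_mul (by norm_num)]
      norm_num
    rw [← h1]
    apply Real.rpow_le_rpow (by positivity) _ (by norm_num)
    have : 2 ^ 64 ≤ Q := by omega
    exact_mod_cast this
  have hq0 : 0 < q := by linarith
  have h40 : 40 ≤ lE s := by unfold lE; omega
  have hQN : ∀ n : ℕ, n ≤ L1 → Q ^ n ≤ N := fun n hn => (Nat.pow_le_pow_right (by omega) hn).trans hN1
  have hQN1 : Q ≤ N := by simpa using hQN 1 (by omega)
  have hQNr : (Q : ℝ) ≤ N := by exact_mod_cast hQN1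
  have hN1' : (1 : ℝ) ≤ N := by linarith
  have hN0 : (0 : ℝ) < N := by linarith
  obtain ⟨M, hM⟩ : ∃ M : ℕ, M = (4 * A + 1) * N := ⟨_, rfl⟩
  have hNM : N ≤ M := by rw [hM]; nlinarith [Nat.zero_le A]
  have hMQ : M ≤ Q ^ (L2 + 1) := by
    calc M ≤ Q * N := by rw [hM]; exact Nat.mul_le_mul_right _ (by omega)
      _ ≤ Q * Q ^ L2 := Nat.mul_le_mul_left _ hN2
      _ = Q ^ (L2 + 1) := by ring
  have hMr : (M : ℝ) ≤ 5 * A * N := by
    rw [hM]; push_cast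
    nlinarith
  rw [← hM] at hw
  obtain ⟨j, hj⟩ : ∃ j : ℝ, j = ((bJ A N).card : ℝ) := ⟨_, rfl⟩
  have hjv : j = 4 * A * N + 1 := by rw [hj, card_bJ]; push_cast; ring
  have hAN : (N : ℝ) ≤ A * N := by nlinarith
  have hjN : (N : ℝ) ≤ j := by rw [hjv]; nlinarith
  have hj5 : j ≤ 5 * A * N := by rw [hjv]; linarith
  -- one interval
  have hone : ∀ k ∈ kJ Q ×ˢ kJ Q, (((Bx s (bJ A N)).filter (fun h =>
      (N : ℝ) / qq Q ^ 4 < ‖DI Q M a h (k.1 * cellG Q N) (k.2 * cellG Q N)‖)).card : ℝ) ≤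
        (5 * (A : ℝ)) ^ s * 200 * (A : ℝ) ^ 2 * ((N : ℝ) ^ s / q ^ 16) := by
    intro k hk
    have hl2 := hQ1 Q (by omega) M ((Nat.pow_le_pow_right (by omega) (by unfold lE at hL1; omega)).trans (hN1.trans hNM)) hMQ B hw hBs a ha
      (Ico (k.1 * cellG Q N) (k.2 * cellG Q N)) (bJ A N)
    have hmk := markov (Bx s (bJ A N)) (fun h => ‖DI Q M a h (k.1 * cellG Q N) (k.2 * cellG Q N)‖)
      (l := (N : ℝ) / qq Q ^ 4) (by
        rw [← hq]; positivity)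
    have hrp : (Q : ℝ) ^ (-(3 / 8) : ℝ) = 1 / q ^ 24 := by
      have h1 : q ^ 24 = (Q : ℝ) ^ (3 / 8 : ℝ) := by
        rw [hq]
        unfold qq
        rw [← Real.rpow_natCast, ← Real.rpow_mul (by linarith)]
        norm_num
      rw [h1, Real.rpow_neg (by linarith), one_div]
    rw [hrp, ← hj] at hl2
    refine count_step (j := j) (lam := (N : ℝ) / qq Q ^ 4) (Ic := ((Ico (k.1 * (cellG Q N : ℤ)) (k.2 * cellG Q N)).card : ℝ))
      (Mr := M) (q := q) hq1 hN1' hAr hjN hj5 hMr (Nat.cast_nonneg _) ?_ (Nat.cast_nonneg _) (Nat.cast_nonneg _) (by rw [hq]) ?_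
    · rw [mem_product] at hk
      unfold kJ at hk
      rw [mem_Icc, mem_Icc] at hk
      obtain ⟨⟨hk1, hk1'⟩, hk2, hk2'⟩ := hk
      have hKG : KK Q * cellG Q N ≤ 2 * N := by
        have hK : KK Q ≤ N := by
          have h1 := KK_le hQ1'
          have h2 := qq_le hQ1' (n := 4) (by norm_num)
          have : (KK Q : ℝ) ≤ N := by linarith
          exact_mod_cast this
        have e1 : KK Q * cellG Q N = KK Q * (N / KK Q) + KK Q := by unfold cellG; ring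
        have e2 := Nat.mul_div_le N (KK Q)
        omega
      have h1 : k.2 * (cellG Q N : ℤ) - k.1 * cellG Q N ≤ 8 * N := by
        have e1 : k.2 * (cellG Q N : ℤ) - k.1 * cellG Q N = (k.2 - k.1) * cellG Q N := by ring
        rw [e1]
        have e2 : (k.2 - k.1) * (cellG Q N : ℤ) ≤ (4 * KK Q) * cellG Q N :=
          mul_le_mul_of_nonneg_right (by linarith) (Int.natCast_nonneg _)
        have e3 : (KK Q : ℤ) * cellG Q N ≤ 2 * N := by exact_mod_cast hKG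
        linarith
      rw [Int.card_Ico]
      have h2 : (k.2 * (cellG Q N : ℤ) - k.1 * cellG Q N).toNat ≤ 8 * N := by omega
      exact_mod_cast h2
    · refine le_trans ?_ hl2
      exact mul_le_mul_of_nonneg_left hmk (by linarith)
  -- proportional forms
  have hprop : (((Bx s (bJ A N)).filter (fun h => Del a h = 0)).card : ℝ) ≤ (5 * (A : ℝ)) ^ s * (s : ℝ) ^ 2 * ((N : ℝ) ^ s / q ^ 8) := by
    have h1 := card_Del ha (bJ A N)
    have h2 : (((Bx s (bJ A N)).filter (fun h => Del a h = 0)).card : ℝ) * j ≤ s * s * j ^ s := by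
      rw [hj]; exact_mod_cast h1
    have h3 : (((Bx s (bJ A N)).filter (fun h => Del a h = 0)).card : ℝ) * N ≤ s * s * (5 * A * N) ^ s := by
      refine le_trans (mul_le_mul_of_nonneg_left hjN (Nat.cast_nonneg _)) (h2.trans ?_)
      apply mul_le_mul_of_nonneg_left _ (by positivity)
      exact pow_le_pow_left₀ (by linarith) hj5 s
    have h4 : (((Bx s (bJ A N)).filter (fun h => Del a h = 0)).card : ℝ) ≤ s * s * (5 * A * N) ^ s / N := by
      rw [le_div_iff₀ hN0]; exact h3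
    refine h4.trans ?_
    have h5 : (s : ℝ) * s * (5 * A * N) ^ s / N ≤ s * s * (5 * A * N) ^ s / q ^ 8 := by
      apply div_le_div_of_nonneg_left (by positivity) (by positivity)
      rw [hq]
      exact (qq_le hQ1' (by norm_num)).trans hQNr
    refine h5.trans (le_of_eq ?_)
    rw [mul_pow (5 * (A : ℝ)) N s]
    ring
  -- all together
  classical
  have hsub : EX Q N A a ⊆ (Bx s (bJ A N)).filter (fun h => Del a h = 0) ∪
      (kJ Q ×ˢ kJ Q).biUnion fun k => (Bx s (bJ A N)).filter (fun h =>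
        (N : ℝ) / qq Q ^ 4 < ‖DI Q M a h (k.1 * cellG Q N) (k.2 * cellG Q N)‖) := by
    intro h hh
    unfold EX at hh
    rw [mem_filter] at hh
    rcases hh.2 with h1 | ⟨k, hk, hk2⟩
    · exact mem_union_left _ (mem_filter.2 ⟨hh.1, h1⟩)
    · apply mem_union_right
      rw [mem_biUnion]
      exact ⟨k, hk, mem_filter.2 ⟨hh.1, by rw [hM]; exact hk2⟩⟩
  have hcard := (card_le_card hsub).trans ((card_union_le _ _).trans (Nat.add_le_add_left card_biUnion_le _))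
  have hcardr : ((EX Q N A a).card : ℝ) ≤ (((Bx s (bJ A N)).filter (fun h => Del a h = 0)).card : ℝ) +
      ∑ k ∈ kJ Q ×ˢ kJ Q, (((Bx s (bJ A N)).filter (fun h =>
        (N : ℝ) / qq Q ^ 4 < ‖DI Q M a h (k.1 * cellG Q N) (k.2 * cellG Q N)‖)).card : ℝ) := by
    exact_mod_cast hcard
  refine hcardr.trans ?_
  have hsum : ∑ k ∈ kJ Q ×ˢ kJ Q, (((Bx s (bJ A N)).filter (fun h =>
        (N : ℝ) / qq Q ^ 4 < ‖DI Q M a h (k.1 * cellG Q N) (k.2 * cellG Q N)‖)).card : ℝ) ≤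
      (5 * (A : ℝ)) ^ s * 5000 * (A : ℝ) ^ 2 * ((N : ℝ) ^ s / q ^ 8) := by
    refine (sum_le_sum hone).trans ?_
    rw [sum_const, nsmul_eq_mul, card_product, card_kJ]
    have hK : (((4 * KK Q + 1) * (4 * KK Q + 1) : ℕ) : ℝ) ≤ 25 * q ^ 8 := by
      have h1 := KK_le hQ1'
      rw [← hq] at h1
      have h2 : (4 * (KK Q : ℝ) + 1) ≤ 5 * q ^ 4 := by
        have : 1 ≤ q ^ 4 := one_le_pow₀ hq1
        linarith
      push_cast
      calc (4 * (KK Q : ℝ) + 1) * (4 * KK Q + 1) ≤ (5 * q ^ 4) * (5 * q ^ 4) := mul_le_mul h2 h2 (by positivity) (by positivity)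
        _ = 25 * q ^ 8 := by ring
    calc _ ≤ (25 * q ^ 8) * ((5 * (A : ℝ)) ^ s * 200 * (A : ℝ) ^ 2 * ((N : ℝ) ^ s / q ^ 16)) :=
          mul_le_mul_of_nonneg_right hK (by positivity)
      _ = _ := by
        field_simp
        ring
  refine (add_le_add hprop hsum).trans (le_of_eq ?_)
  rw [← hq]
  ring

end Pool.Agent.Helper86.PS
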