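import Pool.Agent.Helper86.PS.S4
import Pool.Agent.W66.LE
import Pool.Agent.H307R2.LU

set_option autoImplicit false

/-!
# The family of the primitive characters and the large sieve with Selberg weights
-/

open Finset ArithmeticFunction MeasureTheory

namespace Pool.Agent.Helper86.PS

open Pool.Agent.W66 Pool.Agent.W66L

/-- a modulus `k + 1` and a character modulo `k + 1` -/
abbrev PC := Σ k : ℕ, DirichletCharacter ℂ (k + 1)

/-- the character as a function on the natural numbers -/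
noncomputable def fn (j : PC) (n : ℕ) : ℂ := j.2 (n : ZMod (j.1 + 1))

open _root_.Classical in
/-- the primitive characters of moduli at most `Q` -/
noncomputable def fam (Q : ℕ) : Finset PC :=
  (range Q).sigma fun k => (univ : Finset (DirichletCharacter ℂ (k + 1))).filter fun χ => χ.IsPrimitive

open _root_.Classical in
lemma mem_fam {Q : ℕ} {j : PC} : j ∈ fam Q ↔ j.1 + 1 ≤ Q ∧ j.2.IsPrimitive := by
  unfold fam
  rw [mem_sigma, mem_range, mem_filter]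
  constructor
  · rintro ⟨h1, _, h2⟩; exact ⟨h1, h2⟩
  · rintro ⟨h1, h2⟩; exact ⟨h1, mem_univ _, h2⟩

lemma fn_norm_le (j : PC) (n : ℕ) : ‖fn j n‖ ≤ 1 := j.2.norm_le_one _

lemma fn_mul (j : PC) (m n : ℕ) : fn j (m * n) = fn j m * fn j n := by
  unfold fn; rw [Nat.cast_mul, map_mul]

lemma fn_one (j : PC) : fn j 1 = 1 := by unfold fn; rw [Nat.cast_one, map_one]

lemma fn_zero_of {j : PC} {n : ℕ} (h : ¬ n.Coprime (j.1 + 1)) : fn j n = 0 := by
  unfold fn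
  apply MulChar.map_nonunit
  rw [ZMod.isUnit_iff_coprime]
  exact h

lemma card_chars (k : ℕ) : Fintype.card (DirichletCharacter ℂ (k + 1)) ≤ k + 1 := by
  have h2 : Fintype.card (DirichletCharacter ℂ (k + 1)) = Nat.totient (k + 1) := by
    rw [← DirichletCharacter.card_eq_totient_of_hasEnoughRootsOfUnity ℂ (k + 1),
      Nat.card_eq_fintype_card]
  rw [h2]
  exact Nat.totient_le _

open _root_.Classical in
lemma card_fam (Q : ℕ) : ((fam Q).card : ℝ) ≤ (Q : ℝ) ^ 2 := by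
  unfold fam
  rw [card_sigma]
  have h1 : ∀ k ∈ range Q, (((univ : Finset (DirichletCharacter ℂ (k + 1))).filter
      fun χ => χ.IsPrimitive).card) ≤ Q := by
    intro k hk
    rw [mem_range] at hk
    refine (card_filter_le _ _).trans ?_
    rw [card_univ]
    exact (card_chars k).trans (by omega)
  have h2 := sum_le_sum h1
  rw [sum_const, card_range, smul_eq_mul] at h2
  have h3 : ((∑ k ∈ range Q, (((univ : Finset (DirichletCharacter ℂ (k + 1))).filter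
      fun χ => χ.IsPrimitive).card) : ℕ) : ℝ) ≤ ((Q * Q : ℕ) : ℝ) := by exact_mod_cast h2
  rw [sq]
  push_cast at h3 ⊢
  exact h3

lemma changeLevel_nat {n m : ℕ} (h : n ∣ m) (χ : DirichletCharacter ℂ n) (b : ℕ)
    (hb : b.Coprime m) :
    DirichletCharacter.changeLevel h χ (b : ZMod m) = χ (b : ZMod n) := by
  have h1 := DirichletCharacter.changeLevel_eq_cast_of_dvd χ h (ZMod.unitOfCoprime b hb)
  rw [ZMod.coe_unitOfCoprime, ZMod.cast_natCast h] at h1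
  exact h1

/-- the sums of `χ_j χ̄_l` over intervals -/
lemma fn_sum_le {Q : ℕ} {j l : PC} (hj : j ∈ fam Q) (hl : l ∈ fam Q) (hne : j ≠ l) (a b : ℕ) :
    ‖∑ n ∈ Ioc a b, fn j n * (starRingEnd ℂ) (fn l n)‖ ≤ (Q : ℝ) ^ 2 := by
  rw [mem_fam] at hj hl
  set q : ℕ := (j.1 + 1) * (l.1 + 1) with hq
  have : NeZero q := ⟨by positivity⟩
  have d1 : (j.1 + 1) ∣ q := dvd_mul_right _ _
  have d2 : (l.1 + 1) ∣ q := dvd_mul_left _ _
  set ψ₁ := DirichletCharacter.changeLevel d1 j.2 with hψ₁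
  set ψ₂ := DirichletCharacter.changeLevel d2 l.2 with hψ₂
  have hneψ : ψ₁ * ψ₂⁻¹ ≠ 1 := by
    intro h
    have h1 : ψ₁ = ψ₂ := by rwa [mul_inv_eq_one] at h
    have h2 : ψ₁.conductor = j.1 + 1 := by
      rw [hψ₁, DirichletCharacter.conductor_changeLevel]; exact hj.2
    have h3 : ψ₂.conductor = l.1 + 1 := by
      rw [hψ₂, DirichletCharacter.conductor_changeLevel]; exact hl.2
    have h4 : j.1 = l.1 := by
      have : j.1 + 1 = l.1 + 1 := by rw [← h2, ← h3, h1]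
      omega
    apply hne
    obtain ⟨j1, j2⟩ := j
    obtain ⟨l1, l2⟩ := l
    simp only at h4
    subst h4
    have h5 : j2 = l2 := by
      apply DirichletCharacter.changeLevel_injective (R := ℂ) d1
      exact h1
    rw [h5]
  have hval : ∀ n : ℕ, fn j n * (starRingEnd ℂ) (fn l n) = (ψ₁ * ψ₂⁻¹) (n : ZMod q) := by
    intro n
    rw [MulChar.mul_apply]
    have hstar : ψ₂⁻¹ (n : ZMod q) = (starRingEnd ℂ) (ψ₂ (n : ZMod q)) := by
      rw [← MulChar.star_eq_inv]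
      rfl
    rw [hstar]
    by_cases h : n.Coprime q
    · rw [hψ₁, hψ₂, changeLevel_nat d1 j.2 n h, changeLevel_nat d2 l.2 n h]
      rfl
    · have h1 : ψ₁ (n : ZMod q) = 0 := by
        apply MulChar.map_nonunit
        rw [ZMod.isUnit_iff_coprime]
        exact h
      rw [h1, zero_mul]
      rw [hq, Nat.coprime_mul_iff_right, not_and_or] at h
      rcases h with h | h
      · rw [fn_zero_of h, zero_mul]
      · rw [fn_zero_of h, _root_.map_zero, mul_zero]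
  rw [sum_congr rfl fun n _ => hval n]
  have hq' : (q : ℝ) ≤ (Q : ℝ) ^ 2 := by
    rw [hq, sq]
    push_cast
    have h1 : ((j.1 : ℝ) + 1) ≤ Q := by exact_mod_cast hj.1
    have h2 : ((l.1 : ℝ) + 1) ≤ Q := by exact_mod_cast hl.1
    exact mul_le_mul h1 h2 (by positivity) (by positivity)
  refine le_trans ?_ hq'
  rcases le_total a b with hab | hab
  · obtain ⟨m, rfl⟩ := Nat.exists_eq_add_of_le hab
    exact Pool.Agent.H307R2.sum_Ioc_block (fun a => (ψ₁ * ψ₂⁻¹) a) (MulChar.sum_eq_zero_of_ne_one hneψ)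
      (fun a => (ψ₁ * ψ₂⁻¹).norm_le_one a) a m
  · rw [Ioc_eq_empty_of_le hab, sum_empty, norm_zero]
    positivity

/-- the same for multiples of `m` -/
lemma fn_sum_mult {Q : ℕ} {j l : PC} (hj : j ∈ fam Q) (hl : l ∈ fam Q) (hne : j ≠ l) (a b : ℕ) {m : ℕ}
    (hm : 1 ≤ m) :
    ‖∑ n ∈ (Ioc a b).filter (fun n => m ∣ n), fn j n * (starRingEnd ℂ) (fn l n)‖ ≤ (Q : ℝ) ^ 2 := by
  have h2 : (Ioc a b).filter (fun n => m ∣ n) = (Ioc (a / m) (b / m)).image (fun k => m * k) := by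
    ext n
    simp only [mem_filter, mem_Ioc, mem_image]
    constructor
    · rintro ⟨⟨h3, h4⟩, k, rfl⟩
      refine ⟨k, ⟨?_, ?_⟩, rfl⟩
      · rw [Nat.div_lt_iff_lt_mul hm]; linarith [Nat.mul_comm m k]
      · rw [Nat.le_div_iff_mul_le hm]; linarith [Nat.mul_comm m k]
    · rintro ⟨k, ⟨h3, h4⟩, rfl⟩
      rw [Nat.div_lt_iff_lt_mul hm] at h3
      rw [Nat.le_div_iff_mul_le hm] at h4
      exact ⟨⟨by linarith [Nat.mul_comm m k], by linarith [Nat.mul_comm m k]⟩, dvd_mul_right m k⟩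
  rw [h2, sum_image (fun x _ y _ h => Nat.eq_of_mul_eq_mul_left hm h)]
  have h3 : ∀ k, fn j (m * k) * (starRingEnd ℂ) (fn l (m * k)) =
      (fn j m * (starRingEnd ℂ) (fn l m)) * (fn j k * (starRingEnd ℂ) (fn l k)) := by
    intro k
    rw [fn_mul, fn_mul, map_mul]
    ring
  rw [sum_congr rfl fun k _ => h3 k, ← mul_sum, norm_mul]
  have h4 : ‖fn j m * (starRingEnd ℂ) (fn l m)‖ ≤ 1 := by
    rw [norm_mul, RCLike.norm_conj]
    exact mul_le_one₀ (fn_norm_le j m) (norm_nonneg _) (fn_norm_le l m)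
  calc _ ≤ 1 * (Q : ℝ) ^ 2 := mul_le_mul h4 (fn_sum_le hj hl hne _ _) (norm_nonneg _) zero_le_one
    _ = _ := one_mul _

/-- the off-diagonal sums -/
lemma offdiag {Q : ℕ} {j l : PC} (hj : j ∈ fam Q) (hl : l ∈ fam Q) (hne : j ≠ l) (D : ℕ) (x : ℕ → ℝ) {M : ℝ}
    (hM : ∀ d ∈ Icc 1 D, |x d| ≤ M) (a b : ℕ) :
    ‖∑ n ∈ Ioc a b, ((dsum D x n ^ 2 : ℝ) : ℂ) * (fn j n * (starRingEnd ℂ) (fn l n))‖ ≤
      (D * M) ^ 2 * (Q : ℝ) ^ 2 := by
  have h1 : ∑ n ∈ Ioc a b, ((dsum D x n ^ 2 : ℝ) : ℂ) * (fn j n * (starRingEnd ℂ) (fn l n)) =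
      ∑ d ∈ Icc 1 D, ∑ e ∈ Icc 1 D, ((x d * x e : ℝ) : ℂ) *
        ∑ n ∈ (Ioc a b).filter (fun n => Nat.lcm d e ∣ n), fn j n * (starRingEnd ℂ) (fn l n) := by
    have e1 : ∀ n ∈ Ioc a b, ((dsum D x n ^ 2 : ℝ) : ℂ) * (fn j n * (starRingEnd ℂ) (fn l n)) =
        ∑ d ∈ Icc 1 D, ∑ e ∈ Icc 1 D, if Nat.lcm d e ∣ n then
          ((x d * x e : ℝ) : ℂ) * (fn j n * (starRingEnd ℂ) (fn l n)) else 0 := by
      intro n _
      rw [sq, dsum_mul]
      push_cast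
      rw [sum_mul]
      apply sum_congr rfl
      intro d _
      rw [sum_mul]
      apply sum_congr rfl
      intro e _
      split_ifs <;> simp
    rw [sum_congr rfl e1, sum_comm]
    apply sum_congr rfl
    intro d _
    rw [sum_comm]
    apply sum_congr rfl
    intro e _
    rw [← sum_filter, mul_sum]
  rw [h1]
  refine (norm_sum_le _ _).trans ?_
  have h2 : (D * M) ^ 2 * (Q : ℝ) ^ 2 = ∑ d ∈ Icc 1 D, ∑ e ∈ Icc 1 D, M * M * (Q : ℝ) ^ 2 := by
    simp only [sum_const, Nat.card_Icc, nsmul_eq_mul, Nat.add_sub_cancel]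
    ring
  rw [h2]
  apply sum_le_sum
  intro d hd
  refine (norm_sum_le _ _).trans ?_
  apply sum_le_sum
  intro e he
  rw [norm_mul, Complex.norm_real, Real.norm_eq_abs, abs_mul]
  have hM0 : 0 ≤ M := (abs_nonneg _).trans (hM d hd)
  apply mul_le_mul _ (fn_sum_mult hj hl hne a b (Nat.lcm_pos (mem_Icc.1 hd).1 (mem_Icc.1 he).1))
    (norm_nonneg _) (by positivity)
  exact mul_le_mul (hM d hd) (hM e he) (abs_nonneg _) hM0

/-- duality -/
lemma ls_dual {ι : Type} (J : Finset ι) (S : Finset ℕ) (φ : ι → ℕ → ℂ) (x : ℕ → ℂ) {Bd Bo : ℝ}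
    (hBd : 0 ≤ Bd) (hBo : 0 ≤ Bo) (hd : ∀ j ∈ J, ‖∑ n ∈ S, φ j n * (starRingEnd ℂ) (φ j n)‖ ≤ Bd)
    (ho : ∀ j ∈ J, ∀ l ∈ J, j ≠ l → ‖∑ n ∈ S, φ j n * (starRingEnd ℂ) (φ l n)‖ ≤ Bo) :
    ∑ j ∈ J, ‖∑ n ∈ S, x n * φ j n‖ ^ 2 ≤ (∑ n ∈ S, ‖x n‖ ^ 2) * (Bd + J.card * Bo) := by
  classical
  set y : ι → ℂ := fun j => ∑ n ∈ S, x n * φ j n with hy
  set Y : ℝ := ∑ j ∈ J, ‖y j‖ ^ 2 with hY
  have hY0 : 0 ≤ Y := sum_nonneg fun j _ => by positivity
  have hX0 : 0 ≤ ∑ n ∈ S, ‖x n‖ ^ 2 := sum_nonneg fun n _ => by positivity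
  -- the dual sum
  set V : ℝ := ∑ n ∈ S, ‖∑ j ∈ J, (starRingEnd ℂ) (y j) * φ j n‖ ^ 2 with hV
  have hV1 : V ≤ Y * (Bd + J.card * Bo) := by
    have e1 : (V : ℂ) = ∑ j ∈ J, ∑ l ∈ J, ((starRingEnd ℂ) (y j) * y l) * ∑ n ∈ S, φ j n * (starRingEnd ℂ) (φ l n) := by
      rw [hV]
      push_cast
      have e2 : ∀ n ∈ S, ((‖∑ j ∈ J, (starRingEnd ℂ) (y j) * φ j n‖ : ℂ)) ^ 2 =
          ∑ j ∈ J, ∑ l ∈ J, ((starRingEnd ℂ) (y j) * y l) * (φ j n * (starRingEnd ℂ) (φ l n)) := by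
        intro n _
        rw [← Complex.mul_conj', map_sum, sum_mul_sum]
        apply sum_congr rfl
        intro j _
        apply sum_congr rfl
        intro l _
        rw [map_mul, Complex.conj_conj]
        ring
      rw [sum_congr rfl e2, sum_comm]
      apply sum_congr rfl
      intro j _
      rw [sum_comm]
      apply sum_congr rfl
      intro l _
      exact (mul_sum _ _ _).symm
    have hV0 : 0 ≤ V := sum_nonneg fun n _ => by positivity
    have e3 : V = ‖(V : ℂ)‖ := by rw [Complex.norm_real, Real.norm_of_nonneg hV0]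
    rw [e3, e1]
    refine (norm_sum_le _ _).trans ?_
    have e4 : ∀ j ∈ J, ‖∑ l ∈ J, ((starRingEnd ℂ) (y j) * y l) * ∑ n ∈ S, φ j n * (starRingEnd ℂ) (φ l n)‖ ≤
        ‖y j‖ ^ 2 * Bd + ∑ l ∈ J, (‖y j‖ ^ 2 + ‖y l‖ ^ 2) / 2 * Bo := by
      intro j hj
      refine (norm_sum_le _ _).trans ?_
      rw [← sum_erase_add _ _ hj, add_comm]
      apply add_le_add
      · rw [norm_mul, norm_mul, RCLike.norm_conj]
        calc ‖y j‖ * ‖y j‖ * _ ≤ ‖y j‖ * ‖y j‖ * Bd := mul_le_mul_of_nonneg_left (hd j hj) (by positivity)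
          _ = _ := by ring
      · calc ∑ l ∈ J.erase j, ‖((starRingEnd ℂ) (y j) * y l) * ∑ n ∈ S, φ j n * (starRingEnd ℂ) (φ l n)‖
            ≤ ∑ l ∈ J.erase j, (‖y j‖ ^ 2 + ‖y l‖ ^ 2) / 2 * Bo := by
              apply sum_le_sum
              intro l hl
              rw [mem_erase] at hl
              rw [norm_mul, norm_mul, RCLike.norm_conj]
              apply mul_le_mul _ (ho j hj l hl.2 hl.1.symm) (norm_nonneg _) (by positivity)
              nlinarith [sq_nonneg (‖y j‖ - ‖y l‖)]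
          _ ≤ ∑ l ∈ J, (‖y j‖ ^ 2 + ‖y l‖ ^ 2) / 2 * Bo :=
              sum_le_sum_of_subset_of_nonneg (erase_subset _ _) (fun l _ _ => by positivity)
    refine (sum_le_sum e4).trans (le_of_eq ?_)
    rw [sum_add_distrib, ← sum_mul]
    have e5 : ∑ j ∈ J, ∑ l ∈ J, (‖y j‖ ^ 2 + ‖y l‖ ^ 2) / 2 * Bo = Y * (J.card * Bo) := by
      have e6 : ∀ j ∈ J, ∑ l ∈ J, (‖y j‖ ^ 2 + ‖y l‖ ^ 2) / 2 * Bo = (J.card * ‖y j‖ ^ 2 + Y) / 2 * Bo := by
        intro j _
        rw [← sum_mul, ← sum_div, sum_add_distrib, sum_const, nsmul_eq_mul]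
      rw [sum_congr rfl e6, ← sum_mul, ← sum_div, sum_add_distrib, sum_const, nsmul_eq_mul, ← mul_sum]
      ring
    rw [e5]
    ring
  -- the main inequality
  have h1 : (Y : ℂ) = ∑ n ∈ S, x n * ∑ j ∈ J, (starRingEnd ℂ) (y j) * φ j n := by
    have e1 : ∀ n ∈ S, x n * ∑ j ∈ J, (starRingEnd ℂ) (y j) * φ j n =
        ∑ j ∈ J, (starRingEnd ℂ) (y j) * (x n * φ j n) := by
      intro n _
      rw [mul_sum]
      apply sum_congr rfl
      intro j _
      ring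
    rw [sum_congr rfl e1, sum_comm, hY]
    push_cast
    apply sum_congr rfl
    intro j _
    rw [← mul_sum, ← Complex.conj_mul']
  have h2 : Y ≤ ∑ n ∈ S, ‖x n‖ * ‖∑ j ∈ J, (starRingEnd ℂ) (y j) * φ j n‖ := by
    have e3 : Y = ‖(Y : ℂ)‖ := by rw [Complex.norm_real, Real.norm_of_nonneg hY0]
    rw [e3, h1]
    refine (norm_sum_le _ _).trans (le_of_eq ?_)
    apply sum_congr rfl
    intro n _
    rw [norm_mul]
  have h3 : Y ^ 2 ≤ (∑ n ∈ S, ‖x n‖ ^ 2) * V := by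
    refine le_trans (pow_le_pow_left₀ hY0 h2 2) ?_
    exact sum_mul_sq_le_sq_mul_sq _ _ _
  have h4 : Y ^ 2 ≤ (∑ n ∈ S, ‖x n‖ ^ 2) * (Y * (Bd + J.card * Bo)) :=
    h3.trans (mul_le_mul_of_nonneg_left hV1 hX0)
  rcases hY0.eq_or_lt with h5 | h5
  · rw [← h5]
    positivity
  · nlinarith

end Pool.Agent.Helper86.PS
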