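import Pool.Agent.Helper86.PS.LS

set_option autoImplicit false

/-!
# Mean values of Dirichlet polynomials with Selberg weights
-/

open Finset ArithmeticFunction MeasureTheory
open scoped Real FourierTransform

namespace Pool.Agent.Helper86.PS

open Pool.Agent.W66 Pool.Agent.W66L

lemma bbC_sq_int (h : ℝ) (S : Finset ℕ) (c : ℕ → ℂ) :
    Integrable fun x => ‖bbC h S c x‖ ^ 2 :=
  (memLp_two_iff_integrable_sq_norm (bbC_memLp h S c).1).1 (bbC_memLp h S c)

/-- the large sieve in one window -/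
lemma ls_point {C : ℝ} (hC : 0 < C) (hS2 : ∀ D a b : ℕ, 2 ≤ D → a ≤ b →
    ∑ n ∈ Ioc a b, dsum D (lamc D) n ^ 2 ≤ C * Real.log D * ((b : ℝ) - a) + (D * Real.log D) ^ 2)
    {Q R : ℕ} (hR : 2 ≤ R) (S : Finset ℕ) (hS : ∀ n ∈ S, 0 < n) (u : ℕ → ℂ) {h : ℝ}
    (h0 : 0 < h) (h1 : h ≤ 1) (x : ℝ) :
    ∑ j ∈ fam Q, ‖bbC h S (fun n => u n * ((dsum R (lamc R) n : ℝ) : ℂ) * fn j n) x‖ ^ 2 ≤
      ∑ n ∈ S, ‖u n‖ ^ 2 * (2 * C * Real.log R * h * n + (C * Real.log R + (R * Real.log R) ^ 2 * (1 + (Q : ℝ) ^ 4))) *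
        (Pool.Agent.W66.box h (x - Real.log n)) ^ 2 := by
  classical
  set E : ℝ := C * Real.log R + (R * Real.log R) ^ 2 * (1 + (Q : ℝ) ^ 4) with hE
  have hlR : 0 < Real.log R := Real.log_pos (by exact_mod_cast (by omega : 1 < R))
  have hE0 : 0 ≤ E := by positivity
  set A : ℝ := Real.exp (x - h / 2) with hA
  set B : ℝ := Real.exp (x + h / 2) with hB
  have hA0 : 0 < A := Real.exp_pos _
  have hAB : A ≤ B := Real.exp_le_exp.2 (by linarith)
  set a : ℕ := ⌈A⌉₊ - 1 with ha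
  set b : ℕ := ⌊B⌋₊ with hb
  have ha1 : ⌈A⌉₊ = a + 1 := by
    have : 0 < ⌈A⌉₊ := Nat.ceil_pos.2 hA0
    omega
  have hwin : ∀ n : ℕ, 0 < n → (|x - Real.log n| ≤ h / 2 ↔ n ∈ Ioc a b) := by
    intro n hn
    have hn' : (0 : ℝ) < n := by exact_mod_cast hn
    rw [abs_le, mem_Ioc]
    constructor
    · rintro ⟨h2, h3⟩
      constructor
      · have h4 : A ≤ n := by
          rw [hA, ← Real.le_log_iff_exp_le hn']
          linarith
        have h5 := Nat.ceil_le.2 h4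
        omega
      · have h4 : (n : ℝ) ≤ B := by
          rw [hB, ← Real.log_le_iff_le_exp hn']
          linarith
        exact Nat.le_floor h4
    · rintro ⟨h2, h3⟩
      have h4 : A ≤ n := by
        have : ⌈A⌉₊ ≤ n := by omega
        exact (Nat.le_ceil A).trans (by exact_mod_cast this)
      have h5 : (n : ℝ) ≤ B := (Nat.cast_le.2 h3).trans (Nat.floor_le (hA0.le.trans hAB))
      rw [hA, ← Real.le_log_iff_exp_le hn'] at h4
      rw [hB, ← Real.log_le_iff_le_exp hn'] at h5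
      constructor <;> linarith
  set c : ℕ → ℝ := dsum R (lamc R) with hc
  set Sx := S.filter (fun n : ℕ => |x - Real.log n| ≤ h / 2) with hSx
  -- the sums in the window
  have hbb : ∀ j, bbC h S (fun n => u n * ((c n : ℝ) : ℂ) * fn j n) x =
      ((1 / h : ℝ) : ℂ) * ∑ n ∈ Ioc a b, (if n ∈ S then u n else 0) * (((c n : ℝ) : ℂ) * fn j n) := by
    intro j
    have e1 : bbC h S (fun n => u n * ((c n : ℝ) : ℂ) * fn j n) x =
        ((1 / h : ℝ) : ℂ) * ∑ n ∈ Sx, u n * (((c n : ℝ) : ℂ) * fn j n) := by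
      unfold bbC
      rw [hSx, sum_filter, mul_sum]
      apply sum_congr rfl
      intro n _
      unfold boxC Pool.Agent.W66.box
      split_ifs
      · ring
      · simp
    rw [e1]
    congr 1
    have e2 : Sx = (Ioc a b).filter (fun n => n ∈ S) := by
      ext n
      rw [hSx, mem_filter, mem_filter]
      constructor
      · rintro ⟨h2, h3⟩
        exact ⟨(hwin n (hS n h2)).1 h3, h2⟩
      · rintro ⟨h2, h3⟩
        exact ⟨h3, (hwin n (hS n h3)).2 h2⟩
    rw [e2, sum_filter]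
    apply sum_congr rfl
    intro n _
    split_ifs <;> simp
  have hM : ∀ d ∈ Icc 1 R, |lamc R d| ≤ Real.log R := fun d hd => lamc_abs (mem_Icc.1 hd).1 (mem_Icc.1 hd).2
  have hBd : 0 ≤ ∑ n ∈ Ioc a b, c n ^ 2 := sum_nonneg fun n _ => sq_nonneg _
  have hdual := ls_dual (fam Q) (Ioc a b) (fun j n => ((c n : ℝ) : ℂ) * fn j n)
    (fun n => if n ∈ S then u n else 0) (Bd := ∑ n ∈ Ioc a b, c n ^ 2)
    (Bo := (R * Real.log R) ^ 2 * (Q : ℝ) ^ 2) hBd (by positivity)
    (by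
      intro j _
      refine (norm_sum_le _ _).trans ?_
      apply sum_le_sum
      intro n _
      rw [Complex.mul_conj', norm_pow, Complex.norm_real, norm_norm, norm_mul, mul_pow,
        Complex.norm_real, Real.norm_eq_abs, sq_abs]
      have h2 : ‖fn j n‖ ^ 2 ≤ 1 := pow_le_one₀ (norm_nonneg _) (fn_norm_le j n)
      calc c n ^ 2 * ‖fn j n‖ ^ 2 ≤ c n ^ 2 * 1 := mul_le_mul_of_nonneg_left h2 (sq_nonneg _)
        _ = _ := mul_one _)
    (by
      intro j hj l hl hne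
      have h2 := offdiag hj hl hne R (lamc R) hM a b
      refine le_trans (le_of_eq ?_) h2
      congr 1
      apply sum_congr rfl
      intro n _
      rw [map_mul, Complex.conj_ofReal]
      push_cast
      ring)
  have hstep : ∑ j ∈ fam Q, ‖bbC h S (fun n => u n * ((c n : ℝ) : ℂ) * fn j n) x‖ ^ 2 ≤
      (1 / h) ^ 2 * ((∑ n ∈ Sx, ‖u n‖ ^ 2) * (∑ n ∈ Ioc a b, c n ^ 2 + (fam Q).card * ((R * Real.log R) ^ 2 * (Q : ℝ) ^ 2))) := by
    have e1 : ∑ j ∈ fam Q, ‖bbC h S (fun n => u n * ((c n : ℝ) : ℂ) * fn j n) x‖ ^ 2 =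
        (1 / h) ^ 2 * ∑ j ∈ fam Q, ‖∑ n ∈ Ioc a b, (if n ∈ S then u n else 0) * (((c n : ℝ) : ℂ) * fn j n)‖ ^ 2 := by
      rw [mul_sum]
      apply sum_congr rfl
      intro j _
      rw [hbb, norm_mul, mul_pow, Complex.norm_real, Real.norm_of_nonneg (by positivity)]
    rw [e1]
    apply mul_le_mul_of_nonneg_left _ (by positivity)
    refine hdual.trans (le_of_eq ?_)
    congr 1
    have e2 : Sx = (Ioc a b).filter (fun n => n ∈ S) := by
      ext n
      rw [hSx, mem_filter, mem_filter]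
      constructor
      · rintro ⟨h2, h3⟩
        exact ⟨(hwin n (hS n h2)).1 h3, h2⟩
      · rintro ⟨h2, h3⟩
        exact ⟨h3, (hwin n (hS n h3)).2 h2⟩
    rw [e2, sum_filter]
    apply sum_congr rfl
    intro n _
    split_ifs <;> simp
  refine hstep.trans ?_
  -- bound for one summand
  have hlast : ∀ n ∈ Sx, ∑ n ∈ Ioc a b, c n ^ 2 + (fam Q).card * ((R * Real.log R) ^ 2 * (Q : ℝ) ^ 2) ≤
      2 * C * Real.log R * h * n + E := by
    intro n hn
    rw [hSx, mem_filter] at hn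
    have hn0 := hS n hn.1
    have hn' : (0 : ℝ) < n := by exact_mod_cast hn0
    have hmem := (hwin n hn0).1 hn.2
    rw [mem_Ioc] at hmem
    have hab : a ≤ b := by omega
    have h2 := hS2 R a b hR hab
    have h3 : (b : ℝ) ≤ B := Nat.floor_le (hA0.le.trans hAB)
    have h4 : A ≤ a + 1 := by
      have := Nat.le_ceil A
      rw [ha1] at this
      push_cast at this
      exact this
    have hAn : A ≤ n := by
      have h5 := (abs_le.1 hn.2).2
      rw [hA, ← Real.le_log_iff_exp_le hn']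
      linarith
    have h5 : B - A ≤ 2 * h * n := by
      have e1 : B = A * Real.exp h := by
        rw [hA, hB, ← Real.exp_add]
        congr 1
        ring
      have e2 : Real.exp h - 1 ≤ 2 * h := by
        have := Real.abs_exp_sub_one_le (x := h) (by rw [abs_of_pos h0]; exact h1)
        rw [abs_of_pos h0] at this
        exact (le_abs_self _).trans this
      rw [e1]
      calc A * Real.exp h - A = A * (Real.exp h - 1) := by ring
        _ ≤ n * (2 * h) := mul_le_mul hAn e2 (by linarith [Real.one_le_exp h0.le]) hn'.le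
        _ = _ := by ring
    have h6 : (b : ℝ) - a ≤ 2 * h * n + 1 := by linarith
    have h7 : C * Real.log R * ((b : ℝ) - a) ≤ C * Real.log R * (2 * h * n + 1) :=
      mul_le_mul_of_nonneg_left h6 (by positivity)
    have h8 : ((fam Q).card : ℝ) * ((R * Real.log R) ^ 2 * (Q : ℝ) ^ 2) ≤
        (Q : ℝ) ^ 2 * ((R * Real.log R) ^ 2 * (Q : ℝ) ^ 2) :=
      mul_le_mul_of_nonneg_right (card_fam Q) (by positivity)
    have h9 : (Q : ℝ) ^ 2 * ((R * Real.log R) ^ 2 * (Q : ℝ) ^ 2) = (R * Real.log R) ^ 2 * (Q : ℝ) ^ 4 := by ring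
    rw [hE]
    change ∑ n ∈ Ioc a b, c n ^ 2 ≤ _ at h2
    nlinarith [h2, h7, h8, h9]
  rw [sum_mul, mul_sum, hSx, sum_filter]
  apply sum_le_sum
  intro n hn
  unfold Pool.Agent.W66.box
  split_ifs with h2
  · have h3 := hlast n (by rw [hSx, mem_filter]; exact ⟨hn, h2⟩)
    have h4 := mul_le_mul_of_nonneg_left h3 (by positivity : 0 ≤ (1 / h) ^ 2 * ‖u n‖ ^ 2)
    calc _ = (1 / h) ^ 2 * ‖u n‖ ^ 2 * (∑ n ∈ Ioc a b, c n ^ 2 +
          (fam Q).card * ((R * Real.log R) ^ 2 * (Q : ℝ) ^ 2)) := by ring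
      _ ≤ _ := h4
      _ = _ := by ring
  · simp

lemma box_sq_int {h : ℝ} (h0 : 0 < h) (y : ℝ) :
    Integrable (fun x => box h (x - y) ^ 2) ∧ ∫ x, box h (x - y) ^ 2 = 1 / h := by
  have e1 : (fun x => box h (x - y) ^ 2) = fun x => 1 / h * box h (x - y) := by
    ext x
    unfold Pool.Agent.W66.box
    split_ifs <;> ring
  rw [e1]
  constructor
  · exact ((box_integrable h).comp_sub_right y).const_mul _
  · rw [integral_const_mul, integral_sub_right_eq_self (fun x => box h x) y, integral_box h0, mul_one]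

/-- the integrated large sieve -/
lemma ls_integrated {C : ℝ} (hC : 0 < C) (hS2 : ∀ D a b : ℕ, 2 ≤ D → a ≤ b →
    ∑ n ∈ Ioc a b, dsum D (lamc D) n ^ 2 ≤ C * Real.log D * ((b : ℝ) - a) + (D * Real.log D) ^ 2)
    {Q R : ℕ} (hR : 2 ≤ R) (S : Finset ℕ) (hS : ∀ n ∈ S, 0 < n) (u : ℕ → ℂ) {h : ℝ}
    (h0 : 0 < h) (h1 : h ≤ 1) :
    ∑ j ∈ fam Q, ∫ x, ‖bbC h S (fun n => u n * ((dsum R (lamc R) n : ℝ) : ℂ) * fn j n) x‖ ^ 2 ≤
      ∑ n ∈ S, ‖u n‖ ^ 2 * (2 * C * Real.log R * n +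
        (C * Real.log R + (R * Real.log R) ^ 2 * (1 + (Q : ℝ) ^ 4)) / h) := by
  rw [← integral_finsetSum _ fun j _ => bbC_sq_int h S _]
  calc _ ≤ ∫ x, ∑ n ∈ S, ‖u n‖ ^ 2 * (2 * C * Real.log R * h * n + (C * Real.log R + (R * Real.log R) ^ 2 * (1 + (Q : ℝ) ^ 4))) *
        (Pool.Agent.W66.box h (x - Real.log n)) ^ 2 := by
        apply integral_mono
        · exact integrable_finsetSum _ fun j _ => bbC_sq_int h S _
        · exact integrable_finsetSum _ fun n _ => (box_sq_int h0 _).1.const_mul _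
        · intro x
          exact ls_point hC hS2 hR S hS u h0 h1 x
    _ = ∑ n ∈ S, ‖u n‖ ^ 2 * (2 * C * Real.log R * h * n + (C * Real.log R + (R * Real.log R) ^ 2 * (1 + (Q : ℝ) ^ 4))) *
        (1 / h) := by
        rw [integral_finsetSum _ fun n _ => (box_sq_int h0 _).1.const_mul _]
        apply sum_congr rfl
        intro n _
        rw [integral_const_mul, (box_sq_int h0 _).2]
    _ = _ := by
        apply sum_congr rfl
        intro n _
        field_simp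

/-- the Dirichlet polynomial -/
noncomputable def dpol (S : Finset ℕ) (c : ℕ → ℂ) (ξ : ℝ) : ℂ :=
  ∑ l ∈ S, c l * Complex.exp (-(((2 * π * ξ * Real.log l : ℝ) : ℂ) * Complex.I))

lemma dpol_cont (S : Finset ℕ) (c : ℕ → ℂ) : Continuous (dpol S c) := by
  unfold dpol
  apply continuous_finsetSum
  intro l _
  fun_prop

lemma four_box_lower {h : ℝ} (h0 : 0 < h) {ξ : ℝ} (hξ : |ξ| ≤ 1 / (4 * h)) : 1 / 2 ≤ ‖𝓕 (boxC h) ξ‖ := by
  refine le_trans ?_ (Complex.re_le_norm _)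
  rw [four_eq]
  have hi : Integrable fun v : ℝ => Complex.exp (-(((2 * π * ξ * v : ℝ) : ℂ) * Complex.I)) * boxC h v := by
    refine (boxC_integrable h).bdd_mul (c := 1) (by fun_prop) (Filter.Eventually.of_forall fun v => ?_)
    rw [show -(((2 * π * ξ * v : ℝ) : ℂ) * Complex.I) = ((-(2 * π * ξ * v) : ℝ) : ℂ) * Complex.I by push_cast; ring,
      Complex.norm_exp_ofReal_mul_I]
  have h2 : (∫ v : ℝ, Complex.exp (-(((2 * π * ξ * v : ℝ) : ℂ) * Complex.I)) * boxC h v).re =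
      ∫ v : ℝ, Real.cos (2 * π * ξ * v) * box h v := by
    have := integral_re hi
    simp only [RCLike.re_eq_complex_re] at this
    rw [← this]
    congr 1
    ext v
    unfold boxC
    rw [show -(((2 * π * ξ * v : ℝ) : ℂ) * Complex.I) = ((-(2 * π * ξ * v) : ℝ) : ℂ) * Complex.I by push_cast; ring,
      Complex.re_mul_ofReal, Complex.exp_ofReal_mul_I_re, Real.cos_neg]
  rw [h2]
  have h3 : ∫ v : ℝ, 1 / 2 * box h v = 1 / 2 := by
    rw [integral_const_mul, integral_box h0, mul_one]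
  rw [← h3]
  apply integral_mono
  · exact (box_integrable h).const_mul _
  · refine (box_integrable h).bdd_mul (c := 1) (by fun_prop) (Filter.Eventually.of_forall fun v => ?_)
    rw [Real.norm_eq_abs]
    exact Real.abs_cos_le_one _
  · intro v
    simp only
    unfold Pool.Agent.W66.box
    split_ifs with h4
    · apply mul_le_mul_of_nonneg_right _ (by positivity)
      have h5 : |2 * π * ξ * v| ≤ π / 3 := by
        rw [abs_mul, abs_mul, abs_of_pos (by positivity : (0 : ℝ) < 2 * π)]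
        calc 2 * π * |ξ| * |v| ≤ 2 * π * (1 / (4 * h)) * (h / 2) := by gcongr
          _ = π / 4 := by field_simp
          _ ≤ π / 3 := by have := Real.pi_pos; linarith
      rw [← Real.cos_abs, ← Real.cos_pi_div_three]
      apply Real.cos_le_cos_of_nonneg_of_le_pi (abs_nonneg _) _ h5
      have := Real.pi_pos
      linarith
    · simp

/-- Plancherel for Dirichlet polynomials -/
lemma planch_dpol {h : ℝ} (h0 : 0 < h) (S : Finset ℕ) (c : ℕ → ℂ) {Ξ : ℝ} (hΞ0 : 0 ≤ Ξ) (hΞ : Ξ ≤ 1 / (4 * h)) :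
    ∫ ξ in (-Ξ)..Ξ, ‖dpol S c ξ‖ ^ 2 ≤ 4 * ∫ x, ‖bbC h S c x‖ ^ 2 := by
  have hb := bbC_memLp h S c
  have p3 := Pool.Agent.Helper76.NormalHP.plancherel_lintegral _ (bbC_integrable h S c) hb
  have hfour : ∀ ξ, 𝓕 (bbC h S c) ξ = dpol S c ξ * 𝓕 (boxC h) ξ := by
    intro ξ
    unfold dpol
    rw [← four_sum (boxC_integrable h)]
    rfl
  have hcont : Continuous fun ξ => ‖dpol S c ξ‖ ^ 2 := (dpol_cont S c).norm.pow 2
  have key : ∫⁻ ξ in Set.Ioc (-Ξ) Ξ, ‖dpol S c ξ‖ₑ ^ 2 ≤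
      ENNReal.ofReal 4 * ∫⁻ x, ‖bbC h S c x‖ₑ ^ 2 := by
    rw [← p3, ← lintegral_const_mul' _ _ (by simp)]
    calc ∫⁻ ξ in Set.Ioc (-Ξ) Ξ, ‖dpol S c ξ‖ₑ ^ 2 ≤
        ∫⁻ ξ in Set.Ioc (-Ξ) Ξ, ENNReal.ofReal 4 * ‖𝓕 (bbC h S c) ξ‖ₑ ^ 2 := by
          apply setLIntegral_mono' measurableSet_Ioc
          intro ξ hξ
          have h1 : |ξ| ≤ 1 / (4 * h) := (abs_le.2 ⟨by linarith [hξ.1], hξ.2⟩ : |ξ| ≤ Ξ).trans hΞ
          have h2 := four_box_lower h0 h1
          rw [hfour, enorm_mul, mul_pow]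
          have h3 : 1 ≤ ENNReal.ofReal 4 * ‖𝓕 (boxC h) ξ‖ₑ ^ 2 := by
            rw [← ofReal_norm, ← ENNReal.ofReal_pow (norm_nonneg _),
              ← ENNReal.ofReal_mul (by norm_num), ← ENNReal.ofReal_one]
            apply ENNReal.ofReal_le_ofReal
            nlinarith
          calc ‖dpol S c ξ‖ₑ ^ 2 = ‖dpol S c ξ‖ₑ ^ 2 * 1 := (mul_one _).symm
            _ ≤ ‖dpol S c ξ‖ₑ ^ 2 * (ENNReal.ofReal 4 * ‖𝓕 (boxC h) ξ‖ₑ ^ 2) := by gcongr
            _ = _ := by ring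
      _ ≤ _ := setLIntegral_le_lintegral _ _
  rw [lint_sq hb, ← ENNReal.ofReal_mul (by norm_num)] at key
  have h1 : ∫⁻ ξ in Set.Ioc (-Ξ) Ξ, ‖dpol S c ξ‖ₑ ^ 2 = ENNReal.ofReal (∫ ξ in (-Ξ)..Ξ, ‖dpol S c ξ‖ ^ 2) := by
    rw [intervalIntegral.integral_of_le (by linarith), ofReal_integral_eq_lintegral_ofReal]
    · congr 1
      ext ξ
      rw [← ofReal_norm, ← ENNReal.ofReal_pow (norm_nonneg _)]
    · exact (hcont.integrableOn_Icc (a := -Ξ) (b := Ξ)).mono_set Set.Ioc_subset_Icc_self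
    · exact Filter.Eventually.of_forall fun ξ => by simp only [Pi.zero_apply]; positivity
  rw [h1] at key
  refine (ENNReal.ofReal_le_ofReal_iff ?_).1 key
  apply mul_nonneg (by norm_num)
  exact integral_nonneg fun x => by positivity

end Pool.Agent.Helper86.PS
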