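import Pool.Agent.Helper86.PS.TR

set_option autoImplicit false

/-!
# The mean value of `1 - Z`
-/

open Finset ArithmeticFunction MeasureTheory
open scoped Real

namespace Pool.Agent.Helper86.PS

open Pool.Agent.W66L

/-- the bilinear form -/
noncomputable def BF (D E : ℕ) (s : ℝ) : ℝ :=
  ∑ d ∈ Icc 1 D, ∑ e ∈ Icc 1 E, lamc D d * lamc E e * ((Nat.lcm d e : ℕ) : ℝ) ^ (-s)

lemma BF_diag (D E : ℕ) (s : ℝ) : BF D E s =
    ∑ k ∈ (Icc 1 (max D E)).filter Squarefree, Jf s k * (Tk D s k * Tk E s k) := by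
  have h1 : ∀ d ∈ Icc 1 D, ∀ e ∈ Icc 1 E, lamc D d * lamc E e * ((Nat.lcm d e : ℕ) : ℝ) ^ (-s) =
      ∑ k ∈ (Icc 1 (max D E)).filter Squarefree, Jf s k * ((if k ∣ d then lamc D d * (d : ℝ) ^ (-s) else 0) *
        (if k ∣ e then lamc E e * (e : ℝ) ^ (-s) else 0)) := by
    intro d hd e he
    rw [mem_Icc] at hd he
    by_cases hds : Squarefree d
    swap
    · rw [lamc_zero hds]; simp
    by_cases hes : Squarefree e
    swap
    · rw [lamc_zero hes]; simp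
    have hd0 : (0 : ℝ) < d := by exact_mod_cast hd.1
    have he0 : (0 : ℝ) < e := by exact_mod_cast he.1
    have hg : Squarefree (Nat.gcd d e) := hds.squarefree_of_dvd (Nat.gcd_dvd_left d e)
    have hg0 : 0 < Nat.gcd d e := Nat.gcd_pos_of_pos_left _ hd.1
    have hg0' : (0 : ℝ) < ((Nat.gcd d e : ℕ) : ℝ) := by exact_mod_cast hg0
    have hl0 : (0 : ℝ) < ((Nat.lcm d e : ℕ) : ℝ) := by exact_mod_cast Nat.lcm_pos hd.1 he.1
    have e1 : ((Nat.lcm d e : ℕ) : ℝ) ^ (-s) = (d : ℝ) ^ (-s) * (e : ℝ) ^ (-s) * ((Nat.gcd d e : ℕ) : ℝ) ^ s := by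
      have h2 : ((Nat.gcd d e : ℕ) : ℝ) * ((Nat.lcm d e : ℕ) : ℝ) = d * e := by
        exact_mod_cast Nat.gcd_mul_lcm d e
      have h3 : (((Nat.gcd d e : ℕ) : ℝ) * ((Nat.lcm d e : ℕ) : ℝ)) ^ (-s) = ((d : ℝ) * e) ^ (-s) := by
        rw [h2]
      rw [Real.mul_rpow hg0'.le hl0.le, Real.mul_rpow hd0.le he0.le] at h3
      rw [← h3, Real.rpow_neg hg0'.le]
      have := Real.rpow_pos_of_pos hg0' s
      field_simp
    rw [e1, sum_Jf s hg]
    have e2 : ∑ k ∈ (Icc 1 (max D E)).filter Squarefree, Jf s k * ((if k ∣ d then lamc D d * (d : ℝ) ^ (-s) else 0) *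
        (if k ∣ e then lamc E e * (e : ℝ) ^ (-s) else 0)) =
        ∑ k ∈ (Nat.gcd d e).divisors, Jf s k * ((lamc D d * (d : ℝ) ^ (-s)) * (lamc E e * (e : ℝ) ^ (-s))) := by
      symm
      rw [← sum_subset (s₁ := (Nat.gcd d e).divisors) (s₂ := (Icc 1 (max D E)).filter Squarefree)]
      · apply sum_congr rfl
        intro k hk
        rw [Nat.mem_divisors, Nat.dvd_gcd_iff] at hk
        rw [if_pos hk.1.1, if_pos hk.1.2]
      · intro k hk
        rw [Nat.mem_divisors] at hk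
        have h5 : k ∣ d := hk.1.trans (Nat.gcd_dvd_left d e)
        rw [mem_filter, mem_Icc]
        exact ⟨⟨Nat.pos_of_dvd_of_pos h5 hd.1, ((Nat.le_of_dvd hd.1 h5).trans hd.2).trans (le_max_left _ _)⟩,
          hds.squarefree_of_dvd h5⟩
      · intro k _ hk
        rw [Nat.mem_divisors, Nat.dvd_gcd_iff] at hk
        by_cases h5 : k ∣ d
        · have h6 : ¬ k ∣ e := fun h6 => hk ⟨⟨h5, h6⟩, hg0.ne'⟩
          rw [if_neg h6]; ring
        · rw [if_neg h5]; ring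
    rw [e2, ← sum_mul]
    ring
  unfold BF
  rw [sum_congr rfl fun d hd => sum_congr rfl fun e he => h1 d hd e he]
  have h2 : ∀ D k, Tk D s k = ∑ d ∈ Icc 1 D, if k ∣ d then lamc D d * (d : ℝ) ^ (-s) else 0 := by
    intro D k
    unfold Tk
    rw [sum_filter]
  rw [sum_congr rfl fun d _ => sum_comm, sum_comm]
  apply sum_congr rfl
  intro k _
  rw [h2, h2, sum_mul_sum, mul_sum]
  apply sum_congr rfl
  intro d _
  rw [mul_sum]

lemma QF_diag' (D M : ℕ) (hM : D ≤ M) (s : ℝ) : QF D s =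
    ∑ k ∈ (Icc 1 M).filter Squarefree, Jf s k * Tk D s k ^ 2 := by
  rw [QF_diag]
  apply sum_subset
  · intro k hk
    rw [mem_filter, mem_Icc] at hk ⊢
    exact ⟨⟨hk.1.1, hk.1.2.trans hM⟩, hk.2⟩
  · intro k hk hk'
    rw [mem_filter, mem_Icc] at hk
    rw [mem_filter, mem_Icc] at hk'
    have h1 : D < k := by
      by_contra hc
      exact hk' ⟨⟨hk.1.1, not_lt.1 hc⟩, hk.2⟩
    have h2 : Tk D s k = 0 := by
      unfold Tk
      have : (Icc 1 D).filter (fun d => k ∣ d) = ∅ := by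
        apply filter_eq_empty_iff.2
        intro d hd hkd
        rw [mem_Icc] at hd
        have := Nat.le_of_dvd (by omega) hkd
        omega
      rw [this, sum_empty]
    rw [h2]
    ring

lemma BF_le (D E : ℕ) : (BF D E 1) ^ 2 ≤ QF D 1 * QF E 1 := by
  rw [BF_diag, QF_diag' D (max D E) (le_max_left _ _), QF_diag' E (max D E) (le_max_right _ _)]
  set K := (Icc 1 (max D E)).filter Squarefree with hK
  have hJ : ∀ k ∈ K, 0 ≤ Jf 1 k := by
    intro k hk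
    exact Jf_nonneg zero_le_one (mem_filter.1 hk).2.ne_zero
  have h1 : ∑ k ∈ K, Jf 1 k * (Tk D 1 k * Tk E 1 k) =
      ∑ k ∈ K, (Real.sqrt (Jf 1 k) * Tk D 1 k) * (Real.sqrt (Jf 1 k) * Tk E 1 k) := by
    apply sum_congr rfl
    intro k hk
    have := Real.mul_self_sqrt (hJ k hk)
    calc Jf 1 k * (Tk D 1 k * Tk E 1 k) = (Real.sqrt (Jf 1 k) * Real.sqrt (Jf 1 k)) * (Tk D 1 k * Tk E 1 k) := by
          rw [this]
      _ = _ := by ring
  have h2 : ∀ D, ∑ k ∈ K, Jf 1 k * Tk D 1 k ^ 2 = ∑ k ∈ K, (Real.sqrt (Jf 1 k) * Tk D 1 k) ^ 2 := by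
    intro D
    apply sum_congr rfl
    intro k hk
    rw [mul_pow, Real.sq_sqrt (hJ k hk)]
  rw [h1, h2, h2]
  exact sum_mul_sq_le_sq_mul_sq _ _ _

lemma Gbar_eq {D1 D2 R : ℕ} (hD : D1 < D2) :
    Gbar D1 D2 R = (BF D2 R 1 - BF D1 R 1) / (Real.log ((D2 : ℝ) / D1) * Real.log R) := by
  have h1 : BF D1 R 1 = ∑ d ∈ Icc 1 D2, ∑ e ∈ Icc 1 R, (if d ≤ D1 then lamc D1 d else 0) * lamc R e *
      ((Nat.lcm d e : ℕ) : ℝ) ^ (-(1 : ℝ)) := by
    unfold BF
    have h2 : Icc 1 D1 = (Icc 1 D2).filter (fun d => d ≤ D1) := by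
      ext d; simp only [mem_Icc, mem_filter]; omega
    rw [h2, sum_filter]
    apply sum_congr rfl
    intro d _
    split_ifs
    · rfl
    · simp
  rw [h1]
  unfold Gbar BF lam1 lam2
  rw [← sum_sub_distrib, sum_div]
  apply sum_congr rfl
  intro d _
  rw [← sum_sub_distrib, sum_div]
  apply sum_congr rfl
  intro e _
  ring

/-- the bound for the mean value of the weights -/
lemma Gbar_le {C : ℝ} (hC : 0 < C) (hQ : ∀ D : ℕ, 2 ≤ D → QF D 1 ≤ C * Real.log D)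
    {D1 D2 R : ℕ} (hD1 : 2 ≤ D1) (hD : D1 < D2) (hR : 2 ≤ R) :
    |Gbar D1 D2 R| ≤ 2 * C * Real.sqrt (Real.log D2 * Real.log R) / (Real.log ((D2 : ℝ) / D1) * Real.log R) := by
  have h1 : (0 : ℝ) < D1 := by exact_mod_cast (by omega : 0 < D1)
  have h2 : (D1 : ℝ) < D2 := by exact_mod_cast hD
  have h4 : 0 < Real.log ((D2 : ℝ) / D1) := Real.log_pos (by rw [lt_div_iff₀ h1]; linarith)
  have h5 : 0 < Real.log R := Real.log_pos (by exact_mod_cast (by omega : 1 < R))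
  have h6 : 0 < Real.log D2 := Real.log_pos (by exact_mod_cast (by omega : 1 < D2))
  have h7 : Real.log D1 ≤ Real.log D2 := Real.log_le_log h1 h2.le
  rw [Gbar_eq hD, abs_div, abs_of_pos (mul_pos h4 h5)]
  apply div_le_div_of_nonneg_right _ (mul_pos h4 h5).le
  have hb : ∀ D : ℕ, 2 ≤ D → Real.log D ≤ Real.log D2 → |BF D R 1| ≤ C * Real.sqrt (Real.log D2 * Real.log R) := by
    intro D hD hDD
    have h8 := BF_le D R
    have hlD : 0 < Real.log D := Real.log_pos (by exact_mod_cast (by omega : 1 < D))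
    have h9 : QF D 1 * QF R 1 ≤ (C * Real.log D2) * (C * Real.log R) := by
      have h10 := hQ D hD
      have h11 := hQ R hR
      have h12 : 0 ≤ QF R 1 := by
        rw [QF_diag]
        exact sum_nonneg fun k hk => mul_nonneg (Jf_nonneg zero_le_one (mem_filter.1 hk).2.ne_zero) (sq_nonneg _)
      have h13 : QF D 1 ≤ C * Real.log D2 := h10.trans (mul_le_mul_of_nonneg_left hDD hC.le)
      exact mul_le_mul h13 h11 h12 (by positivity)
    rw [← Real.sqrt_sq_eq_abs]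
    calc Real.sqrt (BF D R 1 ^ 2) ≤ Real.sqrt ((C * Real.log D2) * (C * Real.log R)) :=
          Real.sqrt_le_sqrt (h8.trans h9)
      _ = C * Real.sqrt (Real.log D2 * Real.log R) := by
          rw [show (C * Real.log D2) * (C * Real.log R) = C ^ 2 * (Real.log D2 * Real.log R) by ring,
            Real.sqrt_mul (sq_nonneg _), Real.sqrt_sq hC.le]
  have h8 := hb D2 (by omega) le_rfl
  have h9 := hb D1 hD1 h7
  calc |BF D2 R 1 - BF D1 R 1| ≤ |BF D2 R 1| + |BF D1 R 1| := abs_sub _ _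
    _ ≤ _ := by linarith

lemma dsum_lam1_eq {D1 D2 : ℕ} (hD : D1 < D2) (n : ℕ) : dsum D2 (lam1 D1 D2) n =
    (dsum D2 (lamc D2) n - dsum D1 (lamc D1) n) / Real.log ((D2 : ℝ) / D1) := by
  rw [dsum_eq, dsum_eq, dsum_eq]
  have h1 : ∑ d ∈ Icc 1 D1, (if d ∣ n then lamc D1 d else 0) =
      ∑ d ∈ Icc 1 D2, if d ∣ n then (if d ≤ D1 then lamc D1 d else 0) else 0 := by
    have h2 : Icc 1 D1 = (Icc 1 D2).filter (fun d => d ≤ D1) := by
      ext d; simp only [mem_Icc, mem_filter]; omega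
    rw [h2, sum_filter]
    apply sum_congr rfl
    intro d _
    split_ifs <;> rfl
  rw [h1, ← sum_sub_distrib, sum_div]
  apply sum_congr rfl
  intro d _
  unfold lam1
  split_ifs <;> simp

/-- the logarithmic second moment of the first weights -/
lemma sum_lam1_sq {C : ℝ} (hC : 0 < C) (hS1 : ∀ D X : ℕ, 2 ≤ D → D ≤ X →
    ∑ n ∈ Icc 1 X, dsum D (lamc D) n ^ 2 / n ≤ C * Real.log D * Real.log X)
    {D1 D2 X : ℕ} (hD1 : 2 ≤ D1) (hD : D1 < D2) (hX : D2 ≤ X) :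
    ∑ n ∈ Icc 1 X, dsum D2 (lam1 D1 D2) n ^ 2 / n ≤
      4 * C * Real.log D2 * Real.log X / Real.log ((D2 : ℝ) / D1) ^ 2 := by
  have h1 : (0 : ℝ) < D1 := by exact_mod_cast (by omega : 0 < D1)
  have h2 : (D1 : ℝ) < D2 := by exact_mod_cast hD
  have h4 : 0 < Real.log ((D2 : ℝ) / D1) := Real.log_pos (by rw [lt_div_iff₀ h1]; linarith)
  have h7 : Real.log D1 ≤ Real.log D2 := Real.log_le_log h1 h2.le
  have hlX : 0 ≤ Real.log X := Real.log_natCast_nonneg X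
  have h5 : ∀ n ∈ Icc 1 X, dsum D2 (lam1 D1 D2) n ^ 2 / n ≤
      (2 / Real.log ((D2 : ℝ) / D1) ^ 2) * (dsum D2 (lamc D2) n ^ 2 / n + dsum D1 (lamc D1) n ^ 2 / n) := by
    intro n _
    rw [dsum_lam1_eq hD, div_pow]
    have h6 : (dsum D2 (lamc D2) n - dsum D1 (lamc D1) n) ^ 2 ≤
        2 * (dsum D2 (lamc D2) n ^ 2 + dsum D1 (lamc D1) n ^ 2) := by
      nlinarith [sq_nonneg (dsum D2 (lamc D2) n + dsum D1 (lamc D1) n)]
    calc (dsum D2 (lamc D2) n - dsum D1 (lamc D1) n) ^ 2 / Real.log ((D2 : ℝ) / D1) ^ 2 / n ≤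
        (2 * (dsum D2 (lamc D2) n ^ 2 + dsum D1 (lamc D1) n ^ 2)) / Real.log ((D2 : ℝ) / D1) ^ 2 / n := by
          gcongr
      _ = _ := by ring
  refine (sum_le_sum h5).trans ?_
  rw [← mul_sum, sum_add_distrib]
  have h8 := hS1 D2 X (by omega) hX
  have h9 := hS1 D1 X hD1 (by omega)
  have h10 : C * Real.log D1 * Real.log X ≤ C * Real.log D2 * Real.log X := by gcongr
  calc 2 / Real.log ((D2 : ℝ) / D1) ^ 2 * (∑ n ∈ Icc 1 X, dsum D2 (lamc D2) n ^ 2 / (n : ℝ) +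
        ∑ n ∈ Icc 1 X, dsum D1 (lamc D1) n ^ 2 / (n : ℝ)) ≤
      2 / Real.log ((D2 : ℝ) / D1) ^ 2 * (2 * (C * Real.log D2 * Real.log X)) := by
        apply mul_le_mul_of_nonneg_left _ (by positivity)
        linarith
    _ = _ := by ring

/-- the point on the line -/
noncomputable def sp (η ξ : ℝ) : ℂ := ⟨1 - η, 2 * π * ξ⟩

lemma sp_re (η ξ : ℝ) : (sp η ξ).re = 1 - η := rfl

lemma sp_im (η ξ : ℝ) : (sp η ξ).im = 2 * π * ξ := rfl

lemma sp_cont (η : ℝ) : Continuous (sp η) := by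
  have : sp η = fun ξ : ℝ => ((1 - η : ℝ) : ℂ) + ((2 * π * ξ : ℝ) : ℂ) * Complex.I := by
    ext ξ
    unfold sp
    apply Complex.ext <;> simp
  rw [this]
  fun_prop

lemma natpow_sp {n : ℕ} (hn : 0 < n) (η ξ : ℝ) : (n : ℂ) ^ (-(sp η ξ)) =
    (((n : ℝ) ^ (-(1 - η)) : ℝ) : ℂ) * Complex.exp (-(((2 * π * ξ * Real.log n : ℝ) : ℂ) * Complex.I)) := by
  have hnc : (n : ℂ) ≠ 0 := by exact_mod_cast hn.ne'
  have e : -(sp η ξ) = ((-(1 - η) : ℝ) : ℂ) + -(((2 * π * ξ : ℝ) : ℂ) * Complex.I) := by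
    unfold sp
    apply Complex.ext <;> simp
  rw [e, Complex.cpow_add _ _ hnc, Complex.ofReal_cpow (Nat.cast_nonneg n), Complex.ofReal_natCast]
  congr 1
  rw [Complex.cpow_def_of_ne_zero hnc, ← Complex.natCast_log]
  congr 1
  push_cast
  ring

end Pool.Agent.Helper86.PS
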