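import Pool.Agent.Helper86.PS.MV2

set_option autoImplicit false

/-!
# The mean value of `1 - Z`, main statement
-/

open Finset ArithmeticFunction MeasureTheory
open scoped Real

namespace Pool.Agent.Helper86.PS

open Pool.Agent.W66L

lemma dsum_lam2_eq (R n : ℕ) : dsum R (lam2 R) n = dsum R (lamc R) n / Real.log R := by
  unfold dsum lam2
  rw [sum_div]

/-- the coefficients on the line `1 - η` -/
noncomputable def uu (D1 D2 R : ℕ) (η : ℝ) (n : ℕ) : ℂ :=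
  ((dsum D2 (lam1 D1 D2) n * (n : ℝ) ^ (-(1 - η)) / Real.log R : ℝ) : ℂ)

lemma moll_diff (D1 D2 R : ℕ) (j : PC) (hD2 : 1 ≤ D2) : Differentiable ℂ (moll D1 D2 R j) := by
  unfold moll
  apply Differentiable.fun_sum
  intro d hd
  apply Differentiable.fun_sum
  intro e he
  apply Differentiable.const_mul
  apply Differentiable.const_mul
  intro s
  have hl : 0 < Nat.lcm d e := Nat.lcm_pos (mem_Icc.1 hd).1 (mem_Icc.1 he).1
  exact (differentiableAt_id.neg).const_cpow (Or.inl (by exact_mod_cast hl.ne'))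

lemma ZZ_diff {D1 D2 R : ℕ} (j : PC) (hD2 : 1 ≤ D2) {s : ℂ} (hs : s ≠ 1 ∨ j.2 ≠ 1) :
    DifferentiableAt ℂ (ZZ D1 D2 R j) s := by
  unfold ZZ
  exact (DirichletCharacter.differentiableAt_LFunction j.2 s hs).mul ((moll_diff D1 D2 R j hD2) s)

lemma sp_ne_one {η : ℝ} (hη : 0 < η) (ξ : ℝ) : sp η ξ ≠ 1 := by
  intro h
  have := congrArg Complex.re h
  rw [sp_re, Complex.one_re] at this
  linarith

lemma ZZ_cont {D1 D2 R : ℕ} (j : PC) (hD2 : 1 ≤ D2) {η : ℝ} (hη : 0 < η) :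
    Continuous fun ξ => ZZ D1 D2 R j (sp η ξ) := by
  rw [continuous_iff_continuousAt]
  intro ξ
  exact ContinuousAt.comp (g := ZZ D1 D2 R j) (f := sp η) (ZZ_diff j hD2 (Or.inl (sp_ne_one hη ξ))).continuousAt
    (sp_cont η).continuousAt

lemma trivial_fam {Q : ℕ} {j : PC} (hj : j ∈ fam Q) (h1 : j.2 = 1) : j = ⟨0, 1⟩ := by
  obtain ⟨k, χ⟩ := j
  rw [mem_fam] at hj
  simp only at h1 hj
  have h2 : (1 : DirichletCharacter ℂ (k + 1)).conductor = 1 := DirichletCharacter.conductor_one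
  have h3 : (1 : DirichletCharacter ℂ (k + 1)).conductor = k + 1 := by
    have h5 : χ.conductor = k + 1 := hj.2
    rw [h1] at h5
    exact h5
  have h4 : k = 0 := by omega
  subst h4
  rw [h1]

/-- the truncated sum -/
lemma sum_split {D1 D2 R X : ℕ} (hD1 : 1 ≤ D1) (hD : D1 < D2) (hR : 2 ≤ R) (hX : D1 ≤ X) (j : PC) (η ξ : ℝ) :
    ∑ n ∈ Icc 1 X, ((cc D1 D2 R n : ℝ) : ℂ) * (fn j n * (n : ℂ) ^ (-(sp η ξ))) =
      1 + dpol (Ioc D1 X) (fun n => uu D1 D2 R η n * ((dsum R (lamc R) n : ℝ) : ℂ) * fn j n) ξ := by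
  have h1 : Icc 1 X = Icc 1 D1 ∪ Ioc D1 X := by
    ext n; simp only [mem_union, mem_Icc, mem_Ioc]; omega
  have h2 : Disjoint (Icc 1 D1) (Ioc D1 X) := by
    rw [disjoint_left]
    intro n hn hn'
    rw [mem_Icc] at hn
    rw [mem_Ioc] at hn'
    omega
  rw [h1, sum_union h2]
  congr 1
  · rw [sum_eq_single 1]
    · rw [cc_one hD1 hD hR, fn_one]
      simp
    · intro n hn hn1
      rw [mem_Icc] at hn
      rw [cc_low hD1 hD (by omega) hn.2]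
      simp
    · intro h
      exact absurd (mem_Icc.2 ⟨le_rfl, hD1⟩) h
  · unfold dpol
    apply sum_congr rfl
    intro n hn
    rw [mem_Ioc] at hn
    rw [natpow_sp (by omega)]
    unfold cc uu
    rw [dsum_lam2_eq]
    push_cast
    ring

lemma pole_int {η Ξ : ℝ} (hη : 0 < η) (hΞ : 0 ≤ Ξ) :
    ∫ ξ in (-Ξ)..Ξ, 1 / (η ^ 2 + ξ ^ 2) ≤ 4 / η := by
  have h1 : ∀ ξ : ℝ, 1 / (η ^ 2 + ξ ^ 2) = (1 / η ^ 2) * (1 + (ξ / η) ^ 2)⁻¹ := by
    intro ξ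
    have h2 : (1 : ℝ) + (ξ / η) ^ 2 = (η ^ 2 + ξ ^ 2) / η ^ 2 := by field_simp
    rw [h2, inv_div]
    field_simp
  simp only [h1]
  rw [intervalIntegral.integral_const_mul, intervalIntegral.integral_comp_div (fun x => (1 + x ^ 2)⁻¹) hη.ne',
    integral_inv_one_add_sq, smul_eq_mul]
  have h3 := Real.arctan_lt_pi_div_two (Ξ / η)
  have h4 := Real.neg_pi_div_two_lt_arctan (-Ξ / η)
  have h5 := Real.pi_lt_four
  calc 1 / η ^ 2 * (η * (Real.arctan (Ξ / η) - Real.arctan (-Ξ / η))) ≤ 1 / η ^ 2 * (η * 4) := by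
        gcongr
        linarith
    _ = 4 / η := by field_simp

lemma sp_norm {η ξ Ξ : ℝ} (hη : 0 < η) (hη1 : η ≤ 1) (hξ : |ξ| ≤ Ξ) (hΞ : 1 ≤ Ξ) : ‖sp η ξ‖ ≤ 8 * Ξ := by
  refine (Complex.norm_le_abs_re_add_abs_im _).trans ?_
  rw [sp_re, sp_im, abs_of_nonneg (by linarith), abs_mul, abs_of_pos (by positivity : (0 : ℝ) < 2 * π)]
  have h1 := Real.pi_lt_d2
  have h2 := abs_nonneg ξ
  have h3 := Real.pi_pos
  nlinarith

lemma half_pow (Q c : ℕ) (hQ : 1 ≤ Q) : (((Q ^ (2 * c) : ℕ) : ℝ) / 2) ^ (-(1 / 2 : ℝ)) ≤ 2 / (Q : ℝ) ^ c := by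
  have hQ0 : (0 : ℝ) < (Q : ℝ) ^ c := by positivity
  rw [Real.rpow_neg (by positivity), ← Real.sqrt_eq_rpow]
  have h1 : (Q : ℝ) ^ c / 2 ≤ Real.sqrt (((Q ^ (2 * c) : ℕ) : ℝ) / 2) := by
    apply Real.le_sqrt_of_sq_le
    push_cast
    rw [pow_mul' (Q : ℝ) 2 c]
    nlinarith [sq_nonneg ((Q : ℝ) ^ c)]
  calc (Real.sqrt (((Q ^ (2 * c) : ℕ) : ℝ) / 2))⁻¹ ≤ ((Q : ℝ) ^ c / 2)⁻¹ := inv_anti₀ (by positivity) h1
    _ = 2 / (Q : ℝ) ^ c := by rw [inv_div]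

/-- the parameters -/
def pa (τ : ℕ) : ℕ := τ + 9

/-- the exponent of the truncation -/
def pb (τ : ℕ) : ℕ := 2 * (4 * τ + 30)

/-- the mollified L-function with the fixed parameters -/
noncomputable def ZQ (τ Q : ℕ) (j : PC) (s : ℂ) : ℂ := ZZ (Q ^ pa τ) (Q ^ (2 * pa τ)) Q j s

theorem MVmain : ∃ K : ℝ, 0 < K ∧ ∀ (τ Q : ℕ) (η : ℝ), 3 ≤ Q → 0 < η → η ≤ 1 / 4 →
    ∑ j ∈ fam Q, ∫ ξ in (-(Q : ℝ) ^ τ)..((Q : ℝ) ^ τ), ‖1 - ZQ τ Q j (sp η ξ)‖ ^ 2 ≤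
      K * (((Q : ℝ) ^ pb τ) ^ (2 * η) * (1 + 1 / (η * Real.log Q)) / Real.log Q) := by
  obtain ⟨C1, hC1, hS1⟩ := exists_S1
  obtain ⟨C2, hC2, hS2⟩ := exists_S2
  obtain ⟨C3, hC3, hQF⟩ := exists_QF
  have hQF1 : ∀ D : ℕ, 2 ≤ D → QF D 1 ≤ C3 * Real.log D := by
    intro D hD
    have := hQF D hD 0 le_rfl (by simp)
    rwa [add_zero] at this
  refine ⟨3 * (256 * C1 * (6 * C2 + 8) + 2 + 32 * C3 ^ 2), by positivity, fun τ Q η hQ hη hη1 => ?_⟩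
  have hQ3 : (3 : ℝ) ≤ Q := by exact_mod_cast hQ
  have hQ0 : (0 : ℝ) < Q := by linarith
  have hQ1 : (1 : ℝ) ≤ Q := by linarith
  set ℓ : ℝ := Real.log Q with hℓ
  have hℓ1 : 1 ≤ ℓ := by
    rw [hℓ, Real.le_log_iff_exp_le hQ0]
    linarith [Real.exp_one_lt_d9]
  have hℓQ : ℓ ≤ Q := (Real.log_le_sub_one_of_pos hQ0).trans (by linarith)
  set Ξ : ℝ := (Q : ℝ) ^ τ with hΞ
  have hΞ1 : 1 ≤ Ξ := one_le_pow₀ hQ1
  have hΞ0 : 0 < Ξ := by linarith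
  set D1 : ℕ := Q ^ pa τ with hD1d
  set D2 : ℕ := Q ^ (2 * pa τ) with hD2d
  set X : ℕ := Q ^ pb τ with hXd
  have hQ1n : 1 < Q := by omega
  have hD12 : D1 < D2 := Nat.pow_lt_pow_right hQ1n (by unfold pa; omega)
  have hD1 : 2 ≤ D1 := by
    calc 2 ≤ Q ^ 1 := by rw [pow_one]; omega
      _ ≤ D1 := Nat.pow_le_pow_right (by omega) (by unfold pa; omega)
  have hDX : D2 * Q ≤ X := by
    rw [hD2d, hXd, ← pow_succ]
    exact Nat.pow_le_pow_right (by omega) (by unfold pa pb; omega)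
  have hD2X : D2 ≤ X := (Nat.le_mul_of_pos_right D2 (by omega)).trans hDX
  have hlD2 : Real.log D2 = 2 * (pa τ : ℝ) * ℓ := by
    rw [hD2d]; push_cast; rw [Real.log_pow]; push_cast; ring
  have hlX : Real.log X = (pb τ : ℝ) * ℓ := by
    rw [hXd]; push_cast; rw [Real.log_pow]
  have hpa : (1 : ℝ) ≤ (pa τ : ℝ) := by unfold pa; push_cast; linarith [(Nat.cast_nonneg τ : (0 : ℝ) ≤ τ)]
  have hlD : Real.log ((D2 : ℝ) / D1) = (pa τ : ℝ) * ℓ := by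
    have h1 : (D2 : ℝ) / D1 = (Q : ℝ) ^ pa τ := by
      rw [hD2d, hD1d]
      push_cast
      rw [two_mul, pow_add]
      field_simp
    rw [h1, Real.log_pow]
  set c : ℕ := 4 * τ + 30 with hc
  have hXhalf : ((X : ℝ) / 2) ^ (-(1 / 2 : ℝ)) ≤ 2 / (Q : ℝ) ^ c := by
    have := half_pow Q c (by omega)
    rw [hXd]
    exact this
  -- the pole term
  set G := Gbar D1 D2 Q with hG
  have hG2 : G ^ 2 ≤ 8 * C3 ^ 2 / ℓ ^ 2 := by
    have h1 := Gbar_le hC3 hQF1 hD1 hD12 (R := Q) (by omega)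
    rw [hlD2, hlD] at h1
    have h2 : |G| ≤ 2 * C3 * Real.sqrt (2 * (pa τ : ℝ) * ℓ * ℓ) / ((pa τ : ℝ) * ℓ * ℓ) := h1
    have h3 : |G| ^ 2 ≤ (2 * C3 * Real.sqrt (2 * (pa τ : ℝ) * ℓ * ℓ) / ((pa τ : ℝ) * ℓ * ℓ)) ^ 2 :=
      pow_le_pow_left₀ (abs_nonneg _) h2 2
    rw [sq_abs] at h3
    refine h3.trans ?_
    rw [div_pow, mul_pow, Real.sq_sqrt (by positivity)]
    have hℓ0 : 0 < ℓ := by linarith
    have hp0 : (0 : ℝ) < (pa τ : ℝ) := by linarith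
    rw [div_le_div_iff₀ (by positivity) (by positivity)]
    have h4 : (2 * C3) ^ 2 * (2 * (pa τ : ℝ) * ℓ * ℓ) * ℓ ^ 2 = (8 * C3 ^ 2 * ℓ ^ 4) * (pa τ : ℝ) := by ring
    have h5 : 8 * C3 ^ 2 * ((pa τ : ℝ) * ℓ * ℓ) ^ 2 = (8 * C3 ^ 2 * ℓ ^ 4) * (pa τ : ℝ) ^ 2 := by ring
    rw [h4, h5]
    apply mul_le_mul_of_nonneg_left _ (by positivity)
    nlinarith
  set Pl : PC → ℝ → ℂ := fun j ξ => if j.2 = 1 then ((G : ℝ) : ℂ) * ((X : ℂ) ^ (1 - sp η ξ) / (sp η ξ - 1)) else 0 with hPl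
  set dp : PC → ℝ → ℂ := fun j ξ =>
    dpol (Ioc D1 X) (fun n => uu D1 D2 Q η n * ((dsum Q (lamc Q) n : ℝ) : ℂ) * fn j n) ξ with hdp
  -- the pointwise bound
  have hpt : ∀ j ∈ fam Q, ∀ ξ : ℝ, |ξ| ≤ Ξ →
      ‖1 - ZQ τ Q j (sp η ξ)‖ ^ 2 ≤ 3 * ‖dp j ξ‖ ^ 2 + 3 * ‖Pl j ξ‖ ^ 2 + 3 * (1 / (Q : ℝ) ^ (τ + 6)) ^ 2 := by
    intro j hj ξ hξ
    have hs : (1 : ℝ) / 2 ≤ (sp η ξ).re := by rw [sp_re]; linarith
    have hn := sp_norm hη (by linarith) hξ hΞ1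
    have hsplit := sum_split (R := Q) (by omega : 1 ≤ D1) hD12 (by omega) (by omega : D1 ≤ X) j η ξ
    have herr : ‖ZQ τ Q j (sp η ξ) - (1 + dp j ξ) - Pl j ξ‖ ≤ 1 / (Q : ℝ) ^ (τ + 6) := by
      have hfin : (D2 : ℝ) * Q * ((2 * (8 * Ξ) + 1) * (Q : ℝ) * (2 / (Q : ℝ) ^ c)) ≤ 1 / (Q : ℝ) ^ (τ + 6) := by
        have e1 : (2 * (8 * Ξ) + 1) ≤ 17 * Ξ := by linarith
        have e2 : (D2 : ℝ) * Q * ((17 * Ξ) * (Q : ℝ) * (2 / (Q : ℝ) ^ c)) = 34 / (Q : ℝ) ^ (τ + 10) := by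
          rw [hD2d, hΞ, hc]
          unfold pa
          push_cast
          have : (Q : ℝ) ^ (4 * τ + 30) = (Q : ℝ) ^ (2 * (τ + 9)) * Q * (Q : ℝ) ^ τ * Q * (Q : ℝ) ^ (τ + 10) := by
            rw [← pow_succ, ← pow_add, ← pow_succ, ← pow_add]
            congr 1
            ring
          rw [this]
          field_simp
          norm_num
        calc (D2 : ℝ) * Q * ((2 * (8 * Ξ) + 1) * (Q : ℝ) * (2 / (Q : ℝ) ^ c)) ≤
            (D2 : ℝ) * Q * ((17 * Ξ) * (Q : ℝ) * (2 / (Q : ℝ) ^ c)) := by gcongr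
          _ = 34 / (Q : ℝ) ^ (τ + 10) := e2
          _ ≤ 1 / (Q : ℝ) ^ (τ + 6) := by
            rw [div_le_div_iff₀ (by positivity) (by positivity), one_mul]
            have : (Q : ℝ) ^ (τ + 10) = (Q : ℝ) ^ 4 * (Q : ℝ) ^ (τ + 6) := by
              rw [← pow_add]; congr 1; ring
            rw [this]
            apply mul_le_mul_of_nonneg_right _ (by positivity)
            calc (34 : ℝ) ≤ 3 ^ 4 := by norm_num
              _ ≤ (Q : ℝ) ^ 4 := pow_le_pow_left₀ (by norm_num) hQ3 4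
      by_cases hj1 : j.2 = 1
      · have hj0 := trivial_fam hj hj1
        have h1 := trunc_zeta (R := Q) (by omega : 1 ≤ D1) hD12 (by omega) hDX hs (sp_ne_one hη ξ)
        rw [hj0] at hsplit
        rw [hsplit] at h1
        have e1 : Pl j ξ = ((G : ℝ) : ℂ) * ((X : ℂ) ^ (1 - sp η ξ) / (sp η ξ - 1)) := by
          simp only [hPl, if_pos hj1]
        rw [e1, hj0]
        refine h1.trans (le_trans ?_ hfin)
        have hr : ((X : ℝ) / 2) ^ (-(1 / 2 : ℝ)) ≤ (Q : ℝ) * (2 / (Q : ℝ) ^ c) := by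
          refine hXhalf.trans ?_
          have : 0 ≤ 2 / (Q : ℝ) ^ c := by positivity
          nlinarith
        calc (D2 : ℝ) * Q * ((2 * ‖sp η ξ‖ + 1) * ((X : ℝ) / 2) ^ (-(1 / 2 : ℝ))) ≤
            (D2 : ℝ) * Q * ((2 * (8 * Ξ) + 1) * ((Q : ℝ) * (2 / (Q : ℝ) ^ c))) := by gcongr
          _ = _ := by ring
      · have h1 := trunc_char (R := Q) (by omega : 1 ≤ D1) hD12 (by omega) hDX hj1 hs
        rw [hsplit] at h1
        have e1 : Pl j ξ = 0 := by simp only [hPl, if_neg hj1]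
        rw [e1, sub_zero]
        refine h1.trans (le_trans ?_ hfin)
        have hjQ : (j.1 : ℝ) + 1 ≤ Q := by exact_mod_cast (mem_fam.1 hj).1
        calc (D2 : ℝ) * Q * (2 * ‖sp η ξ‖ * (j.1 + 1) * ((X : ℝ) / 2) ^ (-(1 / 2 : ℝ))) ≤
            (D2 : ℝ) * Q * ((2 * (8 * Ξ) + 1) * Q * (2 / (Q : ℝ) ^ c)) := by
              gcongr
              linarith
          _ = _ := by ring
    have h2 : ‖1 - ZQ τ Q j (sp η ξ)‖ ≤ ‖dp j ξ‖ + ‖Pl j ξ‖ + 1 / (Q : ℝ) ^ (τ + 6) := by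
      have e1 : 1 - ZQ τ Q j (sp η ξ) = -(dp j ξ) - Pl j ξ - (ZQ τ Q j (sp η ξ) - (1 + dp j ξ) - Pl j ξ) := by ring
      rw [e1]
      refine (norm_sub_le _ _).trans (add_le_add ?_ herr)
      refine (norm_sub_le _ _).trans (add_le_add ?_ le_rfl)
      rw [norm_neg]
    calc ‖1 - ZQ τ Q j (sp η ξ)‖ ^ 2 ≤ (‖dp j ξ‖ + ‖Pl j ξ‖ + 1 / (Q : ℝ) ^ (τ + 6)) ^ 2 :=
          pow_le_pow_left₀ (norm_nonneg _) h2 2
      _ ≤ _ := by
          nlinarith [sq_nonneg (‖dp j ξ‖ - ‖Pl j ξ‖), sq_nonneg (‖dp j ξ‖ - 1 / (Q : ℝ) ^ (τ + 6)),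
            sq_nonneg (‖Pl j ξ‖ - 1 / (Q : ℝ) ^ (τ + 6))]
  set Y : ℝ := ((Q : ℝ) ^ pb τ) ^ (2 * η) with hY
  have hY1 : 1 ≤ Y := Real.one_le_rpow (one_le_pow₀ hQ1) (by linarith)
  have hℓ0 : 0 < ℓ := by linarith
  -- the pole term
  have hPl2 : ∀ j ξ, ‖Pl j ξ‖ ^ 2 ≤ if j.2 = 1 then (8 * C3 ^ 2 / ℓ ^ 2) * Y * (1 / (η ^ 2 + ξ ^ 2)) else 0 := by
    intro j ξ
    simp only [hPl]
    split_ifs
    · rw [norm_mul, norm_div, mul_pow, div_pow, Complex.norm_real, Real.norm_eq_abs, sq_abs]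
      have hX0 : 0 < X := by omega
      have e1 : ‖(X : ℂ) ^ (1 - sp η ξ)‖ ^ 2 = Y := by
        rw [Complex.norm_natCast_cpow_of_pos hX0, Complex.sub_re, Complex.one_re, sp_re, hY, hXd,
          ← Real.rpow_natCast, ← Real.rpow_mul (Nat.cast_nonneg _)]
        push_cast
        congr 1
        ring
      have e2 : η ^ 2 + ξ ^ 2 ≤ ‖sp η ξ - 1‖ ^ 2 := by
        rw [Complex.sq_norm, Complex.normSq_apply, Complex.sub_re, Complex.sub_im, sp_re, sp_im,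
          Complex.one_re, Complex.one_im]
        have h3 := Real.pi_gt_three
        have h4 : 1 ≤ (2 * π) * (2 * π) := by nlinarith
        nlinarith [sq_nonneg ξ, mul_le_mul_of_nonneg_right h4 (sq_nonneg ξ)]
      have e3 : 0 < η ^ 2 + ξ ^ 2 := by positivity
      rw [e1]
      calc G ^ 2 * (Y / ‖sp η ξ - 1‖ ^ 2) ≤ (8 * C3 ^ 2 / ℓ ^ 2) * (Y / (η ^ 2 + ξ ^ 2)) := by
            apply mul_le_mul hG2 _ (by positivity) (by positivity)
            exact div_le_div_of_nonneg_left (by linarith) e3 e2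
        _ = _ := by ring
    · simp
  -- the Dirichlet polynomials
  have hdpint : ∑ j ∈ fam Q, ∫ ξ in (-Ξ)..Ξ, ‖dp j ξ‖ ^ 2 ≤ 256 * C1 * (6 * C2 + 8) * Y / ℓ := by
    set h : ℝ := 1 / (4 * Ξ) with hh
    have h0 : 0 < h := by positivity
    have h1 : h ≤ 1 := by
      rw [hh, div_le_one (by positivity)]
      linarith
    have hΞh : Ξ = 1 / (4 * h) := by
      rw [hh]; field_simp
    have e1 : ∑ j ∈ fam Q, ∫ ξ in (-Ξ)..Ξ, ‖dp j ξ‖ ^ 2 ≤ 4 * ∑ j ∈ fam Q, ∫ x, ‖bbC h (Ioc D1 X)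
        (fun n => uu D1 D2 Q η n * ((dsum Q (lamc Q) n : ℝ) : ℂ) * fn j n) x‖ ^ 2 := by
      rw [mul_sum]
      apply sum_le_sum
      intro j _
      exact planch_dpol h0 (Ioc D1 X) _ hΞ0.le hΞh.le
    have e2 := ls_integrated hC2 hS2 (Q := Q) (R := Q) (by omega) (Ioc D1 X)
      (fun n hn => by rw [mem_Ioc] at hn; omega) (uu D1 D2 Q η) h0 h1
    have e3 : ∑ n ∈ Ioc D1 X, ‖uu D1 D2 Q η n‖ ^ 2 * (2 * C2 * Real.log Q * n +
        (C2 * Real.log Q + (Q * Real.log Q) ^ 2 * (1 + (Q : ℝ) ^ 4)) / h) ≤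
        ∑ n ∈ Ioc D1 X, ((6 * C2 + 8) * Y / ℓ) * (dsum D2 (lam1 D1 D2) n ^ 2 / n) := by
      apply sum_le_sum
      intro n hn
      rw [mem_Ioc] at hn
      have hn0 : (0 : ℝ) < n := by exact_mod_cast (by omega : 0 < n)
      have hnD : (Q : ℝ) ^ (τ + 9) ≤ n := by
        have : D1 ≤ n := hn.1.le
        have h2 : ((D1 : ℕ) : ℝ) ≤ n := by exact_mod_cast this
        rw [hD1d] at h2
        push_cast at h2
        exact h2
      have hnX : (n : ℝ) ≤ (Q : ℝ) ^ pb τ := by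
        have h2 : (n : ℝ) ≤ ((X : ℕ) : ℝ) := by exact_mod_cast hn.2
        rw [hXd] at h2
        push_cast at h2
        exact h2
      have f1 : (C2 * Real.log Q + (Q * Real.log Q) ^ 2 * (1 + (Q : ℝ) ^ 4)) / h ≤ 4 * (C2 + 2) * n := by
        have g1 : C2 * Real.log Q + (Q * Real.log Q) ^ 2 * (1 + (Q : ℝ) ^ 4) ≤ (C2 + 2) * (Q : ℝ) ^ 8 := by
          have k1 : (Q : ℝ) ≤ (Q : ℝ) ^ 8 := le_self_pow₀ hQ1 (by norm_num)
          have k2 : (Q : ℝ) ^ 4 ≤ (Q : ℝ) ^ 8 := pow_le_pow_right₀ hQ1 (by norm_num)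
          have k3 : (Q * Real.log Q) ^ 2 ≤ (Q : ℝ) ^ 4 := by
            calc (Q * Real.log Q) ^ 2 ≤ (Q * Q : ℝ) ^ 2 := by
                  apply pow_le_pow_left₀ (by positivity)
                  exact mul_le_mul_of_nonneg_left hℓQ hQ0.le
              _ = (Q : ℝ) ^ 4 := by ring
          have k4 : (Q * Real.log Q) ^ 2 * (1 + (Q : ℝ) ^ 4) ≤ (Q : ℝ) ^ 4 * (1 + (Q : ℝ) ^ 4) :=
            mul_le_mul_of_nonneg_right k3 (by positivity)
          have k5 : C2 * Real.log Q ≤ C2 * (Q : ℝ) ^ 8 := by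
            apply mul_le_mul_of_nonneg_left _ hC2.le
            exact hℓQ.trans k1
          calc _ ≤ C2 * (Q : ℝ) ^ 8 + (Q : ℝ) ^ 4 * (1 + (Q : ℝ) ^ 4) := add_le_add k5 k4
            _ = C2 * (Q : ℝ) ^ 8 + (Q : ℝ) ^ 4 + (Q : ℝ) ^ 8 := by ring
            _ ≤ _ := by linarith
        have g2 : (1 : ℝ) / h = 4 * Ξ := by rw [hh, one_div_one_div]
        rw [div_eq_mul_one_div, g2]
        calc _ ≤ ((C2 + 2) * (Q : ℝ) ^ 8) * (4 * Ξ) := mul_le_mul_of_nonneg_right g1 (by positivity)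
          _ = 4 * (C2 + 2) * (Q : ℝ) ^ (τ + 8) := by rw [hΞ]; ring
          _ ≤ 4 * (C2 + 2) * n := by
            apply mul_le_mul_of_nonneg_left _ (by positivity)
            exact (pow_le_pow_right₀ hQ1 (by omega)).trans hnD
      have f2 : 2 * C2 * Real.log Q * n + (C2 * Real.log Q + (Q * Real.log Q) ^ 2 * (1 + (Q : ℝ) ^ 4)) / h ≤
          (6 * C2 + 8) * ℓ * n := by
        have k1 : 4 * (C2 + 2) * (n : ℝ) ≤ 4 * (C2 + 2) * ℓ * n := by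
          have : 0 ≤ 4 * (C2 + 2) * (n : ℝ) := by positivity
          nlinarith
        calc _ ≤ 2 * C2 * ℓ * n + 4 * (C2 + 2) * n := add_le_add le_rfl f1
          _ ≤ _ := by linarith
      have f3 : ‖uu D1 D2 Q η n‖ ^ 2 = dsum D2 (lam1 D1 D2) n ^ 2 * ((n : ℝ) ^ (-(1 - η))) ^ 2 / ℓ ^ 2 := by
        unfold uu
        rw [Complex.norm_real, Real.norm_eq_abs, sq_abs, div_pow, mul_pow]
      have f4 : ((n : ℝ) ^ (-(1 - η))) ^ 2 * n ≤ Y / n := by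
        rw [le_div_iff₀ hn0]
        have g1 : ((n : ℝ) ^ (-(1 - η))) ^ 2 * n * n = (n : ℝ) ^ (2 * η) := by
          rw [← Real.rpow_natCast, ← Real.rpow_mul hn0.le, mul_assoc]
          have : (n : ℝ) * n = (n : ℝ) ^ (2 : ℝ) := by
            rw [Real.rpow_two]; ring
          rw [this, ← Real.rpow_add hn0]
          congr 1
          push_cast
          ring
        rw [g1, hY]
        exact Real.rpow_le_rpow hn0.le hnX (by linarith)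
      have f5 := mul_le_mul_of_nonneg_left f2 (sq_nonneg ‖uu D1 D2 Q η n‖)
      refine f5.trans ?_
      rw [f3]
      calc dsum D2 (lam1 D1 D2) n ^ 2 * ((n : ℝ) ^ (-(1 - η))) ^ 2 / ℓ ^ 2 * ((6 * C2 + 8) * ℓ * n) =
          (dsum D2 (lam1 D1 D2) n ^ 2 * (6 * C2 + 8) / ℓ) * (((n : ℝ) ^ (-(1 - η))) ^ 2 * n) := by
            field_simp
        _ ≤ (dsum D2 (lam1 D1 D2) n ^ 2 * (6 * C2 + 8) / ℓ) * (Y / n) :=
            mul_le_mul_of_nonneg_left f4 (by positivity)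
        _ = _ := by ring
    have e4 : ∑ n ∈ Ioc D1 X, dsum D2 (lam1 D1 D2) n ^ 2 / n ≤ 64 * C1 := by
      calc ∑ n ∈ Ioc D1 X, dsum D2 (lam1 D1 D2) n ^ 2 / n ≤ ∑ n ∈ Icc 1 X, dsum D2 (lam1 D1 D2) n ^ 2 / n := by
            apply sum_le_sum_of_subset_of_nonneg
            · intro n hn
              rw [mem_Ioc] at hn
              rw [mem_Icc]
              omega
            · intro n _ _; positivity
        _ ≤ 4 * C1 * Real.log D2 * Real.log X / Real.log ((D2 : ℝ) / D1) ^ 2 :=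
            sum_lam1_sq hC1 hS1 hD1 hD12 hD2X
        _ ≤ 64 * C1 := by
            rw [hlD2, hlX, hlD, div_le_iff₀ (by positivity)]
            have g1 : (pb τ : ℝ) ≤ 8 * (pa τ : ℝ) := by
              unfold pa pb; push_cast
              linarith [(Nat.cast_nonneg τ : (0 : ℝ) ≤ τ)]
            have g2 : 0 ≤ 8 * C1 * (pa τ : ℝ) * ℓ ^ 2 := by positivity
            calc 4 * C1 * (2 * (pa τ : ℝ) * ℓ) * ((pb τ : ℝ) * ℓ) = (8 * C1 * (pa τ : ℝ) * ℓ ^ 2) * (pb τ : ℝ) := by ring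
              _ ≤ (8 * C1 * (pa τ : ℝ) * ℓ ^ 2) * (8 * (pa τ : ℝ)) := mul_le_mul_of_nonneg_left g1 g2
              _ = _ := by ring
    calc _ ≤ _ := e1
      _ ≤ 4 * ∑ n ∈ Ioc D1 X, ((6 * C2 + 8) * Y / ℓ) * (dsum D2 (lam1 D1 D2) n ^ 2 / n) := by
          apply mul_le_mul_of_nonneg_left (e2.trans e3) (by norm_num)
      _ = 4 * (((6 * C2 + 8) * Y / ℓ) * ∑ n ∈ Ioc D1 X, (dsum D2 (lam1 D1 D2) n ^ 2 / n)) := by rw [← mul_sum]
      _ ≤ 4 * (((6 * C2 + 8) * Y / ℓ) * (64 * C1)) := by gcongr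
      _ = _ := by ring
  -- the integration
  set E0 : ℝ := (1 / (Q : ℝ) ^ (τ + 6)) ^ 2 with hE0
  set A0 : ℝ := (8 * C3 ^ 2 / ℓ ^ 2) * Y with hA0
  have hA00 : 0 ≤ A0 := by positivity
  have hD21 : 1 ≤ D2 := by omega
  have hint : ∀ j ∈ fam Q, ∫ ξ in (-Ξ)..Ξ, ‖1 - ZQ τ Q j (sp η ξ)‖ ^ 2 ≤
      3 * (∫ ξ in (-Ξ)..Ξ, ‖dp j ξ‖ ^ 2) + 3 * (if j.2 = 1 then A0 * (4 / η) else 0) + 3 * (2 * Ξ * E0) := by
    intro j hj
    have hc1 : Continuous fun ξ => ‖1 - ZQ τ Q j (sp η ξ)‖ ^ 2 := by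
      have := ZZ_cont (R := Q) (D1 := D1) j hD21 hη
      exact (continuous_const.sub this).norm.pow 2
    have hc2 : Continuous fun ξ => ‖dp j ξ‖ ^ 2 := (dpol_cont _ _).norm.pow 2
    have hc3 : Continuous fun ξ : ℝ => if j.2 = 1 then A0 * (1 / (η ^ 2 + ξ ^ 2)) else 0 := by
      split_ifs
      · apply continuous_const.mul
        apply continuous_const.div (by fun_prop)
        intro ξ
        positivity
      · exact continuous_const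
    have h1 : ∫ ξ in (-Ξ)..Ξ, ‖1 - ZQ τ Q j (sp η ξ)‖ ^ 2 ≤ ∫ ξ in (-Ξ)..Ξ, (3 * ‖dp j ξ‖ ^ 2 +
        3 * (if j.2 = 1 then A0 * (1 / (η ^ 2 + ξ ^ 2)) else 0) + 3 * E0) := by
      apply intervalIntegral.integral_mono_on (by linarith) (hc1.intervalIntegrable _ _)
      · exact (((continuous_const.mul hc2).add (continuous_const.mul hc3)).add continuous_const).intervalIntegrable _ _
      · intro ξ hξ
        have h2 := hpt j hj ξ (abs_le.2 hξ)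
        have h3 := hPl2 j ξ
        linarith
    refine h1.trans (le_of_eq_of_le (b := 3 * (∫ ξ in (-Ξ)..Ξ, ‖dp j ξ‖ ^ 2) +
      3 * (∫ ξ in (-Ξ)..Ξ, if j.2 = 1 then A0 * (1 / (η ^ 2 + ξ ^ 2)) else 0) + 3 * (2 * Ξ * E0)) ?_ ?_)
    · have c1 : Continuous fun ξ => 3 * ‖dp j ξ‖ ^ 2 := continuous_const.mul hc2
      have c2 : Continuous fun ξ : ℝ => 3 * (if j.2 = 1 then A0 * (1 / (η ^ 2 + ξ ^ 2)) else 0) :=
        continuous_const.mul hc3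
      have c3 : Continuous fun ξ : ℝ => 3 * ‖dp j ξ‖ ^ 2 +
        3 * (if j.2 = 1 then A0 * (1 / (η ^ 2 + ξ ^ 2)) else 0) := c1.add c2
      rw [intervalIntegral.integral_add (c3.intervalIntegrable _ _)
        (continuous_const.intervalIntegrable _ _),
        intervalIntegral.integral_add (c1.intervalIntegrable _ _) (c2.intervalIntegrable _ _),
        intervalIntegral.integral_const_mul, intervalIntegral.integral_const_mul,
        intervalIntegral.integral_const]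
      rw [smul_eq_mul]
      ring
    · have h4 : ∫ ξ in (-Ξ)..Ξ, (if j.2 = 1 then A0 * (1 / (η ^ 2 + ξ ^ 2)) else 0) ≤
          if j.2 = 1 then A0 * (4 / η) else 0 := by
        split_ifs
        · rw [intervalIntegral.integral_const_mul]
          exact mul_le_mul_of_nonneg_left (pole_int hη hΞ0.le) hA00
        · simp
      linarith
  refine (sum_le_sum hint).trans ?_
  rw [sum_add_distrib, sum_add_distrib, ← mul_sum, ← mul_sum, sum_const, nsmul_eq_mul]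
  have hpole : ∑ j ∈ fam Q, (if j.2 = 1 then A0 * (4 / η) else 0) ≤ A0 * (4 / η) := by
    classical
    calc ∑ j ∈ fam Q, (if j.2 = 1 then A0 * (4 / η) else 0) ≤
        ∑ j ∈ fam Q, (if j = (⟨0, 1⟩ : PC) then A0 * (4 / η) else 0) := by
          apply sum_le_sum
          intro j hj
          by_cases h1 : j.2 = 1
          · rw [if_pos h1, if_pos (trivial_fam hj h1)]
          · rw [if_neg h1]
            split_ifs
            · positivity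
            · exact le_rfl
      _ ≤ _ := by
          rw [sum_ite_eq' (fam Q)]
          split_ifs
          · exact le_rfl
          · positivity
  have hE : ((fam Q).card : ℝ) * (3 * (2 * Ξ * E0)) ≤ 3 * 2 / ℓ := by
    have h1 : ((fam Q).card : ℝ) * (3 * (2 * Ξ * E0)) ≤ (Q : ℝ) ^ 2 * (3 * (2 * Ξ * E0)) :=
      mul_le_mul_of_nonneg_right (card_fam Q) (by positivity)
    refine h1.trans ?_
    have h2 : (Q : ℝ) ^ 2 * (3 * (2 * Ξ * E0)) = 6 / (Q : ℝ) ^ (τ + 10) := by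
      rw [hE0, hΞ, div_pow, one_pow, ← pow_mul]
      have : (Q : ℝ) ^ ((τ + 6) * 2) = (Q : ℝ) ^ 2 * (Q : ℝ) ^ τ * (Q : ℝ) ^ (τ + 10) := by
        rw [← pow_add, ← pow_add]; congr 1; ring
      rw [this]
      field_simp
      norm_num
    rw [h2]
    norm_num
    apply div_le_div_of_nonneg_left (by norm_num) hℓ0
    exact hℓQ.trans (le_self_pow₀ hQ1 (by omega))
  have hη0 : 0 < η * ℓ := by positivity
  have hfin : 3 * ∑ j ∈ fam Q, (∫ ξ in (-Ξ)..Ξ, ‖dp j ξ‖ ^ 2) +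
      3 * ∑ j ∈ fam Q, (if j.2 = 1 then A0 * (4 / η) else 0) + ((fam Q).card : ℝ) * (3 * (2 * Ξ * E0)) ≤
      3 * (256 * C1 * (6 * C2 + 8) * Y / ℓ) + 3 * (A0 * (4 / η)) + 3 * 2 / ℓ := by
    have := hdpint
    linarith
  refine hfin.trans ?_
  have e1 : A0 * (4 / η) = 32 * C3 ^ 2 * (Y / ℓ) * (1 / (η * ℓ)) := by
    rw [hA0]; field_simp; norm_num
  rw [e1]
  have h1 : 0 ≤ Y / ℓ := by positivity
  have h2 : 1 / ℓ ≤ Y / ℓ := div_le_div_of_nonneg_right hY1 hℓ0.le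
  have h3 : 0 ≤ 1 / (η * ℓ) := by positivity
  have h4 : 0 ≤ Y / ℓ * (1 / (η * ℓ)) := mul_nonneg h1 h3
  have e2 : 3 * (256 * C1 * (6 * C2 + 8) + 2 + 32 * C3 ^ 2) * (Y * (1 + 1 / (η * ℓ)) / ℓ) =
      3 * (256 * C1 * (6 * C2 + 8) + 2 + 32 * C3 ^ 2) * (Y / ℓ) +
      3 * (256 * C1 * (6 * C2 + 8) + 2 + 32 * C3 ^ 2) * (Y / ℓ * (1 / (η * ℓ))) := by ring
  have e3 : 256 * C1 * (6 * C2 + 8) * Y / ℓ = 256 * C1 * (6 * C2 + 8) * (Y / ℓ) := by ring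
  have e4 : (3 * 2 / ℓ : ℝ) = 6 * (1 / ℓ) := by ring
  rw [e2, e3, e4]
  have h5 : 0 ≤ 3 * (256 * C1 * (6 * C2 + 8) + 2) * (Y / ℓ * (1 / (η * ℓ))) := by positivity
  have h6 : 0 ≤ 3 * (32 * C3 ^ 2) * (Y / ℓ) := by positivity
  nlinarith [h5, h6, h2]

end Pool.Agent.Helper86.PS
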