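import Pool.Agent.Helper86.PS.GB

set_option autoImplicit false

/-!
# The window sums as line integrals
-/

open Complex Filter Topology Set MeasureTheory Metric
open scoped Real FourierTransform
open scoped ArithmeticFunction.vonMangoldt

namespace Pool.Agent.Helper86.PS

open Pool.Agent.W66 Pool.Agent.W66L
open Pool.Agent.H379R2.SW (vert vert_re vert_im vert_ne_zero continuous_vert)

/-- the window sum of `χ Λ` in logarithmic scale -/
noncomputable def WX {q : ℕ} (χ : DirichletCharacter ℂ q) (h u : ℝ) : ℂ :=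
  ∑' n : ℕ, LSeries.term (Xa χ) 1 n * ((1 / h * hat ((u - Real.log n) / h) : ℝ) : ℂ)

lemma kap_inv_h {c h : ℝ} (hc : 0 < c) (hh : 0 < h) (w : ℝ) :
    ∫ ξ : ℝ, ker h w (vert c ξ) = ((1 / h * hat (w / h) : ℝ) : ℂ) := by
  have h1 := kap_inv (c := c * h) (mul_pos hc hh) (w / h)
  have h2 : ∀ ξ : ℝ, ker h w (vert c ξ) =
      (fun ξ' : ℝ => kap (vert (c * h) ξ') * cexp (vert (c * h) ξ' * ((w / h : ℝ) : ℂ))) (h * ξ) := by
    intro ξ
    have e1 : vert (c * h) (h * ξ) = h * vert c ξ := by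
      unfold vert; push_cast; ring
    simp only
    rw [e1]
    unfold ker
    congr 2
    have : (h : ℂ) ≠ 0 := by exact_mod_cast hh.ne'
    push_cast
    field_simp
  simp only [h2]
  rw [MeasureTheory.Measure.integral_comp_mul_left (fun ξ' : ℝ => kap (vert (c * h) ξ') *
    cexp (vert (c * h) ξ' * ((w / h : ℝ) : ℂ))) h, h1, abs_of_pos (by positivity)]
  rw [Complex.real_smul]
  push_cast
  ring

lemma ker_cont_vert (h u c : ℝ) : Continuous fun ξ : ℝ => ker h u (vert c ξ) :=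
  (ker_diff h u).continuous.comp (continuous_vert c)

lemma ker_vert_bound {Ck : ℝ} (hCk : 0 < Ck) (hkap : ∀ s : ℂ, |s.re| ≤ 1 → ‖kap s‖ ≤ Ck / (1 + s.im ^ 2)) {h u c : ℝ}
    (h0 : 0 < h) (h1 : h ≤ 1) (hc : 0 < c) (hc1 : c ≤ 1) (ξ : ℝ) :
    ‖ker h u (vert c ξ)‖ ≤ Ck / h ^ 2 * Real.exp (c * u) * (1 + ξ ^ 2)⁻¹ := by
  have h2 := ker_bound hkap h0 h1 (u := u) (s := vert c ξ) (by rw [vert_re, abs_of_pos hc]; exact hc1)
  rw [vert_re, vert_im] at h2
  refine h2.trans ?_
  have h3 : h ^ 2 * (1 + ξ ^ 2) ≤ 1 + (h * (2 * π * ξ)) ^ 2 := by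
    have e1 : h ^ 2 ≤ 1 := pow_le_one₀ h0.le h1
    have e2 : 1 ≤ (2 * π) ^ 2 := by nlinarith [Real.pi_gt_three]
    have e3 : (h * (2 * π * ξ)) ^ 2 = (h ^ 2 * ξ ^ 2) * (2 * π) ^ 2 := by ring
    rw [e3]
    nlinarith [mul_nonneg (sq_nonneg h) (sq_nonneg ξ), mul_le_mul_of_nonneg_left e2 (mul_nonneg (sq_nonneg h) (sq_nonneg ξ))]
  have h4 : 0 < h ^ 2 * (1 + ξ ^ 2) := by positivity
  calc Ck / (1 + (h * (2 * π * ξ)) ^ 2) * Real.exp (c * u) ≤ Ck / (h ^ 2 * (1 + ξ ^ 2)) * Real.exp (c * u) := by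
        apply mul_le_mul_of_nonneg_right _ (Real.exp_pos _).le
        exact div_le_div_of_nonneg_left hCk.le h4 h3
    _ = _ := by field_simp

theorem WX_eq {q : ℕ} (χ : DirichletCharacter ℂ q) {c h : ℝ} (hc : 0 < c) (hc1 : c ≤ 1) (h0 : 0 < h) (h1 : h ≤ 1)
    (u : ℝ) : WX χ h u = ∫ ξ : ℝ, LSeries (Xa χ) (1 + vert c ξ) * ker h u (vert c ξ) := by
  obtain ⟨Ck, hCk, hkap⟩ := kap_bound
  have ha : LSeriesSummable (Xa χ) ((1 + c : ℝ) : ℂ) := Xa_summable χ (by simpa using hc)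
  set F : ℕ → ℝ → ℂ := fun n ξ => LSeries.term (Xa χ) (1 + vert c ξ) n * ker h u (vert c ξ) with hF
  have hterm : ∀ n ξ, F n ξ = LSeries.term (Xa χ) 1 n * ker h (u - Real.log n) (vert c ξ) := by
    intro n ξ
    simp only [hF]
    rcases Nat.eq_zero_or_pos n with rfl | hn
    · simp
    · rw [LSeries.term_of_ne_zero hn.ne', LSeries.term_of_ne_zero hn.ne']
      have hnc : (n : ℂ) ≠ 0 := by exact_mod_cast hn.ne'
      have h1 : (n : ℂ) ^ ((1 : ℂ) + vert c ξ) = (n : ℂ) ^ (1 : ℂ) *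
          cexp (vert c ξ * (Real.log n : ℝ)) := by
        rw [Complex.cpow_add _ _ hnc]
        congr 1
        rw [Complex.cpow_def_of_ne_zero hnc, ← Complex.natCast_log]
        congr 1
        push_cast
        ring
      have h2 : ker h (u - Real.log n) (vert c ξ) = ker h u (vert c ξ) / cexp (vert c ξ * (Real.log n : ℝ)) := by
        unfold ker
        rw [mul_div_assoc, ← Complex.exp_sub]
        congr 2
        push_cast
        ring
      rw [h1, h2]
      have h3 : (n : ℂ) ^ (1 : ℂ) ≠ 0 := by rw [Complex.cpow_one]; exact hnc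
      have h4 := Complex.exp_ne_zero (vert c ξ * (Real.log n : ℝ))
      field_simp
  have hkint : Integrable fun ξ : ℝ => ker h u (vert c ξ) := by
    refine ((integrable_inv_one_add_sq.const_mul (Ck / h ^ 2 * Real.exp (c * u)))).mono'
      (ker_cont_vert h u c).aestronglyMeasurable (Eventually.of_forall fun ξ => ?_)
    exact ker_vert_bound hCk hkap h0 h1 hc hc1 ξ
  have hnorm : ∀ n ξ, ‖F n ξ‖ = ‖LSeries.term (Xa χ) ((1 + c : ℝ) : ℂ) n‖ * ‖ker h u (vert c ξ)‖ := by
    intro n ξ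
    simp only [hF]
    rw [norm_mul]
    congr 1
    rw [LSeries.norm_term_eq, LSeries.norm_term_eq]
    congr 2
    simp [vert_re]
  have hFint : ∀ n, Integrable (F n) := by
    intro n
    refine Integrable.mono' (hkint.norm.const_mul ‖LSeries.term (Xa χ) ((1 + c : ℝ) : ℂ) n‖) ?_ ?_
    · apply Continuous.aestronglyMeasurable
      have : F n = fun ξ => LSeries.term (Xa χ) 1 n * ker h (u - Real.log n) (vert c ξ) :=
        funext (hterm n)
      rw [this]
      exact continuous_const.mul (ker_cont_vert h _ c)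
    · exact Eventually.of_forall (fun ξ => (hnorm n ξ).le)
  have hFsum : Summable (fun n => ∫ ξ, ‖F n ξ‖) := by
    simp only [hnorm, integral_const_mul]
    exact ha.norm.mul_right _
  have hmain := hasSum_integral_of_summable_integral_norm hFint hFsum
  have hI : ∀ n, ∫ ξ, F n ξ = LSeries.term (Xa χ) 1 n * ((1 / h * hat ((u - Real.log n) / h) : ℝ) : ℂ) := by
    intro n
    simp only [hterm]
    rw [integral_const_mul, kap_inv_h hc h0]
  simp only [hI] at hmain
  unfold WX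
  rw [hmain.tsum_eq]
  congr 1
  ext ξ
  simp only [hF]
  rw [tsum_mul_right]
  rfl

lemma PT_one {x : ℝ} (hx : 1 ≤ x) : PT x 0 = 1 := by
  unfold PT
  have h1 : ∀ v : ℝ, cexp (-(((0 * v : ℝ) : ℂ) * I)) * ((hat (x - v) : ℝ) : ℂ) = ((hat (x - v) : ℝ) : ℂ) := by
    intro v; simp
  simp only [h1]
  rw [integral_complex_ofReal]
  have h2 : ∫ v in Ioi (0 : ℝ), hat (x - v) = ∫ v : ℝ, hat (x - v) := by
    rw [← integral_indicator measurableSet_Ioi]
    congr 1
    ext v
    rw [Set.indicator_apply]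
    split_ifs with h3
    · rfl
    · rw [hat_zero_of]
      rw [mem_Ioi, not_lt] at h3
      rw [abs_of_nonneg (by linarith)]
      linarith
  rw [h2, integral_sub_left_eq_self (fun v => hat v)]
  have h3 := integral_tri (h := 1) one_pos
  have h4 : ∀ v, tri 1 v = hat v := by intro v; unfold tri; simp
  simp only [h4] at h3
  rw [h3]
  simp

lemma pole_line {c h u : ℝ} (hc : 0 < c) (hc1 : c ≤ 1) (h0 : 0 < h) (h1 : h ≤ 1) (hu : h ≤ u) :
    ∫ ξ : ℝ, 1 / vert c ξ * ker h u (vert c ξ) = 1 := by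
  have hch : c * h ≤ 1 := mul_le_one₀ hc1 h0.le h1
  have e0 := PT_eq (c := c * h) (mul_pos hc h0) hch (u / h) 0
  rw [PT_one (by rw [le_div_iff₀ h0]; linarith)] at e0
  have h2 : ∀ ξ : ℝ, 1 / vert c ξ * ker h u (vert c ξ) =
      (h : ℂ) * (fun ξ' : ℝ => 1 / ((⟨1, 0⟩ + vert (c * h) ξ') - 1) *
        (kap (vert (c * h) ξ') * cexp (vert (c * h) ξ' * ((u / h : ℝ) : ℂ)))) (h * ξ) := by
    intro ξ
    have e1 : vert (c * h) (h * ξ) = h * vert c ξ := by
      unfold vert; push_cast; ring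
    have e2 : ((⟨1, 0⟩ : ℂ) + h * vert c ξ) - 1 = h * vert c ξ := by
      have : (⟨1, 0⟩ : ℂ) = 1 := rfl
      rw [this]; ring
    simp only
    rw [e1, e2]
    unfold ker
    have hh : (h : ℂ) ≠ 0 := by exact_mod_cast h0.ne'
    have hv := vert_ne_zero hc ξ
    have e3 : (h : ℂ) * vert c ξ * ((u / h : ℝ) : ℂ) = vert c ξ * u := by
      push_cast
      field_simp
    rw [e3]
    field_simp
  simp only [h2]
  rw [integral_const_mul, MeasureTheory.Measure.integral_comp_mul_left (fun ξ' : ℝ =>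
    1 / ((⟨1, 0⟩ + vert (c * h) ξ') - 1) * (kap (vert (c * h) ξ') * cexp (vert (c * h) ξ' * ((u / h : ℝ) : ℂ)))) h,
    ← e0, abs_of_pos (by positivity)]
  rw [Complex.real_smul]
  have hh : (h : ℂ) ≠ 0 := by exact_mod_cast h0.ne'
  push_cast
  field_simp

/-- the function on the line -/
noncomputable def FF (j : PC) (s : ℂ) : ℂ := if j.2 = 1 then -DD s else -DX j.2 s

/-- `1` for the trivial character -/
noncomputable def dl (j : PC) : ℂ := if j.2 = 1 then 1 else 0

lemma trivial_LS {Q : ℕ} {j : PC} (hj : j ∈ fam Q) (h1 : j.2 = 1) : Xa j.2 = La := by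
  have hj0 := trivial_fam hj h1
  subst hj0
  unfold Xa La
  ext n
  have hss : Subsingleton (ZMod (0 + 1)) := inferInstanceAs (Subsingleton (ZMod 1))
  have : ((n : ZMod (0 + 1))) = 1 := Subsingleton.elim _ _
  rw [Pi.mul_apply, this, map_one, one_mul]

lemma LS_FF {Q : ℕ} {j : PC} (hj : j ∈ fam Q) {s : ℂ} (hs : 1 < s.re) :
    LSeries (Xa j.2) s = FF j s + dl j * (1 / (s - 1)) := by
  unfold FF dl
  split_ifs with h1
  · rw [trivial_LS hj h1]
    have := LSeries_eq_DD hs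
    change LSeries La s = _ at this
    rw [this]; ring
  · have h3 := LSeries_eq_DL j.2 h1 hs
    change LSeries (Xa j.2) _ = _ at h3
    rw [h3]
    unfold DX
    ring

lemma FF_far : ∃ A : ℝ, 0 < A ∧ ∀ (j : PC) (s : ℂ), 1 < s.re → s.re ≤ 2 → ‖FF j s‖ ≤ A / (s.re - 1) := by
  obtain ⟨A1, hA1, h1⟩ := DD_far
  obtain ⟨A2, hA2, h2⟩ := DX_far
  refine ⟨A1 + A2, by positivity, fun j s hs hs2 => ?_⟩
  have h0 : 0 < s.re - 1 := by linarith
  unfold FF
  split_ifs with h3
  · rw [norm_neg]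
    refine (h1 s hs hs2).trans ?_
    gcongr
    linarith
  · rw [norm_neg]
    refine (h2 _ j.2 h3 s hs hs2).trans ?_
    gcongr
    linarith

lemma FF_contAt {j : PC} {s : ℂ} (h : if j.2 = 1 then Z1 s ≠ 0 else j.2.LFunction s ≠ 0) :
    DifferentiableAt ℂ (FF j) s := by
  unfold FF
  split_ifs at h ⊢ with h1
  · have h2 : DifferentiableAt ℂ DD s := by
      unfold DD
      exact ((Z1_diff.analyticAt _).deriv.differentiableAt).div (Z1_diff _) h
    exact h2.neg
  · have h2 : DifferentiableAt ℂ (DX j.2) s := by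
      unfold DX
      exact (((DirichletCharacter.differentiable_LFunction h1).analyticAt _).deriv.differentiableAt).div
        (DirichletCharacter.differentiable_LFunction h1 _) h
    exact h2.neg

end Pool.Agent.Helper86.PS
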