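import Mathlib

set_option autoImplicit false

/-!
# Sums of the Moebius function over integers prime to `k`
-/

open Finset ArithmeticFunction

namespace Pool.Agent.Helper86.PS

lemma hyper (n : ℕ) (F : ℕ → ℕ → ℝ) :
    ∑ m ∈ Icc 1 n, ∑ j ∈ Icc 1 (n / m), F m j = ∑ N ∈ Icc 1 n, ∑ m ∈ N.divisors, F m (N / m) := by
  rw [sum_sigma', sum_sigma']
  refine sum_bij' (fun x _ => ⟨x.1 * x.2, x.1⟩) (fun x _ => ⟨x.2, x.1 / x.2⟩) ?_ ?_ ?_ ?_ ?_
  · rintro ⟨m, j⟩ h
    simp only [mem_sigma, mem_Icc] at h ⊢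
    obtain ⟨⟨h1, h2⟩, h3, h4⟩ := h
    have h5 : m * j ≤ n := by
      calc m * j ≤ m * (n / m) := Nat.mul_le_mul_left m h4
        _ ≤ n := Nat.mul_div_le n m
    exact ⟨⟨Nat.mul_pos h1 h3, h5⟩, Nat.mem_divisors.2 ⟨dvd_mul_right m j, (Nat.mul_pos h1 h3).ne'⟩⟩
  · rintro ⟨N, m⟩ h
    simp only [mem_sigma, mem_Icc, Nat.mem_divisors] at h ⊢
    obtain ⟨⟨h1, h2⟩, h3, h4⟩ := h
    have hm : 0 < m := Nat.pos_of_dvd_of_pos h3 (by omega)
    exact ⟨⟨hm, (Nat.le_of_dvd (by omega) h3).trans h2⟩,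
      Nat.div_pos (Nat.le_of_dvd (by omega) h3) hm, Nat.div_le_div_right h2⟩
  · rintro ⟨m, j⟩ h
    simp only [mem_sigma, mem_Icc] at h
    have hm : 0 < m := h.1.1
    simp [Nat.mul_div_cancel_left j hm]
  · rintro ⟨N, m⟩ h
    simp only [mem_sigma, mem_Icc, Nat.mem_divisors] at h
    simp [Nat.mul_div_cancel' h.2.1]
  · rintro ⟨m, j⟩ h
    simp only [mem_sigma, mem_Icc] at h
    have hm : 0 < m := h.1.1
    simp [Nat.mul_div_cancel_left j hm]

lemma sum_mu_divisors (N : ℕ) (hN : 1 ≤ N) :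
    ∑ m ∈ N.divisors, (moebius m : ℝ) = if N = 1 then 1 else 0 := by
  have h := congrArg (fun f => f N) (coe_moebius_mul_coe_zeta (R := ℝ))
  simp only [coe_mul_zeta_apply, intCoe_apply] at h
  rw [h, one_apply]

lemma abs_mu_le (m : ℕ) : |(moebius m : ℝ)| ≤ 1 := by
  have := abs_moebius_le_one (n := m)
  exact_mod_cast this

/-- the classical bound -/
lemma sum_mu_le (n : ℕ) : |∑ m ∈ Icc 1 n, (moebius m : ℝ) / m| ≤ 1 := by
  rcases Nat.eq_zero_or_pos n with rfl | hn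
  · simp
  have h1 := hyper n (fun m _ => (moebius m : ℝ))
  have h2 : ∑ N ∈ Icc 1 n, ∑ m ∈ N.divisors, (moebius m : ℝ) = 1 := by
    rw [sum_congr rfl fun N hN => sum_mu_divisors N (mem_Icc.1 hN).1, sum_ite_eq' (Icc 1 n) 1,
      if_pos (mem_Icc.2 ⟨le_rfl, hn⟩)]
  rw [h2] at h1
  have h3 : ∀ m ∈ Icc 1 n, ∑ _j ∈ Icc 1 (n / m), (moebius m : ℝ) = (moebius m : ℝ) * ((n / m : ℕ) : ℝ) := by
    intro m _
    rw [sum_const, Nat.card_Icc, nsmul_eq_mul, mul_comm]
    simp
  rw [sum_congr rfl h3] at h1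
  have hn0 : (0 : ℝ) < n := by exact_mod_cast hn
  have h4 : (n : ℝ) * ∑ m ∈ Icc 1 n, (moebius m : ℝ) / m - 1 =
      ∑ m ∈ Icc 1 n, (moebius m : ℝ) * ((n : ℝ) / m - ((n / m : ℕ) : ℝ)) := by
    rw [← h1, mul_sum, ← sum_sub_distrib]
    apply sum_congr rfl
    intro m _
    ring
  have hfr : ∀ m ∈ Icc 1 n, 0 ≤ (n : ℝ) / m - ((n / m : ℕ) : ℝ) ∧ (n : ℝ) / m - ((n / m : ℕ) : ℝ) ≤ 1 := by
    intro m hm
    have hm0 : 0 < m := (mem_Icc.1 hm).1
    have hm' : (0 : ℝ) < m := by exact_mod_cast hm0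
    constructor
    · have := Nat.cast_div_le (α := ℝ) (m := n) (n := m)
      linarith
    · have h5 : n < m * (n / m + 1) := by
        rw [mul_add, mul_one]
        have := Nat.div_add_mod n m
        have := Nat.mod_lt n hm0
        omega
      have h6 : (n : ℝ) ≤ m * (((n / m : ℕ) : ℝ) + 1) := by exact_mod_cast h5.le
      have : (n : ℝ) / m ≤ ((n / m : ℕ) : ℝ) + 1 := by
        rw [div_le_iff₀ hm']
        linarith
      linarith
  have h5 : |∑ m ∈ Icc 1 n, (moebius m : ℝ) * ((n : ℝ) / m - ((n / m : ℕ) : ℝ))| ≤ n - 1 := by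
    have h1n : (1 : ℕ) ∈ Icc 1 n := mem_Icc.2 ⟨le_rfl, hn⟩
    rw [← add_sum_erase _ _ h1n]
    simp only [Nat.cast_one, div_one, Nat.div_one, sub_self, mul_zero, zero_add]
    refine (abs_sum_le_sum_abs _ _).trans ?_
    have h6 : ∀ m ∈ (Icc 1 n).erase 1, |(moebius m : ℝ) * ((n : ℝ) / m - ((n / m : ℕ) : ℝ))| ≤ 1 := by
      intro m hm
      obtain ⟨g1, g2⟩ := hfr m (mem_of_mem_erase hm)
      rw [abs_mul, abs_of_nonneg g1]
      exact mul_le_one₀ (abs_mu_le m) g1 g2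
    refine (sum_le_sum h6).trans ?_
    rw [sum_const, card_erase_of_mem h1n, Nat.card_Icc, nsmul_eq_mul, mul_one, Nat.add_sub_cancel]
    rw [Nat.cast_sub hn]
    simp
  rw [← h4] at h5
  have h6 := abs_le.1 h5
  rw [abs_le]
  have hn1 : (1 : ℝ) ≤ n := by exact_mod_cast hn
  constructor
  · nlinarith [h6.1]
  · nlinarith [h6.2]

lemma harm_log {n : ℕ} {t : ℝ} (hn : 1 ≤ n) (h1 : (n : ℝ) ≤ t) (h2 : t ≤ n + 1) :
    |∑ j ∈ Icc 1 n, (1 : ℝ) / j - Real.log t - Real.eulerMascheroniConstant| ≤ 2 / t := by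
  have e1 := Real.eulerMascheroniSeq_lt_eulerMascheroniConstant n
  have e2 := Real.eulerMascheroniConstant_lt_eulerMascheroniSeq' n
  unfold Real.eulerMascheroniSeq at e1
  unfold Real.eulerMascheroniSeq' at e2
  rw [if_neg (by omega)] at e2
  have h3 : ((harmonic n : ℚ) : ℝ) = ∑ j ∈ Icc 1 n, (1 : ℝ) / j := by
    rw [harmonic_eq_sum_Icc]
    push_cast
    apply sum_congr rfl
    intro j _
    rw [one_div]
  rw [h3] at e1 e2
  have hn0 : (0 : ℝ) < n := by exact_mod_cast hn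
  have hn1 : (1 : ℝ) ≤ n := by exact_mod_cast hn
  have ht : 0 < t := by linarith
  have l1 : Real.log (n + 1) - Real.log t ≤ 1 / t := by
    rw [← Real.log_div (by positivity) ht.ne']
    refine (Real.log_le_sub_one_of_pos (by positivity)).trans ?_
    rw [div_sub_one ht.ne']
    apply div_le_div_of_nonneg_right _ ht.le
    linarith
  have l2 : Real.log t - Real.log n ≤ 2 / t := by
    rw [← Real.log_div ht.ne' hn0.ne']
    refine (Real.log_le_sub_one_of_pos (by positivity)).trans ?_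
    rw [div_sub_one hn0.ne', div_le_div_iff₀ hn0 ht]
    nlinarith
  have l3 : 1 / t ≤ 2 / t := div_le_div_of_nonneg_right (by norm_num) ht.le
  rw [abs_le]
  constructor <;> linarith

/-- `Σ_{m ≤ y, (m,k)=1} μ(m)/m log(y/m)` -/
noncomputable def Fk (k : ℕ) (y : ℝ) : ℝ :=
  ∑ m ∈ (Icc 1 ⌊y⌋₊).filter (fun m => m.Coprime k), (moebius m : ℝ) / m * Real.log (y / m)

lemma Fk_lt_one (k : ℕ) {y : ℝ} (hy : y < 1) : Fk k y = 0 := by
  unfold Fk
  rw [Nat.floor_eq_zero.2 hy]
  simp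

lemma Fk_one (y : ℝ) : |Fk 1 y| ≤ 4 := by
  rcases lt_or_ge y 1 with hy | hy
  · rw [Fk_lt_one 1 hy]; norm_num
  unfold Fk
  have h0 : (Icc 1 ⌊y⌋₊).filter (fun m => m.Coprime 1) = Icc 1 ⌊y⌋₊ :=
    filter_true_of_mem fun m _ => Nat.coprime_one_right m
  rw [h0]
  set n := ⌊y⌋₊ with hn
  have hn1 : 1 ≤ n := Nat.le_floor (by simpa using hy)
  have hny : (n : ℝ) ≤ y := Nat.floor_le (by linarith)
  have hy0 : 0 < y := by linarith
  have h1 := hyper n (fun m j => (moebius m : ℝ) / m * (1 / j))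
  have h2 : ∑ N ∈ Icc 1 n, ∑ m ∈ N.divisors, (moebius m : ℝ) / m * (1 / ((N / m : ℕ) : ℝ)) = 1 := by
    have h3 : ∀ N ∈ Icc 1 n, ∑ m ∈ N.divisors, (moebius m : ℝ) / m * (1 / ((N / m : ℕ) : ℝ)) =
        if N = 1 then 1 else 0 := by
      intro N hN
      have hN1 := (mem_Icc.1 hN).1
      have h4 : ∀ m ∈ N.divisors, (moebius m : ℝ) / m * (1 / ((N / m : ℕ) : ℝ)) = (moebius m : ℝ) * (1 / N) := by
        intro m hm
        have hmd := Nat.dvd_of_mem_divisors hm
        have hm0 : 0 < m := Nat.pos_of_mem_divisors hm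
        have hm' : (m : ℝ) ≠ 0 := by exact_mod_cast hm0.ne'
        have hN' : (N : ℝ) ≠ 0 := by exact_mod_cast (by omega : N ≠ 0)
        rw [Nat.cast_div hmd hm']
        field_simp
      rw [sum_congr rfl h4, ← sum_mul, sum_mu_divisors N hN1]
      split_ifs with h5
      · rw [h5]; simp
      · simp
    rw [sum_congr rfl h3, sum_ite_eq' (Icc 1 n) 1, if_pos (mem_Icc.2 ⟨le_rfl, hn1⟩)]
  rw [h2] at h1
  have h3 := sum_mu_le n
  set g := Real.eulerMascheroniConstant with hg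
  have hg1 : 0 < g := by have := Real.one_half_lt_eulerMascheroniConstant; linarith
  have hg2 : g < 1 := by have := Real.eulerMascheroniConstant_lt_two_thirds; linarith
  have hdiff : |∑ m ∈ Icc 1 n, (moebius m : ℝ) / m * (∑ j ∈ Icc 1 (n / m), (1 : ℝ) / j - Real.log (y / m) - g)|
      ≤ 2 := by
    refine (abs_sum_le_sum_abs _ _).trans ?_
    have h4 : ∀ m ∈ Icc 1 n, |(moebius m : ℝ) / m * (∑ j ∈ Icc 1 (n / m), (1 : ℝ) / j - Real.log (y / m) - g)| ≤
        2 / y := by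
      intro m hm
      obtain ⟨hm1, hm2⟩ := mem_Icc.1 hm
      have hm0 : (0 : ℝ) < m := by exact_mod_cast hm1
      have hnm : n / m = ⌊y / m⌋₊ := (Nat.floor_div_natCast y m).symm
      have h5 : 1 ≤ n / m := Nat.div_pos hm2 hm1
      have h6 : ((n / m : ℕ) : ℝ) ≤ y / m := by
        rw [hnm]
        exact Nat.floor_le (by positivity)
      have h7 : y / m ≤ ((n / m : ℕ) : ℝ) + 1 := by
        rw [hnm]
        exact (Nat.lt_floor_add_one _).le
      have h8 := harm_log h5 h6 h7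
      rw [abs_mul]
      have h9 : |(moebius m : ℝ) / m| ≤ 1 / m := by
        rw [abs_div, abs_of_pos hm0]
        exact div_le_div_of_nonneg_right (abs_mu_le m) hm0.le
      calc _ ≤ 1 / (m : ℝ) * (2 / (y / m)) := mul_le_mul h9 h8 (abs_nonneg _) (by positivity)
        _ = 2 / y := by field_simp
    refine (sum_le_sum h4).trans ?_
    rw [sum_const, Nat.card_Icc, Nat.add_sub_cancel, nsmul_eq_mul]
    rw [mul_div_assoc', div_le_iff₀ hy0]
    linarith
  have h4 : ∑ m ∈ Icc 1 n, (moebius m : ℝ) / m * (∑ j ∈ Icc 1 (n / m), (1 : ℝ) / j - Real.log (y / m) - g) =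
      1 - (∑ m ∈ Icc 1 n, (moebius m : ℝ) / m * Real.log (y / m)) - g * ∑ m ∈ Icc 1 n, (moebius m : ℝ) / m := by
    have h1' : ∑ m ∈ Icc 1 n, (moebius m : ℝ) / m * ∑ j ∈ Icc 1 (n / m), (1 : ℝ) / j = 1 := by
      refine Eq.trans ?_ h1
      apply sum_congr rfl
      intro m _
      rw [mul_sum]
    have h1'' : ∑ m ∈ Icc 1 n, (moebius m : ℝ) / m * (∑ j ∈ Icc 1 (n / m), (1 : ℝ) / j -
        Real.log (y / m) - g) = ∑ m ∈ Icc 1 n, (moebius m : ℝ) / m * ∑ j ∈ Icc 1 (n / m), (1 : ℝ) / j -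
        (∑ m ∈ Icc 1 n, (moebius m : ℝ) / m * Real.log (y / m)) - g * ∑ m ∈ Icc 1 n, (moebius m : ℝ) / m := by
      rw [mul_sum, ← sum_sub_distrib, ← sum_sub_distrib]
      apply sum_congr rfl
      intro m _
      ring
    rw [h1'', h1']
  rw [h4] at hdiff
  have h5 := abs_le.1 hdiff
  have h6 := abs_le.1 h3
  rw [abs_le]
  constructor <;> nlinarith [h5.1, h5.2, h6.1, h6.2]

/-- the recursion for a new prime -/
lemma Fk_rec {p k : ℕ} (hp : p.Prime) (hpk : ¬ p ∣ k) (y : ℝ) :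
    Fk (p * k) y = Fk k y + 1 / p * Fk (p * k) (y / p) := by
  have hp0 : 0 < p := hp.pos
  have hp' : (p : ℝ) ≠ 0 := by exact_mod_cast hp0.ne'
  unfold Fk
  set n := ⌊y⌋₊ with hn
  have hnp : ⌊y / p⌋₊ = n / p := Nat.floor_div_natCast y p
  rw [hnp]
  -- split the sum for `k`
  have h1 : (Icc 1 n).filter (fun m => m.Coprime k) =
      (Icc 1 n).filter (fun m => m.Coprime (p * k)) ∪
      (Icc 1 n).filter (fun m => m.Coprime k ∧ p ∣ m) := by
    ext m
    simp only [mem_union, mem_filter, Nat.coprime_mul_iff_right]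
    constructor
    · rintro ⟨a, b⟩
      by_cases h : p ∣ m
      · exact Or.inr ⟨a, b, h⟩
      · exact Or.inl ⟨a, ((Nat.Prime.coprime_iff_not_dvd hp).2 h).symm, b⟩
    · rintro (⟨a, _, b⟩ | ⟨a, b, _⟩) <;> exact ⟨a, b⟩
  have h2 : Disjoint ((Icc 1 n).filter (fun m => m.Coprime (p * k)))
      ((Icc 1 n).filter (fun m => m.Coprime k ∧ p ∣ m)) := by
    rw [disjoint_left]
    intro m hm hm'
    rw [mem_filter] at hm hm'
    have h3 := (Nat.coprime_mul_iff_right.1 hm.2).1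
    exact (Nat.Prime.coprime_iff_not_dvd hp).1 h3.symm hm'.2.2
  rw [h1, sum_union h2]
  have h3 : ∑ m ∈ (Icc 1 n).filter (fun m => m.Coprime k ∧ p ∣ m), (moebius m : ℝ) / m * Real.log (y / m) =
      -(1 / p * ∑ m ∈ (Icc 1 (n / p)).filter (fun m => m.Coprime (p * k)),
        (moebius m : ℝ) / m * Real.log (y / p / m)) := by
    rw [mul_sum, ← sum_neg_distrib]
    have h4 : ∑ m ∈ (Icc 1 n).filter (fun m => m.Coprime k ∧ p ∣ m), (moebius m : ℝ) / m * Real.log (y / m) =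
        ∑ m ∈ (Icc 1 (n / p)).filter (fun m => m.Coprime k),
          (moebius (p * m) : ℝ) / ((p * m : ℕ) : ℝ) * Real.log (y / ((p * m : ℕ) : ℝ)) := by
      symm
      apply sum_bij (fun m _ => p * m)
      · intro m hm
        rw [mem_filter, mem_Icc] at hm ⊢
        refine ⟨⟨Nat.mul_pos hp0 hm.1.1, ?_⟩, ?_, dvd_mul_right p m⟩
        · calc p * m ≤ p * (n / p) := Nat.mul_le_mul_left p hm.1.2
            _ ≤ n := Nat.mul_div_le n p
        · exact Nat.Coprime.mul_left ((Nat.Prime.coprime_iff_not_dvd hp).2 hpk) hm.2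
      · intro a _ b _ h
        exact Nat.eq_of_mul_eq_mul_left hp0 h
      · intro m hm
        rw [mem_filter, mem_Icc] at hm
        obtain ⟨c, rfl⟩ := hm.2.2
        refine ⟨c, ?_, rfl⟩
        rw [mem_filter, mem_Icc]
        refine ⟨⟨Nat.pos_of_mul_pos_left hm.1.1, ?_⟩, Nat.Coprime.coprime_mul_left hm.2.1⟩
        rw [Nat.le_div_iff_mul_le hp0, mul_comm]
        exact hm.1.2
      · intro m _
        rfl
    rw [h4]
    symm
    apply sum_subset_zero_on_sdiff
    · intro m hm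
      rw [mem_filter] at hm ⊢
      exact ⟨hm.1, (Nat.coprime_mul_iff_right.1 hm.2).2⟩
    · intro m hm
      rw [mem_sdiff, mem_filter, mem_filter] at hm
      have h5 : ¬ m.Coprime p := fun h => hm.2 ⟨hm.1.1, Nat.coprime_mul_iff_right.2 ⟨h, hm.1.2⟩⟩
      have h6 : p ∣ m := by
        by_contra hc
        exact h5 ((Nat.Prime.coprime_iff_not_dvd hp).2 hc).symm
      have h7 : ¬ Squarefree (p * m) := by
        intro hs
        obtain ⟨c, rfl⟩ := h6
        have := hs p ⟨c, by ring⟩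
        exact hp.one_lt.ne' (Nat.isUnit_iff.1 this)
      rw [moebius_eq_zero_of_not_squarefree h7]
      simp
    · intro m hm
      rw [mem_filter, mem_Icc] at hm
      have h5 := (Nat.coprime_mul_iff_right.1 hm.2).1
      rw [isMultiplicative_moebius.map_mul_of_coprime h5.symm, moebius_apply_prime hp]
      have hm0 : (m : ℝ) ≠ 0 := by exact_mod_cast (by omega : m ≠ 0)
      push_cast
      rw [div_div]
      field_simp
  rw [h3]
  ring

lemma Fk_step {p k : ℕ} (hp : p.Prime) (hpk : ¬ p ∣ k) {B : ℝ} (h : ∀ y, |Fk k y| ≤ B) (y : ℝ) :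
    |Fk (p * k) y| ≤ B * (p / (p - 1)) := by
  have hB : 0 ≤ B := (abs_nonneg _).trans (h 0)
  have hp2 : (2 : ℝ) ≤ p := by exact_mod_cast hp.two_le
  have hp1 : (0 : ℝ) < p - 1 := by linarith
  have key : ∀ n : ℕ, ∀ y : ℝ, y < 2 ^ n → |Fk (p * k) y| ≤ B * (p / (p - 1)) := by
    intro n
    induction n with
    | zero =>
      intro y hy
      rw [Fk_lt_one _ (by simpa using hy), abs_zero]
      positivity
    | succ n ih =>
      intro y hy
      rw [Fk_rec hp hpk]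
      have h1 : y / p < 2 ^ n := by
        rw [div_lt_iff₀ (by linarith)]
        have : (2 : ℝ) ^ n * 2 ≤ 2 ^ n * p := mul_le_mul_of_nonneg_left hp2 (by positivity)
        rw [pow_succ] at hy
        linarith
      have h2 := ih _ h1
      refine (abs_add_le _ _).trans ?_
      rw [abs_mul, abs_of_pos (by positivity : (0 : ℝ) < 1 / p)]
      have h3 : 1 / (p : ℝ) * |Fk (p * k) (y / p)| ≤ 1 / p * (B * (p / (p - 1))) :=
        mul_le_mul_of_nonneg_left h2 (by positivity)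
      have h4 : B + 1 / (p : ℝ) * (B * (p / (p - 1))) = B * (p / (p - 1)) := by
        field_simp
        ring
      linarith [h y]
  obtain ⟨n, hn⟩ := pow_unbounded_of_one_lt y (one_lt_two : (1 : ℝ) < 2)
  exact key n y hn

/-- the bound, uniform in `k` -/
theorem Fk_bound (k : ℕ) (hk : k ≠ 0) (y : ℝ) : |Fk k y| ≤ 4 * ((k : ℝ) / Nat.totient k) := by
  induction k using induction_on_primes generalizing y with
  | zero => exact absurd rfl hk
  | one => simpa using Fk_one y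
  | prime_mul p a hp ih =>
    have ha : a ≠ 0 := by
      rintro rfl
      simp at hk
    have ha0 : (0 : ℝ) < a := by exact_mod_cast Nat.pos_of_ne_zero ha
    have hta : (0 : ℝ) < Nat.totient a := by exact_mod_cast Nat.totient_pos.2 (Nat.pos_of_ne_zero ha)
    have hp2 : (2 : ℝ) ≤ p := by exact_mod_cast hp.two_le
    by_cases hpa : p ∣ a
    · have h1 : Fk (p * a) y = Fk a y := by
        unfold Fk
        congr 1
        apply filter_congr
        intro m _
        rw [Nat.coprime_mul_iff_right]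
        constructor
        · exact fun h => h.2
        · exact fun h => ⟨Nat.Coprime.coprime_dvd_right hpa h, h⟩
      rw [h1, Nat.totient_mul_of_prime_of_dvd hp hpa]
      refine (ih ha y).trans (le_of_eq ?_)
      push_cast
      have : (p : ℝ) ≠ 0 := by linarith
      field_simp
    · have h1 := Fk_step hp hpa (ih ha) y
      refine h1.trans (le_of_eq ?_)
      rw [Nat.totient_mul_of_prime_of_not_dvd hp hpa]
      push_cast
      rw [Nat.cast_sub hp.one_lt.le]
      push_cast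
      have : (p : ℝ) - 1 ≠ 0 := by linarith
      field_simp

end Pool.Agent.Helper86.PS
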