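import Pool.Agent.Helper86.PS.S1
import Pool.Agent.Helper923.HMertens

set_option autoImplicit false

/-!
# Quadratic forms of the Selberg type
-/

open Finset ArithmeticFunction MeasureTheory

namespace Pool.Agent.Helper86.PS

/-- the second derivative of `e ^ (- α t) (Y - t)` -/
noncomputable def Hdd (α Y t : ℝ) : ℝ := Real.exp (-(α * t)) * (2 * α + α ^ 2 * (Y - t))

lemma Hdd_cont (α Y : ℝ) : Continuous (Hdd α Y) := by unfold Hdd; fun_prop

lemma H_int {α Y w : ℝ} (hw : 0 ≤ w) (hwY : w ≤ Y) :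
    Real.exp (-(α * w)) * (Y - w) = Real.exp (-(α * Y)) * (Y - w) +
      ∫ t in (0 : ℝ)..Y, Hdd α Y t * max 0 (t - w) := by
  have hcont : Continuous fun t => Hdd α Y t * max 0 (t - w) :=
    (Hdd_cont α Y).mul (continuous_const.max (by fun_prop))
  rw [← intervalIntegral.integral_add_adjacent_intervals (b := w) (hcont.intervalIntegrable _ _)
    (hcont.intervalIntegrable _ _)]
  have h1 : ∫ t in (0 : ℝ)..w, Hdd α Y t * max 0 (t - w) = 0 := by
    rw [intervalIntegral.integral_congr (g := fun _ => 0)]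
    · simp
    · intro t ht
      rw [Set.uIcc_of_le hw] at ht
      simp only
      rw [max_eq_left (by linarith [ht.2]), mul_zero]
  have h2 : ∫ t in w..Y, Hdd α Y t * max 0 (t - w) =
      ∫ t in w..Y, Hdd α Y t * (t - w) := by
    apply intervalIntegral.integral_congr
    intro t ht
    rw [Set.uIcc_of_le hwY] at ht
    simp only
    rw [max_eq_right (by linarith [ht.1])]
  have h3 : ∀ t ∈ Set.uIcc w Y, HasDerivAt (fun t => (-α * (Real.exp (-(α * t)) * (Y - t)) -
      Real.exp (-(α * t))) * (t - w) - Real.exp (-(α * t)) * (Y - t)) (Hdd α Y t * (t - w)) t := by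
    intro t _
    have e1 : HasDerivAt (fun t : ℝ => Real.exp (-(α * t))) (Real.exp (-(α * t)) * (-α)) t := by
      have : HasDerivAt (fun t : ℝ => -(α * t)) (-α) t := by
        simpa using ((hasDerivAt_id' t).const_mul α).fun_neg
      exact this.exp
    have e2 : HasDerivAt (fun t : ℝ => Y - t) (-1) t := by
      simpa using (hasDerivAt_id t).const_sub Y
    have e3 : HasDerivAt (fun t : ℝ => t - w) 1 t := by
      simpa using (hasDerivAt_id t).sub_const w
    have e4 := e1.mul e2
    have e5 := (((e4.const_mul (-α)).sub e1).mul e3).sub e4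
    refine e5.congr_deriv ?_
    unfold Hdd
    simp only [Pi.mul_apply, Pi.sub_apply]
    ring
  rw [h1, h2, intervalIntegral.integral_eq_sub_of_hasDerivAt h3
    (((Hdd_cont α Y).mul (by fun_prop)).intervalIntegrable _ _)]
  ring

lemma Hdd_int {α Y : ℝ} : ∫ t in (0 : ℝ)..Y, Hdd α Y t = 1 + α * Y - Real.exp (-(α * Y)) := by
  have h3 : ∀ t ∈ Set.uIcc 0 Y, HasDerivAt (fun t => -α * (Real.exp (-(α * t)) * (Y - t)) -
      Real.exp (-(α * t))) (Hdd α Y t) t := by
    intro t _
    have e1 : HasDerivAt (fun t : ℝ => Real.exp (-(α * t))) (Real.exp (-(α * t)) * (-α)) t := by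
      have : HasDerivAt (fun t : ℝ => -(α * t)) (-α) t := by
        simpa using ((hasDerivAt_id' t).const_mul α).fun_neg
      exact this.exp
    have e2 : HasDerivAt (fun t : ℝ => Y - t) (-1) t := by
      simpa using (hasDerivAt_id t).const_sub Y
    have e4 := e1.mul e2
    have e5 := (e4.const_mul (-α)).sub e1
    refine e5.congr_deriv ?_
    unfold Hdd
    ring
  rw [intervalIntegral.integral_eq_sub_of_hasDerivAt h3 ((Hdd_cont α Y).intervalIntegrable _ _)]
  simp
  ring

/-- the twisted sum -/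
noncomputable def Gk (k : ℕ) (α y : ℝ) : ℝ :=
  ∑ m ∈ (Icc 1 ⌊y⌋₊).filter (fun m => m.Coprime k), (moebius m : ℝ) / m * (Real.exp (-(α * Real.log m)) * Real.log (y / m))

theorem Gk_bound (k : ℕ) (hk : k ≠ 0) {α y : ℝ} (hα : 0 ≤ α) (hy : 1 ≤ y) :
    |Gk k α y| ≤ 4 * ((k : ℝ) / Nat.totient k) * (1 + α * Real.log y) := by
  set B : ℝ := 4 * ((k : ℝ) / Nat.totient k) with hB
  have hy0 : 0 < y := by linarith
  have hY : 0 ≤ Real.log y := Real.log_nonneg hy
  set Y := Real.log y with hYd
  set A := (Icc 1 ⌊y⌋₊).filter (fun m => m.Coprime k) with hA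
  have hm : ∀ m ∈ A, 1 ≤ m ∧ (m : ℝ) ≤ y ∧ 0 ≤ Real.log m ∧ Real.log m ≤ Y ∧
      Real.log (y / m) = Y - Real.log m := by
    intro m hm
    rw [hA, mem_filter, mem_Icc] at hm
    have h1 : (1 : ℝ) ≤ m := by exact_mod_cast hm.1.1
    have h2 : (m : ℝ) ≤ y := (Nat.cast_le.2 hm.1.2).trans (Nat.floor_le hy0.le)
    exact ⟨hm.1.1, h2, Real.log_nonneg h1, Real.log_le_log (by linarith) h2,
      Real.log_div hy0.ne' (by linarith)⟩
  have h1 : Gk k α y = Real.exp (-(α * Y)) * Fk k y +
      ∫ t in (0 : ℝ)..Y, Hdd α Y t * Fk k (Real.exp t) := by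
    have e1 : ∫ t in (0 : ℝ)..Y, Hdd α Y t * Fk k (Real.exp t) =
        ∫ t in (0 : ℝ)..Y, ∑ m ∈ A, (moebius m : ℝ) / m * (Hdd α Y t * max 0 (t - Real.log m)) := by
      apply intervalIntegral.integral_congr
      intro t ht
      rw [Set.uIcc_of_le hY] at ht
      simp only
      unfold Fk
      rw [mul_sum]
      have hsub : (Icc 1 ⌊Real.exp t⌋₊).filter (fun m => m.Coprime k) ⊆ A := by
        intro m hm
        rw [mem_filter, mem_Icc] at hm
        rw [hA, mem_filter, mem_Icc]
        refine ⟨⟨hm.1.1, hm.1.2.trans (Nat.floor_le_floor ?_)⟩, hm.2⟩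
        rw [← Real.exp_log hy0]
        exact Real.exp_le_exp.2 ht.2
      rw [← sum_subset hsub]
      · apply sum_congr rfl
        intro m hm
        rw [mem_filter, mem_Icc] at hm
        have h2 : (0 : ℝ) < m := by exact_mod_cast hm.1.1
        have h3 : (m : ℝ) ≤ Real.exp t := (Nat.cast_le.2 hm.1.2).trans (Nat.floor_le (Real.exp_pos t).le)
        have h4 : Real.log m ≤ t := (Real.log_le_iff_le_exp h2).2 h3
        rw [Real.log_div (Real.exp_pos t).ne' h2.ne', Real.log_exp, max_eq_right (by linarith)]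
        ring
      · intro m hm hm'
        have h2 := hm
        rw [hA, mem_filter, mem_Icc] at h2
        have h2' : (0 : ℝ) < m := by exact_mod_cast h2.1.1
        have h3 : t < Real.log m := by
          by_contra hc
          push Not at hc
          apply hm'
          rw [mem_filter, mem_Icc]
          exact ⟨⟨h2.1.1, Nat.le_floor ((Real.log_le_iff_le_exp h2').1 hc)⟩, h2.2⟩
        rw [max_eq_left (by linarith)]
        ring
    rw [e1, intervalIntegral.integral_finsetSum]
    · unfold Gk Fk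
      rw [mul_sum, ← sum_add_distrib]
      apply sum_congr rfl
      intro m hmA
      obtain ⟨_, _, h2, h3, h4⟩ := hm m hmA
      rw [h4, H_int h2 h3, intervalIntegral.integral_const_mul]
      ring
    · intro m _
      exact (((Hdd_cont α Y).mul (continuous_const.max (by fun_prop))).const_mul _).intervalIntegrable _ _
  have hHnn : ∀ t ∈ Set.Icc 0 Y, 0 ≤ Hdd α Y t := by
    intro t ht
    unfold Hdd
    have : 0 ≤ Y - t := by linarith [ht.2]
    positivity
  have h2 : |∫ t in (0 : ℝ)..Y, Hdd α Y t * Fk k (Real.exp t)| ≤ ∫ t in (0 : ℝ)..Y, Hdd α Y t * B := by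
    rw [← Real.norm_eq_abs]
    refine intervalIntegral.norm_integral_le_of_norm_le hY (Filter.Eventually.of_forall fun t ht => ?_)
      (((Hdd_cont α Y).mul continuous_const).intervalIntegrable _ _)
    rw [norm_mul, Real.norm_of_nonneg (hHnn t ⟨ht.1.le, ht.2⟩)]
    exact mul_le_mul_of_nonneg_left (Fk_bound k hk _) (hHnn t ⟨ht.1.le, ht.2⟩)
  rw [intervalIntegral.integral_mul_const, Hdd_int] at h2
  rw [h1]
  refine (abs_add_le _ _).trans ?_
  rw [abs_mul, abs_of_pos (Real.exp_pos _)]
  have h3 := mul_le_mul_of_nonneg_left (Fk_bound k hk y) (Real.exp_pos (-(α * Y))).le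
  calc _ ≤ Real.exp (-(α * Y)) * B + (1 + α * Y - Real.exp (-(α * Y))) * B := add_le_add h3 h2
    _ = B * (1 + α * Y) := by ring

end Pool.Agent.Helper86.PS
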