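import Pool.Agent.Helper86.PS.S2

set_option autoImplicit false

/-!
# Quadratic forms of the Selberg type, second part
-/

open Finset ArithmeticFunction MeasureTheory

namespace Pool.Agent.Helper86.PS

/-- the Jordan type function -/
noncomputable def Jf (s : ℝ) : ArithmeticFunction ℝ := prodPrimeFactors (fun p : ℕ => (p : ℝ) ^ s - 1)

lemma Jf_apply (s : ℝ) {k : ℕ} (hk : k ≠ 0) : Jf s k = ∏ p ∈ k.primeFactors, ((p : ℝ) ^ s - 1) := by
  unfold Jf
  rw [prodPrimeFactors_apply hk]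

lemma Jf_nonneg {s : ℝ} (hs : 0 ≤ s) {k : ℕ} (hk : k ≠ 0) : 0 ≤ Jf s k := by
  rw [Jf_apply s hk]
  apply prod_nonneg
  intro p hp
  have : (1 : ℝ) ≤ p := by exact_mod_cast (Nat.prime_of_mem_primeFactors hp).one_le
  have := Real.one_le_rpow this hs
  linarith

lemma rpow_squarefree (s : ℝ) {g : ℕ} (hg : Squarefree g) :
    ∏ p ∈ g.primeFactors, ((p : ℝ) ^ s) = (g : ℝ) ^ s := by
  rw [Real.finsetProd_rpow _ _ (fun p _ => Nat.cast_nonneg p), ← Nat.cast_prod,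
    Nat.prod_primeFactors_of_squarefree hg]

lemma Jf_le {s : ℝ} (hs : 0 ≤ s) {k : ℕ} (hk : Squarefree k) : Jf s k ≤ (k : ℝ) ^ s := by
  rw [Jf_apply s hk.ne_zero, ← rpow_squarefree s hk]
  apply prod_le_prod
  · intro p hp
    have : (1 : ℝ) ≤ p := by exact_mod_cast (Nat.prime_of_mem_primeFactors hp).one_le
    have := Real.one_le_rpow this hs
    linarith
  · intro p _
    linarith

lemma sum_Jf (s : ℝ) {g : ℕ} (hg : Squarefree g) : (g : ℝ) ^ s = ∑ k ∈ g.divisors, Jf s k := by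
  have h := (IsMultiplicative.prodPrimeFactors (fun p : ℕ => (p : ℝ) ^ s - 1)).prodPrimeFactors_one_add_of_squarefree hg
  rw [← rpow_squarefree s hg]
  unfold Jf
  rw [← h]
  apply prod_congr rfl
  intro p hp
  have hp' := Nat.prime_of_mem_primeFactors hp
  rw [prodPrimeFactors_apply hp'.ne_zero, hp'.primeFactors, prod_singleton]
  ring

/-- the coefficients -/
noncomputable def lamc (D : ℕ) (d : ℕ) : ℝ := (moebius d : ℝ) * Real.log ((D : ℝ) / d)

lemma lamc_zero {D d : ℕ} (h : ¬ Squarefree d) : lamc D d = 0 := by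
  unfold lamc
  rw [moebius_eq_zero_of_not_squarefree h]
  simp

lemma lamc_abs {D d : ℕ} (hd : 1 ≤ d) (hdD : d ≤ D) : |lamc D d| ≤ Real.log D := by
  have h1 : (1 : ℝ) ≤ d := by exact_mod_cast hd
  have h2 : (d : ℝ) ≤ D := by exact_mod_cast hdD
  unfold lamc
  rw [abs_mul]
  have h3 : 0 ≤ Real.log ((D : ℝ) / d) := Real.log_nonneg (by rw [le_div_iff₀ (by linarith)]; linarith)
  have h4 : Real.log ((D : ℝ) / d) ≤ Real.log D := by
    apply Real.log_le_log (div_pos (by linarith) (by linarith))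
    exact div_le_self (by linarith) h1
  calc |(moebius d : ℝ)| * |Real.log ((D : ℝ) / d)| ≤ 1 * |Real.log ((D : ℝ) / d)| :=
        mul_le_mul_of_nonneg_right (abs_mu_le d) (abs_nonneg _)
    _ ≤ Real.log D := by rw [one_mul, abs_of_nonneg h3]; exact h4

/-- the quadratic form -/
noncomputable def QF (D : ℕ) (s : ℝ) : ℝ :=
  ∑ d ∈ Icc 1 D, ∑ e ∈ Icc 1 D, lamc D d * lamc D e * ((Nat.lcm d e : ℕ) : ℝ) ^ (-s)

/-- the sum over the multiples -/
noncomputable def Tk (D : ℕ) (s : ℝ) (k : ℕ) : ℝ :=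
  ∑ d ∈ (Icc 1 D).filter (fun d => k ∣ d), lamc D d * (d : ℝ) ^ (-s)

lemma QF_diag (D : ℕ) (s : ℝ) : QF D s =
    ∑ k ∈ (Icc 1 D).filter Squarefree, Jf s k * Tk D s k ^ 2 := by
  have h1 : ∀ d ∈ Icc 1 D, ∀ e ∈ Icc 1 D, lamc D d * lamc D e * ((Nat.lcm d e : ℕ) : ℝ) ^ (-s) =
      ∑ k ∈ (Icc 1 D).filter Squarefree, Jf s k * ((if k ∣ d then lamc D d * (d : ℝ) ^ (-s) else 0) *
        (if k ∣ e then lamc D e * (e : ℝ) ^ (-s) else 0)) := by
    intro d hd e he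
    rw [mem_Icc] at hd he
    by_cases hds : Squarefree d
    swap
    · rw [lamc_zero hds]; simp
    by_cases hes : Squarefree e
    swap
    · rw [lamc_zero hes]; simp
    have hd0 : (0 : ℝ) < d := by exact_mod_cast hd.1
    have he0 : (0 : ℝ) < e := by exact_mod_cast he.1
    have hg : Squarefree (Nat.gcd d e) := hds.squarefree_of_dvd (Nat.gcd_dvd_left d e)
    have hg0 : 0 < Nat.gcd d e := Nat.gcd_pos_of_pos_left _ hd.1
    have hg0' : (0 : ℝ) < ((Nat.gcd d e : ℕ) : ℝ) := by exact_mod_cast hg0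
    have hl0 : (0 : ℝ) < ((Nat.lcm d e : ℕ) : ℝ) := by exact_mod_cast Nat.lcm_pos hd.1 he.1
    have e1 : ((Nat.lcm d e : ℕ) : ℝ) ^ (-s) = (d : ℝ) ^ (-s) * (e : ℝ) ^ (-s) * ((Nat.gcd d e : ℕ) : ℝ) ^ s := by
      have h2 : ((Nat.gcd d e : ℕ) : ℝ) * ((Nat.lcm d e : ℕ) : ℝ) = d * e := by
        exact_mod_cast Nat.gcd_mul_lcm d e
      have h3 : (((Nat.gcd d e : ℕ) : ℝ) * ((Nat.lcm d e : ℕ) : ℝ)) ^ (-s) = ((d : ℝ) * e) ^ (-s) := by
        rw [h2]
      rw [Real.mul_rpow hg0'.le hl0.le, Real.mul_rpow hd0.le he0.le] at h3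
      rw [← h3, Real.rpow_neg hg0'.le]
      have := Real.rpow_pos_of_pos hg0' s
      field_simp
    rw [e1, sum_Jf s hg]
    have e2 : ∑ k ∈ (Icc 1 D).filter Squarefree, Jf s k * ((if k ∣ d then lamc D d * (d : ℝ) ^ (-s) else 0) *
        (if k ∣ e then lamc D e * (e : ℝ) ^ (-s) else 0)) =
        ∑ k ∈ (Nat.gcd d e).divisors, Jf s k * ((lamc D d * (d : ℝ) ^ (-s)) * (lamc D e * (e : ℝ) ^ (-s))) := by
      symm
      rw [← sum_subset (s₁ := (Nat.gcd d e).divisors) (s₂ := (Icc 1 D).filter Squarefree)]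
      · apply sum_congr rfl
        intro k hk
        rw [Nat.mem_divisors, Nat.dvd_gcd_iff] at hk
        rw [if_pos hk.1.1, if_pos hk.1.2]
      · intro k hk
        rw [Nat.mem_divisors] at hk
        have h5 : k ∣ d := hk.1.trans (Nat.gcd_dvd_left d e)
        rw [mem_filter, mem_Icc]
        exact ⟨⟨Nat.pos_of_dvd_of_pos h5 hd.1, (Nat.le_of_dvd hd.1 h5).trans hd.2⟩,
          hds.squarefree_of_dvd h5⟩
      · intro k _ hk
        rw [Nat.mem_divisors, Nat.dvd_gcd_iff] at hk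
        by_cases h5 : k ∣ d
        · have h6 : ¬ k ∣ e := fun h6 => hk ⟨⟨h5, h6⟩, hg0.ne'⟩
          rw [if_neg h6]; ring
        · rw [if_neg h5]; ring
    rw [e2, ← sum_mul]
    ring
  unfold QF
  rw [sum_congr rfl fun d hd => sum_congr rfl fun e he => h1 d hd e he]
  have h2 : ∀ k, Tk D s k = ∑ d ∈ Icc 1 D, if k ∣ d then lamc D d * (d : ℝ) ^ (-s) else 0 := by
    intro k
    unfold Tk
    rw [sum_filter]
  rw [sum_congr rfl fun d _ => sum_comm, sum_comm]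
  apply sum_congr rfl
  intro k _
  rw [h2, sq, sum_mul_sum, mul_sum]
  apply sum_congr rfl
  intro d _
  rw [mul_sum]

lemma Tk_eq {D k : ℕ} (hk : Squarefree k) (α : ℝ) :
    Tk D (1 + α) k = (moebius k : ℝ) * (k : ℝ) ^ (-(1 + α)) * Gk k α ((D : ℝ) / k) := by
  have hk0 : 0 < k := Nat.pos_of_ne_zero hk.ne_zero
  have hk0' : (0 : ℝ) < k := by exact_mod_cast hk0
  unfold Tk Gk
  rw [Nat.floor_div_natCast, Nat.floor_natCast, mul_sum]
  have h1 : (Icc 1 D).filter (fun d => k ∣ d) = (Icc 1 (D / k)).image (fun m => k * m) := by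
    ext d
    simp only [mem_filter, mem_Icc, mem_image]
    constructor
    · rintro ⟨⟨h1, h2⟩, m, rfl⟩
      refine ⟨m, ⟨Nat.pos_of_mul_pos_left h1, ?_⟩, rfl⟩
      rw [Nat.le_div_iff_mul_le hk0]
      linarith [Nat.mul_comm k m]
    · rintro ⟨m, ⟨h1, h2⟩, rfl⟩
      rw [Nat.le_div_iff_mul_le hk0] at h2
      exact ⟨⟨Nat.mul_pos hk0 h1, by linarith [Nat.mul_comm k m]⟩, dvd_mul_right k m⟩
  rw [h1, sum_image (by
    intro a _ b _ h
    exact Nat.eq_of_mul_eq_mul_left hk0 h)]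
  rw [sum_filter]
  apply sum_congr rfl
  intro m hm
  rw [mem_Icc] at hm
  have hm0 : (0 : ℝ) < m := by exact_mod_cast hm.1
  split_ifs with h2
  · unfold lamc
    rw [isMultiplicative_moebius.map_mul_of_coprime h2.symm]
    have e1 : (((k * m : ℕ) : ℝ)) ^ (-(1 + α)) = (k : ℝ) ^ (-(1 + α)) * (1 / m * Real.exp (-(α * Real.log m))) := by
      push_cast
      rw [Real.mul_rpow hk0'.le hm0.le, Real.rpow_def_of_pos hm0]
      congr 1
      rw [show Real.log m * (-(1 + α)) = -Real.log m + -(α * Real.log m) by ring, Real.exp_add,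
        Real.exp_neg, Real.exp_log hm0]
      ring
    have e2 : (D : ℝ) / ((k * m : ℕ) : ℝ) = (D : ℝ) / k / m := by
      push_cast
      rw [div_div]
    rw [e1, e2]
    push_cast
    ring
  · have h3 : ¬ Squarefree (k * m) := by
      intro h4
      exact h2 (Nat.Coprime.symm (Nat.coprime_of_squarefree_mul h4))
    rw [lamc_zero h3]
    ring

lemma QF_le {D : ℕ} {α : ℝ} (hα : 0 ≤ α) :
    QF D (1 + α) ≤ 16 * (1 + α * Real.log D) ^ 2 *
      ∑ k ∈ (Icc 1 D).filter Squarefree, (k : ℝ) / (Nat.totient k : ℝ) ^ 2 := by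
  rw [QF_diag, mul_sum]
  apply sum_le_sum
  intro k hk
  rw [mem_filter, mem_Icc] at hk
  obtain ⟨⟨hk1, hkD⟩, hks⟩ := hk
  have hk0 : (0 : ℝ) < k := by exact_mod_cast hk1
  have hkD' : (k : ℝ) ≤ D := by exact_mod_cast hkD
  have hk1' : (1 : ℝ) ≤ k := by exact_mod_cast hk1
  have hD1 : (1 : ℝ) ≤ (D : ℝ) / k := by rw [le_div_iff₀ hk0]; linarith
  have hφ : (0 : ℝ) < Nat.totient k := by exact_mod_cast Nat.totient_pos.2 hk1
  have h1 := Gk_bound k hks.ne_zero hα hD1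
  have h2 : Real.log ((D : ℝ) / k) ≤ Real.log D :=
    Real.log_le_log (by positivity) (div_le_self (by linarith) hk1')
  have h3 : |Gk k α ((D : ℝ) / k)| ≤ 4 * ((k : ℝ) / Nat.totient k) * (1 + α * Real.log D) := by
    refine h1.trans ?_
    apply mul_le_mul_of_nonneg_left _ (by positivity)
    nlinarith [mul_le_mul_of_nonneg_left h2 hα]
  have h4 : Tk D (1 + α) k ^ 2 ≤ (k : ℝ) ^ (-(1 + α)) * (k : ℝ) ^ (-(1 + α)) *
      (4 * ((k : ℝ) / Nat.totient k) * (1 + α * Real.log D)) ^ 2 := by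
    rw [Tk_eq hks, mul_pow, mul_pow]
    have h5 : (moebius k : ℝ) ^ 2 ≤ 1 := by
      have := abs_mu_le k
      rw [← sq_abs]
      exact pow_le_one₀ (abs_nonneg _) this
    have h6 : Gk k α ((D : ℝ) / k) ^ 2 ≤ (4 * ((k : ℝ) / Nat.totient k) * (1 + α * Real.log D)) ^ 2 := by
      rw [← sq_abs]
      exact pow_le_pow_left₀ (abs_nonneg _) h3 2
    have h7 : ((k : ℝ) ^ (-(1 + α))) ^ 2 = (k : ℝ) ^ (-(1 + α)) * (k : ℝ) ^ (-(1 + α)) := sq _
    rw [h7]
    have h8 : 0 ≤ (k : ℝ) ^ (-(1 + α)) * (k : ℝ) ^ (-(1 + α)) := by positivity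
    calc (moebius k : ℝ) ^ 2 * ((k : ℝ) ^ (-(1 + α)) * (k : ℝ) ^ (-(1 + α))) * Gk k α ((D : ℝ) / k) ^ 2
        ≤ 1 * ((k : ℝ) ^ (-(1 + α)) * (k : ℝ) ^ (-(1 + α))) *
          (4 * ((k : ℝ) / Nat.totient k) * (1 + α * Real.log D)) ^ 2 := by gcongr
      _ = _ := by ring
  have h5 : Jf (1 + α) k ≤ (k : ℝ) ^ (1 + α) := Jf_le (by linarith) hks
  have h6 : 0 ≤ Jf (1 + α) k := Jf_nonneg (by linarith) hks.ne_zero
  have h7 : (k : ℝ) ^ (1 + α) * ((k : ℝ) ^ (-(1 + α)) * (k : ℝ) ^ (-(1 + α))) ≤ 1 / k := by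
    rw [← mul_assoc, ← Real.rpow_add hk0]
    rw [show (1 + α) + -(1 + α) = 0 by ring, Real.rpow_zero, one_mul, Real.rpow_neg hk0.le]
    rw [one_div]
    apply inv_anti₀ hk0
    calc (k : ℝ) = (k : ℝ) ^ (1 : ℝ) := (Real.rpow_one _).symm
      _ ≤ (k : ℝ) ^ (1 + α) := Real.rpow_le_rpow_of_exponent_le hk1' (by linarith)
  calc Jf (1 + α) k * Tk D (1 + α) k ^ 2 ≤ (k : ℝ) ^ (1 + α) * ((k : ℝ) ^ (-(1 + α)) * (k : ℝ) ^ (-(1 + α)) *
      (4 * ((k : ℝ) / Nat.totient k) * (1 + α * Real.log D)) ^ 2) := by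
        apply mul_le_mul h5 h4 (by positivity) (by positivity)
    _ = ((k : ℝ) ^ (1 + α) * ((k : ℝ) ^ (-(1 + α)) * (k : ℝ) ^ (-(1 + α)))) *
      (4 * ((k : ℝ) / Nat.totient k) * (1 + α * Real.log D)) ^ 2 := by ring
    _ ≤ 1 / k * (4 * ((k : ℝ) / Nat.totient k) * (1 + α * Real.log D)) ^ 2 :=
        mul_le_mul_of_nonneg_right h7 (sq_nonneg _)
    _ = _ := by field_simp; ring

lemma totient_sq {k : ℕ} (hk : Squarefree k) :
    (k : ℝ) / (Nat.totient k : ℝ) ^ 2 = ∏ p ∈ k.primeFactors, ((p : ℝ) / (p - 1) ^ 2) := by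
  have h1 : (Nat.totient k : ℝ) = ∏ p ∈ k.primeFactors, ((p : ℝ) - 1) := by
    have h := Nat.totient_mul_prod_primeFactors k
    rw [Nat.prod_primeFactors_of_squarefree hk] at h
    have hk0 : 0 < k := Nat.pos_of_ne_zero hk.ne_zero
    have h2 : Nat.totient k = ∏ p ∈ k.primeFactors, (p - 1) := by
      have h3 : Nat.totient k * k = (∏ p ∈ k.primeFactors, (p - 1)) * k := by rw [h, mul_comm]
      exact Nat.eq_of_mul_eq_mul_right hk0 h3
    rw [h2, Nat.cast_prod]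
    apply prod_congr rfl
    intro p hp
    rw [Nat.cast_sub (Nat.prime_of_mem_primeFactors hp).one_le, Nat.cast_one]
  have h2 : (k : ℝ) = ∏ p ∈ k.primeFactors, (p : ℝ) := by
    rw [← Nat.cast_prod, Nat.prod_primeFactors_of_squarefree hk]
  rw [h1, prod_div_distrib, ← prod_pow]
  nth_rewrite 1 [h2]
  rfl

lemma sum_sqf_le (D : ℕ) (f : ℕ → ℝ) (hf : ∀ p, p.Prime → 0 ≤ f p) :
    ∑ k ∈ (Icc 1 D).filter Squarefree, ∏ p ∈ k.primeFactors, f p ≤
      ∏ p ∈ (Icc 1 D).filter Nat.Prime, (1 + f p) := by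
  rw [prod_one_add]
  have h1 : ∑ k ∈ (Icc 1 D).filter Squarefree, ∏ p ∈ k.primeFactors, f p =
      ∑ T ∈ ((Icc 1 D).filter Squarefree).image Nat.primeFactors, ∏ p ∈ T, f p := by
    rw [sum_image]
    intro a ha b hb hab
    rw [coe_filter, Set.mem_ofPred_eq] at ha hb
    rw [← Nat.prod_primeFactors_of_squarefree ha.2, ← Nat.prod_primeFactors_of_squarefree hb.2, hab]
  rw [h1]
  apply sum_le_sum_of_subset_of_nonneg
  · intro T hT
    rw [mem_image] at hT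
    obtain ⟨k, hk, rfl⟩ := hT
    rw [mem_filter, mem_Icc] at hk
    rw [mem_powerset]
    intro p hp
    have hp' := Nat.prime_of_mem_primeFactors hp
    rw [mem_filter, mem_Icc]
    exact ⟨⟨hp'.one_le, (Nat.le_of_dvd hk.1.1 (Nat.dvd_of_mem_primeFactors hp)).trans hk.1.2⟩, hp'⟩
  · intro T hT _
    rw [mem_powerset] at hT
    apply prod_nonneg
    intro p hp
    exact hf p (mem_filter.1 (hT hp)).2

lemma sum_inv_sq_le (N : ℕ) : ∑ d ∈ Icc 1 N, 1 / ((d : ℝ) ^ 2) ≤ 2 := by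
  rcases Nat.eq_zero_or_pos N with rfl | hN
  · simp
  have h1 : Icc 1 N = insert 1 (Ioc 1 N) := by
    ext x; simp only [mem_Icc, mem_insert, mem_Ioc]; omega
  rw [h1, sum_insert (by simp)]
  have h2 := sum_Ioc_inv_sq_le_sub (α := ℝ) (k := 1) (n := N) one_ne_zero hN
  have h3 : (0 : ℝ) ≤ ((N : ℝ))⁻¹ := by positivity
  have h4 : ∑ d ∈ Ioc 1 N, 1 / ((d : ℝ) ^ 2) = ∑ d ∈ Ioc 1 N, ((d : ℝ) ^ 2)⁻¹ :=
    sum_congr rfl (fun _ _ => one_div _)
  rw [h4]
  norm_num at h2 ⊢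
  linarith

theorem exists_totient_sum : ∃ C : ℝ, 0 < C ∧ ∀ D : ℕ, 2 ≤ D →
    ∑ k ∈ (Icc 1 D).filter Squarefree, (k : ℝ) / (Nat.totient k : ℝ) ^ 2 ≤ C * Real.log D := by
  obtain ⟨C, hC, hM⟩ := Helper923.HMertens.mertens_ratio
  have hl2 : (0 : ℝ) < Real.log 2 := Real.log_pos (by norm_num)
  refine ⟨Real.exp (13 + C / Real.log 2) / Real.log 2, by positivity, fun D hD => ?_⟩
  have hD' : (2 : ℝ) ≤ D := by exact_mod_cast hD
  have hlD : 0 < Real.log D := Real.log_pos (by linarith)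
  have h1 : ∑ k ∈ (Icc 1 D).filter Squarefree, (k : ℝ) / (Nat.totient k : ℝ) ^ 2 ≤
      ∏ p ∈ (Icc 1 D).filter Nat.Prime, (1 + (p : ℝ) / (p - 1) ^ 2) := by
    rw [sum_congr rfl fun k hk => totient_sq (mem_filter.1 hk).2]
    apply sum_sqf_le
    intro p _
    positivity
  refine h1.trans ?_
  have h2 : ∏ p ∈ (Icc 1 D).filter Nat.Prime, (1 + (p : ℝ) / (p - 1) ^ 2) ≤
      Real.exp (∑ p ∈ (Icc 1 D).filter Nat.Prime, (p : ℝ) / (p - 1) ^ 2) := by
    rw [Real.exp_sum]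
    apply prod_le_prod
    · intro p _; positivity
    · intro p _
      have := Real.add_one_le_exp ((p : ℝ) / (p - 1) ^ 2)
      linarith
  refine h2.trans ?_
  have h3 : ∑ p ∈ (Icc 1 D).filter Nat.Prime, (p : ℝ) / (p - 1) ^ 2 ≤
      ∑ p ∈ (Icc 1 D).filter Nat.Prime, (1 : ℝ) / p + 12 := by
    have h4 : ∀ p ∈ (Icc 1 D).filter Nat.Prime, (p : ℝ) / (p - 1) ^ 2 ≤ 1 / p + 6 * (1 / (p : ℝ) ^ 2) := by
      intro p hp
      have hp' := (mem_filter.1 hp).2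
      have h2p : (2 : ℝ) ≤ p := by exact_mod_cast hp'.two_le
      have h5 : (1 : ℝ) / p + 6 * (1 / (p : ℝ) ^ 2) = (p + 6) / p ^ 2 := by field_simp
      rw [h5, div_le_div_iff₀ (by nlinarith) (by positivity)]
      nlinarith [mul_nonneg (by linarith : (0 : ℝ) ≤ p - 2) (by nlinarith : (0 : ℝ) ≤ 4 * p - 3)]
    refine (sum_le_sum h4).trans ?_
    rw [sum_add_distrib, ← mul_sum]
    have h5 : ∑ p ∈ (Icc 1 D).filter Nat.Prime, 1 / (p : ℝ) ^ 2 ≤ 2 := by
      refine le_trans ?_ (sum_inv_sq_le D)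
      apply sum_le_sum_of_subset_of_nonneg (filter_subset _ _)
      intro _ _ _; positivity
    linarith
  have h4 : ∑ p ∈ (Icc 1 D).filter Nat.Prime, (1 : ℝ) / p ≤
      Real.log (Real.log D / Real.log 2) + C / Real.log 2 + 1 := by
    have h5 : (Icc 1 D).filter Nat.Prime = insert 2 ((Ioc 2 D).filter Nat.Prime) := by
      ext p
      simp only [mem_filter, mem_Icc, mem_insert, mem_Ioc]
      constructor
      · rintro ⟨⟨h6, h7⟩, h8⟩
        have := h8.two_le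
        rcases Nat.lt_or_ge 2 p with h9 | h9
        · exact Or.inr ⟨⟨h9, h7⟩, h8⟩
        · left; omega
      · rintro (rfl | ⟨⟨h6, h7⟩, h8⟩)
        · exact ⟨⟨by norm_num, hD⟩, Nat.prime_two⟩
        · exact ⟨⟨by omega, h7⟩, h8⟩
    rw [h5, sum_insert (by simp)]
    have h6 := (abs_le.1 (hM 2 D le_rfl hD)).2
    push_cast at h6
    norm_num
    norm_num at h6
    linarith
  have h5 : Real.exp (∑ p ∈ (Icc 1 D).filter Nat.Prime, (p : ℝ) / (p - 1) ^ 2) ≤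
      Real.exp (Real.log (Real.log D / Real.log 2) + (13 + C / Real.log 2)) := by
    apply Real.exp_le_exp.2
    linarith
  refine h5.trans (le_of_eq ?_)
  rw [Real.exp_add, Real.exp_log (by positivity)]
  ring

theorem exists_QF : ∃ C : ℝ, 0 < C ∧ ∀ D : ℕ, 2 ≤ D → ∀ α : ℝ, 0 ≤ α → α * Real.log D ≤ 1 →
    QF D (1 + α) ≤ C * Real.log D := by
  obtain ⟨C, hC, h⟩ := exists_totient_sum
  refine ⟨64 * C, by positivity, fun D hD α hα h1 => ?_⟩
  have hD' : (2 : ℝ) ≤ D := by exact_mod_cast hD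
  have hlD : 0 < Real.log D := Real.log_pos (by linarith)
  refine (QF_le hα).trans ?_
  have h2 : (1 + α * Real.log D) ^ 2 ≤ 4 := by
    have : 0 ≤ α * Real.log D := by positivity
    nlinarith
  have h3 := h D hD
  have h4 : 0 ≤ ∑ k ∈ (Icc 1 D).filter Squarefree, (k : ℝ) / (Nat.totient k : ℝ) ^ 2 :=
    sum_nonneg fun k _ => by positivity
  calc 16 * (1 + α * Real.log D) ^ 2 * ∑ k ∈ (Icc 1 D).filter Squarefree, (k : ℝ) / (Nat.totient k : ℝ) ^ 2
      ≤ 16 * 4 * (C * Real.log D) := by gcongr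
    _ = _ := by ring

end Pool.Agent.Helper86.PS
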