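import Pool.Agent.Helper86.PS.S3

set_option autoImplicit false

/-!
# Second moments of the Selberg weights
-/

open Finset ArithmeticFunction MeasureTheory

namespace Pool.Agent.Helper86.PS

/-- divisor sums of weights supported on `d ≤ D` -/
noncomputable def dsum (D : ℕ) (x : ℕ → ℝ) (n : ℕ) : ℝ := ∑ d ∈ (Icc 1 D).filter (fun d => d ∣ n), x d

lemma dsum_eq (D : ℕ) (x : ℕ → ℝ) (n : ℕ) : dsum D x n = ∑ d ∈ Icc 1 D, if d ∣ n then x d else 0 := by
  unfold dsum; rw [sum_filter]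

lemma dsum_mul (D E : ℕ) (x y : ℕ → ℝ) (n : ℕ) : dsum D x n * dsum E y n =
    ∑ d ∈ Icc 1 D, ∑ e ∈ Icc 1 E, if Nat.lcm d e ∣ n then x d * y e else 0 := by
  rw [dsum_eq, dsum_eq, sum_mul_sum]
  apply sum_congr rfl
  intro d _
  apply sum_congr rfl
  intro e _
  by_cases h1 : d ∣ n
  · by_cases h2 : e ∣ n
    · rw [if_pos h1, if_pos h2, if_pos (Nat.lcm_dvd h1 h2)]
    · rw [if_neg h2, if_neg (fun h => h2 ((Nat.dvd_lcm_right d e).trans h)), mul_zero]
  · rw [if_neg h1, if_neg (fun h => h1 ((Nat.dvd_lcm_left d e).trans h)), zero_mul]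

lemma count_mult (a b m : ℕ) (hm : 1 ≤ m) (hab : a ≤ b) :
    |(((Ioc a b).filter (fun n => m ∣ n)).card : ℝ) - ((b : ℝ) - a) / m| ≤ 1 := by
  have hm' : (0 : ℝ) < m := by exact_mod_cast hm
  have h1 : ((Ioc a b).filter (fun n => m ∣ n)).card = b / m - a / m := by
    have h2 : (Ioc a b).filter (fun n => m ∣ n) = (Ioc (a / m) (b / m)).image (fun k => m * k) := by
      ext n
      simp only [mem_filter, mem_Ioc, mem_image]
      constructor
      · rintro ⟨⟨h3, h4⟩, k, rfl⟩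
        refine ⟨k, ⟨?_, ?_⟩, rfl⟩
        · rw [Nat.div_lt_iff_lt_mul hm]; linarith [Nat.mul_comm m k]
        · rw [Nat.le_div_iff_mul_le hm]; linarith [Nat.mul_comm m k]
      · rintro ⟨k, ⟨h3, h4⟩, rfl⟩
        rw [Nat.div_lt_iff_lt_mul hm] at h3
        rw [Nat.le_div_iff_mul_le hm] at h4
        exact ⟨⟨by linarith [Nat.mul_comm m k], by linarith [Nat.mul_comm m k]⟩, dvd_mul_right m k⟩
    rw [h2, card_image_of_injective _ (fun x y h => Nat.eq_of_mul_eq_mul_left hm h), Nat.card_Ioc]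
  rw [h1, Nat.cast_sub (Nat.div_le_div_right hab)]
  have ha1 : ((a / m : ℕ) : ℝ) ≤ (a : ℝ) / m := Nat.cast_div_le
  have hb1 : ((b / m : ℕ) : ℝ) ≤ (b : ℝ) / m := Nat.cast_div_le
  have ha2 : (a : ℝ) / m < ((a / m : ℕ) : ℝ) + 1 := by
    rw [div_lt_iff₀ hm']
    have := Nat.lt_mul_div_succ a hm
    have h2 : (a : ℝ) < m * ((a / m : ℕ) + 1 : ℕ) := by exact_mod_cast this
    push_cast at h2
    linarith
  have hb2 : (b : ℝ) / m < ((b / m : ℕ) : ℝ) + 1 := by
    rw [div_lt_iff₀ hm']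
    have := Nat.lt_mul_div_succ b hm
    have h2 : (b : ℝ) < m * ((b / m : ℕ) + 1 : ℕ) := by exact_mod_cast this
    push_cast at h2
    linarith
  rw [abs_le, sub_div]
  constructor <;> linarith

/-- the Selberg weights in an interval -/
lemma window_sq (D : ℕ) (x : ℕ → ℝ) {M : ℝ} (hM : ∀ d ∈ Icc 1 D, |x d| ≤ M) (a b : ℕ) (hab : a ≤ b) :
    ∑ n ∈ Ioc a b, dsum D x n ^ 2 ≤ ((b : ℝ) - a) *
      (∑ d ∈ Icc 1 D, ∑ e ∈ Icc 1 D, x d * x e * ((Nat.lcm d e : ℕ) : ℝ) ^ (-(1 : ℝ))) + (D * M) ^ 2 := by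
  have h1 : ∑ n ∈ Ioc a b, dsum D x n ^ 2 = ∑ d ∈ Icc 1 D, ∑ e ∈ Icc 1 D,
      x d * x e * (((Ioc a b).filter (fun n => Nat.lcm d e ∣ n)).card : ℝ) := by
    simp only [sq, dsum_mul]
    rw [sum_comm]
    apply sum_congr rfl
    intro d _
    rw [sum_comm]
    apply sum_congr rfl
    intro e _
    rw [← sum_filter, sum_const, nsmul_eq_mul]
    ring
  rw [h1, mul_sum]
  have h2 : (D * M) ^ 2 = ∑ d ∈ Icc 1 D, ∑ e ∈ Icc 1 D, M * M := by
    simp only [sum_const, Nat.card_Icc, nsmul_eq_mul, Nat.add_sub_cancel]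
    ring
  rw [h2, ← sum_add_distrib]
  apply sum_le_sum
  intro d hd
  rw [mul_sum, ← sum_add_distrib]
  apply sum_le_sum
  intro e he
  have hd1 := (mem_Icc.1 hd).1
  have he1 := (mem_Icc.1 he).1
  have h3 := count_mult a b (Nat.lcm d e) (Nat.lcm_pos hd1 he1) hab
  have h4 : |x d * x e| ≤ M * M := by
    rw [abs_mul]
    exact mul_le_mul (hM d hd) (hM e he) (abs_nonneg _) ((abs_nonneg _).trans (hM d hd))
  rw [Real.rpow_neg_one]
  have h5 : x d * x e * ((((Ioc a b).filter (fun n => Nat.lcm d e ∣ n)).card : ℝ) -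
      ((b : ℝ) - a) / ((Nat.lcm d e : ℕ) : ℝ)) ≤ M * M := by
    refine (le_abs_self _).trans ?_
    rw [abs_mul]
    calc _ ≤ (M * M) * 1 := mul_le_mul h4 h3 (abs_nonneg _) ((abs_nonneg _).trans h4)
      _ = _ := mul_one _
  have h6 : ((b : ℝ) - a) * (x d * x e * ((Nat.lcm d e : ℕ) : ℝ)⁻¹) =
      x d * x e * (((b : ℝ) - a) / ((Nat.lcm d e : ℕ) : ℝ)) := by ring
  rw [h6]
  linarith

lemma zeta_bound {α : ℝ} (hα : 0 < α) : ∑' n : ℕ, ((n : ℝ) ^ (-(1 + α))) ≤ 1 + 1 / α := by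
  have h1 : ∀ N : ℕ, ∑ i ∈ range (N + 2), ((i : ℝ) ^ (-(1 + α))) ≤
      1 + (1 - ((N + 1 : ℕ) : ℝ) ^ (-α)) / α := by
    intro N
    induction N with
    | zero =>
      rw [sum_range_succ, sum_range_succ, sum_range_zero]
      simp only [Nat.cast_zero, zero_add, Nat.cast_one, Real.one_rpow, sub_self, zero_div, add_zero]
      rw [Real.zero_rpow (by linarith), zero_add]
    | succ N ih =>
      rw [sum_range_succ]
      have hx0 : (0 : ℝ) < ((N + 2 : ℕ) : ℝ) := by positivity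
      have hn0 : (0 : ℝ) < ((N + 1 : ℕ) : ℝ) := by positivity
      set x : ℝ := ((N + 2 : ℕ) : ℝ) with hx
      have hn : ((N + 1 : ℕ) : ℝ) = x - 1 := by rw [hx]; push_cast; ring
      have h2 : x ^ (-α) * (1 + α / x) ≤ ((N + 1 : ℕ) : ℝ) ^ (-α) := by
        rw [Real.rpow_def_of_pos hx0, Real.rpow_def_of_pos hn0]
        have h3 : Real.log ((N + 1 : ℕ) : ℝ) ≤ Real.log x - 1 / x := by
          have h4 : Real.log (((N + 1 : ℕ) : ℝ) / x) ≤ ((N + 1 : ℕ) : ℝ) / x - 1 :=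
            Real.log_le_sub_one_of_pos (by positivity)
          rw [Real.log_div hn0.ne' hx0.ne'] at h4
          have h5 : ((N + 1 : ℕ) : ℝ) / x - 1 = -(1 / x) := by
            rw [hn]; field_simp; ring
          linarith
        have h4 : 1 + α / x ≤ Real.exp (α / x) := by linarith [Real.add_one_le_exp (α / x)]
        calc Real.exp (Real.log x * -α) * (1 + α / x) ≤
            Real.exp (Real.log x * -α) * Real.exp (α / x) :=
              mul_le_mul_of_nonneg_left h4 (Real.exp_pos _).le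
          _ = Real.exp (Real.log x * -α + α / x) := (Real.exp_add _ _).symm
          _ ≤ _ := by
            apply Real.exp_le_exp.2
            have h6 := mul_le_mul_of_nonneg_left h3 hα.le
            have h7 : α * (1 / x) = α / x := by ring
            nlinarith
      have h3 : x ^ (-(1 + α)) ≤ (((N + 1 : ℕ) : ℝ) ^ (-α) - x ^ (-α)) / α := by
        rw [le_div_iff₀ hα]
        have h4 : x ^ (-(1 + α)) = x ^ (-α) / x := by
          rw [show -(1 + α) = -α - 1 by ring, Real.rpow_sub_one hx0.ne']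
        rw [h4]
        have h5 : x ^ (-α) * (1 + α / x) = x ^ (-α) + x ^ (-α) / x * α := by ring
        linarith
      have h4 : (1 - x ^ (-α)) / α = (1 - ((N + 1 : ℕ) : ℝ) ^ (-α)) / α +
          (((N + 1 : ℕ) : ℝ) ^ (-α) - x ^ (-α)) / α := by
        rw [← add_div]; congr 1; ring
      rw [h4]
      linarith
  apply Real.tsum_le_of_sum_range_le (fun n => by positivity)
  intro n
  have h2 := h1 n
  have h3 : ∑ i ∈ range n, ((i : ℝ) ^ (-(1 + α))) ≤ ∑ i ∈ range (n + 2), ((i : ℝ) ^ (-(1 + α))) :=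
    sum_le_sum_of_subset_of_nonneg (range_subset_range.2 (by omega)) (fun _ _ _ => by positivity)
  have h4 : (1 - ((n + 1 : ℕ) : ℝ) ^ (-α)) / α ≤ 1 / α := by
    apply div_le_div_of_nonneg_right _ hα.le
    have : 0 ≤ ((n + 1 : ℕ) : ℝ) ^ (-α) := by positivity
    linarith
  linarith

lemma tsum_mult {s : ℝ} (hs : 1 < s) {m : ℕ} (hm : 1 ≤ m) :
    (Summable fun n : ℕ => if m ∣ n then (n : ℝ) ^ (-s) else 0) ∧
    ∑' n : ℕ, (if m ∣ n then (n : ℝ) ^ (-s) else 0) = (m : ℝ) ^ (-s) * ∑' n : ℕ, (n : ℝ) ^ (-s) := by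
  have hsum : Summable fun n : ℕ => (n : ℝ) ^ (-s) := Real.summable_nat_rpow.2 (by linarith)
  constructor
  · refine Summable.of_nonneg_of_le (fun n => ?_) (fun n => ?_) hsum
    · split_ifs
      · positivity
      · exact le_rfl
    · split_ifs
      · exact le_rfl
      · positivity
  · have hinj : Function.Injective (fun k : ℕ => m * k) := fun x y h => Nat.eq_of_mul_eq_mul_left hm h
    rw [← hinj.tsum_eq (f := fun n : ℕ => if m ∣ n then (n : ℝ) ^ (-s) else 0), ← tsum_mul_left]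
    · apply tsum_congr
      intro k
      rw [if_pos (dvd_mul_right m k)]
      push_cast
      rw [Real.mul_rpow (Nat.cast_nonneg _) (Nat.cast_nonneg _)]
    · intro n hn
      rw [Function.mem_support] at hn
      have : m ∣ n := by
        by_contra hc
        exact hn (if_neg hc)
      obtain ⟨k, rfl⟩ := this
      exact ⟨k, rfl⟩

lemma dsum_abs (D : ℕ) (x : ℕ → ℝ) {M : ℝ} (hM : ∀ d ∈ Icc 1 D, |x d| ≤ M) (n : ℕ) : |dsum D x n| ≤ D * M := by
  rcases Nat.eq_zero_or_pos D with rfl | hD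
  · simp [dsum]
  have hM0 : 0 ≤ M := (abs_nonneg _).trans (hM 1 (mem_Icc.2 ⟨le_rfl, hD⟩))
  unfold dsum
  refine (abs_sum_le_sum_abs _ _).trans ?_
  calc ∑ d ∈ (Icc 1 D).filter (fun d => d ∣ n), |x d| ≤ ∑ d ∈ (Icc 1 D).filter (fun d => d ∣ n), M :=
        sum_le_sum fun d hd => hM d (mem_filter.1 hd).1
    _ ≤ ∑ d ∈ Icc 1 D, M := sum_le_sum_of_subset_of_nonneg (filter_subset _ _) (fun _ _ _ => hM0)
    _ = D * M := by simp

lemma rankin_sq (D : ℕ) (x : ℕ → ℝ) {M : ℝ} (hM : ∀ d ∈ Icc 1 D, |x d| ≤ M) {s : ℝ} (hs : 1 < s) :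
    (Summable fun n : ℕ => dsum D x n ^ 2 * (n : ℝ) ^ (-s)) ∧
    ∑' n : ℕ, dsum D x n ^ 2 * (n : ℝ) ^ (-s) =
      (∑ d ∈ Icc 1 D, ∑ e ∈ Icc 1 D, x d * x e * ((Nat.lcm d e : ℕ) : ℝ) ^ (-s)) * ∑' n : ℕ, (n : ℝ) ^ (-s) := by
  have hsum : Summable fun n : ℕ => (n : ℝ) ^ (-s) := Real.summable_nat_rpow.2 (by linarith)
  constructor
  · refine Summable.of_nonneg_of_le (fun n => by positivity) (fun n => ?_) (hsum.mul_left ((D * M) ^ 2))
    apply mul_le_mul_of_nonneg_right _ (by positivity)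
    rw [← sq_abs]
    exact pow_le_pow_left₀ (abs_nonneg _) (dsum_abs D x hM n) 2
  · have h1 : ∀ n : ℕ, dsum D x n ^ 2 * (n : ℝ) ^ (-s) = ∑ d ∈ Icc 1 D, ∑ e ∈ Icc 1 D,
        x d * x e * (if Nat.lcm d e ∣ n then (n : ℝ) ^ (-s) else 0) := by
      intro n
      rw [sq, dsum_mul, sum_mul]
      apply sum_congr rfl
      intro d _
      rw [sum_mul]
      apply sum_congr rfl
      intro e _
      split_ifs <;> ring
    simp only [h1]
    have hlcm : ∀ d ∈ Icc 1 D, ∀ e ∈ Icc 1 D, 1 ≤ Nat.lcm d e := fun d hd e he =>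
      Nat.lcm_pos (mem_Icc.1 hd).1 (mem_Icc.1 he).1
    rw [Summable.tsum_finsetSum (fun d hd => summable_sum fun e he =>
      (tsum_mult hs (hlcm d hd e he)).1.mul_left _), sum_mul]
    apply sum_congr rfl
    intro d hd
    rw [Summable.tsum_finsetSum (fun e he => (tsum_mult hs (hlcm d hd e he)).1.mul_left _), sum_mul]
    apply sum_congr rfl
    intro e he
    rw [tsum_mul_left, (tsum_mult hs (hlcm d hd e he)).2]
    ring

/-- the logarithmic second moment -/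
theorem exists_S1 : ∃ C : ℝ, 0 < C ∧ ∀ D X : ℕ, 2 ≤ D → D ≤ X →
    ∑ n ∈ Icc 1 X, dsum D (lamc D) n ^ 2 / n ≤ C * Real.log D * Real.log X := by
  obtain ⟨C, hC, hQ⟩ := exists_QF
  have hl2 : (1/2 : ℝ) < Real.log 2 := by have := Real.log_two_gt_d9; linarith
  refine ⟨9 * C, by positivity, fun D X hD hDX => ?_⟩
  have hD' : (2 : ℝ) ≤ D := by exact_mod_cast hD
  have hX' : (D : ℝ) ≤ X := by exact_mod_cast hDX
  have hlD : 0 < Real.log D := Real.log_pos (by linarith)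
  have hlDX : Real.log D ≤ Real.log X := Real.log_le_log (by linarith) hX'
  have hlX : 0 < Real.log X := by linarith
  have hlX2 : 1 / 2 ≤ Real.log X := by
    have : Real.log 2 ≤ Real.log D := Real.log_le_log (by norm_num) hD'
    linarith
  set α : ℝ := 1 / Real.log X with hα
  have hα0 : 0 < α := by positivity
  have hM : ∀ d ∈ Icc 1 D, |lamc D d| ≤ Real.log D := fun d hd => lamc_abs (mem_Icc.1 hd).1 (mem_Icc.1 hd).2
  obtain ⟨hs1, hs2⟩ := rankin_sq D (lamc D) hM (s := 1 + α) (by linarith)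
  have h1 : ∑ n ∈ Icc 1 X, dsum D (lamc D) n ^ 2 / n ≤
      ∑ n ∈ Icc 1 X, 3 * (dsum D (lamc D) n ^ 2 * (n : ℝ) ^ (-(1 + α))) := by
    apply sum_le_sum
    intro n hn
    rw [mem_Icc] at hn
    have hn0 : (0 : ℝ) < n := by exact_mod_cast hn.1
    have hn1 : (n : ℝ) ≤ X := by exact_mod_cast hn.2
    have h2 : 1 / (n : ℝ) ≤ 3 * (n : ℝ) ^ (-(1 + α)) := by
      rw [Real.rpow_def_of_pos hn0, show Real.log n * -(1 + α) = -Real.log n + -(α * Real.log n) by ring,
        Real.exp_add, Real.exp_neg, Real.exp_log hn0, one_div]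
      have h3 : α * Real.log n ≤ 1 := by
        have := Real.log_le_log hn0 hn1
        rw [hα]
        rw [div_mul_eq_mul_div, one_mul, div_le_one hlX]
        exact this
      have h4 : 1 ≤ 3 * Real.exp (-(α * Real.log n)) := by
        have h5 : Real.exp (-1) ≤ Real.exp (-(α * Real.log n)) := Real.exp_le_exp.2 (by linarith)
        have h6 : (1 : ℝ) / 3 ≤ Real.exp (-1) := by
          rw [Real.exp_neg, one_div]
          apply inv_anti₀ (Real.exp_pos _)
          have := Real.exp_one_lt_d9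
          linarith
        linarith
      have h5 : 0 < (n : ℝ)⁻¹ := by positivity
      nlinarith
    calc dsum D (lamc D) n ^ 2 / n = dsum D (lamc D) n ^ 2 * (1 / n) := by ring
      _ ≤ dsum D (lamc D) n ^ 2 * (3 * (n : ℝ) ^ (-(1 + α))) := mul_le_mul_of_nonneg_left h2 (sq_nonneg _)
      _ = _ := by ring
  refine h1.trans ?_
  rw [← mul_sum]
  have h2 : ∑ n ∈ Icc 1 X, dsum D (lamc D) n ^ 2 * (n : ℝ) ^ (-(1 + α)) ≤
      ∑' n : ℕ, dsum D (lamc D) n ^ 2 * (n : ℝ) ^ (-(1 + α)) :=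
    hs1.sum_le_tsum _ (fun n _ => by positivity)
  rw [hs2] at h2
  have h3 : QF D (1 + α) ≤ C * Real.log D := hQ D hD α hα0.le (by
    rw [hα, div_mul_eq_mul_div, one_mul, div_le_one hlX]; exact hlDX)
  have h4 : ∑' n : ℕ, ((n : ℝ) ^ (-(1 + α))) ≤ 3 * Real.log X := by
    refine (zeta_bound hα0).trans ?_
    rw [hα, one_div_one_div]
    linarith
  have h5 : 0 ≤ ∑' n : ℕ, ((n : ℝ) ^ (-(1 + α))) := tsum_nonneg fun n => by positivity
  change _ ≤ QF D (1 + α) * _ at h2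
  calc 3 * _ ≤ 3 * (QF D (1 + α) * ∑' n : ℕ, ((n : ℝ) ^ (-(1 + α)))) := by linarith
    _ ≤ 3 * ((C * Real.log D) * (3 * Real.log X)) := by
        apply mul_le_mul_of_nonneg_left _ (by norm_num)
        calc QF D (1 + α) * ∑' n : ℕ, ((n : ℝ) ^ (-(1 + α))) ≤ (C * Real.log D) * ∑' n : ℕ, ((n : ℝ) ^ (-(1 + α))) :=
              mul_le_mul_of_nonneg_right h3 h5
          _ ≤ _ := mul_le_mul_of_nonneg_left h4 (by positivity)
    _ = _ := by ring

/-- the second moment in an interval -/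
theorem exists_S2 : ∃ C : ℝ, 0 < C ∧ ∀ D a b : ℕ, 2 ≤ D → a ≤ b →
    ∑ n ∈ Ioc a b, dsum D (lamc D) n ^ 2 ≤ C * Real.log D * ((b : ℝ) - a) + (D * Real.log D) ^ 2 := by
  obtain ⟨C, hC, hQ⟩ := exists_QF
  refine ⟨C, hC, fun D a b hD hab => ?_⟩
  have h1 := window_sq D (lamc D) (fun d hd => lamc_abs (mem_Icc.1 hd).1 (mem_Icc.1 hd).2) a b hab
  have h2 := hQ D hD 0 le_rfl (by simp)
  rw [add_zero] at h2
  refine h1.trans ?_
  have h3 : (0 : ℝ) ≤ (b : ℝ) - a := by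
    have : (a : ℝ) ≤ b := by exact_mod_cast hab
    linarith
  have h4 := mul_le_mul_of_nonneg_left h2 h3
  unfold QF at h4
  linarith

end Pool.Agent.Helper86.PS
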