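import Pool.Agent.Helper86.PS.MV

set_option autoImplicit false

/-!
# The mollified L-functions
-/

open Finset ArithmeticFunction MeasureTheory
open scoped Real

namespace Pool.Agent.Helper86.PS

open Pool.Agent.H307R2 (TM TM_norm_le Ech Ech_norm_le Ez Ez_norm_le LFunction_eq zeta_eq)

/-- the first weights, between `D1` and `D2` -/
noncomputable def lam1 (D1 D2 : ℕ) (d : ℕ) : ℝ :=
  (lamc D2 d - (if d ≤ D1 then lamc D1 d else 0)) / Real.log ((D2 : ℝ) / D1)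

/-- the second weights -/
noncomputable def lam2 (R : ℕ) (e : ℕ) : ℝ := lamc R e / Real.log R

lemma lam1_low {D1 D2 d : ℕ} (hD1 : 1 ≤ D1) (hD : D1 < D2) (hd : 1 ≤ d) (hd1 : d ≤ D1) :
    lam1 D1 D2 d = moebius d := by
  have h1 : (0 : ℝ) < D1 := by exact_mod_cast hD1
  have h2 : (D1 : ℝ) < D2 := by exact_mod_cast hD
  have h3 : (0 : ℝ) < d := by exact_mod_cast hd
  have h4 : 0 < Real.log ((D2 : ℝ) / D1) := Real.log_pos (by rw [lt_div_iff₀ h1]; linarith)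
  unfold lam1 lamc
  rw [if_pos hd1, Real.log_div (by linarith) h3.ne', Real.log_div h1.ne' h3.ne', div_eq_iff h4.ne',
    Real.log_div (by linarith) h1.ne']
  ring

lemma lam1_abs {D1 D2 d : ℕ} (hD1 : 1 ≤ D1) (hD : D1 < D2) (hd : 1 ≤ d) (hd2 : d ≤ D2) :
    |lam1 D1 D2 d| ≤ 1 := by
  by_cases hd1 : d ≤ D1
  · rw [lam1_low hD1 hD hd hd1]; exact abs_mu_le d
  · have h1 : (0 : ℝ) < D1 := by exact_mod_cast hD1
    have h2 : (D1 : ℝ) < D2 := by exact_mod_cast hD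
    have h3 : (D1 : ℝ) < d := by exact_mod_cast (not_le.1 hd1)
    have h3' : (d : ℝ) ≤ D2 := by exact_mod_cast hd2
    have h4 : 0 < Real.log ((D2 : ℝ) / D1) := Real.log_pos (by rw [lt_div_iff₀ h1]; linarith)
    unfold lam1 lamc
    rw [if_neg hd1, sub_zero, abs_div, abs_of_pos h4, div_le_one h4, abs_mul]
    have h5 : 0 ≤ Real.log ((D2 : ℝ) / d) := Real.log_nonneg (by rw [le_div_iff₀ (by linarith)]; linarith)
    have h6 : Real.log ((D2 : ℝ) / d) ≤ Real.log ((D2 : ℝ) / D1) := by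
      apply Real.log_le_log (div_pos (by linarith) (by linarith))
      exact div_le_div_of_nonneg_left (by linarith) h1 h3.le
    rw [abs_of_nonneg h5]
    calc |(moebius d : ℝ)| * Real.log ((D2 : ℝ) / d) ≤ 1 * Real.log ((D2 : ℝ) / d) :=
          mul_le_mul_of_nonneg_right (abs_mu_le d) h5
      _ ≤ _ := by rw [one_mul]; exact h6

lemma lam2_abs {R e : ℕ} (hR : 2 ≤ R) (he : 1 ≤ e) (heR : e ≤ R) : |lam2 R e| ≤ 1 := by
  have h4 : 0 < Real.log R := Real.log_pos (by exact_mod_cast (by omega : 1 < R))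
  unfold lam2
  rw [abs_div, abs_of_pos h4, div_le_one h4]
  exact lamc_abs he heR

lemma dsum_one (D : ℕ) (hD : 1 ≤ D) (x : ℕ → ℝ) : dsum D x 1 = x 1 := by
  unfold dsum
  have : (Icc 1 D).filter (fun d => d ∣ 1) = {1} := by
    ext d
    simp only [mem_filter, mem_Icc, Nat.dvd_one, mem_singleton]
    constructor
    · rintro ⟨_, h⟩; exact h
    · rintro rfl; exact ⟨⟨le_rfl, hD⟩, rfl⟩
  rw [this, sum_singleton]

lemma dsum_lam1_one {D1 D2 : ℕ} (hD1 : 1 ≤ D1) (hD : D1 < D2) : dsum D2 (lam1 D1 D2) 1 = 1 := by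
  rw [dsum_one D2 (by omega), lam1_low hD1 hD le_rfl hD1]
  simp

lemma dsum_lam1_low {D1 D2 : ℕ} (hD1 : 1 ≤ D1) (hD : D1 < D2) {n : ℕ} (h1 : 1 < n) (hn : n ≤ D1) :
    dsum D2 (lam1 D1 D2) n = 0 := by
  unfold dsum
  have h2 : (Icc 1 D2).filter (fun d => d ∣ n) = n.divisors := by
    ext d
    simp only [mem_filter, mem_Icc, Nat.mem_divisors]
    constructor
    · rintro ⟨_, h⟩; exact ⟨h, by omega⟩
    · rintro ⟨h, _⟩
      exact ⟨⟨Nat.pos_of_dvd_of_pos h (by omega), (Nat.le_of_dvd (by omega) h).trans (by omega)⟩, h⟩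
  rw [h2]
  have h3 : ∀ d ∈ n.divisors, lam1 D1 D2 d = (moebius d : ℝ) := by
    intro d hd
    rw [Nat.mem_divisors] at hd
    exact lam1_low hD1 hD (Nat.pos_of_dvd_of_pos hd.1 (by omega)) ((Nat.le_of_dvd (by omega) hd.1).trans hn)
  rw [sum_congr rfl h3, sum_mu_divisors n (by omega), if_neg (by omega)]

lemma dsum_lam2_one {R : ℕ} (hR : 2 ≤ R) : dsum R (lam2 R) 1 = 1 := by
  have h4 : 0 < Real.log R := Real.log_pos (by exact_mod_cast (by omega : 1 < R))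
  rw [dsum_one R (by omega)]
  unfold lam2 lamc
  simp [h4.ne']

/-- the coefficients of the mollified L-function -/
noncomputable def cc (D1 D2 R : ℕ) (n : ℕ) : ℝ := dsum D2 (lam1 D1 D2) n * dsum R (lam2 R) n

lemma cc_one {D1 D2 R : ℕ} (hD1 : 1 ≤ D1) (hD : D1 < D2) (hR : 2 ≤ R) : cc D1 D2 R 1 = 1 := by
  unfold cc
  rw [dsum_lam1_one hD1 hD, dsum_lam2_one hR, one_mul]

lemma cc_low {D1 D2 R : ℕ} (hD1 : 1 ≤ D1) (hD : D1 < D2) {n : ℕ} (h1 : 1 < n) (hn : n ≤ D1) :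
    cc D1 D2 R n = 0 := by
  unfold cc
  rw [dsum_lam1_low hD1 hD h1 hn, zero_mul]

/-- rearrangement -/
lemma cc_sum (D1 D2 R X : ℕ) (g : ℕ → ℂ) :
    ∑ d ∈ Icc 1 D2, ∑ e ∈ Icc 1 R, ((lam1 D1 D2 d * lam2 R e : ℝ) : ℂ) *
      ∑ m ∈ Icc 1 (X / Nat.lcm d e), g (Nat.lcm d e * m) = ∑ n ∈ Icc 1 X, ((cc D1 D2 R n : ℝ) : ℂ) * g n := by
  have h1 : ∀ n ∈ Icc 1 X, ((cc D1 D2 R n : ℝ) : ℂ) * g n = ∑ d ∈ Icc 1 D2, ∑ e ∈ Icc 1 R,
      if Nat.lcm d e ∣ n then ((lam1 D1 D2 d * lam2 R e : ℝ) : ℂ) * g n else 0 := by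
    intro n _
    unfold cc
    rw [dsum_mul]
    push_cast
    rw [sum_mul]
    apply sum_congr rfl
    intro d _
    rw [sum_mul]
    apply sum_congr rfl
    intro e _
    split_ifs <;> simp
  rw [sum_congr rfl h1]
  symm
  rw [sum_comm]
  apply sum_congr rfl
  intro d hd
  rw [sum_comm]
  apply sum_congr rfl
  intro e he
  have hl : 1 ≤ Nat.lcm d e := Nat.lcm_pos (mem_Icc.1 hd).1 (mem_Icc.1 he).1
  set l := Nat.lcm d e with hld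
  rw [← sum_filter, mul_sum]
  have h2 : (Icc 1 X).filter (fun n => l ∣ n) = (Icc 1 (X / l)).image (fun k => l * k) := by
    ext n
    simp only [mem_filter, mem_Icc, mem_image]
    constructor
    · rintro ⟨⟨h3, h4⟩, k, rfl⟩
      refine ⟨k, ⟨Nat.pos_of_mul_pos_left h3, ?_⟩, rfl⟩
      rw [Nat.le_div_iff_mul_le hl]; linarith [Nat.mul_comm l k]
    · rintro ⟨k, ⟨h3, h4⟩, rfl⟩
      rw [Nat.le_div_iff_mul_le hl] at h4
      exact ⟨⟨Nat.mul_pos hl h3, by linarith [Nat.mul_comm l k]⟩, dvd_mul_right l k⟩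
  rw [h2, sum_image (fun x _ y _ h => Nat.eq_of_mul_eq_mul_left hl h)]

/-- the mollifier -/
noncomputable def moll (D1 D2 R : ℕ) (j : PC) (s : ℂ) : ℂ :=
  ∑ d ∈ Icc 1 D2, ∑ e ∈ Icc 1 R, ((lam1 D1 D2 d * lam2 R e : ℝ) : ℂ) *
    (fn j (Nat.lcm d e) * ((Nat.lcm d e : ℕ) : ℂ) ^ (-s))

/-- the mollified L-function -/
noncomputable def ZZ (D1 D2 R : ℕ) (j : PC) (s : ℂ) : ℂ := j.2.LFunction s * moll D1 D2 R j s

lemma lcm_le_mul (d e : ℕ) (hd : 1 ≤ d) (he : 1 ≤ e) : Nat.lcm d e ≤ d * e :=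
  Nat.le_of_dvd (Nat.mul_pos hd he) (Nat.lcm_dvd (dvd_mul_right d e) (dvd_mul_left e d))

/-- sizes: `l ⌊X / l⌋ ≥ X / 2` -/
lemma half_le {X l : ℕ} (hl : 1 ≤ l) (hX : l ≤ X) : (X : ℝ) / 2 ≤ l * ((X / l : ℕ) : ℝ) := by
  have h1 : 1 ≤ X / l := (Nat.one_le_div_iff hl).2 hX
  have h2 := Nat.lt_mul_div_succ X hl
  have h3 : (X : ℝ) < l * (((X / l : ℕ) : ℝ) + 1) := by exact_mod_cast h2
  have h4 : (1 : ℝ) ≤ ((X / l : ℕ) : ℝ) := by exact_mod_cast h1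
  have h5 : (0 : ℝ) < l := by exact_mod_cast hl
  nlinarith

lemma pow_bound {X l : ℕ} (hl : 1 ≤ l) (hX : l ≤ X) {σ : ℝ} (hσ : 1 / 2 ≤ σ) (hX2 : 2 ≤ X) :
    (l : ℝ) ^ (-σ) * ((X / l : ℕ) : ℝ) ^ (-σ) ≤ ((X : ℝ) / 2) ^ (-(1 / 2 : ℝ)) := by
  have h1 : 1 ≤ X / l := (Nat.one_le_div_iff hl).2 hX
  have h4 : (1 : ℝ) ≤ ((X / l : ℕ) : ℝ) := by exact_mod_cast h1
  have h5 : (0 : ℝ) < l := by exact_mod_cast hl
  have hX2' : (2 : ℝ) ≤ X := by exact_mod_cast hX2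
  rw [← Real.mul_rpow h5.le (by linarith)]
  have h2 := half_le hl hX
  have h3 : (1 : ℝ) ≤ (X : ℝ) / 2 := by linarith
  calc ((l : ℝ) * ((X / l : ℕ) : ℝ)) ^ (-σ) ≤ ((X : ℝ) / 2) ^ (-σ) :=
        Real.rpow_le_rpow_of_nonpos (by linarith) h2 (by linarith)
    _ ≤ _ := Real.rpow_le_rpow_of_exponent_le h3 (by linarith)

lemma cpow_nat_mul (l m : ℕ) (s : ℂ) : (((l * m : ℕ) : ℂ)) ^ s = (l : ℂ) ^ s * (m : ℂ) ^ s := by
  push_cast
  exact Complex.natCast_mul_natCast_cpow l m s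

/-- the truncation for a nontrivial character -/
lemma trunc_char {D1 D2 R X : ℕ} (hD1 : 1 ≤ D1) (hD : D1 < D2) (hR : 2 ≤ R) (hX : D2 * R ≤ X) {j : PC}
    (hj : j.2 ≠ 1) {s : ℂ} (hs : 1 / 2 ≤ s.re) :
    ‖ZZ D1 D2 R j s - ∑ n ∈ Icc 1 X, ((cc D1 D2 R n : ℝ) : ℂ) * (fn j n * (n : ℂ) ^ (-s))‖ ≤
      D2 * R * (2 * ‖s‖ * (j.1 + 1) * ((X : ℝ) / 2) ^ (-(1 / 2 : ℝ))) := by
  have hX2 : 2 ≤ X := by nlinarith
  rw [← cc_sum D1 D2 R X (fun n => fn j n * (n : ℂ) ^ (-s))]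
  unfold ZZ moll
  rw [mul_sum, ← sum_sub_distrib]
  have hterm : ∀ d ∈ Icc 1 D2, ∀ e ∈ Icc 1 R,
      ‖j.2.LFunction s * (((lam1 D1 D2 d * lam2 R e : ℝ) : ℂ) *
        (fn j (Nat.lcm d e) * ((Nat.lcm d e : ℕ) : ℂ) ^ (-s))) -
        ((lam1 D1 D2 d * lam2 R e : ℝ) : ℂ) *
      ∑ m ∈ Icc 1 (X / Nat.lcm d e), fn j (Nat.lcm d e * m) * ((Nat.lcm d e * m : ℕ) : ℂ) ^ (-s)‖ ≤
        2 * ‖s‖ * (j.1 + 1) * ((X : ℝ) / 2) ^ (-(1 / 2 : ℝ)) := by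
    intro d hd e he
    rw [mem_Icc] at hd he
    set l := Nat.lcm d e with hl
    have hl1 : 1 ≤ l := Nat.lcm_pos hd.1 he.1
    have hlX : l ≤ X := (lcm_le_mul d e hd.1 he.1).trans ((Nat.mul_le_mul hd.2 he.2).trans hX)
    have hN : 1 ≤ X / l := (Nat.one_le_div_iff hl1).2 hlX
    have hLF := LFunction_eq hj hN (s := s) (by linarith)
    have e1 : ∀ m, fn j (l * m) * ((l * m : ℕ) : ℂ) ^ (-s) =
        (fn j l * (l : ℂ) ^ (-s)) * (j.2 (m : ZMod (j.1 + 1)) * (m : ℂ) ^ (-s)) := by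
      intro m
      rw [fn_mul, cpow_nat_mul]
      unfold fn
      ring
    rw [sum_congr rfl fun m _ => e1 m, ← mul_sum]
    have e2 : j.2.LFunction s * (((lam1 D1 D2 d * lam2 R e : ℝ) : ℂ) * (fn j l * (l : ℂ) ^ (-s))) -
        ((lam1 D1 D2 d * lam2 R e : ℝ) : ℂ) * ((fn j l * (l : ℂ) ^ (-s)) *
        ∑ m ∈ Icc 1 (X / l), j.2 (m : ZMod (j.1 + 1)) * (m : ℂ) ^ (-s)) =
        ((lam1 D1 D2 d * lam2 R e : ℝ) : ℂ) * (fn j l * (l : ℂ) ^ (-s)) *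
          (s * TM (X / l) (Ech j.2 (X / l)) s) := by
      rw [hLF]; ring
    rw [e2, norm_mul, norm_mul, norm_mul, norm_mul, Complex.norm_real, Real.norm_eq_abs, abs_mul]
    have h1 : |lam1 D1 D2 d| * |lam2 R e| ≤ 1 :=
      mul_le_one₀ (lam1_abs hD1 hD hd.1 hd.2) (abs_nonneg _) (lam2_abs hR he.1 he.2)
    have h2 : ‖(l : ℂ) ^ (-s)‖ = (l : ℝ) ^ (-s.re) := by
      rw [Complex.norm_natCast_cpow_of_pos hl1, Complex.neg_re]
    have h3 := TM_norm_le hN (Ech_norm_le hj (X / l)) (s := s) (by linarith)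
    have h4 := pow_bound hl1 hlX hs hX2
    have hr : (0 : ℝ) < s.re := by linarith
    have h5 : ((j.1 + 1 : ℕ) : ℝ) * (((X / l : ℕ) : ℝ) ^ (-s.re) / s.re) ≤
        (j.1 + 1) * (((X / l : ℕ) : ℝ) ^ (-s.re) * 2) := by
      push_cast
      apply mul_le_mul_of_nonneg_left _ (by positivity)
      rw [div_le_iff₀ hr]
      have : 0 ≤ ((X / l : ℕ) : ℝ) ^ (-s.re) := by positivity
      nlinarith
    rw [h2]
    calc |lam1 D1 D2 d| * |lam2 R e| * (‖fn j l‖ * (l : ℝ) ^ (-s.re)) * (‖s‖ * ‖TM (X / l) (Ech j.2 (X / l)) s‖)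
        ≤ 1 * (1 * (l : ℝ) ^ (-s.re)) * (‖s‖ * ((j.1 + 1) * (((X / l : ℕ) : ℝ) ^ (-s.re) * 2))) := by
          gcongr
          · exact fn_norm_le j l
          · exact h3.trans h5
      _ = 2 * ‖s‖ * (j.1 + 1) * ((l : ℝ) ^ (-s.re) * ((X / l : ℕ) : ℝ) ^ (-s.re)) := by ring
      _ ≤ _ := by gcongr
  calc ‖∑ d ∈ Icc 1 D2, (j.2.LFunction s * ∑ e ∈ Icc 1 R, ((lam1 D1 D2 d * lam2 R e : ℝ) : ℂ) *
        (fn j (Nat.lcm d e) * ((Nat.lcm d e : ℕ) : ℂ) ^ (-s)) -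
        ∑ e ∈ Icc 1 R, ((lam1 D1 D2 d * lam2 R e : ℝ) : ℂ) *
      ∑ m ∈ Icc 1 (X / Nat.lcm d e), fn j (Nat.lcm d e * m) * ((Nat.lcm d e * m : ℕ) : ℂ) ^ (-s))‖
      ≤ ∑ d ∈ Icc 1 D2, ∑ e ∈ Icc 1 R, 2 * ‖s‖ * (j.1 + 1) * ((X : ℝ) / 2) ^ (-(1 / 2 : ℝ)) := by
        refine (norm_sum_le _ _).trans ?_
        apply sum_le_sum
        intro d hd
        rw [mul_sum, ← sum_sub_distrib]
        refine (norm_sum_le _ _).trans ?_
        apply sum_le_sum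
        intro e he
        exact hterm d hd e he
    _ = _ := by
        simp only [sum_const, Nat.card_Icc, nsmul_eq_mul, Nat.add_sub_cancel]
        ring

/-- the mean value of the weights -/
noncomputable def Gbar (D1 D2 R : ℕ) : ℝ :=
  ∑ d ∈ Icc 1 D2, ∑ e ∈ Icc 1 R, lam1 D1 D2 d * lam2 R e * ((Nat.lcm d e : ℕ) : ℝ) ^ (-(1 : ℝ))

lemma rpow_diff {N : ℕ} (hN : 1 ≤ N) {y : ℝ} (hy : (N : ℝ) ≤ y) (hy1 : y ≤ N + 1) {s : ℂ} (hs : 0 ≤ s.re) :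
    ‖(y : ℂ) ^ (1 - s) - (N : ℂ) ^ (1 - s)‖ ≤ ‖1 - s‖ * (N : ℝ) ^ (-s.re) := by
  have hN0 : (0 : ℝ) < N := by exact_mod_cast hN
  have hderiv : ∀ t ∈ Set.Icc (N : ℝ) y, HasDerivWithinAt (fun t : ℝ => (t : ℂ) ^ (1 - s))
      ((1 - s) * (t : ℂ) ^ (-s)) (Set.Icc (N : ℝ) y) t := by
    intro t ht
    have ht0 : 0 < t := lt_of_lt_of_le hN0 ht.1
    by_cases h1s : 1 - s = 0
    · rw [h1s]
      simp only [Complex.cpow_zero, zero_mul]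
      exact hasDerivWithinAt_const _ _ _
    · have h := (hasDerivAt_ofReal_cpow_const' ht0.ne' (r := -s) (by
        intro h; apply h1s; linear_combination h)).hasDerivWithinAt (s := Set.Icc (N : ℝ) y)
      have h2 := h.const_mul (1 - s)
      have e1 : -s + 1 = 1 - s := by ring
      rw [e1] at h2
      refine h2.congr_of_mem ?_ ht |>.congr_deriv rfl
      intro x _
      field_simp
  have hb : ∀ t ∈ Set.Ico (N : ℝ) y, ‖(1 - s) * (t : ℂ) ^ (-s)‖ ≤ ‖1 - s‖ * (N : ℝ) ^ (-s.re) := by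
    intro t ht
    have ht0 : 0 < t := lt_of_lt_of_le hN0 ht.1
    rw [norm_mul, Complex.norm_cpow_eq_rpow_re_of_pos ht0, Complex.neg_re]
    apply mul_le_mul_of_nonneg_left _ (norm_nonneg _)
    exact Real.rpow_le_rpow_of_nonpos hN0 ht.1 (by linarith)
  have h := norm_image_sub_le_of_norm_deriv_le_segment' hderiv hb y ⟨hy, le_rfl⟩
  simp only [Complex.ofReal_natCast] at h
  refine h.trans ?_
  calc _ ≤ ‖1 - s‖ * (N : ℝ) ^ (-s.re) * 1 := by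
        apply mul_le_mul_of_nonneg_left _ (by positivity)
        linarith
    _ = _ := mul_one _

/-- the truncation for the zeta function -/
lemma trunc_zeta {D1 D2 R X : ℕ} (hD1 : 1 ≤ D1) (hD : D1 < D2) (hR : 2 ≤ R) (hX : D2 * R ≤ X)
    {s : ℂ} (hs : 1 / 2 ≤ s.re) (hs1 : s ≠ 1) :
    ‖ZZ D1 D2 R ⟨0, 1⟩ s - ∑ n ∈ Icc 1 X, ((cc D1 D2 R n : ℝ) : ℂ) * (fn ⟨0, 1⟩ n * (n : ℂ) ^ (-s)) -
      ((Gbar D1 D2 R : ℝ) : ℂ) * ((X : ℂ) ^ (1 - s) / (s - 1))‖ ≤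
      D2 * R * ((2 * ‖s‖ + 1) * ((X : ℝ) / 2) ^ (-(1 / 2 : ℝ))) := by
  have hX2 : 2 ≤ X := by nlinarith
  have hs1' : s - 1 ≠ 0 := sub_ne_zero.2 hs1
  rw [← cc_sum D1 D2 R X (fun n => fn ⟨0, 1⟩ n * (n : ℂ) ^ (-s))]
  unfold ZZ moll Gbar
  push_cast
  rw [mul_sum, sum_mul, ← sum_sub_distrib, ← sum_sub_distrib]
  have hLz : ((⟨0, 1⟩ : PC).2).LFunction s = riemannZeta s := by
    have := DirichletCharacter.LFunction_modOne_eq (χ := (1 : DirichletCharacter ℂ 1))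
    exact congrFun this s
  have hfn : ∀ n : ℕ, fn ⟨0, 1⟩ n = 1 := by
    intro n
    unfold fn
    have hss : Subsingleton (ZMod (0 + 1)) := inferInstanceAs (Subsingleton (ZMod 1))
    have : ((n : ZMod (0 + 1))) = 1 := Subsingleton.elim _ _
    rw [this, map_one]
  have hterm : ∀ d ∈ Icc 1 D2, ∀ e ∈ Icc 1 R,
      ‖riemannZeta s * (((lam1 D1 D2 d : ℂ) * (lam2 R e : ℂ)) *
        (fn ⟨0, 1⟩ (Nat.lcm d e) * ((Nat.lcm d e : ℕ) : ℂ) ^ (-s))) -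
        ((lam1 D1 D2 d : ℂ) * (lam2 R e : ℂ)) *
      ∑ m ∈ Icc 1 (X / Nat.lcm d e), fn ⟨0, 1⟩ (Nat.lcm d e * m) * (((Nat.lcm d e : ℕ) : ℂ) * (m : ℂ)) ^ (-s) -
      ((lam1 D1 D2 d : ℂ) * (lam2 R e : ℂ) * ((((Nat.lcm d e : ℕ) : ℝ) ^ (-(1 : ℝ)) : ℝ) : ℂ)) *
        ((X : ℂ) ^ (1 - s) / (s - 1))‖ ≤
        (2 * ‖s‖ + 1) * ((X : ℝ) / 2) ^ (-(1 / 2 : ℝ)) := by
    intro d hd e he
    rw [mem_Icc] at hd he
    set l := Nat.lcm d e with hl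
    have hl1 : 1 ≤ l := Nat.lcm_pos hd.1 he.1
    have hl0 : (0 : ℝ) < l := by exact_mod_cast hl1
    have hlX : l ≤ X := (lcm_le_mul d e hd.1 he.1).trans ((Nat.mul_le_mul hd.2 he.2).trans hX)
    have hN : 1 ≤ X / l := (Nat.one_le_div_iff hl1).2 hlX
    have hLF := zeta_eq hN (s := s) (by linarith) hs1
    have hX0 : (0 : ℝ) < X := by exact_mod_cast (by omega : 0 < X)
    set y : ℝ := (X : ℝ) / l with hy
    have hy0 : 0 < y := by positivity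
    have hy1 : ((X / l : ℕ) : ℝ) ≤ y := Nat.cast_div_le
    have hy2 : y ≤ ((X / l : ℕ) : ℝ) + 1 := by
      rw [hy, div_le_iff₀ hl0]
      have h2 := Nat.lt_mul_div_succ X hl1
      have h3 : (X : ℝ) < l * (((X / l : ℕ) : ℝ) + 1) := by exact_mod_cast h2
      linarith
    have hdiff := rpow_diff hN hy1 hy2 (s := s) (by linarith)
    have e1 : ∀ m : ℕ, fn ⟨0, 1⟩ (l * m) * ((l : ℂ) * (m : ℂ)) ^ (-s) =
        (l : ℂ) ^ (-s) * (m : ℂ) ^ (-s) := by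
      intro m
      rw [hfn, one_mul, ← Nat.cast_mul, cpow_nat_mul]
    rw [sum_congr rfl fun m _ => e1 m, ← mul_sum, hfn, one_mul]
    have e3 : (X : ℂ) ^ (1 - s) = (l : ℂ) ^ (1 - s) * (y : ℂ) ^ (1 - s) := by
      have : (X : ℂ) = ((l : ℝ) : ℂ) * ((y : ℝ) : ℂ) := by
        rw [← Complex.ofReal_mul, hy]
        rw [mul_div_cancel₀ _ hl0.ne']
        simp
      rw [this, Complex.mul_cpow_ofReal_nonneg hl0.le hy0.le]
      simp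
    have e4 : ((((l : ℕ) : ℝ) ^ (-(1 : ℝ)) : ℝ) : ℂ) * (l : ℂ) ^ (1 - s) = (l : ℂ) ^ (-s) := by
      have hlc : (l : ℂ) ≠ 0 := by exact_mod_cast hl0.ne'
      rw [Real.rpow_neg_one, show (1 - s : ℂ) = 1 + -s by ring, Complex.cpow_add _ _ hlc, Complex.cpow_one]
      push_cast
      field_simp
    have e2 : riemannZeta s * (((lam1 D1 D2 d : ℂ) * (lam2 R e : ℂ)) * (l : ℂ) ^ (-s)) -
        ((lam1 D1 D2 d : ℂ) * (lam2 R e : ℂ)) * ((l : ℂ) ^ (-s) * ∑ m ∈ Icc 1 (X / l), (m : ℂ) ^ (-s)) -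
        ((lam1 D1 D2 d : ℂ) * (lam2 R e : ℂ) * ((((l : ℕ) : ℝ) ^ (-(1 : ℝ)) : ℝ) : ℂ)) *
        ((X : ℂ) ^ (1 - s) / (s - 1)) =
        (((lam1 D1 D2 d * lam2 R e : ℝ) : ℂ) * (l : ℂ) ^ (-s)) *
          (s * TM (X / l) Ez s - ((y : ℂ) ^ (1 - s) - ((X / l : ℕ) : ℂ) ^ (1 - s)) / (s - 1)) := by
      rw [hLF, e3]
      have e5 : ((lam1 D1 D2 d : ℂ) * (lam2 R e : ℂ) * ((((l : ℕ) : ℝ) ^ (-(1 : ℝ)) : ℝ) : ℂ)) *
        ((l : ℂ) ^ (1 - s) * (y : ℂ) ^ (1 - s) / (s - 1)) =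
        ((lam1 D1 D2 d : ℂ) * (lam2 R e : ℂ)) * (((((l : ℕ) : ℝ) ^ (-(1 : ℝ)) : ℝ) : ℂ) * (l : ℂ) ^ (1 - s)) *
          (y : ℂ) ^ (1 - s) / (s - 1) := by ring
      rw [e5, e4]
      push_cast
      ring
    rw [e2, norm_mul, norm_mul, Complex.norm_real, Real.norm_eq_abs, abs_mul]
    have h1 : |lam1 D1 D2 d| * |lam2 R e| ≤ 1 :=
      mul_le_one₀ (lam1_abs hD1 hD hd.1 hd.2) (abs_nonneg _) (lam2_abs hR he.1 he.2)
    have h2 : ‖(l : ℂ) ^ (-s)‖ = (l : ℝ) ^ (-s.re) := by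
      rw [Complex.norm_natCast_cpow_of_pos hl1, Complex.neg_re]
    have h3 := TM_norm_le hN Ez_norm_le (s := s) (by linarith)
    have h4 := pow_bound hl1 hlX hs hX2
    have hr : (0 : ℝ) < s.re := by linarith
    have hp : 0 ≤ ((X / l : ℕ) : ℝ) ^ (-s.re) := by positivity
    have h5 : 1 * (((X / l : ℕ) : ℝ) ^ (-s.re) / s.re) ≤ ((X / l : ℕ) : ℝ) ^ (-s.re) * 2 := by
      rw [one_mul, div_le_iff₀ hr]
      nlinarith
    have h6 : ‖((y : ℂ) ^ (1 - s) - ((X / l : ℕ) : ℂ) ^ (1 - s)) / (s - 1)‖ ≤ ((X / l : ℕ) : ℝ) ^ (-s.re) := by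
      rw [norm_div, div_le_iff₀ (norm_pos_iff.2 hs1')]
      rw [← norm_neg (s - 1), neg_sub]
      linarith
    rw [h2]
    calc |lam1 D1 D2 d| * |lam2 R e| * (l : ℝ) ^ (-s.re) *
          ‖s * TM (X / l) Ez s - ((y : ℂ) ^ (1 - s) - ((X / l : ℕ) : ℂ) ^ (1 - s)) / (s - 1)‖
        ≤ 1 * (l : ℝ) ^ (-s.re) * (‖s‖ * (((X / l : ℕ) : ℝ) ^ (-s.re) * 2) + ((X / l : ℕ) : ℝ) ^ (-s.re)) := by
          gcongr
          refine (norm_sub_le _ _).trans (add_le_add ?_ h6)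
          rw [norm_mul]
          exact mul_le_mul_of_nonneg_left (h3.trans h5) (norm_nonneg _)
      _ = (2 * ‖s‖ + 1) * ((l : ℝ) ^ (-s.re) * ((X / l : ℕ) : ℝ) ^ (-s.re)) := by ring
      _ ≤ _ := by gcongr
  calc _ ≤ ∑ d ∈ Icc 1 D2, ∑ e ∈ Icc 1 R, (2 * ‖s‖ + 1) * ((X : ℝ) / 2) ^ (-(1 / 2 : ℝ)) := by
        refine (norm_sum_le _ _).trans ?_
        apply sum_le_sum
        intro d hd
        rw [hLz, mul_sum, sum_mul, ← sum_sub_distrib, ← sum_sub_distrib]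
        refine (norm_sum_le _ _).trans ?_
        apply sum_le_sum
        intro e he
        exact hterm d hd e he
    _ = _ := by
        simp only [sum_const, Nat.card_Icc, nsmul_eq_mul, Nat.add_sub_cancel]
        ring

end Pool.Agent.Helper86.PS
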