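import Pool.Agent.Helper86.PS.PR

set_option autoImplicit false

/-!
# The function on the left of the line
-/

open Complex Filter Topology Set MeasureTheory Metric
open scoped Real

namespace Pool.Agent.Helper86.PS

open Pool.Agent.W66 Pool.Agent.W66L

/-- the second part of the logarithmic derivative -/
noncomputable def HH (τ Q : ℕ) (j : PC) (s : ℂ) : ℂ :=
  -(deriv j.2.LFunction s + dl j * (j.2.LFunction s / (s - 1))) *
    (moll (Q ^ pa τ) (Q ^ (2 * pa τ)) Q j s * (2 - j.2.LFunction s * moll (Q ^ pa τ) (Q ^ (2 * pa τ)) Q j s))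

lemma LF_triv {Q : ℕ} {j : PC} (hj : j ∈ fam Q) (h1 : j.2 = 1) : j.2.LFunction = riemannZeta := by
  rw [trivial_fam hj h1]
  exact DirichletCharacter.LFunction_modOne_eq (χ := (1 : DirichletCharacter ℂ 1))

lemma LF_an (j : PC) {s : ℂ} (hs : s ≠ 1) : AnalyticAt ℂ j.2.LFunction s := by
  have h2 : DifferentiableOn ℂ j.2.LFunction {1}ᶜ := fun z hz =>
    (DirichletCharacter.differentiableAt_LFunction j.2 z (Or.inl hz)).differentiableWithinAt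
  exact h2.analyticAt (isOpen_compl_singleton.mem_nhds hs)

lemma pow_pos' {Q k : ℕ} (hQ : 3 ≤ Q) : 1 ≤ Q ^ k := Nat.one_le_pow _ _ (by omega)

lemma HH_diff {τ Q : ℕ} (hQ : 3 ≤ Q) (j : PC) {s : ℂ} (hs : s ≠ 1) : DifferentiableAt ℂ (HH τ Q j) s := by
  unfold HH
  have h1 := LF_an j hs
  have h2 : DifferentiableAt ℂ (deriv j.2.LFunction) s := h1.deriv.differentiableAt
  have h3 : DifferentiableAt ℂ (moll (Q ^ pa τ) (Q ^ (2 * pa τ)) Q j) s := moll_diff _ _ _ j (pow_pos' hQ) s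
  have h4 : DifferentiableAt ℂ (fun s : ℂ => j.2.LFunction s / (s - 1)) s :=
    h1.differentiableAt.div (by fun_prop) (sub_ne_zero.2 hs)
  exact ((h2.add (h4.const_mul _)).neg).mul (h3.mul ((differentiableAt_const _).sub (h1.differentiableAt.mul h3)))

lemma FH {τ Q : ℕ} {j : PC} (hj : j ∈ fam Q) {s : ℂ} (hs : s ≠ 1) (h0 : j.2.LFunction s ≠ 0) :
    FF j s * (1 - (1 - ZQ τ Q j s) ^ 2) = HH τ Q j s := by
  unfold FF HH ZQ ZZ dl
  split_ifs with h1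
  · have hL := LF_triv hj h1
    rw [hL] at h0 ⊢
    have hZ : Z1 s = (s - 1) * riemannZeta s := Z1_eq hs
    have hd : deriv Z1 s = riemannZeta s + (s - 1) * deriv riemannZeta s := by
      have h2 : Z1 =ᶠ[𝓝 s] fun z => (z - 1) * riemannZeta z := by
        filter_upwards [isOpen_compl_singleton.mem_nhds hs] with z hz
        exact Z1_eq hz
      rw [h2.deriv_eq]
      have h3 : HasDerivAt riemannZeta (deriv riemannZeta s) s := (differentiableAt_riemannZeta hs).hasDerivAt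
      have h4 : HasDerivAt (fun z : ℂ => z - 1) 1 s := by simpa using (hasDerivAt_id s).sub_const 1
      have h5 := (h4.mul h3).deriv
      rw [show (fun z => (z - 1) * riemannZeta z) = ((fun z : ℂ => z - 1) * riemannZeta) from rfl, h5]
      ring
    have hs' := sub_ne_zero.2 hs
    unfold DD
    rw [hZ, hd]
    field_simp
    ring
  · unfold DX
    field_simp
    ring

lemma log_pow_bound {Q : ℕ} (hQ : 3 ≤ Q) : (1 + Real.log Q) ^ 8 ≤ 8 ^ 8 * Q := by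
  have hQ0 : (0 : ℝ) < Q := by exact_mod_cast (by omega : 0 < Q)
  have h1 : 1 + Real.log Q ≤ 8 * Real.exp (Real.log Q / 8) := by
    have := Real.add_one_le_exp (Real.log Q / 8)
    linarith
  have h0 : 0 ≤ 1 + Real.log Q := by
    have := Real.log_natCast_nonneg Q
    linarith
  calc (1 + Real.log Q) ^ 8 ≤ (8 * Real.exp (Real.log Q / 8)) ^ 8 := pow_le_pow_left₀ h0 h1 8
    _ = 8 ^ 8 * Q := by
      rw [mul_pow, ← Real.exp_nat_mul]
      congr 1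
      rw [show ((8 : ℕ) : ℝ) * (Real.log Q / 8) = Real.log Q by push_cast; ring, Real.exp_log hQ0]

lemma HH_bound (τ : ℕ) : ∃ Q0 : ℕ, 3 ≤ Q0 ∧ ∀ Q : ℕ, Q0 ≤ Q → ∀ j ∈ fam Q, ∀ s : ℂ, 7 / 8 ≤ s.re → 1 / 8 ≤ ‖s - 1‖ →
    ‖s‖ ≤ 8 * (Q : ℝ) ^ τ → ‖HH τ Q j s‖ ≤ (Q : ℝ) ^ (τ + 10) := by
  set Kτ : ℕ := 2 * τ + 19 with hKτ
  refine ⟨72 * Kτ ^ 8 * 8 ^ 8 + 3, Nat.le_add_left _ _, fun Q hQ0 j hj s hs hs1 hsn => ?_⟩
  have hQ3n : 3 ≤ Q := le_trans (Nat.le_add_left _ _) hQ0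
  have hQ3 : (3 : ℝ) ≤ Q := by exact_mod_cast hQ3n
  have hQ0' : (0 : ℝ) < Q := by linarith
  have hQ1 : (1 : ℝ) ≤ Q := by linarith
  set ℓ := Real.log Q with hℓ
  have hℓ0 : 0 ≤ ℓ := Real.log_natCast_nonneg Q
  set N : ℕ := Q ^ (τ + 3) with hN
  have hNr : (N : ℝ) = (Q : ℝ) ^ (τ + 3) := by rw [hN]; push_cast; rfl
  have hlN : Real.log N = (τ + 3) * ℓ := by rw [hNr, Real.log_pow]; push_cast; ring
  have hQτ : (1 : ℝ) ≤ (Q : ℝ) ^ τ := one_le_pow₀ hQ1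
  have hNs : (Q : ℝ) * (‖s‖ + 1) ≤ N := by
    rw [hNr]
    have e1 : (Q : ℝ) ^ (τ + 3) = Q * (Q : ℝ) ^ τ * (Q * Q) := by ring
    rw [e1]
    have e2 : (9 : ℝ) ≤ Q * Q := by nlinarith
    calc (Q : ℝ) * (‖s‖ + 1) ≤ Q * (9 * (Q : ℝ) ^ τ) := by
          apply mul_le_mul_of_nonneg_left _ hQ0'.le
          linarith
      _ = Q * (Q : ℝ) ^ τ * 9 := by ring
      _ ≤ _ := mul_le_mul_of_nonneg_left e2 (by positivity)
  have hNs' : (Q : ℝ) * ‖s‖ ≤ N := le_trans (mul_le_mul_of_nonneg_left (by linarith) hQ0'.le) hNs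
  have b1 := LF_bound hj (by linarith : 13 / 16 ≤ s.re) (by linarith) hNs'
  have b2 := LF_deriv_bound hj hs hs1 hNs
  set B := (N : ℝ) ^ (3 / 16 : ℝ) * (19 + Real.log N) with hB
  have hD1 : 1 ≤ Q ^ pa τ := pow_pos' hQ3n
  have hD : Q ^ pa τ < Q ^ (2 * pa τ) := Nat.pow_lt_pow_right (by omega) (by unfold pa; omega)
  have hRD : Q ≤ Q ^ (2 * pa τ) := by
    calc Q = Q ^ 1 := (pow_one Q).symm
      _ ≤ _ := Nat.pow_le_pow_right (by omega) (by unfold pa; omega)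
  have b3 := moll_bound hD1 hD (by omega : 2 ≤ Q) hRD j hs
  set M := ((Q ^ (2 * pa τ) * Q : ℕ) : ℝ) ^ (1 / 8 : ℝ) * (1 + Real.log (Q ^ (2 * pa τ) : ℕ)) ^ 3 with hM
  have hB1 : 1 ≤ B := by
    rw [hB, hlN]
    have h1 : 1 ≤ (N : ℝ) ^ (3 / 16 : ℝ) := by
      apply Real.one_le_rpow _ (by norm_num)
      rw [hNr]
      exact one_le_pow₀ hQ1
    have h2 : (1 : ℝ) ≤ 19 + (τ + 3) * ℓ := by
      have : 0 ≤ ((τ : ℝ) + 3) * ℓ := by positivity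
      linarith
    nlinarith
  have hM1 : 1 ≤ M := by
    rw [hM]
    have h1 : 1 ≤ ((Q ^ (2 * pa τ) * Q : ℕ) : ℝ) ^ (1 / 8 : ℝ) := by
      apply Real.one_le_rpow _ (by norm_num)
      exact_mod_cast Nat.mul_pos (by omega : 0 < Q ^ (2 * pa τ)) (by omega)
    have h2 : 1 ≤ (1 + Real.log (Q ^ (2 * pa τ) : ℕ)) ^ 3 := by
      apply one_le_pow₀
      have := Real.log_natCast_nonneg (Q ^ (2 * pa τ))
      linarith
    nlinarith
  have hdl : ‖dl j‖ ≤ 1 := by unfold dl; split_ifs <;> simp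
  have h1 : ‖HH τ Q j s‖ ≤ 72 * (B ^ 2 * M ^ 2) := by
    unfold HH
    rw [norm_mul, norm_neg, norm_mul]
    have e1 : ‖deriv j.2.LFunction s + dl j * (j.2.LFunction s / (s - 1))‖ ≤ 24 * B := by
      refine (norm_add_le _ _).trans ?_
      rw [norm_mul, norm_div]
      have e2 : ‖j.2.LFunction s‖ / ‖s - 1‖ ≤ 8 * B := by
        rw [div_le_iff₀ (by linarith)]
        nlinarith
      have e3 : ‖dl j‖ * (‖j.2.LFunction s‖ / ‖s - 1‖) ≤ 1 * (8 * B) :=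
        mul_le_mul hdl e2 (by positivity) (by norm_num)
      linarith
    have e2 : ‖2 - j.2.LFunction s * moll (Q ^ pa τ) (Q ^ (2 * pa τ)) Q j s‖ ≤ 3 * (B * M) := by
      refine (norm_sub_le _ _).trans ?_
      rw [norm_mul]
      have e3 : ‖j.2.LFunction s‖ * ‖moll (Q ^ pa τ) (Q ^ (2 * pa τ)) Q j s‖ ≤ B * M :=
        mul_le_mul b1 b3 (norm_nonneg _) (by linarith)
      have e4 : 1 ≤ B * M := by nlinarith
      have e5 : ‖(2 : ℂ)‖ = 2 := by norm_num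
      rw [e5]
      linarith
    calc _ ≤ (24 * B) * (M * (3 * (B * M))) := by
          apply mul_le_mul e1 _ (by positivity) (by positivity)
          exact mul_le_mul b3 e2 (norm_nonneg _) (by linarith)
      _ = _ := by ring
  refine h1.trans ?_
  -- the sizes
  have hK1 : (1 : ℝ) ≤ Kτ := by rw [hKτ]; push_cast; linarith [(Nat.cast_nonneg τ : (0 : ℝ) ≤ τ)]
  have hτ0 : (0 : ℝ) ≤ τ := Nat.cast_nonneg τ
  have hB2 : B ^ 2 ≤ (Q : ℝ) ^ ((3 * τ + 9 : ℝ) / 8) * (Kτ * (1 + ℓ)) ^ 2 := by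
    rw [hB, mul_pow, hlN]
    have e1 : ((N : ℝ) ^ (3 / 16 : ℝ)) ^ 2 = (Q : ℝ) ^ ((3 * τ + 9 : ℝ) / 8) := by
      rw [hNr]
      rw [← Real.rpow_natCast, ← Real.rpow_mul (by positivity), ← Real.rpow_natCast, ← Real.rpow_mul (by positivity)]
      congr 1
      push_cast
      ring
    rw [e1]
    apply mul_le_mul_of_nonneg_left _ (by positivity)
    apply pow_le_pow_left₀ (by positivity)
    rw [hKτ]
    push_cast
    nlinarith
  have hM2 : M ^ 2 ≤ (Q : ℝ) ^ ((2 * τ + 19 : ℝ) / 4) * (Kτ * (1 + ℓ)) ^ 6 := by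
    rw [hM, mul_pow]
    have e0 : ((Q ^ (2 * pa τ) * Q : ℕ) : ℝ) = (Q : ℝ) ^ (2 * τ + 19) := by
      unfold pa
      push_cast
      ring
    have e1 : (((Q ^ (2 * pa τ) * Q : ℕ) : ℝ) ^ (1 / 8 : ℝ)) ^ 2 = (Q : ℝ) ^ ((2 * τ + 19 : ℝ) / 4) := by
      rw [e0]
      rw [← Real.rpow_natCast, ← Real.rpow_mul (by positivity), ← Real.rpow_natCast, ← Real.rpow_mul (by positivity)]
      congr 1
      push_cast
      ring
    have e2 : Real.log (Q ^ (2 * pa τ) : ℕ) = 2 * (τ + 9) * ℓ := by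
      unfold pa
      push_cast
      rw [Real.log_pow]
      push_cast
      ring
    rw [e1, e2]
    apply mul_le_mul_of_nonneg_left _ (by positivity)
    rw [← pow_mul]
    apply pow_le_pow_left₀ (by positivity)
    rw [hKτ]
    push_cast
    nlinarith
  have hlog := log_pow_bound hQ3n
  have hfin : (72 : ℝ) * ((Kτ : ℝ) ^ 8 * 8 ^ 8) ≤ Q := by
    have : 72 * Kτ ^ 8 * 8 ^ 8 ≤ Q := le_trans (Nat.le_add_right _ 3) hQ0
    have h2 : ((72 * Kτ ^ 8 * 8 ^ 8 : ℕ) : ℝ) ≤ Q := by exact_mod_cast this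
    push_cast at h2
    linarith
  have hexp : (Q : ℝ) ^ ((3 * τ + 9 : ℝ) / 8) * (Q : ℝ) ^ ((2 * τ + 19 : ℝ) / 4) * ((Q : ℝ) * Q) ≤ (Q : ℝ) ^ (τ + 10) := by
    have e1 : ((Q : ℝ) * Q) = (Q : ℝ) ^ (2 : ℝ) := by rw [Real.rpow_two]; ring
    rw [e1, ← Real.rpow_add hQ0', ← Real.rpow_add hQ0', ← Real.rpow_natCast]
    apply Real.rpow_le_rpow_of_exponent_le hQ1
    push_cast
    linarith
  have hP1 : 0 < (Q : ℝ) ^ ((3 * τ + 9 : ℝ) / 8) := by positivity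
  have hP2 : 0 < (Q : ℝ) ^ ((2 * τ + 19 : ℝ) / 4) := by positivity
  calc 72 * (B ^ 2 * M ^ 2) ≤ 72 * (((Q : ℝ) ^ ((3 * τ + 9 : ℝ) / 8) * (Kτ * (1 + ℓ)) ^ 2) *
        ((Q : ℝ) ^ ((2 * τ + 19 : ℝ) / 4) * (Kτ * (1 + ℓ)) ^ 6)) := by gcongr
    _ = (Q : ℝ) ^ ((3 * τ + 9 : ℝ) / 8) * (Q : ℝ) ^ ((2 * τ + 19 : ℝ) / 4) * (72 * ((Kτ : ℝ) ^ 8 * (1 + ℓ) ^ 8)) := by ring
    _ ≤ (Q : ℝ) ^ ((3 * τ + 9 : ℝ) / 8) * (Q : ℝ) ^ ((2 * τ + 19 : ℝ) / 4) * ((Q : ℝ) * Q) := by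
        apply mul_le_mul_of_nonneg_left _ (by positivity)
        calc 72 * ((Kτ : ℝ) ^ 8 * (1 + ℓ) ^ 8) ≤ 72 * ((Kτ : ℝ) ^ 8 * (8 ^ 8 * Q)) := by gcongr
          _ = (72 * ((Kτ : ℝ) ^ 8 * 8 ^ 8)) * Q := by ring
          _ ≤ _ := mul_le_mul_of_nonneg_right hfin hQ0'.le
    _ ≤ _ := hexp

end Pool.Agent.Helper86.PS
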