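import Pool.Agent.Helper86.PS.W1
import Pool.Agent.TH823.PS.Scale

set_option autoImplicit false

/-!
# The window sums at the good scales
-/

open Complex Filter Topology Set MeasureTheory Metric
open scoped Real

namespace Pool.Agent.Helper86.PS

open Pool.Agent.W66 Pool.Agent.W66L Pool.Agent.TH823.PS
open Pool.Agent.H379R2.SW (vert vert_re vert_im vert_ne_zero continuous_vert)

lemma FF_line_diff {j : PC} {s : ℂ} (hs : 1 ≤ s.re) : DifferentiableAt ℂ (FF j) s := by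
  apply FF_contAt
  split_ifs with h
  · exact Z1_ne_zero hs
  · exact LF_ne_zero h hs

lemma FF_line_int {Ck A : ℝ} (hCk : 0 < Ck) (hkap : ∀ s : ℂ, |s.re| ≤ 1 → ‖kap s‖ ≤ Ck / (1 + s.im ^ 2))
    (hA : 0 < A) (hfar : ∀ (j : PC) (s : ℂ), 1 < s.re → s.re ≤ 2 → ‖FF j s‖ ≤ A / (s.re - 1))
    (j : PC) {c h u : ℝ} (hc : 0 < c) (hc1 : c ≤ 1) (h0 : 0 < h) (h1 : h ≤ 1) :
    (Continuous fun ξ : ℝ => FF j (1 + vert c ξ) * ker h u (vert c ξ)) ∧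
    ∀ ξ : ℝ, ‖FF j (1 + vert c ξ) * ker h u (vert c ξ)‖ ≤
      A / c * (Ck / h ^ 2 * Real.exp (c * u)) * (1 + ξ ^ 2)⁻¹ := by
  constructor
  · apply Continuous.mul _ (ker_cont_vert h u c)
    rw [continuous_iff_continuousAt]
    intro ξ
    have h2 : ContinuousAt (FF j) (1 + vert c ξ) := by
      apply (FF_line_diff _).continuousAt
      rw [add_re, one_re, vert_re]
      linarith
    exact ContinuousAt.comp (g := FF j) (f := fun ξ : ℝ => 1 + vert c ξ) h2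
      (continuous_const.add (continuous_vert c)).continuousAt
  · intro ξ
    have h2 := hfar j (1 + vert c ξ) (by rw [add_re, one_re, vert_re]; linarith)
      (by rw [add_re, one_re, vert_re]; linarith)
    rw [add_re, one_re, vert_re, add_sub_cancel_left] at h2
    have h3 := ker_vert_bound hCk hkap h0 h1 hc hc1 (u := u) ξ
    rw [norm_mul, mul_assoc]
    exact mul_le_mul h2 h3 (norm_nonneg _) (by positivity)

/-- the window sum as a line integral -/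
lemma WX_line {Q : ℕ} {j : PC} (hj : j ∈ fam Q) {c h u : ℝ} (hc : 0 < c) (hc1 : c ≤ 1) (h0 : 0 < h) (h1 : h ≤ 1)
    (hu : h ≤ u) :
    WX j.2 h u - dl j = ∫ ξ : ℝ, FF j (1 + vert c ξ) * ker h u (vert c ξ) := by
  obtain ⟨Ck, hCk, hkap⟩ := kap_bound
  obtain ⟨A, hA, hfar⟩ := FF_far
  obtain ⟨i1, i2⟩ := FF_line_int hCk hkap hA hfar j hc hc1 h0 h1 (u := u)
  have hi : Integrable fun ξ : ℝ => FF j (1 + vert c ξ) * ker h u (vert c ξ) :=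
    (integrable_inv_one_add_sq.const_mul _).mono' i1.aestronglyMeasurable (Eventually.of_forall i2)
  rw [WX_eq j.2 hc hc1 h0 h1]
  have e1 : ∀ ξ : ℝ, LSeries (Xa j.2) (1 + vert c ξ) * ker h u (vert c ξ) =
      FF j (1 + vert c ξ) * ker h u (vert c ξ) + dl j * (1 / vert c ξ * ker h u (vert c ξ)) := by
    intro ξ
    rw [LS_FF hj (by rw [add_re, one_re, vert_re]; linarith)]
    rw [add_sub_cancel_left]
    ring
  simp only [e1]
  have hk : Integrable fun ξ : ℝ => ker h u (vert c ξ) := by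
    refine ((integrable_inv_one_add_sq.const_mul (Ck / h ^ 2 * Real.exp (c * u)))).mono'
      (ker_cont_vert h u c).aestronglyMeasurable (Eventually.of_forall fun ξ => ?_)
    exact ker_vert_bound hCk hkap h0 h1 hc hc1 ξ
  have hk2 : Integrable fun ξ : ℝ => 1 / vert c ξ * ker h u (vert c ξ) := by
    refine hk.bdd_mul (c := 1 / c) ?_ (Eventually.of_forall fun ξ => ?_)
    · apply Continuous.aestronglyMeasurable
      exact continuous_const.div (continuous_vert c) (fun ξ => vert_ne_zero hc ξ)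
    · rw [norm_div, norm_one]
      apply one_div_le_one_div_of_le hc
      have := Complex.abs_re_le_norm (vert c ξ)
      rw [vert_re, abs_of_pos hc] at this
      exact this
  rw [integral_add hi (hk2.const_mul _), integral_const_mul, pole_line hc hc1 h0 h1 hu]
  ring

/-- truncation of the line integral -/
lemma WX_trunc {Ck A : ℝ} (hCk : 0 < Ck) (hkap : ∀ s : ℂ, |s.re| ≤ 1 → ‖kap s‖ ≤ Ck / (1 + s.im ^ 2))
    (hA : 0 < A) (hfar : ∀ (j : PC) (s : ℂ), 1 < s.re → s.re ≤ 2 → ‖FF j s‖ ≤ A / (s.re - 1))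
    {Q : ℕ} {j : PC} (hj : j ∈ fam Q) {c h u Ξ : ℝ} (hc : 0 < c) (hc1 : c ≤ 1) (h0 : 0 < h) (h1 : h ≤ 1)
    (hu : h ≤ u) (hΞ : 1 ≤ Ξ) :
    ‖WX j.2 h u - dl j‖ ≤ ‖∫ t in (-(2 * π * Ξ))..(2 * π * Ξ), FF j (1 + ((c : ℂ) + t * I)) * ker h u ((c : ℂ) + t * I)‖ +
      A / c * (Ck / h ^ 2 * Real.exp (c * u)) * (2 / Ξ) := by
  obtain ⟨i1, i2⟩ := FF_line_int hCk hkap hA hfar j hc hc1 h0 h1 (u := u)
  have hi : Integrable fun ξ : ℝ => FF j (1 + vert c ξ) * ker h u (vert c ξ) :=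
    (integrable_inv_one_add_sq.const_mul _).mono' i1.aestronglyMeasurable (Eventually.of_forall i2)
  rw [WX_line hj hc hc1 h0 h1 hu]
  have hΞ0 : 0 < Ξ := by linarith
  rw [← integral_add_compl (measurableSet_Ioc (a := -Ξ) (b := Ξ)) hi]
  refine (norm_add_le _ _).trans (add_le_add ?_ ?_)
  · rw [← intervalIntegral.integral_of_le (by linarith)]
    have e1 : ∀ ξ : ℝ, FF j (1 + vert c ξ) * ker h u (vert c ξ) =
        (fun t : ℝ => FF j (1 + ((c : ℂ) + t * I)) * ker h u ((c : ℂ) + t * I)) (2 * π * ξ) := by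
      intro ξ
      simp only [vert]
    simp only [e1]
    rw [intervalIntegral.integral_comp_mul_left (fun t : ℝ => FF j (1 + ((c : ℂ) + t * I)) *
      ker h u ((c : ℂ) + t * I)) (by positivity : (2 * π : ℝ) ≠ 0), norm_smul]
    rw [show 2 * π * -Ξ = -(2 * π * Ξ) by ring]
    have h2 : ‖(2 * π)⁻¹‖ ≤ 1 := by
      rw [Real.norm_of_nonneg (by positivity)]
      apply inv_le_one_of_one_le₀
      nlinarith [Real.pi_gt_three]
    calc _ ≤ 1 * _ := mul_le_mul_of_nonneg_right h2 (norm_nonneg _)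
      _ = _ := one_mul _
  · have h2 : ‖∫ ξ in (Set.Ioc (-Ξ) Ξ)ᶜ, FF j (1 + vert c ξ) * ker h u (vert c ξ)‖ ≤
        ∫ ξ in (Set.Ioc (-Ξ) Ξ)ᶜ, (A / c * (Ck / h ^ 2 * Real.exp (c * u))) * (1 + ξ ^ 2)⁻¹ :=
      norm_integral_le_of_norm_le (integrable_inv_one_add_sq.const_mul _).integrableOn
        (Eventually.of_forall fun ξ => i2 ξ)
    refine h2.trans ?_
    rw [integral_const_mul]
    apply mul_le_mul_of_nonneg_left _ (by positivity)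
    have h3 := integral_add_compl (measurableSet_Ioc (a := -Ξ) (b := Ξ)) integrable_inv_one_add_sq
      (μ := volume)
    rw [integral_univ_inv_one_add_sq, ← intervalIntegral.integral_of_le (by linarith),
      integral_inv_one_add_sq, Real.arctan_neg] at h3
    have h4 := tail_arctan hΞ
    linarith

lemma ell_T {Q τ : ℕ} (hQ : 3 ≤ Q) {t : ℝ} (ht : |t| ≤ 2 * (2 * π * (Q : ℝ) ^ τ + 2)) :
    ell t ≤ (τ + 3) * Real.log Q := by
  have hQ3 : (3 : ℝ) ≤ Q := by exact_mod_cast hQ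
  have hQτ : (1 : ℝ) ≤ (Q : ℝ) ^ τ := one_le_pow₀ (by linarith)
  unfold ell
  have h1 : |t| + 3 ≤ (Q : ℝ) ^ (τ + 3) := by
    have e1 : (Q : ℝ) ^ (τ + 3) = (Q : ℝ) ^ τ * (Q * Q * Q) := by ring
    have e2 : (27 : ℝ) ≤ Q * Q * Q := by nlinarith [mul_nonneg (by linarith : (0:ℝ) ≤ (Q : ℝ) - 3) (by positivity : (0:ℝ) ≤ (Q : ℝ) * Q)]
    have e3 := Real.pi_lt_d2
    rw [e1]
    nlinarith
  have h2 := Real.log_le_log (by positivity) h1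
  rw [Real.log_pow] at h2
  push_cast at h2
  exact h2

/-- the bound in the rectangle -/
lemma rect_FF {K1 K2 : ℝ} (hK1 : 0 < K1) (hK2 : 0 < K2)
    (hDX : ∀ (Q : ℕ) [NeZero Q] (χ : DirichletCharacter ℂ Q), χ ≠ 1 →
      ∀ η : ℝ, 0 < η → η ≤ 1 / 16 → ∀ z : ℂ,
      (∀ ρ : ℂ, χ.LFunction ρ = 0 → |ρ.im - z.im| ≤ 2 → ρ.re ≤ 1 - 2 * η) →
      1 - η ≤ z.re → z.re ≤ 1 + η → χ.LFunction z ≠ 0 ∧ ‖DX χ z‖ ≤ K1 * (lq Q z.im + 1 / η))
    (hDD : ∀ η : ℝ, 0 < η → η ≤ 1 / 16 → ∀ z : ℂ,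
      (∀ ρ : ℂ, Z1 ρ = 0 → |ρ.im - z.im| ≤ 2 → ρ.re ≤ 1 - 2 * η) →
      1 - η ≤ z.re → z.re ≤ 1 + η → Z1 z ≠ 0 ∧ ‖DD z‖ ≤ K2 * (ell z.im + 1 / η))
    {Q τ : ℕ} (hQ : 3 ≤ Q) {η : ℝ} (hη0 : 0 < η) (hη1 : η ≤ 1 / 16)
    (hz1 : ∀ j ∈ fam Q, j.2 ≠ 1 → ∀ ρ : ℂ, j.2.LFunction ρ = 0 → |2 * ρ.im| ≤ 2 * (2 * π * (Q : ℝ) ^ τ + 2) →
      ρ.re ≤ 1 - 2 * η)
    (hz2 : ∀ ρ : ℂ, Z1 ρ = 0 → |2 * ρ.im| ≤ 2 * (2 * π * (Q : ℝ) ^ τ + 2) → ρ.re ≤ 1 - 2 * η) :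
    ∀ j ∈ fam Q, ∀ s : ℂ, 1 - η ≤ s.re → s.re ≤ 1 + η → |s.im| ≤ 2 * π * (Q : ℝ) ^ τ →
      (if j.2 = 1 then Z1 s ≠ 0 else j.2.LFunction s ≠ 0) ∧
      ‖FF j s‖ ≤ (K1 + K2) * ((τ + 4) * Real.log Q + 1 / η) := by
  intro j hj s hs1 hs2 hs3
  have hnear : ∀ ρ : ℂ, |ρ.im - s.im| ≤ 2 → |2 * ρ.im| ≤ 2 * (2 * π * (Q : ℝ) ^ τ + 2) := by
    intro ρ hρ
    rw [abs_mul, abs_two]
    have : ρ.im = (ρ.im - s.im) + s.im := by ring
    have h2 : |ρ.im| ≤ |ρ.im - s.im| + |s.im| := by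
      conv_lhs => rw [this]
      exact abs_add_le _ _
    linarith
  have hs4 : ell s.im ≤ (τ + 3) * Real.log Q := ell_T hQ (by linarith [abs_nonneg s.im])
  have hlQ : 0 ≤ Real.log Q := Real.log_natCast_nonneg Q
  have hinv : 0 < 1 / η := by positivity
  have hjQ := (mem_fam.1 hj).1
  have hlj : Real.log ((j.1 + 1 : ℕ) : ℝ) ≤ Real.log Q :=
    Real.log_le_log (by exact_mod_cast Nat.succ_pos _) (by exact_mod_cast hjQ)
  have hell0 : 0 ≤ ell s.im := by linarith [one_le_ell s.im]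
  have hlq0 : 0 ≤ lq (j.1 + 1) s.im := by linarith [one_le_lq (j.1 + 1) s.im]
  unfold FF
  split_ifs with h1
  · obtain ⟨g1, g2⟩ := hDD η hη0 hη1 s (fun ρ hρ hn => hz2 ρ hρ (hnear ρ hn)) hs1 hs2
    refine ⟨g1, ?_⟩
    rw [norm_neg]
    refine g2.trans ?_
    apply mul_le_mul (by linarith) _ (by linarith) (by linarith)
    linarith
  · obtain ⟨g1, g2⟩ := hDX (j.1 + 1) j.2 h1 η hη0 hη1 s (fun ρ hρ hn => hz1 j hj h1 ρ hρ (hnear ρ hn)) hs1 hs2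
    refine ⟨g1, ?_⟩
    rw [norm_neg]
    refine g2.trans ?_
    apply mul_le_mul (by linarith) _ (by linarith) (by linarith)
    have h3 : lq (j.1 + 1) s.im ≤ (τ + 4) * Real.log Q := by
      unfold lq
      linarith
    linarith

/-- one character, one window -/
lemma one_win {Ck Af : ℝ} (hCk : 0 < Ck) (hkap : ∀ s : ℂ, |s.re| ≤ 1 → ‖kap s‖ ≤ Ck / (1 + s.im ^ 2))
    (hAf : 0 < Af) (hfar : ∀ (j : PC) (s : ℂ), 1 < s.re → s.re ≤ 2 → ‖FF j s‖ ≤ Af / (s.re - 1))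
    {Q τ : ℕ} (hQ : 3 ≤ Q) {η K0 : ℝ} (hη0 : 0 < η) (hη1 : η ≤ 1 / 16) (hK0 : 0 ≤ K0)
    (hrect : ∀ j ∈ fam Q, ∀ s : ℂ, 1 - η ≤ s.re → s.re ≤ 1 + η → |s.im| ≤ 2 * π * (Q : ℝ) ^ τ →
      (if j.2 = 1 then Z1 s ≠ 0 else j.2.LFunction s ≠ 0) ∧ ‖FF j s‖ ≤ K0)
    (hHH : ∀ j ∈ fam Q, ∀ s : ℂ, 7 / 8 ≤ s.re → 1 / 8 ≤ ‖s - 1‖ → ‖s‖ ≤ 8 * (Q : ℝ) ^ τ →
      ‖HH τ Q j s‖ ≤ (Q : ℝ) ^ (τ + 10))
    {j : PC} (hj : j ∈ fam Q) {h u : ℝ} (h0 : 0 < h) (h1 : h ≤ 1) (hu : 1 / η ≤ u) :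
    ‖WX j.2 h u - dl j‖ ≤ Ck * K0 * Real.exp (-(η * u)) *
        (2 * π * ∫ ξ in (-(Q : ℝ) ^ τ)..((Q : ℝ) ^ τ), ‖1 - ZQ τ Q j (sp η ξ)‖ ^ 2) +
      12 * (Ck * K0 / (h * (2 * π * (Q : ℝ) ^ τ)) ^ 2) +
      Ck * (Q : ℝ) ^ (τ + 10) / (h * (2 * π * (Q : ℝ) ^ τ)) ^ 2 +
      2 * (2 * π * (Q : ℝ) ^ τ) * (Ck * (Q : ℝ) ^ (τ + 10) * Real.exp (-(u / 8))) +
      Af * u * (Ck / h ^ 2 * 3) * (2 / (Q : ℝ) ^ τ) := by
  have hQ3 : (3 : ℝ) ≤ Q := by exact_mod_cast hQ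
  have hQ1' : (1 : ℝ) ≤ Q := by linarith
  obtain ⟨Ξ, hΞ⟩ : ∃ Ξ : ℝ, Ξ = (Q : ℝ) ^ τ := ⟨_, rfl⟩
  rw [← hΞ] at hrect hHH ⊢
  have hΞ1 : 1 ≤ Ξ := by rw [hΞ]; exact one_le_pow₀ hQ1'
  have hπ := Real.pi_gt_three
  have hπ2 := Real.pi_lt_d2
  have h16 : 16 ≤ 1 / η := by
    rw [le_div_iff₀ hη0]; linarith
  have hu1' : 1 ≤ u := by linarith
  have hu0 : 0 < u := by linarith
  obtain ⟨T, hT⟩ : ∃ T : ℝ, T = 2 * π * Ξ := ⟨_, rfl⟩
  rw [← hT] at hrect ⊢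
  have hT1 : 1 ≤ T := by rw [hT]; nlinarith
  obtain ⟨c1, hc1⟩ : ∃ c1 : ℝ, c1 = 1 / u := ⟨_, rfl⟩
  have hc10 : 0 < c1 := by rw [hc1]; positivity
  have hc11 : c1 ≤ 1 := by rw [hc1, div_le_one hu0]; exact hu1'
  have hc1u : c1 * u = 1 := by rw [hc1]; field_simp
  have hc1η : c1 ≤ η := by
    rw [hc1, div_le_iff₀ hu0]
    rw [div_le_iff₀ hη0] at hu
    linarith
  have htr := WX_trunc hCk hkap hAf hfar hj hc10 hc11 h0 h1 (by linarith : h ≤ u) hΞ1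
  rw [← hT, hc1u] at htr
  have hcon := contour hCk hkap (F := FF j) (H := HH τ Q j) (Z := ZQ τ Q j) (η := η) (c1 := c1) (T := T)
    (h := h) (u := u) (KF := K0) (KH := (Q : ℝ) ^ (τ + 10)) hη0 hη1 hc10 hc11 hT1 h0 h1 hu0 hc1u.le hK0
    (by positivity)
    (by
      intro s hs1 hs2 hs3
      obtain ⟨g1, g2⟩ := hrect j hj s hs1 (by linarith) hs3
      exact ⟨FF_contAt g1, g2⟩)
    (by
      intro s hs1 hs2 hs3
      apply HH_diff hQ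
      rintro rfl
      rw [one_re] at hs2
      linarith)
    (by
      intro s hs1 hs2 hs3 hs4
      apply hHH j hj s hs1
      · rcases hs4 with h2 | h2
        · have h3 := Complex.abs_re_le_norm (s - 1)
          rw [sub_re, one_re, h2] at h3
          norm_num at h3
          linarith
        · have h3 := Complex.abs_im_le_norm (s - 1)
          rw [sub_im, one_im, sub_zero, h2] at h3
          linarith
      · refine (Complex.norm_le_abs_re_add_abs_im s).trans ?_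
        rw [abs_of_nonneg (by linarith)]
        rw [hT] at hs3
        nlinarith)
    (by
      intro s hs1 hs2
      have hs1' : s ≠ 1 := by
        rintro rfl
        rw [one_re] at hs1
        linarith
      obtain ⟨g1, g2⟩ := hrect j hj s hs1.ge (by linarith) hs2
      apply FH hj hs1'
      split_ifs at g1 with h3
      · rw [Z1_eq hs1'] at g1
        rw [LF_triv hj h3]
        exact right_ne_zero_of_mul g1
      · exact g1)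
    (by
      intro t _
      have h3 : ContinuousAt (ZQ τ Q j) (1 + (((-η : ℝ) : ℂ) + t * I)) := by
        apply (ZZ_diff j (pow_pos' hQ) (Or.inl ?_)).continuousAt
        intro h4
        have := congrArg Complex.re h4
        simp at this
        linarith
      exact ContinuousAt.comp (g := ZQ τ Q j) (f := fun t : ℝ => 1 + (((-η : ℝ) : ℂ) + t * I)) h3
        (by fun_prop))
  have hint : ∫ t in (-T)..T, ‖1 - ZQ τ Q j (1 + (((-η : ℝ) : ℂ) + t * I))‖ ^ 2 =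
      2 * π * ∫ ξ in (-Ξ)..Ξ, ‖1 - ZQ τ Q j (sp η ξ)‖ ^ 2 := by
    have e1 : ∀ ξ : ℝ, ‖1 - ZQ τ Q j (sp η ξ)‖ ^ 2 =
        (fun t : ℝ => ‖1 - ZQ τ Q j (1 + (((-η : ℝ) : ℂ) + t * I))‖ ^ 2) (2 * π * ξ) := by
      intro ξ
      simp only
      congr 4
      unfold sp
      apply Complex.ext
      · simp; ring
      · simp
    simp only [e1]
    rw [intervalIntegral.integral_comp_mul_left (fun t : ℝ => ‖1 - ZQ τ Q j (1 + (((-η : ℝ) : ℂ) + t * I))‖ ^ 2)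
      (by positivity : (2 * π : ℝ) ≠ 0), show 2 * π * -Ξ = -(2 * π * Ξ) by ring, smul_eq_mul,
      mul_inv_cancel_left₀ (by positivity : (2 * π : ℝ) ≠ 0), hT]
  rw [hint] at hcon
  have t4 : Af / c1 * (Ck / h ^ 2 * Real.exp 1) * (2 / Ξ) ≤ Af * u * (Ck / h ^ 2 * 3) * (2 / Ξ) := by
    have he1 : Real.exp 1 ≤ 3 := by linarith [Real.exp_one_lt_d9]
    have e1 : Af / c1 = Af * u := by rw [hc1]; field_simp
    rw [e1]
    gcongr
  linarith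

/-- the error terms -/
lemma err_terms {Ck Af K0 KF0 : ℝ} (hCk : 0 < Ck) (hAf : 0 < Af) (hK0 : 0 ≤ K0) {Q τ₂ : ℕ} (hQ : 3 ≤ Q)
    (hKQ : K0 ≤ KF0 * Q) (hKF0 : 0 ≤ KF0) {u : ℝ} (hu0 : 0 ≤ u) (huQ : u ≤ Q)
    (hu8 : (8 * (2 * (2 * τ₂ + 20 : ℕ) + 22) : ℕ) * Real.log Q ≤ u) :
    12 * (Ck * K0 / (1 / (Q : ℝ) ^ τ₂ * (2 * π * (Q : ℝ) ^ (2 * τ₂ + 20))) ^ 2) +
      Ck * (Q : ℝ) ^ (2 * τ₂ + 20 + 10) / (1 / (Q : ℝ) ^ τ₂ * (2 * π * (Q : ℝ) ^ (2 * τ₂ + 20))) ^ 2 +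
      2 * (2 * π * (Q : ℝ) ^ (2 * τ₂ + 20)) * (Ck * (Q : ℝ) ^ (2 * τ₂ + 20 + 10) * Real.exp (-(u / 8))) +
      Af * u * (Ck / (1 / (Q : ℝ) ^ τ₂) ^ 2 * 3) * (2 / (Q : ℝ) ^ (2 * τ₂ + 20)) ≤
      (12 * (Ck * KF0) + Ck + 14 * Ck + Af * Ck * 6) / (Q : ℝ) ^ 9 := by
  have hQ3 : (3 : ℝ) ≤ Q := by exact_mod_cast hQ
  have hQ1' : (1 : ℝ) ≤ Q := by linarith
  have hQ0 : (0 : ℝ) < Q := by linarith
  have hπ := Real.pi_gt_three
  have hπ2 := Real.pi_lt_d2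
  have hQ9 : 0 < (Q : ℝ) ^ 9 := by positivity
  obtain ⟨y, hy⟩ : ∃ y : ℝ, y = (Q : ℝ) ^ τ₂ := ⟨_, rfl⟩
  have hy1 : 1 ≤ y := by rw [hy]; exact one_le_pow₀ hQ1'
  have hy0 : 0 < y := by linarith
  have e20 : (Q : ℝ) ^ (2 * τ₂ + 20) = y * y * (Q : ℝ) ^ 20 := by rw [hy]; ring
  have e30 : (Q : ℝ) ^ (2 * τ₂ + 20 + 10) = y * y * (Q : ℝ) ^ 30 := by rw [hy]; ring
  rw [e20, e30, ← hy]
  have hhT : (y * (Q : ℝ) ^ 20) ^ 2 ≤ (1 / y * (2 * π * (y * y * (Q : ℝ) ^ 20))) ^ 2 := by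
    have e1 : 1 / y * (2 * π * (y * y * (Q : ℝ) ^ 20)) = 2 * π * (y * (Q : ℝ) ^ 20) := by field_simp
    rw [e1]
    apply pow_le_pow_left₀ (by positivity)
    have : 0 < y * (Q : ℝ) ^ 20 := by positivity
    nlinarith
  have hpos : 0 < (y * (Q : ℝ) ^ 20) ^ 2 := by positivity
  have t1 : 12 * (Ck * K0 / (1 / y * (2 * π * (y * y * (Q : ℝ) ^ 20))) ^ 2) ≤ 12 * (Ck * KF0) / (Q : ℝ) ^ 9 := by
    calc 12 * (Ck * K0 / (1 / y * (2 * π * (y * y * (Q : ℝ) ^ 20))) ^ 2) ≤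
        12 * (Ck * (KF0 * Q) / (y * (Q : ℝ) ^ 20) ^ 2) := by gcongr
      _ = 12 * (Ck * KF0) * (1 / (y ^ 2 * (Q : ℝ) ^ 39)) := by
          field_simp
      _ ≤ 12 * (Ck * KF0) * (1 / (Q : ℝ) ^ 9) := by
          apply mul_le_mul_of_nonneg_left _ (by positivity)
          apply one_div_le_one_div_of_le hQ9
          have h1 : (Q : ℝ) ^ 9 ≤ (Q : ℝ) ^ 39 := pow_le_pow_right₀ hQ1' (by norm_num)
          have h2 : 1 ≤ y ^ 2 := one_le_pow₀ hy1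
          nlinarith
      _ = _ := by ring
  have t2 : Ck * (y * y * (Q : ℝ) ^ 30) / (1 / y * (2 * π * (y * y * (Q : ℝ) ^ 20))) ^ 2 ≤ Ck / (Q : ℝ) ^ 9 := by
    calc Ck * (y * y * (Q : ℝ) ^ 30) / (1 / y * (2 * π * (y * y * (Q : ℝ) ^ 20))) ^ 2 ≤
        Ck * (y * y * (Q : ℝ) ^ 30) / (y * (Q : ℝ) ^ 20) ^ 2 := by gcongr
      _ = Ck * (1 / (Q : ℝ) ^ 10) := by field_simp
      _ ≤ Ck * (1 / (Q : ℝ) ^ 9) := by
          apply mul_le_mul_of_nonneg_left _ (by positivity)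
          apply one_div_le_one_div_of_le hQ9
          exact pow_le_pow_right₀ hQ1' (by norm_num)
      _ = _ := by ring
  have t3 : 2 * (2 * π * (y * y * (Q : ℝ) ^ 20)) * (Ck * (y * y * (Q : ℝ) ^ 30) * Real.exp (-(u / 8))) ≤
      14 * Ck / (Q : ℝ) ^ 9 := by
    have e1 : Real.exp (-(u / 8)) ≤ 1 / (y * y * y * y * (Q : ℝ) ^ 62) := by
      rw [Real.exp_neg, ← one_div]
      apply one_div_le_one_div_of_le (by positivity)
      have e2 : y * y * y * y * (Q : ℝ) ^ 62 = Real.exp ((2 * (2 * τ₂ + 20) + 22 : ℕ) * Real.log Q) := by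
        rw [Real.exp_nat_mul, Real.exp_log hQ0, hy]
        ring
      rw [e2]
      apply Real.exp_le_exp.2
      push_cast at hu8 ⊢
      linarith
    calc 2 * (2 * π * (y * y * (Q : ℝ) ^ 20)) * (Ck * (y * y * (Q : ℝ) ^ 30) * Real.exp (-(u / 8))) ≤
        2 * (7 * (y * y * (Q : ℝ) ^ 20)) * (Ck * (y * y * (Q : ℝ) ^ 30) * (1 / (y * y * y * y * (Q : ℝ) ^ 62))) := by
          gcongr
          linarith
      _ = 14 * Ck * (1 / (Q : ℝ) ^ 12) := by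
          field_simp
          norm_num
      _ ≤ 14 * Ck * (1 / (Q : ℝ) ^ 9) := by
          apply mul_le_mul_of_nonneg_left _ (by positivity)
          apply one_div_le_one_div_of_le hQ9
          exact pow_le_pow_right₀ hQ1' (by norm_num)
      _ = _ := by ring
  have t4 : Af * u * (Ck / (1 / y) ^ 2 * 3) * (2 / (y * y * (Q : ℝ) ^ 20)) ≤ Af * Ck * 6 / (Q : ℝ) ^ 9 := by
    calc Af * u * (Ck / (1 / y) ^ 2 * 3) * (2 / (y * y * (Q : ℝ) ^ 20)) ≤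
        Af * Q * (Ck / (1 / y) ^ 2 * 3) * (2 / (y * y * (Q : ℝ) ^ 20)) := by gcongr
      _ = Af * Ck * 6 * (1 / (Q : ℝ) ^ 19) := by
          field_simp
          norm_num
      _ ≤ Af * Ck * 6 * (1 / (Q : ℝ) ^ 9) := by
          apply mul_le_mul_of_nonneg_left _ (by positivity)
          apply one_div_le_one_div_of_le hQ9
          exact pow_le_pow_right₀ hQ1' (by norm_num)
      _ = _ := by ring
  have e6 : (12 * (Ck * KF0) + Ck + 14 * Ck + Af * Ck * 6) / (Q : ℝ) ^ 9 =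
      12 * (Ck * KF0) / (Q : ℝ) ^ 9 + Ck / (Q : ℝ) ^ 9 + 14 * Ck / (Q : ℝ) ^ 9 + Af * Ck * 6 / (Q : ℝ) ^ 9 := by
    ring
  rw [e6]
  linarith

end Pool.Agent.Helper86.PS
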