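import Pool.Agent.Helper86.PS.W2

set_option autoImplicit false

/-!
# The window sums at the good scales, main statement
-/

open Complex Filter Topology Set MeasureTheory Metric
open scoped Real

namespace Pool.Agent.Helper86.PS

open Pool.Agent.W66 Pool.Agent.W66L Pool.Agent.TH823.PS

/-- the sum of the bounds -/
lemma sum_bounds {K Ck KF κ CR ε : ℝ} (hK : 0 < K) (hCk : 0 < Ck) (hKF : 0 < KF) (hκ : 0 < κ) (hCR : 0 < CR)
    (hε : 0 < ε) {τ Q L1 : ℕ} (hQ : 3 ≤ Q)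
    (hL1 : 1 / κ * Real.log (2 * (Ck * KF * (2 * π) * (K * (Real.exp (2 * κ * pb τ) * (1 + 1 / κ)))) / ε + 1) ≤ L1)
    (hQ2 : 2 * CR / ε ≤ Q) (I : PC → ℝ)
    (hI : ∑ j ∈ fam Q, I j ≤ K * (((Q : ℝ) ^ pb τ) ^ (2 * (κ / Real.log Q)) *
      (1 + 1 / ((κ / Real.log Q) * Real.log Q)) / Real.log Q)) :
    ∑ j ∈ fam Q, (Ck * (KF * Real.log Q) * Real.exp (-(κ * L1)) * (2 * π * I j) + CR / (Q : ℝ) ^ 9) ≤ ε := by
  have hQ3 : (3 : ℝ) ≤ Q := by exact_mod_cast hQ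
  have hQ0 : (0 : ℝ) < Q := by linarith
  have hQ1' : (1 : ℝ) ≤ Q := by linarith
  obtain ⟨ℓ, hℓ⟩ : ∃ ℓ : ℝ, ℓ = Real.log Q := ⟨_, rfl⟩
  have hℓ1 : 1 ≤ ℓ := by
    rw [hℓ, Real.le_log_iff_exp_le hQ0]
    linarith [Real.exp_one_lt_d9]
  have hℓ0 : 0 < ℓ := by linarith
  have e1 : ((Q : ℝ) ^ pb τ) ^ (2 * (κ / Real.log Q)) = Real.exp (2 * κ * pb τ) := by
    rw [← Real.rpow_natCast, ← Real.rpow_mul hQ0.le, Real.rpow_def_of_pos hQ0, ← hℓ]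
    congr 1
    field_simp
  rw [e1, ← hℓ] at hI
  rw [← hℓ]
  have e2 : κ / ℓ * ℓ = κ := by field_simp
  rw [e2] at hI
  obtain ⟨CM, hCM⟩ : ∃ CM : ℝ, CM = Ck * KF * (2 * π) * (K * (Real.exp (2 * κ * pb τ) * (1 + 1 / κ))) := ⟨_, rfl⟩
  have hCM0 : 0 < CM := by rw [hCM]; positivity
  rw [← hCM] at hL1
  have e3 : ∑ j ∈ fam Q, (Ck * (KF * ℓ) * Real.exp (-(κ * L1)) * (2 * π * I j) + CR / (Q : ℝ) ^ 9) =
      Ck * (KF * ℓ) * Real.exp (-(κ * L1)) * (2 * π) * ∑ j ∈ fam Q, I j +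
      (fam Q).card * (CR / (Q : ℝ) ^ 9) := by
    rw [Finset.sum_add_distrib, Finset.mul_sum, Finset.sum_const, nsmul_eq_mul]
    congr 1
    apply Finset.sum_congr rfl
    intro j _
    ring
  rw [e3]
  have e4 : Ck * (KF * ℓ) * Real.exp (-(κ * L1)) * (2 * π) * ∑ j ∈ fam Q, I j ≤ CM * Real.exp (-(κ * L1)) := by
    calc Ck * (KF * ℓ) * Real.exp (-(κ * L1)) * (2 * π) * ∑ j ∈ fam Q, I j ≤
        Ck * (KF * ℓ) * Real.exp (-(κ * L1)) * (2 * π) *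
          (K * (Real.exp (2 * κ * pb τ) * (1 + 1 / κ) / ℓ)) := by gcongr
      _ = _ := by rw [hCM]; field_simp
  have e5 : CM * Real.exp (-(κ * L1)) ≤ ε / 2 := by
    have h1 : Real.log (2 * CM / ε + 1) ≤ κ * L1 := by
      rw [div_mul_eq_mul_div, one_mul, div_le_iff₀ hκ] at hL1
      linarith
    have h2 : 2 * CM / ε + 1 ≤ Real.exp (κ * L1) := by
      rw [← Real.exp_log (by positivity : 0 < 2 * CM / ε + 1)]
      exact Real.exp_le_exp.2 h1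
    rw [Real.exp_neg, ← div_eq_mul_inv, div_le_iff₀ (Real.exp_pos _)]
    have h3 : CM = ε / 2 * (2 * CM / ε) := by field_simp
    calc CM = ε / 2 * (2 * CM / ε) := h3
      _ ≤ ε / 2 * Real.exp (κ * L1) := by
        apply mul_le_mul_of_nonneg_left _ (by positivity)
        linarith
  have e6 : ((fam Q).card : ℝ) * (CR / (Q : ℝ) ^ 9) ≤ ε / 2 := by
    calc ((fam Q).card : ℝ) * (CR / (Q : ℝ) ^ 9) ≤ (Q : ℝ) ^ 2 * (CR / (Q : ℝ) ^ 9) :=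
          mul_le_mul_of_nonneg_right (card_fam Q) (by positivity)
      _ = CR / (Q : ℝ) ^ 7 := by field_simp
      _ ≤ CR / Q := by
          apply div_le_div_of_nonneg_left hCR.le hQ0
          exact le_self_pow₀ hQ1' (by norm_num)
      _ ≤ ε / 2 := by
          rw [div_le_iff₀ hQ0]
          rw [div_le_iff₀ hε] at hQ2
          linarith
  linarith

/-- **the window sums at a good scale** -/
theorem win_main : ∃ E0 : ℕ, ∀ E : ℕ, E0 ≤ E → ∀ τ₂ : ℕ, ∀ ε : ℝ, 0 < ε → ∃ L0 Q0 : ℕ, ∀ Q : ℕ, Q0 ≤ Q →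
    NE (2 * τ₂ + 24) E Q → ∃ b : PC → ℝ, (∀ j ∈ fam Q, 0 ≤ b j) ∧ ∑ j ∈ fam Q, b j ≤ ε ∧
    ∀ j ∈ fam Q, ∀ u : ℝ, L0 * Real.log Q ≤ u → u ≤ Q → ‖WX j.2 (1 / (Q : ℝ) ^ τ₂) u - dl j‖ ≤ b j := by
  obtain ⟨E1, hE1, hzfree⟩ := zfree
  obtain ⟨cz, hcz, hcz1, hzf⟩ := zf
  obtain ⟨E2, hE2⟩ := exists_nat_ge (1 / cz)
  obtain ⟨Ck, hCk, hkap⟩ := kap_bound
  obtain ⟨Af, hAf, hfar⟩ := FF_far
  obtain ⟨K1, hK1, hDX⟩ := DX_lin
  obtain ⟨K2, hK2, hDD⟩ := DD_lin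
  obtain ⟨K, hK, hMV⟩ := MVmain
  refine ⟨E1 + E2 + 1, fun E hE τ₂ ε hε => ?_⟩
  have hτ2 : (0 : ℝ) ≤ τ₂ := Nat.cast_nonneg τ₂
  have hEr : (1 : ℝ) ≤ E := by exact_mod_cast (by omega : 1 ≤ E)
  obtain ⟨Ar, hAr⟩ : ∃ Ar : ℝ, Ar = 2 * τ₂ + 24 := ⟨_, rfl⟩
  have hA24 : 24 ≤ Ar := by rw [hAr]; linarith
  obtain ⟨κ, hκ⟩ : ∃ κ : ℝ, κ = 1 / (2 * (Ar * (E : ℝ) ^ 2)) := ⟨_, rfl⟩
  have hκ0 : 0 < κ := by rw [hκ]; positivity
  have hE2r : (1 : ℝ) ≤ (E : ℝ) ^ 2 := one_le_pow₀ hEr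
  have hκ48 : κ ≤ 1 / 48 := by
    rw [hκ]
    apply one_div_le_one_div_of_le (by norm_num)
    nlinarith
  obtain ⟨KF, hKF⟩ : ∃ KF : ℝ, KF = (K1 + K2) * ((((2 * τ₂ + 20 : ℕ) : ℝ) + 4) + 1 / κ) := ⟨_, rfl⟩
  have hKF0 : 0 < KF := by rw [hKF]; positivity
  obtain ⟨CR, hCR⟩ : ∃ CR : ℝ, CR = 12 * (Ck * KF) + Ck + 14 * Ck + Af * Ck * 6 := ⟨_, rfl⟩
  have hCR0 : 0 < CR := by rw [hCR]; positivity
  obtain ⟨Q1, hQ1, hHH⟩ := HH_bound (2 * τ₂ + 20)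
  obtain ⟨L1, hL1⟩ := exists_nat_ge (1 / κ * Real.log (2 * (Ck * KF * (2 * π) *
    (K * (Real.exp (2 * κ * pb (2 * τ₂ + 20)) * (1 + 1 / κ)))) / ε + 1))
  obtain ⟨L2, hL2⟩ := exists_nat_ge (1 / κ)
  obtain ⟨Q2, hQ2⟩ := exists_nat_ge (2 * CR / ε)
  refine ⟨L1 + L2 + 8 * (2 * (2 * τ₂ + 20) + 22), Q1 + Q2 + 3, fun Q hQ hNE => ?_⟩
  have hQ3n : 3 ≤ Q := by omega
  have hQ3 : (3 : ℝ) ≤ Q := by exact_mod_cast hQ3n
  have hQ0 : (0 : ℝ) < Q := by linarith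
  have hQ1' : (1 : ℝ) ≤ Q := by linarith
  obtain ⟨ℓ, hℓ⟩ : ∃ ℓ : ℝ, ℓ = Real.log Q := ⟨_, rfl⟩
  have hℓ1 : 1 ≤ ℓ := by
    rw [hℓ, Real.le_log_iff_exp_le hQ0]
    linarith [Real.exp_one_lt_d9]
  have hℓ0 : 0 < ℓ := by linarith
  have hℓQ : ℓ ≤ Q := by rw [hℓ]; exact (Real.log_le_sub_one_of_pos hQ0).trans (by linarith)
  obtain ⟨η, hη⟩ : ∃ η : ℝ, η = κ / ℓ := ⟨_, rfl⟩
  have hη0 : 0 < η := by rw [hη]; positivity
  have hηκ : η ≤ κ := by rw [hη]; exact div_le_self hκ0.le hℓ1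
  have hη1 : η ≤ 1 / 16 := by linarith
  have h2η : 2 * η = 1 / (Ar * E ^ 2 * ℓ) := by
    rw [hη, hκ]
    field_simp
  have hinv : 1 / η = ℓ / κ := by rw [hη, one_div_div]
  have hrect := rect_FF hK1 hK2 hDX hDD (τ := 2 * τ₂ + 20) hQ3n hη0 hη1
    (by
      intro j hj h1 ρ hρ hn
      have hjQ := (mem_fam.1 hj).1
      have hlj : Real.log ((j.1 + 1 : ℕ) : ℝ) ≤ Real.log Q :=
        Real.log_le_log (by exact_mod_cast Nat.succ_pos _) (by exact_mod_cast hjQ)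
      have h2 := hzfree E (by omega) (2 * τ₂ + 24) Q (by omega) hQ3n hNE (j.1 + 1) hjQ j.2 h1 ρ hρ (by
        unfold lq
        have h3 := ell_T hQ3n hn
        push_cast at h3 hlj ⊢
        linarith)
      rw [h2η, hAr, hℓ]
      push_cast at h2
      exact h2)
    (by
      intro ρ hρ hn
      have h2 := hzf ρ hρ
      have h3 : ell ρ.im ≤ Ar * ℓ := by
        have h4 := ell_T hQ3n hn
        have h5 : ell ρ.im ≤ ell (2 * ρ.im) := by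
          apply ell_mono
          rw [abs_mul, abs_two]
          linarith [abs_nonneg ρ.im]
        rw [← hℓ] at h4
        push_cast at h4
        rw [hAr]
        linarith
      have h5 : 0 < ell ρ.im := by linarith [one_le_ell ρ.im]
      have h6 : 1 ≤ cz * E := by
        have : 1 / cz ≤ E := hE2.trans (by exact_mod_cast (by omega : E2 ≤ E))
        rw [div_le_iff₀ hcz] at this
        linarith
      have h8 : 1 ≤ cz * (E : ℝ) ^ 2 := by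
        have h7 : (E : ℝ) ≤ (E : ℝ) ^ 2 := by nlinarith
        exact h6.trans (mul_le_mul_of_nonneg_left h7 hcz.le)
      have h4 : 1 / (Ar * E ^ 2 * ℓ) ≤ cz / ell ρ.im := by
        rw [div_le_div_iff₀ (by positivity) h5]
        have h9 : Ar * ℓ * 1 ≤ Ar * ℓ * (cz * (E : ℝ) ^ 2) := mul_le_mul_of_nonneg_left h8 (by positivity)
        linarith
      rw [h2η]
      linarith)
  have hK0 : (K1 + K2) * ((((2 * τ₂ + 20 : ℕ) : ℝ) + 4) * Real.log Q + 1 / η) = KF * ℓ := by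
    rw [hinv, hKF, ← hℓ]; field_simp
  rw [hK0] at hrect
  have hMV1 := hMV (2 * τ₂ + 20) Q η hQ3n hη0 (by linarith)
  refine ⟨fun j => Ck * (KF * Real.log Q) * Real.exp (-(κ * L1)) * (2 * π *
    ∫ ξ in (-(Q : ℝ) ^ (2 * τ₂ + 20))..((Q : ℝ) ^ (2 * τ₂ + 20)), ‖1 - ZQ (2 * τ₂ + 20) Q j (sp η ξ)‖ ^ 2) +
    CR / (Q : ℝ) ^ 9, ?_, ?_, ?_⟩
  · intro j _
    have h1 : 0 ≤ ∫ ξ in (-(Q : ℝ) ^ (2 * τ₂ + 20))..((Q : ℝ) ^ (2 * τ₂ + 20)),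
        ‖1 - ZQ (2 * τ₂ + 20) Q j (sp η ξ)‖ ^ 2 := by
      apply intervalIntegral.integral_nonneg
      · have : (0 : ℝ) ≤ (Q : ℝ) ^ (2 * τ₂ + 20) := by positivity
        linarith
      · intro ξ _; positivity
    have h2 : 0 ≤ Real.log Q := by rw [← hℓ]; exact hℓ0.le
    positivity
  · apply sum_bounds hK hCk hKF0 hκ0 hCR0 hε hQ3n hL1
      (hQ2.trans (by exact_mod_cast (by omega : Q2 ≤ Q))) 
      (fun j => ∫ ξ in (-(Q : ℝ) ^ (2 * τ₂ + 20))..((Q : ℝ) ^ (2 * τ₂ + 20)), ‖1 - ZQ (2 * τ₂ + 20) Q j (sp η ξ)‖ ^ 2)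
    have h1 : κ / Real.log Q = η := by rw [hη, hℓ]
    rw [h1]
    exact hMV1
  · intro j hj u hu1 hu2
    rw [← hℓ] at hu1
    push_cast at hu1
    have hL1' : (0 : ℝ) ≤ L1 := Nat.cast_nonneg L1
    have hL2' : (0 : ℝ) ≤ L2 := Nat.cast_nonneg L2
    have huη : 1 / η ≤ u := by
      rw [hinv, div_eq_mul_one_div, mul_comm]
      refine le_trans (mul_le_mul_of_nonneg_right hL2 hℓ0.le) (le_trans ?_ hu1)
      apply mul_le_mul_of_nonneg_right _ hℓ0.le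
      linarith
    have hu0 : 0 ≤ u := le_trans (by positivity) huη
    have h1 := one_win hCk hkap hAf hfar hQ3n hη0 hη1 (by positivity : 0 ≤ KF * ℓ) hrect
      (hHH Q (by omega)) hj (h := 1 / (Q : ℝ) ^ τ₂) (u := u) (by positivity)
      (by
        rw [div_le_one (by positivity)]
        exact one_le_pow₀ hQ1') huη
    have h2 := err_terms (τ₂ := τ₂) hCk hAf (by positivity : 0 ≤ KF * ℓ) hQ3n
      (mul_le_mul_of_nonneg_left hℓQ hKF0.le) hKF0.le hu0 hu2 (by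
        rw [← hℓ]
        refine le_trans ?_ hu1
        push_cast
        apply mul_le_mul_of_nonneg_right _ hℓ0.le
        linarith)
    rw [← hCR] at h2
    have h3 : Ck * (KF * ℓ) * Real.exp (-(η * u)) *
        (2 * π * ∫ ξ in (-(Q : ℝ) ^ (2 * τ₂ + 20))..((Q : ℝ) ^ (2 * τ₂ + 20)), ‖1 - ZQ (2 * τ₂ + 20) Q j (sp η ξ)‖ ^ 2) ≤
        Ck * (KF * ℓ) * Real.exp (-(κ * L1)) *
        (2 * π * ∫ ξ in (-(Q : ℝ) ^ (2 * τ₂ + 20))..((Q : ℝ) ^ (2 * τ₂ + 20)), ‖1 - ZQ (2 * τ₂ + 20) Q j (sp η ξ)‖ ^ 2) := by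
      have h4 : 0 ≤ ∫ ξ in (-(Q : ℝ) ^ (2 * τ₂ + 20))..((Q : ℝ) ^ (2 * τ₂ + 20)),
          ‖1 - ZQ (2 * τ₂ + 20) Q j (sp η ξ)‖ ^ 2 := by
        apply intervalIntegral.integral_nonneg
        · have : (0 : ℝ) ≤ (Q : ℝ) ^ (2 * τ₂ + 20) := by positivity
          linarith
        · intro ξ _; positivity
      have e1 : Real.exp (-(η * u)) ≤ Real.exp (-(κ * L1)) := by
        apply Real.exp_le_exp.2
        have e3 : κ * L1 = η * (L1 * ℓ) := by rw [hη]; field_simp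
        have e4 : η * (L1 * ℓ) ≤ η * u := by
          apply mul_le_mul_of_nonneg_left _ hη0.le
          refine le_trans ?_ hu1
          apply mul_le_mul_of_nonneg_right _ hℓ0.le
          linarith
        linarith
      gcongr
    rw [← hℓ]
    linarith

end Pool.Agent.Helper86.PS
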